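import Mathlib

-- merged part: Pool.Agent.Work.MP_11a08a_al.Lin.DefsU
section
/-!
Definitions and statements for the ultraproduct layer: ranks in a field, internal sets, dimension.
-/

set_option autoImplicit false

open Filter MvPolynomial

namespace Pool.Agent.Work.MP_11a08a_al.Lin

section Alg

variable {Ω : Type} [Field Ω]

/-- The elements algebraic over the subfield generated by `A`. -/
def acl (A : Set Ω) : Set Ω := {z | IsAlgebraic (Subfield.closure A) z}

/-- `B` has transcendence degree at most `d` over `A`. -/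
def RkLE (A B : Set Ω) (d : ℕ) : Prop := ∃ S : Finset Ω, S.card ≤ d ∧ B ⊆ acl (A ∪ S)

/-- The coefficients of `F` lie in the subfield generated by `A`. -/
def Ov {τ : Type} (A : Set Ω) (F : MvPolynomial τ Ω) : Prop :=
  ∀ m, F.coeff m ∈ Subfield.closure A

end Alg

/-- The calculus of ranks. -/
def StmtAcl : Prop :=
  ∀ (Ω : Type) [Field Ω],
    (∀ A : Set Ω, ∃ L : Subfield Ω, (L : Set Ω) = acl A ∧ A ⊆ acl A) ∧
    (∀ A B : Set Ω, A ⊆ acl B → acl A ⊆ acl B) ∧
    (∀ A : Set Ω, A.Countable → (acl A).Countable) ∧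
    (∀ (A A' B B' : Set Ω) (d d' : ℕ), RkLE A B d → A ⊆ A' → B' ⊆ acl (A' ∪ B) → d ≤ d' →
      RkLE A' B' d') ∧
    (∀ (A B B' : Set Ω) (d e : ℕ), RkLE A B d → RkLE (A ∪ B) B' e → RkLE A (B ∪ B') (d + e)) ∧
    (∀ (A B B' : Set Ω) (d : ℕ), RkLE A (B ∪ B') d →
      ∃ e ≤ d, RkLE A B e ∧ RkLE (A ∪ B) B' (d - e)) ∧
    (∀ (A B : Set Ω) (d : ℕ), RkLE A B d →
      ∃ S : Finset Ω, (S : Set Ω) ⊆ B ∧ S.card ≤ d ∧ B ⊆ acl (A ∪ S) ∧
        AlgebraicIndependent (Subfield.closure A) fun x : S => (x : Ω)) ∧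
    (∀ (A : Set Ω) (ι : Type) [Fintype ι] (x : ι → Ω) (d : ℕ),
      AlgebraicIndependent (Subfield.closure A) x → RkLE A (Set.range x) d → Fintype.card ι ≤ d) ∧
    ∀ (τ : Type) [Finite τ] (A : Set Ω), A.Countable → {F : MvPolynomial τ Ω | Ov A F}.Countable

/-- Specialisation does not raise the rank, and proper specialisation lowers it. -/
def StmtSpec : Prop :=
  ∀ (Ω τ : Type) [Field Ω] [Finite τ] (A : Set Ω) (z w : τ → Ω),
    (∀ F : MvPolynomial τ Ω, Ov A F → eval w F = 0 → eval z F = 0) →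
    ∀ d, RkLE A (Set.range w) d → RkLE A (Set.range z) d ∧
      ((∃ F : MvPolynomial τ Ω, Ov A F ∧ eval z F = 0 ∧ eval w F ≠ 0) →
        ∃ d' < d, RkLE A (Set.range z) d')

/-- A bound for the relative rank is a countable union of constructible conditions. -/
def StmtWit : Prop :=
  ∀ (Ω τ τ' : Type) [Field Ω] [Finite τ] [Finite τ'] (A : Set Ω), A.Countable → ∀ e : ℕ,
    ∃ J : Set (Finset (MvPolynomial (τ ⊕ τ') Ω) × Finset (MvPolynomial (τ ⊕ τ') Ω)),
      J.Countable ∧ ∀ (a : τ → Ω) (b : τ' → Ω), RkLE (A ∪ Set.range a) (Set.range b) e ↔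
        ∃ p ∈ J, (∀ F ∈ p.1, eval (Sum.elim a b) F = 0) ∧ ∀ F ∈ p.2, eval (Sum.elim a b) F ≠ 0

/-- An ultraproduct of fields. -/
structure UP (K : ℕ → Type) [∀ i, Field (K i)] (Ω : Type) [Field Ω] where
  Φ : (∀ i, K i) →+* Ω
  surj : Function.Surjective Φ
  ker : ∀ x, Φ x = 0 ↔ ∀ᶠ i in (hyperfilter ℕ : Filter ℕ), x i = 0

def StmtUP : Prop :=
  ∀ (K : ℕ → Type) [∀ i, Field (K i)], ∃ (Ω : Type) (_ : Field Ω), Nonempty (UP K Ω)

/-- A sequence of finite nonempty sets with coordinates. -/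
structure Sp (K : ℕ → Type) where
  X : ℕ → Type
  τ : Type
  fin : ∀ i, Finite (X i)
  ne : ∀ i, Nonempty (X i)
  ft : Finite τ
  c : ∀ i, X i → τ → K i
  inj : ∀ i, Function.Injective (c i)

attribute [instance] Sp.fin Sp.ne Sp.ft

/-- Nested products. -/
def Pw (A : Type) : ℕ → Type
  | 0 => Unit
  | k + 1 => A × Pw A k

instance Pw.finite (A : Type) [Finite A] : ∀ k, Finite (Pw A k)
  | 0 => inferInstanceAs (Finite Unit)
  | k + 1 => have := Pw.finite A k; inferInstanceAs (Finite (A × Pw A k))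

instance Pw.nonempty (A : Type) [Nonempty A] : ∀ k, Nonempty (Pw A k)
  | 0 => inferInstanceAs (Nonempty Unit)
  | k + 1 => have := Pw.nonempty A k; inferInstanceAs (Nonempty (A × Pw A k))

/-- Nested sums. -/
def Pt (τ : Type) : ℕ → Type
  | 0 => Empty
  | k + 1 => τ ⊕ Pt τ k

instance Pt.finite (τ : Type) [Finite τ] : ∀ k, Finite (Pt τ k)
  | 0 => inferInstanceAs (Finite Empty)
  | k + 1 => have := Pt.finite τ k; inferInstanceAs (Finite (τ ⊕ Pt τ k))

/-- Coordinates on nested products. -/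
def Pc {A τ F : Type} (c : A → τ → F) : ∀ k, Pw A k → Pt τ k → F
  | 0, _ => fun t => Empty.elim t
  | k + 1, x => Sum.elim (c x.1) (Pc c k x.2)

theorem Pc_inj {A τ F : Type} {c : A → τ → F} (h : Function.Injective c) :
    ∀ k, Function.Injective (Pc c k)
  | 0 => fun _ _ _ => rfl
  | k + 1 => fun _ _ e => Prod.ext (h (funext fun t => congrFun e (Sum.inl t)))
      (Pc_inj h k (funext fun t => congrFun e (Sum.inr t)))

/-- A product of `k` terms, each a conjugate of `g` times a conjugate of `g⁻¹`. -/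
def phi {Γ : Type} [Group Γ] (g : Γ) : ∀ k, Pw (Γ × Γ) k → Γ
  | 0, _ => 1
  | k + 1, x => x.1.1 * g * x.1.1⁻¹ * (x.1.2 * g⁻¹ * x.1.2⁻¹) * phi g k x.2

section Ultra

variable {K : ℕ → Type}

/-- The product of two spaces. -/
def Sp.prod (X X' : Sp K) : Sp K where
  X i := X.X i × X'.X i
  τ := X.τ ⊕ X'.τ
  fin _ := inferInstance
  ne _ := inferInstance
  ft := inferInstance
  c i x := Sum.elim (X.c i x.1) (X'.c i x.2)
  inj i _ _ e := Prod.ext (X.inj i (funext fun t => congrFun e (Sum.inl t)))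
    (X'.inj i (funext fun t => congrFun e (Sum.inr t)))

/-- The powers of a space. -/
def Sp.pow (X : Sp K) (k : ℕ) : Sp K where
  X i := Pw (X.X i) k
  τ := Pt X.τ k
  fin _ := inferInstance
  ne _ := inferInstance
  ft := inferInstance
  c i := Pc (X.c i) k
  inj i := Pc_inj (X.inj i) k

theorem Sp.pow_succ (X : Sp K) (k : ℕ) : X.pow (k + 1) = X.prod (X.pow k) := rfl

/-- Points of the ultraproduct. -/
abbrev Sp.Pnt (X : Sp K) : Type := ∀ i, X.X i

/-- Internal sets. -/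
abbrev Sp.In (X : Sp K) : Type := ∀ i, Set (X.X i)

/-- The points of an internal set. -/
def pts {X : Sp K} (Y : X.In) : Set X.Pnt := {x | ∀ᶠ i in (hyperfilter ℕ : Filter ℕ), x i ∈ Y i}

/-- An internal map applied to a point. -/
def ap {X X' : Sp K} (ψ : ∀ i, X.X i → X'.X i) (x : X.Pnt) : X'.Pnt := fun i => ψ i (x i)

/-- The size of `Y` is at most a constant times `a`. -/
def Ll {X : Sp K} (Y : X.In) (a : ℕ → ℝ) : Prop :=
  ∃ C : ℝ, ∀ᶠ i in (hyperfilter ℕ : Filter ℕ), ((Y i).ncard : ℝ) ≤ C * a i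

variable [∀ i, Field (K i)] {Ω : Type} [Field Ω] (u : UP K Ω)

/-- The coordinates of a point. -/
def co {X : Sp K} (x : X.Pnt) (t : X.τ) : Ω := u.Φ fun i => X.c i (x i) t

/-- The value of a polynomial at a point. -/
noncomputable def ev {X : Sp K} (F : MvPolynomial X.τ Ω) (x : X.Pnt) : Ω := eval (co u x) F

/-- `Z` is the zero set of `F`. -/
def IsZ {X : Sp K} (F : MvPolynomial X.τ Ω) (Z : X.In) : Prop := ∀ x, x ∈ pts Z ↔ ev u F x = 0

/-- The Zariski closure. -/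
def clo {X : Sp K} (P : Set X.Pnt) : Set X.Pnt :=
  {x | ∀ F : MvPolynomial X.τ Ω, (∀ y ∈ P, ev u F y = 0) → ev u F x = 0}

/-- Dimension at most `d`. -/
def Dim {X : Sp K} (P : Set X.Pnt) (d : ℕ) : Prop :=
  ∃ A : Set Ω, A.Countable ∧ ∀ x ∈ P, RkLE A (Set.range (co u x)) d

/-- Polynomial maps. -/
def Pol (X X' : Sp K) (ψ : ∀ i, X.X i → X'.X i) : Prop :=
  ∀ t, ∃ F : MvPolynomial X.τ Ω, ∀ x : X.Pnt, co u (ap ψ x) t = ev u F x

/-- Proper closed subsets of `Y` are negligible. -/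
def Thin {X : Sp K} (Y : X.In) : Prop :=
  (pts Y).Nonempty ∧ ∀ (F : MvPolynomial X.τ Ω) (Z : X.In), IsZ u F Z →
    (∃ y ∈ pts Y, ev u F y ≠ 0) → ∀ η : ℝ, 0 < η →
      ∀ᶠ i in (hyperfilter ℕ : Filter ℕ), ((Y i ∩ Z i).ncard : ℝ) ≤ η * (Y i).ncard

/-- The inequality of Larsen and Pink with base `a`. -/
def LPp (X : Sp K) (a : ℕ → ℝ) : Prop :=
  ∀ (d : ℕ) (Y : X.In), Dim u (pts Y) d → Ll Y fun i => a i ^ d

/-- A sequence of simple groups of growing order with polynomial operations. -/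
structure GrpSp (X : Sp K) [∀ i, Group (X.X i)] : Prop where
  mul : Pol u (X.prod X) X fun _ p => p.1 * p.2
  inv : Pol u X X fun _ p => p⁻¹
  simple : ∀ i, IsSimpleGroup (X.X i)
  nc : ∀ i, ∃ x y : X.X i, x * y ≠ y * x
  big : ∀ B : ℕ, ∀ᶠ i in (hyperfilter ℕ : Filter ℕ), B ≤ Nat.card (X.X i)

end Ultra

end Pool.Agent.Work.MP_11a08a_al.Lin
end

-- merged part: Pool.Agent.Work.MP_11a08a_al.Lin.DefsV
section
/-!
Statements of the ultraproduct layer.
-/

set_option autoImplicit false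

open Filter MvPolynomial

namespace Pool.Agent.Work.MP_11a08a_al.Lin

/-- Transfer and countable saturation. -/
def StmtSat : Prop :=
  ∀ (K : ℕ → Type) (X : Sp K),
    (∀ (Y : X.In) (R : ∀ i, X.X i → Prop),
      (∀ x ∈ pts Y, ∀ᶠ i in (hyperfilter ℕ : Filter ℕ), R i (x i)) →
      ∀ᶠ i in (hyperfilter ℕ : Filter ℕ), ∀ x ∈ Y i, R i x) ∧
    (∀ Y : X.In, (pts Y).Nonempty ↔ ∀ᶠ i in (hyperfilter ℕ : Filter ℕ), (Y i).Nonempty) ∧
    (∀ (Y : X.In) (ι : Type) [Countable ι] (Z : ι → X.In),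
      (∀ x ∈ pts Y, ∃ p, x ∈ pts (Z p)) →
      ∃ s : Finset ι, ∀ᶠ i in (hyperfilter ℕ : Filter ℕ), ∀ x ∈ Y i, ∃ p ∈ s, x ∈ Z p i) ∧
    (∀ (X' : Sp K) (T : X.In) (Y : (X.prod X').In) (a : ℕ → ℝ),
      (∀ z ∈ pts T, Ll (X := X') (fun i => {x | (z i, x) ∈ Y i}) a) →
      ∃ C : ℝ, ∀ᶠ i in (hyperfilter ℕ : Filter ℕ), ∀ z ∈ T i,
        (({x | (z, x) ∈ Y i} : Set (X'.X i)).ncard : ℝ) ≤ C * a i) ∧
    ∀ [∀ i, Field (K i)] (Ω : Type) [Field Ω] (u : UP K Ω) (x y : X.Pnt),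
      co u x = co u y ↔ ∀ᶠ i in (hyperfilter ℕ : Filter ℕ), x i = y i

/-- Closed sets are internal; minimal large closed subsets. -/
def StmtInt : Prop :=
  ∀ (K : ℕ → Type) [∀ i, Field (K i)] (Ω : Type) [Field Ω] (u : UP K Ω) (X : Sp K),
    (∀ F : MvPolynomial X.τ Ω, ∃ Z : X.In, IsZ u F Z) ∧
    (∀ P : Set X.Pnt, ∃ Z : X.In, pts Z = clo u P) ∧
    ∀ Sm : X.In → Prop,
      (∀ Y Y' : X.In, (∀ᶠ i in (hyperfilter ℕ : Filter ℕ), Y i ⊆ Y' i) → Sm Y' → Sm Y) →
      ∀ Y : X.In, ¬ Sm Y → ∃ Y' : X.In, (∀ i, Y' i ⊆ Y i) ∧ ¬ Sm Y' ∧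
        pts Y' = pts Y ∩ clo u (pts Y') ∧ ∀ (F : MvPolynomial X.τ Ω) (Z : X.In), IsZ u F Z →
          (∃ y ∈ pts Y', ev u F y ≠ 0) → Sm fun i => Y' i ∩ Z i

/-- The calculus of polynomial maps. -/
def StmtPol : Prop :=
  ∀ (K : ℕ → Type) [∀ i, Field (K i)] (Ω : Type) [Field Ω] (u : UP K Ω) (X X' : Sp K),
    Pol u X X (fun _ x => x) ∧ (∀ a : X'.Pnt, Pol u X X' fun i _ => a i) ∧
    Pol u (X.prod X') X (fun _ x => x.1) ∧ Pol u (X.prod X') X' (fun _ x => x.2) ∧
    (∀ x : (X.prod X').Pnt, co u x =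
      Sum.elim (co u (X := X) fun i => (x i).1) (co u (X := X') fun i => (x i).2)) ∧
    ∀ ψ : ∀ i, X.X i → X'.X i, Pol u X X' ψ →
      (∀ (X'' : Sp K) (χ : ∀ i, X.X i → X''.X i), Pol u X X'' χ →
        Pol u X (X'.prod X'') fun i x => (ψ i x, χ i x)) ∧
      (∀ (X'' : Sp K) (χ : ∀ i, X'.X i → X''.X i), Pol u X' X'' χ →
        Pol u X X'' fun i x => χ i (ψ i x)) ∧
      (∀ F' : MvPolynomial X'.τ Ω, ∃ F : MvPolynomial X.τ Ω, ∀ x, ev u F x = ev u F' (ap ψ x)) ∧
      (∀ (P : Set X.Pnt) (P' : Set X'.Pnt), (∀ x ∈ P, ap ψ x ∈ clo u P') →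
        ∀ x ∈ clo u P, ap ψ x ∈ clo u P') ∧
      ∃ A₀ : Set Ω, A₀.Countable ∧ ∀ A : Set Ω, A₀ ⊆ A →
        (∀ x, Set.range (co u (ap ψ x)) ⊆ acl (A ∪ Set.range (co u x))) ∧
        ∀ F' : MvPolynomial X'.τ Ω, Ov A F' →
          ∃ F : MvPolynomial X.τ Ω, Ov A F ∧ ∀ x, ev u F x = ev u F' (ap ψ x)

/-- The calculus of dimensions. -/
def StmtDim : Prop :=
  ∀ (K : ℕ → Type) [∀ i, Field (K i)] (Ω : Type) [Field Ω] (u : UP K Ω) (X : Sp K),
    (∀ (P P' : Set X.Pnt) (d d' : ℕ), P' ⊆ P → d ≤ d' → Dim u P d → Dim u P' d') ∧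
    (∀ P : Set X.Pnt, ∃ d, Dim u P d) ∧
    (∀ Y : X.In, Dim u (pts Y) 0 → Ll Y fun _ => 1) ∧
    (∀ (X' : Sp K) (ψ : ∀ i, X.X i → X'.X i) (P : Set X.Pnt) (d : ℕ), Pol u X X' ψ →
      Dim u P d → Dim u (ap ψ '' P) d) ∧
    (∀ (X' : Sp K) (d d' : ℕ), Dim u (Set.univ : Set X.Pnt) d → Dim u (Set.univ : Set X'.Pnt) d' →
      Dim u (Set.univ : Set (X.prod X').Pnt) (d + d')) ∧
    ∀ (d k : ℕ), Dim u (Set.univ : Set X.Pnt) d → Dim u (Set.univ : Set (X.pow k).Pnt) (k * d)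

/-- Generic points and their consequences. -/
def StmtDens : Prop :=
  ∀ (K : ℕ → Type) [∀ i, Field (K i)] (Ω : Type) [Field Ω] (u : UP K Ω) (X : Sp K) (Y : X.In),
    Thin u Y →
    (∀ A : Set Ω, A.Countable → ∃ w ∈ pts Y, ∀ F : MvPolynomial X.τ Ω, Ov A F → ev u F w = 0 →
      ∀ y ∈ pts Y, ev u F y = 0) ∧
    (∀ d, Dim u (pts Y) d → Dim u (clo u (pts Y)) d) ∧
    ∀ (X' : Sp K) (ψ : ∀ i, X.X i → X'.X i) (T : Set X'.Pnt) (d : ℕ), Pol u X X' ψ →
      Dim u (ap ψ '' pts Y) d → T ⊆ ap ψ '' pts Y → T.Nonempty → (∀ d' < d, ¬ Dim u T d') →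
      ap ψ '' pts Y ⊆ clo u T

/-- Thin sets: products, powers, and minimal large sets. -/
def StmtThin : Prop :=
  ∀ (K : ℕ → Type) [∀ i, Field (K i)] (Ω : Type) [Field Ω] (u : UP K Ω) (X : Sp K),
    (∀ (X' : Sp K) (Y : X.In) (Y' : X'.In), Thin u Y → Thin u Y' →
      Thin u (X := X.prod X') fun i => Y i ×ˢ Y' i) ∧
    (Thin u (X := X) (fun _ => Set.univ) → ∀ k, Thin u (X := X.pow k) fun _ => Set.univ) ∧
    ∀ (Y : X.In) (a : ℕ → ℝ), (∀ i, 0 ≤ a i) → ¬ Ll Y a →
      (∀ (F : MvPolynomial X.τ Ω) (Z : X.In), IsZ u F Z → (∃ y ∈ pts Y, ev u F y ≠ 0) →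
        Ll (fun i => Y i ∩ Z i) a) → Thin u Y

/-- Counting along a fibration. -/
def StmtCount : Prop :=
  ∀ (K : ℕ → Type) [∀ i, Field (K i)] (Ω : Type) [Field Ω] (u : UP K Ω) (X X' : Sp K)
    (Y : (X.prod X').In) (A : Set Ω) (ι : Type) [Countable ι] (Z : ι → (X.prod X').In)
    (E : Set (ℕ × ℕ)) (a : ℕ → ℝ), A.Countable → (∀ i, 1 ≤ a i) →
    (∀ w ∈ pts Y, (∃ p, w ∈ pts (Z p)) ∨ ∃ e ∈ E,
      RkLE A (Set.range (co u (X := X) fun i => (w i).1)) e.1 ∧
      RkLE (A ∪ Set.range (co u (X := X) fun i => (w i).1))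
        (Set.range (co u (X := X') fun i => (w i).2)) e.2) →
    (∀ e ∈ E, ∀ T : X'.In, Dim u (pts T) e.2 → Ll T fun i => a i ^ e.2) →
    (∀ d : ℕ, (∀ e ∈ E, e.2 ≤ d) → ∃ (s : Finset ι) (C : ℝ),
      ∀ᶠ i in (hyperfilter ℕ : Filter ℕ), ∀ z : X.X i,
        (({x | (z, x) ∈ Y i ∧ ∀ p ∈ s, (z, x) ∉ Z p i} : Set (X'.X i)).ncard : ℝ) ≤ C * a i ^ d) ∧
    ∀ (d : ℕ) (b : ℕ × ℕ → ℕ), (∀ e ∈ E, b e + e.2 ≤ d) →
      (∀ e ∈ E, ∀ T : X.In, Dim u (pts T) e.1 → Ll T fun i => a i ^ b e) →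
      ∃ (s : Finset ι) (C : ℝ), ∀ᶠ i in (hyperfilter ℕ : Filter ℕ),
        (({w | w ∈ Y i ∧ ∀ p ∈ s, w ∉ Z p i} : Set ((X.prod X').X i)).ncard : ℝ) ≤ C * a i ^ d

/-- Invariant internal sets are everything; the group is thin. -/
def StmtCoreU : Prop :=
  ∀ (K : ℕ → Type) [∀ i, Field (K i)] (Ω : Type) [Field Ω] (u : UP K Ω) (X : Sp K)
    [∀ i, Group (X.X i)], GrpSp u X →
    (∀ V S : X.In, (pts V).Nonempty →
      (∀ᶠ i in (hyperfilter ℕ : Filter ℕ), ∃ s ∈ S i, s ≠ 1) →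
      (∀ i, ∀ s ∈ S i, ∀ a, a * s * a⁻¹ ∈ S i) → (∀ s ∈ pts S, ∀ v ∈ pts V, s * v ∈ pts V) →
      pts V = Set.univ) ∧
    (∀ a b : X.Pnt, Pol u X X fun i x => a i * x * b i) ∧
    Thin u (X := X) fun _ => Set.univ

/-- The inequality of Larsen and Pink for the group. -/
def StmtLP : Prop :=
  ∀ (K : ℕ → Type) [∀ i, Field (K i)] (Ω : Type) [Field Ω] (u : UP K Ω) (X : Sp K)
    [∀ i, Group (X.X i)], GrpSp u X → ∃ (D : ℕ) (a : ℕ → ℝ), 0 < D ∧ (∀ i, 1 ≤ a i) ∧
      (∀ i, a i ^ D = Nat.card (X.X i)) ∧ Dim u (Set.univ : Set X.Pnt) D ∧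
      (∀ D' < D, ¬ Dim u (Set.univ : Set X.Pnt) D') ∧ LPp u X a

/-- The step of the proof that moves two thin sets into general position. -/
def StmtLPa : Prop :=
  ∀ (K : ℕ → Type) [∀ i, Field (K i)] (Ω : Type) [Field Ω] (u : UP K Ω) (X : Sp K)
    [∀ i, Group (X.X i)], GrpSp u X → ∀ (Y Y' : X.In) (d : ℕ), Thin u Y → Thin u Y' →
      (∀ᶠ i in (hyperfilter ℕ : Filter ℕ), 2 ≤ (Y i).ncard) → Dim u (pts Y') d →
      (∀ d' < d, ¬ Dim u (pts Y') d') → ¬ Dim u (Set.univ : Set X.Pnt) d →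
      ∃ a : X.Pnt, ¬ Dim u (ap (X := X.prod X) (X' := X) (fun i p => p.1 * a i * p.2) ''
        pts (X := X.prod X) fun i => Y i ×ˢ Y' i) d

/-- The inequality for products and powers. -/
def StmtLPk : Prop :=
  ∀ (K : ℕ → Type) [∀ i, Field (K i)] (Ω : Type) [Field Ω] (u : UP K Ω) (X : Sp K)
    (a : ℕ → ℝ), (∀ i, 1 ≤ a i) → LPp u X a →
    (∀ X' : Sp K, LPp u X' a → LPp u (X.prod X') a) ∧ ∀ k, LPp u (X.pow k) a

/-- Products of conjugates are dense. -/
def StmtDom : Prop :=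
  ∀ (K : ℕ → Type) [∀ i, Field (K i)] (Ω : Type) [Field Ω] (u : UP K Ω) (X : Sp K)
    [∀ i, Group (X.X i)], GrpSp u X → ∀ g : X.Pnt, (∀ i, g i ≠ 1) →
    (∀ k, Pol u ((X.prod X).pow k) X fun i => phi (g i) k) ∧ ∃ k, 0 < k ∧
      clo u (Set.range (ap (X := (X.prod X).pow k) (X' := X) fun i => phi (g i) k)) = Set.univ

/-- The mixing property of a sequence of groups. -/
def Mix (Γ : ℕ → Type) [∀ i, Group (Γ i)] (g : ∀ i, Γ i) : Prop :=
  ∃ (k : ℕ) (C : ℝ), ∀ η : ℝ, 0 < η → ∀ᶠ i in (hyperfilter ℕ : Filter ℕ), ∀ A : Set (Γ i),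
    (({x | phi (g i) k x ∈ A} : Set (Pw (Γ i × Γ i) k)).ncard : ℝ) * Nat.card (Γ i) ≤
      (η * Nat.card (Γ i) + C * A.ncard) * (Nat.card (Γ i) : ℝ) ^ (2 * k)

def StmtMixU : Prop :=
  ∀ (K : ℕ → Type) [∀ i, Field (K i)] (Ω : Type) [Field Ω] (u : UP K Ω) (X : Sp K)
    [∀ i, Group (X.X i)], GrpSp u X → ∀ g : X.Pnt, (∀ i, g i ≠ 1) → Mix X.X g

/-- `Q` has a faithful linear representation of degree `m` over some field. -/
def LinG (m : ℕ) (Q : Type) [Group Q] : Prop :=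
  ∃ (K : Type) (_ : Field K) (f : Q →* GL (Fin m) K), Function.Injective f

def StmtMix : Prop :=
  ∀ (m : ℕ) (Γ : ℕ → Type) [∀ i, Group (Γ i)] [∀ i, Finite (Γ i)], (∀ i, LinG m (Γ i)) →
    (∀ i, IsSimpleGroup (Γ i)) → (∀ i, ∃ x y : Γ i, x * y ≠ y * x) →
    (∀ B : ℕ, ∀ᶠ i in (hyperfilter ℕ : Filter ℕ), B ≤ Nat.card (Γ i)) →
    ∀ g : ∀ i, Γ i, (∀ i, g i ≠ 1) → Mix Γ g

/-- A function with the properties of a character ratio is small on a large simple linear group. -/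
def StmtFn : Prop :=
  ∀ (m : ℕ) (τ : ℝ), 0 < τ → ∃ d : ℕ, ∀ (Γ : Type) [Group Γ] [Finite Γ], LinG m Γ →
    IsSimpleGroup Γ → (∃ x y : Γ, x * y ≠ y * x) → d < Nat.card Γ → ∀ (D : ℕ) (f : Γ → ℝ),
    2 ≤ D → (∀ x, 0 ≤ f x ∧ f x ≤ 1) → f 1 = 1 → (∀ x, f x⁻¹ = f x) →
    (∀ x y, f (y * x * y⁻¹) = f x) →
    (∀ x y, √(1 - f (x * y)) ≤ √(1 - f x) + √(1 - f y)) →
    (D : ℝ) ^ 2 * ∑ᶠ x, f x ^ 2 ≤ Nat.card Γ →
    (∀ g k, f g ^ (2 * k) * (Nat.card Γ : ℝ) ^ (2 * k) ≤ ∑ᶠ x : Pw (Γ × Γ) k, f (phi g k x)) →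
    (∀ j : ℕ, 0 < j → (2 * j + 1) ^ (2 * D ^ 2) < Nat.card Γ → ∃ g, g ≠ 1 ∧ (1 - f g) * j ≤ 2 * D) →
    ∀ g, g ≠ 1 → f g ≤ τ

end Pool.Agent.Work.MP_11a08a_al.Lin
end

-- merged part: Pool.Agent.Work.MP_11a08a_al.Lin.Acl
section
/-!
Work with `k = Subfield.closure A`.  (1) `(algebraicClosure k Ω).toSubfield`.  (2) `A ⊆ acl B` gives `closure A ≤ L` with `L = acl B` a
subfield; an element algebraic over `closure A` is algebraic over `L` (map the polynomial along the inclusion), `L` is algebraic over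
`closure B`, use `IsAlgebraic.restrictScalars` or `isAlgebraic_iff_isIntegral` and `isIntegral_trans`.  (3) the closure of a countable set is countable
(`Subfield.cardinalMk_closure_le_max` or similar), countably many polynomials, finitely many roots each.  (4), (5) from (1), (2).
For (6), (7), (8) use the matroid `AlgebraicIndependent.matroid k Ω` (`matroid_indep_iff`, `matroid_closure_eq`); the bridge is
`z ∈ acl (A ∪ S) ↔ z ∈ M.closure S` (algebraic over `Algebra.adjoin k S` iff over its fraction field `closure (A ∪ S)`; `IntermediateField.isAlgebraic_adjoin_iff`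
or similar).  So `RkLE A B d ↔ M.eRk B ≤ d`; take a basis `S` of `B` (`Matroid.exists_isBasis`), for (6) extend it to a basis `S ∪ S'` of `B ∪ B'`
(`Matroid.Indep.subset_isBasis_of_subset`), `e = card S`, and `acl (A ∪ S ∪ S') ⊆ acl ((A ∪ B) ∪ S')`.  (9) polynomials over `A` are the image of the
countable type `MvPolynomial τ (closure A)` under `map` (`MvPolynomial.mem_range_map_iff_coeffs_subset` or build the preimage from monomials).
-/

set_option autoImplicit false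

open Filter MvPolynomial

namespace Pool.Agent.Work.MP_11a08a_al.Lin

section
variable {Ω : Type} [Field Ω]

theorem acl_up {K L : Subfield Ω} (h : K ≤ L) {z : Ω} (hz : IsAlgebraic K z) :
    IsAlgebraic L z := by
  obtain ⟨p, hp, hz⟩ := hz
  refine ⟨p.map (Subfield.inclusion h), Polynomial.map_ne_zero hp, ?_⟩
  rw [Polynomial.aeval_def, Polynomial.eval₂_map]
  exact hz

theorem acl_self (A : Set Ω) : A ⊆ acl A := fun z hz =>
  isAlgebraic_algebraMap (⟨z, Subfield.subset_closure hz⟩ : Subfield.closure A)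

theorem acl_field (A : Set Ω) :
    ((algebraicClosure (Subfield.closure A) Ω).toSubfield : Set Ω) = acl A :=
  Set.ext fun _ => mem_algebraicClosure_iff

theorem acl_trans {A B : Set Ω} (h : A ⊆ acl B) : acl A ⊆ acl B := by
  intro z hz
  have h1 : Subfield.closure A ≤ (algebraicClosure (Subfield.closure B) Ω).toSubfield := by
    rw [Subfield.closure_le, acl_field]
    exact h
  have h2 : IsAlgebraic (algebraicClosure (Subfield.closure B) Ω) z := acl_up h1 hz
  exact h2.restrictScalars (Subfield.closure B)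

theorem acl_mono {A B : Set Ω} (h : A ⊆ B) : acl A ⊆ acl B := acl_trans (h.trans (acl_self B))

theorem acl_cnt {A : Set Ω} (h : A.Countable) : Countable (Subfield.closure A) := by
  rw [← Cardinal.mk_le_aleph0_iff]
  exact (Subfield.cardinalMk_closure_le_max A).trans
    (max_le (Cardinal.le_aleph0_iff_set_countable.2 h) le_rfl)

theorem acl_bridge (A S : Set Ω) :
    acl (A ∪ S) = (AlgebraicIndependent.matroid (Subfield.closure A) Ω).closure S := by
  have e : (IntermediateField.adjoin (Subfield.closure A) S).toSubfield =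
      Subfield.closure (A ∪ S) := by
    rw [IntermediateField.adjoin_toSubfield]
    refine le_antisymm (Subfield.closure_le.2 (Set.union_subset ?_ ?_))
      (Subfield.closure_mono (Set.union_subset_union_left _ fun z hz =>
        ⟨⟨z, Subfield.subset_closure hz⟩, rfl⟩))
    · rintro _ ⟨z, rfl⟩
      exact Subfield.closure_mono Set.subset_union_left z.2
    · exact Set.subset_union_right.trans Subfield.subset_closure
  ext z
  rw [AlgebraicIndependent.matroid_closure_eq, SetLike.mem_coe, Subalgebra.mem_algebraicClosure,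
    ← IntermediateField.isAlgebraic_adjoin_iff]
  exact ⟨fun h => acl_up e.ge h, fun h => acl_up e.le h⟩

theorem acl_le {A I : Set Ω} {d : ℕ}
    (hI : (AlgebraicIndependent.matroid (Subfield.closure A) Ω).Indep I) (h : RkLE A I d) :
    I.encard ≤ d := by
  obtain ⟨T, hT, h⟩ := h
  rw [acl_bridge] at h
  refine (hI.encard_le_eRk_of_subset h).trans ?_
  rw [Matroid.eRk_closure_eq]
  refine (Matroid.eRk_le_encard _ _).trans ?_
  rw [Set.encard_coe_eq_coe_finsetCard]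
  exact_mod_cast hT

theorem acl_fin {A I : Set Ω} {d : ℕ}
    (hI : (AlgebraicIndependent.matroid (Subfield.closure A) Ω).Indep I) (h : RkLE A I d) :
    ∃ S : Finset Ω, (S : Set Ω) = I ∧ S.card ≤ d := by
  have h1 := acl_le hI h
  obtain ⟨S, rfl⟩ := (Set.finite_of_encard_le_coe h1).exists_finset_coe
  rw [Set.encard_coe_eq_coe_finsetCard] at h1
  exact ⟨S, rfl, by exact_mod_cast h1⟩

theorem acl_sub {A B B' : Set Ω} {d : ℕ} (h : RkLE A B d) (h' : B' ⊆ B) : RkLE A B' d := by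
  obtain ⟨T, hT, h⟩ := h
  exact ⟨T, hT, h'.trans h⟩

theorem acl_four {A A' B B' : Set Ω} {d d' : ℕ} (h : RkLE A B d) (hA : A ⊆ A')
    (hB : B' ⊆ acl (A' ∪ B)) (hd : d ≤ d') : RkLE A' B' d' := by
  obtain ⟨S, hS, h⟩ := h
  refine ⟨S, hS.trans hd, hB.trans (acl_trans (Set.union_subset ?_ ?_))⟩
  · exact Set.subset_union_left.trans (acl_self _)
  · exact h.trans (acl_mono (Set.union_subset_union_left _ hA))

theorem acl_five {A B B' : Set Ω} {d e : ℕ} (h : RkLE A B d) (h' : RkLE (A ∪ B) B' e) :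
    RkLE A (B ∪ B') (d + e) := by
  classical
  obtain ⟨S, hS, h⟩ := h
  obtain ⟨T, hT, h'⟩ := h'
  have k : B ⊆ acl (A ∪ (S ∪ T : Finset Ω)) := by
    refine h.trans (acl_mono (Set.union_subset_union_right _ ?_))
    rw [Finset.coe_union]
    exact Set.subset_union_left
  refine ⟨S ∪ T, (Finset.card_union_le _ _).trans (add_le_add hS hT), Set.union_subset k
    (h'.trans (acl_trans (Set.union_subset (Set.union_subset ?_ k) ?_)))⟩
  · exact Set.subset_union_left.trans (acl_self _)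
  · refine Set.Subset.trans ?_ (Set.subset_union_right.trans (acl_self _))
    rw [Finset.coe_union]
    exact Set.subset_union_right

theorem acl_six {A B B' : Set Ω} {d : ℕ} (h : RkLE A (B ∪ B') d) :
    ∃ e ≤ d, RkLE A B e ∧ RkLE (A ∪ B) B' (d - e) := by
  classical
  obtain ⟨S, hS⟩ := (AlgebraicIndependent.matroid (Subfield.closure A) Ω).exists_isBasis B
    (Set.subset_univ _)
  obtain ⟨I, hI, hSI⟩ := hS.indep.subset_isBasis_of_subset
    (hS.subset.trans (Set.subset_union_left (t := B'))) (Set.subset_univ _)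
  obtain ⟨I, rfl, cI⟩ := acl_fin hI.indep (acl_sub h hI.subset)
  obtain ⟨S, rfl⟩ := (I.finite_toSet.subset hSI).exists_finset_coe
  have hs : S ⊆ I := Finset.coe_subset.1 hSI
  refine ⟨S.card, (Finset.card_le_card hs).trans cI, ⟨S, le_rfl, ?_⟩, I \ S, ?_, ?_⟩
  · rw [acl_bridge]
    exact hS.subset_closure
  · rw [Finset.card_sdiff_of_subset hs]
    exact Nat.sub_le_sub_right cI _
  · have k : B' ⊆ acl (A ∪ I) := by
      rw [acl_bridge]
      exact Set.subset_union_right.trans hI.subset_closure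
    refine k.trans (acl_mono ?_)
    rintro z (hz | hz)
    · exact Or.inl (Or.inl hz)
    · by_cases hz' : z ∈ S
      · exact Or.inl (Or.inr (hS.subset hz'))
      · exact Or.inr (Finset.mem_coe.2 (Finset.mem_sdiff.2 ⟨hz, hz'⟩))

theorem acl_seven {A B : Set Ω} {d : ℕ} (h : RkLE A B d) :
    ∃ S : Finset Ω, (S : Set Ω) ⊆ B ∧ S.card ≤ d ∧ B ⊆ acl (A ∪ S) ∧
      AlgebraicIndependent (Subfield.closure A) fun x : S => (x : Ω) := by
  obtain ⟨S, hS⟩ := (AlgebraicIndependent.matroid (Subfield.closure A) Ω).exists_isBasis B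
    (Set.subset_univ _)
  obtain ⟨S, rfl, cS⟩ := acl_fin hS.indep (acl_sub h hS.subset)
  refine ⟨S, hS.subset, cS, ?_, hS.indep⟩
  rw [acl_bridge]
  exact hS.subset_closure

theorem acl_eight {A : Set Ω} {ι : Type} [Fintype ι] {x : ι → Ω} {d : ℕ}
    (hx : AlgebraicIndependent (Subfield.closure A) x) (h : RkLE A (Set.range x) d) :
    Fintype.card ι ≤ d := by
  have h1 := hx.injective.encard_range.trans (acl_le (I := Set.range x) hx.to_subtype_range h)
  rw [ENat.card_eq_coe_fintype_card] at h1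
  exact_mod_cast h1

theorem acl_nine {τ : Type} [Finite τ] {A : Set Ω} (h : A.Countable) :
    {F : MvPolynomial τ Ω | Ov A F}.Countable := by
  have h1 := acl_cnt h
  have h2 : Countable (MvPolynomial τ (Subfield.closure A)) := by
    rw [← Cardinal.mk_le_aleph0_iff]
    exact MvPolynomial.cardinalMk_le_max.trans
      (sup_le (sup_le Cardinal.mk_le_aleph0 Cardinal.mk_le_aleph0) le_rfl)
  refine (Set.countable_range (MvPolynomial.map (σ := τ) (Subfield.closure A).subtype)).mono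
    fun F hF => ?_
  rw [MvPolynomial.mem_range_map_iff_coeffs_subset]
  intro c hc
  obtain ⟨m, -, rfl⟩ := MvPolynomial.mem_coeffs_iff.1 hc
  exact ⟨⟨_, hF m⟩, rfl⟩

end

theorem aclS : StmtAcl := by
  intro Ω _
  refine ⟨fun A => ⟨_, acl_field A, acl_self A⟩, fun _ _ => acl_trans, fun A h => ?_,
    fun _ _ _ _ _ _ => acl_four, fun _ _ _ _ _ => acl_five, fun _ _ _ _ => acl_six,
    fun _ _ _ => acl_seven, fun _ _ _ _ _ => acl_eight, fun _ _ _ => acl_nine⟩
  have := acl_cnt h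
  exact Algebraic.countable (Subfield.closure A) Ω

end Pool.Agent.Work.MP_11a08a_al.Lin
end

-- merged part: Pool.Agent.Work.MP_11a08a_al.Lin.Spec
section
/-!
`k = Subfield.closure A`.  A polynomial `P : MvPolynomial ι k` and polynomials `G j` with `Ov A (G j)` give `aeval G (map P)` with `Ov A` (polynomials with `Ov A` form the
range of `MvPolynomial.map k.subtype`, a subring closed under substitution), and `eval w` of it is `aeval (fun j => eval w (G j)) P`.  Take the least `e` with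
`RkLE A (range z) e`, or simply item 7 of `hA` for some bound (`range z` is finite): `S ⊆ range z` algebraically independent with `range z ⊆ acl (A ∪ S)`, so `RkLE A (range z) (card S)`.
Choose `t : S → τ` with `z (t s) = s`.  The family `w ∘ t` is algebraically independent over `k` (a relation `P (w ∘ t) = 0` transfers to `z ∘ t` through `G s = X (t s)`), so
`card S ≤ d` by item 8 and item 4.  Strict part: the family on `Option S` given by `w ∘ t` and `eval w F` is algebraically independent: `AlgebraicIndependent.option_iff`; if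
`eval w F ≠ 0` is algebraic over `adjoin k (range (w ∘ t))`, it is a root of a polynomial with nonzero constant coefficient `c` (divide by a power of `X`;
`IsAlgebraic.exists_nonzero_coeff_and_aeval_eq_zero`), write the coefficients as `aeval (w ∘ t) P_j`; the relation `∑ P_j (X ∘ t) F ^ j` vanishes at `w`, so at `z`, where it equals
`P_0 (z ∘ t) ≠ 0`.  All members of this family lie in `acl (A ∪ range w)` (a subfield containing `A` and the `w t`), so `card S + 1 ≤ d`.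
-/

set_option autoImplicit false

open Filter MvPolynomial

namespace Pool.Agent.Work.MP_11a08a_al.Lin

theorem spec_eval_map {Ω τ : Type} [Field Ω] (k : Subfield Ω) (P : MvPolynomial τ k) (x : τ → Ω) :
    eval x (MvPolynomial.map k.subtype P) = aeval x P := by
  rw [eval_map, aeval_def]
  rfl

theorem spec_ov_map {Ω τ : Type} [Field Ω] (A : Set Ω)
    (P : MvPolynomial τ (Subfield.closure A)) :
    Ov A (MvPolynomial.map (Subfield.closure A).subtype P) := by
  intro m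
  rw [coeff_map]
  exact (P.coeff m).2

theorem spec_ov_lift {Ω τ : Type} [Field Ω] (A : Set Ω) (F : MvPolynomial τ Ω) (h : Ov A F) :
    ∃ P : MvPolynomial τ (Subfield.closure A),
      MvPolynomial.map (Subfield.closure A).subtype P = F := by
  have : F ∈ Set.range (MvPolynomial.map (σ := τ) (Subfield.closure A).subtype) := by
    rw [mem_range_map_iff_coeffs_subset]
    intro c hc
    obtain ⟨n, -, rfl⟩ := mem_coeffs_iff.1 (Finset.mem_coe.1 hc)
    exact ⟨⟨_, h n⟩, rfl⟩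
  exact this

theorem spec_indep {Ω τ ι : Type} [Field Ω] (k : Subfield Ω) (z w : τ → Ω)
    (h : ∀ P : MvPolynomial τ k, aeval w P = 0 → aeval z P = 0) (t : ι → τ)
    (hz : AlgebraicIndependent k (z ∘ t)) : AlgebraicIndependent k (w ∘ t) := by
  rw [algebraicIndependent_iff] at hz ⊢
  intro p hp
  apply hz p
  rw [← aeval_rename] at hp ⊢
  exact h _ hp

theorem spec_transc {Ω τ ι : Type} [Field Ω] (k : Subfield Ω) (z w : τ → Ω)
    (h : ∀ P : MvPolynomial τ k, aeval w P = 0 → aeval z P = 0) (t : ι → τ)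
    (hz : AlgebraicIndependent k (z ∘ t)) (F : MvPolynomial τ k) (hFz : aeval z F = 0)
    (hFw : aeval w F ≠ 0) :
    Transcendental (Algebra.adjoin k (Set.range (w ∘ t))) (aeval w F) := by
  intro halg
  obtain ⟨q, hq0, hq⟩ := halg.exists_nonzero_coeff_and_aeval_eq_zero
    (mem_nonZeroDivisors_of_ne_zero hFw)
  have hP : ∀ j : ℕ, ∃ P : MvPolynomial ι k, aeval (w ∘ t) P = (q.coeff j : Ω) := by
    intro j
    have h1 : (q.coeff j : Ω) ∈ (aeval (R := k) (w ∘ t)).range := by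
      rw [← Algebra.adjoin_range_eq_range_aeval]
      exact (q.coeff j).2
    exact h1
  choose P hP using hP
  have h1 : aeval w (∑ j ∈ Finset.range (q.natDegree + 1), rename t (P j) * F ^ j) = 0 := by
    rw [Polynomial.aeval_eq_sum_range] at hq
    rw [map_sum, ← hq]
    refine Finset.sum_congr rfl fun j _ => ?_
    rw [map_mul, map_pow, aeval_rename, hP, Algebra.smul_def]
    rfl
  have h2 := h _ h1
  rw [map_sum, Finset.sum_range_succ'] at h2
  simp only [map_mul, map_pow, hFz, aeval_rename, pow_succ, mul_zero, Finset.sum_const_zero,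
    pow_zero, mul_one, zero_add, map_one] at h2
  have h3 : P 0 = 0 := algebraicIndependent_iff.1 hz _ h2
  apply hq0
  apply Subtype.ext
  rw [← hP 0, h3, map_zero]
  rfl

theorem spec_mem {Ω τ : Type} [Field Ω] (k L : Subfield Ω) (hk : k ≤ L) (w : τ → Ω)
    (hw : ∀ t, w t ∈ L) (F : MvPolynomial τ k) : aeval w F ∈ L := by
  induction F using MvPolynomial.induction_on with
  | C a =>
    rw [aeval_C]
    exact hk a.2
  | add p q hp hq =>
    rw [map_add]
    exact L.add_mem hp hq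
  | mul_X p n hp =>
    rw [map_mul, aeval_X]
    exact L.mul_mem hp (hw n)

theorem spec (hA : StmtAcl) : StmtSpec := by
  intro Ω τ _ _ A z w h d hd
  classical
  obtain ⟨h1, -, -, h4, -, -, h7, h8, -⟩ := hA Ω
  have h' : ∀ P : MvPolynomial τ (Subfield.closure A), aeval w P = 0 → aeval z P = 0 := by
    intro P hP
    have := h _ (spec_ov_map A P) (by rw [spec_eval_map]; exact hP)
    rwa [spec_eval_map] at this
  have hfin : (Set.range z).Finite := Set.finite_range z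
  have h0 : RkLE A (Set.range z) hfin.toFinset.card := by
    refine ⟨hfin.toFinset, le_rfl, ?_⟩
    obtain ⟨L, -, hL⟩ := h1 (A ∪ hfin.toFinset)
    refine subset_trans ?_ hL
    rw [Set.Finite.coe_toFinset]
    exact Set.subset_union_right
  obtain ⟨S, hS, -, hSz, hind⟩ := h7 A _ _ h0
  have ht : ∀ s : S, ∃ t : τ, z t = s := fun s => hS s.2
  choose t ht using ht
  have hzt : z ∘ t = fun x : S => (x : Ω) := funext ht
  have hz : AlgebraicIndependent (Subfield.closure A) (z ∘ t) := by rw [hzt]; exact hind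
  have hw := spec_indep _ z w h' t hz
  have hr : RkLE A (Set.range z) S.card := ⟨S, le_rfl, hSz⟩
  obtain ⟨L, hL, hAL⟩ := h1 (A ∪ Set.range w)
  have hwL : ∀ s, w s ∈ L := fun s => by
    rw [← SetLike.mem_coe, hL]
    exact hAL (Or.inr ⟨s, rfl⟩)
  have hkL : Subfield.closure A ≤ L := by
    rw [Subfield.closure_le, hL]
    exact subset_trans Set.subset_union_left hAL
  constructor
  · have h2 : RkLE A (Set.range (w ∘ t)) d := by
      refine h4 A A _ _ d d hd subset_rfl ?_ le_rfl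
      rintro _ ⟨s, rfl⟩
      rw [← hL]
      exact hwL _
    have h3 := h8 A S (w ∘ t) d hw h2
    rw [Fintype.card_coe] at h3
    exact ⟨S, h3, hSz⟩
  · rintro ⟨F, hF, hFz, hFw⟩
    obtain ⟨P, rfl⟩ := spec_ov_lift A F hF
    rw [spec_eval_map] at hFz hFw
    have htr := spec_transc _ z w h' t hz P hFz hFw
    have hi := (hw.option_iff_transcendental _).2 htr
    have h2 : RkLE A (Set.range fun o : Option S => o.elim (aeval w P) (w ∘ t)) d := by
      refine h4 A A _ _ d d hd subset_rfl ?_ le_rfl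
      rintro _ ⟨s, rfl⟩
      rw [← hL]
      cases s with
      | none => exact spec_mem _ L hkL w hwL P
      | some s => exact hwL _
    have h3 := h8 A (Option S) _ d hi h2
    rw [Fintype.card_option, Fintype.card_coe] at h3
    exact ⟨S.card, h3, hr⟩

end Pool.Agent.Work.MP_11a08a_al.Lin
end

-- merged part: Pool.Agent.Work.MP_11a08a_al.Lin.Wit
section
/-!
`J` = the pairs `p` whose members all satisfy `Ov A` and such that for all `a b` the conditions of `p` imply the rank bound; countable by item 9 of `hA` (`Set.countable_setOf_finite_subset`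
or `Finset` over a countable set, `Set.Countable.prod`).  For the forward direction take `S ⊆ range b` from item 7, choose `T : Finset τ'` with `card T ≤ e` and `b '' T = S`.  Call `G` good if `Ov A G` and
for all `a' b'` the value `eval (Sum.elim a' b') G` lies in `Subfield.closure (A ∪ range a' ∪ b' '' T)`.  Every element of `Subring.closure (closure A ∪ range a ∪ b '' T)` is the value at
`(a, b)` of a good `G` (closure induction), every element of the subfield `closure (A ∪ range a ∪ S)` is a quotient of two such (`Subfield.mem_closure_iff`).  For `t : τ'`, `b t` is a root of a monic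
polynomial over this subfield; clear denominators: good `G t j`, `j ≤ n t`, with `∑ j, G t j (a, b) * b t ^ j = 0` and `G t (n t) (a, b) ≠ 0`.  `p.1 = {∑ j, G t j * X (inr t) ^ j}`, `p.2 = {G t (n t)}`.
If `(a', b')` satisfies the conditions, `b' t` is a root of the nonzero polynomial `∑ j, monomial j (G t j (a', b'))` over the subfield, so `RkLE` holds with the finset `T.image b'`.
-/

set_option autoImplicit false

open Filter MvPolynomial

namespace Pool.Agent.Work.MP_11a08a_al.Lin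

section

variable {Ω σ : Type} [Field Ω]

theorem wit_acl (A : Set Ω) (U : Set σ) (v : σ → Ω) (z : Ω) :
    z ∈ acl (A ∪ v '' U) ↔ IsAlgebraic
      (aeval (R := Subfield.closure A) fun u : U => v u).range z := by
  have e : Subfield.closure (A ∪ v '' U) =
      (IntermediateField.adjoin (Subfield.closure A) (v '' U)).toSubfield := by
    have e1 : Set.range (algebraMap (Subfield.closure A) Ω) = Subfield.closure A :=
      Subtype.range_coe
    rw [IntermediateField.adjoin_toSubfield, e1, Subfield.closure_union, Subfield.closure_union,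
      Subfield.closure_eq]
  rw [acl, Set.mem_ofPred_eq, e, ← Algebra.adjoin_range_eq_range_aeval, ← Set.image_eq_range]
  exact IntermediateField.isAlgebraic_adjoin_iff

theorem wit_one (A : Set Ω) (U : Set σ) (v : σ → Ω) (s : σ) (h : v s ∈ acl (A ∪ v '' U)) :
    ∃ F G : MvPolynomial σ Ω, Ov A F ∧ Ov A G ∧ eval v F = 0 ∧ eval v G ≠ 0 ∧
      ∀ v' : σ → Ω, eval v' F = 0 → eval v' G ≠ 0 → v' s ∈ acl (A ∪ v' '' U) := by
  obtain ⟨q, hq0, hq⟩ := (wit_acl A U v _).1 h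
  let φ := fun w : σ → Ω => (aeval (R := Subfield.closure A) fun u : U => w u).rangeRestrict
  obtain ⟨Q, rfl⟩ := Polynomial.map_surjective (φ v).toRingHom
    (AlgHom.rangeRestrict_surjective _) q
  obtain ⟨n, hn⟩ : ∃ n, (Q.map (φ v).toRingHom).coeff n ≠ 0 :=
    ⟨_, Polynomial.leadingCoeff_ne_zero.2 hq0⟩
  let ρ : MvPolynomial U (Subfield.closure A) →+* MvPolynomial σ (Subfield.closure A) :=
    (rename ((↑) : U → σ)).toRingHom
  have ov : ∀ P : MvPolynomial σ (Subfield.closure A),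
      Ov A (map (algebraMap (Subfield.closure A) Ω) P) := fun P m => by
    rw [coeff_map]
    exact (P.coeff m).2
  have e1 : ∀ (w : σ → Ω) (P : MvPolynomial U (Subfield.closure A)),
      aeval w (ρ P) = (φ w P : Ω) := fun w P => aeval_rename _ _ _
  have e2 : ∀ w : σ → Ω, eval w (map (algebraMap (Subfield.closure A) Ω) (Q.eval₂ ρ (X s))) =
      Polynomial.aeval (w s) (Q.map (φ w).toRingHom) := fun w => by
    have := Polynomial.hom_eval₂ Q ρ (aeval (R := Subfield.closure A) w).toRingHom (X s)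
    rw [eval_map, ← aeval_def, Polynomial.aeval_def, Polynomial.eval₂_map]
    refine this.trans ?_
    congr 1
    · exact RingHom.ext (e1 w)
    · exact aeval_X _ _
  have e3 : ∀ w : σ → Ω, eval w (map (algebraMap (Subfield.closure A) Ω) (ρ (Q.coeff n))) =
      ((Q.map (φ w).toRingHom).coeff n : Ω) := fun w => by
    rw [eval_map, ← aeval_def, e1, Polynomial.coeff_map]
    rfl
  refine ⟨_, _, ov (Q.eval₂ ρ (X s)), ov (ρ (Q.coeff n)), (e2 v).trans hq, ?_, fun w h1 h2 => ?_⟩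
  · rw [e3]
    exact fun h0 => hn (Subtype.ext h0)
  · refine (wit_acl A U w _).2 ⟨Q.map (φ w).toRingHom, fun h0 => h2 ?_, (e2 w).symm.trans h1⟩
    rw [e3, h0]
    rfl

omit [Field Ω] in
theorem wit_image {τ τ' : Type} (A : Set Ω) (T : Set τ') (a : τ → Ω) (b : τ' → Ω) :
    A ∪ Sum.elim a b '' (Set.range Sum.inl ∪ Sum.inr '' T) = A ∪ Set.range a ∪ b '' T := by
  rw [Set.image_union, ← Set.range_comp, ← Set.image_comp, Sum.elim_comp_inl, Sum.elim_comp_inr,
    Set.union_assoc]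

end

theorem wit (hA : StmtAcl) : StmtWit := by
  classical
  intro Ω τ τ' _ _ _ A hc e
  obtain ⟨-, -, -, -, -, -, h7, -, h9⟩ := hA Ω
  have hO := h9 (τ ⊕ τ') A hc
  have hF : {s : Finset (MvPolynomial (τ ⊕ τ') Ω) | ∀ F ∈ s, Ov A F}.Countable :=
    ((Set.countable_ofPred_finite_subset hO).preimage_of_injOn
      Finset.coe_injective.injOn).mono fun s hs => And.intro s.finite_toSet hs
  refine ⟨{p | ((∀ F ∈ p.1, Ov A F) ∧ ∀ F ∈ p.2, Ov A F) ∧ ∀ (a : τ → Ω) (b : τ' → Ω),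
    (∀ F ∈ p.1, eval (Sum.elim a b) F = 0) → (∀ F ∈ p.2, eval (Sum.elim a b) F ≠ 0) →
      RkLE (A ∪ Set.range a) (Set.range b) e}, (hF.prod hF).mono fun p hp => hp.1,
    fun a b => ⟨fun h => ?_, fun ⟨p, hp, h1, h2⟩ => hp.2 a b h1 h2⟩⟩
  obtain ⟨S, hS, hcard, hb, -⟩ := h7 _ _ _ h
  obtain ⟨T, hT, hTS⟩ : ∃ T : Finset τ', T.card ≤ e ∧ b '' T = S := by
    choose f hf using fun x : S => hS x.2
    refine ⟨Finset.univ.image f, Finset.card_image_le.trans (by simpa using hcard), ?_⟩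
    rw [Finset.coe_image, Finset.coe_univ, Set.image_univ, ← Set.range_comp,
      show b ∘ f = (↑) from funext hf]
    exact Subtype.range_coe
  have := Fintype.ofFinite τ'
  choose F G h1 h2 h3 h4 h5 using fun t : τ' =>
    wit_one A (Set.range Sum.inl ∪ Sum.inr '' (T : Set τ')) (Sum.elim a b) (Sum.inr t)
      (by rw [wit_image, hTS]; exact hb ⟨t, rfl⟩)
  refine ⟨(Finset.univ.image F, Finset.univ.image G), ⟨⟨?_, ?_⟩, fun a' b' g1 g2 => ?_⟩, ?_, ?_⟩
  · exact Finset.forall_mem_image.2 fun t _ => h1 t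
  · exact Finset.forall_mem_image.2 fun t _ => h2 t
  · refine ⟨T.image b', Finset.card_image_le.trans hT, ?_⟩
    rintro _ ⟨t, rfl⟩
    have := h5 t _ (g1 _ (Finset.mem_image_of_mem F (Finset.mem_univ t)))
      (g2 _ (Finset.mem_image_of_mem G (Finset.mem_univ t)))
    rwa [wit_image, ← Finset.coe_image] at this
  · exact Finset.forall_mem_image.2 fun t _ => h3 t
  · exact Finset.forall_mem_image.2 fun t _ => h4 t

end Pool.Agent.Work.MP_11a08a_al.Lin
end

-- merged part: Pool.Agent.Work.MP_11a08a_al.Lin.Mix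
section
/-!
`up`: the ideal `I = {x | ∀ᶠ i, x i = 0}` of `∀ i, K i` is maximal (if `x ∉ I` then `x i ≠ 0` almost everywhere, `Ultrafilter.eventually_not`, `y i = (x i)⁻¹`, `1 - y x ∈ I`); `Ideal.Quotient.field`.
`mix`: choose `K i`, `f i` from `LinG`; the space has `X i = Γ i`, `τ = Bool × Fin m × Fin m`, coordinates the entries of `f i x` and of `f i x⁻¹`; `inj` from the first half.  `Pol` for the product: the entry is
`∑ c, X (inl (true, a, c)) * X (inr (true, c, b))`, for the inverse half the factors are swapped; push `u.Φ` through sums and products (`fun i => ∑ c, ..` is `∑ c, fun i => ..`, `Finset.sum_apply`).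
The instances `Group (X.X i)` are the given ones by `inferInstanceAs`.
-/

set_option autoImplicit false

open Filter MvPolynomial

namespace Pool.Agent.Work.MP_11a08a_al.Lin

/-- The sequences that vanish almost everywhere. -/
def mix_I (K : ℕ → Type) [∀ i, Field (K i)] : Ideal (∀ i, K i) where
  carrier := {x | ∀ᶠ i in (hyperfilter ℕ : Filter ℕ), x i = 0}
  add_mem' := fun {x y} hx hy => by
    filter_upwards [hx, hy] with i h1 h2
    rw [Pi.add_apply, h1, h2, add_zero]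
  zero_mem' := Eventually.of_forall fun _ => rfl
  smul_mem' := fun c x hx => by
    filter_upwards [hx] with i h
    rw [smul_eq_mul, Pi.mul_apply, h, mul_zero]

theorem mix_mem {K : ℕ → Type} [∀ i, Field (K i)] (x : ∀ i, K i) :
    x ∈ mix_I K ↔ ∀ᶠ i in (hyperfilter ℕ : Filter ℕ), x i = 0 := Iff.rfl

theorem mix_max (K : ℕ → Type) [∀ i, Field (K i)] : (mix_I K).IsMaximal := by
  refine Ideal.isMaximal_iff.2 ⟨fun h => ?_, fun J x hJ hx hxJ => ?_⟩
  · obtain ⟨i, hi⟩ := ((mix_mem _).1 h).exists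
    exact one_ne_zero hi
  · have h : (1 - (fun i => (x i)⁻¹) * x) ∈ mix_I K := by
      rw [mix_mem] at hx ⊢
      filter_upwards [Ultrafilter.eventually_not.2 hx] with i hi
      rw [Pi.sub_apply, Pi.mul_apply, Pi.one_apply, inv_mul_cancel₀ hi, sub_self]
    have := J.add_mem (hJ h) (J.mul_mem_left (fun i => (x i)⁻¹) hxJ)
    rwa [sub_add_cancel] at this

theorem up : StmtUP := by
  intro K _
  have := mix_max K
  let := Ideal.Quotient.field (mix_I K)
  exact ⟨(∀ i, K i) ⧸ mix_I K, inferInstance,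
    ⟨⟨Ideal.Quotient.mk _, Ideal.Quotient.mk_surjective, fun _ => Ideal.Quotient.eq_zero_iff_mem⟩⟩⟩

section

variable {m : ℕ} {Γ K : ℕ → Type} [∀ i, Group (Γ i)] [∀ i, Finite (Γ i)] [∀ i, Field (K i)]
  (f : ∀ i, Γ i →* GL (Fin m) (K i)) (hf : ∀ i, Function.Injective (f i))

/-- The space of a sequence of linear groups. -/
def mix_X : Sp K where
  X := Γ
  τ := Bool × Fin m × Fin m
  fin _ := inferInstance
  ne _ := ⟨1⟩
  ft := inferInstance
  c i x t := (f i (cond t.1 x x⁻¹)).val t.2.1 t.2.2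
  inj i _ _ e := hf i (Units.ext (Matrix.ext fun a b => congrFun e (true, a, b)))

instance (i : ℕ) : Group ((mix_X f hf).X i) := inferInstanceAs (Group (Γ i))

variable {Ω : Type} [Field Ω] (u : UP K Ω)

omit [∀ i, Finite (Γ i)] in
theorem mix_mul (x y : ∀ i, Γ i) (a b : Fin m) :
    (u.Φ fun i => (f i (x i * y i)).val a b) =
      ∑ c, (u.Φ fun i => (f i (x i)).val a c) * u.Φ fun i => (f i (y i)).val c b := by
  simp only [← map_mul u.Φ]
  rw [← map_sum]
  congr 1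
  funext i
  rw [map_mul, Units.val_mul, Matrix.mul_apply, Finset.sum_apply]
  rfl

theorem mix_ev {σ : Type} (v : σ → Ω) (p q : Fin m → σ) :
    eval v (∑ c, X (p c) * X (q c)) = ∑ c, v (p c) * v (q c) := by
  simp only [map_sum, map_mul, eval_X]

theorem mix_pol_mul : Pol u ((mix_X f hf).prod (mix_X f hf)) (mix_X f hf) fun _ p => p.1 * p.2 := by
  rintro ⟨_ | _, a, b⟩
  · refine ⟨_, fun x => Eq.trans ?_ (mix_ev (co u x) (fun c => Sum.inr (false, a, c))
      fun c => Sum.inl (false, c, b)).symm⟩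
    refine Eq.trans ?_ (mix_mul f u (fun i => ((x i).2)⁻¹) (fun i => ((x i).1)⁻¹) a b)
    refine congrArg u.Φ (funext fun i => ?_)
    exact congrArg (fun z => (f i z).val a b) (mul_inv_rev (G := Γ i) (x i).1 (x i).2)
  · refine ⟨_, fun x => Eq.trans ?_ (mix_ev (co u x) (fun c => Sum.inl (true, a, c))
      fun c => Sum.inr (true, c, b)).symm⟩
    exact mix_mul f u (fun i => (x i).1) (fun i => (x i).2) a b

theorem mix_pol_inv : Pol u (mix_X f hf) (mix_X f hf) fun _ p => p⁻¹ := by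
  rintro ⟨_ | _, a, b⟩
  · refine ⟨_, fun x => Eq.trans ?_ (eval_X (f := co u x) (true, a, b)).symm⟩
    refine congrArg u.Φ (funext fun i => ?_)
    exact congrArg (fun z => (f i z).val a b) (inv_inv (G := Γ i) (x i))
  · exact ⟨_, fun x => (eval_X (f := co u x) (false, a, b)).symm⟩

end

theorem mix (hU : StmtUP) (hM : StmtMixU) : StmtMix := by
  intro m Γ _ _ hL hS hN hB g hg
  choose K hK f hf using hL
  obtain ⟨Ω, _, ⟨u⟩⟩ := hU K
  exact hM K Ω u (mix_X f hf) ⟨mix_pol_mul f hf u, mix_pol_inv f hf u, hS, hN, hB⟩ g hg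

end Pool.Agent.Work.MP_11a08a_al.Lin
end

-- merged part: Pool.Agent.Work.MP_11a08a_al.Lin.Int
section
/-!
(1) by `MvPolynomial.induction_on`: every `F` has `f : ∀ i, X.X i → K i` with `u.Φ (fun i => f i (x i)) = ev u F x` for all `x` (`u.surj` for constants); `Z i = {x | f i x = 0}`, `u.ker`.
For an ideal `I` of `MvPolynomial X.τ Ω` (noetherian as `τ` is finite, `MvPolynomial.isNoetherianRing`) the common zero set `V I = {x | ∀ F ∈ I, ev u F x = 0}` is `pts` of a finite intersection (`Filter.eventually_all_finset`;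
`ev u · x` is a ring homomorphism).  (2) `clo u P = V (ideal of polynomials vanishing on P)`.  (3) among the ideals `I` for which some `Z` has `pts Z = V I` and `¬ Sm (Y ∩ Z)` (it holds for `⊥`) take a maximal one
(`set_has_maximal_iff_noetherian`); `Y' = Y ∩ Z`.  If `F` does not vanish at a point of `pts Y'` then `F ∉ I`, `I ⊔ span {F}` is larger, with zero set `pts (Z ∩ Z_F)`.
-/

set_option autoImplicit false

open Filter MvPolynomial

namespace Pool.Agent.Work.MP_11a08a_al.Lin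

section aux

variable {K : ℕ → Type} [∀ i, Field (K i)] {Ω : Type} [Field Ω] (u : UP K Ω) (X : Sp K)

theorem int_fun (F : MvPolynomial X.τ Ω) :
    ∃ f : ∀ i, X.X i → K i, ∀ x : X.Pnt, u.Φ (fun i => f i (x i)) = ev u F x := by
  induction F using MvPolynomial.induction_on with
  | C a =>
    obtain ⟨b, hb⟩ := u.surj a
    exact ⟨fun i _ => b i, fun x => by simp [ev, ← hb]⟩
  | add p q hp hq =>
    obtain ⟨f, hf⟩ := hp
    obtain ⟨g, hg⟩ := hq
    refine ⟨fun i y => f i y + g i y, fun x => ?_⟩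
    have : (fun i => f i (x i) + g i (x i)) = (fun i => f i (x i)) + fun i => g i (x i) := rfl
    rw [this, map_add, hf, hg]
    simp [ev]
  | mul_X p t hp =>
    obtain ⟨f, hf⟩ := hp
    refine ⟨fun i y => f i y * X.c i y t, fun x => ?_⟩
    have : (fun i => f i (x i) * X.c i (x i) t) =
        (fun i => f i (x i)) * fun i => X.c i (x i) t := rfl
    rw [this, map_mul, hf]
    simp [ev, co]

theorem int_one (F : MvPolynomial X.τ Ω) : ∃ Z : X.In, IsZ u F Z := by
  obtain ⟨f, hf⟩ := int_fun u X F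
  refine ⟨fun i => {y | f i y = 0}, fun x => ?_⟩
  rw [← hf, u.ker]
  rfl

theorem int_inter (Y Z : X.In) (x : X.Pnt) :
    x ∈ pts (X := X) (fun i => Y i ∩ Z i) ↔ x ∈ pts Y ∧ x ∈ pts Z := by
  simp only [pts, Set.mem_setOf_eq, Set.mem_inter_iff, Filter.eventually_and]

theorem int_span (s : Set (MvPolynomial X.τ Ω)) (x : X.Pnt) :
    (∀ F ∈ Ideal.span s, ev u F x = 0) ↔ ∀ F ∈ s, ev u F x = 0 := by
  refine ⟨fun h F hF => h F (Ideal.subset_span hF), fun h F hF => ?_⟩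
  have : Ideal.span s ≤ RingHom.ker (eval (co u x)) := Ideal.span_le.2 fun G hG => h G hG
  exact this hF

theorem int_ideal (I : Ideal (MvPolynomial X.τ Ω)) :
    ∃ Z : X.In, ∀ x, x ∈ pts Z ↔ ∀ F ∈ I, ev u F x = 0 := by
  obtain ⟨s, rfl⟩ : I.FG := IsNoetherian.noetherian I
  choose Z hZ using int_one u X
  refine ⟨fun i => {y | ∀ F ∈ s, y ∈ Z F i}, fun x => ?_⟩
  rw [int_span]
  simp only [pts, Set.mem_setOf_eq, Filter.eventually_all_finset, Finset.mem_coe]
  exact forall₂_congr fun F _ => hZ F x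

theorem int_two (P : Set X.Pnt) : ∃ Z : X.In, pts Z = clo u P := by
  obtain ⟨Z, hZ⟩ := int_ideal u X (⨅ y ∈ P, RingHom.ker (eval (co u y)))
  refine ⟨Z, Set.ext fun x => ?_⟩
  rw [hZ]
  simp only [Ideal.mem_iInf, RingHom.mem_ker]
  rfl

end aux

theorem int : StmtInt := by
  intro K _ Ω _ u X
  refine ⟨int_one u X, int_two u X, fun Sm hSm Y hY => ?_⟩
  let S : Set (Ideal (MvPolynomial X.τ Ω)) :=
    {I | ∃ Z : X.In, (∀ x, x ∈ pts Z ↔ ∀ F ∈ I, ev u F x = 0) ∧ ¬ Sm fun i => Y i ∩ Z i}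
  have hS : S.Nonempty := by
    refine ⟨⊥, fun _ => Set.univ, fun x => ?_, fun h => hY (hSm _ _ ?_ h)⟩
    · simp [pts, ev]
    · exact Filter.Eventually.of_forall fun i => by simp
  obtain ⟨I, ⟨Z, hZ, hn⟩, hmax⟩ :=
    set_has_maximal_iff_noetherian.2 (inferInstance : IsNoetherian (MvPolynomial X.τ Ω) _) S hS
  refine ⟨fun i => Y i ∩ Z i, fun i => Set.inter_subset_left, hn, Set.ext fun x => ?_, ?_⟩
  · rw [int_inter]
    constructor
    · rintro ⟨h1, h2⟩
      exact ⟨h1, fun F hF => hF x ((int_inter X Y Z x).2 ⟨h1, h2⟩)⟩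
    · rintro ⟨h1, h2⟩
      refine ⟨h1, (hZ x).2 fun F hF => h2 F fun y hy => ?_⟩
      exact (hZ y).1 ((int_inter X Y Z y).1 hy).2 F hF
  · rintro F W hW ⟨y, hy, hyF⟩
    by_contra hc
    have hFI : F ∉ I := fun h => hyF ((hZ y).1 ((int_inter X Y Z y).1 hy).2 F h)
    refine hmax (Ideal.span (insert F (I : Set _))) ⟨fun i => Z i ∩ W i, fun x => ?_, ?_⟩ ?_
    · rw [int_span, int_inter, hZ, hW x]
      simp only [Set.mem_insert_iff, forall_eq_or_imp, SetLike.mem_coe]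
      exact and_comm
    · intro h
      exact hc (hSm _ _ (Filter.Eventually.of_forall fun i => by rw [Set.inter_assoc]) h)
    · refine lt_of_le_of_ne (fun G hG => Ideal.subset_span (Set.mem_insert_of_mem _ hG)) ?_
      intro h
      exact hFI (h ▸ Ideal.subset_span (Set.mem_insert _ _))

end Pool.Agent.Work.MP_11a08a_al.Lin
end

-- merged part: Pool.Agent.Work.MP_11a08a_al.Lin.Dim
section
/-!
(1) item 4 of `hA`.  (2) `A = ∅`, `S` = the finite range.  (3) all coordinates of points of `pts Y` lie in the countable set `acl A`; `ι = X.τ → acl A` is countable; for `p : ι` let `Z p i = {y i}` if some point `y` has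
`co u y = p`, else `∅`; item 5 of `hS` shows that every point of `pts Y` lies in some `pts (Z p)`, item 3 gives `ncard (Y i) ≤ card s`.  (4) the witness `A ∪ A₀` with `A₀` from `hP`, item 4.  (5) the witness `A ∪ A'`, the formula for `co` on a product
(`Sum.range_eq`/`Set.Sum.elim_range`), items 4 and 5.  (6) induction, `Sp.pow_succ` is `rfl`, for `k = 0` the index type is `Empty`.
-/

set_option autoImplicit false

open Filter MvPolynomial

namespace Pool.Agent.Work.MP_11a08a_al.Lin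

theorem dim_sub (hA : StmtAcl) {Ω : Type} [Field Ω] (A : Set Ω) : A ⊆ acl A :=
  ((hA Ω).1 A).choose_spec.2

theorem dim_mono (hA : StmtAcl) {Ω : Type} [Field Ω] {A A' B : Set Ω} {d : ℕ} (h : RkLE A B d)
    (h' : A ⊆ A') : RkLE A' B d :=
  (hA Ω).2.2.2.1 A A' B B d d h h' (Set.subset_union_right.trans (dim_sub hA _)) le_rfl

variable {K : ℕ → Type} [∀ i, Field (K i)] {Ω : Type} [Field Ω] (u : UP K Ω)

theorem dim_ex (hA : StmtAcl) (X : Sp K) (P : Set X.Pnt) : ∃ d, Dim u P d := by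
  classical
  have := Fintype.ofFinite X.τ
  refine ⟨Fintype.card X.τ, ∅, Set.countable_empty, fun x _ =>
    ⟨Finset.univ.image (co u x), Finset.card_image_le, ?_⟩⟩
  refine Set.Subset.trans ?_ (dim_sub hA _)
  rw [Finset.coe_image, Finset.coe_univ, Set.image_univ]
  exact Set.subset_union_right

theorem dim_zero (hA : StmtAcl) (hS : StmtSat) (X : Sp K) (Y : X.In) (h : Dim u (pts Y) 0) :
    Ll Y fun _ => 1 := by
  classical
  obtain ⟨A, hc, h⟩ := h
  have h1 : ∀ x ∈ pts Y, ∀ t, co u x t ∈ acl A := fun x hx t => by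
    obtain ⟨S, h2, h3⟩ := h x hx
    rw [Finset.card_eq_zero.1 (Nat.le_zero.1 h2), Finset.coe_empty, Set.union_empty] at h3
    exact h3 ⟨t, rfl⟩
  have := ((hA Ω).2.2.1 A hc).to_subtype
  have h4 : ∀ p : X.τ → acl A, ∃ y : X.Pnt,
      ∀ x : X.Pnt, (co u x = fun t => (p t : Ω)) → co u x = co u y := fun p => by
    by_cases h5 : ∃ y : X.Pnt, co u y = fun t => (p t : Ω)
    · obtain ⟨y, hy⟩ := h5
      exact ⟨y, fun x hx => hx.trans hy.symm⟩
    · exact ⟨fun i => Classical.arbitrary _, fun x hx => absurd ⟨x, hx⟩ h5⟩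
  choose y hy using h4
  obtain ⟨s, hs⟩ := (hS K X).2.2.1 Y (X.τ → acl A) (fun p i => {y p i}) fun x hx =>
    ⟨fun t => ⟨co u x t, h1 x hx t⟩, ((hS K X).2.2.2.2 Ω u x _).1 (hy _ x rfl)⟩
  refine ⟨s.card, hs.mono fun i hi => ?_⟩
  rw [mul_one, Nat.cast_le]
  refine le_trans (Set.ncard_le_ncard (t := ↑(s.image fun p => y p i)) (fun x hx => ?_)
    (Finset.finite_toSet _)) ?_
  · obtain ⟨p, h5, h6⟩ := hi x hx
    exact Finset.mem_coe.2 (Finset.mem_image.2 ⟨p, h5, (Set.mem_singleton_iff.1 h6).symm⟩)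
  · rw [Set.ncard_coe_finset]
    exact Finset.card_image_le

theorem dim_prod (hA : StmtAcl) (hP : StmtPol) (X X' : Sp K) (d d' : ℕ)
    (h : Dim u (Set.univ : Set X.Pnt) d) (h' : Dim u (Set.univ : Set X'.Pnt) d') :
    Dim u (Set.univ : Set (X.prod X').Pnt) (d + d') := by
  obtain ⟨A, hc, h⟩ := h
  obtain ⟨A', hc', h'⟩ := h'
  refine ⟨A ∪ A', hc.union hc', fun x _ => ?_⟩
  have h1 := (hA Ω).2.2.2.2.1 (A ∪ A') _ _ d d'
    (dim_mono hA (h (fun i => (x i).1) trivial) Set.subset_union_left)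
    (dim_mono hA (h' (fun i => (x i).2) trivial)
      (Set.subset_union_right.trans Set.subset_union_left))
  rw [← Set.Sum.elim_range] at h1
  rw [(hP K Ω u X X').2.2.2.2.1 x]
  exact h1

theorem dim (hA : StmtAcl) (hS : StmtSat) (hP : StmtPol) : StmtDim := by
  intro K _ Ω _ u X
  refine ⟨?_, dim_ex u hA X, dim_zero u hA hS X, ?_, dim_prod u hA hP X, fun d k h => ?_⟩
  · rintro P P' d d' h1 h2 ⟨A, hc, h⟩
    refine ⟨A, hc, fun x hx => ?_⟩
    obtain ⟨S, h3, h4⟩ := h x (h1 hx)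
    exact ⟨S, h3.trans h2, h4⟩
  · rintro X' ψ P d hψ ⟨A, hc, h⟩
    obtain ⟨A₀, h1, h2⟩ := ((hP K Ω u X X').2.2.2.2.2 ψ hψ).2.2.2.2
    refine ⟨A ∪ A₀, hc.union h1, ?_⟩
    rintro _ ⟨x, hx, rfl⟩
    exact (hA Ω).2.2.2.1 _ _ _ _ d d (h x hx) Set.subset_union_left
      ((h2 _ Set.subset_union_right).1 x) le_rfl
  · induction k with
    | zero =>
      refine ⟨∅, Set.countable_empty, fun x _ => ⟨∅, Nat.zero_le _, ?_⟩⟩
      rintro _ ⟨t, rfl⟩
      exact Empty.elim t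
    | succ k ih =>
      rw [add_one_mul, add_comm (k * d)]
      exact dim_prod u hA hP X (X.pow k) d (k * d) h ih

end Pool.Agent.Work.MP_11a08a_al.Lin
end

-- merged part: Pool.Agent.Work.MP_11a08a_al.Lin.Count
section
/-!
A constructible condition (`p.1` vanish, `p.2` do not) on the points of a space defines an internal set: finite intersection of zero sets (`hI`) and complements (ultrafilter).  For `e : ℕ × ℕ` take `J₁ e` from `hW` with `τ = Empty`, `τ' = X.τ` (rename the variables along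
`Sum.elim Empty.elim id`, `eval_rename`) and `J₂ e` from `hW` with `X.τ, X'.τ` (these polynomials live on the product space, `co` formula of `hP`).  Index type `ι ⊕ (Σ e : E, J₁ e × J₂ e)`, countable; the piece for `(e, p₁, p₂)` is
`{w | w.1 ∈ T p₁ ∧ w ∈ U p₂}`.  Item 3 of `hS` gives a finite subcover of `Y`.  `Dim u (pts (T p₁)) e.1` with witness `A`; for a point `z` the fibre `{x | (z i, x) ∈ U p₂ i}` has `Dim e.2` with witness `A ∪ range (co u z)`.  Item 4 of `hS` (with `T = univ`) gives constants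
`C j` (replace by `max (C j) 0`) bounding all fibres of the piece `j` by `C j * a i ^ e.2`.  (i) add up, `a ^ e.2 ≤ a ^ d`.  (ii) the piece has at most `ncard (T i) * (C j * a i ^ e.2)` elements.
-/

set_option autoImplicit false

open Filter MvPolynomial

namespace Pool.Agent.Work.MP_11a08a_al.Lin

theorem count_cover {α κ : Type} [Finite α] {B : Set α} (S : Finset κ) (f : κ → Set α)
    (c : κ → ℝ) (h : ∀ x ∈ B, ∃ t ∈ S, x ∈ f t) (hc : ∀ t ∈ S, ((f t).ncard : ℝ) ≤ c t) :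
    (B.ncard : ℝ) ≤ ∑ t ∈ S, c t := by
  have h1 : B.ncard ≤ ∑ t ∈ S, (f t).ncard :=
    (Set.ncard_le_ncard fun x hx => by simpa using h x hx).trans (S.set_ncard_biUnion_le f)
  exact le_trans (by exact_mod_cast h1) (Finset.sum_le_sum hc)

theorem count_fib {α β : Type} [Finite α] [Finite β] (T : Set α) (U : Set (α × β)) {c : ℝ}
    (h : ∀ z, (({x | (z, x) ∈ U} : Set β).ncard : ℝ) ≤ c) :
    (({w | w.1 ∈ T ∧ w ∈ U} : Set (α × β)).ncard : ℝ) ≤ T.ncard * c := by
  refine (count_cover T.toFinite.toFinset (fun z => Prod.mk z '' {x | (z, x) ∈ U}) (fun _ => c)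
    (fun w hw => ⟨w.1, T.toFinite.mem_toFinset.2 hw.1, w.2, hw.2, rfl⟩) fun z _ => ?_).trans_eq ?_
  · exact le_trans (by exact_mod_cast Set.ncard_image_le) (h z)
  · rw [Finset.sum_const, nsmul_eq_mul, Set.ncard_eq_toFinset_card]

section

variable {K : ℕ → Type} [∀ i, Field (K i)] {Ω : Type} [Field Ω] (u : UP K Ω)

/-- Constructible conditions define internal sets. -/
theorem count_con (hI : StmtInt) (X : Sp K)
    (p : Finset (MvPolynomial X.τ Ω) × Finset (MvPolynomial X.τ Ω)) :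
    ∃ U : X.In, ∀ x, x ∈ pts U ↔ (∀ F ∈ p.1, ev u F x = 0) ∧ ∀ F ∈ p.2, ev u F x ≠ 0 := by
  choose Z hZ using (hI K Ω u X).1
  refine ⟨fun i => {x | (∀ F ∈ p.1, x ∈ Z F i) ∧ ∀ F ∈ p.2, x ∉ Z F i}, fun x => ?_⟩
  simp only [pts, Set.mem_ofPred_eq, eventually_and, eventually_all_finset,
    Ultrafilter.eventually_not]
  exact and_congr (forall₂_congr fun F _ => hZ F x) (forall₂_congr fun F _ => (hZ F x).not)

theorem count_wit2 (hW : StmtWit) (hI : StmtInt) (hP : StmtPol) (X X' : Sp K) {A : Set Ω}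
    (hA : A.Countable) (e : ℕ) : ∃ J : Set (X.prod X').In, J.Countable ∧ ∀ w : (X.prod X').Pnt,
      RkLE (A ∪ Set.range (co u (X := X) fun i => (w i).1))
        (Set.range (co u (X := X') fun i => (w i).2)) e ↔ ∃ U ∈ J, w ∈ pts U := by
  obtain ⟨J, h1, h2⟩ := hW Ω X.τ X'.τ A hA e
  choose U hU using count_con u hI (X.prod X')
  refine ⟨U '' J, h1.image _, fun w => ?_⟩
  rw [h2, Set.exists_mem_image, ← (hP K Ω u X X').2.2.2.2.1 w]
  exact exists_congr fun p => and_congr_right fun _ => (hU p w).symm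

theorem count_wit1 (hW : StmtWit) (hI : StmtInt) (X : Sp K) {A : Set Ω} (hA : A.Countable)
    (e : ℕ) : ∃ J : Set X.In, J.Countable ∧ ∀ z : X.Pnt,
      RkLE A (Set.range (co u z)) e ↔ ∃ U ∈ J, z ∈ pts U := by
  classical
  obtain ⟨J, h1, h2⟩ := hW Ω Empty X.τ A hA e
  choose U hU using count_con u hI X
  refine ⟨(fun p => U (p.1.image (rename (Sum.elim Empty.elim id)),
    p.2.image (rename (Sum.elim Empty.elim id)))) '' J, h1.image _, fun z => ?_⟩
  have h3 := h2 Empty.elim (co u z)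
  have h4 : co u z ∘ Sum.elim Empty.elim id = Sum.elim Empty.elim (co u z) :=
    funext fun t => by rcases t with ⟨⟨⟩⟩ | t; rfl
  rw [Set.range_eq_empty, Set.union_empty] at h3
  rw [h3, Set.exists_mem_image]
  simp only [hU, Finset.forall_mem_image, ev, eval_rename, h4]

/-- The finite cover by pieces. -/
theorem count_core (hW : StmtWit) (hS : StmtSat) (hI : StmtInt) (hP : StmtPol) (X X' : Sp K)
    (Y : (X.prod X').In) {A : Set Ω} {ι : Type} [Countable ι] (Z : ι → (X.prod X').In)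
    (E : Set (ℕ × ℕ)) (hA : A.Countable)
    (h : ∀ w ∈ pts Y, (∃ p, w ∈ pts (Z p)) ∨ ∃ e ∈ E,
      RkLE A (Set.range (co u (X := X) fun i => (w i).1)) e.1 ∧
      RkLE (A ∪ Set.range (co u (X := X) fun i => (w i).1))
        (Set.range (co u (X := X') fun i => (w i).2)) e.2) :
    ∃ (s : Finset ι) (κ : Type) (S : Finset κ) (e : κ → ℕ × ℕ) (T : κ → X.In)
      (U : κ → (X.prod X').In), (∀ t, e t ∈ E ∧ Dim u (pts (T t)) (e t).1 ∧
        ∀ z : X.Pnt, Dim u (pts (X := X') fun i => {x | (z i, x) ∈ U t i}) (e t).2) ∧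
      ∀ᶠ i in (hyperfilter ℕ : Filter ℕ), ∀ w ∈ Y i, (∀ p ∈ s, w ∉ Z p i) →
        ∃ t ∈ S, w.1 ∈ T t i ∧ w ∈ U t i := by
  choose J1 c1 h1 using count_wit1 u hW hI X hA
  choose J2 c2 h2 using count_wit2 u hW hI hP X X' hA
  let P : Set ((ℕ × ℕ) × X.In × (X.prod X').In) :=
    {t | t.1 ∈ E ∧ t.2.1 ∈ J1 t.1.1 ∧ t.2.2 ∈ J2 t.1.2}
  have hc : P.Countable := (Set.countable_iUnion fun e : ℕ × ℕ =>
    (Set.countable_singleton e).prod ((c1 e.1).prod (c2 e.2))).mono
      fun t ht => Set.mem_iUnion.2 ⟨t.1, Set.mem_prod.2 ⟨rfl, ht.2⟩⟩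
  have := hc.to_subtype
  obtain ⟨s, hs⟩ := (hS K (X.prod X')).2.2.1 Y (ι ⊕ P)
    (Sum.elim Z fun t i => {w | w.1 ∈ t.1.2.1 i ∧ w ∈ t.1.2.2 i}) fun w hw => by
      rcases h w hw with ⟨p, hp⟩ | ⟨e, he, a1, a2⟩
      · exact ⟨.inl p, hp⟩
      · obtain ⟨T, b1, b2⟩ := (h1 _ _).1 a1
        obtain ⟨U, b3, b4⟩ := (h2 _ _).1 a2
        exact ⟨.inr ⟨(e, T, U), he, b1, b3⟩, Eventually.and b2 b4⟩
  refine ⟨s.toLeft, P, s.toRight, fun t => t.1.1, fun t => t.1.2.1, fun t => t.1.2.2,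
    fun t => ⟨t.2.1, ⟨A, hA, fun z hz => (h1 _ z).2 ⟨_, t.2.2.1, hz⟩⟩, fun z =>
      ⟨A ∪ Set.range (co u z), hA.union (Set.countable_range _), fun x hx =>
        (h2 _ fun i => (z i, x i)).2 ⟨_, t.2.2.2, hx⟩⟩⟩, hs.mono fun i hi w hw hz => ?_⟩
  obtain ⟨p | t, b1, b2⟩ := hi w hw
  exacts [absurd b2 (hz p (Finset.mem_toLeft.2 b1)), ⟨t, Finset.mem_toRight.2 b1, b2⟩]

end

theorem count (hW : StmtWit) (hS : StmtSat) (hI : StmtInt) (hP : StmtPol) : StmtCount := by
  intro K _ Ω _ u X X' Y A ι _ Z E a hA ha h hT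
  obtain ⟨s, κ, S, e, T, U, h1, h2⟩ := count_core u hW hS hI hP X X' Y Z E hA h
  have a0 : ∀ i n, 0 ≤ a i ^ n := fun i n => pow_nonneg (zero_le_one.trans (ha i)) n
  have up : ∀ (C : ℝ) i {m n : ℕ}, m ≤ n → C * a i ^ m ≤ |C| * a i ^ n := fun C i m n k =>
    mul_le_mul (le_abs_self C) (pow_le_pow_right₀ (ha i) k) (a0 i m) (abs_nonneg C)
  choose C hC using fun t => (hS K X).2.2.2.1 X' (fun _ => Set.univ) (U t)
    (fun i => a i ^ (e t).2) fun z _ => hT _ (h1 t).1 _ ((h1 t).2.2 z)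
  have h3 := (eventually_all_finset S).2 fun t _ => hC t
  refine ⟨fun d hd => ⟨s, ∑ t ∈ S, |C t|, (h2.and h3).mono fun i hi z => ?_⟩, fun d b hd hb => ?_⟩
  · rw [Finset.sum_mul]
    exact count_cover S (fun t => {x | (z, x) ∈ U t i}) _
      (fun x hx => (hi.1 (z, x) hx.1 hx.2).imp fun t ht => ⟨ht.1, ht.2.2⟩)
      fun t ht => (hi.2 t ht z trivial).trans (up _ i (hd _ (h1 t).1))
  · choose D hD using fun t => hb _ (h1 t).1 _ (h1 t).2.1
    have h4 := (eventually_all_finset S).2 fun t _ => hD t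
    refine ⟨s, ∑ t ∈ S, |D t * (|C t|)|, (h2.and (h3.and h4)).mono fun i hi => ?_⟩
    rw [Finset.sum_mul]
    refine count_cover S (fun t => {w : X.X i × X'.X i | w.1 ∈ T t i ∧ w ∈ U t i}) _
      (fun w hw => hi.1 w hw.1 hw.2) fun t ht => ?_
    refine (count_fib (T t i) (U t i) fun z =>
      (hi.2.1 t ht z trivial).trans (up _ i le_rfl)).trans ((mul_le_mul_of_nonneg_right
        (hi.2.2 t ht) (mul_nonneg (abs_nonneg _) (a0 i _))).trans ?_)
    rw [mul_mul_mul_comm, ← pow_add]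
    exact up _ i (hd _ (h1 t).1)

end Pool.Agent.Work.MP_11a08a_al.Lin
end

-- merged part: Pool.Agent.Work.MP_11a08a_al.Lin.CoreU
section
/-!
(1) item 1 of `hS` on the product space (`Y i = S i ×ˢ V i`) gives, for almost all `i`, `s * v ∈ V i` for all `s ∈ S i`, `v ∈ V i`, and `V i` nonempty.  In a finite group `{a | ∀ v ∈ V i, a * v ∈ V i}` is a submonoid, so a subgroup; it contains `closure (S i)`, which is normal and not `⊥`, so `⊤`.
(2) compose `mul`, pairs and constants (`hP`).  (3) `Sm Y := ∀ η > 0, ∀ᶠ i, ncard (Y i) ≤ η * N i`, `N i = Nat.card (X.X i)`; item 3 of `hI` for `Y = univ` gives `V` with `pts V = clo (pts V)`, `η₀ N i < ncard (V i)` almost everywhere for some `η₀ > 0`.  For a point `a`: either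
`a⁻¹ * v ∈ pts V` for all `v ∈ pts V`, or some `F` vanishes on `pts V` but not at `a⁻¹ * v`; its pullback along `x ↦ a⁻¹ * x` shows that `{v ∈ V i | (a i)⁻¹ * v ∈ V i}` is `Sm`.  By item 1 of `hS` (twice), for almost all `i` every `a` lies in
`H i = {a | ∀ v ∈ V i, a⁻¹ * v ∈ V i}` (a subgroup) or has at most `η N` such `v`, `η = η₀ ^ 2 / 2`.  Double counting: `∑ a, card {v ∈ V | a⁻¹ v ∈ V} = card V ^ 2`, so `η₀ ^ 2 N ^ 2 ≤ card H * N + η N ^ 2` and the index of `H` is at most `2 / η₀ ^ 2`.  A proper subgroup of index `r` of a simple group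
has trivial normal core, so `N ≤ r !` (`Subgroup.normalCore_eq_ker`, `Fintype.card_perm`); so `H i = ⊤`, `V i = univ` almost everywhere, and `Thin` follows.
-/

set_option autoImplicit false

open Filter MvPolynomial

namespace Pool.Agent.Work.MP_11a08a_al.Lin

section Grp

variable {Γ : Type} [Group Γ] [Finite Γ]

theorem coreu_stab (V : Set Γ) : ∃ H : Subgroup Γ, ∀ a, a ∈ H ↔ ∀ v ∈ V, a * v ∈ V := by
  open scoped Pointwise in
  exact ⟨MulAction.stabilizer Γ V, fun a => MulAction.mem_stabilizer_set' V.toFinite⟩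

omit [Finite Γ] in
theorem coreu_univ {V : Set Γ} (hV : V.Nonempty) (h : ∀ a, ∀ v ∈ V, a * v ∈ V) : V = Set.univ := by
  obtain ⟨v, hv⟩ := hV
  refine Set.eq_univ_of_forall fun x => ?_
  simpa using h (x * v⁻¹) v hv

theorem coreu_one [IsSimpleGroup Γ] {V S : Set Γ} (hV : V.Nonempty) (h1 : ∃ s ∈ S, s ≠ 1)
    (h2 : ∀ s ∈ S, ∀ a, a * s * a⁻¹ ∈ S) (h3 : ∀ s ∈ S, ∀ v ∈ V, s * v ∈ V) : V = Set.univ := by
  obtain ⟨H, hH⟩ := coreu_stab V
  obtain ⟨s, hs, hs1⟩ := h1
  have h4 : s ∈ H.normalCore := fun b => (hH _).2 (h3 _ (h2 s hs b))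
  rcases H.normalCore_normal.eq_bot_or_eq_top with e | e
  · rw [e] at h4
    exact absurd h4 hs1
  · exact coreu_univ hV fun a => (hH a).1 (H.normalCore_le (e ▸ Subgroup.mem_top a))

theorem coreu_index [IsSimpleGroup Γ] {H : Subgroup Γ} {r : ℕ} (h1 : H.index ≤ r)
    (h2 : r.factorial < Nat.card Γ) : H = ⊤ := by
  rcases H.normalCore_normal.eq_bot_or_eq_top with e | e
  · exfalso
    have h : H.normalCore.index ∣ H.index.factorial := by
      rw [Subgroup.normalCore_eq_ker, Subgroup.index_ker, Subgroup.index_eq_card, ← Nat.card_perm]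
      exact Subgroup.card_subgroup_dvd_card (MulAction.toPermHom Γ (Γ ⧸ H)).range
    rw [e, Subgroup.index_bot] at h
    have h3 := (Nat.le_of_dvd (Nat.factorial_pos _) h).trans (Nat.factorial_le h1)
    omega
  · exact top_le_iff.1 (e ▸ H.normalCore_le)

omit [Finite Γ] in
theorem coreu_sum [Fintype Γ] (V : Set Γ) :
    ∑ a : Γ, {v | v ∈ V ∧ a * v ∈ V}.ncard = V.ncard ^ 2 := by
  classical
  have e : ∀ p : Γ → Prop, {v | p v}.ncard = ∑ v, if p v then 1 else 0 := fun p => by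
    rw [Set.ncard_eq_toFinset_card', Set.toFinset_ofPred, Finset.card_filter]
  have e1 : V.ncard = ∑ v, if v ∈ V then 1 else 0 := e fun v => v ∈ V
  simp only [e]
  rw [Finset.sum_comm, sq]
  conv_rhs => arg 1; rw [e1]
  rw [Finset.sum_mul]
  refine Finset.sum_congr rfl fun v _ => ?_
  by_cases hv : v ∈ V
  · simp only [hv, true_and, if_true, one_mul]
    rw [e1]
    exact Equiv.sum_comp (Equiv.mulRight v) fun x => if x ∈ V then 1 else 0
  · simp [hv]

theorem coreu_count [IsSimpleGroup Γ] {V : Set Γ} {η : ℝ} (h0 : 0 < η)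
    (hV : η * Nat.card Γ < V.ncard) {r : ℕ} (hr : 2 / η ^ 2 ≤ r) (hN : r.factorial < Nat.card Γ)
    (h : ∀ a, (∀ v ∈ V, a * v ∈ V) ∨
      ({v | v ∈ V ∧ a * v ∈ V}.ncard : ℝ) ≤ η ^ 2 / 2 * Nat.card Γ) : V = Set.univ := by
  classical
  have := Fintype.ofFinite Γ
  obtain ⟨H, hH⟩ := coreu_stab V
  have N0 : (0 : ℝ) < Nat.card Γ := by exact_mod_cast Nat.card_pos
  have h1 : (V.ncard : ℝ) ^ 2 ≤
      ∑ a : Γ, ((if a ∈ H then (Nat.card Γ : ℝ) else 0) + η ^ 2 / 2 * Nat.card Γ) := by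
    rw [← Nat.cast_pow, ← coreu_sum, Nat.cast_sum]
    refine Finset.sum_le_sum fun a _ => ?_
    split_ifs with ha
    · have h2 : ({v | v ∈ V ∧ a * v ∈ V}.ncard : ℝ) ≤ Nat.card Γ := by
        exact_mod_cast Set.ncard_le_card _
      have h3 : 0 ≤ η ^ 2 / 2 * Nat.card Γ := by positivity
      linarith
    · rw [zero_add]
      exact (h a).resolve_left fun e => ha ((hH a).2 e)
  have h2 : ∑ a : Γ, (if a ∈ H then (Nat.card Γ : ℝ) else 0) = Nat.card H * Nat.card Γ := by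
    rw [← Finset.sum_filter, Finset.sum_const, nsmul_eq_mul, Nat.card_eq_fintype_card (α := H),
      Fintype.card_subtype]
  rw [Finset.sum_add_distrib, h2, Finset.sum_const, Finset.card_univ, nsmul_eq_mul,
    ← Nat.card_eq_fintype_card] at h1
  have h3 : (η * Nat.card Γ) ^ 2 < (V.ncard : ℝ) ^ 2 :=
    pow_lt_pow_left₀ hV (by positivity) two_ne_zero
  have h4 : η ^ 2 / 2 * Nat.card Γ < Nat.card H := lt_of_mul_lt_mul_right (by linarith) N0.le
  have h5 : (H.index : ℝ) * Nat.card H = Nat.card Γ := by exact_mod_cast H.index_mul_card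
  have H0 : (0 : ℝ) < Nat.card H := by exact_mod_cast Nat.card_pos
  have h6 : η ^ 2 / 2 * H.index < 1 := by
    refine lt_of_mul_lt_mul_right ?_ H0.le
    rw [mul_assoc, h5, one_mul]
    exact h4
  have h7 : (H.index : ℝ) ≤ r := by
    refine le_trans ?_ hr
    rw [le_div_iff₀ (by positivity)]
    linarith
  have h8 := coreu_index (H := H) (by exact_mod_cast h7) hN
  refine coreu_univ (Set.nonempty_of_ncard_ne_zero fun e => ?_) fun a =>
    (hH a).1 (h8 ▸ Subgroup.mem_top a)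
  rw [e, Nat.cast_zero] at hV
  linarith [mul_pos h0 N0]

end Grp

theorem coreU (hS : StmtSat) (hI : StmtInt) (hP : StmtPol) : StmtCoreU := by
  intro K _ Ω _ u X _ hG
  have hT := (hS K X).1
  have hpol : ∀ a b : X.Pnt, Pol u X X fun i x => a i * x * b i := by
    intro a b
    obtain ⟨p1, p2, -⟩ := hP K Ω u X X
    have q := fun ψ hψ χ hχ => ((hP K Ω u X (X.prod X)).2.2.2.2.2 _
      (((hP K Ω u X X).2.2.2.2.2 ψ hψ).1 X χ hχ)).2.1 X _ hG.mul
    exact q _ (q _ (p2 a) _ p1) _ (p2 b)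
  refine ⟨fun V S hV h1 h2 h3 => ?_, hpol, ?_⟩
  · have a1 := (hS K (X.prod X)).1 (fun i => S i ×ˢ V i) (fun i x => x.1 * x.2 ∈ V i)
      fun x hx => h3 (fun i => (x i).1) (hx.mono fun i h => h.1) (fun i => (x i).2)
        (hx.mono fun i h => h.2)
    have a2 := ((hS K X).2.1 V).1 hV
    refine Set.eq_univ_of_forall fun x => ?_
    filter_upwards [a1, a2, h1] with i b1 b2 b3
    have := hG.simple i
    rw [coreu_one b2 b3 (h2 i) fun s hs v hv => b1 (s, v) ⟨hs, hv⟩]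
    trivial
  · obtain ⟨V, -, hV1, hV2, hV3⟩ := (hI K Ω u X).2.2
      (fun Y => ∀ η : ℝ, 0 < η → ∀ᶠ i in (hyperfilter ℕ : Filter ℕ),
        ((Y i).ncard : ℝ) ≤ η * Nat.card (X.X i))
      (fun Y Y' h1 h2 η hη => by
        filter_upwards [h1, h2 η hη] with i b1 b2
        exact le_trans (by exact_mod_cast Set.ncard_le_ncard b1) b2)
      (fun _ => Set.univ) (fun h => by
        obtain ⟨i, hi⟩ := (h (1 / 2) (by norm_num)).exists
        have N0 : (0 : ℝ) < Nat.card (X.X i) := by exact_mod_cast Nat.card_pos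
        rw [Set.ncard_univ] at hi
        linarith)
    obtain ⟨η, h0, hη⟩ : ∃ η : ℝ, 0 < η ∧ ∀ᶠ i in (hyperfilter ℕ : Filter ℕ),
        η * Nat.card (X.X i) < (V i).ncard := by
      by_contra hc
      refine hV1 fun η h0 => ?_
      by_contra hd
      exact hc ⟨η, h0, (Ultrafilter.eventually_not.2 hd).mono fun i hi => not_le.1 hi⟩
    have a1 := hT (fun _ => Set.univ) (fun i a => (∀ v ∈ V i, a * v ∈ V i) ∨
      ({v | v ∈ V i ∧ a * v ∈ V i}.ncard : ℝ) ≤ η ^ 2 / 2 * Nat.card (X.X i)) fun a _ => by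
      by_cases hc : ∀ v ∈ pts V, ap (X := X) (X' := X) (fun i x => a i * x * 1) v ∈ pts V
      · refine (hT V (fun i x => a i * x ∈ V i) fun v hv => ?_).mono fun i hi => Or.inl hi
        exact (hc v hv).mono fun i hi => by simpa [ap] using hi
      · push Not at hc
        obtain ⟨v, hv, hn⟩ := hc
        rw [hV2] at hn
        have hn' : ¬ ∀ F : MvPolynomial X.τ Ω, (∀ y ∈ pts V, ev u F y = 0) →
            ev u F (ap (X := X) (X' := X) (fun i x => a i * x * 1) v) = 0 :=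
          fun e => hn ⟨Eventually.of_forall fun _ => trivial, e⟩
        push Not at hn'
        obtain ⟨F, hF1, hF2⟩ := hn'
        obtain ⟨F', hF'⟩ := ((hP K Ω u X X).2.2.2.2.2 _ (hpol a 1)).2.2.1 F
        obtain ⟨Z, hZ⟩ := (hI K Ω u X).1 F'
        have b1 := hV3 F' Z hZ ⟨v, hv, by rw [hF']; exact hF2⟩ (η ^ 2 / 2) (by positivity)
        have b2 := hT (fun i => {v | v ∈ V i ∧ a i * v ∈ V i}) (fun i x => x ∈ Z i) fun x hx =>
          (hZ x).2 (by
            rw [hF']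
            exact hF1 _ (hx.mono fun i hi => by simpa [ap] using hi.2))
        filter_upwards [b1, b2] with i c1 c2
        refine Or.inr (le_trans ?_ c1)
        exact_mod_cast Set.ncard_le_ncard (t := V i ∩ Z i) fun x hx => ⟨hx.1, c2 x hx⟩
    obtain ⟨r, hr⟩ := exists_nat_ge (2 / η ^ 2)
    have a2 : ∀ᶠ i in (hyperfilter ℕ : Filter ℕ), V i = Set.univ := by
      filter_upwards [a1, hη, hG.big (r.factorial + 1)] with i b1 b2 b3
      have := hG.simple i
      exact coreu_count h0 b2 hr b3 fun a => b1 a trivial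
    refine ⟨⟨1, Eventually.of_forall fun _ => trivial⟩, fun F Z hZ ⟨y, _, hy⟩ ε hε => ?_⟩
    filter_upwards [hV3 F Z hZ ⟨y, a2.mono fun i hi => hi ▸ trivial, hy⟩ ε hε, a2] with i b1 b2
    rw [b2] at b1
    rwa [Set.ncard_univ]

end Pool.Agent.Work.MP_11a08a_al.Lin
end

-- merged part: Pool.Agent.Work.MP_11a08a_al.Lin.LPa
section
/-!
Suppose `Dim` holds for all `a`.  Choose points `x, x' ∈ pts Y` with `x i ≠ x' i` almost everywhere, `s₀ = x⁻¹ * x'`.  `V` internal with `pts V = clo (pts Y')` (`hI`).  Fix `a`.  `ψ p = p.1 * a * p.2` is `Pol`; `T = ap (fun y => x * a * y) '' pts Y'` lies in the image of the thin product (`hT`), is nonempty, and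
`Dim u T d'` would give `Dim u (pts Y') d'` (apply item 4 of `hD` to the inverse translation, `ap` of the composite is the identity).  Item 3 of `hDe`: `x' * a * y ∈ clo T` for `y ∈ pts Y'`; continuity of the translation by `(x * a)⁻¹` gives `a⁻¹ * s₀ * a * y ∈ clo (pts Y')`, and continuity again the same for `y` in the closure.
`S i = {b * s₀ i * b⁻¹}`; a point of `pts S` agrees almost everywhere with some `a⁻¹ * s₀ * a` (choice), and membership in `pts V` only depends on almost all `i`.  Item 1 of `hC`: `pts V = univ`; item 2 of `hDe` contradicts the last hypothesis.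
-/

set_option autoImplicit false

open Filter MvPolynomial

namespace Pool.Agent.Work.MP_11a08a_al.Lin

theorem lpa (hS : StmtSat) (hI : StmtInt) (hP : StmtPol) (hD : StmtDim) (hDe : StmtDens)
    (hT : StmtThin) (hC : StmtCoreU) : StmtLPa := by
  intro K _ Ω _ u X _ hG Y Y' d hY hY' h2 hd hmin hun
  by_contra hcon
  simp only [not_exists, not_not] at hcon
  have hsub : ∀ P : Set X.Pnt, P ⊆ clo u P := fun P y hy F hF => hF y hy
  have hch : ∀ i, ∃ p : X.X i × X.X i, 2 ≤ (Y i).ncard → p.1 ∈ Y i ∧ p.2 ∈ Y i ∧ p.1 ≠ p.2 := by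
    intro i
    by_cases h : 2 ≤ (Y i).ncard
    · obtain ⟨a, ha, b, hb, hab⟩ := (Set.one_lt_ncard (Set.toFinite (Y i))).1 h
      exact ⟨(a, b), fun _ => ⟨ha, hb, hab⟩⟩
    · exact ⟨(1, 1), fun h' => absurd h' h⟩
  choose xx hxx using hch
  set x : X.Pnt := fun i => (xx i).1 with hxdef
  set x' : X.Pnt := fun i => (xx i).2 with hx'def
  have hx : x ∈ pts Y := h2.mono fun i hi => (hxx i hi).1
  have hx' : x' ∈ pts Y := h2.mono fun i hi => (hxx i hi).2.1
  have hne : ∀ᶠ i in (hyperfilter ℕ : Filter ℕ), x i ≠ x' i := h2.mono fun i hi => (hxx i hi).2.2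
  obtain ⟨V, hV⟩ := (hI K Ω u X).2.1 (pts Y')
  obtain ⟨hC1, hC2, -⟩ := hC K Ω u X hG
  have hL : ∀ c : X.Pnt, Pol u X X fun i y => c i * y := fun c => by
    have := hC2 c 1
    simpa only [Pi.one_apply, mul_one] using this
  have hR : ∀ c : X.Pnt, Pol u X X fun i y => y * c i := fun c => by
    have := hC2 1 c
    simpa only [Pi.one_apply, one_mul] using this
  have hcont : ∀ (c : X.Pnt) (P P' : Set X.Pnt), (∀ y ∈ P, c * y ∈ clo u P') →
      ∀ y ∈ clo u P, c * y ∈ clo u P' := fun c P P' =>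
    ((hP K Ω u X X).2.2.2.2.2 _ (hL c)).2.2.2.1 P P'
  have hthin := (hT K Ω u X).1 X Y Y' hY hY'
  have key : ∀ a : X.Pnt, ∀ y ∈ clo u (pts Y'), a⁻¹ * (x⁻¹ * x') * a * y ∈ clo u (pts Y') := by
    intro a
    have p1 : Pol u (X.prod X) X fun i p => p.1 * a i :=
      ((hP K Ω u (X.prod X) X).2.2.2.2.2 _ (hP K Ω u X X).2.2.1).2.1 X _ (hR a)
    have p2 : Pol u (X.prod X) (X.prod X) fun i p => (p.1 * a i, p.2) :=
      ((hP K Ω u (X.prod X) X).2.2.2.2.2 _ p1).1 X _ (hP K Ω u X X).2.2.2.1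
    have hψ : Pol u (X.prod X) X fun i p => p.1 * a i * p.2 :=
      ((hP K Ω u (X.prod X) (X.prod X)).2.2.2.2.2 _ p2).2.1 X _ hG.mul
    have hmem : ∀ z ∈ pts Y, ∀ y ∈ pts Y', z * a * y ∈
        ap (X := X.prod X) (X' := X) (fun i p => p.1 * a i * p.2) ''
          pts (X := X.prod X) fun i => Y i ×ˢ Y' i := fun z hz y hy =>
      ⟨fun i => (z i, y i), (Filter.Eventually.and hz hy).mono fun i hi => hi, rfl⟩
    have hTd : ∀ d' < d, ¬ Dim u ((fun y => x * a * y) '' pts Y') d' := fun d' hd' hTd => by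
      have h4 := (hD K Ω u X).2.2.2.1 X _ _ d' (hL (x * a)⁻¹) hTd
      refine hmin d' hd' ((hD K Ω u X).1 _ _ d' d' (fun y hy => ?_) le_rfl h4)
      exact ⟨x * a * y, ⟨y, hy, rfl⟩, inv_mul_cancel_left (x * a) y⟩
    have h3 := (hDe K Ω u (X.prod X) _ hthin).2.2 X _ ((fun y => x * a * y) '' pts Y') d hψ
      (hcon a) (by rintro _ ⟨y, hy, rfl⟩; exact hmem x hx y hy) (hY'.1.image _) hTd
    refine hcont _ _ _ fun y hy => ?_
    have h5 := hcont (x * a)⁻¹ ((fun y => x * a * y) '' pts Y') (pts Y')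
      (by
        rintro _ ⟨z, hz, rfl⟩
        rw [inv_mul_cancel_left]
        exact hsub _ hz) _ (h3 (hmem x' hx' y hy))
    have e : (x * a)⁻¹ * (x' * a * y) = a⁻¹ * (x⁻¹ * x') * a * y := by group
    rwa [e] at h5
  have huniv : pts V = Set.univ := by
    refine hC1 V (fun i => {s | ∃ b, s = b * (x⁻¹ * x') i * b⁻¹}) ?_ ?_ ?_ ?_
    · rw [hV]; exact hY'.1.mono (hsub _)
    · refine hne.mono fun i hi => ⟨(x⁻¹ * x') i, ⟨1, by simp⟩, fun h => hi ?_⟩
      exact inv_mul_eq_one.1 h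
    · rintro i _ ⟨b, rfl⟩ c
      exact ⟨c * b, by group⟩
    · intro s hs v hv
      have hb : ∀ i, ∃ b : X.X i, (∃ b, s i = b * (x⁻¹ * x') i * b⁻¹) →
          s i = b * (x⁻¹ * x') i * b⁻¹ := fun i => by
        by_cases h : ∃ b, s i = b * (x⁻¹ * x') i * b⁻¹
        · obtain ⟨b, hb⟩ := h
          exact ⟨b, fun _ => hb⟩
        · exact ⟨1, fun h' => absurd h' h⟩
      choose b hb using hb
      have h6 := key (show X.Pnt from b)⁻¹ v (hV ▸ hv)
      rw [inv_inv, ← hV] at h6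
      refine (Filter.Eventually.and hs h6).mono fun i hi => ?_
      have e : (s * v) i = ((show X.Pnt from b) * (x⁻¹ * x') * (show X.Pnt from b)⁻¹ * v) i := by
        rw [Pi.mul_apply, hb i hi.1]
        rfl
      rw [e]
      exact hi.2
  have h7 := (hDe K Ω u X Y' hY').2.1 d hd
  rw [← hV, huniv] at h7
  exact hun h7

end Pool.Agent.Work.MP_11a08a_al.Lin
end

-- merged part: Pool.Agent.Work.MP_11a08a_al.Lin.LP
section
/-!
`D` least with `Dim univ D` (`Nat.find`), `0 < D` by item 3 of `hD` and `big` (`pts (fun _ => univ) = univ`), `a i = N i ^ (1 / D)`.  Call `d` failing if some `Y` has `Dim (pts Y) d` and `¬ Ll Y (a ^ d)`; then `0 < d < D`.  Suppose there are failing `d`; `d₁` the least, `d₂` the largest.  Item 3 of `hI` with `Sm Y = Ll Y (a ^ d)` and item 3 of `hT` give thin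
`Y₁, Y₂` with `Dim (pts Y₁) d₁`, `Dim (pts Y₂) d₂`, `¬ Ll`.  `d₀ ≤ d₂` least with `Dim (pts Y₂) d₀`.  `c` from `hL`, `ψ p = p.1 * c * p.2`.  `A` countable containing the two witnesses and the sets `A₀` (`hP`) of `ψ` and of `χ p = (ψ p, p.1)`; `w = ap ψ p₀` with `¬ RkLE A (range (co u w)) d₀`.  Apply part (ii) of `hCo` to
`Y i = χ i '' (Y₁ i ×ˢ Y₂ i)`, `ι = {F // Ov A F ∧ ev u F w ≠ 0}`, `Z F i = {p | p.1 ∈ Z_F i}`, `E = {e | d₀ < e.1 ∧ e.1 + e.2 ≤ d₁ + d₀}`, `b e = max e.1 (d₂ + 1)`, `d = d₁ + d₂`.  A point of `pts Y` agrees almost everywhere with `ap χ p`, `p ∈ pts (Y₁ ×ˢ Y₂)` (choice; item 5 of `hS`); `RkLE A (range (co p)) (d₁ + d₀)` by item 5 of `hA`, so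
`RkLE A (range z ∪ range x) (d₁ + d₀)`; split by item 6; if `RkLE A (range z) d₀` then some `F ∈ ι` vanishes at `z` (else `hSp` bounds the rank of `w`), otherwise `d₀ < e`.  `e.2 < d₁` and `b e > d₂` are not failing.  `χ i` is injective, and for `F ∈ s` the pairs `p` with `ψ p ∈ Z_F` are negligible in the thin product; so
`ncard Y₁ * ncard Y₂ ≤ 2 C a ^ d₁ a ^ d₂` almost everywhere, against `(max C 0 + 1) a ^ d₁ < ncard Y₁` and `2 a ^ d₂ < ncard Y₂`.
-/

set_option autoImplicit false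

open Filter MvPolynomial

namespace Pool.Agent.Work.MP_11a08a_al.Lin

theorem lp_cover {α ι : Type} [Finite α] (P : Set α) (Z : ι → Set α) (s : Finset ι) :
    P.ncard ≤ ({p | p ∈ P ∧ ∀ F ∈ s, p ∉ Z F} : Set α).ncard + ∑ F ∈ s, (P ∩ Z F).ncard := by
  classical
  induction s using Finset.induction_on with
  | empty => simp
  | insert a s ha ih =>
    rw [Finset.sum_insert ha]
    have h1 : ({p | p ∈ P ∧ ∀ F ∈ s, p ∉ Z F} : Set α) ⊆
        {p | p ∈ P ∧ ∀ F ∈ insert a s, p ∉ Z F} ∪ P ∩ Z a := by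
      rintro p ⟨h1, h2⟩
      by_cases h : p ∈ Z a
      · exact Or.inr ⟨h1, h⟩
      · refine Or.inl ⟨h1, fun F hF => ?_⟩
        rcases Finset.mem_insert.1 hF with rfl | hF
        · exact h
        · exact h2 F hF
    have h2 := (Set.ncard_le_ncard h1).trans (Set.ncard_union_le _ _)
    omega

theorem lp_not_ll {K : ℕ → Type} {X : Sp K} {Y : X.In} {a : ℕ → ℝ} (h : ¬ Ll Y a) (C : ℝ) :
    ∀ᶠ i in (hyperfilter ℕ : Filter ℕ), C * a i < ((Y i).ncard : ℝ) := by
  have h1 : ¬ ∀ᶠ i in (hyperfilter ℕ : Filter ℕ), ((Y i).ncard : ℝ) ≤ C * a i :=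
    fun h1 => h ⟨C, h1⟩
  exact (Ultrafilter.eventually_not.2 h1).mono fun _ => not_le.1

theorem lp_thin (hI : StmtInt) (hD : StmtDim) (hT : StmtThin) {K : ℕ → Type} [∀ i, Field (K i)]
    {Ω : Type} [Field Ω] (u : UP K Ω) {X : Sp K} {a : ℕ → ℝ} (ha : ∀ i, 0 ≤ a i) {d : ℕ}
    (h : ∃ Y : X.In, Dim u (pts Y) d ∧ ¬ Ll Y a) :
    ∃ Y : X.In, Thin u Y ∧ Dim u (pts Y) d ∧ ¬ Ll Y a := by
  obtain ⟨Y, h1, h2⟩ := h
  obtain ⟨Y', k1, k2, -, k3⟩ := (hI K Ω u X).2.2 (fun Y => Ll Y a) (by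
    rintro Y Y' hY ⟨C, hC⟩
    refine ⟨C, ?_⟩
    filter_upwards [hY, hC] with i e1 e2
    exact le_trans (Nat.cast_le.2 (Set.ncard_le_ncard e1)) e2) Y h2
  exact ⟨Y', (hT K Ω u X).2.2 Y' a ha k2 k3,
    (hD K Ω u X).1 _ _ _ _ (fun x hx => Eventually.mono hx fun i hi => k1 i hi) le_rfl h1, k2⟩

theorem lp_mono (hA : StmtAcl) {Ω : Type} [Field Ω] {A A' B : Set Ω} {d d' : ℕ}
    (h : RkLE A B d) (h1 : A ⊆ A') (h2 : d ≤ d') : RkLE A' B d' := by
  obtain ⟨-, -, h3⟩ := (hA Ω).1 (A' ∪ B)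
  exact (hA Ω).2.2.2.1 A A' B B d d' h h1 (Set.subset_union_right.trans h3) h2

theorem lp_final {n₁ n₂ g C a η : ℝ} {d₁ d₂ k : ℕ} (ha : 1 ≤ a) (hη : η = 1 / (2 * (k + 1)))
    (h1 : (max C 0 + 1) * a ^ d₁ < n₁) (h2 : 2 * a ^ d₂ < n₂) (h3 : g ≤ C * a ^ (d₁ + d₂))
    (h4 : n₁ * n₂ ≤ g + k * (η * (n₁ * n₂))) : False := by
  have p1 : 0 < a ^ d₁ := by positivity
  have p2 : 0 < a ^ d₂ := by positivity
  have p3 : 0 ≤ max C 0 := le_max_right _ _
  have p4 : C ≤ max C 0 := le_max_left _ _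
  have p5 : (max C 0 + 1) * a ^ d₁ * (2 * a ^ d₂) < n₁ * n₂ :=
    mul_lt_mul'' h1 h2 (by positivity) (by positivity)
  have p6 : 0 < n₁ * n₂ := lt_trans (by positivity) p5
  have p7 : (k : ℝ) * η ≤ 1 / 2 := by
    rw [hη, mul_one_div, div_le_div_iff₀ (by positivity) (by positivity)]
    linarith
  have p8 : (k : ℝ) * (η * (n₁ * n₂)) ≤ 1 / 2 * (n₁ * n₂) := by
    rw [← mul_assoc]
    exact mul_le_mul_of_nonneg_right p7 p6.le
  rw [pow_add] at h3
  have p9 : C * (a ^ d₁ * a ^ d₂) ≤ max C 0 * (a ^ d₁ * a ^ d₂) :=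
    mul_le_mul_of_nonneg_right p4 (by positivity)
  have p10 : 0 < a ^ d₁ * a ^ d₂ := by positivity
  nlinarith

theorem lp_step (hA : StmtAcl) (hSp : StmtSpec) (hI : StmtInt) (hP : StmtPol)
    (hD : StmtDim) (hT : StmtThin) (hCo : StmtCount) (hC : StmtCoreU) (hL : StmtLPa)
    {K : ℕ → Type} [∀ i, Field (K i)] {Ω : Type} [Field Ω] (u : UP K Ω) {X : Sp K}
    [∀ i, Group (X.X i)] (hG : GrpSp u X) {a : ℕ → ℝ} (ha : ∀ i, 1 ≤ a i) {d₁ d₂ : ℕ}
    {Y₁ Y₂ : X.In} (t1 : Thin u Y₁) (t2 : Thin u Y₂) (m1 : Dim u (pts Y₁) d₁)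
    (m2 : Dim u (pts Y₂) d₂) (n1 : ¬ Ll Y₁ fun i => a i ^ d₁) (n2 : ¬ Ll Y₂ fun i => a i ^ d₂)
    (lo : ∀ d < d₁, ∀ T : X.In, Dim u (pts T) d → Ll T fun i => a i ^ d)
    (hi : ∀ d, d₂ < d → ∀ T : X.In, Dim u (pts T) d → Ll T fun i => a i ^ d)
    (nu : ¬ Dim u (Set.univ : Set X.Pnt) d₂) : False := by
  classical
  have ex : ∃ d, Dim u (pts Y₂) d := ⟨d₂, m2⟩
  obtain ⟨d₀, m0, l0, min0⟩ : ∃ d₀, Dim u (pts Y₂) d₀ ∧ d₀ ≤ d₂ ∧ ∀ d < d₀, ¬ Dim u (pts Y₂) d :=
    ⟨Nat.find ex, Nat.find_spec ex, Nat.find_min' ex m2, fun _ h => Nat.find_min ex h⟩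
  obtain ⟨c, hc⟩ := hL K Ω u X hG Y₁ Y₂ d₀ t1 t2 (by
      filter_upwards [lp_not_ll n1 1] with i h
      have h1 : (1 : ℝ) < (Y₁ i).ncard := by
        have := one_le_pow₀ (n := d₁) (ha i)
        linarith
      exact_mod_cast h1) m0 min0
    fun h => nu ((hD K Ω u X).1 _ _ _ _ subset_rfl l0 h)
  set ψ : ∀ i, (X.prod X).X i → X.X i := fun i p => p.1 * c i * p.2 with hψ
  let χ : ∀ i, (X.prod X).X i → (X.prod X).X i := fun i p => (ψ i p, p.1)
  obtain ⟨-, -, pf, ps, cs, -⟩ := hP K Ω u X X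
  have pψ : Pol u (X.prod X) X ψ := by
    have q1 := ((hP K Ω u (X.prod X) X).2.2.2.2.2 _ pf).2.1 X _ ((hC K Ω u X hG).2.1 1 c)
    have q2 := ((hP K Ω u (X.prod X) X).2.2.2.2.2 _ q1).1 X _ ps
    have q3 := ((hP K Ω u (X.prod X) (X.prod X)).2.2.2.2.2 _ q2).2.1 X _ hG.mul
    simpa only [Pi.one_apply, one_mul] using q3
  have pχ : Pol u (X.prod X) (X.prod X) χ := ((hP K Ω u (X.prod X) X).2.2.2.2.2 _ pψ).1 X _ pf
  obtain ⟨A₁, c1, r1⟩ := m1
  obtain ⟨A₂, c2, r2⟩ := m0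
  obtain ⟨A₃, c3, r3⟩ := ((hP K Ω u (X.prod X) (X.prod X)).2.2.2.2.2 _ pχ).2.2.2.2
  set A : Set Ω := A₁ ∪ A₂ ∪ A₃ with hAdef
  have cA : A.Countable := (c1.union c2).union c3
  have s1 : A₁ ⊆ A := Set.subset_union_left.trans Set.subset_union_left
  have s2 : A₂ ⊆ A := Set.subset_union_right.trans Set.subset_union_left
  have s3 : A₃ ⊆ A := Set.subset_union_right
  obtain ⟨p₀, hp₀, hw⟩ : ∃ p₀ ∈ pts (X := X.prod X) fun i => Y₁ i ×ˢ Y₂ i,
      ¬ RkLE A (Set.range (co u (ap (X := X.prod X) (X' := X) ψ p₀))) d₀ := by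
    by_contra h
    refine hc ⟨A, cA, ?_⟩
    rintro _ ⟨p, hp, rfl⟩
    by_contra k
    exact h ⟨p, hp, k⟩
  set w : X.Pnt := ap (X := X.prod X) (X' := X) ψ p₀ with hwdef
  choose Z hZ using (hI K Ω u X).1
  let ι : Type := {F : MvPolynomial X.τ Ω // Ov A F ∧ ev u F w ≠ 0}
  have : Countable ι := (((hA Ω).2.2.2.2.2.2.2.2 X.τ A cA).mono
    (s₁ := {F | Ov A F ∧ ev u F w ≠ 0}) fun F hF => hF.1).to_subtype
  let Y : (X.prod X).In := fun i => {q | q.2 ∈ Y₁ i ∧ (c i)⁻¹ * q.2⁻¹ * q.1 ∈ Y₂ i}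
  obtain ⟨s, C, hs⟩ := (hCo K Ω u X X Y A ι (fun F i => {q | q.1 ∈ Z F.1 i})
      {e | d₀ < e.1 ∧ e.1 + e.2 ≤ d₁ + d₀} a cA ha (by
        intro v hv
        let p : (X.prod X).Pnt := fun i => ((v i).2, (c i)⁻¹ * (v i).2⁻¹ * (v i).1)
        have e1 : ap (X := X.prod X) (X' := X.prod X) χ p = v := by
          funext i
          refine Prod.ext ?_ rfl
          show (v i).2 * c i * ((c i)⁻¹ * (v i).2⁻¹ * (v i).1) = (v i).1
          group
        have g1 := lp_mono hA (r1 (fun i => (p i).1) (Eventually.mono hv fun i h => h.1)) s1 le_rfl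
        have g2 := lp_mono hA (r2 (fun i => (p i).2) (Eventually.mono hv fun i h => h.2))
          (s2.trans (Set.subset_union_left
            (t := Set.range (co u (X := X) fun i => (p i).1)))) le_rfl
        have g3 := (hA Ω).2.2.2.2.1 _ _ _ _ _ g1 g2
        rw [← Set.Sum.elim_range, ← cs p] at g3
        have g4 := (hA Ω).2.2.2.1 _ _ _ _ _ _ g3 subset_rfl ((r3 A s3).1 p) le_rfl
        have e2 : Set.range (co u v) = Set.range (co u (X := X) fun i => (v i).1) ∪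
            Set.range (co u (X := X) fun i => (v i).2) := by
          rw [cs v]
          exact Set.Sum.elim_range _ _
        rw [e1, e2] at g4
        obtain ⟨e, he, g5, g6⟩ := (hA Ω).2.2.2.2.2.1 _ _ _ _ g4
        by_cases hd : d₀ < e
        · exact Or.inr ⟨(e, d₁ + d₀ - e), ⟨hd, by dsimp only; omega⟩, g5, g6⟩
        · left
          by_contra hn
          refine hw (hSp Ω X.τ A _ _ (fun F hF h0 => ?_) d₀
            (lp_mono hA g5 subset_rfl (not_lt.1 hd))).1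
          by_contra h1
          exact hn ⟨⟨F, hF, h1⟩, (hZ F fun i => (v i).1).2 h0⟩)
      (fun e he => lo e.2 (by have := he.1; have := he.2; omega))).2 (d₁ + d₂)
      (fun e => max e.1 (d₂ + 1)) (fun e he => by have := he.1; have := he.2; omega)
      fun e _ T hT' => hi _ (by omega) T ((hD K Ω u X).1 _ _ _ _ subset_rfl (le_max_left _ _) hT')
  have tp := (hT K Ω u X).1 X Y₁ Y₂ t1 t2
  have sm : ∀ᶠ i in (hyperfilter ℕ : Filter ℕ), ∀ F ∈ s,
      (((Y₁ i ×ˢ Y₂ i) ∩ {p | ψ i p ∈ Z F.1 i} : Set (X.X i × X.X i)).ncard : ℝ) ≤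
        1 / (2 * (s.card + 1)) * ((Y₁ i ×ˢ Y₂ i).ncard : ℝ) := by
    refine (eventually_all_finset s).2 fun F _ => ?_
    obtain ⟨F', hF'⟩ := ((hP K Ω u (X.prod X) X).2.2.2.2.2 _ pψ).2.2.1 F.1
    refine tp.2 F' (fun i => {p | ψ i p ∈ Z F.1 i}) (fun x => ?_) ⟨p₀, hp₀, ?_⟩ _ (by positivity)
    · rw [hF']
      exact hZ F.1 (ap (X := X.prod X) (X' := X) ψ x)
    · rw [hF']
      exact F.2.2
  obtain ⟨i, b1, b2, b3, b4⟩ :=
    ((lp_not_ll n1 (max C 0 + 1)).and ((lp_not_ll n2 2).and (hs.and sm))).exists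
  refine lp_final (k := s.card) (ha i) rfl b1 b2 b3 ?_
  have b5 := lp_cover (Y₁ i ×ˢ Y₂ i) (fun F : ι => {p | ψ i p ∈ Z F.1 i}) s
  have b6 : ({p | p ∈ Y₁ i ×ˢ Y₂ i ∧ ∀ F ∈ s, p ∉ {p | ψ i p ∈ Z F.1 i}} :
      Set (X.X i × X.X i)).ncard ≤ ({q | q ∈ Y i ∧ ∀ F ∈ s, q ∉ {q : (X.prod X).X i |
        q.1 ∈ Z F.1 i}} : Set ((X.prod X).X i)).ncard := by
    refine Set.ncard_le_ncard_of_injOn (χ i) ?_ ?_
    · rintro ⟨x, y⟩ ⟨⟨k1, k2⟩, k3⟩
      refine ⟨⟨k1, ?_⟩, k3⟩
      have : (c i)⁻¹ * x⁻¹ * (x * c i * y) = y := by group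
      exact this.symm ▸ k2
    · rintro ⟨x, y⟩ - ⟨x', y'⟩ - k
      obtain rfl : x = x' := congrArg Prod.snd k
      have k1 : x * c i * y = x * c i * y' := congrArg Prod.fst k
      rw [mul_left_cancel k1]
  have b7 := Finset.sum_le_card_nsmul s _ _ b4
  have b8 : ((Y₁ i ×ˢ Y₂ i).ncard : ℝ) = (Y₁ i).ncard * (Y₂ i).ncard := by
    rw [Set.ncard_prod, Nat.cast_mul]
  have b9 := (Nat.cast_le (α := ℝ)).2 (b5.trans (Nat.add_le_add_right b6 _))
  rw [Nat.cast_add, Nat.cast_sum] at b9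
  rw [nsmul_eq_mul, b8] at b7
  rw [b8] at b9
  exact b9.trans (add_le_add le_rfl b7)

theorem lp (hA : StmtAcl) (hSp : StmtSpec) (hS : StmtSat) (hI : StmtInt) (hP : StmtPol)
    (hD : StmtDim) (hT : StmtThin) (hCo : StmtCount) (hC : StmtCoreU) (hL : StmtLPa) : StmtLP := by
  classical
  intro K _ Ω _ u X _ hG
  have ex := (hD K Ω u X).2.1 Set.univ
  obtain ⟨D, mD, minD⟩ : ∃ D, Dim u (Set.univ : Set X.Pnt) D ∧
      ∀ d < D, ¬ Dim u (Set.univ : Set X.Pnt) d :=
    ⟨Nat.find ex, Nat.find_spec ex, fun _ h => Nat.find_min ex h⟩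
  have D0 : 0 < D := by
    refine Nat.pos_of_ne_zero ?_
    rintro rfl
    obtain ⟨C, hC'⟩ := (hD K Ω u X).2.2.1 (fun _ => Set.univ)
      ((hD K Ω u X).1 _ _ _ _ (Set.subset_univ _) le_rfl mD)
    obtain ⟨i, h1, h2⟩ := (hC'.and (hG.big (⌈C⌉₊ + 1))).exists
    rw [Set.ncard_univ, mul_one] at h1
    have h3 : ((⌈C⌉₊ + 1 : ℕ) : ℝ) ≤ Nat.card (X.X i) := Nat.cast_le.2 h2
    have h4 := Nat.le_ceil C
    push_cast at h3
    linarith
  let a : ℕ → ℝ := fun i => (Nat.card (X.X i) : ℝ) ^ ((D : ℝ)⁻¹)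
  have ha : ∀ i, 1 ≤ a i := fun i =>
    Real.one_le_rpow (Nat.one_le_cast.2 Nat.card_pos) (by positivity)
  have haD : ∀ i, a i ^ D = Nat.card (X.X i) := fun i =>
    Real.rpow_inv_natCast_pow (by positivity) D0.ne'
  refine ⟨D, a, D0, ha, haD, mD, minD, ?_⟩
  by_contra hn
  let Fl : ℕ → Prop := fun d => ∃ Y : X.In, Dim u (pts Y) d ∧ ¬ Ll Y fun i => a i ^ d
  have nf : ∀ d, ¬ Fl d → ∀ T : X.In, Dim u (pts T) d → Ll T fun i => a i ^ d := by
    intro d h T hT'
    by_contra k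
    exact h ⟨T, hT', k⟩
  have exF : ∃ d, Fl d := by
    by_contra h
    exact hn fun d => nf d fun k => h ⟨d, k⟩
  have bd : ∀ d, Fl d → d < D := by
    rintro d ⟨Y, -, h⟩
    by_contra k
    refine h ⟨1, Eventually.of_forall fun i => ?_⟩
    rw [one_mul]
    calc ((Y i).ncard : ℝ) ≤ Nat.card (X.X i) := Nat.cast_le.2 (Set.ncard_le_card _)
      _ = a i ^ D := (haD i).symm
      _ ≤ a i ^ d := pow_le_pow_right₀ (ha i) (not_lt.1 k)
  have f1 := Nat.find_spec exF
  have f2 : Fl (Nat.findGreatest Fl D) := Nat.findGreatest_spec (bd _ f1).le f1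
  have p0 : ∀ d i, 0 ≤ a i ^ d := fun d i => pow_nonneg (zero_le_one.trans (ha i)) d
  obtain ⟨Y₁, t1, m1, n1⟩ := lp_thin hI hD hT u (p0 _) f1
  obtain ⟨Y₂, t2, m2, n2⟩ := lp_thin hI hD hT u (p0 _) f2
  exact lp_step hA hSp hI hP hD hT hCo hC hL u hG ha t1 t2 m1 m2 n1 n2
    (fun d h => nf d (Nat.find_min exF h))
    (fun d h => nf d fun k => Nat.findGreatest_is_greatest h (bd d k).le k) (minD _ (bd _ f2))

end Pool.Agent.Work.MP_11a08a_al.Lin
end

-- merged part: Pool.Agent.Work.MP_11a08a_al.Lin.Dom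
section
/-!
`lpk`: part (ii) of `hCo` with the witness `A` of `Dim`, `ι = Empty`, `E = {e | e.1 + e.2 ≤ d}`, `b e = e.1`, item 6 of `hA` and the formula for `co` on a product; powers by induction (`Sp.pow_succ`; for `k = 0` the sets have at most one element).
`dom`: `Pol` by induction on `k` from `hP`, `mul`, `inv`.  `I k` = the range; `I k ⊆ I (k + 1)` (prepend `(1, 1)`).  `r k` least with `Dim (I k) (r k)`; monotone and bounded by a dimension of `univ`, so `r k = r (k + 1)` for some `k`.  Item 3 of `hDe` for the thin set `univ` of the power `k + 1` (`hT`, `hC`) and `T = I k`: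
`I (k + 1) ⊆ W = clo (I k) = pts V` (`hI`).  `S i = {x g x⁻¹ * (y g⁻¹ y⁻¹)}` is closed under conjugation and has an element `≠ 1` (else `g i` is central; the centre of a simple noncommutative group is `⊥`).  For `s ∈ pts S` choose `x, y` with equality almost everywhere; for `v ∈ I k`, `s * v` has the same coordinates as a
point of `I (k + 1)` (item 5 of `hS`), so lies in `W`; by continuity of the translation `s * W ⊆ W`.  Item 1 of `hC` gives `W = univ`, and `clo` is monotone; take `k + 1`.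
-/

set_option autoImplicit false

open Filter MvPolynomial

namespace Pool.Agent.Work.MP_11a08a_al.Lin

theorem lpk (hA : StmtAcl) (hP : StmtPol) (hCo : StmtCount) : StmtLPk := by
  intro K _ Ω _ u X a ha hX
  have h1 : ∀ X' : Sp K, LPp u X' a → LPp u (X.prod X') a := by
    rintro X' hX' d Y ⟨A, hA1, hA2⟩
    obtain ⟨s, C, h⟩ := (hCo K Ω u X X' Y A Empty Empty.elim {e | e.1 + e.2 ≤ d} a hA1 ha
      (fun w hw => by
        have h2 := hA2 w hw
        rw [((congrArg Set.range ((hP K Ω u X X').2.2.2.2.1 w)).trans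
          (Set.Sum.elim_range _ _) :)] at h2
        obtain ⟨e, he, h3⟩ := (hA Ω).2.2.2.2.2.1 _ _ _ _ h2
        exact Or.inr ⟨(e, d - e), (Nat.add_sub_of_le he).le, h3⟩)
      fun e _ => hX' e.2).2 d (fun e => e.1) (fun _ he => he) fun e _ => hX e.1
    exact ⟨C, h.mono fun i hi => by simpa using hi⟩
  refine ⟨h1, fun k => ?_⟩
  induction k with
  | zero =>
    refine fun d Y _ => ⟨1, .of_forall fun i => ?_⟩
    rw [one_mul]
    refine le_trans ?_ (one_le_pow₀ (ha i))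
    exact_mod_cast (Set.ncard_le_one (Set.toFinite _)).2 fun _ _ _ _ => rfl
  | succ k ih => exact h1 _ ih

theorem dom_ne {Γ : Type} [Group Γ] [IsSimpleGroup Γ] (h : ∃ x y : Γ, x * y ≠ y * x) {g : Γ}
    (hg : g ≠ 1) : ∃ x : Γ, x * g * x⁻¹ * (1 * g⁻¹ * 1⁻¹) ≠ 1 := by
  by_contra! h1
  have h2 : g ∈ Subgroup.center Γ := Subgroup.mem_center_iff.2 fun x => by
    simpa [mul_inv_eq_one, mul_inv_eq_iff_eq_mul] using h1 x
  obtain ⟨x, y, h⟩ := h
  rcases (inferInstance : (Subgroup.center Γ).Normal).eq_bot_or_eq_top with e | e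
  · exact hg (Subgroup.mem_bot.1 (e ▸ h2))
  · exact h (Subgroup.mem_center_iff.1 (e ▸ Subgroup.mem_top y) x)

theorem dom_pol (hP : StmtPol) {K : ℕ → Type} [∀ i, Field (K i)] {Ω : Type} [Field Ω] {u : UP K Ω}
    {X : Sp K} [∀ i, Group (X.X i)] (hG : GrpSp u X) (g : X.Pnt) (k : ℕ) :
    Pol u ((X.prod X).pow k) X fun i => phi (g i) k := by
  induction k with
  | zero => exact (hP K Ω u _ X).2.1 1
  | succ k ih =>
    have hm : ∀ {Z : Sp K} {f f' : ∀ i, Z.X i → X.X i}, Pol u Z X f → Pol u Z X f' →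
        Pol u Z X fun i x => f i x * f' i x := fun h h' =>
      ((hP K Ω u _ _).2.2.2.2.2 _ (((hP K Ω u _ _).2.2.2.2.2 _ h).1 _ _ h')).2.1 _ _ hG.mul
    have hc : ∀ {f : ∀ i, (X.prod X).X i → X.X i}, Pol u (X.prod X) X f → ∀ a : X.Pnt,
        Pol u (X.prod X) X fun i x => f i x * a i * (f i x)⁻¹ := fun h a =>
      hm (hm h ((hP K Ω u _ X).2.1 a)) (((hP K Ω u _ _).2.2.2.2.2 _ h).2.1 _ _ hG.inv)
    have h1 := hP K Ω u (X.prod X) ((X.prod X).pow k)
    exact hm (((hP K Ω u _ _).2.2.2.2.2 _ h1.2.2.1).2.1 _ _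
      (hm (hc (hP K Ω u X X).2.2.1 g) (hc (hP K Ω u X X).2.2.2.1 g⁻¹)))
      (((hP K Ω u _ _).2.2.2.2.2 _ h1.2.2.2.1).2.1 _ _ ih)

theorem dom (hS : StmtSat) (hI : StmtInt) (hP : StmtPol) (hD : StmtDim) (hDe : StmtDens)
    (hT : StmtThin) (hC : StmtCoreU) : StmtDom := by
  classical
  intro K _ Ω _ u X _ hG g hg
  refine ⟨dom_pol hP hG g, ?_⟩
  obtain ⟨I, hI0⟩ : ∃ I : ℕ → Set X.Pnt, ∀ k,
      Set.range (ap (X := (X.prod X).pow k) (X' := X) fun i => phi (g i) k) = I k :=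
    ⟨_, fun _ => rfl⟩
  simp only [hI0]
  have h1 : ∀ k, I k ⊆ I (k + 1) := by
    intro k
    rw [← hI0, ← hI0]
    rintro _ ⟨z, rfl⟩
    exact ⟨fun i => ((1, 1), z i), funext fun i => by simp [ap, phi]⟩
  obtain ⟨hD1, hD2, -⟩ := hD K Ω u X
  obtain ⟨hC1, hC2, hC3⟩ := hC K Ω u X hG
  obtain ⟨k, hk⟩ : ∃ k, Nat.find (hD2 (I (k + 1))) ≤ Nat.find (hD2 (I k)) := by
    by_contra! h
    obtain ⟨D, hD3⟩ := hD2 Set.univ
    exact (Nat.find_min' (hD2 (I (D + 1))) (hD1 _ _ _ _ (Set.subset_univ _) le_rfl hD3)).not_gt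
      ((strictMono_nat_of_lt_succ h).le_apply (x := D + 1))
  have h2 := (hT K Ω u X).1 X _ _ hC3 hC3
  simp only [Set.univ_prod_univ] at h2
  have h3 := (hDe K Ω u _ _ ((hT K Ω u _).2.1 h2 (k + 1))).2.2 X _ (I k) (Nat.find (hD2 (I k)))
    (dom_pol hP hG g (k + 1))
  have h4 : (I k).Nonempty := hI0 k ▸ Set.range_nonempty _
  rw [show pts (X := (X.prod X).pow (k + 1)) (fun _ => Set.univ) = Set.univ from
    Set.eq_univ_of_forall fun _ => Eventually.of_forall fun _ => trivial, Set.image_univ, hI0] at h3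
  have h5 := h3 (hD1 _ _ _ _ le_rfl hk (Nat.find_spec (hD2 _))) (h1 k) h4
    fun _ => Nat.find_min (hD2 _)
  obtain ⟨V, hV⟩ := (hI K Ω u X).2.1 (I k)
  have h6 := hC1 V (fun i => {s | ∃ x : X.X i × X.X i,
      x.1 * g i * x.1⁻¹ * (x.2 * (g i)⁻¹ * x.2⁻¹) = s}) (hV ▸ h4.mono ((h1 k).trans h5))
    (.of_forall fun i => by
      have := hG.simple i
      obtain ⟨x, hx⟩ := dom_ne (hG.nc i) (hg i)
      exact ⟨_, ⟨(x, 1), rfl⟩, hx⟩)
    (by
      rintro i _ ⟨x, rfl⟩ a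
      exact ⟨(a * x.1, a * x.2), by group⟩) fun s hs v hv => by
      obtain ⟨x, hx⟩ : ∃ x : (X.prod X).Pnt, ∀ᶠ i in (hyperfilter ℕ : Filter ℕ),
          (x i).1 * g i * (x i).1⁻¹ * ((x i).2 * (g i)⁻¹ * (x i).2⁻¹) = s i :=
        ⟨fun i => Classical.epsilon fun x : X.X i × X.X i =>
          x.1 * g i * x.1⁻¹ * (x.2 * (g i)⁻¹ * x.2⁻¹) = s i,
          Eventually.mono hs fun i hi => Classical.epsilon_spec hi⟩
      have h7 := ((hP K Ω u _ _).2.2.2.2.2 _ (hC2 s 1)).2.2.2.1 (I k) (I k) (fun w hw F hF => by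
        rw [← hI0] at hw h5
        obtain ⟨z, rfl⟩ := hw
        refine Eq.trans (congrArg (eval · F) (((hS K X).2.2.2.2 Ω u _ _).2
          (hx.mono fun i hi => ?_))) (h5 ⟨fun i => (x i, z i), rfl⟩ F hF)
        simp only [ap, phi, hi, Pi.one_apply, mul_one]) v (hV ▸ hv)
      rw [hV]
      convert h7 using 1
      exact funext fun i => (mul_one _).symm
  refine ⟨k + 1, k.succ_pos, Set.eq_univ_of_forall fun x F hF => ?_⟩
  exact (hV ▸ h6 ▸ Set.mem_univ x : x ∈ clo u (I k)) F fun y hy => hF y (h1 k hy)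

end Pool.Agent.Work.MP_11a08a_al.Lin
end

-- merged part: Pool.Agent.Work.MP_11a08a_al.Lin.MixU
section
/-!
`D, a` from `hL`, `k` from `hDo`, `P = (X.prod X).pow k`, `φ i = phi (g i) k`, `χ x = (φ x, x)`.  `Dim univ_P (k * (D + D))` (`hD`), `LPp u P a` (`hK`), `univ_P` thin (`hT`, `hC`).  `A` contains the witness for `P` and `A₀` of `φ`; `w : X.Pnt` with `¬ RkLE A (range (co u w)) (D - 1)`.  Part (i) of `hCo` for `Y i = range (χ i)`,
`ι = {F // Ov A F ∧ ev u F w ≠ 0}`, `Z F i = {p | p.1 ∈ Z_F i}`, `E = {e | e.2 ≤ (2 k - 1) D}`, `d = (2 k - 1) D`: a point of `pts Y` has first component equal almost everywhere to `ap φ` of the second; split by item 6 of `hA`; if `e < D` then some `F ∈ ι` vanishes at the first component (`hSp`), else `2 k D - e ≤ d`.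
For `F ∈ s` the pullback along `φ` does not vanish identically (density), so `{x | φ x ∈ Z_F}` has at most `η / (card s + 1) * N ^ (2 k)` elements (`Nat.card (Pw (Γ × Γ) k) = N ^ (2 k)` by induction).  The other `x` with `φ x ∈ A` are counted fibrewise: at most `ncard A * C * a ^ d`, and `a ^ d * N = N ^ (2 k)`.
-/

set_option autoImplicit false

open Filter MvPolynomial

namespace Pool.Agent.Work.MP_11a08a_al.Lin

theorem mixu_card (A : Type) : ∀ k, Nat.card (Pw A k) = Nat.card A ^ k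
  | 0 => by
    rw [pow_zero]
    exact Nat.card_unique (α := Unit)
  | k + 1 => by
    rw [pow_succ', ← mixu_card A k]
    exact Nat.card_prod A (Pw A k)

theorem mixu_union {Q ι : Type} (s : Finset ι) (f : ι → Set Q) (c : ℝ)
    (h : ∀ p ∈ s, ((f p).ncard : ℝ) ≤ c) : ((⋃ p ∈ s, f p).ncard : ℝ) ≤ s.card * c := by
  have h1 : ((⋃ p ∈ s, f p).ncard : ℝ) ≤ ∑ p ∈ s, ((f p).ncard : ℝ) := by
    exact_mod_cast Finset.set_ncard_biUnion_le s f
  refine h1.trans ?_
  rw [← nsmul_eq_mul]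
  exact Finset.sum_le_card_nsmul s _ c h

theorem mixu_count {Γ Q ι : Type} [Finite Γ] [Finite Q] (φ : Q → Γ) (s : Finset ι)
    (Z : ι → Set Γ) (A : Set Γ) (δ c : ℝ) (h1 : ∀ p ∈ s, (({x | φ x ∈ Z p} : Set Q).ncard : ℝ) ≤ δ)
    (h2 : ∀ z, (({x | z = φ x ∧ ∀ p ∈ s, z ∉ Z p} : Set Q).ncard : ℝ) ≤ c) :
    (({x | φ x ∈ A} : Set Q).ncard : ℝ) ≤ s.card * δ + A.ncard * c := by
  have hA : A.Finite := Set.toFinite A
  have e1 := mixu_union s (fun p => {x | φ x ∈ Z p}) δ h1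
  have e2 := mixu_union hA.toFinset (fun z => {x | z = φ x ∧ ∀ p ∈ s, z ∉ Z p}) c fun z _ => h2 z
  rw [← Set.ncard_eq_toFinset_card A hA] at e2
  have e3 : ({x | φ x ∈ A} : Set Q) ⊆ (⋃ p ∈ s, {x | φ x ∈ Z p}) ∪
      ⋃ z ∈ hA.toFinset, {x | z = φ x ∧ ∀ p ∈ s, z ∉ Z p} := by
    intro x hx
    by_cases k : ∃ p ∈ s, φ x ∈ Z p
    · obtain ⟨p, k1, k2⟩ := k
      exact Or.inl (Set.mem_biUnion k1 k2)
    · exact Or.inr (Set.mem_biUnion (hA.mem_toFinset.2 hx) ⟨rfl, fun p k1 k2 => k ⟨p, k1, k2⟩⟩)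
  have e4 := (Nat.cast_le (α := ℝ)).2
    ((Set.ncard_le_ncard e3 (Set.toFinite _)).trans (Set.ncard_union_le _ _))
  rw [Nat.cast_add] at e4
  linarith

theorem mixu_arith {S n m η C b N M : ℝ} (hη : 0 < η) (hn : 0 ≤ n) (hN : 0 ≤ N) (hM : 0 ≤ M)
    (hb : b * N = M) (h : S ≤ n * (η / (n + 1) * M) + m * (C * b)) :
    S * N ≤ (η * N + C * m) * M := by
  have e1 : n * (η / (n + 1)) ≤ η := by
    rw [← mul_div_assoc, div_le_iff₀ (by linarith)]
    nlinarith
  have e2 := mul_le_mul_of_nonneg_right e1 (mul_nonneg hM hN)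
  have e3 := mul_le_mul_of_nonneg_right h hN
  have e4 : m * (C * b) * N = C * m * M := by rw [← hb]; ring
  nlinarith

theorem mixU (hA : StmtAcl) (hSp : StmtSpec) (hS : StmtSat) (hI : StmtInt) (hP : StmtPol)
    (hD : StmtDim) (hT : StmtThin) (hCo : StmtCount) (hC : StmtCoreU) (hL : StmtLP)
    (hK : StmtLPk) (hDo : StmtDom) : StmtMixU := by
  intro K _ Ω _ u X _ hG g hg
  obtain ⟨D, a, D0, a1, aD, hDim, hmin, hLP⟩ := hL K Ω u X hG
  obtain ⟨hφ, k, k0, hden⟩ := hDo K Ω u X hG g hg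
  obtain ⟨i1, -, -, i4, -, i6, -, -, i9⟩ := hA Ω
  obtain ⟨A1, c1, r1⟩ := (hD K Ω u (X.prod X)).2.2.2.2.2 (D + D) k
    ((hD K Ω u X).2.2.2.2.1 X D D hDim hDim)
  have hLPP := (hK K Ω u (X.prod X) a a1 ((hK K Ω u X a a1 hLP).1 X hLP)).2 k
  have tX := (hC K Ω u X hG).2.2
  have tXX : Thin u (X := X.prod X) fun _ => Set.univ := by
    have := (hT K Ω u X).1 X _ _ tX tX
    simp only [Set.univ_prod_univ] at this
    exact this
  have tP := (hT K Ω u (X.prod X)).2.1 tXX k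
  obtain ⟨-, -, pb, -, A0, c0, r0⟩ := (hP K Ω u ((X.prod X).pow k) X).2.2.2.2.2 _ (hφ k)
  have cA : (A0 ∪ A1).Countable := c0.union c1
  obtain ⟨w, hw⟩ : ∃ w : X.Pnt, ¬ RkLE (A0 ∪ A1) (Set.range (co u w)) (D - 1) := by
    by_contra hn
    refine hmin (D - 1) (by omega) ⟨_, cA, fun x _ => ?_⟩
    by_contra h1
    exact hn ⟨x, h1⟩
  choose Zf hZ using (hI K Ω u X).1
  have cι : ({F : MvPolynomial X.τ Ω | Ov (A0 ∪ A1) F ∧ ev u F w ≠ 0}).Countable :=
    (i9 X.τ _ cA).mono fun F h => h.1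
  have := cι.to_subtype
  obtain ⟨d, hd⟩ : ∃ d, d + D = k * (D + D) :=
    ⟨k * (D + D) - D, Nat.sub_add_cancel ((Nat.le_add_left D D).trans (Nat.le_mul_of_pos_left _ k0))⟩
  obtain ⟨s, C, hC⟩ := (hCo K Ω u X ((X.prod X).pow k) (fun i => {p | p.1 = phi (g i) k p.2})
    (A0 ∪ A1) {F : MvPolynomial X.τ Ω | Ov (A0 ∪ A1) F ∧ ev u F w ≠ 0}
    (fun F i => {p | p.1 ∈ Zf F.1 i}) {e | e.2 ≤ d} a cA a1 (fun y hy => by
      have e1 : co u (X := X) (fun i => (y i).1) =
          co u (ap (X := (X.prod X).pow k) (X' := X) (fun i => phi (g i) k) fun i => (y i).2) :=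
        ((hS K X).2.2.2.2 Ω u _ _).2 hy
      have e2 := (r0 (A0 ∪ A1) Set.subset_union_left).1 fun i => (y i).2
      rw [← e1] at e2
      obtain ⟨-, -, e3⟩ := i1 ((A0 ∪ A1) ∪
        Set.range (co u (X := (X.prod X).pow k) fun i => (y i).2))
      obtain ⟨e, -, e4, e5⟩ := i6 _ _ _ _ (i4 _ _ _ _ _ _ (r1 (fun i => (y i).2) trivial)
        Set.subset_union_right (Set.union_subset e2 (Set.subset_union_right.trans e3)) le_rfl)
      rcases lt_or_ge e D with he | he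
      · left
        by_contra hn
        have e6 := (hSp Ω X.τ (A0 ∪ A1) (co u w) (co u (X := X) fun i => (y i).1)
          (fun F h1 h2 => by
            by_contra h3
            exact hn ⟨⟨F, h1, h3⟩, (hZ F _).2 h2⟩) e e4).1
        obtain ⟨-, -, e7⟩ := i1 ((A0 ∪ A1) ∪ Set.range (co u w))
        exact hw (i4 _ _ _ _ _ _ e6 subset_rfl (Set.subset_union_right.trans e7) (by omega))
      · exact Or.inr ⟨(e, k * (D + D) - e), show k * (D + D) - e ≤ d by omega, e4, e5⟩)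
    (fun e _ T hT => hLPP e.2 T hT)).1 d fun e he => he
  refine ⟨k, C, fun η hη => ?_⟩
  have small : ∀ F ∈ s, ∀ᶠ i in (hyperfilter ℕ : Filter ℕ),
      (({x | phi (g i) k x ∈ Zf F.1 i} : Set (Pw (X.X i × X.X i) k)).ncard : ℝ) ≤
        η / (s.card + 1) * (Nat.card (X.X i) : ℝ) ^ (2 * k) := by
    intro F _
    obtain ⟨F', hF'⟩ := pb F.1
    have e1 : ∃ y ∈ pts (X := (X.prod X).pow k) fun _ => Set.univ, ev u F' y ≠ 0 := by
      by_contra hn
      have e2 : w ∈ clo u (Set.range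
          (ap (X := (X.prod X).pow k) (X' := X) fun i => phi (g i) k)) := hden ▸ Set.mem_univ w
      refine F.2.2 (e2 F.1 ?_)
      rintro _ ⟨x, rfl⟩
      rw [← hF']
      by_contra h1
      exact hn ⟨x, Eventually.of_forall fun _ => trivial, h1⟩
    have e3 := tP.2 F' (fun i => {x | phi (g i) k x ∈ Zf F.1 i})
      (fun x => by rw [hF']; exact hZ F.1 _) e1 (η / (s.card + 1)) (by positivity)
    filter_upwards [e3] with i hi
    rw [Set.univ_inter, Set.ncard_univ] at hi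
    refine hi.trans (le_of_eq ?_)
    congr 1
    have e4 : Nat.card (((X.prod X).pow k).X i) = Nat.card (X.X i × X.X i) ^ k := mixu_card _ k
    rw [e4, Nat.card_prod, pow_mul]
    push_cast
    ring
  filter_upwards [hC, (eventually_all_finset s).2 small] with i h1 h2 B
  refine mixu_arith (n := s.card) (b := a i ^ d) hη (Nat.cast_nonneg _) (Nat.cast_nonneg _)
    (by positivity) ?_ (mixu_count (phi (g i) k) s (fun F => Zf F.1 i) B _ _ h2 h1)
  rw [← aD i, ← pow_add, hd, ← pow_mul]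
  congr 1
  ring

end Pool.Agent.Work.MP_11a08a_al.Lin
end
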