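import Mathlib
import Pool.Agent.Work.MP_11a08a_al.Lin.MixU
import Pool.Agent.Work.MP_11a08a_al.Sol.RB
import Pool.Agent.Work.MP_11a08a_al.Sol.Nilp
import Pool.Agent.Work.MP_11a08a_al.Sol.Rank

-- merged part: Pool.Agent.Work.MP_11a08a_al.Lin.DefsK
section
/-!
The definitions that occur in the final statement: known simple groups with their automorphisms.
-/

set_option autoImplicit false

open scoped commutatorElement

namespace Pool.Agent.Work.MP_11a08a_al.Lin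

/-- A nondegenerate pseudo-quadratic form `v ↦ g v v + Λ` in the sense of Tits, together with two
subspaces that are both the whole space or are complementary and totally singular. -/
structure Polar (K V : Type) [Field K] [AddCommGroup V] [Module K V] where
  σ : K →+* K
  ε : K
  Λ : AddSubgroup K
  g : V →ₗ[K] V →ₛₗ[σ] K
  P : Bool → Submodule K V
  invol : ∀ a, σ (σ a) = a
  eps : ε = 1 ∨ ε = -1
  low : ∀ a, a - ε * σ a ∈ Λ
  up : ∀ a ∈ Λ, a + ε * σ a = 0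
  stab : ∀ a ∈ Λ, ∀ c, c * a * σ c ∈ Λ
  nd : ∀ v, (∀ w, g v w + ε * σ (g w v) = 0) → v = 0
  sorts : (∀ s, P s = ⊤) ∨ (IsCompl (P true) (P false) ∧
    ∀ s, ∀ v ∈ P s, g v v ∈ Λ ∧ ∀ w ∈ P s, g v w + ε * σ (g w v) = 0)

namespace Polar

variable {K V : Type} [Field K] [AddCommGroup V] [Module K V] (p : Polar K V)

/-- The polar form. -/
def β (v w : V) : K := p.g v w + p.ε * p.σ (p.g w v)

/-- The isometries that preserve the two subspaces. -/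
def O : Subgroup (V ≃ₗ[K] V) where
  carrier := {h | (∀ v w, p.β (h v) (h w) = p.β v w) ∧
    (∀ v, p.g (h v) (h v) - p.g v v ∈ p.Λ) ∧ ∀ s v, h v ∈ p.P s ↔ v ∈ p.P s}
  one_mem' := ⟨fun _ _ => rfl, fun v => by simp, fun _ _ => Iff.rfl⟩
  mul_mem' := by
    rintro a b ⟨a1, a2, a3⟩ ⟨b1, b2, b3⟩
    refine ⟨fun v w => (a1 _ _).trans (b1 v w), fun v => ?_, fun s v => (a3 s _).trans (b3 s v)⟩
    simpa using p.Λ.add_mem (a2 (b v)) (b2 v)
  inv_mem' := by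
    rintro a ⟨a1, a2, a3⟩
    refine ⟨fun v w => ?_, fun v => ?_, fun s v => ?_⟩
    · simpa using (a1 (a.symm v) (a.symm w)).symm
    · simpa using p.Λ.neg_mem (a2 (a.symm v))
    · simpa using (a3 s (a.symm v)).symm

/-- The derived subgroup of the isometry group. -/
def D : Subgroup (V ≃ₗ[K] V) := ⁅p.O, p.O⁆

/-- Semilinear similitudes that preserve singular vectors and permute the two subspaces. -/
def SemiSim (h : V ≃+ V) : Prop :=
  ∃ (θ : K ≃+* K) (c : K) (f : Equiv.Perm Bool), c ≠ 0 ∧ (∀ (a : K) v, h (a • v) = θ a • h v) ∧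
    (∀ v w, p.β (h v) (h w) = c * θ (p.β v w)) ∧
    (∀ v, p.g (h v) (h v) ∈ p.Λ ↔ p.g v v ∈ p.Λ) ∧ ∀ s v, h v ∈ p.P (f s) ↔ v ∈ p.P s

/-- The automorphisms of a quotient of `p.D` induced by semilinear similitudes. -/
def aut {Q : Type} [Group Q] (π : p.D →* Q) : Set (MulAut Q) :=
  {α | ∃ h : V ≃+ V, p.SemiSim h ∧
    ∀ x y : p.D, (∀ v, y.1 (h v) = h (x.1 v)) → α (π x) = π y}

end Polar

/-- `Q` is a classical group and the automorphisms in `𝒜` are geometric. -/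
def ClA (Q : Type) [Group Q] (𝒜 : Set (MulAut Q)) : Prop :=
  ∃ (K V : Type) (_ : Field K) (_ : Finite K) (_ : AddCommGroup V) (_ : Module K V)
    (_ : FiniteDimensional K V) (p : Polar K V) (π : p.D →* Q), Function.Surjective π ∧
    π.ker ≤ Subgroup.center p.D ∧ 𝒜 ⊆ p.aut π

/-- The automorphisms of an alternating group induced by permutations. -/
def altAut {n : ℕ} {Q : Type} [Group Q] (π : alternatingGroup (Fin n) ≃* Q) : Set (MulAut Q) :=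
  {α | ∃ t : Equiv.Perm (Fin n), ∀ x y : alternatingGroup (Fin n),
    y.1 = t * x.1 * t⁻¹ → α (π x) = π y}

/-- `Q` is an alternating group and the automorphisms in `𝒜` are induced by permutations. -/
def AltA (Q : Type) [Group Q] (𝒜 : Set (MulAut Q)) : Prop :=
  ∃ (n : ℕ) (π : alternatingGroup (Fin n) ≃* Q), 𝒜 ⊆ altAut π

/-- The automorphisms of a quotient of `B` induced by elements of `S` that normalise `B`. -/
def ind {G Q : Type} [Group G] [Group Q] {B : Subgroup G} (π : B →* Q) (S : Subgroup G) :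
    Set (MulAut Q) :=
  {α | ∃ s ∈ S, s ∈ Subgroup.normalizer (B : Set G) ∧
    ∀ x y : B, y.1 = s * x.1 * s⁻¹ → α (π x) = π y}

end Pool.Agent.Work.MP_11a08a_al.Lin
end

-- merged part: Pool.Agent.Work.MP_11a08a_al.Lin.DefsP
section
/-!
Definitions and elementary facts for polar spaces.
-/

set_option autoImplicit false

open Module
open scoped commutatorElement

namespace Pool.Agent.Work.MP_11a08a_al.Lin

namespace Polar

variable {K V : Type} [Field K] [AddCommGroup V] [Module K V] (p : Polar K V)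

@[simp] theorem σσ (a : K) : p.σ (p.σ a) = a := p.invol a

@[simp] theorem εε : p.ε * p.ε = 1 := by rcases p.eps with h | h <;> simp [h]

@[simp] theorem σε : p.σ p.ε = p.ε := by rcases p.eps with h | h <;> simp [h]

theorem ε_ne : p.ε ≠ 0 := by rcases p.eps with h | h <;> simp [h]

@[simp] theorem β_add_left (u v w : V) : p.β (u + v) w = p.β u w + p.β v w := by
  simp only [β, map_add, LinearMap.add_apply]; ring

@[simp] theorem β_add_right (u v w : V) : p.β u (v + w) = p.β u v + p.β u w := by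
  simp only [β, map_add, LinearMap.add_apply]; ring

@[simp] theorem β_smul_left (a : K) (v w : V) : p.β (a • v) w = a * p.β v w := by
  simp only [β, map_smul, LinearMap.smul_apply, LinearMap.map_smulₛₗ, smul_eq_mul, map_mul, σσ]
  ring

@[simp] theorem β_smul_right (a : K) (v w : V) : p.β v (a • w) = p.σ a * p.β v w := by
  simp only [β, map_smul, LinearMap.smul_apply, LinearMap.map_smulₛₗ, smul_eq_mul, map_mul]
  ring

@[simp] theorem β_zero_left (w : V) : p.β 0 w = 0 := by simp [β]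

@[simp] theorem β_zero_right (w : V) : p.β w 0 = 0 := by simp [β]

@[simp] theorem β_neg_left (v w : V) : p.β (-v) w = -p.β v w := by
  simp only [β, map_neg, LinearMap.neg_apply]; ring

@[simp] theorem β_neg_right (v w : V) : p.β v (-w) = -p.β v w := by
  simp only [β, map_neg, LinearMap.neg_apply]; ring

@[simp] theorem β_sub_left (u v w : V) : p.β (u - v) w = p.β u w - p.β v w := by
  simp [sub_eq_add_neg]

@[simp] theorem β_sub_right (u v w : V) : p.β u (v - w) = p.β u v - p.β u w := by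
  simp [sub_eq_add_neg]

theorem β_symm (v w : V) : p.β w v = p.ε * p.σ (p.β v w) := by
  simp only [β, map_add, map_mul, σσ, σε, mul_add, ← mul_assoc, εε, one_mul]
  ring

theorem β_comm {v w : V} : p.β v w = 0 ↔ p.β w v = 0 := by
  constructor <;> intro h <;> rw [β_symm, h, map_zero, mul_zero]

/-- The polar form as a linear map in the first variable. -/
def βl (w : V) : V →ₗ[K] K where
  toFun v := p.β v w
  map_add' _ _ := p.β_add_left _ _ _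
  map_smul' _ _ := p.β_smul_left _ _ _

@[simp] theorem βl_apply (v w : V) : p.βl w v = p.β v w := rfl

/-- Singular vectors (the zero vector included). -/
def Sing (v : V) : Prop := p.g v v ∈ p.Λ

theorem Sing.β_self {p : Polar K V} {v : V} (h : p.Sing v) : p.β v v = 0 := p.up _ h

theorem g_add (u v : V) : p.g (u + v) (u + v) - (p.g u u + p.g v v + p.β u v) ∈ p.Λ := by
  have h := p.low (p.g v u)
  convert h using 1
  simp only [β, map_add, LinearMap.add_apply]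
  ring

theorem g_smul (a : K) (v : V) : p.g (a • v) (a • v) = a * p.g v v * p.σ a := by
  simp only [map_smul, LinearMap.smul_apply, LinearMap.map_smulₛₗ, smul_eq_mul]
  ring

theorem Sing.smul {p : Polar K V} {v : V} (h : p.Sing v) (a : K) : p.Sing (a • v) := by
  rw [Sing, g_smul]
  exact p.stab _ h a

theorem Sing.add {p : Polar K V} {u v : V} (hu : p.Sing u) (hv : p.Sing v) (h : p.β u v = 0) :
    p.Sing (u + v) := by
  have h1 := p.Λ.add_mem (p.g_add u v) (p.Λ.add_mem hu hv)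
  rwa [h, add_zero, sub_add_cancel] at h1

theorem Sing.neg {p : Polar K V} {v : V} (h : p.Sing v) : p.Sing (-v) := by
  simpa using h.smul (-1)

theorem sing_zero : p.Sing 0 := by simp [Sing]

/-- The orthogonal complement. -/
def perp (U : Submodule K V) : Submodule K V where
  carrier := {v | ∀ u ∈ U, p.β v u = 0}
  add_mem' ha hb u hu := by rw [β_add_left, ha u hu, hb u hu, add_zero]
  zero_mem' u _ := p.β_zero_left u
  smul_mem' c _ hv u hu := by rw [β_smul_left, hv u hu, mul_zero]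

theorem mem_perp {U : Submodule K V} {v : V} : v ∈ p.perp U ↔ ∀ u ∈ U, p.β v u = 0 := Iff.rfl

/-- Graded subspaces. -/
def Gr (U : Submodule K V) : Prop := U ≤ U ⊓ p.P true ⊔ U ⊓ p.P false

/-- Graded nondegenerate subspaces. -/
def Nd (U : Submodule K V) : Prop := p.Gr U ∧ U ⊓ p.perp U = ⊥

/-- The room in a subspace. -/
noncomputable def rk (U : Submodule K V) : ℕ := finrank K ↥(U ⊓ p.P true)

/-- Admissible pairs. -/
def Adm (U : Submodule K V) (s : Bool) (x w : V) : Prop :=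
  x ∈ U ⊓ p.P (!s) ∧ w ∈ U ⊓ p.P s ∧ p.Sing x ∧ p.Sing w ∧ p.β x w = 0

/-- `e` is the Eichler map of the pair `x, w`. -/
def Ei (x w : V) (e : V ≃ₗ[K] V) : Prop :=
  ∀ v, e v = v + p.β v x • w - (p.ε * p.β v w) • x

/-- Eichler maps supported in `U`. -/
def IsE (U : Submodule K V) (e : V ≃ₗ[K] V) : Prop := ∃ s x w, p.Adm U s x w ∧ p.Ei x w e

/-- The elementary group of `U`. -/
def A (U : Submodule K V) : Subgroup (V ≃ₗ[K] V) := Subgroup.closure {e | p.IsE U e}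

/-- The isometries that fix the orthogonal complement of `U` pointwise. -/
def OU (U : Submodule K V) : Subgroup (V ≃ₗ[K] V) where
  carrier := {h | h ∈ p.O ∧ ∀ v ∈ p.perp U, h v = v}
  one_mem' := ⟨p.O.one_mem, fun _ _ => rfl⟩
  mul_mem' := by
    rintro a b ⟨a1, a2⟩ ⟨b1, b2⟩
    exact ⟨p.O.mul_mem a1 b1, fun v hv => (congrArg a (b2 v hv)).trans (a2 v hv)⟩
  inv_mem' := by
    rintro a ⟨a1, a2⟩
    exact ⟨p.O.inv_mem a1, fun v hv => a.symm_apply_eq.2 (a2 v hv).symm⟩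

/-- Homogeneous tuples independent modulo `R`. -/
def Ind {j : ℕ} (R : Submodule K V) (s : Fin j → Bool) (v : Fin j → V) : Prop :=
  (∀ i, v i ∈ p.P (s i)) ∧ ∀ a : Fin j → K, ∑ i, a i • v i ∈ R → ∀ i, a i = 0

/-- Maps that are scalar on each of the two subspaces. -/
def Scal (ζ : Bool → K) (z : V ≃ₗ[K] V) : Prop := ∀ s, ∀ v ∈ p.P s, z v = ζ s • v

/-- The subspace to be avoided by generic vectors of sort `s`. -/
def bad (U : Submodule K V) (s : Bool) (T : Finset V) : Submodule K V :=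
  Submodule.span K (T : Set V) ⊔ p.perp (U ⊓ p.P (!s))

variable {p} {Q : Type} [Group Q]

/-- The image of the elementary group of `U`. -/
def bar (π : p.D →* Q) (U : Submodule K V) : Subgroup Q := ((p.A U).subgroupOf p.D).map π

/-- Standard subgroups. -/
def cN (π : p.D →* Q) (s : ℕ) : Set (Subgroup Q) :=
  {N | ∃ U, p.Nd U ∧ finrank K V ≤ finrank K U + s ∧ N = bar π U}

/-- Small elements. -/
def cC (π : p.D →* Q) : Set Q := {y | ∃ e : p.D, p.IsE ⊤ e.1 ∧ y = π e}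

/-- The standing hypotheses on a classical group. -/
structure ClS (π : p.D →* Q) : Prop where
  surj : Function.Surjective π
  ker : π.ker ≤ Subgroup.center p.D
  simple : IsSimpleGroup Q
  nc : ∃ x y : Q, x * y ≠ y * x

end Polar

end Pool.Agent.Work.MP_11a08a_al.Lin
end

-- merged part: Pool.Agent.Work.MP_11a08a_al.Lin.DefsG
section
/-!
Statements on polar spaces.
-/

set_option autoImplicit false

open Module
open scoped commutatorElement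

namespace Pool.Agent.Work.MP_11a08a_al.Lin

open Polar

/-- Linear algebra of orthogonal complements. -/
def StmtPB : Prop :=
  ∀ (K V : Type) [Field K] [AddCommGroup V] [Module K V] [FiniteDimensional K V] (p : Polar K V),
    (∀ (T : Submodule K V) (R : Finset V) (c : V → K),
      (∀ a : V → K, ∑ r ∈ R, a r • r ∈ p.perp T → ∑ r ∈ R, p.σ (a r) * c r = 0) →
      ∃ x ∈ T, ∀ r ∈ R, p.β x r = c r) ∧
    (∀ U : Submodule K V, finrank K (p.perp U) + finrank K U = finrank K V ∧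
      p.perp (p.perp U) = U) ∧
    (∀ T T' : Submodule K V, p.Gr T → p.Gr (p.perp T) ∧
      (p.Gr T' → p.Gr (T ⊓ T') ∧ p.Gr (T ⊔ T'))) ∧
    (∀ s, ∀ v ∈ p.P s, p.Gr (Submodule.span K {v})) ∧ p.Nd ⊤ ∧
    (∀ U : Submodule K V, p.Nd U → IsCompl U (p.perp U) ∧ p.Nd (p.perp U) ∧
      (∀ s, finrank K ↥(U ⊓ p.P s) = p.rk U) ∧ finrank K U ≤ 2 * p.rk U ∧
      p.rk ⊤ + finrank K U ≤ p.rk U + finrank K V ∧
      (∀ s, ∀ v ∈ p.P s, (v ∈ p.perp (U ⊓ p.P (!s)) ↔ v ∈ p.perp U)) ∧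
      (∀ (s : Bool) (T : Finset V), finrank K ↥(p.bad U s T ⊓ (U ⊓ p.P s)) ≤ T.card) ∧
      ∀ (s : Bool) (T : Finset V), (∀ t ∈ T, ∃ s', t ∈ p.P s') → ∀ v ∈ p.P s,
        v ∈ p.bad U s T → v ∈ Submodule.span K (T : Set V) ⊔ p.perp U) ∧
    (∀ T : Submodule K V, p.Gr T →
      ∃ U ≤ T, p.Nd U ∧ 2 * finrank K T ≤ finrank K U + finrank K V) ∧
    (∀ R T : Submodule K V, p.Gr R → p.Gr T → R ≤ T → ∃ (j : ℕ) (s : Fin j → Bool) (v : Fin j → V),
      p.Ind R s v ∧ (∀ i, v i ∈ T) ∧ T ≤ Submodule.span K (Set.range v) ⊔ R ∧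
      j + finrank K R = finrank K T) ∧
    ∀ (U : Submodule K V) (e f : V), p.Nd U → e ∈ U ⊓ p.P true → f ∈ U ⊓ p.P false → p.Sing e →
      p.Sing f → p.β e f = 1 → p.Nd (U ⊓ p.perp (Submodule.span K {e, f})) ∧
        finrank K ↥(U ⊓ p.perp (Submodule.span K {e, f})) + 2 = finrank K U ∧
        p.perp (U ⊓ p.perp (Submodule.span K {e, f})) = p.perp U ⊔ Submodule.span K {e, f} ∧
        p.rk U ≤ p.rk (U ⊓ p.perp (Submodule.span K {e, f})) + 2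

/-- The calculus of Eichler maps. -/
def StmtPE : Prop :=
  ∀ (K V : Type) [Field K] [AddCommGroup V] [Module K V] (p : Polar K V),
    (∀ U s x w, p.Adm U s x w → ∃ e, p.Ei x w e) ∧
    (∀ x w e e', p.Ei x w e → p.Ei x w e' → e = e') ∧ (∀ x, p.Ei x 0 1) ∧
    (∀ x w w' e e', p.β x x = 0 → p.β x w = 0 → p.β x w' = 0 → p.β w' w = 0 → p.Ei x w e →
      p.Ei x w' e' → p.Ei x (w + w') (e * e')) ∧
    (∀ x w e, p.β x x = 0 → p.β x w = 0 → p.β w w = 0 → p.Ei x w e → p.Ei x (-w) e⁻¹) ∧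
    (∀ x w e, p.Ei x w e → p.Ei w (-(p.ε • x)) e) ∧
    (∀ (a : K) x w e, p.Ei (a • x) w e ↔ p.Ei x (p.σ a • w) e) ∧
    (∀ h ∈ p.O, (∀ v, p.Sing (h v) ↔ p.Sing v) ∧
      ∀ x w e, p.Ei x w e → p.Ei (h x) (h w) (h * e * h⁻¹)) ∧
    (∀ U U' : Submodule K V, U ≤ U' → p.A U ≤ p.A U') ∧
    (∀ U : Submodule K V, p.A U ≤ p.OU U ∧ ∀ e ∈ p.A U, ∀ v, e v - v ∈ U) ∧
    ∀ (U : Submodule K V), ∀ h ∈ p.O, (∀ v, h v ∈ U ↔ v ∈ U) → ∀ e ∈ p.A U, h * e * h⁻¹ ∈ p.A U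

/-- The calculus of semilinear similitudes. -/
def StmtSS : Prop :=
  ∀ (K V : Type) [Field K] [AddCommGroup V] [Module K V] [FiniteDimensional K V] [Nontrivial V]
    (p : Polar K V),
    (∀ h ∈ p.O, p.SemiSim h.toAddEquiv) ∧
    (∀ h h', p.SemiSim h → p.SemiSim h' → p.SemiSim (h.trans h')) ∧
    ∀ h, p.SemiSim h → p.SemiSim h.symm ∧
      (∃ c : K, c ≠ 0 ∧ ∀ x w e e', p.Ei x w e → (∀ v, e' (h v) = h (e v)) →
        p.Ei (h x) (c • h w) e') ∧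
      (∀ v w, p.β (h v) (h w) = 0 ↔ p.β v w = 0) ∧
      (∀ U : Submodule K V, ∃ U' : Submodule K V, ∀ v, h v ∈ U' ↔ v ∈ U) ∧
      ∀ U U' : Submodule K V, (∀ v, h v ∈ U' ↔ v ∈ U) → finrank K U' = finrank K U ∧
        (p.Nd U → p.Nd U') ∧ (∀ e, p.IsE U e → ∃ e', p.IsE U' e' ∧ ∀ v, e' (h v) = h (e v)) ∧
        ∀ e ∈ p.A U, ∃ e' ∈ p.A U', ∀ v, e' (h v) = h (e v)

/-- There is room for singular vectors. -/
def StmtRL : Prop :=
  ∀ (K V : Type) [Field K] [Finite K] [AddCommGroup V] [Module K V] [FiniteDimensional K V]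
    (p : Polar K V) (U : Submodule K V), p.Nd U →
    (∀ (s : Bool) (j : ℕ) (R T : Finset V), R.card ≤ j → 2 * j + 5 ≤ p.rk U →
      j + T.card + 3 ≤ p.rk U →
      (∀ x₀ ∈ U ⊓ p.P s, Nat.card K ^ (p.rk U - j - 3) ≤ Set.ncard
        {x | x ∈ U ⊓ p.P s ∧ p.Sing x ∧ (∀ r ∈ R, p.β x r = p.β x₀ r) ∧ x ∉ p.bad U s T}) ∧
      ∀ c : V → K,
        (∀ a : V → K, ∑ r ∈ R, a r • r ∈ p.perp (U ⊓ p.P s) → ∑ r ∈ R, p.σ (a r) * c r = 0) →
        ∃ x ∈ U ⊓ p.P s, p.Sing x ∧ (∀ r ∈ R, p.β x r = c r) ∧ x ∉ p.bad U s T) ∧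
    (7 ≤ p.rk U → ∃ e ∈ U ⊓ p.P true, ∃ f ∈ U ⊓ p.P false, p.Sing e ∧ p.Sing f ∧ p.β e f = 1) ∧
    ∀ j : ℕ, 2 * j + 7 ≤ p.rk U → ∃ U' ≤ U, p.Nd U' ∧ finrank K U' + 2 * (j + 1) = finrank K U ∧
      ∀ s, ∃ v ∈ U ⊓ p.P s, v ≠ 0 ∧ v ∈ p.perp U'

/-- One step of the theorem of Witt, by elementary maps. -/
def StmtWS : Prop :=
  ∀ (K V : Type) [Field K] [Finite K] [AddCommGroup V] [Module K V] [FiniteDimensional K V]
    (p : Polar K V) (U : Submodule K V), p.Nd U → ∀ (s : Bool) (R : Finset V) (v v' : V),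
    2 * R.card + 13 ≤ p.rk U → v ∈ p.P s → v' ∈ p.P s → p.g v' v' - p.g v v ∈ p.Λ →
    v' - v ∈ U → (∀ r ∈ R, p.β v' r = p.β v r) → v ∉ p.bad U s R → v' ∉ p.bad U s R →
    ∃ e ∈ p.A U, (∀ r ∈ R, e r = r) ∧ e v = v'

/-- The theorem of Witt for tuples, and the size of the orbits. -/
def StmtWT : Prop :=
  ∀ (K V : Type) [Field K] [Finite K] [AddCommGroup V] [Module K V] [FiniteDimensional K V]
    (p : Polar K V) (U : Submodule K V), p.Nd U → ∀ (j : ℕ) (s : Fin j → Bool) (v : Fin j → V),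
    2 * j + 13 ≤ p.rk U → p.Ind (p.perp U) s v →
    (∀ v' : Fin j → V, p.Ind (p.perp U) s v' → (∀ i, v' i - v i ∈ U) →
      (∀ i, p.g (v' i) (v' i) - p.g (v i) (v i) ∈ p.Λ) →
      (∀ i i', p.β (v' i) (v' i') = p.β (v i) (v i')) → ∃ e ∈ p.A U, ∀ i, e (v i) = v' i) ∧
    Nat.card K ^ (j * (p.rk U - j - 3)) ≤
      Set.ncard {f : Fin j → V | ∃ e ∈ p.A U, ∀ i, f i = e (v i)}

/-- Bounds for indices. -/
def StmtIX : Prop :=
  ∀ (K V : Type) [Field K] [Finite K] [AddCommGroup V] [Module K V] [FiniteDimensional K V]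
    (p : Polar K V) (U : Submodule K V), p.Nd U →
    (∀ h ∈ p.OU U, ∀ v, h v ∈ U ↔ v ∈ U) ∧
    Nat.card (p.OU U) ≤ Nat.card K ^ 1024 * Nat.card (p.A U) ∧
    ∀ (J : Subgroup (V ≃ₗ[K] V)) (R : Submodule K V) (j : ℕ) (s : Fin j → Bool) (v : Fin j → V),
      J ≤ p.O → (∀ h ∈ J, ∀ r ∈ R, h r = r) → (∀ i, v i ∈ p.P (s i)) →
      p.perp U ≤ Submodule.span K (Set.range v) ⊔ R →
      Nat.card J ≤ Nat.card K ^ (j * p.rk ⊤ + 1024) * Nat.card (p.A U)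

/-- Maps that fix the singular points, and centralisers of elementary groups. -/
def StmtSC : Prop :=
  ∀ (K V : Type) [Field K] [Finite K] [AddCommGroup V] [Module K V] [FiniteDimensional K V]
    (p : Polar K V), Set.ncard {z | ∃ ζ, p.Scal ζ z} ≤ Nat.card K ^ 2 ∧
    ∀ U : Submodule K V, p.Nd U → 20 ≤ p.rk U →
    (∀ (h : V →+ V) (s : Bool), (∀ x ∈ U ⊓ p.P s, p.Sing x → ∃ a : K, h x = a • x) →
      ∃ ζ : K, ∀ x ∈ U ⊓ p.P s, h x = ζ • x) ∧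
    ∀ h : V ≃+ V, p.SemiSim h → (∀ e, p.IsE U e → ∀ v, e (h v) = h (e v)) →
      ∃ ζ z, p.Scal ζ z ∧ p.SemiSim z.toAddEquiv ∧ (∀ x ∈ p.O, z * x = x * z) ∧
        ∀ v ∈ U, h v = z v

/-- Elementary groups are quasisimple. -/
def StmtQS : Prop :=
  ∀ (K V : Type) [Field K] [Finite K] [AddCommGroup V] [Module K V] [FiniteDimensional K V]
    (p : Polar K V) (U : Submodule K V), p.Nd U → 40 ≤ p.rk U →
    (∀ s x w e, p.Adm U s x w → p.Ei x w e → x ≠ 0 → w ∉ Submodule.span K {x} →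
      e ∉ Subgroup.centralizer (p.A U : Set (V ≃ₗ[K] V))) ∧
    (∃ s x w, p.Adm U s x w ∧ x ≠ 0 ∧ w ∉ Submodule.span K {x}) ∧
    ⁅p.A U, p.A U⁆ = p.A U ∧
    ∀ N : Subgroup (V ≃ₗ[K] V), N ≤ p.A U → (∀ a ∈ p.A U, ∀ x ∈ N, a * x * a⁻¹ ∈ N) →
      N ≤ Subgroup.centralizer (p.A U : Set (V ≃ₗ[K] V)) ∨ N = p.A U

/-- The second half of the proof of quasisimplicity. -/
def StmtQS2 : Prop :=
  ∀ (K V : Type) [Field K] [Finite K] [AddCommGroup V] [Module K V] [FiniteDimensional K V]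
    (p : Polar K V) (U : Submodule K V), p.Nd U → 40 ≤ p.rk U →
    ∀ N : Subgroup (V ≃ₗ[K] V), (∀ a ∈ p.A U, ∀ x ∈ N, a * x * a⁻¹ ∈ N) →
      ∀ s x w e, p.Adm U s x w → p.Ei x w e → x ≠ 0 → w ∉ Submodule.span K {x} → e ∈ N →
        p.A U ≤ N

/-- `B` is the normal closure of `N` in `B`. -/
def Ncl {Q : Type} [Group Q] (N B : Subgroup Q) : Prop :=
  N ≤ B ∧ ∀ M : Subgroup Q, N ≤ M → M ≤ B → (∀ b ∈ B, ∀ x ∈ M, b * x * b⁻¹ ∈ M) → M = B

/-- The double coset of `x`. -/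
def dc {Q : Type} [Group Q] (B : Subgroup Q) (x : Q) : Set Q :=
  {y | ∃ b ∈ B, ∃ b' ∈ B, y = b * x * b'}

/-- Many elements of `B` whose quotients have large double cosets. -/
def Gen {Q : Type} [Group Q] (n E : ℕ) (B B' : Subgroup Q) : Prop :=
  ∃ a : Fin n → Q, (∀ i, a i ∈ B) ∧
    ∀ i j, i ≠ j → Nat.card ↥(B ⊔ B') ≤ E * (dc B' ((a i)⁻¹ * a j)).ncard

/-- Generic elements in overgroups of elementary groups. -/
def StmtBlkU : Prop :=
  ∀ (K V : Type) [Field K] [Finite K] [AddCommGroup V] [Module K V] [FiniteDimensional K V]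
    (p : Polar K V) (U : Submodule K V) (n : ℕ), p.Nd U → finrank K V ≤ finrank K U + n →
    10 * n + 50 ≤ p.rk ⊤ → ∀ B B' : Subgroup (V ≃ₗ[K] V), B ≤ p.O → B' ≤ p.O →
    Ncl (p.A U) B → Ncl (p.A U) B' → Gen n (Nat.card K ^ (1024 + n * (2 * n + 3))) B B'

/-- Moving vectors out of a small set. -/
def StmtMov : Prop :=
  ∀ (K V : Type) [Field K] [Finite K] [AddCommGroup V] [Module K V] [FiniteDimensional K V]
    (p : Polar K V) (U : Submodule K V), p.Nd U → 15 ≤ p.rk U →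
    ∀ B : Subgroup (V ≃ₗ[K] V), B ≤ p.O → Ncl (p.A U) B → ∀ X T : Set V,
    X.ncard * T.ncard < Nat.card K ^ (p.rk U - 4) →
    (∀ v ∈ X, (∃ s, v ∈ p.P s) ∧ ∃ b ∈ B, b v ≠ v) → ∃ b ∈ B, ∀ v ∈ X, b v ∉ T

end Pool.Agent.Work.MP_11a08a_al.Lin
end

-- merged part: Pool.Agent.Work.MP_11a08a_al.Lin.Mov
section
/-!
Everything is finite.  Let `v ∈ X`.  Some `b v`, `b ∈ B`, is not in `perp U`: otherwise `A U ≤ OU U` fixes all `b v`, so `M = {m ∈ B | ∀ b ∈ B, m (b v) = b v}` contains `A U`, is normal in `B`, so `M = B` fixes `v`.  The second part of `hW` with `j = 1` for `b v` shows that the orbit `B v` has at least `q ^ (rk U - 4)` elements.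
The fibres of `b ↦ b v` on `B` all have the size of the stabiliser, so `ncard {b ∈ B | b v ∈ T} * q ^ (rk U - 4) ≤ ncard T * card B` (`MulAction.card_orbit_mul_card_stabilizer_eq_card_group`).  Sum over `v ∈ X`: the union of the bad sets is smaller than `B`.  It is convenient to prove the counting lemma for a finite group acting on a type.
-/

set_option autoImplicit false

open Module
open scoped commutatorElement

namespace Pool.Agent.Work.MP_11a08a_al.Lin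

theorem mov_fib {G α : Type} [Group G] [Finite G] [MulAction G α] [Finite α] (v : α) (T : Set α) :
    Nat.card {g : G | g • v ∈ T} * (MulAction.orbit G v).ncard ≤ T.ncard * Nat.card G := by
  classical
  have h : ∀ t : α, ∃ g : G, t ∈ MulAction.orbit G v → g • v = t := fun t => by
    by_cases ht : t ∈ MulAction.orbit G v
    · obtain ⟨g, hg⟩ := ht
      exact ⟨g, fun _ => hg⟩
    · exact ⟨1, fun k => absurd k ht⟩
  choose r hr using h
  let f : {g : G | g • v ∈ T} → T × MulAction.stabilizer G v := fun g =>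
    (⟨g.1 • v, g.2⟩, ⟨(r (g.1 • v))⁻¹ * g.1, by
      rw [MulAction.mem_stabilizer_iff, mul_smul, inv_smul_eq_iff]
      exact (hr _ (MulAction.mem_orbit v g.1)).symm⟩)
  have hf : Function.Injective f := fun g g' e => by
    have e1 : g.1 • v = g'.1 • v := congrArg (fun x => x.1.1) e
    have e2 : (r (g.1 • v))⁻¹ * g.1 = (r (g'.1 • v))⁻¹ * g'.1 := congrArg (fun x => x.2.1) e
    rw [e1] at e2
    exact Subtype.ext (mul_left_cancel e2)
  have h1 := Nat.card_le_card_of_injective f hf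
  rw [Nat.card_prod, Nat.card_coe_set_eq T] at h1
  rw [← (MulAction.stabilizer G v).card_mul_index, MulAction.index_stabilizer, ← mul_assoc]
  exact Nat.mul_le_mul_right _ h1

theorem mov_count {G α : Type} [Group G] [Finite G] [MulAction G α] [Finite α] (X T : Set α)
    (N : ℕ) (h : ∀ v ∈ X, N ≤ (MulAction.orbit G v).ncard) (hN : X.ncard * T.ncard < N) :
    ∃ g : G, ∀ v ∈ X, g • v ∉ T := by
  classical
  by_contra h0
  push Not at h0
  choose w hw hw' using h0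
  let f : G → Σ v : X, {g : G | g • v.1 ∈ T} := fun g => ⟨⟨w g, hw g⟩, ⟨g, hw' g⟩⟩
  have hf : Function.Injective f := fun g g' e => congrArg (fun x => x.2.1) e
  have := Fintype.ofFinite X
  have h1 := Nat.card_le_card_of_injective f hf
  rw [Nat.card_sigma] at h1
  have h2 : Nat.card G * N ≤ X.ncard * (T.ncard * Nat.card G) := by
    refine (Nat.mul_le_mul_right N h1).trans ?_
    rw [Finset.sum_mul, ← Nat.card_coe_set_eq X, Nat.card_eq_fintype_card, ← Finset.card_univ,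
      ← smul_eq_mul]
    exact Finset.sum_le_card_nsmul _ _ _ fun v _ =>
      (Nat.mul_le_mul_left _ (h v.1 v.2)).trans (mov_fib v.1 T)
  rw [← mul_assoc, mul_comm] at h2
  exact (Nat.le_of_mul_le_mul_right h2 Nat.card_pos).not_gt hN

theorem mov (hE : StmtPE) (hW : StmtWT) : StmtMov := by
  intro K V _ _ _ _ _ p U hU hr B hB hN X T hc hX
  have : Finite V := Module.finite_of_finite K
  have : Finite (V ≃ₗ[K] V) := Finite.of_injective _ DFunLike.coe_injective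
  refine (mov_count (G := B) X T _ (fun v hv => ?_) hc).elim fun g hg => ⟨g.1, g.2, hg⟩
  obtain ⟨⟨s, hs⟩, b₀, hb₀, h0⟩ := hX v hv
  have hA := ((hE K V p).2.2.2.2.2.2.2.2.2.1 U).1
  obtain ⟨b, hb, h1⟩ : ∃ b ∈ B, b v ∉ p.perp U := by
    by_contra h1
    push Not at h1
    let M : Subgroup (V ≃ₗ[K] V) :=
      { carrier := {m | m ∈ B ∧ ∀ b ∈ B, m (b v) = b v}
        one_mem' := ⟨B.one_mem, fun _ _ => rfl⟩
        mul_mem' := by
          rintro a c ⟨a1, a2⟩ ⟨c1, c2⟩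
          exact ⟨B.mul_mem a1 c1, fun b hb => (congrArg a (c2 b hb)).trans (a2 b hb)⟩
        inv_mem' := by
          rintro a ⟨a1, a2⟩
          exact ⟨B.inv_mem a1, fun b hb => a.symm_apply_eq.2 (a2 b hb).symm⟩ }
    have h2 : M = B := hN.2 M (fun e he => ⟨hN.1 he, fun b hb => (hA he).2 _ (h1 b hb)⟩)
      (fun m hm => hm.1) fun c hc m hm => ⟨B.mul_mem (B.mul_mem hc hm.1) (B.inv_mem hc),
        fun b hb => (congrArg c (hm.2 _ (B.mul_mem (B.inv_mem hc) hb))).trans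
          (c.apply_symm_apply _)⟩
    exact h0 ((h2.ge hb₀).2 1 B.one_mem)
  have hI : p.Ind (p.perp U) (fun _ : Fin 1 => s) (fun _ => b v) := by
    refine ⟨fun _ => ((hB hb).2.2 s v).2 hs, fun a ha i => ?_⟩
    by_contra h3
    rw [Fin.sum_univ_one, Subsingleton.elim 0 i] at ha
    exact h1 ((Submodule.smul_mem_iff _ h3).1 ha)
  have h2 := (hW K V p U hU 1 (fun _ => s) (fun _ => b v) (by omega) hI).2
  rw [one_mul, Nat.sub_sub] at h2
  refine h2.trans (Set.ncard_le_ncard_of_injOn (fun f => f 0) ?_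
    (fun f _ f' _ e => funext fun i => Subsingleton.elim 0 i ▸ e) (Set.toFinite _))
  rintro f ⟨e, he, h3⟩
  exact ⟨⟨e * b, B.mul_mem (hN.1 he) hb⟩, (h3 0).symm⟩

end Pool.Agent.Work.MP_11a08a_al.Lin
end

-- merged part: Pool.Agent.Work.MP_11a08a_al.Lin.DefsH
section
/-!
The abstract geometry of a simple group of large rank.
-/

set_option autoImplicit false

open Module
open scoped commutatorElement

namespace Pool.Agent.Work.MP_11a08a_al.Lin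

open Polar Sol

/-- The known simple groups with their automorphisms. -/
def Known (m : ℕ) (Q : Type) [Group Q] (𝒜 : Set (MulAut Q)) : Prop :=
  LinG m Q ∨ AltA Q 𝒜 ∨ ClA Q 𝒜

section Geo

variable {Q : Type} [Group Q]

/-- Projective representations of degree less than `D` are trivial. -/
def QR (D : ℕ) (N : Subgroup Q) : Prop :=
  ∀ (W : Type) [AddCommGroup W] [Module ℂ W] [FiniteDimensional ℂ W], finrank ℂ W < D →
    ∀ f : N → (End ℂ W)ˣ, (∀ x y, f (x * y) * (f x * f y)⁻¹ ∈ Zs ℂ W) → ∀ x, f x ∈ Zs ℂ W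

/-- Standard subgroups and small elements. -/
structure Geo1 (n : ℕ) (𝒜 : Set (MulAut Q)) (C : Set Q) (𝓝 : ℕ → Set (Subgroup Q)) (lam : ℕ) :
    Prop where
  top : ⊤ ∈ 𝓝 0
  mono : ∀ s t, s ≤ t → 𝓝 s ⊆ 𝓝 t
  inter : ∀ s, 4 * s ≤ n → ∀ N ∈ 𝓝 s, ∀ N' ∈ 𝓝 s, ∃ N'' ∈ 𝓝 (4 * s), N'' ≤ N ⊓ N'
  gen : ∀ N ∈ 𝓝 n, N ≤ Subgroup.closure (C ∩ N)
  perf : ∀ N ∈ 𝓝 n, ⁅N, N⁆ = N ∧ N ≠ ⊥
  qs : ∀ N ∈ 𝓝 n, ∀ M ≤ N, (∀ a ∈ N, ∀ x ∈ M, a * x * a⁻¹ ∈ M) →
    M ≤ Subgroup.centralizer (N : Set Q) ∨ M = N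
  idx : ∀ s ≤ n, ∀ N ∈ 𝓝 s, N.index ≤ lam ^ s
  big : lam ^ n ≤ Nat.card Q
  loc : ∀ y ∈ C, ∃ N ∈ 𝓝 4, ∀ x ∈ N, x * y = y * x
  invC : ∀ α ∈ 𝒜, ∀ y ∈ C, α y ∈ C
  invN : ∀ α ∈ 𝒜, ∀ s ≤ n, ∀ N ∈ 𝓝 s, N.map α.toMonoidHom ∈ 𝓝 s

/-- Overgroups of standard subgroups are in general position. -/
def GBlk (n : ℕ) (𝓝 : ℕ → Set (Subgroup Q)) : Prop :=
  ∃ E D : ℕ, n * E ≤ D ∧ ∀ N ∈ 𝓝 n, QR D N ∧ ∀ B B', Ncl N B → Ncl N B' → Gen n E B B'

/-- The automorphisms come from an action on an abelian group. -/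
def GAct (n : ℕ) (𝒜 : Set (MulAut Q)) (𝓝 : ℕ → Set (Subgroup Q)) (q₀ : ℕ) : Prop :=
  ∃ (E : Type) (_ : CommGroup E) (_ : Finite E) (T : Subgroup (MulAut E × MulAut Q)),
    (∀ α ∈ 𝒜, ∃ h, (h, α) ∈ T) ∧ Set.ncard {h | (h, (1 : MulAut Q)) ∈ T} ≤ q₀ ^ 2 ∧
    (∀ α, ((1 : MulAut E), α) ∈ T → α = 1) ∧ ∀ s ≤ n, ∀ N ∈ 𝓝 s, ∃ F : Subgroup E,
      F.index ≤ q₀ ^ s ∧ ∀ α ∈ 𝒜, (∀ x ∈ N, α x = x) → ∃ h, (h, α) ∈ T ∧ ∀ e ∈ F, h e = e

/-- Over large fields the centraliser of a standard subgroup acts on a group of bounded rank. -/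
def GLin (n : ℕ) (𝒜 : Set (MulAut Q)) (𝓝 : ℕ → Set (Subgroup Q)) (q₀ : ℕ) : Prop :=
  q₀ ≤ 2 ∨ ∀ s ≤ n, ∀ N ∈ 𝓝 s, ∃ (L₀ : Subgroup Q) (Q₀ : Type) (_ : Group Q₀) (π₀ : L₀ →* Q₀),
    ⁅L₀, L₀⁆ = L₀ ∧ Function.Surjective π₀ ∧ π₀.ker ≤ Subgroup.center L₀ ∧ IsSimpleGroup Q₀ ∧
    (∃ x y : Q₀, x * y ≠ y * x) ∧ LinG ((s + 100) ^ 2) Q₀ ∧ q₀ ≤ Nat.card Q₀ ∧
    ∀ α ∈ 𝒜, (∀ x ∈ N, α x = x) →
      L₀.map α.toMonoidHom = L₀ ∧ ((∀ x ∈ L₀, α x = x) → α = 1)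

/-- All properties together. -/
structure Geo (n : ℕ) (𝒜 : Set (MulAut Q)) (C : Set Q) (𝓝 : ℕ → Set (Subgroup Q))
    (lam q₀ : ℕ) : Prop where
  one : Geo1 n 𝒜 C 𝓝 lam
  blk : GBlk n 𝓝
  act : GAct n 𝒜 𝓝 q₀
  lin : GLin n 𝒜 𝓝 q₀

end Geo

/-- Linear representations of central quotients. -/
def StmtAdj : Prop :=
  (∀ (K V Q : Type) [Field K] [AddCommGroup V] [Module K V] [FiniteDimensional K V] [Group Q]
    (m : ℕ) (f : Q →* (V ≃ₗ[K] V)), Function.Injective f → finrank K V ≤ m → LinG m Q) ∧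
  (∀ (Q : Type) [Group Q] (m m' : ℕ), m ≤ m' → LinG m Q → LinG m' Q) ∧
  (∀ (Q Q' : Type) [Group Q] [Group Q'] (m : ℕ) (f : Q' →* Q), Function.Injective f →
    LinG m Q → LinG m Q') ∧
  (∀ n : ℕ, LinG n (alternatingGroup (Fin n))) ∧
  ∀ (K V Q : Type) [Field K] [AddCommGroup V] [Module K V] [FiniteDimensional K V] [Group Q]
    (m : ℕ) (X : Subgroup (V ≃ₗ[K] V)) (π : X →* Q) (T : Submodule K (End K V)),
    Function.Surjective π → π.ker ≤ Subgroup.center X → IsSimpleGroup Q →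
    (∃ x y : Q, x * y ≠ y * x) → (∀ x ∈ X, (x : End K V) ∈ T) → finrank K T ≤ m → LinG m Q

/-- Elementary groups have no small projective representations. -/
def StmtQRc : Prop :=
  ∀ (K V : Type) [Field K] [Finite K] [AddCommGroup V] [Module K V] [FiniteDimensional K V]
    (p : Polar K V) (U : Submodule K V) (m D : ℕ), p.Nd U → 2 * m + 40 ≤ p.rk U →
    D ^ 2 ≤ Nat.card K ^ m → QR D (p.A U)

/-- Passing from the linear group to its simple quotient. -/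
def StmtBar : Prop :=
  ∀ (K V Q : Type) [Field K] [Finite K] [AddCommGroup V] [Module K V] [FiniteDimensional K V]
    [Group Q] (p : Polar K V) (π : p.D →* Q), ClS π → 40 ≤ p.rk ⊤ →
    p.D ≤ p.O ∧ p.A ⊤ ≤ p.D ∧ bar π ⊤ = ⊤ ∧ Nat.card (p.A ⊤) ≤ Nat.card K ^ 2 * Nat.card Q ∧
    (∀ h : V ≃+ V, p.SemiSim h → ∀ U U' : Submodule K V, (∀ v, h v ∈ U' ↔ v ∈ U) →
      ∀ α : MulAut Q, (∀ x y : p.D, x.1 ∈ p.A ⊤ → (∀ v, y.1 (h v) = h (x.1 v)) → α (π x) = π y) →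
      (bar π U).map α.toMonoidHom = bar π U') ∧
    ∀ U : Submodule K V, p.Nd U → 40 ≤ p.rk U →
      (⁅bar π U, bar π U⁆ = bar π U ∧ bar π U ≠ ⊥) ∧
      (∀ M ≤ bar π U, (∀ a ∈ bar π U, ∀ x ∈ M, a * x * a⁻¹ ∈ M) →
        M ≤ Subgroup.centralizer (bar π U : Set Q) ∨ M = bar π U) ∧
      (∀ x : p.D, x.1 ∈ p.A U → π x ∈ Subgroup.centralizer (bar π U : Set Q) →
        x.1 ∈ Subgroup.centralizer (p.A U : Set (V ≃ₗ[K] V))) ∧
      ∀ h : V ≃+ V, p.SemiSim h → ∀ α : MulAut Q,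
        (∀ x y : p.D, x.1 ∈ p.A ⊤ → (∀ v, y.1 (h v) = h (x.1 v)) → α (π x) = π y) →
        (∀ x ∈ bar π U, α x = x) → ∃ ζ z, p.Scal ζ z ∧ p.SemiSim z.toAddEquiv ∧
          (∀ x ∈ p.O, z * x = x * z) ∧ ∀ v ∈ U, h v = z v

def StmtG1 : Prop :=
  ∀ n : ℕ, ∃ k : ℕ, ∀ (K V Q : Type) [Field K] [Finite K] [AddCommGroup V] [Module K V]
    [FiniteDimensional K V] [Group Q] (p : Polar K V) (π : p.D →* Q), ClS π → k ≤ p.rk ⊤ →
    Geo1 n (p.aut π) (cC π) (cN π) (Nat.card K ^ (2 * p.rk ⊤))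

def StmtG2 : Prop :=
  ∀ n : ℕ, ∃ k : ℕ, ∀ (K V Q : Type) [Field K] [Finite K] [AddCommGroup V] [Module K V]
    [FiniteDimensional K V] [Group Q] (p : Polar K V) (π : p.D →* Q), ClS π → k ≤ p.rk ⊤ →
    GBlk n (cN π)

def StmtG3 : Prop :=
  ∀ n : ℕ, ∃ k : ℕ, ∀ (K V Q : Type) [Field K] [Finite K] [AddCommGroup V] [Module K V]
    [FiniteDimensional K V] [Group Q] (p : Polar K V) (π : p.D →* Q), ClS π → k ≤ p.rk ⊤ →
    GAct n (p.aut π) (cN π) (Nat.card K)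

def StmtG4 : Prop :=
  ∀ n : ℕ, ∃ k : ℕ, ∀ (K V Q : Type) [Field K] [Finite K] [AddCommGroup V] [Module K V]
    [FiniteDimensional K V] [Group Q] (p : Polar K V) (π : p.D →* Q), ClS π → k ≤ p.rk ⊤ →
    GLin n (p.aut π) (cN π) (Nat.card K)

/-- Many commuting perfect subgroups prevent small projective representations. -/
def StmtQRm : Prop :=
  ∀ (Q : Type) [Group Q] (N : Subgroup Q) (r D : ℕ) (X : Fin r → Subgroup Q), D ^ 2 ≤ r →
    (∀ i, ⁅X i, X i⁆ = X i ∧ Ncl (X i) N) →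
    (∀ i j, i ≠ j → ∀ x ∈ X i, ∀ y ∈ X j, x * y = y * x) → QR D N

/-- The even permutations that fix `S` pointwise. -/
def aFix {m : ℕ} (S : Finset (Fin m)) : Subgroup (alternatingGroup (Fin m)) where
  carrier := {x | ∀ i ∈ S, x.1 i = i}
  one_mem' _ _ := rfl
  mul_mem' {a b} ha hb i hi := (congrArg a.1 (hb i hi)).trans (ha i hi)
  inv_mem' {a} ha i hi := a.1.symm_apply_eq.2 (ha i hi).symm

/-- Standard subgroups of an alternating group. -/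
def aN (m s : ℕ) : Set (Subgroup (alternatingGroup (Fin m))) :=
  {N | ∃ S : Finset (Fin m), S.card ≤ s ∧ N = aFix S}

/-- Pointwise stabilisers in alternating groups. -/
def StmtAF : Prop :=
  ∀ (m : ℕ) (S : Finset (Fin m)), S.card + 5 ≤ m →
    (⁅aFix S, aFix S⁆ = aFix S ∧ aFix S ≠ ⊥) ∧
    aFix S ≤ Subgroup.closure ({y | y.1.IsThreeCycle} ∩ (aFix S : Set (alternatingGroup (Fin m)))) ∧
    (∀ M ≤ aFix S, (∀ a ∈ aFix S, ∀ x ∈ M, a * x * a⁻¹ ∈ M) → M = ⊥ ∨ M = aFix S) ∧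
    (∀ t : Equiv.Perm (Fin m), (∀ x ∈ aFix S, t * x.1 = x.1 * t) → ∀ i ∉ S, t i = i) ∧
    ∀ (j : ℕ) (v v' : Fin j → Fin m), S.card + j + 2 ≤ m → Function.Injective v →
      Function.Injective v' → (∀ i, v i ∉ S) → (∀ i, v' i ∉ S) →
      ∃ x ∈ aFix S, ∀ i, x.1 (v i) = v' i

def StmtA1 : Prop :=
  ∀ n : ℕ, ∃ k : ℕ, ∀ m : ℕ, k ≤ m →
    Geo1 n (altAut (MulEquiv.refl (alternatingGroup (Fin m)))) {y | y.1.IsThreeCycle} (aN m) m ∧
    GAct n (altAut (MulEquiv.refl (alternatingGroup (Fin m)))) (aN m) 2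

def StmtA2 : Prop := ∀ n : ℕ, ∃ k : ℕ, ∀ m : ℕ, k ≤ m → GBlk n (aN m)

/-- Transport along an isomorphism, and restriction of the set of automorphisms. -/
def StmtTr : Prop :=
  ∀ (Q Q' : Type) [Group Q] [Group Q'] (e : Q ≃* Q') (n : ℕ) (𝒜 : Set (MulAut Q))
    (𝒜' : Set (MulAut Q')) (C : Set Q) (𝓝 : ℕ → Set (Subgroup Q)) (lam q₀ : ℕ),
    (∀ α ∈ 𝒜', (e.trans α).trans e.symm ∈ 𝒜) → Geo n 𝒜 C 𝓝 lam q₀ →
    Geo n 𝒜' (e '' C) (fun s => (fun N => N.map e.toMonoidHom) '' 𝓝 s) lam q₀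

/-- A known group is linear of bounded degree or has a geometry. -/
def StmtGeo : Prop :=
  ∀ n m : ℕ, ∃ m' : ℕ, ∀ (Q : Type) [Group Q] (𝒜 : Set (MulAut Q)), IsSimpleGroup Q →
    (∃ x y : Q, x * y ≠ y * x) → Known m Q 𝒜 →
    LinG m' Q ∨ ∃ C 𝓝 lam q₀, Geo n 𝒜 C 𝓝 lam q₀

end Pool.Agent.Work.MP_11a08a_al.Lin
end

-- merged part: Pool.Agent.Work.MP_11a08a_al.Lin.Geo
section
/-!
Take the maximum `k` of the bounds from `h1 .. h4`, `hA1`, `hA2` for `n`, and `m' = m + (2 k) ^ 2 + k`.  Alternating of degree below `k`: items 4, 3, 2 of `hA`.  Of degree at least `k`: `Geo` with `lam = degree`, `q₀ = 2` (first alternative of `GLin`), transported by `hT` along `π`.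
Classical with `rk ⊤ < k`: item 5 of `hA` with `X = D`, `T = ⊤`, `dim (End K V) = (dim V) ^ 2`, `dim V ≤ 2 rk ⊤` (item 6 of `hB` for `⊤`).  Else `Geo` for `p.aut π`, and `hT` with `MulEquiv.refl` restricts to `𝒜`.
-/

set_option autoImplicit false

open Module
open scoped commutatorElement

namespace Pool.Agent.Work.MP_11a08a_al.Lin

theorem geo (hB : StmtPB) (hA : StmtAdj) (h1 : StmtG1) (h2 : StmtG2) (h3 : StmtG3) (h4 : StmtG4)
    (hA1 : StmtA1) (hA2 : StmtA2) (hT : StmtTr) : StmtGeo := by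
  intro n m
  obtain ⟨k1, g1⟩ := h1 n
  obtain ⟨k2, g2⟩ := h2 n
  obtain ⟨k3, g3⟩ := h3 n
  obtain ⟨k4, g4⟩ := h4 n
  obtain ⟨k5, g5⟩ := hA1 n
  obtain ⟨k6, g6⟩ := hA2 n
  obtain ⟨-, a2, a3, a4, a5⟩ := hA
  obtain ⟨k, e1, e2, e3, e4, e5, e6⟩ :
      ∃ k, k1 ≤ k ∧ k2 ≤ k ∧ k3 ≤ k ∧ k4 ≤ k ∧ k5 ≤ k ∧ k6 ≤ k :=
    ⟨k1 + k2 + k3 + k4 + k5 + k6, by omega, by omega, by omega, by omega, by omega, by omega⟩
  refine ⟨m + (2 * k) ^ 2 + k, fun Q _ 𝒜 hs hn hK => ?_⟩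
  rcases hK with hK | ⟨d, π, hK⟩ | ⟨K, V, _, _, _, _, _, p, π, s1, s2, hK⟩
  · exact Or.inl (a2 Q _ _ (by omega) hK)
  · rcases le_total d k with hd | hd
    · exact Or.inl (a2 Q _ _ (by omega) (a3 _ Q d π.symm.toMonoidHom π.symm.injective (a4 d)))
    · refine Or.inr ⟨_, _, _, _, hT _ Q π n _ 𝒜 _ _ _ _ (fun α hα => ?_)
        ⟨(g5 d (e5.trans hd)).1, g6 d (e6.trans hd), (g5 d (e5.trans hd)).2, Or.inl le_rfl⟩⟩
      obtain ⟨t, ht⟩ := hK hα
      exact ⟨t, fun x y h => π.symm_apply_eq.2 (ht x y h)⟩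
  · rcases le_total (p.rk ⊤) k with hd | hd
    · obtain ⟨-, -, -, -, b5, b6, -⟩ := hB K V p
      have h := (b6 ⊤ b5).2.2.2.1
      rw [finrank_top] at h
      refine Or.inl (a2 Q ((2 * k) ^ 2) _ (by omega)
        (a5 K V Q _ p.D π ⊤ s1 s2 hs hn (fun _ _ => Submodule.mem_top) ?_))
      rw [finrank_top, Module.finrank_linearMap, sq]
      exact Nat.mul_le_mul (by omega) (by omega)
    · have c : Polar.ClS π := ⟨s1, s2, hs, hn⟩
      exact Or.inr ⟨_, _, _, _, hT Q Q (MulEquiv.refl Q) n _ 𝒜 _ _ _ _ (fun α hα => hK hα)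
        ⟨g1 K V Q p π c (e1.trans hd), g2 K V Q p π c (e2.trans hd), g3 K V Q p π c (e3.trans hd),
          g4 K V Q p π c (e4.trans hd)⟩⟩

end Pool.Agent.Work.MP_11a08a_al.Lin
end

-- merged part: Pool.Agent.Work.MP_11a08a_al.Lin.DefsL
section
/-!
Definitions for the linear layer over the complex numbers.
-/

set_option autoImplicit false

open Finset Module
open scoped commutatorElement

namespace Pool.Agent.Work.MP_11a08a_al.Lin

open Sol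

/-- The nonabelian simple sections of `S` above `Z` are known groups. -/
def SecK {G : Type} [Group G] (m : ℕ) (Z S : Subgroup G) : Prop :=
  ∀ B : Subgroup G, Z ≤ B → B ≤ S → ∀ (Q : Type) [Group Q] (π : B →* Q), Function.Surjective π →
    (∀ b : B, b.1 ∈ Z → π b = 1) → IsSimpleGroup Q → (∃ x y : Q, x * y ≠ y * x) →
    Known m Q (ind π S)

/-- `t` centralises `N`. -/
def Cen {G : Type} [Group G] (t : G) (N : Subgroup G) : Prop := ∀ y ∈ N, t * y = y * t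

/-- The commutator subgroup of the preimage of `N`. -/
def hat {G Q : Type} [Group G] [Group Q] {T : Subgroup G} (π : T →* Q) (N : Subgroup Q) :
    Subgroup G := ⁅(N.comap π).map T.subtype, (N.comap π).map T.subtype⁆

/-- A finite perfect group with small character ratios and without subgroups of small index. -/
structure BigG (τ : ℝ) (Γ : Type) [Group Γ] : Prop where
  fin : Finite Γ
  perf : commutator Γ = ⊤
  tr : ∀ (W : Type) [AddCommGroup W] [Module ℂ W] [FiniteDimensional ℂ W]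
    (ρ : Representation ℂ Γ W), (∀ w, (∀ x, ρ x w = w) → w = 0) → ∀ x, x ∉ Subgroup.center Γ →
    ‖LinearMap.trace ℂ W (ρ x)‖ ≤ τ * finrank ℂ W
  idx : ∀ K : Subgroup Γ, Subgroup.center Γ ≤ K → K ≠ ⊤ → 1 ≤ τ * K.index

/-- Any `q` distinct members of the family are independent. -/
def QInd {W : Type} [AddCommGroup W] [Module ℂ W] (q : ℕ) (𝒳 : Set (Submodule ℂ W)) : Prop :=
  ∀ X : Finset (Submodule ℂ W), (X : Set (Submodule ℂ W)) ⊆ 𝒳 → X.card ≤ q → X.SupIndep id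

/-- Any `q` distinct translates of `U` are independent. -/
def QBlk {G V : Type} [Group G] [AddCommGroup V] [Module ℂ V] (q : ℕ) (ρ : Representation ℂ G V)
    (U : Submodule ℂ V) : Prop := QInd q {x | ∃ g, x = U.map (ρ g)}

section

variable {W : Type} [AddCommGroup W] [Module ℂ W]

/-- There is no proper nonzero subspace any `q` of whose translates are independent. -/
def QPrim (q : ℕ) (H : Subgroup (End ℂ W)ˣ) : Prop :=
  ∀ U : Submodule ℂ W, U ≠ ⊥ → QInd q {x | ∃ h ∈ H, x = U.map (h : End ℂ W)} → U = ⊤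

/-- The trace is small, in a form that does not depend on scalar factors. -/
def Sm (τ : ℝ) (t : (End ℂ W)ˣ) : Prop :=
  ‖LinearMap.trace ℂ W (t : End ℂ W)‖ * ‖LinearMap.trace ℂ W ((t⁻¹ : (End ℂ W)ˣ) : End ℂ W)‖ ≤
    τ * (finrank ℂ W : ℝ) ^ 2

/-- The fixed vectors. -/
def Fx (N : Subgroup (End ℂ W)ˣ) : Submodule ℂ W where
  carrier := {w | ∀ y ∈ N, (y : End ℂ W) w = w}
  add_mem' ha hb y hy := by rw [map_add, ha y hy, hb y hy]
  zero_mem' _ _ := map_zero _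
  smul_mem' c _ hw y hy := by rw [map_smul, hw y hy]

/-- The family `𝓝` comes from a geometry on the quotient of `L` by the scalars. -/
def Src (n : ℕ) (S L : Subgroup (End ℂ W)ˣ) (𝓝 : ℕ → Set (Subgroup (End ℂ W)ˣ)) : Prop :=
  ∃ (Q : Type) (_ : Group Q) (π : ↥(L ⊔ Zs ℂ W) →* Q) (C : Set Q) (𝓜 : ℕ → Set (Subgroup Q))
    (lam q₀ : ℕ), Function.Surjective π ∧ (∀ x, π x = 1 ↔ x.1 ∈ Zs ℂ W) ∧
    Geo n (ind π S) C 𝓜 lam q₀ ∧ ∀ s, 𝓝 s = hat π '' 𝓜 s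

/-- Generic elements, modulo scalars. -/
def GenZ (n E : ℕ) (B B' : Subgroup (End ℂ W)ˣ) : Prop :=
  ∃ a : Fin n → (End ℂ W)ˣ, (∀ i, a i ∈ B) ∧ ∀ i j, i ≠ j → Nat.card ↥(B ⊔ B') ≤
    E * Set.ncard {y | y ∈ B ⊔ B' ∧ y ∈ dc (B' ⊔ Zs ℂ W) ((a i)⁻¹ * a j)}

/-- Standard subgroups of a component. -/
structure Std (n : ℕ) (L : Subgroup (End ℂ W)ˣ) (𝓝 : ℕ → Set (Subgroup (End ℂ W)ˣ)) : Prop where
  fin : Finite L
  top : L ∈ 𝓝 0
  mono : ∀ s t, s ≤ t → 𝓝 s ⊆ 𝓝 t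
  le : ∀ s, ∀ N ∈ 𝓝 s, N ≤ L
  inter : ∀ s, 4 * s ≤ n → ∀ N ∈ 𝓝 s, ∀ N' ∈ 𝓝 s, ∃ N'' ∈ 𝓝 (4 * s), N'' ≤ N ⊓ N'
  gen : ∀ N ∈ 𝓝 n, N ≤ Subgroup.closure {y | y ∈ N ∧ ∃ N' ∈ 𝓝 4, Cen y N'}
  perf : ∀ N ∈ 𝓝 n, ⁅N, N⁆ = N ∧ N ≠ ⊥
  qs : ∀ N ∈ 𝓝 n, ∀ M ≤ N, (∀ a ∈ N, ∀ x ∈ M, a * x * a⁻¹ ∈ M) →
    M ≤ Subgroup.centralizer (N : Set (End ℂ W)ˣ) ∨ M = N
  idx : ∀ s ≤ n, ∀ N ∈ 𝓝 s, (N ⊔ Zs ℂ W).relIndex (L ⊔ Zs ℂ W) ^ n ≤ (Zs ℂ W).relIndex L ^ s
  blk : ∃ E D : ℕ, n * E ≤ D ∧ ∀ N ∈ 𝓝 n,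
    (∀ U : Submodule ℂ W, (∀ y ∈ N, ∀ w ∈ U, (y : End ℂ W) w ∈ U) → finrank ℂ U < D → U ≤ Fx N) ∧
    ∀ B B', B ≤ L → B' ≤ L → Ncl N B → Ncl N B' → GenZ n E B B'

/-- The action on `L` comes from an action on an abelian group. -/
def Act (s q₁ : ℕ) (S L : Subgroup (End ℂ W)ˣ) (𝓝 : ℕ → Set (Subgroup (End ℂ W)ˣ)) : Prop :=
  ∃ (E : Type) (_ : CommGroup E) (_ : Finite E) (T : Subgroup (MulAut E × (End ℂ W)ˣ)),
    (∀ t ∈ S, Nm t L → ∃ h, (h, t) ∈ T) ∧ Set.ncard {h | (h, (1 : (End ℂ W)ˣ)) ∈ T} ≤ q₁ ^ 2 ∧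
    (∀ t, ((1 : MulAut E), t) ∈ T → Cen t L) ∧ ∀ N ∈ 𝓝 s, ∃ F : Subgroup E, F.index ≤ q₁ ^ s ∧
      ∀ t ∈ S, Nm t L → Cen t N → ∃ h, (h, t) ∈ T ∧ ∀ e ∈ F, h e = e

/-- The centraliser of a standard subgroup acts faithfully on a group with small characters. -/
def Lin0 (s : ℕ) (τ : ℝ) (S L : Subgroup (End ℂ W)ˣ) (𝓝 : ℕ → Set (Subgroup (End ℂ W)ˣ)) : Prop :=
  ∀ N ∈ 𝓝 s, ∃ L₀ ≤ L, BigG τ L₀ ∧ ∀ t ∈ S, Nm t L → Cen t N → Nm t L₀ ∧ (Cen t L₀ → Cen t L)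

/-- An invariant choice of standard subgroups for a family of components. -/
structure Fam (n : ℕ) (S : Subgroup (End ℂ W)ˣ) (C : Finset (Subgroup (End ℂ W)ˣ))
    (𝓝 : Subgroup (End ℂ W)ˣ → ℕ → Set (Subgroup (End ℂ W)ˣ)) : Prop where
  le : ∀ L ∈ C, L ≤ S
  nC : ∀ t ∈ S, NmC t C
  std : ∀ L ∈ C, Std n L (𝓝 L)
  inv : ∀ t ∈ S, ∀ L ∈ C, ∀ s ≤ n, ∀ N ∈ 𝓝 L s, str_cj t N ∈ 𝓝 (str_cj t L) s

open Classical in
/-- Products of standard subgroups, proper in at most `s` components. -/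
def KK (C : Finset (Subgroup (End ℂ W)ˣ))
    (𝓝 : Subgroup (End ℂ W)ˣ → ℕ → Set (Subgroup (End ℂ W)ˣ)) (s : ℕ) :
    Set (Subgroup (End ℂ W)ˣ) :=
  {K | ∃ k : Subgroup (End ℂ W)ˣ → Subgroup (End ℂ W)ˣ, (∀ L ∈ C, k L ∈ 𝓝 L s) ∧
    (C.filter fun L => k L ≠ L).card ≤ s ∧ K = C.sup k}

/-- All conjugates of `y` commute with a member of level four. -/
def Lcl (S : Subgroup (End ℂ W)ˣ) (𝒦 : ℕ → Set (Subgroup (End ℂ W)ˣ)) (y : (End ℂ W)ˣ) : Prop :=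
  ∀ t ∈ S, ∃ K ∈ 𝒦 4, Cen (t * y * t⁻¹) K

/-- A filtered family of large subgroups of `M`. -/
structure Pet (n : ℕ) (S M : Subgroup (End ℂ W)ˣ) (𝒦 : ℕ → Set (Subgroup (End ℂ W)ˣ)) : Prop where
  top : M ∈ 𝒦 0
  zero : ∀ K ∈ 𝒦 0, K = M
  le : ∀ s, ∀ K ∈ 𝒦 s, K ≤ M
  mono : ∀ s t, s ≤ t → 𝒦 s ⊆ 𝒦 t
  inter : ∀ s, 4 * s ≤ n → ∀ K ∈ 𝒦 s, ∀ K' ∈ 𝒦 s, ∃ K'' ∈ 𝒦 (4 * s), K'' ≤ K ⊓ K'
  gen : ∀ K ∈ 𝒦 n, K ≤ Subgroup.closure {y | y ∈ K ∧ Lcl S 𝒦 y}
  nm : ∀ t ∈ S, Nm t M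
  idx : ∀ s ≤ n, ∀ K ∈ 𝒦 s, (K ⊔ Zs ℂ W).relIndex (M ⊔ Zs ℂ W) ≠ 0 ∧
    (K ⊔ Zs ℂ W).relIndex (M ⊔ Zs ℂ W) ^ n ≤ (Zs ℂ W).relIndex S ^ (s * s)

/-- `Y` is fixed by the twisted conjugations from a member of level `s`. -/
def LocK (𝒦 : ℕ → Set (Subgroup (End ℂ W)ˣ)) (s : ℕ) (t : (End ℂ W)ˣ) (Y : End ℂ W) : Prop :=
  ∃ K ∈ 𝒦 s, ∀ y ∈ K, tw t y Y = Y

/-- `L` is simple modulo the scalars. -/
def QSi (L : Subgroup (End ℂ W)ˣ) : Prop :=
  ∀ N : Subgroup (End ℂ W)ˣ, Zs ℂ W ≤ N → N ≤ L ⊔ Zs ℂ W →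
    L ⊔ Zs ℂ W ≤ Subgroup.normalizer (N : Set (End ℂ W)ˣ) → N = Zs ℂ W ∨ N = L ⊔ Zs ℂ W

/-- The structure of `S`, with the components sorted into three kinds. -/
structure Str3 (n s q₁ d : ℕ) (τ : ℝ) (H S E : Subgroup (End ℂ W)ˣ)
    (C C₁ C₂ C₃ : Finset (Subgroup (End ℂ W)ˣ))
    (𝓝 : Subgroup (End ℂ W)ˣ → ℕ → Set (Subgroup (End ℂ W)ˣ)) : Prop where
  str : Str ((Zs ℂ W).relIndex S) H S E C
  sub : C₁ ⊆ C ∧ C₂ ⊆ C ∧ C₃ ⊆ C
  cover : ∀ L ∈ C, L ∈ C₁ ∨ L ∈ C₂ ∨ L ∈ C₃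
  nC : ∀ t, t ∈ H ∨ t ∈ S → NmC t C₁ ∧ NmC t C₂ ∧ NmC t C₃
  c₁ : Comp d C₁
  c₂ : Comp ((Zs ℂ W).relIndex S) C₂
  c₃ : Comp ((Zs ℂ W).relIndex S) C₃
  big : ∀ L ∈ C₂, BigG τ L
  fam : Fam n S C₃ 𝓝
  alt : ∀ L ∈ C₃, Act s q₁ S L (𝓝 L) ∨ Lin0 s τ S L (𝓝 L)

end

end Pool.Agent.Work.MP_11a08a_al.Lin
end

-- merged part: Pool.Agent.Work.MP_11a08a_al.Lin.DefsM
section
/-!
Statements of the linear layer: characters and angles.
-/

set_option autoImplicit false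

open Finset Module
open scoped commutatorElement

namespace Pool.Agent.Work.MP_11a08a_al.Lin

open Sol

/-- A group that is finite modulo scalars consists of similarities. -/
def StmtHerm : Prop :=
  ∀ (W : Type) [AddCommGroup W] [Module ℂ W] [FiniteDimensional ℂ W] (T : Subgroup (End ℂ W)ˣ),
    (Zs ℂ W).relIndex T ≠ 0 → ∃ c : InnerProductSpace.Core ℂ W, ∀ t ∈ T, ∃ r : ℝ, 0 < r ∧
      (∀ v w, c.inner ((t : End ℂ W) v) ((t : End ℂ W) w) = r * c.inner v w) ∧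
      (IsOfFinOrder t → r = 1)

/-- The metric properties of a character ratio. -/
def StmtBigI1 : Prop :=
  ∀ (Γ Q W : Type) [Group Γ] [Group Q] [NormedAddCommGroup W] [InnerProductSpace ℂ W]
    [FiniteDimensional ℂ W] [Nontrivial W] (π : Γ →* Q) (ρ : Representation ℂ Γ W) (f : Q → ℝ),
    Function.Surjective π → (∀ x v, ‖ρ x v‖ = ‖v‖) →
    (∀ x, f (π x) * finrank ℂ W = ‖LinearMap.trace ℂ W (ρ x)‖) →
    (∀ x, 0 ≤ f x ∧ f x ≤ 1) ∧ f 1 = 1 ∧ (∀ x, f x⁻¹ = f x) ∧ (∀ x y, f (y * x * y⁻¹) = f x) ∧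
    (∀ x y, √(1 - f (x * y)) ≤ √(1 - f x) + √(1 - f y)) ∧
    ∀ j : ℕ, 0 < j → (2 * j + 1) ^ (2 * finrank ℂ W ^ 2) < Nat.card Q →
      ∃ g, g ≠ 1 ∧ (1 - f g) * j ≤ 2 * finrank ℂ W

/-- The averaging properties of an irreducible character ratio. -/
def StmtBigI2 : Prop :=
  ∀ (Γ Q W : Type) [Group Γ] [Finite Γ] [Group Q] [NormedAddCommGroup W] [InnerProductSpace ℂ W]
    [FiniteDimensional ℂ W] [Nontrivial W] (π : Γ →* Q) (ρ : Representation ℂ Γ W) (f : Q → ℝ),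
    Function.Surjective π → π.ker ≤ Subgroup.center Γ → (∀ x v, ‖ρ x v‖ = ‖v‖) →
    (∀ U : Submodule ℂ W, (∀ g, ∀ v ∈ U, ρ g v ∈ U) → U = ⊥ ∨ U = ⊤) →
    (∀ x, f (π x) * finrank ℂ W = ‖LinearMap.trace ℂ W (ρ x)‖) →
    (finrank ℂ W : ℝ) ^ 2 * ∑ᶠ x, f x ^ 2 ≤ Nat.card Q ∧
    ∀ g k, f g ^ (2 * k) * (Nat.card Q : ℝ) ^ (2 * k) ≤ ∑ᶠ x : Pw (Q × Q) k, f (phi g k x)

/-- Large quasisimple groups of bounded degree have small character ratios. -/
def StmtBig : Prop :=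
  (∀ (m : ℕ) (τ : ℝ), 0 < τ → ∃ d : ℕ, ∀ (Γ Q : Type) [Group Γ] [Finite Γ] [Group Q]
    (π : Γ →* Q), Function.Surjective π → π.ker ≤ Subgroup.center Γ → commutator Γ = ⊤ →
    IsSimpleGroup Q → (∃ x y : Q, x * y ≠ y * x) → LinG m Q → d < Nat.card Q → BigG τ Γ) ∧
  ∀ (τ : ℝ) (Γ Γ' : Type) [Group Γ] [Group Γ'] (_ : Γ ≃* Γ'), BigG τ Γ → BigG τ Γ'

/-- Traces and ranks in the presence of matrix units. -/
def StmtTens : Prop :=
  ∀ (W : Type) [AddCommGroup W] [Module ℂ W] [FiniteDimensional ℂ W] (M : Subgroup (End ℂ W)ˣ),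
    MU M → (∀ a ∈ spn M, ∀ x, Cm M x → LinearMap.trace ℂ W (a * x) * finrank ℂ W =
      LinearMap.trace ℂ W a * LinearMap.trace ℂ W x) ∧
    ∀ (ι : Type) (J : Finset ι) (A x : ι → End ℂ W) (K : ℕ),
      (∀ i ∈ J, A i ∈ spn M ∧ Cm M (x i)) → ∀ i₀ ∈ J,
      (∀ β : ι → ℂ, β i₀ ≠ 0 → finrank ℂ W ≤ K * rk (∑ i ∈ J, β i • A i)) →
      rk (x i₀) ≤ K * J.card * rk (∑ i ∈ J, A i * x i)

/-- An element that acts nontrivially on a group with small characters has small trace. -/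
def StmtBigT : Prop :=
  ∀ (W : Type) [AddCommGroup W] [Module ℂ W] [FiniteDimensional ℂ W] (τ : ℝ)
    (T L : Subgroup (End ℂ W)ˣ) (t : (End ℂ W)ˣ), (Zs ℂ W).relIndex T ≠ 0 → L ≤ T → t ∈ T →
    BigG τ L → Fx L = ⊥ →
    ((Nm t L ∧ ¬ Cen t L) ∨ (MU L ∧ ∀ x ∈ L, Cen (t⁻¹ * x * t) L)) → Sm (2 * τ) t

/-- Combinations of almost orthogonal similarities have large rank. -/
def StmtGram : Prop :=
  ∀ (W : Type) [AddCommGroup W] [Module ℂ W] [FiniteDimensional ℂ W] (T : Subgroup (End ℂ W)ˣ),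
    (Zs ℂ W).relIndex T ≠ 0 → ∀ (ι : Type) (J : Finset ι) (k : ℕ) (τ : ℝ) (A : ι → (End ℂ W)ˣ),
    J.card ≤ k → 4 * (k : ℝ) ^ 2 * τ ≤ 1 → (∀ i ∈ J, A i ∈ T) →
    (∀ i ∈ J, ∀ j ∈ J, i ≠ j → Sm τ ((A i)⁻¹ * A j)) → ∀ β : ι → ℂ, (∃ i ∈ J, β i ≠ 0) →
    finrank ℂ W ≤ 2 * k * rk (∑ i ∈ J, β i • (A i : End ℂ W))

/-- Twists of a representation by different automorphisms are independent. -/
def StmtInd : Prop :=
  ∀ (τ : ℝ) (Γ W : Type) [Group Γ] [AddCommGroup W] [Module ℂ W] [FiniteDimensional ℂ W]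
    (ρ : Representation ℂ Γ W) (J : Finset (MulAut Γ)) (k : ℕ) (w : MulAut Γ → W), BigG τ Γ →
    (∀ v, (∀ x, ρ x v = v) → v = 0) → J.card ≤ k → 8 * (k : ℝ) ^ 2 * τ ≤ 1 →
    (∀ y, ∑ γ ∈ J, ρ (γ y) (w γ) = 0) → ∀ γ ∈ J, w γ = 0

/-- Matrix coefficients are small on average. -/
def StmtSchur : Prop :=
  ∀ (Γ W : Type) [Group Γ] [Fintype Γ] [NormedAddCommGroup W] [InnerProductSpace ℂ W]
    [FiniteDimensional ℂ W] (ρ : Representation ℂ Γ W) (X : Submodule ℂ W) (D : ℕ),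
    (∀ x v, ‖ρ x v‖ = ‖v‖) → (∀ g, ∀ v ∈ X, ρ g v ∈ X) →
    (∀ U ≤ X, U ≠ ⊥ → (∀ g, ∀ v ∈ U, ρ g v ∈ U) → D ≤ finrank ℂ U) →
    ∀ u ∈ X, D * ∑ g, ‖inner ℂ (ρ g u) u‖ ^ 2 ≤ Fintype.card Γ * ‖u‖ ^ 4

/-- Fixed spaces of overgroups in general position are almost orthogonal. -/
def StmtAng : Prop :=
  ∀ (W : Type) [NormedAddCommGroup W] [InnerProductSpace ℂ W] [FiniteDimensional ℂ W]
    (n E D : ℕ) (N B B' : Subgroup (End ℂ W)ˣ), Finite ↥(B ⊔ B') →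
    (∀ y ∈ B ⊔ B', ∀ v, ‖(y : End ℂ W) v‖ = ‖v‖) → n * E ≤ D → Ncl N B → Ncl N B' →
    (∀ U : Submodule ℂ W, (∀ y ∈ N, ∀ w ∈ U, (y : End ℂ W) w ∈ U) → finrank ℂ U < D → U ≤ Fx N) →
    GenZ n E B B' → ∀ u ∈ Fx B, ∀ u' ∈ Fx B', u' ∈ (Fx (B ⊔ B'))ᗮ →
    n * ‖inner ℂ u u'‖ ^ 4 ≤ 4 * ‖u‖ ^ 4 * ‖u'‖ ^ 4

/-- In a primitive group standard subgroups have no fixed vectors. -/
def StmtHigh : Prop :=
  ∀ (W : Type) [AddCommGroup W] [Module ℂ W] [FiniteDimensional ℂ W] (q n d : ℕ)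
    (H S : Subgroup (End ℂ W)ˣ) (C : Finset (Subgroup (End ℂ W)ˣ))
    (𝓝 : Subgroup (End ℂ W)ˣ → ℕ → Set (Subgroup (End ℂ W)ˣ)), QPrim q H → H ≤ S →
    (Zs ℂ W).relIndex S ≠ 0 → Comp d C → Fam n S C 𝓝 → 4 * q ^ 4 < n →
    ∀ s, 4 * s ≤ n → ∀ L ∈ C, ∀ N ∈ 𝓝 L s, Fx N = ⊥

open Classical in
/-- The terms that act in the same way on components with small characters split off. -/
def StmtSplit : Prop :=
  ∀ (W : Type) [AddCommGroup W] [Module ℂ W] [FiniteDimensional ℂ W] [Nontrivial W] (d : ℕ)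
    (τ : ℝ) (S : Subgroup (End ℂ W)ˣ) (C : Finset (Subgroup (End ℂ W)ˣ)), Comp d C →
    (∀ L ∈ C, BigG τ L ∧ L ≤ S) → Zs ℂ W ≤ S → (Zs ℂ W).relIndex S ≠ 0 → (∀ t ∈ S, NmC t C) →
    ∀ (ι : Type) (J : Finset ι) (k : ℕ) (α : ι → ℂ) (t : ι → (End ℂ W)ˣ), J.card ≤ k →
    8 * (k : ℝ) ^ 2 * τ ≤ 1 → (∀ i ∈ J, t i ∈ S) → ∀ i₀ ∈ J,
    rk (∑ i ∈ J.filter fun i => Cen ((t i₀)⁻¹ * t i) (C.sup id), α i • (t i : End ℂ W)) ≤
      2 * k ^ 2 * rk (∑ i ∈ J, α i • (t i : End ℂ W))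

/-- The reduction step and the nearness statement for components with small characters. -/
def StmtRedB : Prop :=
  ∀ (W : Type) [AddCommGroup W] [Module ℂ W] [FiniteDimensional ℂ W] [Nontrivial W] (q d : ℕ)
    (τ : ℝ) (S : Subgroup (End ℂ W)ˣ) (C : Finset (Subgroup (End ℂ W)ˣ)), Comp d C →
    (∀ L ∈ C, BigG τ L ∧ L ≤ S) → Zs ℂ W ≤ S → (Zs ℂ W).relIndex S ≠ 0 → (∀ t ∈ S, NmC t C) →
    0 ≤ τ → 32 * (q : ℝ) ^ 2 * τ ≤ 1 → ∀ (P : Finset (Fin q)) (α : Fin q → ℂ)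
    (s : Fin q → (End ℂ W)ˣ), (∀ l ∈ P, s l ∈ S) → rank_Red (16 * q ^ 2) (C.sup id) P α s ∧
    (MinV P (fun l => α l • (s l : End ℂ W)) →
      ∀ l ∈ P, ∀ l' ∈ P, ∀ L ∈ C, Cen ((s l)⁻¹ * s l') L)

/-- Over large fields near elements centralise the component. -/
def StmtNear2 : Prop :=
  ∀ (W : Type) [AddCommGroup W] [Module ℂ W] [FiniteDimensional ℂ W] [Nontrivial W] (q s : ℕ)
    (τ : ℝ) (S L N : Subgroup (End ℂ W)ˣ) (𝓝 : ℕ → Set (Subgroup (End ℂ W)ˣ)), MU L →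
    Lin0 s τ S L 𝓝 → N ∈ 𝓝 s → 8 * (q : ℝ) ^ 2 * τ ≤ 1 → ∀ (P : Finset (Fin q)) (α : Fin q → ℂ)
    (r : Fin q → (End ℂ W)ˣ), (∀ l ∈ P, r l ∈ S) → MinV P (fun l => α l • (r l : End ℂ W)) →
    (∀ l ∈ P, ∀ l' ∈ P, Nm ((r l)⁻¹ * r l') L ∧ Cen ((r l)⁻¹ * r l') N) →
    ∀ l ∈ P, ∀ l' ∈ P, Cen ((r l)⁻¹ * r l') L

end Pool.Agent.Work.MP_11a08a_al.Lin
end

-- merged part: Pool.Agent.Work.MP_11a08a_al.Lin.Big
section
/-!
`d = max (d of hF) (⌈1 / τ⌉₊ !)`.  `tr`: `hH` for `T = ρ.toHomUnits.range` (finite, so the relative index is nonzero; all elements have finite order) makes `ρ` unitary.  Induction on `finrank W`: if `U` is invariant, `U ≠ ⊥, ⊤`, then `Uᗮ` is invariant, the subrepresentations have no fixed vectors and the traces add up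
(`LinearMap.trace_eq_sum_trace_restrict`, or an orthonormal basis, or `trace_prodMap'` with `Submodule.prodEquivOfIsCompl`); it may be easier to induct over invariant subspaces without inner product, choosing complements by Maschke.  Irreducible, nontrivial `W`: central elements act as scalars of norm one, so `f y = ‖trace (ρ (s y))‖ / D` satisfies `f (π x) * D = ‖trace (ρ x)‖`.
`D ≥ 2`: in dimension one all `ρ x` commute, so the perfect group acts trivially.  Apply `hF` with `h1`, `h2`; `π x ≠ 1` for `x` outside the centre.  `idx`: `K.map π ≠ ⊤` has the index of `K`, its normal core is trivial, so `card Q ≤ index !` (`Subgroup.normalCore_eq_ker`, `MulAction.toPermHom`).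
Second part: compose representations with the isomorphism, map subgroups.
To use `hH`: prove a lemma for `[NormedAddCommGroup W] [InnerProductSpace ℂ W]`, then `obtain ⟨c, hc⟩ := hH W T h; let _ := c.toNormedAddCommGroup; let _ := InnerProductSpace.ofCore c.toCore; exact lemma ..` (this typechecks).
-/

set_option autoImplicit false

open Finset Module Pool.Agent.Work.MP_11a08a_al.Sol
open scoped commutatorElement

namespace Pool.Agent.Work.MP_11a08a_al.Lin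

theorem big_add {W : Type} [AddCommGroup W] [Module ℂ W] [FiniteDimensional ℂ W]
    {U V : Submodule ℂ W} (h : IsCompl U V) (A : End ℂ W) (hU : ∀ v ∈ U, A v ∈ U)
    (hV : ∀ v ∈ V, A v ∈ V) : LinearMap.trace ℂ W A =
      LinearMap.trace ℂ U (A.restrict hU) + LinearMap.trace ℂ V (A.restrict hV) := by
  have e : A = (U.prodEquivOfIsCompl V h).conj ((A.restrict hU).prodMap (A.restrict hV)) := by
    ext w
    obtain ⟨p, rfl⟩ := (U.prodEquivOfIsCompl V h).surjective w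
    simp [LinearEquiv.conj_apply]
  rw [← LinearMap.trace_prodMap', ← LinearMap.trace_conj' _ (U.prodEquivOfIsCompl V h), ← e]

/-- Reduction to irreducible unitary representations. -/
theorem big_red {Γ : Type} [Group Γ] {τ : ℝ} (x : Γ)
    (h : ∀ (W : Type) [NormedAddCommGroup W] [InnerProductSpace ℂ W] [FiniteDimensional ℂ W]
      [Nontrivial W] (ρ : Representation ℂ Γ W), (∀ x v, ‖ρ x v‖ = ‖v‖) →
      (∀ w, (∀ x, ρ x w = w) → w = 0) →
      (∀ U : Submodule ℂ W, (∀ g, ∀ v ∈ U, ρ g v ∈ U) → U = ⊥ ∨ U = ⊤) →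
      ‖LinearMap.trace ℂ W (ρ x)‖ ≤ τ * finrank ℂ W) (n : ℕ) :
    ∀ (W : Type) [NormedAddCommGroup W] [InnerProductSpace ℂ W] [FiniteDimensional ℂ W]
      (ρ : Representation ℂ Γ W), finrank ℂ W = n → (∀ x v, ‖ρ x v‖ = ‖v‖) →
      (∀ w, (∀ x, ρ x w = w) → w = 0) → ‖LinearMap.trace ℂ W (ρ x)‖ ≤ τ * finrank ℂ W := by
  induction n using Nat.strong_induction_on with
  | _ n ih =>
    intro W _ _ _ ρ hn hu hf
    rcases subsingleton_or_nontrivial W with hW | hW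
    · rw [Subsingleton.elim (ρ x) 0, map_zero, norm_zero, finrank_zero_of_subsingleton]
      simp
    by_cases hi : ∀ U : Submodule ℂ W, (∀ g, ∀ v ∈ U, ρ g v ∈ U) → U = ⊥ ∨ U = ⊤
    · exact h W ρ hu hf hi
    simp only [not_forall, not_or] at hi
    obtain ⟨U, hU, h0, h1⟩ := hi
    have hV : ∀ g, ∀ v ∈ Uᗮ, ρ g v ∈ Uᗮ := fun g v hv => by
      refine (U.mem_orthogonal _).2 fun u hu' => ?_
      have e : u = ρ g (ρ g⁻¹ u) := by
        rw [← Module.End.mul_apply, ← map_mul, mul_inv_cancel, map_one, Module.End.one_apply]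
      rw [e, (LinearMap.norm_map_iff_inner_map_map (ρ g)).1 (hu g)]
      exact (U.mem_orthogonal _).1 hv _ (hU _ _ hu')
    have hsub : ∀ (X : Submodule ℂ W) (hX : ∀ g, ∀ v ∈ X, ρ g v ∈ X), finrank ℂ X < n →
        ‖LinearMap.trace ℂ X ((ρ x).restrict (hX x))‖ ≤ τ * finrank ℂ X := fun X hX hlt =>
      ih _ hlt X (ρ.subrepresentation X fun g => hX g) rfl (fun g v => hu g v)
        fun w hw => Subtype.ext (hf w fun g => congrArg Subtype.val (hw g))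
    have hs := U.finrank_add_finrank_orthogonal
    have hlt := Submodule.finrank_lt h1
    have hpos : finrank ℂ U ≠ 0 := fun h => h0 (Submodule.finrank_eq_zero.1 h)
    rw [big_add U.isCompl_orthogonal (ρ x) (hU x) (hV x), ← hs]
    push_cast
    rw [mul_add]
    exact (norm_add_le _ _).trans (add_le_add (hsub U hU (by omega)) (hsub Uᗮ hV (by omega)))

section Irr

variable {Γ W : Type} [Group Γ] [NormedAddCommGroup W] [InnerProductSpace ℂ W]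
  [FiniteDimensional ℂ W] [Nontrivial W] (ρ : Representation ℂ Γ W)

theorem big_central (hu : ∀ x v, ‖ρ x v‖ = ‖v‖)
    (hi : ∀ U : Submodule ℂ W, (∀ g, ∀ v ∈ U, ρ g v ∈ U) → U = ⊥ ∨ U = ⊤) {z : Γ}
    (hz : z ∈ Subgroup.center Γ) (x : Γ) :
    ‖LinearMap.trace ℂ W (ρ (z * x))‖ = ‖LinearMap.trace ℂ W (ρ x)‖ := by
  obtain ⟨c, hc⟩ := Module.End.exists_eigenvalue (ρ z)
  have h1 : Module.End.eigenspace (ρ z) c = ⊤ := by
    refine (hi _ fun g v hv => ?_).resolve_left hc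
    rw [Module.End.mem_eigenspace_iff] at hv ⊢
    rw [← Module.End.mul_apply, ← map_mul, ← Subgroup.mem_center_iff.1 hz g, map_mul,
      Module.End.mul_apply, hv, map_smul]
  have h2 : ∀ v, ρ z v = c • v := fun v =>
    Module.End.mem_eigenspace_iff.1 (h1 ▸ Submodule.mem_top)
  obtain ⟨v, hv⟩ := exists_ne (0 : W)
  have h3 := hu z v
  rw [h2, norm_smul] at h3
  have h4 : ‖c‖ = 1 := mul_right_cancel₀ (norm_ne_zero_iff.2 hv) (h3.trans (one_mul _).symm)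
  have h5 : ρ (z * x) = c • ρ x := by
    ext w
    rw [map_mul, Module.End.mul_apply, h2, LinearMap.smul_apply]
  rw [h5, map_smul, norm_smul, h4, one_mul]

theorem big_two (hp : commutator Γ = ⊤) (hf : ∀ w, (∀ x, ρ x w = w) → w = 0) :
    2 ≤ finrank ℂ W := by
  by_contra hlt
  have h1 : finrank ℂ W = 1 := by
    have := Module.finrank_pos (R := ℂ) (M := W)
    omega
  obtain ⟨v, hv, h2⟩ := finrank_eq_one_iff'.1 h1
  have h3 : ∀ a b, ρ a * ρ b = ρ b * ρ a := fun a b => by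
    ext w
    obtain ⟨c, rfl⟩ := h2 w
    obtain ⟨α, hα⟩ := h2 (ρ a v)
    obtain ⟨β, hβ⟩ := h2 (ρ b v)
    simp only [Module.End.mul_apply, map_smul, ← hα, ← hβ, smul_smul]
    rw [mul_comm β α]
  have h4 : commutator Γ ≤ MonoidHom.ker ρ := by
    refine Subgroup.commutator_le.2 fun a _ b _ => ?_
    rw [MonoidHom.mem_ker, commutatorElement_def, map_mul, map_mul, map_mul, h3 a b, ← map_mul,
      ← map_mul, ← map_mul, mul_inv_cancel_right, mul_inv_cancel, map_one]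
  refine hv (hf v fun x => ?_)
  rw [MonoidHom.mem_ker.1 (h4 (hp ▸ Subgroup.mem_top x)), Module.End.one_apply]

end Irr

theorem big_unit (hH : StmtHerm) {Γ : Type} [Group Γ] [Finite Γ] {τ : ℝ} (x : Γ)
    (h : ∀ (W : Type) [NormedAddCommGroup W] [InnerProductSpace ℂ W] [FiniteDimensional ℂ W]
      (ρ : Representation ℂ Γ W), (∀ x v, ‖ρ x v‖ = ‖v‖) →
      (∀ w, (∀ x, ρ x w = w) → w = 0) → ‖LinearMap.trace ℂ W (ρ x)‖ ≤ τ * finrank ℂ W)
    (W : Type) [AddCommGroup W] [Module ℂ W] [FiniteDimensional ℂ W] (ρ : Representation ℂ Γ W)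
    (hf : ∀ w, (∀ x, ρ x w = w) → w = 0) : ‖LinearMap.trace ℂ W (ρ x)‖ ≤ τ * finrank ℂ W := by
  have : Finite (MonoidHom.toHomUnits ρ).range := Set.finite_range _
  obtain ⟨c, hc⟩ := hH W (MonoidHom.toHomUnits ρ).range Subgroup.index_ne_zero_of_finite
  let _ := c.toNormedAddCommGroup
  let _ := InnerProductSpace.ofCore c.toCore
  refine h W ρ (fun g => (LinearMap.norm_map_iff_inner_map_map (ρ g)).2 fun v w => ?_) hf
  obtain ⟨r, -, h1, h2⟩ := hc _ ⟨g, rfl⟩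
  have h3 := h1 v w
  rw [h2 ((MonoidHom.toHomUnits ρ).isOfFinOrder (isOfFinOrder_of_finite g)), Complex.ofReal_one,
    one_mul] at h3
  exact h3

theorem big_idx {Q : Type} [Group Q] [Finite Q] [IsSimpleGroup Q] {K : Subgroup Q} (hK : K ≠ ⊤) :
    Nat.card Q ≤ K.index.factorial := by
  have h1 : K.normalCore = ⊥ := (K.normalCore_normal.eq_bot_or_eq_top).resolve_right fun h =>
    hK (top_le_iff.1 (h ▸ K.normalCore_le))
  rw [Subgroup.normalCore_eq_ker, MonoidHom.ker_eq_bot_iff] at h1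
  rw [Subgroup.index, ← Nat.card_perm]
  exact Nat.card_le_card_of_injective _ h1

theorem big (hH : StmtHerm) (hF : StmtFn) (h1 : StmtBigI1) (h2 : StmtBigI2) : StmtBig := by
  refine ⟨fun m τ hτ => ?_, fun τ Γ Γ' _ _ e h => ?_⟩
  · obtain ⟨d, hd⟩ := hF m τ hτ
    refine ⟨max d (⌈1 / τ⌉₊).factorial, fun Γ Q _ _ _ π hπ hk hp hs hn hl hc => ?_⟩
    have : Finite Q := Finite.of_surjective π hπ
    refine ⟨inferInstance, hp, fun W _ _ _ ρ hf x hx => ?_, fun K hK hK' => ?_⟩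
    · refine big_unit hH x (fun W _ _ _ ρ hu hf => big_red x ?_ _ W ρ rfl hu hf) W ρ hf
      intro W _ _ _ _ ρ hu hf hi
      have hD := big_two ρ hp hf
      have hD' : (0 : ℝ) < finrank ℂ W := by exact_mod_cast (by omega : 0 < finrank ℂ W)
      let f : Q → ℝ := fun y =>
        ‖LinearMap.trace ℂ W (ρ (Function.surjInv hπ y))‖ / finrank ℂ W
      have hfx : ∀ x, f (π x) * finrank ℂ W = ‖LinearMap.trace ℂ W (ρ x)‖ := fun x => by
        have hz : Function.surjInv hπ (π x) * x⁻¹ ∈ Subgroup.center Γ := hk (by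
          rw [MonoidHom.mem_ker, map_mul, map_inv, Function.surjInv_eq hπ, mul_inv_cancel])
        rw [← big_central ρ hu hi hz x, inv_mul_cancel_right]
        exact div_mul_cancel₀ _ hD'.ne'
      obtain ⟨a1, a2, a3, a4, a5, a6⟩ := h1 Γ Q W π ρ f hπ hu hfx
      obtain ⟨b1, b2⟩ := h2 Γ Q W π ρ f hπ hk hu hi hfx
      rw [← hfx]
      exact mul_le_mul_of_nonneg_right (hd Q hl hs hn ((le_max_left _ _).trans_lt hc) _ f hD a1 a2
        a3 a4 a5 b1 b2 a6 (π x) fun h => hx (hk h)) hD'.le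
    · have hker : π.ker ≤ K := hk.trans hK
      have h3 : K.map π ≠ ⊤ := fun h => hK' (by
        rw [← Subgroup.comap_map_eq_self hker, h, Subgroup.comap_top])
      have h4 := big_idx h3
      rw [Subgroup.index_map_eq _ hπ hker] at h4
      by_contra h5
      have h6 : (K.index : ℝ) ≤ (⌈1 / τ⌉₊ : ℕ) := by
        refine le_trans ?_ (Nat.le_ceil _)
        rw [le_div_iff₀ hτ, mul_comm]
        exact (not_le.1 h5).le
      have h7 := Nat.factorial_le (Nat.cast_le.1 h6)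
      have h8 := (le_max_right _ _).trans_lt hc
      omega
  · have := h.fin
    refine ⟨Finite.of_equiv Γ e.toEquiv, ?_, fun W _ _ _ ρ hf x hx => ?_, fun K hK hK' => ?_⟩
    · have h1 := map_commutator_eq Γ e.toMonoidHom
      rw [h.perf, ← MonoidHom.range_eq_map, MonoidHom.range_eq_top.2 e.surjective] at h1
      exact h1.symm
    · obtain ⟨y, rfl⟩ := e.surjective x
      refine h.tr W (ρ.comp e.toMonoidHom) (fun w hw => hf w fun g => ?_) y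
        fun hy => hx (MulEquivClass.apply_mem_center e hy)
      obtain ⟨g', rfl⟩ := e.surjective g
      exact hw g'
    · rw [← K.index_comap_of_surjective (f := e.toMonoidHom) e.surjective]
      refine h.idx _ (fun y hy => hK (MulEquivClass.apply_mem_center e hy)) fun ht => hK' ?_
      refine top_le_iff.1 fun g _ => ?_
      obtain ⟨g', rfl⟩ := e.surjective g
      exact (ht ▸ Subgroup.mem_top g' : g' ∈ K.comap e.toMonoidHom)

end Pool.Agent.Work.MP_11a08a_al.Lin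
end

-- merged part: Pool.Agent.Work.MP_11a08a_al.Lin.DefsN
section
/-!
Statements of the linear layer: structure, reduction, tests.
-/

set_option autoImplicit false

open Finset Module
open scoped commutatorElement

namespace Pool.Agent.Work.MP_11a08a_al.Lin

open Sol

/-- Transport along a correspondence. -/
def StmtCor : Prop :=
  ∀ (G G' : Type) [Group G] [Group G'] (Z S : Subgroup G) (Z' S' : Subgroup G')
    (R : Subgroup (G × G')), R ≤ S.prod S' → (∀ x' ∈ S', ∃ x, (x, x') ∈ R) →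
    (∀ x', (1, x') ∈ R → x' ∈ Z') → (∀ z ∈ Z, (z, 1) ∈ R) →
    (Z.relIndex S ≠ 0 → Z'.relIndex S' ≠ 0 ∧ Z'.relIndex S' ≤ Z.relIndex S) ∧
    ∀ m, SecK m Z S → SecK m Z' S'

/-- The image of a stabiliser. -/
def StmtSecI : Prop :=
  ∀ (G V : Type) [Group G] [Finite G] [AddCommGroup V] [Module ℂ V] (ρ : Representation ℂ G V)
    (W : Submodule ℂ V), (Zs ℂ W).relIndex (imS ρ W ⊤) ≤ Nat.card G ∧
    (resU ρ W).range ≤ imS ρ W ⊤ ∧ ∀ m, SecK m ⊥ (⊤ : Subgroup G) → SecK m (Zs ℂ W) (imS ρ W ⊤)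

/-- Passing to the centraliser of a normalised matrix algebra. -/
def StmtNextL : Prop :=
  ∀ (W : Type) [AddCommGroup W] [Module ℂ W] [FiniteDimensional ℂ W] [Nontrivial W]
    (m : ℕ) (H S M : Subgroup (End ℂ W)ˣ), Zs ℂ W ≤ S → (Zs ℂ W).relIndex S ≠ 0 →
    (∀ h ∈ H, Nm h S ∧ Nm h M) → SecK m (Zs ℂ W) S → M ≤ S → ¬ M ≤ Zs ℂ W → (∀ s ∈ S, Nm s M) →
    MU M → ∃ S' : Subgroup (End ℂ W)ˣ, Zs ℂ W ≤ S' ∧ (Zs ℂ W).relIndex S' ≠ 0 ∧
      (Zs ℂ W).relIndex S' < (Zs ℂ W).relIndex S ∧ (∀ h ∈ H, Nm h S') ∧ SecK m (Zs ℂ W) S' ∧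
      ∀ s ∈ S, ∃ A x : (End ℂ W)ˣ, (A : End ℂ W) ∈ spn M ∧
        ((A⁻¹ : (End ℂ W)ˣ) : End ℂ W) ∈ spn M ∧ x ∈ S' ∧ Cm M (x : End ℂ W) ∧ s = A * x

/-- The structure theorem with simple components. -/
def StmtStrL : Prop :=
  ∀ (W : Type) [AddCommGroup W] [Module ℂ W] [FiniteDimensional ℂ W] [Nontrivial W]
    (H S : Subgroup (End ℂ W)ˣ), Prim H → Zs ℂ W ≤ S → (Zs ℂ W).relIndex S ≠ 0 →
    (∀ h ∈ H, Nm h S) → ∃ E C, Str ((Zs ℂ W).relIndex S) H S E C ∧ ∀ L ∈ C, QSi L ∧ Finite L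

/-- Standard subgroups from a geometry. -/
def StmtHat1 : Prop :=
  ∀ (W : Type) [AddCommGroup W] [Module ℂ W] [FiniteDimensional ℂ W] (n : ℕ)
    (S L : Subgroup (End ℂ W)ˣ) (𝓝 : ℕ → Set (Subgroup (End ℂ W)ˣ)), Finite L → ⁅L, L⁆ = L →
    Src n S L 𝓝 → Std n L 𝓝

/-- Actions on standard subgroups from a geometry. -/
def StmtHat2 : Prop :=
  ∀ (s : ℕ) (τ : ℝ), 0 < τ → ∃ q₁ : ℕ, ∀ (W : Type) [AddCommGroup W] [Module ℂ W] (n : ℕ)
    (S L : Subgroup (End ℂ W)ˣ) (𝓝 : ℕ → Set (Subgroup (End ℂ W)ˣ)), s ≤ n → Finite L →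
    ⁅L, L⁆ = L → Src n S L 𝓝 → Act s q₁ S L 𝓝 ∨ Lin0 s τ S L 𝓝

/-- An invariant choice of geometries. -/
def StmtFam : Prop :=
  ∀ (W : Type) [AddCommGroup W] [Module ℂ W] (n : ℕ) (S : Subgroup (End ℂ W)ˣ)
    (C : Finset (Subgroup (End ℂ W)ˣ)), (∀ t ∈ S, NmC t C) → (∀ L ∈ C, ∃ 𝓝, Src n S L 𝓝) →
    ∃ 𝓝 : Subgroup (End ℂ W)ˣ → ℕ → Set (Subgroup (End ℂ W)ˣ), (∀ L ∈ C, Src n S L (𝓝 L)) ∧
      ∀ t ∈ S, ∀ L ∈ C, ∀ s ≤ n, ∀ N ∈ 𝓝 L s, str_cj t N ∈ 𝓝 (str_cj t L) s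

/-- Existence of the sorted structure. -/
def StmtStr3 : Prop :=
  ∀ (n s m : ℕ) (τ : ℝ), 0 < τ → s ≤ n → ∃ q₁ d : ℕ, ∀ (W : Type) [AddCommGroup W] [Module ℂ W]
    [FiniteDimensional ℂ W] [Nontrivial W] (H S : Subgroup (End ℂ W)ˣ), Prim H → Zs ℂ W ≤ S →
    (Zs ℂ W).relIndex S ≠ 0 → (∀ h ∈ H, Nm h S) → SecK m (Zs ℂ W) S →
    ∃ E C C₁ C₂ C₃ 𝓝, Str3 n s q₁ d τ H S E C C₁ C₂ C₃ 𝓝

/-- Products of standard subgroups form a filtered family. -/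
def StmtKK : Prop :=
  ∀ (W : Type) [AddCommGroup W] [Module ℂ W] (n d : ℕ) (S : Subgroup (End ℂ W)ˣ)
    (C : Finset (Subgroup (End ℂ W)ˣ))
    (𝓝 : Subgroup (End ℂ W)ˣ → ℕ → Set (Subgroup (End ℂ W)ˣ)), Comp d C → Fam n S C 𝓝 →
    (Zs ℂ W).relIndex S ≠ 0 → 4 ≤ n → Pet n S (C.sup id) (KK C 𝓝)

/-- The reduction by differences for a filtered family. -/
def StmtPetG : Prop :=
  ∀ (W : Type) [AddCommGroup W] [Module ℂ W] [FiniteDimensional ℂ W] (n : ℕ)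
    (S M : Subgroup (End ℂ W)ˣ) (𝒦 : ℕ → Set (Subgroup (End ℂ W)ˣ)), Pet n S M 𝒦 →
    ∀ m : ℕ, 4 ≤ m →
    (16 * m ≤ n → ∀ y, Lcl S 𝒦 y → ∀ s ∈ S, ∀ t ∈ S, ∀ Y, LocK 𝒦 m t Y →
      LocK 𝒦 (16 * m) t (tw s y Y - Y)) ∧
    ∀ q : ℕ, 16 ^ q * m ≤ n → ∀ (R : Finset (Fin q)) (s : Fin q → (End ℂ W)ˣ)
      (Y : Fin q → End ℂ W), (∀ r ∈ R, s r ∈ S ∧ LocK 𝒦 m (s r) (Y r)) → ∑ r ∈ R, Y r ≠ 0 →
      ∃ X : End ℂ W, X ≠ 0 ∧ (∃ r ∈ R, LocK 𝒦 (16 ^ q * m) (s r) X) ∧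
        rk X ≤ 2 ^ q * rk (∑ r ∈ R, Y r) ∧
        (∀ U : Submodule ℂ (End ℂ W), Bim M U → ∑ r ∈ R, Y r ∈ U → X ∈ U) ∧
        ∀ t ∈ S, LocK 𝒦 m t (∑ r ∈ R, Y r) → LocK 𝒦 (16 ^ q * m) t X

/-- The reduction step for components with a geometry. -/
def StmtRedG : Prop :=
  ∀ (W : Type) [AddCommGroup W] [Module ℂ W] [FiniteDimensional ℂ W] [Nontrivial W] (q n I : ℕ)
    (S M : Subgroup (End ℂ W)ˣ) (𝒦 : ℕ → Set (Subgroup (End ℂ W)ˣ)), Pet n S M 𝒦 → MU M →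
    16 ^ q * 64 ≤ n → (∀ K ∈ 𝒦 (16 ^ q * 64), (K ⊔ Zs ℂ W).relIndex (M ⊔ Zs ℂ W) ≤ I) →
    ∀ (P : Finset (Fin q)) (α : Fin q → ℂ) (s : Fin q → (End ℂ W)ˣ), (∀ l ∈ P, s l ∈ S) →
    rank_Red (I * (2 ^ q * 2)) M P α s

/-- The rank bound on a primitive block. -/
def StmtRankL : Prop :=
  ∀ (q m : ℕ) (δ : ℝ), 0 < δ → ∃ c : ℝ, 0 < c ∧ ∀ N : ℕ, 1 ≤ N → ∃ K : ℕ,
    (K : ℝ) ≤ c * (N : ℝ) ^ δ ∧ ∀ (W : Type) [AddCommGroup W] [Module ℂ W] [FiniteDimensional ℂ W]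
    [Nontrivial W] (H S : Subgroup (End ℂ W)ˣ), Prim H → Zs ℂ W ≤ S → (Zs ℂ W).relIndex S ≠ 0 →
    (Zs ℂ W).relIndex S ≤ N → (∀ h ∈ H, Nm h S) → SecK m (Zs ℂ W) S →
    ∀ (P : Finset (Fin q)) (α : Fin q → ℂ) (s : Fin q → (End ℂ W)ˣ), (∀ l ∈ P, s l ∈ S) →
    ∑ l ∈ P, α l • (s l : End ℂ W) ≠ 0 → finrank ℂ W ≤ K * rk (∑ l ∈ P, α l • (s l : End ℂ W))

/-- Two twists with a common fixed map are near. -/
def StmtFar : Prop :=
  ∀ (W : Type) [AddCommGroup W] [Module ℂ W] (n d s : ℕ) (S : Subgroup (End ℂ W)ˣ)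
    (C : Finset (Subgroup (End ℂ W)ˣ))
    (𝓝 : Subgroup (End ℂ W)ˣ → ℕ → Set (Subgroup (End ℂ W)ˣ)), Comp d C → Fam n S C 𝓝 →
    4 * s ≤ n → (∀ L ∈ C, ∀ N ∈ 𝓝 L s, Fx N = ⊥) →
    (∀ t ∈ S, ∀ K ∈ KK C 𝓝 s, Cen t K → ∀ L ∈ C, Nm t L) ∧
    ∀ s₁ ∈ S, ∀ s₂ ∈ S, ∀ X : End ℂ W, X ≠ 0 → ∀ K ∈ KK C 𝓝 s,
      (∀ y ∈ K, tw s₁ y X = X ∧ tw s₂ y X = X) → ∃ K' ∈ KK C 𝓝 (4 * s), Cen (s₁⁻¹ * s₂) K'

/-- In a minimal vanishing sum all quotients centralise a standard subgroup. -/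
def StmtNearG : Prop :=
  ∀ q : ℕ, ∃ s₀ : ℕ, ∀ (W : Type) [AddCommGroup W] [Module ℂ W] [FiniteDimensional ℂ W] (n d : ℕ)
    (S : Subgroup (End ℂ W)ˣ) (C : Finset (Subgroup (End ℂ W)ˣ))
    (𝓝 : Subgroup (End ℂ W)ˣ → ℕ → Set (Subgroup (End ℂ W)ˣ)), Comp d C → Fam n S C 𝓝 →
    (Zs ℂ W).relIndex S ≠ 0 → 4 * s₀ ≤ n → (∀ s, 4 * s ≤ n → ∀ L ∈ C, ∀ N ∈ 𝓝 L s, Fx N = ⊥) →
    ∀ (P : Finset (Fin q)) (α : Fin q → ℂ) (r : Fin q → (End ℂ W)ˣ), (∀ l ∈ P, r l ∈ S) →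
    MinV P (fun l => α l • (r l : End ℂ W)) → ∀ L ∈ C, ∃ N ∈ 𝓝 L s₀, ∀ l ∈ P, ∀ l' ∈ P,
      Nm ((r l)⁻¹ * r l') L ∧ Cen ((r l)⁻¹ * r l') N

/-- One component with an action on an abelian group. -/
def StmtGain1 : Prop :=
  ∀ s q₁ : ℕ, ∃ T₁ : ℕ, ∀ T : ℕ, ∃ B : ℕ, ∀ (W Γ κ : Type) [AddCommGroup W] [Module ℂ W]
    [Group Γ] [Finite Γ] (S L : Subgroup (End ℂ W)ˣ) (𝓝 : ℕ → Set (Subgroup (End ℂ W)ˣ))
    (π : Γ →* (End ℂ W)ˣ) (I : Finset κ) (row : κ → Set Γ), Act s q₁ S L 𝓝 → (∀ γ, π γ ∈ S) →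
    I.Nonempty → (∀ i ∈ I, ∃ N ∈ 𝓝 s, ∀ γ ∈ row i, Nm (π γ) L ∧ Cen (π γ) N) →
    (∃ (K : Subgroup Γ) (I' : Finset κ), I' ⊆ I ∧ T < K.index ∧ I.card ≤ T₁ * I'.card ∧
      ∀ i ∈ I', row i ⊆ K) ∨
    ∃ N : Subgroup Γ, N.index ≤ B ∧ ∀ γ ∈ gam N 2, Cen (π γ) L

/-- Nilpotency modulo scalars. -/
def StmtNilpL : Prop :=
  ∀ (W : Type) [AddCommGroup W] [Module ℂ W] (d : ℕ) (H S E N E₁ E₂ : Subgroup (End ℂ W)ˣ)
    (C : Finset (Subgroup (End ℂ W)ˣ)), Str d H S E C → N ≤ S → (∀ n ∈ gam N 2, supp C n = ∅) →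
    (∀ n ∈ N, (∀ e ∈ E, ⁅n, e⁆ ∈ E₂) ∧ (∀ e ∈ E, e ∈ E₂ → ⁅n, e⁆ ∈ E₁) ∧
      ∀ e ∈ E, e ∈ E₁ → ⁅n, e⁆ ∈ Zs ℂ W) → Zs ℂ W ≤ E₁ → Zs ℂ W ≤ E₂ → gam N 5 ≤ Zs ℂ W

/-- The components: the rows concentrate, or a subgroup of bounded index acts nilpotently. -/
def StmtGainC : Prop :=
  ∀ (s q₁ d t : ℕ), ∃ T₁ : ℕ, ∀ T : ℕ, ∃ B : ℕ, ∀ (W Γ κ : Type) [AddCommGroup W] [Module ℂ W]
    [FiniteDimensional ℂ W] [Group Γ] [Finite Γ] (S : Subgroup (End ℂ W)ˣ)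
    (C C₁ : Finset (Subgroup (End ℂ W)ˣ))
    (𝓝 : Subgroup (End ℂ W)ˣ → ℕ → Set (Subgroup (End ℂ W)ˣ)) (π : Γ →* (End ℂ W)ˣ)
    (I : Finset κ) (ι : Type) [Fintype ι] (γ : κ → ι → Γ), C₁ ⊆ C → Comp d C₁ →
    (∀ g, π g ∈ S ∧ NmC (π g) C₁) → I.Nonempty →
    (∀ i ∈ I, ∑ x, (supp C (π (γ i x))).card ≤ t) →
    (∀ L ∈ C, L ∈ C₁ ∨ (∀ i ∈ I, ∀ x, Cen (π (γ i x)) L) ∨ (Act s q₁ S L (𝓝 L) ∧
      ∀ i ∈ I, ∃ N ∈ 𝓝 L s, ∀ x, Nm (π (γ i x)) L ∧ Cen (π (γ i x)) N)) →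
    (∃ (K : Subgroup Γ) (I' : Finset κ), I' ⊆ I ∧ T < K.index ∧ I.card ≤ T₁ * I'.card ∧
      ∀ i ∈ I', Set.range (γ i) ⊆ K) ∨
    ∃ N : Subgroup Γ, N.Normal ∧ N.index ≤ B ∧ ∀ g ∈ gam N 2, supp C (π g) = ∅

/-- One column. -/
def StmtGainL : Prop :=
  ∀ q m : ℕ, ∃ T₁ : ℕ, ∀ T : ℕ, ∃ B : ℕ, ∀ (G V κ : Type) [Group G] [Finite G] [AddCommGroup V]
    [Module ℂ V] [FiniteDimensional ℂ V] (ρ : Representation ℂ G V) (α : Fin q → ℂ)
    (P : Finset (Fin q)) (W : Submodule ℂ V) (Γ : Subgroup G) (I : Finset κ) (b : κ → Fin q → G),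
    SecK m ⊥ (⊤ : Subgroup G) → W ≠ ⊥ → QPrim q (resU ρ W).range → Γ ≤ stab ρ W → I.Nonempty →
    (∀ i ∈ I, Rat P (b i) Γ ∧ MinVan ρ α P (b i) W) →
    (∃ (K : Subgroup G) (I' : Finset κ), I' ⊆ I ∧ T < K.relIndex Γ ∧ I.card ≤ T₁ * I'.card ∧
      ∀ i ∈ I', Rat P (b i) K) ∨
    ∃ N : Subgroup G, N ≤ Γ ∧ Γ ≤ Subgroup.normalizer (N : Set G) ∧ N.relIndex Γ ≤ B ∧
      ∀ g ∈ gam N 5, Sc ρ W g

/-- Blocks with bounded independence. -/
def StmtQB : Prop :=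
  (∀ (G V : Type) [Group G] [Finite G] [AddCommGroup V] [Module ℂ V] [FiniteDimensional ℂ V]
    (q : ℕ) (ρ : Representation ℂ G V) (α : Fin q → ℂ),
    (∀ (x : Submodule ℂ V) (a : Fin q → G), Blk ρ x → ¬ Van ρ α univ a x →
      ∃ U ≤ x, ¬ Van ρ α univ a U ∧ QBlk q ρ U ∧ QPrim q (resU ρ U).range) ∧
    ∀ (U : Submodule ℂ V) (P : Finset (Fin q)) (b : Fin q → G), QBlk q ρ U → MinVan ρ α P b U →
      Rat P b (stab ρ U)) ∧
  ∀ (W : Type) [AddCommGroup W] [Module ℂ W] [FiniteDimensional ℂ W] (q : ℕ)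
    (H : Subgroup (End ℂ W)ˣ), QPrim q H → Prim H

/-- The tests are wild of level two. -/
def StmtW2L : Prop :=
  ∀ q m B₀ : ℕ, ∃ (g : ℝ → ℝ) (β β' : ℝ → ℝ → ℝ → ℕ), ∀ (G V κ : Type) [Group G] [Finite G]
    [AddCommGroup V] [Module ℂ V] [FiniteDimensional ℂ V] [Fintype κ] [DecidableEq κ]
    (ρ : Representation ℂ G V) (α : Fin q → ℂ) (P : Finset (Fin q)) (a : κ → Fin q → G)
    (x : κ → Submodule ℂ V), Ratio ℂ q (Nat.card G) B₀ → SecK m ⊥ (⊤ : Subgroup G) →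
    (∀ j, QBlk q ρ (x j) ∧ QPrim q (resU ρ (x j)).range) →
    W2 g β β' (2 * Nat.card G) ((2 * Nat.card G) ^ 2)
      fun i j => ¬ Van ρ α P (a j) (x j) ∧ MinVan ρ α P (a i) (x j)

/-- The bound for irreducible complex representations. -/
def StmtCoreL : Prop :=
  ∀ (q m B₀ : ℕ) (δ : ℝ), 0 < δ → ∃ c : ℝ, 0 < c ∧ ∀ (G V : Type) [Group G] [Finite G]
    [AddCommGroup V] [Module ℂ V] [FiniteDimensional ℂ V] (ρ : Representation ℂ G V)
    (α : Fin q → ℂ) (h : Fin q → G),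
    (∀ U : Submodule ℂ V, (∀ g, ∀ v ∈ U, ρ g v ∈ U) → U = ⊥ ∨ U = ⊤) →
    Ratio ℂ q (Nat.card G) B₀ → SecK m ⊥ (⊤ : Subgroup G) → ∑ l, α l • ρ (h l) ≠ 0 →
    (finrank ℂ V : ℝ) ≤ c * (Nat.card G : ℝ) ^ δ * rk (∑ l, α l • ρ (h l))

/-- The final statement. -/
def StmtFinL : Prop :=
  ∀ ε : ℝ, 0 < ε → ∀ q m : ℕ, ∃ N : ℕ, ∀ n > N,
    ∀ (F : Type) [Field F] [CharZero F] (G : Type) [Group G] [Finite G],
      SecK m ⊥ (⊤ : Subgroup G) →
      ∀ ρ : Representation F G (Fin n → F), ρ.IsIrreducible → (Nat.card G : ℝ) ^ ε ≤ n →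
      ∀ (h : Fin q → G) (α : Fin q → F), ∑ l, α l • ρ (h l) ≠ 0 →
        (n : ℝ) ^ (1 - ε) ≤ finrank F (LinearMap.range (∑ l, α l • ρ (h l)))

end Pool.Agent.Work.MP_11a08a_al.Lin
end

-- merged part: Pool.Agent.Work.MP_11a08a_al.Lin.RedB
section
/-!
Use the lemmas `rank_*` of `Sol/Rank` (see `rank_comp`).  `M = C.sup id`.  If `(s l₀)⁻¹ * Y` does not commute with `y ∈ M` then `Y' = tw (s l₀) y Y - Y ≠ 0` (`rank_tw_eq`), `rk Y' ≤ 2 rk Y`, and by `rank_diff`, `rank_tw_unit`, `Y' = ∑ (l, b) ∈ (P.erase l₀) ×ˢ univ, α' (l, b) • t (l, b)` over `Fin q × Bool`, with `t (l, b) = u (l, b) * s l`, `u (l, b) ∈ M ≤ S`.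
The relation `Cen ((t i)⁻¹ * t j) M` is an equivalence relation, so `Y'` is the sum of the class sums and some class sum `Z`, of the class of `i₀ = (r, b)`, is nonzero (`Finset.sum_fiberwise_of_maps_to` with the map sending `i` to its class as a finset).  `hS` with `k = 2 q`.  `X = (t i₀)⁻¹ * Z` commutes with `M`, `Z ∈ rank_U M (P.erase l₀) s`, `rank_bim`, `rank_shift`.
Second part: `hS` with `k = q`, `J = P`; the class sum of `l` has rank zero, so vanishes, and `MinV` forces the class to be `P`.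
-/

set_option autoImplicit false

open Finset Module Pool.Agent.Work.MP_11a08a_al.Sol
open scoped commutatorElement

namespace Pool.Agent.Work.MP_11a08a_al.Lin

open Classical in
/-- A nonzero sum has a nonzero class sum. -/
theorem redb_class {G A ι : Type} [Group G] [AddCommMonoid A] (M : Subgroup G) (J : Finset ι)
    (t : ι → G) (f : ι → A) (h : ∑ i ∈ J, f i ≠ 0) :
    ∃ i₀ ∈ J, ∑ i ∈ J.filter fun i => Cen ((t i₀)⁻¹ * t i) M, f i ≠ 0 := by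
  by_contra hc
  push Not at hc
  apply h
  let g : ι → G ⧸ Subgroup.centralizer (M : Set G) := fun i => QuotientGroup.mk (t i)
  rw [← Finset.sum_fiberwise_of_maps_to (t := J.image g) (g := g)
    (fun i hi => Finset.mem_image_of_mem g hi)]
  refine Finset.sum_eq_zero fun c hc' => ?_
  obtain ⟨i₀, hi₀, rfl⟩ := Finset.mem_image.1 hc'
  rw [← hc i₀ hi₀]
  refine Finset.sum_congr (Finset.filter_congr fun i _ => ?_) fun _ _ => rfl
  rw [eq_comm, QuotientGroup.eq, Subgroup.mem_centralizer_iff]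
  exact ⟨fun h y hy => (h y hy).symm, fun h y hy => (h y hy).symm⟩

theorem redb_rk {W : Type} [AddCommGroup W] [Module ℂ W] [FiniteDimensional ℂ W] {Z : End ℂ W}
    (h : rk Z = 0) : Z = 0 :=
  LinearMap.range_eq_bot.1 (Submodule.finrank_eq_zero.1 h)

theorem redB (hJ : StmtJoin) (hS : StmtSplit) : StmtRedB := by
  classical
  intro W _ _ _ _ q d τ S C hC hB hZ hf hN hτ hq P α s hs
  obtain ⟨-, -, j3, -, -⟩ := hJ ℂ W d C hC
  have hM : C.sup id ≤ S := Finset.sup_le fun L hL => (hB L hL).2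
  have hn : ∀ l ∈ P, Nm (s l) (C.sup id) := fun l hl => j3 _ (hN _ (hs l hl))
  have hP : P.card ≤ q := by simpa using Finset.card_le_univ P
  refine ⟨fun l₀ hl₀ hn₀ => ?_, fun hm l hl l' hl' L hL y hy => ?_⟩
  · obtain ⟨y, hy, hne⟩ : ∃ y ∈ C.sup id, tw (s l₀) y (∑ l ∈ P, α l • (s l : End ℂ W)) -
        ∑ l ∈ P, α l • (s l : End ℂ W) ≠ 0 := by
      by_contra hc
      push Not at hc
      refine hn₀ fun y hy => ?_
      have := rank_tw_eq (c := 1) ((sub_eq_zero.1 (hc y hy)).trans (one_smul ℂ _).symm)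
      rwa [one_smul] at this
    let u : Fin q × Bool → (End ℂ W)ˣ := fun i =>
      if i.2 then s l₀ * y * (s l₀)⁻¹ * (s i.1 * y⁻¹ * (s i.1)⁻¹) else 1
    let t : Fin q × Bool → (End ℂ W)ˣ := fun i => u i * s i.1
    let β : Fin q × Bool → ℂ := fun i => if i.2 then α i.1 else -α i.1
    let J : Finset (Fin q × Bool) := P.erase l₀ ×ˢ univ
    have hJ1 : ∀ i ∈ J, i.1 ∈ P.erase l₀ := fun i hi => (Finset.mem_product.1 hi).1
    have hJ2 : ∀ i ∈ J, i.1 ∈ P := fun i hi => mem_of_mem_erase (hJ1 i hi)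
    have hu : ∀ i ∈ J, u i ∈ C.sup id := fun i hi => by
      simp only [u]
      split_ifs
      · exact Subgroup.mul_mem _ (rank_nm (hn l₀ hl₀) hy)
          (rank_nm (hn _ (hJ2 i hi)) (Subgroup.inv_mem _ hy))
      · exact Subgroup.one_mem _
    have ht : ∀ i ∈ J, t i ∈ S := fun i hi => S.mul_mem (hM (hu i hi)) (hs _ (hJ2 i hi))
    have hY : ∑ i ∈ J, β i • (t i : End ℂ W) =
        tw (s l₀) y (∑ l ∈ P, α l • (s l : End ℂ W)) - ∑ l ∈ P, α l • (s l : End ℂ W) := by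
      rw [← rank_diff hl₀, Finset.sum_product]
      refine Finset.sum_congr rfl fun l _ => ?_
      rw [Fintype.sum_bool, rank_tw_smul, rank_tw_unit]
      simp [β, t, u, sub_eq_add_neg]
    have hc : J.card ≤ 2 * q := by
      have := Finset.card_erase_le (s := P) (a := l₀)
      simp only [J, Finset.card_product, Finset.card_univ, Fintype.card_bool]
      omega
    obtain ⟨i₀, hi₀, hZ0⟩ := redb_class (C.sup id) J t (fun i => β i • (t i : End ℂ W))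
      (by rwa [hY])
    have hr := hS W d τ S C hC hB hZ hf hN _ J (2 * q) β t hc (by push_cast; linarith) ht i₀ hi₀
    rw [hY] at hr
    refine ⟨i₀.1, hJ2 i₀ hi₀, ↑(t i₀)⁻¹ * _, rank_ne (t i₀)⁻¹ hZ0, fun v hv => ?_,
      (rank_left _ _).trans ?_, ?_⟩
    · simp only [Finset.mul_sum, Finset.sum_mul, mul_smul_comm, smul_mul_assoc]
      refine Finset.sum_congr rfl fun i hi => ?_
      have := congrArg Units.val ((Finset.mem_filter.1 hi).2 v hv)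
      simp only [Units.val_mul] at this
      rw [this]
    · refine le_trans (by convert hr) ?_
      calc 2 * (2 * q) ^ 2 * rk (tw (s l₀) y (∑ l ∈ P, α l • (s l : End ℂ W)) -
            ∑ l ∈ P, α l • (s l : End ℂ W))
          ≤ 2 * (2 * q) ^ 2 * (2 * rk (∑ l ∈ P, α l • (s l : End ℂ W))) :=
            Nat.mul_le_mul_left _ (rank_tw_sub _ _ _)
        _ = _ := by ring
    · rw [Finset.mul_sum]
      refine Submodule.sum_mem _ fun i hi => ?_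
      have hi' := (Finset.mem_filter.1 hi).1
      rw [mul_smul_comm, ← Units.val_mul, show (t i₀)⁻¹ * t i =
        (s i₀.1)⁻¹ * ((u i₀)⁻¹ * u i) * s i₀.1 * ((s i₀.1)⁻¹ * s i.1) by simp only [t]; group]
      exact Submodule.smul_mem _ _ (rank_U_mem (t := fun l => (s i₀.1)⁻¹ * s l)
        (rank_nm' (hn _ (hJ2 i₀ hi₀))
          (Subgroup.mul_mem _ (Subgroup.inv_mem _ (hu i₀ hi₀)) (hu i hi'))) (hJ1 i hi'))
  · have h0 : 0 ≤ (q : ℝ) ^ 2 * τ := by positivity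
    have hr := hS W d τ S C hC hB hZ hf hN _ P q α s hP (by linarith) hs l hl
    rw [hm.1] at hr
    have h1 : rk (0 : End ℂ W) = 0 := by simp [rk]
    rw [h1, mul_zero, Nat.le_zero] at hr
    have h2 := redb_rk hr
    by_contra hne
    refine hm.2 _ (Finset.filter_subset _ P) ⟨l, Finset.mem_filter.2 ⟨hl, fun z _ => by simp⟩⟩
      (fun he => hne ?_) h2
    rw [← he] at hl'
    exact (Finset.mem_filter.1 hl').2 y (Finset.le_sup (f := id) hL hy)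

end Pool.Agent.Work.MP_11a08a_al.Lin
end

-- merged part: Pool.Agent.Work.MP_11a08a_al.Lin.KK
section
/-!
`inter`: `k'' L = L` if `k L = k' L = L`, else from `Std.inter`.  `gen`: for `y ∈ k L` with `Cen y N'`, `N' ∈ 𝓝 L 4`, and `t ∈ S` take `update id (str_cj t L) (str_cj t N')`; the other members of `C` commute with `t y t⁻¹ ∈ str_cj t L` (`cm`, `str_cen_sup`).  `nm`: `str_nm_sSup`.
`idx`: if `B` commutes with `A'` and `A ≤ A'` then `(A ⊔ B ⊔ Zs).relIndex (A' ⊔ B ⊔ Zs) ≤ (A ⊔ Zs).relIndex (A' ⊔ Zs)` (every element is `a' b z`).  By induction on a finset `X ⊆ C`, with `k X L = if L ∈ X then k L else L`, the relative index is at most `∏ L ∈ X, (k L ⊔ Zs).relIndex (L ⊔ Zs)` (`relIndex_mul_relIndex`); take `X` = the exceptional set and use `Std.idx`, `Zs.relIndex L ≤ Zs.relIndex S`.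
-/

set_option autoImplicit false

open Finset Module Pool.Agent.Work.MP_11a08a_al.Sol
open scoped commutatorElement

namespace Pool.Agent.Work.MP_11a08a_al.Lin

theorem kk_eq {G : Type} [Group G] {P A B : Subgroup G} (hA : A ≤ Subgroup.normalizer (B : Set G))
    (hB : B ≤ P) : P.relIndex (A ⊔ B) = P.relIndex A := by
  symm
  refine Nat.card_congr (Equiv.ofBijective
    (Subgroup.quotientSubgroupOfEmbeddingOfLE P (le_sup_left : A ≤ A ⊔ B))
    ⟨Function.Embedding.injective _, fun x => ?_⟩)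
  obtain ⟨⟨g, hg⟩, rfl⟩ := QuotientGroup.mk_surjective x
  have h1 : g ∈ ((A ⊔ B : Subgroup G) : Set G) := hg
  rw [Subgroup.coe_mul_of_left_le_normalizer_right A B hA] at h1
  obtain ⟨a, ha, b, hb, rfl⟩ := h1
  refine ⟨QuotientGroup.mk ⟨a, ha⟩, ?_⟩
  rw [Subgroup.quotientSubgroupOfEmbeddingOfLE_apply_mk, QuotientGroup.eq,
    Subgroup.mem_subgroupOf]
  simpa using hB hb

theorem kk_nm {G : Type} [Group G] {A B : Subgroup G} (h : ∀ x ∈ A, ∀ y ∈ B, x * y = y * x) :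
    A ≤ Subgroup.normalizer (B : Set G) := by
  rw [Subgroup.le_normalizer_iff]
  intro t ht y hy
  rw [h t ht y hy, mul_inv_cancel_right]
  exact hy

theorem kk_ne {G : Type} [Group G] {Z S A B : Subgroup G} [Z.Normal] (hS : Z.relIndex S ≠ 0)
    (hA : Z ≤ A) (hB : B ≤ S ⊔ Z) : A.relIndex B ≠ 0 := by
  intro h
  have h1 : Z.relIndex B = 0 := Subgroup.relIndex_eq_zero_of_le_left hA h
  have h2 : Z.relIndex (S ⊔ Z) = 0 := Subgroup.relIndex_eq_zero_of_le_right hB h1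
  rw [Subgroup.relIndex_sup_right] at h2
  exact hS h2

theorem kk_cen {G : Type} [Group G] (C : Finset (Subgroup G)) (k : Subgroup G → Subgroup G) (x : G)
    (h : ∀ L ∈ C, ∀ y ∈ k L, x * y = y * x) : ∀ y ∈ C.sup k, x * y = y * x := by
  have h1 : C.sup k ≤ Subgroup.centralizer {x} :=
    Finset.sup_le fun L hL y hy => Subgroup.mem_centralizer_iff.2 fun g hg => by
      rw [Set.mem_singleton_iff.1 hg]; exact h L hL y hy
  intro y hy
  exact Subgroup.mem_centralizer_iff.1 (h1 hy) x rfl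

theorem kk_cen' {G : Type} [Group G] {A B : Subgroup G} {x : G} (hA : ∀ y ∈ A, x * y = y * x)
    (hB : ∀ y ∈ B, x * y = y * x) : ∀ y ∈ A ⊔ B, x * y = y * x := by
  have h1 : A ⊔ B ≤ Subgroup.centralizer {x} :=
    sup_le (fun y hy => Subgroup.mem_centralizer_iff.2 fun g hg => by
      rw [Set.mem_singleton_iff.1 hg]; exact hA y hy)
      fun y hy => Subgroup.mem_centralizer_iff.2 fun g hg => by
        rw [Set.mem_singleton_iff.1 hg]; exact hB y hy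
  intro y hy
  exact Subgroup.mem_centralizer_iff.1 (h1 hy) x rfl

theorem kk_prod {G : Type} [Group G] {Z S : Subgroup G} (hZ : ∀ z ∈ Z, ∀ x, x * z = z * x)
    (hS : Z.relIndex S ≠ 0) (k : Subgroup G → Subgroup G) (C : Finset (Subgroup G))
    (hle : ∀ L ∈ C, L ≤ S) (hk : ∀ L ∈ C, k L ≤ L)
    (hcm : ∀ L ∈ C, ∀ L' ∈ C, L ≠ L' → ∀ x ∈ L, ∀ y ∈ L', x * y = y * x) :
    (C.sup k ⊔ Z).relIndex (C.sup id ⊔ Z) ≤ ∏ L ∈ C, (k L ⊔ Z).relIndex (L ⊔ Z) := by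
  classical
  have := str_normal hZ
  induction C using Finset.induction_on with
  | empty => simp
  | insert L X hL ih =>
    have ih' := ih (fun M hM => hle M (mem_insert_of_mem hM))
      (fun M hM => hk M (mem_insert_of_mem hM))
      fun M hM M' hM' => hcm M (mem_insert_of_mem hM) M' (mem_insert_of_mem hM')
    have hLm := mem_insert_self L X
    have hkX : X.sup k ≤ X.sup id :=
      Finset.sup_mono_fun fun M hM => hk M (mem_insert_of_mem hM)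
    have hXS : X.sup id ≤ S := Finset.sup_le fun M hM => hle M (mem_insert_of_mem hM)
    have hc : ∀ x ∈ L, ∀ y ∈ X.sup id ⊔ Z, x * y = y * x := fun x hx =>
      kk_cen' (kk_cen X id x fun M hM y hy =>
        hcm L hLm M (mem_insert_of_mem hM) (fun e => hL (e ▸ hM)) x hx y hy) fun z hz => hZ z hz x
    have hc' : ∀ x ∈ L, ∀ y ∈ X.sup k ⊔ Z, x * y = y * x := fun x hx y hy =>
      hc x hx y (sup_le_sup_right hkX Z hy)
    rw [Finset.sup_insert, Finset.sup_insert, Finset.prod_insert hL, id, sup_assoc, sup_assoc,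
      ← Subgroup.relIndex_mul_relIndex (k L ⊔ (X.sup k ⊔ Z)) (L ⊔ (X.sup k ⊔ Z))
        (L ⊔ (X.sup id ⊔ Z)) (sup_le_sup_right (hk L hLm) _)
        (sup_le_sup_left (sup_le_sup_right hkX Z) L)]
    refine Nat.mul_le_mul ?_ ?_
    · rw [kk_eq (kk_nm hc') le_sup_right]
      refine (Subgroup.relIndex_le_of_le_left (sup_le_sup_left le_sup_right (k L))
        (kk_ne hS le_sup_right ((hle L hLm).trans le_sup_left))).trans ?_
      exact Subgroup.relIndex_le_of_le_right le_sup_left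
        (kk_ne hS le_sup_right (sup_le_sup_right (hle L hLm) Z))
    · rw [sup_comm L (X.sup id ⊔ Z), kk_eq (kk_nm fun y hy x hx => (hc x hx y hy).symm) le_sup_left]
      exact (Subgroup.relIndex_le_of_le_left le_sup_right
        (kk_ne hS le_sup_right (sup_le_sup_right hXS Z))).trans ih'

theorem kk : StmtKK := by
  classical
  intro W _ _ n d S C 𝓝 hC hF hS hn
  have := str_normal (str_Zc (F := ℂ) (W := W))
  have htop : ∀ L ∈ C, ∀ s, L ∈ 𝓝 L s := fun L hL s =>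
    (hF.std L hL).mono 0 s (Nat.zero_le s) (hF.std L hL).top
  refine ⟨⟨id, fun L hL => htop L hL 0, by simp, rfl⟩, ?_, ?_, ?_, ?_, ?_, ?_, ?_⟩
  · rintro K ⟨k, -, h2, rfl⟩
    refine Finset.sup_congr rfl fun L hL => ?_
    by_contra h
    have h3 := Finset.card_eq_zero.1 (Nat.le_zero.1 h2)
    exact Finset.notMem_empty L (h3 ▸ Finset.mem_filter.2 ⟨hL, h⟩)
  · rintro s K ⟨k, h1, -, rfl⟩
    exact Finset.sup_mono_fun fun L hL => (hF.std L hL).le s _ (h1 L hL)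
  · rintro s t hst K ⟨k, h1, h2, rfl⟩
    exact ⟨k, fun L hL => (hF.std L hL).mono s t hst (h1 L hL), h2.trans hst, rfl⟩
  · rintro s hs K ⟨k, h1, h2, rfl⟩ K' ⟨k', h1', h2', rfl⟩
    have h3 : ∀ L, ∃ N, L ∈ C → N ∈ 𝓝 L (4 * s) ∧ N ≤ k L ⊓ k' L ∧ (k L = L → k' L = L → N = L) := by
      intro L
      by_cases hL : L ∈ C
      · by_cases h : k L = L ∧ k' L = L
        · exact ⟨L, fun _ => ⟨htop L hL _, by rw [h.1, h.2, inf_idem], fun _ _ => rfl⟩⟩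
        · obtain ⟨N, hN, hN'⟩ := (hF.std L hL).inter s hs _ (h1 L hL) _ (h1' L hL)
          exact ⟨N, fun _ => ⟨hN, hN', fun a b => absurd ⟨a, b⟩ h⟩⟩
      · exact ⟨L, fun h => absurd h hL⟩
    choose f hf using h3
    refine ⟨C.sup f, ⟨f, fun L hL => (hf L hL).1, ?_, rfl⟩, le_inf
      (Finset.sup_mono_fun fun L hL => (hf L hL).2.1.trans inf_le_left)
      (Finset.sup_mono_fun fun L hL => (hf L hL).2.1.trans inf_le_right)⟩
    have h4 : (C.filter fun L => f L ≠ L) ⊆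
        (C.filter fun L => k L ≠ L) ∪ C.filter fun L => k' L ≠ L := by
      intro L hL
      obtain ⟨hL, h⟩ := Finset.mem_filter.1 hL
      by_contra h5
      simp only [Finset.mem_union, Finset.mem_filter, hL, true_and, not_or, not_not] at h5
      exact h ((hf L hL).2.2 h5.1 h5.2)
    have h5 := (Finset.card_le_card h4).trans (Finset.card_union_le _ _)
    omega
  · rintro K ⟨k, h1, -, rfl⟩
    refine Finset.sup_le fun L hL => ((hF.std L hL).gen _ (h1 L hL)).trans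
      (Subgroup.closure_mono ?_)
    rintro y ⟨hy, N, hN, hyN⟩
    refine ⟨(Finset.le_sup (f := k) hL) hy, fun t ht => ?_⟩
    have hyL : t * y * t⁻¹ ∈ str_cj t L := by
      rw [str_mem_cj]
      simpa [mul_assoc] using (hF.std L hL).le n _ (h1 L hL) hy
    have hLt : str_cj t L ∈ C := (hF.nC t ht L hL).1
    refine ⟨_, ⟨Function.update id (str_cj t L) (str_cj t N), fun M hM => ?_, ?_, rfl⟩, ?_⟩
    · by_cases h : M = str_cj t L
      · rw [h, Function.update_self]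
        exact hF.inv t ht L hL 4 hn N hN
      · rw [Function.update_of_ne h]
        exact htop M hM 4
    · refine (Finset.card_le_card (t := {str_cj t L}) fun M hM => ?_).trans (by simp)
      rw [Finset.mem_singleton]
      by_contra h
      exact (Finset.mem_filter.1 hM).2 (by rw [Function.update_of_ne h, id])
    · refine kk_cen C _ _ fun M hM x hx => ?_
      by_cases h : M = str_cj t L
      · rw [h, Function.update_self, str_mem_cj] at hx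
        have h2 := hyN _ hx
        calc t * y * t⁻¹ * x = t * (y * (t⁻¹ * x * t)) * t⁻¹ := by group
          _ = t * (t⁻¹ * x * t * y) * t⁻¹ := by rw [h2]
          _ = x * (t * y * t⁻¹) := by group
      · rw [Function.update_of_ne h] at hx
        exact hC.cm _ hLt M hM (Ne.symm h) _ hyL x hx
  · intro t ht
    rw [Finset.sup_id_eq_sSup]
    exact str_nm_sSup (D := S) (fun u hu T hT => (hF.nC u hu T hT).1) ht
  · rintro s hs K ⟨k, h1, h2, rfl⟩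
    refine ⟨kk_ne hS le_sup_right (sup_le_sup_right (Finset.sup_le hF.le) _), ?_⟩
    have h3 := kk_prod str_Zc hS k C hF.le (fun L hL => (hF.std L hL).le s _ (h1 L hL)) hC.cm
    have h4 : ∏ L ∈ C, (k L ⊔ Zs ℂ W).relIndex (L ⊔ Zs ℂ W) =
        ∏ L ∈ C.filter fun L => k L ≠ L, (k L ⊔ Zs ℂ W).relIndex (L ⊔ Zs ℂ W) := by
      refine (Finset.prod_filter_of_ne (p := fun L => k L ≠ L) fun L _ h e => h ?_).symm
      rw [e, Subgroup.relIndex_self]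
    rw [h4] at h3
    refine (Nat.pow_le_pow_left h3 n).trans ?_
    rw [← Finset.prod_pow]
    refine (Finset.prod_le_pow_card _ _ ((Zs ℂ W).relIndex S ^ s) fun L hL => ?_).trans ?_
    · have hL := (Finset.mem_filter.1 hL).1
      exact ((hF.std L hL).idx s hs _ (h1 L hL)).trans
        (Nat.pow_le_pow_left (Subgroup.relIndex_le_of_le_right (hF.le L hL) hS) s)
    · rw [← pow_mul]
      exact Nat.pow_le_pow_right (Nat.pos_of_ne_zero hS) (Nat.mul_le_mul_left s h2)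

end Pool.Agent.Work.MP_11a08a_al.Lin
end

-- merged part: Pool.Agent.Work.MP_11a08a_al.Lin.NilpL
section
/-!
Copy `nilp_abs` and `nilp` of `Sol/Nilp` without the statement on powers; the hypothesis `hs` is needed only for `n ∈ gam N 2` (in `g2`: an element of `gam N 2` lies in `nilp_P N ch hn 3`, so commutes with `E` modulo `Z`).
-/

set_option autoImplicit false

open Finset Module Pool.Agent.Work.MP_11a08a_al.Sol
open scoped commutatorElement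

namespace Pool.Agent.Work.MP_11a08a_al.Lin

theorem nilpl_abs {G : Type} [Group G] (Z E N : Subgroup G) (ch : ℕ → Subgroup G)
    (h0 : ch 0 = Z) (h3 : ch 3 = E) (hZ : ∀ i, Z ≤ ch i) (hE : ∀ i, ch i ≤ E)
    (hm : ∀ i, ch i ≤ ch (i + 1)) (hc : ∀ e ∈ E, ∀ e' ∈ E, ⁅e, e'⁆ ∈ Z)
    (hl : ∀ n ∈ N, ∀ i, ∀ e ∈ ch (i + 1), ⁅n, e⁆ ∈ ch i)
    (hs : ∀ n ∈ N, n ∈ gam N 2 → (∀ e ∈ E, ⁅n, e⁆ ∈ Z) → n ∈ E) : gam N 5 ≤ Z := by
  have hn : ∀ n ∈ N, ∀ i, ∀ e ∈ ch i, n * e * n⁻¹ ∈ ch i := by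
    intro n hn i e he
    have q : n * e * n⁻¹ = ⁅n, e⁆ * e := by
      simp only [commutatorElement_def]; group
    rw [q]
    exact (ch i).mul_mem (hl n hn i e (hm i he)) he
  have P1 : N ≤ nilp_P N ch hn 1 := fun n h => ⟨h, hl n h⟩
  have Pc : ∀ k, ⁅nilp_P N ch hn k, N⁆ ≤ nilp_P N ch hn (k + 1) := by
    intro k
    rw [Subgroup.commutator_le]
    rintro a ⟨ha, h⟩ b hb
    refine ⟨?_, fun i e he => ?_⟩
    · rw [commutatorElement_def]
      exact N.mul_mem (N.mul_mem (N.mul_mem ha hb) (N.inv_mem ha)) (N.inv_mem hb)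
    · obtain ⟨e', he', hq⟩ : ∃ e' ∈ ch (i + (k + 1)), e' = (b * a)⁻¹ * e * (b * a)⁻¹⁻¹ :=
        ⟨_, hn _ (N.inv_mem (N.mul_mem hb ha)) _ e he, rfl⟩
      have q : ⁅⁅a, b⁆, e⁆ = ⁅a, ⁅b, e'⁆⁆ * ⁅⁅b, e'⁆, ⁅a, e'⁆⁆ * ⁅b, ⁅a, e'⁆⁆⁻¹ := by
        rw [hq]; simp only [commutatorElement_def]; group
      have x1 : ⁅b, e'⁆ ∈ ch (i + k) := hl b hb (i + k) e' he'
      have x2 : ⁅a, e'⁆ ∈ ch (i + 1) := h (i + 1) e' (by
        rwa [show i + 1 + k = i + (k + 1) by omega])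
      rw [q]
      exact (ch i).mul_mem ((ch i).mul_mem (h i _ x1) (hZ i (hc _ (hE _ x1) _ (hE _ x2))))
        ((ch i).inv_mem (hl b hb i _ x2))
  have Cc : ∀ i, ⁅ch (i + 1), N⁆ ≤ ch i := by
    intro i
    rw [Subgroup.commutator_le]
    intro e he n h
    rw [← commutatorElement_inv]
    exact (ch i).inv_mem (hl n h i e he)
  have g1 : gam N 1 ≤ nilp_P N ch hn 2 := (Subgroup.commutator_mono P1 le_rfl).trans (Pc 1)
  have g2 : gam N 2 ≤ ch 3 := by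
    intro a ha
    obtain ⟨k, h⟩ := (Subgroup.commutator_mono g1 le_rfl).trans (Pc 2) ha
    exact h3 ▸ hs a k ha fun e he => h0 ▸ h 0 e (by rwa [zero_add, h3])
  have g3 : gam N 3 ≤ ch 2 := (Subgroup.commutator_mono g2 le_rfl).trans (Cc 2)
  have g4 : gam N 4 ≤ ch 1 := (Subgroup.commutator_mono g3 le_rfl).trans (Cc 1)
  have g5 : gam N 5 ≤ ch 0 := (Subgroup.commutator_mono g4 le_rfl).trans (Cc 0)
  exact h0 ▸ g5

theorem nilpL : StmtNilpL := by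
  intro W _ _ d H S E N E₁ E₂ C hS hN hC hU h1 h2
  have hE : ∀ n ∈ N, ∀ e ∈ E, ⁅n, e⁆ ∈ E := by
    intro n hn e he
    have h := hS.nE n (Or.inr (hN hn))
    rw [commutatorElement_def]
    exact E.mul_mem ((Subgroup.mem_normalizer_iff.1 h e).1 he) (E.inv_mem he)
  refine nilpl_abs (Zs ℂ W) E N (nilp_ch (Zs ℂ W) E E₁ E₂) rfl rfl ?_ ?_ ?_ hS.heis.comm ?_ ?_
  · rintro (_ | _ | _ | i)
    · exact le_rfl
    · exact le_inf (le_inf hS.heis.le h2) h1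
    · exact le_inf hS.heis.le h2
    · exact hS.heis.le
  · rintro (_ | _ | _ | i)
    · exact hS.heis.le
    · exact inf_le_left.trans inf_le_left
    · exact inf_le_left
    · exact le_rfl
  · rintro (_ | _ | _ | i)
    · exact le_inf (le_inf hS.heis.le h2) h1
    · exact inf_le_left
    · exact inf_le_left
    · exact le_rfl
  · rintro n hn (_ | _ | _ | i) e he
    · exact (hU n hn).2.2 e he.1.1 he.2
    · exact ⟨⟨hE n hn e he.1, (hU n hn).1 e he.1⟩, (hU n hn).2.1 e he.1 he.2⟩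
    · exact ⟨hE n hn e he, (hU n hn).1 e he⟩
    · exact hE n hn e he
  · intro n hn k h
    exact hS.self n (hN hn) (fun e he => ⟨he, h e he⟩) (hC n k)

end Pool.Agent.Work.MP_11a08a_al.Lin
end

-- merged part: Pool.Agent.Work.MP_11a08a_al.Lin.GainC
section
/-!
`T₁ = T₁' + 2` with `T₁'` from `h1`.  `cen L = comap π (centralizer L)`.  `hGC` with `row i = range (γ i)` (the exceptional `L` lie in the union of the `supp`): gain, or `S₀` with `card S₀ ≤ s' = 2 t (T + 1)` and `N₁ = ⨅ L ∈ C \ S₀, cen L` of index at most `T`.  `hC` for `C₁`, `S₀ ∩ C₁`, `N₁` gives `N₂`.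
Suppose there is no gain.  For each `L ∈ C` there is `N L` of index at most `B' = B₂ + T + B₁` with `Cen (π g) L` on `gam (N L) 2`: `N₂`, or `cen L` (it contains all rows), or from `h1`.  `N` = the normal core of `N₁ ⊓ ⨅ L ∈ S₀, N L`, of index at most `(T * (B' + 1) ^ s') !` (see `Sol/Uni` or the proof of `cen`).
-/

set_option autoImplicit false

open Finset Module Pool.Agent.Work.MP_11a08a_al.Sol
open scoped commutatorElement

namespace Pool.Agent.Work.MP_11a08a_al.Lin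

theorem gainc_core {Q : Type} [Group Q] [Finite Q] (H : Subgroup Q) {T : ℕ} (h : H.index ≤ T) :
    H.normalCore.index ≤ T.factorial := by
  have h1 : H.normalCore.index ∣ H.index.factorial := by
    rw [Subgroup.normalCore_eq_ker, Subgroup.index_ker, Subgroup.index_eq_card, ← Nat.card_perm]
    exact Subgroup.card_subgroup_dvd_card (MulAction.toPermHom Q (Q ⧸ H)).range
  exact (Nat.le_of_dvd (Nat.factorial_pos _) h1).trans (Nat.factorial_le h)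

theorem gainC (hGC : StmtGC) (hC : StmtCen) (h1 : StmtGain1) (hB : StmtBasic) : StmtGainC := by
  classical
  intro s q₁ d t
  obtain ⟨T₁, h1⟩ := h1 s q₁
  refine ⟨T₁ + 2, fun T => ?_⟩
  obtain ⟨B₁, h1⟩ := h1 T
  obtain ⟨B₂, hC⟩ := hC d (2 * t * (T + 1)) T
  refine ⟨(T * (B₂ + T + B₁ + 1) ^ (2 * t * (T + 1))).factorial, ?_⟩
  intro W Γ κ _ _ _ _ _ S C C₁ 𝓝 π I ι _ γ hC₁ hcomp hπ hI ht hL
  let cen : Subgroup (End ℂ W)ˣ → Subgroup Γ := fun L =>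
    (Subgroup.centralizer (L : Set (End ℂ W)ˣ)).comap π
  have hcen : ∀ L g, g ∈ cen L ↔ Cen (π g) L := fun L g =>
    ⟨fun h y hy => (h y hy).symm, fun h y hy => (h y hy).symm⟩
  have hle : ∀ N : Subgroup Γ, gam N 2 ≤ N := fun N => (hB.2.2.1 Γ N 2).1
  have hmono : ∀ N N' : Subgroup Γ, N' ≤ N → gam N' 2 ≤ gam N 2 := fun N =>
    (hB.2.2.1 Γ N 2).2.2.1
  by_cases hg : ∃ (K : Subgroup Γ) (I' : Finset κ), I' ⊆ I ∧ T < K.index ∧
      I.card ≤ (T₁ + 2) * I'.card ∧ ∀ i ∈ I', Set.range (γ i) ⊆ K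
  · exact Or.inl hg
  right
  rcases hGC Γ (Subgroup (End ℂ W)ˣ) κ C cen I (fun i => Set.range (γ i)) t T (fun i hi => by
      refine le_trans (Finset.card_le_card (t := univ.biUnion fun x => supp C (π (γ i x)))
        fun L hL => ?_) (Finset.card_biUnion_le.trans (ht i hi))
      obtain ⟨h1, h2⟩ := Finset.mem_filter.1 hL
      obtain ⟨_, ⟨x, rfl⟩, h3⟩ := Set.not_subset.1 h2
      exact Finset.mem_biUnion.2 ⟨x, mem_univ _, Finset.mem_filter.2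
        ⟨h1, fun h => h3 ((hcen _ _).2 h)⟩⟩) hI with
    ⟨K, I', a1, a2, a3, a4⟩ | ⟨S₀, a1, a2, a3⟩
  · exact absurd ⟨K, I', a1, a2, a3.trans (Nat.mul_le_mul_right _ (Nat.le_add_left _ _)), a4⟩ hg
  set N₁ : Subgroup Γ := ⨅ L ∈ C \ S₀, cen L with hN₁
  have hN₁c : ∀ g ∈ N₁, ∀ L ∈ C, L ∉ S₀ → Cen (π g) L := fun g hg L hL hL' =>
    (hcen _ _).1 (Subgroup.mem_iInf.1 (Subgroup.mem_iInf.1 hg L) (Finset.mem_sdiff.2 ⟨hL, hL'⟩))
  obtain ⟨N₂, -, i2, u2⟩ := hC ℂ W Γ π C₁ (S₀ ∩ C₁) N₁ hcomp (fun g => (hπ g).2)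
    Finset.inter_subset_right ((Finset.card_le_card Finset.inter_subset_left).trans a2) a3
    fun g hg L hL hL' => hN₁c g hg L (hC₁ hL) fun h => hL' (Finset.mem_inter.2 ⟨h, hL⟩)
  have hN : ∀ L : S₀, ∃ N : Subgroup Γ, N.index ≤ B₂ + T + B₁ + 1 ∧
      ∀ g ∈ gam N 2, Cen (π g) L.1 := by
    rintro ⟨L, hLS⟩
    rcases hL L (a1 hLS) with h | h | ⟨h, h'⟩
    · refine ⟨N₂, by omega, fun g hg => ?_⟩
      have h2 := u2 g (hle _ hg)
      by_contra h3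
      have : L ∈ supp C₁ (π g) := Finset.mem_filter.2 ⟨h, h3⟩
      rw [h2] at this
      exact Finset.notMem_empty _ this
    · refine ⟨cen L, ?_, fun g hg => (hcen _ _).1 (hle _ hg)⟩
      by_contra h2
      refine hg ⟨cen L, I, Finset.Subset.refl _, by omega, ?_, ?_⟩
      · exact Nat.le_mul_of_pos_left _ (by omega)
      · rintro i hi _ ⟨x, rfl⟩
        exact (hcen _ _).2 (h i hi x)
    · rcases h1 W Γ κ S L (𝓝 L) π I (fun i => Set.range (γ i)) h (fun g => (hπ g).1) hI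
        (fun i hi => by
          obtain ⟨N, b1, b2⟩ := h' i hi
          refine ⟨N, b1, ?_⟩
          rintro _ ⟨x, rfl⟩
          exact b2 x) with ⟨K, I', b1, b2, b3, b4⟩ | ⟨N, b1, b2⟩
      · exact absurd
          ⟨K, I', b1, b2, b3.trans (Nat.mul_le_mul_right _ (Nat.le_add_right _ _)), b4⟩ hg
      · exact ⟨N, by omega, b2⟩
  choose NL n1 n2 using hN
  refine ⟨(N₁ ⊓ ⨅ L, NL L).normalCore, inferInstance, gainc_core _ ?_, fun g hg => ?_⟩
  · refine Subgroup.index_inf_le.trans (Nat.mul_le_mul a3 ?_)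
    refine ((Subgroup.index_iInf_le _).trans
      (Finset.prod_le_pow_card _ _ _ fun L _ => n1 L)).trans ?_
    rw [Finset.card_univ, Fintype.card_coe]
    exact Nat.pow_le_pow_right (by omega) a2
  · rw [supp, Finset.filter_eq_empty_iff]
    intro L hLC
    rw [not_not]
    by_cases hLS : L ∈ S₀
    · exact n2 ⟨L, hLS⟩ g (hmono _ _ ((Subgroup.normalCore_le _).trans
        (inf_le_right.trans (iInf_le _ _))) hg)
    · exact hN₁c g ((Subgroup.normalCore_le _).trans inf_le_left (hle _ hg)) L hLC hLS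

end Pool.Agent.Work.MP_11a08a_al.Lin
end
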