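import Mathlib
import Pool.Agent.Work.MP_11a08a_al.Lin.DefsG

-- merged part: Pool.Agent.Work.MP_11a08a_al.Lin.DefsO
section
-- merged part: Pool.Agent.Work.MP_11a08a_al.Lin.DefsZ
section
/-!
The definitions that occur in the final statement.
-/

set_option autoImplicit false

open scoped commutatorElement

namespace Pool.Agent.Work.MP_11a08a_al.Lin

/-- `O` is the general linear group of `V`, or the isometry group of a nondegenerate alternating
form, of a nondegenerate hermitian form, or of a quadratic form with nondegenerate polar form. -/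
def FullCl (K V : Type) [Field K] [AddCommGroup V] [Module K V] (O : Subgroup (V ≃ₗ[K] V)) : Prop :=
  O = ⊤ ∨
  (∃ B : V →ₗ[K] V →ₗ[K] K, (∀ v, B v v = 0) ∧ (∀ v, (∀ w, B v w = 0) → v = 0) ∧
    ∀ h, h ∈ O ↔ ∀ v w, B (h v) (h w) = B v w) ∨
  (∃ (σ : K →+* K) (B : V →ₗ[K] V →ₛₗ[σ] K), (∀ a, σ (σ a) = a) ∧ (∃ a, σ a ≠ a) ∧
    (∀ v w, B w v = σ (B v w)) ∧ (∀ v, (∀ w, B v w = 0) → v = 0) ∧
    ∀ h, h ∈ O ↔ ∀ v w, B (h v) (h w) = B v w) ∨
  ∃ f : QuadraticForm K V, (∀ v, (∀ w, f (v + w) = f v + f w) → v = 0) ∧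
    ∀ h, h ∈ O ↔ ∀ v, f (h v) = f v

/-- `Q` is a quotient by a central subgroup of the derived group of a full classical group over a
finite field. -/
def IsCl (Q : Type) [Group Q] : Prop :=
  ∃ (K V : Type) (_ : Field K) (_ : Finite K) (_ : AddCommGroup V) (_ : Module K V)
    (_ : FiniteDimensional K V) (O : Subgroup (V ≃ₗ[K] V)) (π : ↥⁅O, O⁆ →* Q), FullCl K V O ∧
    Function.Surjective π ∧ π.ker ≤ Subgroup.center ↥⁅O, O⁆

end Pool.Agent.Work.MP_11a08a_al.Lin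
end

-- merged part: Pool.Agent.Work.MP_11a08a_al.Lin.DefsO
section
/-!
Definitions and statements for automorphisms of alternating and classical groups.
-/

set_option autoImplicit false

open Module
open scoped commutatorElement

namespace Pool.Agent.Work.MP_11a08a_al.Lin

open Polar

/-- `R` is the graph of an automorphism of the quotient of `A` by its centre. -/
structure Crs {G : Type} [Group G] (A : Subgroup G) (R : Subgroup (G × G)) : Prop where
  le : R ≤ A.prod A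
  left : ∀ x ∈ A, ∃ y, (x, y) ∈ R
  right : ∀ y ∈ A, ∃ x, (x, y) ∈ R
  kl : ∀ x ∈ A, (x, 1) ∈ R ↔ x ∈ Subgroup.centralizer (A : Set G)
  kr : ∀ y ∈ A, (1, y) ∈ R ↔ y ∈ Subgroup.centralizer (A : Set G)

/-- The opposite relation. -/
def swp {G : Type} [Group G] (R : Subgroup (G × G)) : Subgroup (G × G) :=
  R.comap (MulEquiv.prodComm : G × G ≃* G × G).toMonoidHom

/-- The partners of the elements of `B`. -/
def par {G : Type} [Group G] (R : Subgroup (G × G)) (B : Subgroup G) : Subgroup G :=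
  (R ⊓ B.prod ⊤).map (MonoidHom.snd G G)

/-- Transport of perfect subgroups. -/
def trp {G : Type} [Group G] (R : Subgroup (G × G)) (B : Subgroup G) : Subgroup G :=
  ⁅par R B, par R B⁆

section

variable {K V : Type} [Field K] [AddCommGroup V] [Module K V]

/-- The fixed vectors. -/
def Fix (B : Subgroup (V ≃ₗ[K] V)) : Submodule K V where
  carrier := {w | ∀ y ∈ B, y w = w}
  add_mem' ha hb y hy := by rw [map_add, ha y hy, hb y hy]
  zero_mem' _ _ := map_zero _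
  smul_mem' c _ hw y hy := by rw [map_smul, hw y hy]

/-- The join of the elementary groups of small codimension that fix `T`. -/
def Polar.BR (p : Polar K V) (T : Submodule K V) : Subgroup (V ≃ₗ[K] V) :=
  ⨆ U ∈ {U | p.Nd U ∧ U ≤ p.perp T ∧ finrank K V ≤ finrank K U + 4}, p.A U

/-- An additive bijection that is semilinear on each sort and permutes the sorts. -/
def Polar.Semi (p : Polar K V) (h : V ≃+ V) : Prop :=
  ∃ (θ : Bool → K ≃+* K) (f : Equiv.Perm Bool), (∀ s v, h v ∈ p.P (f s) ↔ v ∈ p.P s) ∧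
    ∀ s, ∀ v ∈ p.P s, ∀ a : K, h (a • v) = θ s a • h v

end

/-- The fundamental theorem of projective geometry. -/
def StmtFT : Prop :=
  ∀ (K V V' : Type) [Field K] [AddCommGroup V] [Module K V] [AddCommGroup V'] [Module K V']
    [FiniteDimensional K V] (F : V → V'), 3 ≤ finrank K V →
    (∀ u v w, w ∈ Submodule.span K {u, v} ↔ F w ∈ Submodule.span K {F u, F v}) → F 0 = 0 →
    (∀ v', ∃ v, v' ∈ Submodule.span K {F v}) →
    ∃ (θ : K ≃+* K) (h : V ≃+ V'), (∀ (a : K) v, h (a • v) = θ a • h v) ∧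
      ∀ v, Submodule.span K {h v} = Submodule.span K {F v}

/-- Transport of perfect subgroups along a correspondence. -/
def StmtTrp : Prop :=
  ∀ (G : Type) [Group G] [Finite G] (A : Subgroup G) (R : Subgroup (G × G)), Crs A R →
    Crs A (swp R) ∧ swp (swp R) = R ∧ (∀ B B', B ≤ B' → trp R B ≤ trp R B') ∧
    (∀ x y, (x, y) ∈ R → ∀ B B' : Subgroup G, (∀ b, b ∈ B' ↔ x⁻¹ * b * x ∈ B) →
      ∀ b, b ∈ trp R B' ↔ y⁻¹ * b * y ∈ trp R B) ∧
    ∀ B ≤ A, ⁅B, B⁆ = B → trp R B ≤ A ∧ ⁅trp R B, trp R B⁆ = trp R B ∧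
      trp (swp R) (trp R B) = B ∧ (∀ x ∈ B, ∃ y ∈ trp R B, (x, y) ∈ R) ∧
      (∀ y ∈ trp R B, ∃ x ∈ B, (x, y) ∈ R) ∧
      Nat.card B ≤ Nat.card ↥(A ⊓ Subgroup.centralizer (A : Set G)) * Nat.card (trp R B) ∧
      (∀ B' ≤ A, ⁅B', B'⁆ = B' → (∀ x ∈ B, ∀ x' ∈ B', x * x' = x' * x) →
        ∀ y ∈ trp R B, ∀ y' ∈ trp R B', y * y' = y' * y) ∧
      (∀ M ≤ trp R B, (∀ a ∈ trp R B, ∀ x ∈ M, a * x * a⁻¹ ∈ M) → ∃ M' ≤ B,
        (∀ a ∈ B, ∀ x ∈ M', a * x * a⁻¹ ∈ M') ∧ (M' = B → M = trp R B) ∧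
        Nat.card B * Nat.card M ≤ Nat.card M' * Nat.card (trp R B) ∧
        ∀ x ∈ B, ∀ y ∈ M, (x, y) ∈ R → x ∈ M')

/-- Small centres and the absence of normal subgroups of small index. -/
def StmtNoS : Prop :=
  ∀ (K V : Type) [Field K] [Finite K] [AddCommGroup V] [Module K V] [FiniteDimensional K V]
    (p : Polar K V) (U : Submodule K V), p.Nd U → 40 ≤ p.rk U →
    Nat.card ↥(p.A U ⊓ Subgroup.centralizer (p.A U : Set (V ≃ₗ[K] V))) ≤ Nat.card K ^ 2 ∧
    (∀ (c : ℕ) (M : Subgroup (V ≃ₗ[K] V)), c + 7 ≤ p.rk U → M ≤ p.A U →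
      (∀ a ∈ p.A U, ∀ x ∈ M, a * x * a⁻¹ ∈ M) →
      Nat.card (p.A U) ≤ Nat.card K ^ c * Nat.card M → M = p.A U) ∧
    (∀ N : Subgroup (V ≃ₗ[K] V), N ≤ p.A U → ⁅N, N⁆ = N → N ≠ ⊥ → Ncl N (p.A U)) ∧
    p.A U ≠ ⊥ ∧ ∀ N : Subgroup (V ≃ₗ[K] V), N ≤ p.O → ⁅N, N⁆ = N →
      (∀ x ∈ N, ∀ a ∈ p.A U, x * a = a * x) → ∀ x ∈ N, ∀ v ∈ U, x v = v

/-- A perfect group with a large centraliser has small support. -/
def StmtSup : Prop :=
  ∀ (K V : Type) [Field K] [Finite K] [AddCommGroup V] [Module K V] [FiniteDimensional K V]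
    (p : Polar K V) (H : Subgroup (V ≃ₗ[K] V)) (j : ℕ), H ≤ p.O → ⁅H, H⁆ = H →
    4 * j + 13 ≤ p.rk ⊤ → Nat.card (p.A ⊤) * Nat.card K ^ (2 * j * (2 * j + 3)) <
      Nat.card K ^ (j * p.rk ⊤) *
        Nat.card ↥(p.A ⊤ ⊓ Subgroup.centralizer (H : Set (V ≃ₗ[K] V))) →
    ∃ T : Submodule K V, p.Gr T ∧ finrank K T ≤ 2 * j ∧ ∀ y ∈ H, ∀ v, y v - v ∈ T

/-- The image of a standard subgroup contains a standard subgroup. -/
def StmtK1 : Prop :=
  ∀ s : ℕ, ∃ s' k : ℕ, ∀ (K V : Type) [Field K] [Finite K] [AddCommGroup V] [Module K V]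
    [FiniteDimensional K V] (p : Polar K V) (R : Subgroup ((V ≃ₗ[K] V) × (V ≃ₗ[K] V))),
    k ≤ p.rk ⊤ → Crs (p.A ⊤) R → ∀ U, p.Nd U → finrank K V ≤ finrank K U + s →
    ∃ U', p.Nd U' ∧ finrank K V ≤ finrank K U' + s' ∧ p.A U' ≤ trp R (p.A U)

/-- The index determines the dimension of the fixed space. -/
def StmtK2 : Prop :=
  ∀ (K V : Type) [Field K] [Finite K] [AddCommGroup V] [Module K V] [FiniteDimensional K V]
    (p : Polar K V) (s : ℕ) (U : Submodule K V) (B : Subgroup (V ≃ₗ[K] V)), p.Nd U →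
    finrank K V ≤ finrank K U + s → 10 * s + 50 ≤ p.rk ⊤ → B ≤ p.O → Ncl (p.A U) B →
    p.Gr (Fix B) ∧ Nat.card K ^ (finrank K (Fix B) * p.rk ⊤) * Nat.card B ≤
      Nat.card K ^ (1024 + s * (2 * s + 3)) * Nat.card (p.A ⊤) ∧
    Nat.card (p.A ⊤) ≤
      Nat.card K ^ (finrank K (Fix B) * p.rk ⊤ + (1024 + s * (2 * s + 3))) * Nat.card B

/-- The groups attached to points and lines. -/
def StmtBR : Prop :=
  ∀ (K V : Type) [Field K] [Finite K] [AddCommGroup V] [Module K V] [FiniteDimensional K V]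
    (p : Polar K V), 100 ≤ p.rk ⊤ → ∀ T : Submodule K V, p.Gr T → finrank K T ≤ 2 →
    p.BR T ≤ p.A ⊤ ∧ ⁅p.BR T, p.BR T⁆ = p.BR T ∧ Fix (p.BR T) = T ∧
    (∃ U, p.Nd U ∧ finrank K V ≤ finrank K U + 4 ∧ Ncl (p.A U) (p.BR T)) ∧
    (∀ a ∈ p.O, ∀ b, b ∈ p.BR (T.map (a : V →ₗ[K] V)) ↔ a⁻¹ * b * a ∈ p.BR T) ∧
    (∀ (s : ℕ) (U : Submodule K V) (B : Subgroup (V ≃ₗ[K] V)), p.Nd U →
      finrank K V ≤ finrank K U + s → 2 * s + 100 ≤ p.rk ⊤ → B ≤ p.O → Ncl (p.A U) B →
      T ≤ Fix B → B ≤ p.BR T) ∧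
    p.perp T ≤ Submodule.span K {u | ∃ b ∈ p.A ⊤, (∀ t ∈ T, b t = t) ∧ ∃ v, u = b v - v}

/-- The correspondence permutes the groups attached to points and lines. -/
def StmtK3 : Prop :=
  ∃ k : ℕ, ∀ (K V : Type) [Field K] [Finite K] [AddCommGroup V] [Module K V]
    [FiniteDimensional K V] (p : Polar K V) (R : Subgroup ((V ≃ₗ[K] V) × (V ≃ₗ[K] V))),
    k ≤ p.rk ⊤ → Crs (p.A ⊤) R → ∀ T : Submodule K V, p.Gr T → finrank K T ≤ 2 →
    ∃ T' : Submodule K V, p.Gr T' ∧ finrank K T' = finrank K T ∧ trp R (p.BR T) = p.BR T'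

/-- The correspondence comes from a map that is semilinear on each sort. -/
def StmtK4 : Prop :=
  ∃ k : ℕ, ∀ (K V : Type) [Field K] [Finite K] [AddCommGroup V] [Module K V]
    [FiniteDimensional K V] (p : Polar K V) (R : Subgroup ((V ≃ₗ[K] V) × (V ≃ₗ[K] V))),
    k ≤ p.rk ⊤ → Crs (p.A ⊤) R → ∃ h : V ≃+ V, p.Semi h ∧ ∀ x y, (x, y) ∈ R → ∀ s, ∀ v ∈ p.P s,
      y (h v) ∈ Submodule.span K {h (x v)}

/-- The correspondence is the conjugation by this map. -/
def StmtK5 : Prop :=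
  ∀ (K V : Type) [Field K] [Finite K] [AddCommGroup V] [Module K V] [FiniteDimensional K V]
    (p : Polar K V) (R : Subgroup ((V ≃ₗ[K] V) × (V ≃ₗ[K] V))) (h : V ≃+ V), 40 ≤ p.rk ⊤ →
    Crs (p.A ⊤) R → p.Semi h →
    (∀ x y, (x, y) ∈ R → ∀ s, ∀ v ∈ p.P s, y (h v) ∈ Submodule.span K {h (x v)}) →
    (∀ x ∈ p.A ⊤, ∃ y, (x, y) ∈ R ∧ ∀ v, y (h v) = h (x v)) ∧
    ∀ y ∈ p.A ⊤, ∃ x, (x, y) ∈ R ∧ ∀ v, y (h v) = h (x v)

/-- Automorphisms of a finite field preserve the form parameter. -/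
def StmtLam : Prop :=
  ∀ (K V : Type) [Field K] [Finite K] [AddCommGroup V] [Module K V] (p : Polar K V)
    (θ : K ≃+* K), (∀ a, θ (p.σ a) = p.σ (θ a)) ∧ ∀ t, θ t ∈ p.Λ ↔ t ∈ p.Λ

/-- A map that normalises the elementary group is a semilinear similitude up to scalars. -/
def StmtK6 : Prop :=
  ∀ (K V : Type) [Field K] [Finite K] [AddCommGroup V] [Module K V] [FiniteDimensional K V]
    (p : Polar K V) (h : V ≃+ V), 100 ≤ p.rk ⊤ → p.Semi h →
    (∀ x ∈ p.A ⊤, ∃ y ∈ p.A ⊤, ∀ v, y (h v) = h (x v)) →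
    (∀ y ∈ p.A ⊤, ∃ x ∈ p.A ⊤, ∀ v, y (h v) = h (x v)) →
    ∃ h' : V ≃+ V, p.SemiSim h' ∧
      ∀ x ∈ p.O, ∀ y ∈ p.O, (∀ v, y (h' v) = h' (x v)) ↔ ∀ v, y (h v) = h (x v)

/-- Automorphisms of classical groups of large rank. -/
def StmtAutC : Prop :=
  ∃ k : ℕ, ∀ (K V Q : Type) [Field K] [Finite K] [AddCommGroup V] [Module K V]
    [FiniteDimensional K V] [Group Q] (p : Polar K V) (π : p.D →* Q), ClS π → k ≤ p.rk ⊤ →
    ∀ α : MulAut Q, α ∈ p.aut π

/-- Automorphisms of alternating groups of large degree preserve three-cycles. -/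
def StmtAut3 : Prop :=
  ∀ n : ℕ, 30 ≤ n → ∀ (α : MulAut (alternatingGroup (Fin n))) (x : alternatingGroup (Fin n)),
    x.1.IsThreeCycle → (α x).1.IsThreeCycle

/-- Automorphisms of alternating groups of large degree. -/
def StmtAutA : Prop :=
  ∀ n : ℕ, 30 ≤ n → ∀ α : MulAut (alternatingGroup (Fin n)),
    α ∈ altAut (MulEquiv.refl (alternatingGroup (Fin n)))

/-- Full classical groups are isometry groups of polar spaces. -/
def StmtCls : Prop :=
  ∀ (K V : Type) [Field K] [AddCommGroup V] [Module K V] [FiniteDimensional K V]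
    (O : Subgroup (V ≃ₗ[K] V)), FullCl K V O →
    ∃ (V' : Type) (_ : AddCommGroup V') (_ : Module K V') (_ : FiniteDimensional K V')
      (p : Polar K V'), Nonempty (p.D ≃* ↥⁅O, O⁆)

/-- Known simple groups have known automorphisms. -/
def StmtKn : Prop :=
  ∀ m : ℕ, ∃ m' : ℕ, ∀ (Q : Type) [Group Q], IsSimpleGroup Q → (∃ x y : Q, x * y ≠ y * x) →
    (LinG m Q ∨ (∃ n : ℕ, Nonempty (alternatingGroup (Fin n) ≃* Q)) ∨ IsCl Q) →
    ∀ 𝒜 : Set (MulAut Q), Known m' Q 𝒜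

end Pool.Agent.Work.MP_11a08a_al.Lin
end

-- merged part: Pool.Agent.Work.MP_11a08a_al.Lin.NoS
section
/-!
Elements of `O` are `SemiSim` (`hS`).  (1) a central `x ∈ A U` agrees on `U` with a scalar map `z` (`hC`) and is the identity on `perp U`, so `x ↦ z` is injective.  (2) by `hQ` else `card M ≤ q ^ 2`, but `card (A U) ≥ q ^ (rk U - 4)` by `hW` with `j = 1` (a nonzero vector of `U ⊓ P true`).  (3), (4) from `hQ`.
(5) each `x ∈ N` acts on `U ⊓ P s` as a scalar, so commutators fix `U` pointwise.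
-/

set_option autoImplicit false

open Module
open scoped commutatorElement

namespace Pool.Agent.Work.MP_11a08a_al.Lin

theorem noS (hB : StmtPB) (hE : StmtPE) (hS : StmtSS) (hW : StmtWT) (hC : StmtSC) (hQ : StmtQS) :
    StmtNoS := by
  intro K V _ _ _ _ _ p U hU hr
  have : Finite V := Module.finite_of_finite K
  have : Finite (V ≃ₗ[K] V) := Finite.of_injective _ DFunLike.coe_injective
  have : Nontrivial ↥(U ⊓ p.P true) := Module.nontrivial_of_finrank_pos (R := K)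
    (lt_of_lt_of_le (by norm_num) hr)
  obtain ⟨⟨v, hv⟩, hv0⟩ := exists_ne (0 : ↥(U ⊓ p.P true))
  have hv1 : v ≠ 0 := fun e => hv0 (Subtype.ext e)
  have : Nontrivial V := ⟨v, 0, hv1⟩
  have hA := ((hE K V p).2.2.2.2.2.2.2.2.2.1 U).1
  obtain ⟨q1, q2, -, q4⟩ := hQ K V p U hU hr
  have key : ∀ x ∈ p.O, (∀ a ∈ p.A U, x * a = a * x) → ∃ ζ z, p.Scal ζ z ∧ ∀ v ∈ U, x v = z v := by
    intro x hx hc
    obtain ⟨ζ, z, h1, -, -, h2⟩ := ((hC K V p).2 U hU (by omega)).2 _ ((hS K V p).1 x hx)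
      fun e he v => (LinearEquiv.congr_fun (hc e (Subgroup.subset_closure he)) v).symm
    exact ⟨ζ, z, h1, h2⟩
  have h1 : Nat.card ↥(p.A U ⊓ Subgroup.centralizer (p.A U : Set (V ≃ₗ[K] V))) ≤
      Nat.card K ^ 2 := by
    refine le_trans ?_ (hC K V p).1
    choose ζ z hz hz' using
      fun x : ↥(p.A U ⊓ Subgroup.centralizer (p.A U : Set (V ≃ₗ[K] V))) =>
        key x.1 (hA x.2.1).1 fun a ha => (x.2.2 a ha).symm
    rw [← Nat.card_coe_set_eq]
    refine Nat.card_le_card_of_injective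
      (fun x => (⟨z x, ζ x, hz x⟩ : {z | ∃ ζ, p.Scal ζ z})) fun x y e => ?_
    have e' : z x = z y := congrArg Subtype.val e
    refine Subtype.ext (LinearEquiv.ext fun w => ?_)
    obtain ⟨a, ha, b, hb, rfl⟩ := Submodule.mem_sup.1
      (((hB K V p).2.2.2.2.2.1 U hU).1.sup_eq_top.ge (Submodule.mem_top (x := w)))
    rw [map_add, map_add, hz' x a ha, hz' y a ha, e', (hA x.2.1).2 b hb, (hA y.2.1).2 b hb]
  refine ⟨h1, fun c M hc hM hn hcard => (q4 M hM hn).resolve_left fun hz => ?_,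
    fun N hN hp h0 => ⟨hN, fun M h2 h3 h4 => (q4 M h3 h4).resolve_left fun hz => h0 ?_⟩,
    fun h0 => ?_, fun N hN hp hc => ?_⟩
  · have h2 := (Subgroup.card_le_of_le (le_inf hM hz)).trans h1
    have h3 := (hW K V p U hU 1 (fun _ => true) (fun _ => v) (by omega) ⟨fun _ => hv.2, by
      intro a ha i
      rw [Fin.sum_univ_one] at ha
      have h4 : a 0 • v ∈ U ⊓ p.perp U := ⟨U.smul_mem _ hv.1, ha⟩
      rw [hU.2, Submodule.mem_bot, smul_eq_zero] at h4
      rw [Subsingleton.elim i 0]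
      exact h4.resolve_right hv1⟩).2
    have h5 : Set.ncard {f : Fin 1 → V | ∃ e ∈ p.A U, ∀ i, f i = e v} ≤ Nat.card (p.A U) := by
      refine le_trans (Set.ncard_le_ncard (t := (fun (e : V ≃ₗ[K] V) (_ : Fin 1) => e v) '' p.A U)
        (fun f ⟨e, he, hf⟩ => ⟨e, he, (funext hf).symm⟩)) ((Set.ncard_image_le (Set.toFinite _)).trans_eq ?_)
      exact (Nat.card_coe_set_eq _).symm
    have h6 := h3.trans (h5.trans (hcard.trans (Nat.mul_le_mul_left _ h2)))
    rw [← pow_add, Nat.pow_le_pow_iff_right Finite.one_lt_card] at h6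
    omega
  · rw [← hp, Subgroup.commutator_eq_bot_iff_le_centralizer]
    exact h2.trans (hz.trans (Subgroup.centralizer_le hN))
  · obtain ⟨s, x, w, a1, a2, a3⟩ := q2
    obtain ⟨e, he⟩ := (hE K V p).1 U s x w a1
    have h2 : e ∈ p.A U := Subgroup.subset_closure ⟨s, x, w, a1, he⟩
    rw [h0, Subgroup.mem_bot] at h2
    exact q1 s x w e a1 he a2 a3 (h2 ▸ one_mem _)
  · have h2 : ∀ x ∈ N, ∀ s, ∃ a : K, ∀ w ∈ U ⊓ p.P s, x w = a • w := fun x hx s => by
      obtain ⟨ζ, z, h3, h4⟩ := key x (hN hx) (hc x hx)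
      exact ⟨ζ s, fun w hw => (h4 w hw.1).trans (h3 s w hw.2)⟩
    have h3 : ∀ x ∈ N, ∀ y ∈ N, ∀ s, ∀ w ∈ U ⊓ p.P s, x (y w) = y (x w) := fun x hx y hy s w hw => by
      obtain ⟨a, ha⟩ := h2 x hx s
      obtain ⟨b, hb⟩ := h2 y hy s
      rw [ha w hw, hb w hw, map_smul, map_smul, ha w hw, hb w hw, smul_comm]
    have h4 : ⁅N, N⁆ ≤ fixingSubgroup (V ≃ₗ[K] V) (U : Set V) := by
      refine Subgroup.commutator_le.2 fun x hx y hy => (mem_fixingSubgroup_iff _).2 fun w hw => ?_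
      obtain ⟨a, ha, b, hb, rfl⟩ := Submodule.mem_sup.1 (hU.1 hw)
      change x (y (x⁻¹ (y⁻¹ (a + b)))) = a + b
      rw [map_add, map_add, h3 _ (N.inv_mem hx) _ (N.inv_mem hy) _ a ha,
        h3 _ (N.inv_mem hx) _ (N.inv_mem hy) _ b hb]
      simp
    exact fun x hx => (mem_fixingSubgroup_iff _).1 (h4 (hp.ge hx))

end Pool.Agent.Work.MP_11a08a_al.Lin
end

-- merged part: Pool.Agent.Work.MP_11a08a_al.Lin.BR
section
/-!
`U₁ ≤ perp T` of codimension at most 4 by item 7 of `hB`.  Two nondegenerate subspaces of codimensions `s, s'` contain one of codimension at most `2 (s + s')`; for `U₃ ≤ U₂` of rank at least 40, `Ncl (A U₃) (A U₂)` by `hN`, `hQ`.  This gives `Ncl (A U₁) (BR T)`.  A join of perfect groups is perfect.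
Conjugation: the last item of `hS` for `a` and `a⁻¹`.  Maximality: `B` normalises `BR T`, `M = B ⊓ BR T` contains `A U₃` for `U₃ ≤ U ⊓ U₁`, so `A U`.  `Fix (BR T)` is graded, contains `T`, lies in `perp U₁` (`hW`, `j = 1`) and is invariant under the `e ∈ A ⊤` that fix `T` pointwise.
If a homogeneous `v ∈ Fix (BR T)` is not in `T`, let `R` be a homogeneous spanning finset of `T`, `u` singular, orthogonal to `R` and `v`, outside `bad ⊤ s (R ∪ {v} ∪ basis of perp U₁)`; `hWS` for `⊤` gives `e` with `e v = v + u ∉ perp U₁`.  Last item: `perp X ≤ Fix (BR T) = T` for the span `X`, and `perp (perp X) = X`.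
-/

set_option autoImplicit false

open Module
open scoped commutatorElement

namespace Pool.Agent.Work.MP_11a08a_al.Lin

open Polar

section

variable {K V : Type} [Field K] [AddCommGroup V] [Module K V] {p : Polar K V}

theorem br_le {T U : Submodule K V} (hU : p.Nd U) (h1 : U ≤ p.perp T)
    (h2 : finrank K V ≤ finrank K U + 4) : p.A U ≤ p.BR T :=
  le_iSup₂_of_le (f := fun U (_ : U ∈ {U | p.Nd U ∧ U ≤ p.perp T ∧
    finrank K V ≤ finrank K U + 4}) => p.A U) U ⟨hU, h1, h2⟩ le_rfl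

theorem br_top (hE : StmtPE) (T : Submodule K V) : p.BR T ≤ p.A ⊤ :=
  iSup₂_le fun U _ => (hE K V p).2.2.2.2.2.2.2.2.1 U ⊤ le_top

theorem br_AO (hE : StmtPE) {U : Submodule K V} {e : V ≃ₗ[K] V} (he : e ∈ p.A U) : e ∈ p.O :=
  (((hE K V p).2.2.2.2.2.2.2.2.2.1 U).1 he).1

theorem br_fix (hE : StmtPE) (T : Submodule K V) : T ≤ Fix (p.BR T) := by
  intro t ht
  have : p.BR T ≤ MulAction.stabilizer (V ≃ₗ[K] V) t := iSup₂_le fun U hU y hy =>
    (((hE K V p).2.2.2.2.2.2.2.2.2.1 U).1 hy).2 t fun u hu => p.β_comm.1 (hU.2.1 hu t ht)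
  exact fun y hy => this hy

theorem br_gr {B : Subgroup (V ≃ₗ[K] V)} (hB : B ≤ p.O) : p.Gr (Fix B) := by
  intro w hw
  rcases p.sorts with h | ⟨h, -⟩
  · exact Submodule.mem_sup_left ⟨hw, by rw [h]; trivial⟩
  obtain ⟨a, ha, b, hb, rfl⟩ := Submodule.mem_sup.1 (h.sup_eq_top.symm ▸ Submodule.mem_top (x := w))
  have key : ∀ y ∈ B, y a = a ∧ y b = b := by
    intro y hy
    have e : y a - a = b - y b := by
      have := hw y hy
      rw [map_add] at this
      exact sub_eq_sub_iff_add_eq_add.2 (this.trans (add_comm _ _))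
    have h1 : y a - a ∈ p.P true := sub_mem (((hB hy).2.2 _ _).2 ha) ha
    have h2 : y a - a ∈ p.P false := e ▸ sub_mem hb (((hB hy).2.2 _ _).2 hb)
    have h3 : y a - a = 0 := Submodule.disjoint_def.1 h.disjoint _ h1 h2
    exact ⟨sub_eq_zero.1 h3, (sub_eq_zero.1 (e.symm.trans h3)).symm⟩
  exact Submodule.add_mem_sup ⟨fun y hy => (key y hy).1, ha⟩ ⟨fun y hy => (key y hy).2, hb⟩

theorem br_hom {X Y : Submodule K V} (hX : p.Gr X) (h : ∀ s, ∀ v ∈ p.P s, v ∈ X → v ∈ Y) :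
    X ≤ Y :=
  hX.trans (sup_le (fun v hv => h _ v hv.2 hv.1) fun v hv => h _ v hv.2 hv.1)

theorem br_iff {T : Submodule K V} {b : V ≃ₗ[K] V} (h : ∀ t ∈ T, b t = t) (v : V) :
    b v ∈ T ↔ v ∈ T :=
  ⟨fun hv => b.injective (h _ hv) ▸ hv, fun hv => (h v hv).symm ▸ hv⟩

theorem br_map (a : V ≃ₗ[K] V) (U : Submodule K V) (v : V) :
    a v ∈ U.map (a : V →ₗ[K] V) ↔ v ∈ U :=
  ⟨fun ⟨_, hu, e⟩ => a.injective e ▸ hu, fun h => ⟨v, h, rfl⟩⟩

variable [FiniteDimensional K V]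

theorem br_rk (hB : StmtPB) {U : Submodule K V} (hU : p.Nd U) {s : ℕ}
    (h : finrank K V ≤ finrank K U + s) : p.rk ⊤ ≤ p.rk U + s := by
  have := ((hB K V p).2.2.2.2.2.1 U hU).2.2.2.2.1
  omega

theorem br_inter (hB : StmtPB) {U U' : Submodule K V} (hU : p.Nd U) (hU' : p.Nd U') {s s' : ℕ}
    (h : finrank K V ≤ finrank K U + s) (h' : finrank K V ≤ finrank K U' + s') :
    ∃ X ≤ U ⊓ U', p.Nd X ∧ finrank K V ≤ finrank K X + 2 * (s + s') := by
  obtain ⟨X, h1, h2, h3⟩ := (hB K V p).2.2.2.2.2.2.1 _ (((hB K V p).2.2.1 U U' hU.1).2 hU'.1).1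
  have h4 := Submodule.finrank_sup_add_finrank_inf_eq U U'
  have h5 := Submodule.finrank_le (U ⊔ U')
  exact ⟨X, h1, h2, by omega⟩

theorem br_span (hB : StmtPB) {T : Submodule K V} (hT : p.Gr T) : ∃ R : Finset V,
    R.card ≤ finrank K T ∧ (∀ r ∈ R, r ∈ T ∧ ∃ s, r ∈ p.P s) ∧
      T ≤ Submodule.span K (R : Set V) := by
  classical
  obtain ⟨j, s, v, h1, h2, h3, h4⟩ := (hB K V p).2.2.2.2.2.2.2.1 ⊥ T bot_le hT bot_le
  refine ⟨Finset.univ.image v, Finset.card_image_le.trans ?_, fun r hr => ?_, ?_⟩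
  · rw [Finset.card_univ, Fintype.card_fin]
    omega
  · obtain ⟨i, -, rfl⟩ := Finset.mem_image.1 hr
    exact ⟨h2 i, _, h1.1 i⟩
  · simpa using h3

theorem br_perp_top (hB : StmtPB) : p.perp ⊤ = ⊥ := by
  simpa using (hB K V p).2.2.2.2.1.2

theorem br_conj (hS : StmtSS) (hr : 0 < p.rk ⊤) {a : V ≃ₗ[K] V} (ha : a ∈ p.O)
    {T T' : Submodule K V} (h : ∀ v, a v ∈ T' ↔ v ∈ T) : ∀ b ∈ p.BR T, a * b * a⁻¹ ∈ p.BR T' := by
  have : Nontrivial V := nontrivial_of_finrank_pos (R := K) (hr.trans_le (Submodule.finrank_le _))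
  have key : p.BR T ≤ (p.BR T').comap (MulAut.conj a).toMonoidHom := iSup₂_le fun U hU e he => by
    obtain ⟨h1, h2, -, h3⟩ := ((hS K V p).2.2 _ ((hS K V p).1 a ha)).2.2.2.2 U
      (U.map (a : V →ₗ[K] V)) (br_map a U)
    obtain ⟨e', he', h4⟩ := h3 e he
    have e1 : a * e * a⁻¹ = e' := by
      rw [mul_inv_eq_iff_eq_mul]
      exact LinearEquiv.ext fun v => (h4 v).symm
    change a * e * a⁻¹ ∈ p.BR T'
    rw [e1]
    refine br_le (h2 hU.1) ?_ (h1 ▸ hU.2.2) he'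
    rintro _ ⟨u, hu, rfl⟩ t ht
    obtain ⟨t, rfl⟩ := a.surjective t
    exact (ha.1 u t).trans (hU.2.1 hu t ((h t).1 ht))
  exact fun b hb => key hb

variable [Finite K]

theorem br_up (hE : StmtPE) (hQ : StmtQS) (hN : StmtNoS) {X U : Submodule K V} (hX : p.Nd X)
    (hU : p.Nd U) (h : X ≤ U) (rX : 40 ≤ p.rk X) (rU : 40 ≤ p.rk U) {M : Subgroup (V ≃ₗ[K] V)}
    (h1 : p.A X ≤ M) (h2 : ∀ a ∈ p.A U, ∀ x ∈ M, a * x * a⁻¹ ∈ M) : p.A U ≤ M := by
  have h3 := (hE K V p).2.2.2.2.2.2.2.2.1 X U h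
  have h4 := (hN K V p U hU rU).2.2.1 _ h3 (hQ K V p X hX rX).2.2.1 (hN K V p X hX rX).2.2.2.1
  rw [← h4.2 (M ⊓ p.A U) (le_inf h1 h3) inf_le_right fun b hb x hx =>
    ⟨h2 b hb x hx.1, (p.A U).mul_mem ((p.A U).mul_mem hb hx.2) ((p.A U).inv_mem hb)⟩]
  exact inf_le_left

theorem br_fixA (hE : StmtPE) (hW : StmtWT) {U : Submodule K V} (hU : p.Nd U) (r : 15 ≤ p.rk U) :
    Fix (p.A U) ≤ p.perp U := by
  refine br_hom (br_gr fun _ => br_AO hE) fun s v hv hf => ?_
  by_contra hn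
  have h1 := (hW K V p U hU 1 (fun _ => s) (fun _ => v) r ⟨fun _ => hv, fun a ha i => by
    by_contra h0
    rw [Fin.sum_univ_one, Subsingleton.elim 0 i] at ha
    exact hn ((Submodule.smul_mem_iff _ h0).1 ha)⟩).2
  have h2 : Set.ncard {f : Fin 1 → V | ∃ e ∈ p.A U, ∀ i, f i = e v} ≤ 1 := by
    refine (Set.ncard_le_ncard ?_ (Set.finite_singleton _)).trans
      (Set.ncard_singleton fun _ : Fin 1 => v).le
    rintro f ⟨e, he, h⟩
    exact funext fun i => (h i).trans (hf e he)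
  exact absurd (h1.trans h2) (not_le.2 (Nat.one_lt_pow (by omega) Finite.one_lt_card))

theorem br_fix' (hB : StmtPB) (hE : StmtPE) (hS : StmtSS) (hR : StmtRL) (hWS : StmtWS)
    (hW : StmtWT) (hr : 100 ≤ p.rk ⊤) {T U : Submodule K V} (hT : p.Gr T) (h2 : finrank K T ≤ 2)
    (hU : p.Nd U) (h3 : U ≤ p.perp T) (h4 : finrank K V ≤ finrank K U + 4) :
    Fix (p.BR T) ≤ T := by
  classical
  have rU := br_rk hB hU h4
  have hF : Fix (p.BR T) ≤ p.perp U := fun w hw =>
    br_fixA hE hW hU (by omega) fun y hy => hw y (br_le hU h3 h4 hy)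
  refine br_hom (br_gr fun _ hy => br_AO hE (br_top hE T hy)) fun s v hv hf => ?_
  by_contra hn
  have nT : p.Nd ⊤ := (hB K V p).2.2.2.2.1
  obtain ⟨R, c1, m1, s1⟩ := br_span hB hT
  obtain ⟨R', c2, -, s2⟩ := br_span hB ((hB K V p).2.2.2.2.2.1 U hU).2.1.1
  have c3 := ((hB K V p).2.1 U).1
  have c4 := Finset.card_insert_le v R
  have c5 := Finset.card_union_le (insert v R) R'
  obtain ⟨x, hx, x1, x2, x3⟩ := ((hR K V p ⊤ nT).1 s 3 (insert v R) (insert v R ∪ R') (by omega)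
    (by omega) (by omega)).2 0 fun a _ => by simp
  have b1 : ∀ S : Finset V, S ⊆ insert v R ∪ R' → p.bad ⊤ s S ≤ p.bad ⊤ s (insert v R ∪ R') :=
    fun S h => sup_le_sup_right (Submodule.span_mono (Finset.coe_subset.2 h)) _
  have b2 : v ∈ p.bad ⊤ s (insert v R ∪ R') :=
    Submodule.mem_sup_left (Submodule.subset_span (by simp))
  have xv : p.β v x = 0 := p.β_comm.1 (x2 v (Finset.mem_insert_self _ _))
  obtain ⟨e, he, e1, e2⟩ := hWS K V p ⊤ nT s R v (v + x) (by omega) hv (add_mem hv hx.2)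
    (by
      have := p.Λ.add_mem (p.g_add v x) x1
      rw [xv] at this
      convert this using 1
      ring) trivial
    (fun r hr => by rw [β_add_left, x2 r (Finset.mem_insert_of_mem hr), Pi.zero_apply, add_zero])
    (fun h => by
      have := ((hB K V p).2.2.2.2.2.1 ⊤ nT).2.2.2.2.2.2.2 s R (fun t ht => (m1 t ht).2) v hv h
      rw [br_perp_top hB, sup_bot_eq] at this
      exact hn (Submodule.span_le.2 (fun r hr => (m1 r hr).1) this))
    (fun h => x3 (by
      have := sub_mem (b1 R ((Finset.subset_insert _ _).trans Finset.subset_union_left) h) b2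
      rwa [add_sub_cancel_left] at this))
  have e3 : ∀ t ∈ T, e⁻¹ t = t := fun t ht => e.symm_apply_eq.2
    (LinearMap.eqOn_span' (f := (e : V →ₗ[K] V)) (g := LinearMap.id) e1 (s1 ht)).symm
  have e4 : e v ∈ Fix (p.BR T) := fun y hy => by
    have := hf _ (br_conj hS (by omega) (inv_mem (br_AO hE he)) (br_iff e3) y hy)
    rw [inv_inv] at this
    exact e.symm_apply_eq.1 this
  have e5 := sub_mem (hF e4) (hF hf)
  rw [e2, add_sub_cancel_left] at e5
  exact x3 (b1 R' Finset.subset_union_right (Submodule.mem_sup_left (s2 e5)))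

end

theorem br (hB : StmtPB) (hE : StmtPE) (hS : StmtSS) (hR : StmtRL) (hWS : StmtWS) (hW : StmtWT)
    (hQ : StmtQS) (hN : StmtNoS) : StmtBR := by
  intro K V _ _ _ _ _ p hr T hT h2
  obtain ⟨U₁, h3, hU, h5⟩ := (hB K V p).2.2.2.2.2.2.1 _ ((hB K V p).2.2.1 T T hT).1
  have c1 := ((hB K V p).2.1 T).1
  have h4 : finrank K V ≤ finrank K U₁ + 4 := by omega
  have hA := (hE K V p).2.2.2.2.2.2.2.2.1
  have hF : Fix (p.BR T) = T :=
    le_antisymm (br_fix' hB hE hS hR hWS hW hr hT h2 hU h3 h4) (br_fix hE T)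
  have key : ∀ (s : ℕ) (U : Submodule K V) (M : Subgroup (V ≃ₗ[K] V)), p.Nd U →
      finrank K V ≤ finrank K U + s → 2 * s + 50 ≤ p.rk ⊤ → p.A U ⊓ p.A U₁ ≤ M →
      (∀ a ∈ p.A U, ∀ x ∈ M, a * x * a⁻¹ ∈ M) → p.A U ≤ M := by
    intro s U M k1 k2 k3 k4 k5
    obtain ⟨X, x1, x2, x3⟩ := br_inter hB k1 hU k2 h4
    have r1 := br_rk hB x2 x3
    have r2 := br_rk hB k1 k2
    exact br_up hE hQ hN x2 k1 (x1.trans inf_le_left) (by omega) (by omega)
      ((le_inf (hA _ _ (x1.trans inf_le_left)) (hA _ _ (x1.trans inf_le_right))).trans k4) k5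
  refine ⟨br_top hE T, le_antisymm (Subgroup.commutator_le_self _) (iSup₂_le fun U k => ?_), hF,
    ⟨U₁, hU, h4, br_le hU h3 h4, fun M k1 k2 k3 => le_antisymm k2 (iSup₂_le fun U k => ?_)⟩,
    fun a ha b => ⟨fun hb => ?_, fun hb => ?_⟩, fun s U B k1 k2 k3 k4 k5 k6 => ?_, ?_⟩
  · have r1 := br_rk hB k.1 k.2.2
    rw [← (hQ K V p U k.1 (by omega)).2.2.1]
    exact Subgroup.commutator_mono (br_le k.1 k.2.1 k.2.2) (br_le k.1 k.2.1 k.2.2)
  · exact key 4 U M k.1 k.2.2 (by omega) (inf_le_right.trans k1)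
      fun a ha => k3 a (br_le k.1 k.2.1 k.2.2 ha)
  · have := br_conj hS (by omega) (inv_mem ha) (T' := T)
      (fun v => (Submodule.mem_map_equiv (p := T) (e := a)).symm) b hb
    rwa [inv_inv] at this
  · have := br_conj hS (by omega) ha (T' := T.map (a : V →ₗ[K] V))
      (br_map a T) _ hb
    simpa [mul_assoc] using this
  · have n1 : ∀ b ∈ B, ∀ x ∈ B ⊓ p.BR T, b * x * b⁻¹ ∈ B ⊓ p.BR T := fun b hb x hx =>
      ⟨B.mul_mem (B.mul_mem hb hx.1) (B.inv_mem hb),
        br_conj hS (by omega) (k4 hb) (br_iff fun t ht => k6 ht b hb) x hx.2⟩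
    rw [← k5.2 (B ⊓ p.BR T) (key s U _ k1 k2 (by omega) (inf_le_inf k5.1 (br_le hU h3 h4))
      fun a ha => n1 a (k5.1 ha)) inf_le_left n1]
    exact inf_le_right
  · rw [← ((hB K V p).2.1 (Submodule.span K _)).2]
    intro v hv w hw
    refine hv w (hF.le fun y hy => ?_)
    have y1 := inv_mem hy
    have : y w - w ∈ p.perp ⊤ := fun u _ => by
      have e1 := hw (y⁻¹ u - u) (Submodule.subset_span
        ⟨y⁻¹, br_top hE T y1, fun t ht => br_fix hE T ht _ y1, u, rfl⟩)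
      have e2 := (br_AO hE (br_top hE T y1)).1 (y w) u
      rw [show y⁻¹ (y w) = w from y.symm_apply_apply w] at e2
      rw [Polar.β_sub_left, ← e2, ← Polar.β_sub_right, e1]
    rw [br_perp_top hB] at this
    exact sub_eq_zero.1 this

end Pool.Agent.Work.MP_11a08a_al.Lin
end

-- merged part: Pool.Agent.Work.MP_11a08a_al.Lin.K4
section
/-!
For graded `T` of dimension at most 2 let `Φ T` be given by `h3`; it is `Fix (trp R (BR T))`.  `T₁ ≤ T₂ ↔ BR T₂ ≤ BR T₁ ↔ Φ T₁ ≤ Φ T₂`; `Φ` is onto (use `swp R`); `Φ (T.map x) = (Φ T).map y` for `(x, y) ∈ R` (`hT`, `hBR`).  For homogeneous `v` choose a homogeneous `F v` with `span {F v} = Φ (span {v})`, `F 0 = 0`.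
For `u, v` of one sort `span {F u, F v} = Φ (span {u, v})`.  If all `P s = ⊤` apply `hF` to `F : V → V`.  In the split case independent `u, v ∈ P s` have `F u, F v` of one sort (`F (u + v)` is a third homogeneous point of the span), so `F` maps `P s` into some `P (f s)`; as `Φ` is onto and both sorts are nonzero `f` is a bijection and `F` is onto the points of `P (f s)`.
Apply `hF` to the two restrictions and glue with `Submodule.prodEquivOfIsCompl`.
-/

set_option autoImplicit false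

open Module
open scoped commutatorElement

namespace Pool.Agent.Work.MP_11a08a_al.Lin

open Polar Submodule

section

variable {K V : Type} [Field K] [AddCommGroup V] [Module K V]

theorem k4_gr_le (p : Polar K V) {T : Submodule K V} {s : Bool} (h : T ≤ p.P s) : p.Gr T := by
  cases s
  · exact le_sup_of_le_right (le_inf le_rfl h)
  · exact le_sup_of_le_left (le_inf le_rfl h)

theorem k4_gr_one (p : Polar K V) {s : Bool} {v : V} (h : v ∈ p.P s) : p.Gr (span K {v}) :=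
  k4_gr_le p ((span_singleton_le_iff_mem _ _).2 h)

theorem k4_gr_sup (p : Polar K V) {T T' : Submodule K V} (h : p.Gr T) (h' : p.Gr T') :
    p.Gr (T ⊔ T') := by
  refine sup_le (h.trans (sup_le_sup ?_ ?_)) (h'.trans (sup_le_sup ?_ ?_))
  · exact inf_le_inf_right _ le_sup_left
  · exact inf_le_inf_right _ le_sup_left
  · exact inf_le_inf_right _ le_sup_right
  · exact inf_le_inf_right _ le_sup_right

theorem k4_gr_two (p : Polar K V) {s t : Bool} {u v : V} (hu : u ∈ p.P s) (hv : v ∈ p.P t) :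
    p.Gr (span K {u, v}) := by
  rw [span_insert]
  exact k4_gr_sup p (k4_gr_one p hu) (k4_gr_one p hv)

theorem k4_rk_one (v : V) : finrank K (span K {v} : Submodule K V) ≤ 1 := by
  have h := finrank_span_finset_le_card (R := K) ({v} : Finset V)
  rw [Finset.card_singleton, Set.finrank, Finset.coe_singleton] at h
  exact h

theorem k4_rk_two (u v : V) : finrank K (span K {u, v} : Submodule K V) ≤ 2 := by
  classical
  have h := finrank_span_finset_le_card (R := K) ({u, v} : Finset V)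
  rw [Set.finrank, Finset.coe_pair] at h
  exact h.trans Finset.card_le_two

theorem k4_gr_map (p : Polar K V) {T : Submodule K V} (h : p.Gr T) {x : V ≃ₗ[K] V}
    (hx : x ∈ p.O) : p.Gr (T.map (x : V →ₗ[K] V)) := by
  rintro _ ⟨v, hv, rfl⟩
  obtain ⟨a, ha, b, hb, rfl⟩ := mem_sup.1 (h hv)
  rw [map_add]
  exact add_mem_sup ⟨mem_map_of_mem ha.1, (hx.2.2 _ _).2 ha.2⟩
    ⟨mem_map_of_mem hb.1, (hx.2.2 _ _).2 hb.2⟩

theorem k4_line [FiniteDimensional K V] (p : Polar K V) {T : Submodule K V} (h : p.Gr T)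
    (h1 : finrank K T ≤ 1) : ∃ w, (∃ s, w ∈ p.P s) ∧ span K {w} = T := by
  have key : ∀ s, T ⊓ p.P s ≠ ⊥ → ∃ w, (∃ s, w ∈ p.P s) ∧ span K {w} = T := by
    intro s hs
    obtain ⟨w, hw, w0⟩ := (Submodule.ne_bot_iff _).1 hs
    refine ⟨w, ⟨s, hw.2⟩, eq_of_le_of_finrank_le ((span_singleton_le_iff_mem _ _).2 hw.1) ?_⟩
    rw [finrank_span_singleton w0]
    exact h1
  by_cases h2 : T ⊓ p.P true = ⊥
  · by_cases h3 : T ⊓ p.P false = ⊥
    · refine ⟨0, ⟨true, zero_mem _⟩, ?_⟩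
      have h4 : T ≤ T ⊓ p.P true ⊔ T ⊓ p.P false := h
      rw [h2, h3, sup_idem, le_bot_iff] at h4
      rw [h4, span_zero_singleton]
    · exact key _ h3
  · exact key _ h2

theorem k4_br_anti (p : Polar K V) {T T' : Submodule K V} (h : T ≤ T') : p.BR T' ≤ p.BR T := by
  refine iSup₂_le fun U hU => le_iSup₂_of_le U ⟨hU.1, hU.2.1.trans ?_, hU.2.2⟩ le_rfl
  exact fun v hv u hu => hv u (h hu)

theorem k4_fix_anti {B B' : Subgroup (V ≃ₗ[K] V)} (h : B ≤ B') : Fix B' ≤ Fix B :=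
  fun _ hw y hy => hw y (h hy)

theorem k4_sub (W : Submodule K V) (u v w : W) :
    w ∈ span K {u, v} ↔ (w : V) ∈ span K {(u : V), (v : V)} := by
  rw [mem_span_pair, mem_span_pair]
  constructor
  · rintro ⟨a, b, rfl⟩
    exact ⟨a, b, rfl⟩
  · rintro ⟨a, b, h⟩
    exact ⟨a, b, Subtype.ext h⟩

theorem k4_sub1 (W : Submodule K V) (u w : W) :
    w ∈ span K {u} ↔ (w : V) ∈ span K {(u : V)} := by
  have := k4_sub W u u w
  rwa [Set.pair_eq_singleton, Set.pair_eq_singleton] at this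

theorem k4_sub2 (W : Submodule K V) {u w : W} (h : span K {u} = span K {w}) :
    span K {(u : V)} = span K {(w : V)} := by
  refine le_antisymm ((span_singleton_le_iff_mem _ _).2 ?_) ((span_singleton_le_iff_mem _ _).2 ?_)
  · rw [← k4_sub1, ← h]
    exact mem_span_singleton_self _
  · rw [← k4_sub1, h]
    exact mem_span_singleton_self _

/-- The split case. -/
theorem k4_split (hF : StmtFT) [FiniteDimensional K V] (P : Bool → Submodule K V)
    (hc : IsCompl (P true) (P false)) (h3 : ∀ s, 3 ≤ finrank K (P s)) (F : V → V)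
    (ha : ∀ v, (∃ s, v ∈ P s) → ∃ s, F v ∈ P s)
    (hb : ∀ u v w, (∃ s, u ∈ P s) → (∃ s, v ∈ P s) → (∃ s, w ∈ P s) →
      (w ∈ span K {u, v} ↔ F w ∈ span K {F u, F v})) (h0 : F 0 = 0)
    (hd : ∀ v', (∃ s, v' ∈ P s) → ∃ v, (∃ s, v ∈ P s) ∧ span K {F v} = span K {v'}) :
    ∃ (g : V ≃+ V) (θ : Bool → K ≃+* K) (f : Equiv.Perm Bool),
      (∀ s v, g v ∈ P (f s) ↔ v ∈ P s) ∧ (∀ s, ∀ v ∈ P s, ∀ a : K, g (a • v) = θ s a • g v) ∧
      ∀ s, ∀ v ∈ P s, span K {g v} = span K {F v} := by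
  have hcs : ∀ s t, s ≠ t → IsCompl (P s) (P t) := by
    intro s t h
    cases s <;> cases t
    · exact absurd rfl h
    · exact hc.symm
    · exact hc
    · exact absurd rfl h
  have dis : ∀ s t v, s ≠ t → v ∈ P s → v ∈ P t → v = 0 := fun s t v h h1 h2 =>
    (Submodule.disjoint_def.1 (hcs s t h).disjoint) v h1 h2
  have nz : ∀ s, ∃ v ∈ P s, v ≠ 0 := by
    intro s
    refine (Submodule.ne_bot_iff _).1 fun h => ?_
    have := h3 s
    rw [h, finrank_bot] at this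
    omega
  have one : ∀ u w, (∃ s, u ∈ P s) → (∃ s, w ∈ P s) →
      (w ∈ span K {u} ↔ F w ∈ span K {F u}) := by
    intro u w hu hw
    have := hb u u w hu hu hw
    rwa [Set.pair_eq_singleton, Set.pair_eq_singleton] at this
  have same : ∀ s t, ∀ u ∈ P s, ∀ v ∈ P s, u ≠ 0 → F u ∈ P t → F v ∈ P t := by
    intro s t u hu v hv u0 hFu
    by_cases huv : v ∈ span K {u}
    · exact (span_singleton_le_iff_mem _ _).2 hFu ((one u v ⟨s, hu⟩ ⟨s, hv⟩).1 huv)
    obtain ⟨t', hFv⟩ := ha v ⟨s, hv⟩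
    by_cases e : t' = t
    · exact e ▸ hFv
    exfalso
    have hw : u + v ∈ P s := add_mem hu hv
    obtain ⟨a, b, hab⟩ := mem_span_pair.1 ((hb u v (u + v) ⟨s, hu⟩ ⟨s, hv⟩ ⟨s, hw⟩).1
      (mem_span_pair.2 ⟨1, 1, by rw [one_smul, one_smul]⟩))
    obtain ⟨r, hr⟩ := ha (u + v) ⟨s, hw⟩
    by_cases e' : r = t
    · subst e'
      have h1 : b • F v ∈ P r := by
        have := sub_mem hr (smul_mem _ a hFu)
        rwa [← hab, add_sub_cancel_left] at this
      rw [dis _ _ _ e (smul_mem _ b hFv) h1, add_zero] at hab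
      have h2 := (one u (u + v) ⟨s, hu⟩ ⟨s, hw⟩).2 (mem_span_singleton.2 ⟨a, hab⟩)
      have h4 := sub_mem h2 (mem_span_singleton_self (R := K) u)
      rw [add_sub_cancel_left] at h4
      exact huv h4
    · have e'' : r = t' := by
        exact (by decide : ∀ a b c : Bool, ¬c = b → ¬a = b → a = c) r t t' e e'
      subst e''
      have h1 : a • F u ∈ P r := by
        have := sub_mem hr (smul_mem _ b hFv)
        rwa [← hab, add_sub_cancel_right] at this
      rw [dis _ _ _ e h1 (smul_mem _ a hFu), zero_add] at hab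
      have h2 := (one v (u + v) ⟨s, hv⟩ ⟨s, hw⟩).2 (mem_span_singleton.2 ⟨b, hab⟩)
      have h4 := sub_mem h2 (mem_span_singleton_self (R := K) v)
      rw [add_sub_cancel_right] at h4
      obtain ⟨c, rfl⟩ := mem_span_singleton.1 h4
      have c0 : c ≠ 0 := fun h => u0 (by rw [h, zero_smul])
      exact huv (mem_span_singleton.2 ⟨c⁻¹, by rw [smul_smul, inv_mul_cancel₀ c0, one_smul]⟩)
  have hf : ∀ s, ∃ t, ∀ v ∈ P s, F v ∈ P t := by
    intro s
    obtain ⟨u, hu, u0⟩ := nz s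
    obtain ⟨t, ht⟩ := ha u ⟨s, hu⟩
    exact ⟨t, fun v hv => same s t u hu v hv u0 ht⟩
  choose f hf using hf
  have ont : ∀ t, ∀ v' ∈ P t, v' ≠ 0 → ∃ s, f s = t ∧ ∃ v ∈ P s, v' ∈ span K {F v} := by
    intro t v' hv' v0
    obtain ⟨v, ⟨s, hv⟩, e⟩ := hd v' ⟨t, hv'⟩
    have h1 : v' ∈ span K {F v} := e ▸ mem_span_singleton_self v'
    refine ⟨s, ?_, v, hv, h1⟩
    by_contra hn
    exact v0 (dis _ _ _ hn ((span_singleton_le_iff_mem _ _).2 (hf s v hv) h1) hv')
  have sur : Function.Surjective f := by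
    intro t
    obtain ⟨u, hu, u0⟩ := nz t
    obtain ⟨s, hs, -⟩ := ont t u hu u0
    exact ⟨s, hs⟩
  have bij : Function.Bijective f := Finite.surjective_iff_bijective.1 sur
  have main : ∀ s, ∃ (θ : K ≃+* K) (h : P s ≃+ P (f s)), (∀ (a : K) v, h (a • v) = θ a • h v) ∧
      ∀ v, span K {(h v : V)} = span K {F v} := by
    intro s
    obtain ⟨θ, h, h1, h2⟩ := hF K (P s) (P (f s)) (fun v => ⟨F v, hf s v v.2⟩) (h3 s)
      (fun u v w => by
        rw [k4_sub, k4_sub]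
        exact hb u v w ⟨s, u.2⟩ ⟨s, v.2⟩ ⟨s, w.2⟩) (Subtype.ext h0) (fun v' => by
        by_cases v0 : (v' : V) = 0
        · refine ⟨0, ?_⟩
          rw [show v' = 0 from Subtype.ext v0]
          exact zero_mem _
        · obtain ⟨s', hs, v, hv, e⟩ := ont _ v' v'.2 v0
          obtain rfl := bij.1 hs
          exact ⟨⟨v, hv⟩, (k4_sub1 _ _ _).2 e⟩)
    exact ⟨θ, h, h1, fun v => k4_sub2 _ (h2 v)⟩
  choose θ h h1 h2 using main
  have hc' : IsCompl (P (f true)) (P (f false)) := hcs _ _ fun e => by simpa using bij.1 e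
  let g : V ≃+ V := ((prodEquivOfIsCompl _ _ hc).symm.toAddEquiv.trans
    ((h true).prodCongr (h false))).trans (prodEquivOfIsCompl _ _ hc').toAddEquiv
  have hg : ∀ s (v : P s), g v = h s v := by
    intro s v
    cases s
    · change (prodEquivOfIsCompl _ _ hc') (((h true).prodCongr (h false))
        ((prodEquivOfIsCompl _ _ hc).symm v)) = _
      rw [prodEquivOfIsCompl_symm_apply_right, coe_prodEquivOfIsCompl']
      change ((h true 0 : P (f true)) : V) + h false v = _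
      rw [map_zero, ZeroMemClass.coe_zero, zero_add]
    · change (prodEquivOfIsCompl _ _ hc') (((h true).prodCongr (h false))
        ((prodEquivOfIsCompl _ _ hc).symm v)) = _
      rw [prodEquivOfIsCompl_symm_apply_left, coe_prodEquivOfIsCompl']
      change ((h true v : P (f true)) : V) + h false 0 = _
      rw [map_zero, ZeroMemClass.coe_zero, add_zero]
  have hm : ∀ s, ∀ v ∈ P s, g v ∈ P (f s) := by
    intro s v hv
    rw [hg s ⟨v, hv⟩]
    exact (h s ⟨v, hv⟩).2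
  refine ⟨g, θ, Equiv.ofBijective f bij, fun s v => ⟨fun hv => ?_, hm s v⟩, fun s v hv a => ?_,
    fun s v hv => ?_⟩
  · have hn : s ≠ !s := by cases s <;> simp
    have hv' : g v ∈ P (f s) := hv
    have ht : v ∈ P s ⊔ P (!s) := by
      rw [(hcs s _ hn).sup_eq_top]
      exact mem_top
    obtain ⟨a, ha', b, hb', rfl⟩ := mem_sup.1 ht
    have h4 := sub_mem hv' (hm s a ha')
    rw [map_add, add_sub_cancel_left] at h4
    have h5 := dis _ _ _ (fun e => hn (bij.1 e)) h4 (hm _ b hb')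
    rw [(map_eq_zero_iff g g.injective).1 h5, add_zero]
    exact ha'
  · have h4 := hg s (a • ⟨v, hv⟩)
    rw [h1] at h4
    rw [hg s ⟨v, hv⟩]
    exact h4
  · rw [hg s ⟨v, hv⟩]
    exact h2 s ⟨v, hv⟩

/-- From a bijection of the graded subspaces of dimension at most two to a map of vectors. -/
theorem k4_vec [FiniteDimensional K V] (p : Polar K V) (Φ : Submodule K V → Submodule K V)
    (h1 : ∀ T, p.Gr T → finrank K T ≤ 2 → p.Gr (Φ T) ∧ finrank K (Φ T) = finrank K T)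
    (h2 : ∀ T T', p.Gr T → finrank K T ≤ 2 → p.Gr T' → finrank K T' ≤ 2 →
      (T ≤ T' ↔ Φ T ≤ Φ T'))
    (h3 : ∀ T', p.Gr T' → finrank K T' ≤ 2 → ∃ T, p.Gr T ∧ finrank K T ≤ 2 ∧ Φ T = T') :
    ∃ F : V → V, (∀ v, (∃ s, v ∈ p.P s) → (∃ s, F v ∈ p.P s) ∧ span K {F v} = Φ (span K {v})) ∧
      (∀ u v w, (∃ s, u ∈ p.P s) → (∃ s, v ∈ p.P s) → (∃ s, w ∈ p.P s) →
        (w ∈ span K {u, v} ↔ F w ∈ span K {F u, F v})) ∧ F 0 = 0 ∧
      ∀ v', (∃ s, v' ∈ p.P s) → ∃ v, (∃ s, v ∈ p.P s) ∧ span K {F v} = span K {v'} := by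
  have r1 : ∀ v : V, finrank K (span K {v} : Submodule K V) ≤ 2 := fun v =>
    (k4_rk_one v).trans one_le_two
  have ex : ∀ v, ∃ w, (∃ s, v ∈ p.P s) → (∃ s, w ∈ p.P s) ∧ span K {w} = Φ (span K {v}) := by
    intro v
    by_cases hv : ∃ s, v ∈ p.P s
    · obtain ⟨s, hs⟩ := hv
      obtain ⟨a, b⟩ := h1 _ (k4_gr_one p hs) (r1 v)
      obtain ⟨w, hw⟩ := k4_line p a (b.le.trans (k4_rk_one v))
      exact ⟨w, fun _ => hw⟩
    · exact ⟨0, fun h => absurd h hv⟩
  choose F hF using ex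
  refine ⟨F, hF, ?_, ?_, ?_⟩
  · rintro u v w ⟨s, hu⟩ ⟨t, hv⟩ ⟨r, hw⟩
    obtain ⟨⟨s', hu'⟩, eu⟩ := hF u ⟨s, hu⟩
    obtain ⟨⟨t', hv'⟩, ev⟩ := hF v ⟨t, hv⟩
    have e : span K {F u, F v} = Φ (span K {u, v}) := by
      apply le_antisymm
      · rw [span_insert, eu, ev]
        refine sup_le ?_ ?_
        · exact (h2 _ _ (k4_gr_one p hu) (r1 u) (k4_gr_two p hu hv) (k4_rk_two u v)).1
            (span_mono (by simp))
        · exact (h2 _ _ (k4_gr_one p hv) (r1 v) (k4_gr_two p hu hv) (k4_rk_two u v)).1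
            (span_mono (by simp))
      · obtain ⟨T, a, b, c⟩ := h3 _ (k4_gr_two p hu' hv') (k4_rk_two _ _)
        rw [← c]
        refine (h2 _ _ (k4_gr_two p hu hv) (k4_rk_two u v) a b).1 ?_
        rw [span_insert]
        refine sup_le ?_ ?_
        · refine (h2 _ _ (k4_gr_one p hu) (r1 u) a b).2 ?_
          rw [c, ← eu]
          exact span_mono (by simp)
        · refine (h2 _ _ (k4_gr_one p hv) (r1 v) a b).2 ?_
          rw [c, ← ev]
          exact span_mono (by simp)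
    rw [← span_singleton_le_iff_mem, ← span_singleton_le_iff_mem, e, (hF w ⟨r, hw⟩).2]
    exact h2 _ _ (k4_gr_one p hw) (r1 w) (k4_gr_two p hu hv) (k4_rk_two u v)
  · have z : (0 : V) ∈ p.P true := zero_mem _
    have a := (h1 _ (k4_gr_one p z) (r1 0)).2
    rw [← (hF 0 ⟨true, z⟩).2, span_zero_singleton, finrank_bot, finrank_eq_zero,
      span_singleton_eq_bot] at a
    exact a
  · rintro v' ⟨s, hs⟩
    obtain ⟨T, a, b, c⟩ := h3 _ (k4_gr_one p hs) (r1 v')
    have d := (h1 T a b).2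
    rw [c] at d
    obtain ⟨v, hv, rfl⟩ := k4_line p a (d.ge.trans (k4_rk_one v'))
    exact ⟨v, hv, (hF v hv).2.trans c⟩

end

theorem k4 (hB : StmtPB) (hE : StmtPE) (hT : StmtTrp) (hBR : StmtBR) (h3 : StmtK3) (hF : StmtFT) :
    StmtK4 := by
  obtain ⟨k, h3⟩ := h3
  refine ⟨max k 100, fun K V _ _ _ _ _ p R hk hR => ?_⟩
  have hk1 : k ≤ p.rk ⊤ := (le_max_left _ _).trans hk
  have hk2 : 100 ≤ p.rk ⊤ := (le_max_right _ _).trans hk
  have : Finite V := Module.finite_of_finite K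
  have : Finite (V ≃ₗ[K] V) := DFunLike.finite _
  obtain ⟨tS, tSS, tM, tC, tP⟩ := hT _ _ R hR
  obtain ⟨-, -, sM, -, sP⟩ := hT _ _ _ tS
  have br := hBR K V p hk2
  have hO : ∀ x ∈ p.A ⊤, x ∈ p.O := fun x hx =>
    (((hE K V p).2.2.2.2.2.2.2.2.2.1 ⊤).1 hx).1
  have ord : ∀ T T' : Submodule K V, p.Gr T → finrank K T ≤ 2 → p.Gr T' → finrank K T' ≤ 2 →
      (T ≤ T' ↔ p.BR T' ≤ p.BR T) := by
    intro T T' a b c d
    refine ⟨k4_br_anti p, fun h => ?_⟩
    have := k4_fix_anti h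
    rwa [(br T a b).2.2.1, (br T' c d).2.2.1] at this
  have q : ∀ T : Submodule K V, p.Gr T → finrank K T ≤ 2 → p.Gr (Fix (trp R (p.BR T))) ∧
      finrank K (Fix (trp R (p.BR T))) = finrank K T ∧
      trp R (p.BR T) = p.BR (Fix (trp R (p.BR T))) := by
    intro T a b
    obtain ⟨T', c, d, e⟩ := h3 K V p R hk1 hR T a b
    rw [e, (br T' c (d.le.trans b)).2.2.1]
    exact ⟨c, d, rfl⟩
  obtain ⟨F, f1, f2, f3, f4⟩ := k4_vec p (fun T => Fix (trp R (p.BR T)))
    (fun T a b => ⟨(q T a b).1, (q T a b).2.1⟩) (fun T T' a b c d => by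
      rw [ord T T' a b c d, ord _ _ (q T a b).1 ((q T a b).2.1.le.trans b) (q T' c d).1
        ((q T' c d).2.1.le.trans d), ← (q T a b).2.2, ← (q T' c d).2.2]
      refine ⟨tM _ _, fun h => ?_⟩
      have := sM _ _ h
      rwa [(tP _ (br T a b).1 (br T a b).2.1).2.2.1,
        (tP _ (br T' c d).1 (br T' c d).2.1).2.2.1] at this) (fun T' c d => by
      obtain ⟨T, a, b, e⟩ := h3 K V p _ hk1 tS T' c d
      refine ⟨T, a, b.le.trans d, ?_⟩
      have := (sP _ (br T' c d).1 (br T' c d).2.1).2.2.1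
      rw [tSS, e] at this
      change Fix (trp R (p.BR T)) = T'
      rw [this, (br T' c d).2.2.1])
  have eqv : ∀ x y, (x, y) ∈ R → ∀ s, ∀ v ∈ p.P s, span K {F (x v)} = span K {y (F v)} := by
    intro x y hxy s v hv
    have hx : x ∈ p.O := hO x (hR.le hxy).1
    have hy : y ∈ p.O := hO y (hR.le hxy).2
    have a := k4_gr_one p hv
    have b : finrank K (span K {v} : Submodule K V) ≤ 2 := (k4_rk_one v).trans one_le_two
    obtain ⟨c, d, e⟩ := q _ a b
    have m : ∀ (z : V ≃ₗ[K] V) (w : V),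
        span K {z w} = (span K {w}).map (z : V →ₗ[K] V) := fun z w => by
      rw [map_span, Set.image_singleton]
      rfl
    have g1 : trp R (p.BR ((span K {v}).map (x : V →ₗ[K] V))) =
        p.BR ((Fix (trp R (p.BR (span K {v})))).map (y : V →ₗ[K] V)) := by
      ext z
      rw [tC x y hxy _ _ ((br _ a b).2.2.2.2.1 x hx) z,
        (br _ c (d.le.trans b)).2.2.2.2.1 y hy z, ← e]
    rw [(f1 (x v) ⟨s, (hx.2.2 s v).2 hv⟩).2, m x v, m y (F v), (f1 v ⟨s, hv⟩).2, g1]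
    refine (br _ (k4_gr_map p c hy) ?_).2.2.1
    rw [LinearEquiv.finrank_map_eq]
    exact d.le.trans b
  have fin : ∃ g : V ≃+ V, p.Semi g ∧ ∀ s, ∀ v ∈ p.P s, span K {g v} = span K {F v} := by
    rcases p.sorts with hs | hs
    · have hh : ∀ v : V, ∃ s, v ∈ p.P s := fun v => ⟨true, by rw [hs]; exact mem_top⟩
      have r : 3 ≤ finrank K V := by
        have := Submodule.finrank_le (⊤ ⊓ p.P true)
        unfold Polar.rk at hk2
        omega
      obtain ⟨θ, g, g1, g2⟩ := hF K V V F r (fun u v w => f2 u v w (hh u) (hh v) (hh w)) f3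
        (fun v' => by
          obtain ⟨v, -, e⟩ := f4 v' (hh v')
          exact ⟨v, e ▸ mem_span_singleton_self v'⟩)
      refine ⟨g, ⟨fun _ => θ, 1, fun s v => ?_, fun s v _ a => g1 a v⟩, fun s v _ => g2 v⟩
      rw [hs, hs]
      exact ⟨fun _ => mem_top, fun _ => mem_top⟩
    · obtain ⟨-, -, -, -, n, b, -⟩ := hB K V p
      have r : ∀ s, 3 ≤ finrank K (p.P s) := by
        intro s
        have := (b ⊤ n).2.2.1 s
        rw [top_inf_eq] at this
        omega
      obtain ⟨g, θ, f, g1, g2, g3⟩ := k4_split hF p.P hs.1 r F (fun v hv => (f1 v hv).1) f2 f3 f4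
      exact ⟨g, ⟨θ, f, g1, g2⟩, g3⟩
  obtain ⟨g, g1, g2⟩ := fin
  refine ⟨g, g1, fun x y hxy s v hv => ?_⟩
  have hx : x ∈ p.O := hO x (hR.le hxy).1
  rw [g2 s (x v) ((hx.2.2 s v).2 hv), eqv x y hxy s v hv]
  have h4 : g v ∈ span K {F v} := g2 s v hv ▸ mem_span_singleton_self (g v)
  obtain ⟨c, hc⟩ := mem_span_singleton.1 h4
  exact mem_span_singleton.2 ⟨c, by rw [← hc, map_smul]⟩

end Pool.Agent.Work.MP_11a08a_al.Lin
end
end

-- merged part: Pool.Agent.Work.MP_11a08a_al.Lin.Sup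
section
/-!
Call `i` good if there are `s`, `v : Fin i → V`, `y : Fin i → H` with `v l ∈ P (s l)` such that the `2 i` vectors `v l`, `y l (v l)` are linearly independent.  `j` is not good: by `hW` for `⊤` (`perp ⊤ = ⊥`) the orbit of the `2 j`-tuple under `A ⊤` has at least `q ^ (2 j (rk - 2 j - 3))` elements, while for `C = A ⊤ ⊓ centralizer H`
the tuple `c • t` is determined by the `c (v l) ∈ P (s l)`, so the orbit has at most `C.relIndex (A ⊤) * q ^ (j rk)` elements.  `0` is good; take a good `i < j` with `i + 1` not good, `T` = the span of the `2 i` vectors (graded).  For `y ∈ H`, `v ∈ P s` outside `T`: `y v ∈ span {v} ⊔ T`.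
As `dim (P s) ≥ dim T + 2`, for `u, u' ∈ P s` independent modulo `T`, compare `y (u + t)`, `y (u' + t)`, `y (u + u')`: `y` preserves `T ⊓ P s` and there is a scalar `ζ s y` with `y v - ζ s y • v ∈ T` on `P s`.  For a commutator the scalar is `1`
(`y y' v - y' y v ∈ T`); the `y ∈ H` with `y v - v ∈ T` for all `v` form a subgroup.
-/

set_option autoImplicit false

open Module
open scoped commutatorElement

namespace Pool.Agent.Work.MP_11a08a_al.Lin

section

variable {K V : Type} [Field K] [AddCommGroup V] [Module K V]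

/-- Tuples whose images are independent from them. -/
def sup_good (p : Polar K V) (H : Subgroup (V ≃ₗ[K] V)) (i : ℕ) : Prop :=
  ∃ (s : Fin i → Bool) (v : Fin i → V) (y : Fin i → V ≃ₗ[K] V), (∀ l, y l ∈ H) ∧
    (∀ l, v l ∈ p.P (s l)) ∧
    ∀ a b : Fin i → K, ∑ l, a l • v l + ∑ l, b l • y l (v l) = 0 → ∀ l, a l = 0 ∧ b l = 0

theorem sup_find (G : ℕ → Prop) (h0 : G 0) : ∀ j, ¬ G j → ∃ i < j, G i ∧ ¬ G (i + 1) := by
  intro j
  induction j with
  | zero => exact fun h => (h h0).elim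
  | succ j ih =>
    intro h
    by_cases hj : G j
    · exact ⟨j, Nat.lt_succ_self j, hj, h⟩
    · obtain ⟨i, hi, h1⟩ := ih hj
      exact ⟨i, hi.trans (Nat.lt_succ_self j), h1⟩

theorem sup_fr [FiniteDimensional K V] (T : Submodule K V) (x : V) :
    finrank K ↥(T ⊔ Submodule.span K {x}) ≤ finrank K T + 1 := by
  refine (Submodule.finrank_add_le_finrank_add_finrank _ _).trans ?_
  have h := finrank_span_le_card (R := K) ({x} : Set V)
  simp only [Set.toFinset_singleton, Finset.card_singleton] at h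
  exact Nat.add_le_add_left h _

theorem sup_out [FiniteDimensional K V] (W T : Submodule K V)
    (h : finrank K T < finrank K W) : ∃ z ∈ W, z ∉ T := by
  by_contra hc
  push Not at hc
  exact absurd (Submodule.finrank_mono (show W ≤ T from hc)) (not_le.2 h)

theorem sup_scal [FiniteDimensional K V] (W T : Submodule K V) (y : V ≃ₗ[K] V)
    (hd : finrank K T + 3 < finrank K W)
    (h : ∀ u ∈ W, u ∉ T → ∃ c : K, y u - c • u ∈ T) : ∃ ζ : K, ∀ w ∈ W, y w - ζ • w ∈ T := by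
  obtain ⟨u, huW, huT⟩ := sup_out W T (by omega)
  obtain ⟨c, hc⟩ := h u huW huT
  refine ⟨c, fun w hw => ?_⟩
  set T' : Submodule K V :=
    T ⊔ Submodule.span K {u} ⊔ Submodule.span K {w} ⊔ Submodule.span K {y w} with hT'
  have hfr : finrank K T' ≤ finrank K T + 3 := by
    have h1 := sup_fr T u
    have h2 := sup_fr (T ⊔ Submodule.span K {u}) w
    have h3 := sup_fr (T ⊔ Submodule.span K {u} ⊔ Submodule.span K {w}) (y w)
    rw [hT']
    omega
  obtain ⟨z, hzW, hz⟩ := sup_out W T' (by omega)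
  have hT : T ≤ T' := le_sup_of_le_left (le_sup_of_le_left le_sup_left)
  have hu : u ∈ T' := Submodule.mem_sup_left (Submodule.mem_sup_left
    (Submodule.mem_sup_right (Submodule.mem_span_singleton_self u)))
  have hw' : w ∈ T' := Submodule.mem_sup_left
    (Submodule.mem_sup_right (Submodule.mem_span_singleton_self w))
  have hyw : y w ∈ T' := Submodule.mem_sup_right (Submodule.mem_span_singleton_self _)
  have hz0 : ∀ a : K, a • z ∈ T' → a = 0 := by
    intro a ha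
    by_contra h0
    exact hz ((T'.smul_mem_iff h0).1 ha)
  obtain ⟨c1, h1⟩ := h z hzW (fun h' => hz (hT h'))
  obtain ⟨c2, h2⟩ := h (z + u) (W.add_mem hzW huW)
    (fun h' => hz (by simpa using T'.sub_mem (hT h') hu))
  obtain ⟨c3, h3⟩ := h (z + w) (W.add_mem hzW hw)
    (fun h' => hz (by simpa using T'.sub_mem (hT h') hw'))
  have e1 : (c1 - c2) • z + (c - c2) • u ∈ T := by
    have := T.sub_mem (T.sub_mem h2 h1) hc
    convert this using 1
    rw [map_add]
    module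
  have e2 : c1 - c2 = 0 := by
    apply hz0
    simpa using T'.sub_mem (hT e1) (T'.smul_mem (c - c2) hu)
  rw [e2, zero_smul, zero_add] at e1
  have e3 : c - c2 = 0 := by
    by_contra h0
    exact huT ((T.smul_mem_iff h0).1 e1)
  have e4 : y w - c3 • w + (c1 - c3) • z ∈ T := by
    have := T.sub_mem h3 h1
    convert this using 1
    rw [map_add]
    module
  have e5 : c1 - c3 = 0 := by
    apply hz0
    simpa using T'.sub_mem (hT e4) (T'.sub_mem hyw (T'.smul_mem c3 hw'))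
  rw [e5, zero_smul, add_zero] at e4
  have e6 : c = c3 := by linear_combination e3 - e2 + e5
  rwa [e6]

theorem sup_A [FiniteDimensional K V] (p : Polar K V) :
    ∀ e ∈ p.A ⊤, ∀ s v, v ∈ p.P s → e v ∈ p.P s := by
  let S : Subgroup (V ≃ₗ[K] V) :=
    { carrier := {e | ∀ s v, e v ∈ p.P s ↔ v ∈ p.P s}
      one_mem' := fun _ _ => Iff.rfl
      mul_mem' := fun {a b} ha hb s v => (ha s _).trans (hb s v)
      inv_mem' := fun {a} ha s v => by simpa using (ha s (a.symm v)).symm }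
  have hS : p.A ⊤ ≤ S := by
    rw [Polar.A, Subgroup.closure_le]
    rintro e ⟨t, x, w, ⟨hx, hw, -, -, -⟩, he⟩
    have h1 : ∀ s v, v ∈ p.P s → e v ∈ p.P s := by
      intro s v hv
      rcases p.sorts with h | ⟨-, h⟩
      · rw [h]
        trivial
      · rw [he v]
        by_cases hs : s = t
        · subst hs
          have : p.β v w = 0 := (h s v hv).2 w hw.2
          rw [this, mul_zero, zero_smul, sub_zero]
          exact (p.P s).add_mem hv ((p.P s).smul_mem _ hw.2)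
        · have hs' : s = !t := by cases s <;> cases t <;> simp_all
          subst hs'
          have : p.β v x = 0 := (h _ v hv).2 x hx.2
          rw [this, zero_smul, add_zero]
          exact (p.P _).sub_mem hv ((p.P _).smul_mem _ hx.2)
    intro s v
    refine ⟨fun hv => ?_, h1 s v⟩
    have h2 : (p.P s).map (e : V →ₗ[K] V) = p.P s := by
      apply Submodule.eq_of_le_of_finrank_eq
      · rintro _ ⟨z, hz, rfl⟩
        exact h1 s z hz
      · exact LinearEquiv.finrank_map_eq e _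
    rw [← h2] at hv
    obtain ⟨z, hz, hzv⟩ := hv
    rwa [← e.injective hzv]
  exact fun e he s v hv => (hS he s v).2 hv

theorem sup_not [Finite K] [FiniteDimensional K V] (hB : StmtPB) (hW : StmtWT) (p : Polar K V)
    (H : Subgroup (V ≃ₗ[K] V)) (j : ℕ) (hH : H ≤ p.O) (hj : 4 * j + 13 ≤ p.rk ⊤)
    (hc : Nat.card (p.A ⊤) * Nat.card K ^ (2 * j * (2 * j + 3)) <
      Nat.card K ^ (j * p.rk ⊤) *
        Nat.card ↥(p.A ⊤ ⊓ Subgroup.centralizer (H : Set (V ≃ₗ[K] V)))) :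
    ¬ sup_good p H j := by
  rintro ⟨s, v, y, hy, hv, hi⟩
  obtain ⟨-, -, -, -, hN, hU, -⟩ := hB K V p
  have hrk : ∀ t, finrank K (p.P t) = p.rk ⊤ := by
    intro t
    have := (hU ⊤ hN).2.2.1 t
    rwa [top_inf_eq] at this
  have hperp : p.perp ⊤ = ⊥ := by simpa using hN.2
  have : Finite V := Module.finite_of_finite K
  have : Finite (V ≃ₗ[K] V) := Finite.of_injective (fun e => (e : V → V)) DFunLike.coe_injective
  have hInd : p.Ind (p.perp ⊤) (Fin.append s s) (Fin.append v fun l => y l (v l)) := by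
    constructor
    · intro i
      refine Fin.addCases (fun l => ?_) (fun l => ?_) i
      · simpa using hv l
      · simpa only [Fin.append_right] using ((hH (hy l)).2.2 _ _).2 (hv l)
    · intro a ha
      rw [hperp, Submodule.mem_bot, Fin.sum_univ_add] at ha
      simp only [Fin.append_left, Fin.append_right] at ha
      intro i
      exact Fin.addCases (fun l => (hi _ _ ha l).1) (fun l => (hi _ _ ha l).2) i
  have hlow := (hW K V p ⊤ hN (j + j) _ _ (by omega) hInd).2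
  set A := p.A ⊤ with hA
  set C := (Subgroup.centralizer (H : Set (V ≃ₗ[K] V))).subgroupOf A with hC
  let F : (A ⧸ C) × (∀ l, p.P (s l)) → Fin (j + j) → V := fun z i =>
    (z.1.out : A).1 (Fin.append (fun l => (z.2 l : V)) (fun l => y l (z.2 l)) i)
  have hsub : {f : Fin (j + j) → V | ∃ e ∈ A, ∀ i,
      f i = e (Fin.append v (fun l => y l (v l)) i)} ⊆ Set.range F := by
    rintro f ⟨e, he, hf⟩
    obtain ⟨c, hce⟩ := QuotientGroup.mk_out_eq_mul C ⟨e, he⟩
    refine ⟨⟨QuotientGroup.mk ⟨e, he⟩, fun l => ⟨(c.1⁻¹ : A).1 (v l),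
      sup_A p _ (c.1⁻¹).2 _ _ (hv l)⟩⟩, funext fun i => ?_⟩
    have hcm : (c.1 : V ≃ₗ[K] V) ∈ Subgroup.centralizer (H : Set (V ≃ₗ[K] V)) := c.2
    rw [hf i]
    simp only [F, hce]
    refine Fin.addCases (fun l => ?_) (fun l => ?_) i
    · simp
    · have h1 := Subgroup.mem_centralizer_iff.1 hcm (y l) (hy l)
      have h2 : ∀ z, y l ((c.1 : V ≃ₗ[K] V) z) = (c.1 : V ≃ₗ[K] V) (y l z) :=
        fun z => LinearEquiv.congr_fun h1 z
      simp only [Fin.append_right]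
      simp [← h2]
  have hup : Set.ncard {f : Fin (j + j) → V | ∃ e ∈ A, ∀ i,
      f i = e (Fin.append v (fun l => y l (v l)) i)} ≤ C.index * Nat.card K ^ (j * p.rk ⊤) := by
    refine (Set.ncard_le_ncard hsub (Set.toFinite _)).trans ?_
    rw [← Set.image_univ]
    refine (Set.ncard_image_le (Set.toFinite _)).trans ?_
    rw [Set.ncard_univ, Nat.card_prod, Nat.card_pi]
    have : ∀ l, Nat.card (p.P (s l)) = Nat.card K ^ p.rk ⊤ := by
      intro l
      rw [← hrk (s l)]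
      exact Module.natCard_eq_pow_finrank (K := K) (V := p.P (s l))
    simp only [this, Finset.prod_const, Finset.card_univ, Fintype.card_fin, ← pow_mul]
    rw [mul_comm (p.rk ⊤) j]
    rfl
  have hCc : Nat.card ↥(A ⊓ Subgroup.centralizer (H : Set (V ≃ₗ[K] V))) = Nat.card C := by
    rw [hC, ← Subgroup.inf_subgroupOf_left]
    exact (Nat.card_congr (Subgroup.subgroupOfEquivOfLe inf_le_left).toEquiv).symm
  have hidx : C.index * Nat.card C = Nat.card A := C.index_mul_card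
  rw [hCc, ← hidx] at hc
  obtain ⟨r, hr⟩ : ∃ r, p.rk ⊤ = r + (j + j) + 3 := ⟨p.rk ⊤ - (j + j) - 3, by omega⟩
  have h3 : p.rk ⊤ - (j + j) - 3 = r := by omega
  rw [h3] at hlow
  have h4 := hlow.trans hup
  set q := Nat.card K with hq
  have hq0 : 0 < q := Nat.card_pos
  have h5 : q ^ (j * p.rk ⊤) * q ^ (j * p.rk ⊤) = q ^ ((j + j) * r) * q ^ (2 * j * (2 * j + 3)) := by
    rw [← pow_add, ← pow_add, hr]
    congr 1
    ring
  have h6 : q ^ (j * p.rk ⊤) * q ^ (j * p.rk ⊤) ≤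
      (C.index * q ^ (2 * j * (2 * j + 3))) * q ^ (j * p.rk ⊤) := by
    rw [h5]
    calc _ ≤ (C.index * q ^ (j * p.rk ⊤)) * q ^ (2 * j * (2 * j + 3)) :=
          Nat.mul_le_mul_right _ h4
      _ = _ := by ring
  have h7 := Nat.le_of_mul_le_mul_right h6 (pow_pos hq0 _)
  have h8 := Nat.mul_le_mul_right (Nat.card C) h7
  refine absurd hc (not_lt.2 (h8.trans (le_of_eq ?_)))
  ring

theorem sup_step (p : Polar K V) (H : Subgroup (V ≃ₗ[K] V)) (i : ℕ) (s : Fin i → Bool)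
    (v : Fin i → V) (y : Fin i → V ≃ₗ[K] V) (hy : ∀ l, y l ∈ H) (hv : ∀ l, v l ∈ p.P (s l))
    (hi : ∀ a b : Fin i → K, ∑ l, a l • v l + ∑ l, b l • y l (v l) = 0 → ∀ l, a l = 0 ∧ b l = 0)
    (hn : ¬ sup_good p H (i + 1)) (T : Submodule K V) (h1 : ∀ l, v l ∈ T)
    (h2 : ∀ l, y l (v l) ∈ T) (x : V ≃ₗ[K] V) (hx : x ∈ H) (t : Bool) (u : V) (hu : u ∈ p.P t)
    (huT : u ∉ T) : ∃ c : K, x u - c • u ∈ T := by
  by_contra hc
  push Not at hc
  refine hn ⟨Fin.cons t s, Fin.cons u v, Fin.cons x y, ?_, ?_, ?_⟩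
  · exact fun l => Fin.cases hx hy l
  · exact fun l => Fin.cases hu hv l
  · intro a b hab
    simp only [Fin.sum_univ_succ, Fin.cons_zero, Fin.cons_succ] at hab
    have hT : a 0 • u + b 0 • x u ∈ T := by
      have h3 : ∑ l : Fin i, a l.succ • v l + ∑ l : Fin i, b l.succ • y l (v l) ∈ T :=
        T.add_mem (T.sum_mem fun l _ => T.smul_mem _ (h1 l))
          (T.sum_mem fun l _ => T.smul_mem _ (h2 l))
      have h4 : a 0 • u + b 0 • x u =
          -(∑ l : Fin i, a l.succ • v l + ∑ l : Fin i, b l.succ • y l (v l)) := by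
        rw [eq_neg_iff_add_eq_zero, ← hab]
        abel
      rw [h4]
      exact T.neg_mem h3
    have hb : b 0 = 0 := by
      by_contra hb
      apply hc (-(a 0 / b 0))
      have h5 := T.smul_mem (b 0)⁻¹ hT
      convert h5 using 1
      rw [smul_add, smul_smul, smul_smul, inv_mul_cancel₀ hb, div_eq_inv_mul]
      module
    rw [hb, zero_smul, add_zero] at hT
    have ha : a 0 = 0 := by
      by_contra ha
      exact huT ((T.smul_mem_iff ha).1 hT)
    rw [ha, hb, zero_smul, zero_smul, zero_add, zero_add] at hab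
    exact fun l => Fin.cases ⟨ha, hb⟩ (hi _ _ hab) l

end

theorem supS (hB : StmtPB) (hW : StmtWT) : StmtSup := by
  intro K V _ _ _ _ _ p H j hH hHH hj hc
  have hn := sup_not hB hW p H j hH hj hc
  have h0 : sup_good p H 0 :=
    ⟨Fin.elim0, Fin.elim0, Fin.elim0, fun l => l.elim0, fun l => l.elim0, fun _ _ _ l => l.elim0⟩
  obtain ⟨i, hij, ⟨s, v, y, hy, hv, hi⟩, hn'⟩ := sup_find _ h0 j hn
  obtain ⟨-, -, -, -, hN, hU, -⟩ := hB K V p
  have hrk : ∀ t, finrank K (p.P t) = p.rk ⊤ := by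
    intro t
    have := (hU ⊤ hN).2.2.1 t
    rwa [top_inf_eq] at this
  set T : Submodule K V :=
    Submodule.span K (Set.range v) ⊔ Submodule.span K (Set.range fun l => y l (v l)) with hT
  have h1 : ∀ l, v l ∈ T := fun l => Submodule.mem_sup_left (Submodule.subset_span ⟨l, rfl⟩)
  have h2 : ∀ l, y l (v l) ∈ T := fun l =>
    Submodule.mem_sup_right (Submodule.subset_span ⟨l, rfl⟩)
  have hb : ∀ t, T ⊓ p.P t ≤ T ⊓ p.P true ⊔ T ⊓ p.P false := by
    intro t
    cases t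
    · exact le_sup_right
    · exact le_sup_left
  have hG : p.Gr T := by
    refine sup_le (Submodule.span_le.2 ?_) (Submodule.span_le.2 ?_)
    · rintro _ ⟨l, rfl⟩
      exact hb (s l) ⟨h1 l, hv l⟩
    · rintro _ ⟨l, rfl⟩
      exact hb (s l) ⟨h2 l, ((hH (hy l)).2.2 _ _).2 (hv l)⟩
  have hfr : finrank K T ≤ 2 * i := by
    refine (Submodule.finrank_add_le_finrank_add_finrank _ _).trans ?_
    have e1 := finrank_range_le_card (R := K) v
    have e2 := finrank_range_le_card (R := K) fun l => y l (v l)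
    simp only [Set.finrank, Fintype.card_fin] at e1 e2
    omega
  have hζ : ∀ x ∈ H, ∀ t, ∃ ζ : K, ∀ w ∈ p.P t, x w - ζ • w ∈ T := by
    intro x hx t
    refine sup_scal (p.P t) T x (by rw [hrk]; omega) ?_
    exact fun u hu huT => sup_step p H i s v y hy hv hi hn' T h1 h2 x hx t u hu huT
  have hpres : ∀ x ∈ H, ∀ w ∈ T, x w ∈ T := by
    intro x hx w hw
    have e : ∀ t, ∀ z ∈ T ⊓ p.P t, x z ∈ T := by
      intro t z hz
      obtain ⟨ζ, h⟩ := hζ x hx t
      simpa using T.add_mem (h z hz.2) (T.smul_mem ζ hz.1)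
    obtain ⟨a, ha, b, hb', rfl⟩ := Submodule.mem_sup.1 (hG hw)
    rw [map_add]
    exact T.add_mem (e _ a ha) (e _ b hb')
  let S : Subgroup (V ≃ₗ[K] V) :=
    { carrier := {x | ∀ w, x w - w ∈ T}
      one_mem' := fun w => by simp
      mul_mem' := fun {a b} ha hb w => by simpa using T.add_mem (ha (b w)) (hb w)
      inv_mem' := fun {a} ha w => by simpa using T.neg_mem (ha (a.symm w)) }
  have hS : ⁅H, H⁆ ≤ S := by
    rw [Subgroup.commutator_le]
    intro a ha b hb' w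
    have e : ∀ t, ∀ z ∈ p.P t, ⁅a, b⁆ z - z ∈ T := by
      intro t z hz
      obtain ⟨α, hα⟩ := hζ a ha t
      obtain ⟨β, hβ⟩ := hζ b hb' t
      have hu : a⁻¹ (b⁻¹ z) ∈ p.P t :=
        ((hH (H.inv_mem ha)).2.2 _ _).2 (((hH (H.inv_mem hb')).2.2 _ _).2 hz)
      have e1 : ⁅a, b⁆ z = a (b (a⁻¹ (b⁻¹ z))) := rfl
      have e2 : z = b (a (a⁻¹ (b⁻¹ z))) := by simp
      generalize a⁻¹ (b⁻¹ z) = u at hu e1 e2
      rw [e1, e2]
      have f1 := hpres a ha _ (hβ u hu)
      have f2 := hpres b hb' _ (hα u hu)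
      have f3 := T.sub_mem (T.add_mem f1 (T.smul_mem β (hα u hu)))
        (T.add_mem f2 (T.smul_mem α (hβ u hu)))
      convert f3 using 1
      rw [map_sub, map_sub, map_smul, map_smul]
      module
    obtain ⟨a', ha', b', hb'', rfl⟩ := Submodule.mem_sup.1 (hN.1 (Submodule.mem_top (x := w)))
    have := T.add_mem (e _ a' ha'.2) (e _ b' hb''.2)
    convert this using 1
    rw [map_add]
    abel
  refine ⟨T, hG, by omega, fun x hx => ?_⟩
  rw [hHH] at hS
  exact hS hx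

end Pool.Agent.Work.MP_11a08a_al.Lin
end
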