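import Pool.Agent.Work.MP_11a08a_al.Lin.DefsG
import Pool.Agent.Work.MP_11a08a_al.Sol.Nilp
import Pool.Agent.Work.MP_11a08a_al.Sol.Main
import Pool.Agent.Work.MP_11a08a_al.Lin.Sup

-- merged part: Pool.Agent.Work.MP_11a08a_al.Lin.FinL
section
-- merged part: Pool.Agent.Work.MP_11a08a_al.Lin.StrL
section
/-!
Copy the proof of `Sol.str` (file `Sol/Str`); the bound `d` is `Zs.relIndex S` by `Subgroup.relIndex_le_of_le_right`.  For `L = ⁅T, T⁆`, `str_perf` gives `L ⊔ Zs = T`, so `QSi L` is the last property of `T` in `str_abs`.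
`Finite L`: `det` is trivial on the perfect group `L`, so a scalar `c • 1 ∈ L` has `c ^ finrank = 1`; `Zs.subgroupOf L` is finite and of finite index (`Subgroup.finite_of_finiteIndex..`, or `Nat.card` with `card_mul_index`).
-/

set_option autoImplicit false

open Finset Module Pool.Agent.Work.MP_11a08a_al.Sol
open scoped commutatorElement

namespace Pool.Agent.Work.MP_11a08a_al.Lin

theorem strl_fin {W : Type} [AddCommGroup W] [Module ℂ W] [FiniteDimensional ℂ W] [Nontrivial W]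
    {T : Subgroup (End ℂ W)ˣ} (h : (Zs ℂ W).relIndex ⁅T, T⁆ ≠ 0) : Finite ↥⁅T, T⁆ := by
  let φ : (End ℂ W)ˣ →* ℂ := (LinearMap.det : End ℂ W →* ℂ).comp (Units.coeHom _)
  have h1 : ⁅T, T⁆ ≤ φ.ker := Subgroup.commutator_le.2 fun a _ b _ => by
    rw [MonoidHom.mem_ker, commutatorElement_def, map_mul, map_mul, map_mul, mul_right_comm (φ a),
      ← map_mul, ← map_mul, ← map_mul, mul_inv_cancel, one_mul, mul_inv_cancel, map_one]
  have hn : 0 < finrank ℂ W := Module.finrank_pos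
  have h2 : ((fun c : ℂ => c • (1 : End ℂ W)) '' (Polynomial.nthRoots (finrank ℂ W) (1 : ℂ)).toFinset).Finite :=
    (Finset.finite_toSet _).image _
  have h3 := h2.preimage (f := fun x : ↥⁅T, T⁆ => ((x : (End ℂ W)ˣ) : End ℂ W))
    fun x _ y _ e => Subtype.ext (Units.ext e)
  refine (Subgroup.finite_iff_finite_and_finiteIndex ((Zs ℂ W).subgroupOf ⁅T, T⁆)).2 ⟨?_, ⟨h⟩⟩
  refine h3.subset ?_
  rintro x ⟨c, -, hc⟩
  refine ⟨c, ?_, hc.symm⟩
  have h4 : LinearMap.det ((x : (End ℂ W)ˣ) : End ℂ W) = 1 := h1 x.2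
  have hc' : ((x : (End ℂ W)ˣ) : End ℂ W) = c • 1 := hc
  rw [hc', LinearMap.det_smul, map_one, mul_one] at h4
  rw [Finset.mem_coe, Multiset.mem_toFinset, Polynomial.mem_nthRoots hn]
  exact h4

theorem strL (hDu : StmtDual) (hS : StmtSimple) : StmtStrL := by
  classical
  intro W _ _ _ _ H S hP hZS hf hH
  have hZ := str_Zc (F := ℂ) (W := W)
  have hZn := str_normal hZ
  obtain ⟨E, 𝒯, hfin, hZE, hES, hDE, hEE, hnd, hT, hTT, hcj, hex⟩ :=
    str_abs (H := H) hZ hZS hf (fun h hh => hH h hh) (fun A hA hn => hP A hA fun h hh => hn hh)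
  have hD : ∀ t, t ∈ H ∨ t ∈ S → t ∈ H ⊔ S := fun t ht =>
    ht.elim (fun h => Subgroup.mem_sup_left h) fun h => Subgroup.mem_sup_right h
  obtain ⟨C, hC⟩ : ∃ C : Finset (Subgroup (End ℂ W)ˣ), ∀ L, L ∈ C ↔ ∃ T ∈ 𝒯, ⁅T, T⁆ = L :=
    ⟨(hfin.image fun T => ⁅T, T⁆).toFinset, fun L => by simp⟩
  have hheis : Heis E :=
    ⟨hZE, fun h => hf (Subgroup.relIndex_eq_zero_of_le_right hES h),
      Subgroup.commutator_le.1 hEE,
      fun e he hc => hnd ⟨he, Subgroup.mem_centralizer_iff.2 fun e' he' => (hc e' he').symm⟩⟩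
  have hCcj : ∀ t ∈ H ⊔ S, ∀ L ∈ C, str_cj t L ∈ C := by
    intro t ht L hL
    obtain ⟨T, hT', rfl⟩ := (hC L).1 hL
    exact (hC _).2 ⟨_, hcj t ht T hT', (str_cj_comm t T T).symm⟩
  have hCn : H ⊔ S ≤ Subgroup.normalizer ((C.sup id : Subgroup (End ℂ W)ˣ) : Set (End ℂ W)ˣ) := by
    rw [Finset.sup_id_eq_sSup]
    exact str_nm_sSup hCcj
  have hcm : ∀ L ∈ C, ∀ L' ∈ C, L ≠ L' → ∀ x ∈ L, ∀ y ∈ L', x * y = y * x := by
    intro L hL L' hL' hne x hx y hy
    obtain ⟨T, hT1, rfl⟩ := (hC L).1 hL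
    obtain ⟨T', hT2, rfl⟩ := (hC L').1 hL'
    exact str_cm hZ (hTT T hT1 T' hT2 fun h => hne (by rw [h])) x
      (Subgroup.commutator_le_self T hx) y hy
  have hec : ∀ e ∈ E, ∀ L ∈ C, ∀ y ∈ L, e * y = y * e := by
    intro e he L hL y hy
    obtain ⟨T, hT1, rfl⟩ := (hC L).1 hL
    exact Subgroup.mem_centralizer_iff.1 ((hT T hT1).2.2.1 (Subgroup.commutator_le_self T hy)) e he
  refine ⟨E, C, ⟨hheis, ⟨?_, ?_, ?_, hcm, ?_⟩, hES, ?_, fun t ht => hDE (hD t ht), ?_, hec, ?_⟩,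
    ?_⟩
  · intro L hL
    obtain ⟨T, hT1, rfl⟩ := (hC L).1 hL
    obtain ⟨h1, -, -, h4, h5⟩ := hT T hT1
    exact (str_perf hZ h1 h4 h5).2
  · intro L hL
    obtain ⟨T, hT1, rfl⟩ := (hC L).1 hL
    exact (hT T hT1).2.2.2.1
  · intro L hL
    obtain ⟨T, hT1, rfl⟩ := (hC L).1 hL
    have h7 : ⁅T, T⁆ ≤ S := (Subgroup.commutator_le_self T).trans (hT T hT1).2.1
    exact ⟨fun h => hf (Subgroup.relIndex_eq_zero_of_le_right h7 h),
      Subgroup.relIndex_le_of_le_right h7 hf⟩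
  · intro S₀ hS₀
    refine hS ℂ W H (S₀.sup id) ((C \ S₀).sup id) hP (fun h hh => ?_) ?_
    · rw [← Finset.sup_union, Finset.union_sdiff_of_subset hS₀]
      exact hCn (Subgroup.mem_sup_left hh)
    · intro x hx y hy
      refine (str_cen_sup S₀ y (fun L hL x hx => ?_) x hx).symm
      refine (str_cen_sup (C \ S₀) x (fun L' hL' y hy => ?_) y hy).symm
      rw [Finset.mem_sdiff] at hL'
      exact hcm L (hS₀ hL) L' hL'.1 (fun h => hL'.2 (h ▸ hL)) x hx y hy
  · intro L hL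
    obtain ⟨T, hT1, rfl⟩ := (hC L).1 hL
    exact (Subgroup.commutator_le_self T).trans (hT T hT1).2.1
  · intro t ht L hL
    exact ⟨hCcj t (hD t ht) L hL, hCcj t⁻¹ (inv_mem (hD t ht)) L hL⟩
  · intro s hs hfix hsupp
    obtain ⟨e₁, he₁, hk⟩ := str_char hDu hheis hfix
    have hsL : ∀ L ∈ C, ∀ y ∈ L, s * y = y * s := by
      intro L hL
      by_contra h
      have : L ∈ supp C s := Finset.mem_filter.2 ⟨hL, h⟩
      rw [hsupp] at this
      exact absurd this (Finset.notMem_empty L)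
    have hkL : ∀ L ∈ C, ∀ y ∈ L, e₁⁻¹ * s * y = y * (e₁⁻¹ * s) := by
      intro L hL y hy
      rw [mul_assoc, hsL L hL y hy, ← mul_assoc, hec _ (E.inv_mem he₁) L hL y hy, mul_assoc]
    set K₁ : Subgroup (End ℂ W)ˣ := (S ⊓ Subgroup.centralizer (E : Set (End ℂ W)ˣ)) ⊓
      Subgroup.centralizer ((C.sup id : Subgroup (End ℂ W)ˣ) : Set (End ℂ W)ˣ) with hK₁
    have hkK : e₁⁻¹ * s ∈ K₁ :=
      ⟨⟨S.mul_mem (S.inv_mem (hES he₁)) hs, Subgroup.mem_centralizer_iff.2 hk⟩,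
        Subgroup.mem_centralizer_iff.2 fun y hy => (str_cen_sup C _ hkL y hy).symm⟩
    have hKZ : K₁ = Zs ℂ W := by
      by_contra hne
      have hZc : ∀ X : Set (End ℂ W)ˣ, Zs ℂ W ≤ Subgroup.centralizer X := fun X z hz =>
        Subgroup.mem_centralizer_iff.2 fun x _ => hZ z hz x
      obtain ⟨T, hT1, hTK⟩ := hex K₁ (le_inf (le_inf hZS (hZc _)) (hZc _)) inf_le_left
        (str_nm_inf (str_nm_inf (sup_le (fun h hh => hH h hh) Subgroup.le_normalizer)
          (str_nm_cen hDE)) (str_nm_cen hCn)) hne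
      obtain ⟨h1, -, -, h4, h5⟩ := hT T hT1
      obtain ⟨-, h7⟩ := str_perf hZ h1 h4 h5
      have h8 : ⁅T, T⁆ ≤ C.sup id := Finset.le_sup (f := id) ((hC _).2 ⟨T, hT1, rfl⟩)
      have h9 : ⁅⁅T, T⁆, ⁅T, T⁆⁆ = ⊥ :=
        Subgroup.commutator_eq_bot_iff_le_centralizer.2
          ((((Subgroup.commutator_le_self T).trans hTK).trans inf_le_right).trans
            (Subgroup.centralizer_le h8))
      apply h4
      rw [← h7, h9]
      exact bot_le
    rw [hKZ] at hkK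
    simpa using E.mul_mem he₁ (hZE hkK)
  · intro L hL
    obtain ⟨T, hT1, rfl⟩ := (hC L).1 hL
    obtain ⟨h1, h2, -, h4, h5⟩ := hT T hT1
    refine ⟨?_, strl_fin fun h => hf (Subgroup.relIndex_eq_zero_of_le_right
      ((Subgroup.commutator_le_self T).trans h2) h)⟩
    unfold QSi
    rw [(str_perf hZ h1 h4 h5).1]
    exact h5

end Pool.Agent.Work.MP_11a08a_al.Lin
end

-- merged part: Pool.Agent.Work.MP_11a08a_al.Lin.Hat1
section
/-!
`T = L ⊔ Zs`, `P N = (N.comap π).map T.subtype ≥ Zs`.  Facts: `hat π ⊤ = ⁅T, T⁆ = L` (central factors do not change commutators, see `str_perf`), `hat` is monotone.  For perfect `N`: the image of `hat π N` under `π` is `N`, `hat π N ⊔ Zs = P N`, `hat π N` is perfect.  If `π y` commutes with `N` then `y` centralises `hat π N` (`str_cm`).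
`gen`: `P N ≤ closure (local elements of hat π N) ⊔ Zs`, and scalars in `hat π N` are local (they centralise `L ∈ 𝓝 4`).  `qs`: apply `qs` to the image of `M`; if it is `N` then `P N ≤ M ⊔ Zs`, `hat π N ≤ ⁅M, M⁆ ≤ M`.  `idx`: `(P N).relIndex T = N.index ≤ lam ^ s`, `lam ^ n ≤ card Q = Zs.relIndex T = Zs.relIndex L`.
`blk`: for an invariant `U` choose lifts `x' ∈ hat π N` of `x ∈ N` and let `f x` be the restriction to `U` as a unit; `QR` shows that the lifts, so all elements of `hat π N`, act on `U` as scalars; commutators act trivially.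
`GenZ`: the images of `B, B'` satisfy `Ncl`; lift the `a i` to `B`; with `J = B ⊔ B'` (finite), `card J = card (image) * card (Zs ⊓ J)`, and the set contains the preimage in `J` of the double coset.  Extra helper files are welcome.
-/

set_option autoImplicit false

open Finset Module Pool.Agent.Work.MP_11a08a_al.Sol
open scoped commutatorElement

namespace Pool.Agent.Work.MP_11a08a_al.Lin

section

open Subgroup

variable {G Q : Type} [Group G] [Group Q] {Z T : Subgroup G} (π : T →* Q)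

/-- The preimage. -/
def hat1_P (N : Subgroup Q) : Subgroup G := (N.comap π).map T.subtype

/-- The image. -/
def hat1_im (B : Subgroup G) : Subgroup Q := (B.subgroupOf T).map π

variable {π} {N M : Subgroup Q} {A B B' X : Subgroup G}

theorem hat1_mem {x : G} : x ∈ hat1_P π N ↔ ∃ h : x ∈ T, π ⟨x, h⟩ ∈ N :=
  ⟨fun ⟨y, h, e⟩ => e ▸ ⟨y.2, h⟩, fun ⟨h, q⟩ => ⟨⟨x, h⟩, q, rfl⟩⟩

theorem hat1_le : hat π N ≤ hat1_P π N := commutator_le_self _

theorem hat1_mono (h : N ≤ M) : hat π N ≤ hat π M :=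
  commutator_mono (map_mono (comap_mono h)) (map_mono (comap_mono h))

theorem hat1_cc (hZ : ∀ z ∈ Z, ∀ x, x * z = z * x) (h : X ≤ A ⊔ Z) : ⁅X, X⁆ ≤ ⁅A, A⁆ := by
  have := str_normal hZ
  rw [commutator_le]
  intro x hx y hy
  obtain ⟨a, ha, z, hz, rfl⟩ := mem_sup_of_normal_right.1 (h hx)
  obtain ⟨b, hb, w, hw, rfl⟩ := mem_sup_of_normal_right.1 (h hy)
  have e : ⁅a * z, b * w⁆ = ⁅a, b⁆ := by
    have e1 : z * (b * w) = b * w * z := (hZ z hz _).symm
    have e2 : w * a⁻¹ = a⁻¹ * w := (hZ w hw _).symm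
    simp only [commutatorElement_def]
    calc a * z * (b * w) * (a * z)⁻¹ * (b * w)⁻¹
        = a * (z * (b * w)) * z⁻¹ * a⁻¹ * w⁻¹ * b⁻¹ := by group
      _ = a * b * (w * a⁻¹) * w⁻¹ * b⁻¹ := by rw [e1]; group
      _ = a * b * a⁻¹ * b⁻¹ := by rw [e2]; group
  rw [e]
  exact commutator_mem_commutator ha hb

theorem hat1_z (hk : ∀ x, π x = 1 ↔ x.1 ∈ Z) {x y : T} (e : π x = π y) : x.1⁻¹ * y.1 ∈ Z :=
  (hk (x⁻¹ * y)).1 (by rw [map_mul, map_inv, e, inv_mul_cancel])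

theorem hat1_sup (hk : ∀ x, π x = 1 ↔ x.1 ∈ Z) (h : N ≤ hat1_im π B) : hat1_P π N ≤ B ⊔ Z := by
  rintro _ ⟨x, hx, rfl⟩
  obtain ⟨b, hb, e⟩ := h hx
  simpa using mul_mem_sup (show b.1 ∈ B from hb) (hat1_z hk e)

theorem hat1_sub (hZ : ∀ z ∈ Z, ∀ x, x * z = z * x) (hk : ∀ x, π x = 1 ↔ x.1 ∈ Z)
    (h : N ≤ hat1_im π B) : hat π N ≤ ⁅B, B⁆ := hat1_cc hZ (hat1_sup hk h)

theorem hat1_imh (hs : Function.Surjective π) (hN : ⁅N, N⁆ = N) : hat1_im π (hat π N) = N := by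
  rw [hat1_im, hat, ← map_commutator, subgroupOf, comap_map_eq_self_of_injective T.subtype_injective,
    map_commutator, map_comap_eq_self_of_surjective hs, hN]

theorem hat1_cen (hZ : ∀ z ∈ Z, ∀ x, x * z = z * x) (hk : ∀ x, π x = 1 ↔ x.1 ∈ Z) {y : T}
    (h : π y ∈ centralizer (N : Set Q)) : Cen y.1 (hat π N) := by
  refine str_cm hZ (T := hat1_P π (centralizer N)) (commutator_le.2 ?_) y ⟨y, h, rfl⟩
  rintro _ ⟨a, ha, rfl⟩ _ ⟨b, hb, rfl⟩
  exact (hk ⁅a, b⁆).1 ((map_commutatorElement π a b).trans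
    (commutatorElement_eq_one_iff_mul_comm.2 (mem_centralizer_iff.1 ha _ hb).symm))

theorem hat1_idx (hs : Function.Surjective π) : (hat1_P π N).relIndex T = N.index := by
  rw [relIndex, hat1_P, subgroupOf, comap_map_eq_self_of_injective T.subtype_injective,
    index_comap_of_surjective _ hs]

theorem hat1_Z (hk : ∀ x, π x = 1 ↔ x.1 ∈ Z) (hT : Z ≤ T) : Z ≤ hat1_P π N := fun z hz =>
  ⟨⟨z, hT hz⟩, show π _ ∈ N from (hk ⟨z, hT hz⟩).2 hz ▸ N.one_mem, rfl⟩

theorem hat1_nm (h : ∀ a ∈ B, ∀ x ∈ A, a * x * a⁻¹ ∈ A) :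
    ∀ a ∈ hat1_im π B, ∀ x ∈ hat1_im π A, a * x * a⁻¹ ∈ hat1_im π A := by
  rintro _ ⟨a, ha, rfl⟩ _ ⟨x, hx, rfl⟩
  exact ⟨a * x * a⁻¹, h _ ha _ hx, by simp⟩

theorem hat1_ncl (hs : Function.Surjective π) (hN : ⁅N, N⁆ = N) (hB : B ≤ T)
    (h : Ncl (hat π N) B) : Ncl N (hat1_im π B) := by
  refine ⟨hat1_imh hs hN ▸ map_mono (comap_mono h.1), fun M h1 h2 h3 => h2.antisymm ?_⟩
  have := h.2 (B ⊓ hat1_P π M) (le_inf h.1 ((hat1_mono h1).trans hat1_le)) inf_le_left (by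
    rintro b hb _ ⟨hx, x, hx', rfl⟩
    exact ⟨B.mul_mem (B.mul_mem hb hx) (B.inv_mem hb), ⟨b, hB hb⟩ * x * ⟨b, hB hb⟩⁻¹,
      by simpa using h3 _ ⟨⟨b, hB hb⟩, hb, rfl⟩ _ hx', rfl⟩)
  rintro _ ⟨x, hx, rfl⟩
  exact (hat1_mem.1 (inf_eq_left.1 this hx)).2

theorem hat1_gen (hk : ∀ x, π x = 1 ↔ x.1 ∈ Z) (hB : B ≤ T) (hB' : B' ≤ T) [Finite ↥(B ⊔ B')]
    {n E : ℕ} (h : Gen n E (hat1_im π B) (hat1_im π B')) :
    ∃ a : Fin n → G, (∀ i, a i ∈ B) ∧ ∀ i j, i ≠ j → Nat.card ↥(B ⊔ B') ≤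
      E * Set.ncard {y | y ∈ B ⊔ B' ∧ y ∈ dc (B' ⊔ Z) ((a i)⁻¹ * a j)} := by
  obtain ⟨a, ha, h⟩ := h
  choose b hb e using ha
  refine ⟨fun i => b i, hb, fun i j ne => ?_⟩
  let φ := π.comp (inclusion (sup_le hB hB'))
  have r : φ.range = hat1_im π B ⊔ hat1_im π B' := by
    rw [hat1_im, hat1_im, ← Subgroup.map_sup, ← subgroupOf_sup hB hB', MonoidHom.range_comp,
      inclusion_range]
  have d : ∀ y : dc (hat1_im π B') ((a i)⁻¹ * a j), ∃ x, φ x = y := by
    rintro ⟨_, u, hu, v, hv, rfl⟩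
    have m : ∀ i, a i ∈ hat1_im π B ⊔ hat1_im π B' := fun i => mem_sup_left ⟨b i, hb i, e i⟩
    exact r.ge (mul_mem (mul_mem (mem_sup_right hu) (mul_mem (inv_mem (m i)) (m j)))
      (mem_sup_right hv))
  choose s hs using d
  have k : ∀ (y) (k : φ.ker), φ (s y * k) = y := fun y k => by rw [map_mul, hs, k.2, mul_one]
  have fin : Finite {y | y ∈ B ⊔ B' ∧ y ∈ dc (B' ⊔ Z) ((b i : G)⁻¹ * b j)} :=
    Set.Finite.subset (Set.toFinite ((B ⊔ B' : Subgroup G) : Set G)) fun _ h => h.1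
  have := Nat.card_le_card_of_injective
    (β := {y | y ∈ B ⊔ B' ∧ y ∈ dc (B' ⊔ Z) ((b i : G)⁻¹ * b j)})
    (fun p : dc (hat1_im π B') ((a i)⁻¹ * a j) × φ.ker => ⟨(s p.1 * p.2).1, (s p.1 * p.2).2, by
      obtain ⟨_, ⟨u, hu, rfl⟩, _, ⟨v, hv, rfl⟩, q⟩ := p.1.2
      have := hat1_z hk (x := u * ((b i)⁻¹ * b j) * v)
        (y := inclusion (sup_le hB hB') (s p.1 * p.2.1))
        (by simpa [e, φ] using q.symm.trans (k _ p.2).symm)
      exact ⟨u, mem_sup_left hu, _, mul_mem_sup (show v.1 ∈ B' from hv) this,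
        by simp [mul_assoc]⟩⟩)
    fun p q e => by
      have e1 : s p.1 * p.2 = s q.1 * q.2 := Subtype.ext (congrArg Subtype.val e :)
      have e2 : p.1 = q.1 := Subtype.ext ((k _ _).symm.trans ((congrArg φ e1).trans (k _ _)))
      exact Prod.ext e2 (Subtype.ext (mul_left_cancel (e2 ▸ e1)))
  rw [Nat.card_prod, Nat.card_coe_set_eq, Nat.card_coe_set_eq] at this
  rw [← φ.ker.index_mul_card, index_ker, r]
  exact (Nat.mul_le_mul_right _ (h i j ne)).trans (mul_assoc E _ _ ▸ Nat.mul_le_mul_left _ this)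

end

theorem hat1_blk {W Q : Type} [AddCommGroup W] [Module ℂ W] [FiniteDimensional ℂ W] [Group Q]
    {T H : Subgroup (End ℂ W)ˣ} {π : T →* Q} (hk : ∀ x, π x = 1 ↔ x.1 ∈ Zs ℂ W) {N : Subgroup Q}
    (hT : H ≤ T) (hH : ⁅H, H⁆ = H) (hN : hat1_im π H = N) {D : ℕ} (hQ : QR D N)
    (U : Submodule ℂ W) (hU : ∀ y ∈ H, ∀ w ∈ U, (y : End ℂ W) w ∈ U) (hD : finrank ℂ U < D) :
    U ≤ Fx H := by
  let r₀ : H →* End ℂ U :=
    { toFun := fun y => (y.1 : End ℂ W).restrict (hU _ y.2), map_one' := rfl,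
      map_mul' := fun _ _ => rfl }
  let r := r₀.toHomUnits
  let φ := π.comp (Subgroup.inclusion hT)
  have z : ∀ x : H, φ x = 1 → r x ∈ Zs ℂ U := fun x e => by
    obtain ⟨c, c0, h⟩ := (hk _).1 e
    exact ⟨c, c0, LinearMap.ext fun w => Subtype.ext (LinearMap.congr_fun h w.1)⟩
  have l : ∀ x : N, ∃ y : H, φ y = x := fun x => by
    obtain ⟨y, hy, e⟩ := hN.ge x.2
    exact ⟨⟨y, hy⟩, e⟩
  choose l hl using l
  have a := hQ U hD (fun x => r (l x)) fun x y => by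
    rw [← map_mul, ← map_inv, ← map_mul]
    exact z _ (by simp [hl])
  have b : ∀ y : H, r y ∈ Zs ℂ U := fun y => by
    have m : φ y ∈ N := hN.le ⟨_, y.2, rfl⟩
    have := mul_mem (a ⟨_, m⟩) (z ((l ⟨_, m⟩)⁻¹ * y) (by simp [hl]))
    rwa [← map_mul, mul_inv_cancel_left] at this
  have c : commutator H ≤ r.ker := Subgroup.commutator_le.2 fun x _ y _ =>
    (map_commutatorElement r x y).trans
      (commutatorElement_eq_one_iff_mul_comm.2 (Units.ext (rank_zs (b x) _)))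
  intro w hw y hy
  rw [← hH, ← Subgroup.map_subtype_commutator] at hy
  obtain ⟨y, hy, rfl⟩ := hy
  exact congrArg Subtype.val (LinearMap.congr_fun (congrArg Units.val (c hy)) ⟨w, hw⟩)

theorem hat1 : StmtHat1 := by
  rintro W _ _ _ n S L 𝓝 fin pf ⟨Q, _, π, C, 𝓜, lam, q₀, hs, hk, ⟨g, ⟨E, D, hE, bl⟩, -, -⟩, e⟩
  obtain rfl : 𝓝 = fun s => hat π '' 𝓜 s := funext e
  have hZ : ∀ z ∈ Zs ℂ W, ∀ x, x * z = z * x := fun z hz x => Units.ext (rank_zs hz _).symm
  have := str_normal hZ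
  have le : ∀ N, hat π N ≤ L := fun N =>
    (hat1_cc hZ (Subgroup.map_subtype_le _)).trans pf.le
  have lT : ∀ N, hat π N ≤ L ⊔ Zs ℂ W := fun N => (le N).trans le_sup_left
  have pe : ∀ N ∈ 𝓜 n, ⁅hat π N, hat π N⁆ = hat π N := fun N hN =>
    (Subgroup.commutator_le_self _).antisymm (hat1_sub hZ hk (hat1_imh hs (g.perf N hN).1).ge)
  refine ⟨fin, ⟨⊤, g.top, (le _).antisymm (pf.ge.trans ?_)⟩,
    fun s t h => Set.image_mono (g.mono s t h), ?_, ?_, ?_, ?_, ?_, ?_, E, D, hE, ?_⟩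
  · have : L ≤ hat1_P π ⊤ := fun x hx => ⟨⟨x, Subgroup.mem_sup_left hx⟩, trivial, rfl⟩
    exact Subgroup.commutator_mono this this
  · rintro s _ ⟨N, -, rfl⟩
    exact le N
  · rintro s h _ ⟨N, hN, rfl⟩ _ ⟨N', hN', rfl⟩
    obtain ⟨M, hM, q⟩ := g.inter s h N hN N' hN'
    exact ⟨_, ⟨M, hM, rfl⟩,
      le_inf (hat1_mono (q.trans inf_le_left)) (hat1_mono (q.trans inf_le_right))⟩
  · rintro _ ⟨N, hN, rfl⟩
    refine (hat1_sub hZ hk ((g.gen N hN).trans ((Subgroup.closure_le _).2 ?_))).trans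
      (Subgroup.commutator_le_self _)
    rintro c ⟨h1, h2⟩
    obtain ⟨x, hx, rfl⟩ := (hat1_imh hs (g.perf N hN).1).ge h2
    obtain ⟨M, hM, q⟩ := g.loc _ h1
    exact ⟨x, Subgroup.subset_closure ⟨hx, _, ⟨M, hM, rfl⟩, hat1_cen hZ hk q⟩, rfl⟩
  · rintro _ ⟨N, hN, rfl⟩
    refine ⟨pe N hN, fun q => (g.perf N hN).2 ?_⟩
    rw [← hat1_imh hs (g.perf N hN).1, q, hat1_im, Subgroup.bot_subgroupOf, Subgroup.map_bot]
  · rintro _ ⟨N, hN, rfl⟩ M hM nm
    have i := hat1_imh hs (g.perf N hN).1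
    refine (g.qs N hN (hat1_im π M) (i ▸ Subgroup.map_mono (Subgroup.comap_mono hM))
      (i ▸ hat1_nm nm)).imp (fun q x hx y hy => ?_) fun q => hM.antisymm ?_
    · exact (hat1_cen hZ hk (y := ⟨x, lT N (hM hx)⟩) (q ⟨_, hx, rfl⟩) y hy).symm
    · exact (hat1_sub hZ hk q.ge).trans (Subgroup.commutator_le_self _)
  · rintro s h _ ⟨N, hN, rfl⟩
    have e1 : hat π N ⊔ Zs ℂ W = hat1_P π N := (sup_le hat1_le (hat1_Z hk le_sup_right)).antisymm
      (hat1_sup hk (hat1_imh hs (g.perf N (g.mono s n h hN)).1).ge)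
    have e2 : Zs ℂ W = hat1_P π ⊥ := (hat1_Z hk le_sup_right).antisymm
      ((hat1_sup hk (B := ⊥) bot_le).trans (bot_sup_eq _).le)
    have e3 : (Zs ℂ W).relIndex L = Nat.card Q := by
      rw [← Subgroup.relIndex_sup_right, ← Subgroup.index_bot, ← hat1_idx hs, ← e2]
    rw [e1, hat1_idx hs, e3]
    refine (Nat.pow_le_pow_left (g.idx s h N hN) n).trans ?_
    rw [← pow_mul, pow_mul']
    exact Nat.pow_le_pow_left g.big s
  · rintro _ ⟨N, hN, rfl⟩
    refine ⟨hat1_blk hk (lT N) (pe N hN) (hat1_imh hs (g.perf N hN).1) (bl N hN).1,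
      fun B B' h h' c c' => ?_⟩
    have : Finite ↥(B ⊔ B') := Finite.of_injective _ (Subgroup.inclusion_injective (sup_le h h'))
    have k := h.trans (le_sup_left (b := Zs ℂ W))
    have k' := h'.trans (le_sup_left (b := Zs ℂ W))
    exact hat1_gen hk k k' ((bl N hN).2 _ _ (hat1_ncl hs (g.perf N hN).1 k c)
      (hat1_ncl hs (g.perf N hN).1 k' c'))

end Pool.Agent.Work.MP_11a08a_al.Lin
end

-- merged part: Pool.Agent.Work.MP_11a08a_al.Lin.PetG
section
/-!
Compare `Sol/Loc`.  (1) let `K` belong to `Y`, `K₁` to `Lcl` at `1`, `K₂` to `Lcl` at `t⁻¹ * s`; two intersections give `K' ∈ 𝒦 (16 m)` below all three; for `z ∈ K'`, `t z t⁻¹` commutes with `s y s⁻¹` and `z` with `y`, so `tw t z (tw s y Y) = tw s y (tw t z Y)`.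
(2) induction on `j ≤ q` for all `m`, `R` with `card R ≤ j`, level `16 ^ j * m`.  Take `r₀ ∈ R` with its `K₀`.  The `y` with `tw (s r₀) y Σ = Σ` form a subgroup; if it contains all `y ∈ K₀` with `Lcl`, take `X = Σ` (`gen`).  Else `Σ' = tw (s r₀) y Σ - Σ = ∑ r ∈ R.erase r₀, (tw (s r₀) y (Y r) - Y r) ≠ 0`; use (1), `rank_tw_sub`, `nm`, `le`.
-/

set_option autoImplicit false

open Finset Module Pool.Agent.Work.MP_11a08a_al.Sol
open scoped commutatorElement

namespace Pool.Agent.Work.MP_11a08a_al.Lin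

section

variable {W : Type} [AddCommGroup W] [Module ℂ W] {n : ℕ} {S M : Subgroup (End ℂ W)ˣ}
  {𝒦 : ℕ → Set (Subgroup (End ℂ W)ˣ)}

theorem petg_tw (t z s y : (End ℂ W)ˣ) (Y : End ℂ W) : tw t z (tw s y Y) =
    ((t * z * t⁻¹ * (s * y * s⁻¹) : (End ℂ W)ˣ) : End ℂ W) * Y *
      ((y⁻¹ * z⁻¹ : (End ℂ W)ˣ) : End ℂ W) := by
  simp only [tw, Units.val_mul, mul_assoc]

theorem petg_mul (s z y : (End ℂ W)ˣ) (Y : End ℂ W) : tw s (z * y) Y = tw s z (tw s y Y) := by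
  rw [petg_tw, tw, mul_inv_rev, show s * (z * y) * s⁻¹ = s * z * s⁻¹ * (s * y * s⁻¹) by group]

theorem petg_one (s : (End ℂ W)ˣ) (Y : End ℂ W) : tw s 1 Y = Y := by
  rw [tw, mul_one, mul_inv_cancel, inv_one, Units.val_one, one_mul, mul_one]

theorem petg_mono (h : Pet n S M 𝒦) {a b : ℕ} (hab : a ≤ b) {t : (End ℂ W)ˣ} {Y : End ℂ W}
    (hY : LocK 𝒦 a t Y) : LocK 𝒦 b t Y :=
  hY.imp fun _ hK => ⟨h.mono a b hab hK.1, hK.2⟩

theorem petg_step (h : Pet n S M 𝒦) {m : ℕ} (hm : 4 ≤ m) (hn : 16 * m ≤ n) {y : (End ℂ W)ˣ}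
    (hy : Lcl S 𝒦 y) {s t : (End ℂ W)ˣ} (hs : s ∈ S) (ht : t ∈ S) {Y : End ℂ W}
    (hY : LocK 𝒦 m t Y) : LocK 𝒦 (16 * m) t (tw s y Y - Y) := by
  obtain ⟨K, hK, hf⟩ := hY
  obtain ⟨K₁, h1, c1⟩ := hy 1 S.one_mem
  obtain ⟨K₂, h2, c2⟩ := hy (t⁻¹ * s) (S.mul_mem (S.inv_mem ht) hs)
  obtain ⟨K₃, h3, l3⟩ := h.inter m (by omega) K hK K₁ (h.mono 4 m hm h1)
  obtain ⟨K₄, h4, l4⟩ := h.inter (4 * m) (by omega) K₃ h3 K₂ (h.mono 4 _ (by omega) h2)
  refine ⟨K₄, h.mono _ _ (by omega) h4, fun z hz => ?_⟩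
  have e1 : y⁻¹ * z⁻¹ = z⁻¹ * y⁻¹ := by
    have := c1 z (l3 (l4 hz).1).2
    rw [one_mul, inv_one, mul_one] at this
    rw [← mul_inv_rev, ← this, mul_inv_rev]
  have e2 : t * z * t⁻¹ * (s * y * s⁻¹) = s * y * s⁻¹ * (t * z * t⁻¹) :=
    calc t * z * t⁻¹ * (s * y * s⁻¹) = t * (z * (t⁻¹ * s * y * (t⁻¹ * s)⁻¹)) * t⁻¹ := by group
      _ = _ := by rw [← c2 z (l4 hz).2]; group
  have e3 : tw t z (tw s y Y - Y) = tw t z (tw s y Y) - tw t z Y := by
    simp only [tw, mul_sub, sub_mul]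
  rw [e3, petg_tw, e1, e2, ← petg_tw, hf z (l3 (l4 hz).1).1]

theorem petg_gen (h : Pet n S M 𝒦) {K : Subgroup (End ℂ W)ˣ} (hK : K ∈ 𝒦 n) {s : (End ℂ W)ˣ}
    {X : End ℂ W} (hX : ∀ y ∈ K, Lcl S 𝒦 y → tw s y X = X) {y : (End ℂ W)ˣ} (hy : y ∈ K) :
    tw s y X = X := by
  refine Subgroup.closure_induction (p := fun y _ => tw s y X = X) (fun y hy => hX y hy.1 hy.2)
    (petg_one s X) (fun a b _ _ ha hb => by rw [petg_mul, hb, ha]) (fun a _ ha => ?_)
    (h.gen K hK hy)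
  rw [← congrArg (tw s a⁻¹) ha, ← petg_mul, inv_mul_cancel, petg_one]

theorem petg_ind [FiniteDimensional ℂ W] (h : Pet n S M 𝒦) {q : ℕ} (s : Fin q → (End ℂ W)ˣ)
    (j : ℕ) : ∀ m : ℕ, 4 ≤ m → 16 ^ j * m ≤ n → ∀ (R : Finset (Fin q)) (Y : Fin q → End ℂ W),
      R.card ≤ j → (∀ r ∈ R, s r ∈ S ∧ LocK 𝒦 m (s r) (Y r)) → ∑ r ∈ R, Y r ≠ 0 →
      ∃ X : End ℂ W, X ≠ 0 ∧ (∃ r ∈ R, LocK 𝒦 (16 ^ j * m) (s r) X) ∧
        rk X ≤ 2 ^ j * rk (∑ r ∈ R, Y r) ∧
        (∀ U : Submodule ℂ (End ℂ W), Bim M U → ∑ r ∈ R, Y r ∈ U → X ∈ U) ∧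
        ∀ t ∈ S, LocK 𝒦 m t (∑ r ∈ R, Y r) → LocK 𝒦 (16 ^ j * m) t X := by
  induction j with
  | zero =>
    intro m _ _ R Y hR _ h0
    rw [Finset.card_eq_zero.1 (Nat.le_zero.1 hR)] at h0
    exact absurd Finset.sum_empty h0
  | succ j ih =>
    intro m hm hn R Y hR hY h0
    obtain ⟨r₀, hr₀⟩ : R.Nonempty := Finset.nonempty_of_sum_ne_zero h0
    obtain ⟨hs₀, K₀, hK₀, hf₀⟩ := hY r₀ hr₀
    have l1 : m ≤ 16 ^ (j + 1) * m := Nat.le_mul_of_pos_left _ (by positivity)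
    by_cases hall : ∀ y ∈ K₀, Lcl S 𝒦 y → tw (s r₀) y (∑ r ∈ R, Y r) = ∑ r ∈ R, Y r
    · exact ⟨_, h0, ⟨r₀, hr₀, K₀, h.mono _ _ l1 hK₀, fun y hy =>
        petg_gen h (h.mono _ _ (l1.trans hn) hK₀) hall hy⟩,
        Nat.le_mul_of_pos_left _ (by positivity), fun U _ hU => hU, fun t _ => petg_mono h l1⟩
    simp only [not_forall] at hall
    obtain ⟨y, hy, hl, hne⟩ := hall
    have e : ∑ r ∈ R.erase r₀, (tw (s r₀) y (Y r) - Y r) =
        tw (s r₀) y (∑ r ∈ R, Y r) - ∑ r ∈ R, Y r := by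
      rw [rank_tw_sum, ← Finset.sum_sub_distrib]
      exact Finset.sum_erase R (by rw [hf₀ y hy, sub_self])
    rw [pow_succ 16, mul_assoc] at hn ⊢
    have l2 : 16 * m ≤ n := (Nat.le_mul_of_pos_left _ (by positivity)).trans hn
    obtain ⟨X, hX, ⟨r, hr, k1⟩, k2, k3, k4⟩ := ih (16 * m) (by omega) hn (R.erase r₀)
      (fun r => tw (s r₀) y (Y r) - Y r) (by rw [Finset.card_erase_of_mem hr₀]; omega)
      (fun r hr => ⟨(hY r (Finset.mem_of_mem_erase hr)).1, petg_step h hm l2 hl hs₀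
        (hY r (Finset.mem_of_mem_erase hr)).1 (hY r (Finset.mem_of_mem_erase hr)).2⟩)
      (by rw [e]; exact sub_ne_zero.2 hne)
    rw [e] at k2 k3 k4
    refine ⟨X, hX, ⟨r, Finset.mem_of_mem_erase hr, k1⟩, k2.trans ?_,
      fun U hB hU => k3 U hB (U.sub_mem ?_ hU),
      fun t ht hU => k4 t ht (petg_step h hm l2 hl hs₀ ht hU)⟩
    · rw [pow_succ, mul_assoc]
      exact Nat.mul_le_mul_left _ (rank_tw_sub _ _ _)
    · have h1 : y ∈ M := h.le m K₀ hK₀ hy
      exact (hB _ (M.inv_mem h1) _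
        (hB _ ((Subgroup.mem_normalizer_iff.1 (h.nm _ hs₀) y).1 h1) _ hU).1).2

end

theorem petG : StmtPetG := by
  intro W _ _ _ n S M 𝒦 h m hm
  exact ⟨fun hn y hy s hs t ht Y hY => petg_step h hm hn hy hs ht hY,
    fun q hn R s Y => petg_ind h s q m hm hn R Y (card_finset_fin_le R)⟩

end Pool.Agent.Work.MP_11a08a_al.Lin
end

-- merged part: Pool.Agent.Work.MP_11a08a_al.Lin.RedG
section
/-!
Copy `rank_comp` of `Sol/Rank`.  By `gen` for `M ∈ 𝒦 0` there is `y ∈ M` with `Lcl` and `tw (s l₀) y Y ≠ Y`.  The terms `α l • s l` are `LocK 𝒦 4 (s l)` with `K = M`, their differences are `LocK 𝒦 64` by `hP`.  Get `X`, `r`, `K`; `X₁ = (s r)⁻¹ * X` commutes with `K`.  Item ii of `hM` gives `X' ≠ 0` commuting with `M` and lying in every `Bim M` subspace that contains `X₁`.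
Apply this to `U₀ = {Z | range Z ≤ R}`, `R = ⨆ g ∈ M, (range X₁).map g`.  As `range X₁` is invariant under `K ⊔ Zs`, `R` is contained in the join of the images under representatives of the cosets of `K ⊔ Zs` in `M ⊔ Zs`, so `dim R ≤ I * rk X₁`.
-/

set_option autoImplicit false

open Finset Module Pool.Agent.Work.MP_11a08a_al.Sol
open scoped commutatorElement

namespace Pool.Agent.Work.MP_11a08a_al.Lin

section aux

variable {W : Type} [AddCommGroup W] [Module ℂ W] [FiniteDimensional ℂ W]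

theorem redg_sup {ι : Type} (J : Finset ι) (U : ι → Submodule ℂ W) {d : ℕ}
    (h : ∀ i, finrank ℂ (U i) ≤ d) : finrank ℂ ↥(J.sup U) ≤ J.card * d := by
  classical
  induction J using Finset.induction_on with
  | empty => simp
  | insert i J hi ih =>
    rw [Finset.sup_insert, Finset.card_insert_of_notMem hi, add_one_mul, add_comm]
    exact (Submodule.finrank_add_le_finrank_add_finrank _ _).trans (add_le_add (h i) ih)

theorem redg_inv {K M : Subgroup (End ℂ W)ˣ} (h0 : K.relIndex M ≠ 0) {X : End ℂ W} (hX : Cm K X) :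
    ∃ R : Submodule ℂ W, finrank ℂ R ≤ K.relIndex M * rk X ∧ (∀ w, X w ∈ R) ∧
      ∀ u ∈ M, ∀ w ∈ R, (u : End ℂ W) w ∈ R := by
  have : Finite (M ⧸ K.subgroupOf M) := Nat.finite_of_card_ne_zero h0
  let _ := Fintype.ofFinite (M ⧸ K.subgroupOf M)
  let U : M ⧸ K.subgroupOf M → Submodule ℂ W := fun c =>
    (LinearMap.range X).map ((c.out : M) : (End ℂ W)ˣ).1
  have key : ∀ (g : M) (w : W), (g.1 : End ℂ W) (X w) ∈ univ.sup U := fun g w => by
    have h1 : ((QuotientGroup.mk g : M ⧸ K.subgroupOf M).out)⁻¹ * g ∈ K.subgroupOf M :=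
      QuotientGroup.eq.1 (QuotientGroup.out_eq' _)
    refine Finset.le_sup (f := U) (mem_univ (QuotientGroup.mk g)) ⟨_, ⟨_, LinearMap.congr_fun
      (hX _ h1).symm w⟩, ?_⟩
    rw [← Module.End.mul_apply, ← mul_assoc, ← Units.val_mul, Subgroup.subtype_apply,
      ← Subgroup.coe_mul, mul_inv_cancel_left, Module.End.mul_apply]
  refine ⟨univ.sup U, ?_, key 1, fun u hu => ?_⟩
  · refine (redg_sup univ U fun c => Submodule.finrank_map_le _ _).trans (le_of_eq ?_)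
    rw [card_univ, ← Nat.card_eq_fintype_card]
    rfl
  · refine (Finset.sup_le_iff (a := (univ.sup U).comap (u : End ℂ W))).2 fun c _ => ?_
    rintro _ ⟨_, ⟨w, rfl⟩, rfl⟩
    exact key (⟨u, hu⟩ * c.out) w

end aux

theorem redG (hM : StmtMU) (hP : StmtPetG) : StmtRedG := by
  intro W _ _ _ _ q n I S M 𝒦 pet mu hn hI P α s hs l₀ hl₀ hc
  have hn' : 16 * 4 ≤ n := le_trans (Nat.le_mul_of_pos_left _ (by positivity)) hn
  obtain ⟨y, hy, hl, hne⟩ : ∃ y ∈ M, Lcl S 𝒦 y ∧ tw (s l₀) y (∑ l ∈ P, α l • (s l : End ℂ W)) -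
      ∑ l ∈ P, α l • (s l : End ℂ W) ≠ 0 := by
    by_contra h
    push Not at h
    refine hc fun u hu => (Subgroup.closure_le (rank_cen _)).2 (fun y hy => ?_)
      (pet.gen M (pet.mono 0 n n.zero_le pet.top) hu)
    have := rank_tw_eq (c := 1) ((sub_eq_zero.1 (h y hy.1 hy.2)).trans (one_smul ℂ _).symm)
    rwa [one_smul] at this
  have hS : ∀ l ∈ P.erase l₀, s l ∈ S := fun l hl => hs l (mem_of_mem_erase hl)
  have hs' : ∀ l ∈ P.erase l₀, Nm (s l) M := fun l hl => pet.nm _ (hS l hl)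
  obtain ⟨X, hX, ⟨r, hr, K, hK, he⟩, hrk, hU, -⟩ := (hP W n S M 𝒦 pet 64 (by norm_num)).2 q hn
    (P.erase l₀) s (fun l => tw (s l₀) y (α l • (s l : End ℂ W)) - α l • (s l : End ℂ W))
    (fun l hl' => ⟨hS l hl', (hP W n S M 𝒦 pet 4 le_rfl).1 hn' y hl _ (hs l₀ hl₀) _ (hS l hl') _
      ⟨M, pet.mono 0 4 (by norm_num) pet.top, fun y _ => by rw [rank_tw_smul, rank_tw_self]⟩⟩)
    (by rwa [rank_diff hl₀])
  have h1 := rank_shift (hs' r hr) (hU _ (rank_bim hs')
    (rank_diff_mem (pet.nm _ (hs l₀ hl₀)) hy hs' α))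
  have h2 : rk (↑(s r)⁻¹ * X : End ℂ W) ≤ 2 ^ q * 2 * rk (∑ l ∈ P, α l • (s l : End ℂ W)) := by
    rw [rank_diff hl₀] at hrk
    rw [mul_assoc]
    exact (rank_left _ _).trans (hrk.trans (Nat.mul_le_mul_left _ (rank_tw_sub _ _ _)))
  obtain ⟨X', a1, a2, -, a4, -⟩ := (hM ℂ W M mu).2.1 _ (rank_ne (s r)⁻¹ hX)
  have h3 : Cm (K ⊔ Zs ℂ W) (↑(s r)⁻¹ * X : End ℂ W) := fun u hu =>
    (sup_le (c := rank_cen _) (fun z hz => by
      have := rank_tw_eq (c := 1) ((he z hz).trans (one_smul ℂ _).symm)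
      rwa [one_smul] at this) fun z hz => rank_zs hz _) hu
  obtain ⟨R, b1, b2, b3⟩ := redg_inv (pet.idx _ hn K hK).1 h3
  have h4 : X' ∈ Submodule.compatibleMaps ⊤ R := a4 _ (fun u hu Y hY =>
    ⟨fun w _ => b3 u (Subgroup.mem_sup_left hu) _ (hY trivial), fun w _ => hY trivial⟩)
    fun w _ => b2 w
  refine ⟨r, mem_of_mem_erase hr, X', a1, a2, ?_, a4 _ (rank_bim fun l hl => ?_) h1⟩
  · have h5 : LinearMap.range X' ≤ R := by
      rintro _ ⟨w, rfl⟩
      exact h4 trivial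
    rw [mul_assoc]
    exact (Submodule.finrank_mono h5).trans (b1.trans (Nat.mul_le_mul (hI K hK) h2))
  · exact Subgroup.mul_mem _ (Subgroup.inv_mem _ (hs' r hr)) (hs' l hl)

end Pool.Agent.Work.MP_11a08a_al.Lin
end

-- merged part: Pool.Agent.Work.MP_11a08a_al.Lin.W2L
section
/-!
Copy `w2` of `Sol/W2` (reuse `w2_count`, `w2_conv`, `w2_drop`, `w2_gam`, `w2_nil`) with `F = ℂ`, `S = ⊤`, `m = k = Nat.card G`: `Ord ℂ N (card G)` as `orderOf s ∣ card G`, `n ^ card G = 1` acts as a scalar; `hstab` from `hQ`.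
-/

set_option autoImplicit false

open Finset Module Pool.Agent.Work.MP_11a08a_al.Sol
open scoped commutatorElement

namespace Pool.Agent.Work.MP_11a08a_al.Lin

theorem w2L (hG : StmtGainL) (hQ : StmtQB) (h0 : StmtNil0) (hS : StmtNilS) (hB : StmtBasic)
    (hC : StmtCoset) : StmtW2L := by
  intro q d B₀
  obtain ⟨T₁, hG'⟩ := hG q d
  choose Bf hBf using hG'
  obtain ⟨β, hβ⟩ := hC
  obtain ⟨B₅, h5⟩ := w2_nil h0 hS q B₀ 5
  refine ⟨fun η => 2 * ((T₁ : ℝ) + 1) / η, β,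
    fun η lam _ => ⌈2 / η⌉₊ + q * q * (1 + (q * q * Bf ⌈Real.exp lam⌉₊ + B₅)) + 1, ?_⟩
  intro G V κ _ _ _ _ _ _ _ ρ α P a x hR hSec hx
  have hT₁ : (0 : ℝ) ≤ T₁ := Nat.cast_nonneg _
  have hg : ∀ η : ℝ, 0 < η → 2 / η ≤ 2 * ((T₁ : ℝ) + 1) / η := fun η hη =>
    div_le_div_of_nonneg_right (by linarith) hη.le
  have hcard : 1 ≤ Nat.card G := Nat.card_pos
  have hNN : Nat.card G ≤ (2 * Nat.card G) ^ 2 := by nlinarith
  have hstab : ∀ i j, MinVan ρ α P (a i) (x j) → Rat P (a i) (Sol.stab ρ (x j)) := fun i j h =>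
    (hQ.1 G V q ρ α).2 (x j) P (a i) (hx j).1 h
  refine ⟨fun i h => h.1 h.2.1, fun I => Real.log (Nat.card (w2_gam P a I)), fun I => ⟨?_, ?_⟩,
    fun I I' hI => ?_, fun η lam δ hη _ hδ I hI hd => ?_⟩
  · exact Real.log_natCast_nonneg _
  · refine Real.log_le_log (by exact_mod_cast Nat.card_pos) ?_
    exact_mod_cast (Subgroup.card_le_card_group _).trans hNN
  · refine Real.log_le_log (by exact_mod_cast Nat.card_pos) ?_
    exact_mod_cast Subgroup.card_le_of_le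
      (w2_gam_le.2 fun i hi => w2_gam_le.1 le_rfl i (hI hi))
  obtain ⟨J, hJI, hJ, hrow⟩ := w2_count _ I η hη hI hd
  have hpos : (0 : ℝ) < I.card := by exact_mod_cast hI.card_pos
  have hηI : 0 < η * (I.card : ℝ) := mul_pos hη hpos
  have hRat : ∀ i ∈ I, ∀ j, MinVan ρ α P (a i) (x j) →
      Rat P (a i) (w2_gam P a I ⊓ Sol.stab ρ (x j)) := fun i hi j h l hl l' hl' =>
    ⟨w2_gam_le.1 le_rfl i hi l hl l' hl', hstab i j h l hl l' hl'⟩
  have hnv : ∀ j ∈ J, ¬ Van ρ α P (a j) (x j) := by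
    intro j hj
    obtain ⟨R, -, hR1, hR2⟩ := hrow j hj
    have hRne : R.Nonempty := by
      rw [← card_pos]
      have h1 : (0 : ℝ) < R.card := by linarith
      exact_mod_cast h1
    obtain ⟨i, hi⟩ := hRne
    exact (hR2 i hi).1
  by_cases hA : ∃ I' ⊆ I, (I.card : ℝ) ≤ 2 * ((T₁ : ℝ) + 1) / η * I'.card ∧
      Real.log (Nat.card (w2_gam P a I')) + lam ≤ Real.log (Nat.card (w2_gam P a I))
  · exact Or.inl hA
  right
  have hcov : ∀ j ∈ J, Cov (1 + (q * q * Bf ⌈Real.exp lam⌉₊ + B₅)) (a j)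
      fun b => Rat P b (w2_gam P a I ⊓ Sol.stab ρ (x j)) ∧ Van ρ α P b (x j) := by
    intro j hj
    obtain ⟨c1, -, c3, c4, c5⟩ := hB.1 G q (a j)
    by_cases hj1 : Rat P (a j) (Sol.stab ρ (x j))
    swap
    · exact c1 _ _ _ _ (Nat.le_add_right _ _) (fun b hb l hl l' hl' => (hb.1 l hl l' hl').2)
        (c4 P _ hj1)
    obtain ⟨R, hRI, hR1, hR2⟩ := hrow j hj
    have hRne : R.Nonempty := by
      rw [← card_pos]
      have h1 : (0 : ℝ) < R.card := by linarith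
      exact_mod_cast h1
    have hbot : x j ≠ ⊥ := by
      intro h
      refine hnv j hj fun w hw => ?_
      rw [h, Submodule.mem_bot] at hw
      simp [hw]
    have hjH : Rat P (a j) (w2_gam P a I ⊓ Sol.stab ρ (x j)) := fun l hl l' hl' =>
      ⟨w2_gam_le.1 le_rfl j (hJI hj) l hl l' hl', hj1 l hl l' hl'⟩
    rcases hBf ⌈Real.exp lam⌉₊ G V κ ρ α P (x j) (w2_gam P a I ⊓ Sol.stab ρ (x j)) R a hSec hbot
      (hx j).2 inf_le_right hRne
      (fun i hi => ⟨hRat i (hRI hi) j (hR2 i hi).2, (hR2 i hi).2⟩) with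
      ⟨K, I', k1, k2, k3, k4⟩ | ⟨N, n1, n2, n3, n6⟩
    · refine absurd ⟨I', k1.trans hRI, ?_, ?_⟩ hA
      · have k5 : (R.card : ℝ) ≤ T₁ * I'.card := by exact_mod_cast k3
        have k6 : (0 : ℝ) ≤ I'.card := Nat.cast_nonneg _
        rw [div_mul_eq_mul_div, le_div_iff₀ hη]
        nlinarith
      · exact w2_drop (w2_gam_le.2 k4)
          (w2_gam_le.2 fun i hi => hRat i (hRI (k1 hi)) j (hR2 i (k1 hi)).2) inf_le_left k2
    · have d1 := c5 P (w2_gam P a I ⊓ Sol.stab ρ (x j)) N _ Subgroup.index_ne_zero_of_finite n3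
      have hO : Ord ℂ N (Nat.card G) := by
        intro s _ z hz
        obtain ⟨c, hc⟩ := orderOf_dvd_natCard s
        rw [hc, pow_mul, hz, one_pow]
      have n4 : ((Nat.card G : ℕ) : ℂ) ≠ 0 := Nat.cast_ne_zero.2 Nat.card_pos.ne'
      have n5 : ∀ n ∈ N, Sol.Sc ρ (x j) (n ^ Nat.card G) := fun n _ =>
        ⟨1, fun w _ => by rw [pow_card_eq_one']; simp⟩
      have d2 := h5 ℂ G V ρ α (Nat.card G) (Nat.card G) P (a j) (x j) N hR
        hO n4 n5 (n1.trans inf_le_right) hj1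
        (fun l hl l' hl' => n2 (hjH l hl l' hl')) n6 (hnv j hj)
      refine c1 _ _ _ _ (Nat.le_add_left _ _) (fun b hb => ?_) (c3 _ _ _ _ d1 d2)
      by_cases hp : Pat P (a j) b N
      · exact Or.inr ⟨hp, hb.2⟩
      · exact Or.inl ⟨fun l hl l' hl' => Subgroup.mul_mem _ (Subgroup.inv_mem _ (hjH l hl l' hl'))
          (hb.1 l hl l' hl'), hp⟩
  have hJpos : (0 : ℝ) < J.card := by linarith
  have hq : Nonempty (Fin q) := by
    have hJne : J.Nonempty := by
      rw [← card_pos]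
      exact_mod_cast hJpos
    obtain ⟨j, hj⟩ := hJne
    by_contra hq
    refine hnv j hj fun w _ => ?_
    exact sum_eq_zero fun l _ => absurd ⟨l⟩ hq
  obtain ⟨v, w, y, K, t1, t2⟩ := w2_conv
    (b := ⌈2 / η⌉₊ + q * q * (1 + (q * q * Bf ⌈Real.exp lam⌉₊ + B₅)) + 1) hq
    (Nat.le_add_right _ _) ((Nat.le_add_left _ _).trans (Nat.le_succ _)) a J _ hcov
  refine ⟨J, hJI, ?_, fun s => CosetT (v s) (w s) (y s) (K s),
    fun s => hβ _ hg κ G (v s) (w s) (y s) (K s) (t1 s),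
    fun i hi j hj hZ => t2 i j hj ⟨hRat i (hJI hi) j hZ.2, hZ.2.1⟩⟩
  have u1 : (1 : ℝ) ≤ (((2 * Nat.card G) ^ 2 : ℕ) : ℝ) ^ δ :=
    Real.one_le_rpow (by exact_mod_cast hcard.trans hNN) hδ.le
  have u2 : 2 / η ≤
      ((⌈2 / η⌉₊ + q * q * (1 + (q * q * Bf ⌈Real.exp lam⌉₊ + B₅)) + 1 : ℕ) : ℝ) :=
    (Nat.le_ceil _).trans (by exact_mod_cast (Nat.le_add_right _ _).trans (Nat.le_succ _))
  have u3 : (I.card : ℝ) ≤ 2 / η * J.card := by
    rw [div_mul_eq_mul_div, le_div_iff₀ hη]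
    linarith
  refine u3.trans (mul_le_mul_of_nonneg_right (u2.trans ?_) hJpos.le)
  exact le_mul_of_one_le_right (Nat.cast_nonneg _) u1

end Pool.Agent.Work.MP_11a08a_al.Lin
end

-- merged part: Pool.Agent.Work.MP_11a08a_al.Lin.CoreL
section
/-!
Copy `core` of `Sol/Core` (reuse its lemmas) with `F = ℂ`, `S = ⊤`.  Changes: `hA` at `δ / 4`, `hR` at `δ / 2` with `N = Nat.card G` (`hI`), so `K ≤ c' * card G ^ (δ / 2)`.  The columns of the tests are `x j = U j`, where `U j ≤ W.map (ρ j)` is given by `hQ` for the tuple `j * h l * j⁻¹`; `Van` passes from `W.map (ρ j)` to `U j`.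
-/

set_option autoImplicit false

open Finset Module Pool.Agent.Work.MP_11a08a_al.Sol
open scoped commutatorElement

namespace Pool.Agent.Work.MP_11a08a_al.Lin

theorem coreL (hA : StmtAbs) (hW : StmtW2L) (hBl : StmtBlock) (hRB : StmtRB) (hR : StmtRankL)
    (hS : StmtSec) (hI : StmtSecI) (hQ : StmtQB) (hB : StmtBasic) : StmtCoreL := by
  intro q m B₀ δ hδ
  obtain ⟨g, β, β', hW'⟩ := hW q m B₀
  obtain ⟨c, c0, hc⟩ := hA g β β' (Fintype.card (Finset (Fin q))) (δ / 4) (by positivity)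
  obtain ⟨c', c0', hc'⟩ := hR q m (δ / 2) (by positivity)
  refine ⟨2 * c * 2 ^ (δ / 2) * (2 * q + 1) * c', by positivity, ?_⟩
  intro G V _ _ _ _ _ ρ α h hV hRat hSec hD
  classical
  have := Fintype.ofFinite G
  have hG : 0 < Nat.card G := Nat.card_pos
  obtain ⟨K, hK1, hK⟩ := hc' (Nat.card G) hG
  have : Nontrivial V := by
    by_contra hn
    rw [not_nontrivial_iff_subsingleton] at hn
    exact hD (LinearMap.ext fun v => Subsingleton.elim _ _)
  obtain ⟨W₀, hW₀, hb₀⟩ := hBl ℂ G V ρ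
  obtain ⟨g₀, hg₀⟩ : ∃ g₀, ¬ Van ρ α univ h (W₀.map (ρ g₀)) := by
    by_contra hn
    push Not at hn
    refine hD (LinearMap.ker_eq_top.1 (top_le_iff.1 ?_))
    rw [← core_top ρ hV hW₀]
    exact iSup_le fun g => (core_ker ρ α univ h _).1 (hn g)
  obtain ⟨W, hWv, hb⟩ : ∃ W : Submodule ℂ V, ¬ Van ρ α univ h W ∧
      ∀ g, Blk ρ (W.map (ρ g)) ∧ Prim (resU ρ (W.map (ρ g))).range := by
    refine ⟨_, hg₀, fun g => ?_⟩
    rw [core_map]
    exact hb₀ _
  have hne : ∀ (P : Finset (Fin q)) (y : Submodule ℂ V), ¬ Van ρ α P h y → y ≠ ⊥ := by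
    rintro P y hy rfl
    exact hy ((core_ker ρ α P h _).2 bot_le)
  have h1 : finrank ℂ V ≤ (univ.image fun g => W.map (ρ g)).card * finrank ℂ W := by
    rw [← finrank_top ℂ V, ← core_top ρ hV (hne _ _ hWv), ← sup_univ_eq_iSup,
      ← Function.id_comp (fun g => W.map (ρ g)), ← sup_image]
    refine core_sup _ _ fun x hx => ?_
    obtain ⟨g, -, rfl⟩ := mem_image.1 hx
    exact Submodule.finrank_map_le _ _
  obtain ⟨κ, hκ1, hκ2⟩ := MV.pack (univ.filter fun g => ¬ Van ρ α univ h (W.map (ρ g)))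
    (mem_filter.2 ⟨mem_univ _, by rwa [core_one]⟩)
  have h2 := core_cnt (fun g => W.map (ρ g)) (fun c a b e => by
    rw [← core_map, ← core_map, e]) (fun y => ¬ Van ρ α univ h y) _ hκ2
  have : NeZero (2 * Nat.card G) := ⟨by omega⟩
  have hU : ∀ j : G, ∃ U ≤ W.map (ρ j), ¬ Van ρ α univ (fun l => j * h l * j⁻¹) U ∧
      QBlk q ρ U ∧ QPrim q (resU ρ U).range := fun j =>
    (hQ.1 G V q ρ α).1 _ _ (hb j).1 (by rwa [core_van, inv_mul_cancel, core_one])
  choose U hU1 hU2 hU3 using hU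
  have h3 := hc κ (2 * Nat.card G) ((2 * Nat.card G) ^ 2) (Finset (Fin q))
    (fun P i j => ¬ Van ρ α P (fun l => j.1 * h l * j.1⁻¹) (U j.1) ∧
      MinVan ρ α P (fun l => i.1 * h l * i.1⁻¹) (U j.1))
    (Nat.one_le_pow _ _ (by omega)) le_rfl
    (fun P => hW' G V κ ρ α P (fun i l => i.1 * h l * i.1⁻¹) (fun j => U j.1) hRat
      hSec fun j => hU3 _) fun i j hij => by
      have k1 : Van ρ α univ (fun l => i.1 * h l * i.1⁻¹) (W.map (ρ j.1)) := by
        rw [core_van]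
        by_contra k
        exact hκ1 _ i.2 _ j.2 (fun e => hij (Subtype.ext e)) (mem_filter.2 ⟨mem_univ _, k⟩)
      obtain ⟨P, -, k3, k4⟩ := (hB.2.2.2 ℂ G V ρ q α (U j.1)).1 _ _ _
        (fun w hw => k1 w (hU1 _ hw)) (hU2 j.1)
      exact ⟨P, k4, k3⟩
  have h4 := hRB ℂ G V ρ q K (finrank ℂ W) α h W
    ((univ.filter fun g => ¬ Van ρ α univ h (W.map (ρ g))).image fun g => W.map (ρ g))
    (core_one ρ W ▸ (hb 1).1) fun y hy => by
      obtain ⟨g, hg, rfl⟩ := mem_image.1 hy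
      refine ⟨⟨g, rfl⟩, (mem_filter.1 hg).2, fun P hP hv => ?_⟩
      have k0 : finrank ℂ W ≤ finrank ℂ (W.map (ρ g)) := by
        conv_lhs => rw [← core_one ρ W, ← inv_mul_cancel g, ← core_map]
        exact Submodule.finrank_map_le _ _
      have hp := (hb g).2
      generalize W.map (ρ g) = y at hP hv k0 hp
      have : Nontrivial y := Submodule.nontrivial_iff_ne_bot.2 (hne P y hv)
      obtain ⟨l₀, hl₀⟩ : P.Nonempty := by
        refine nonempty_iff_ne_empty.2 ?_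
        rintro rfl
        exact hv fun w _ => sum_empty
      obtain ⟨r, hr⟩ : ∃ r : Fin q → Sol.stab ρ y, ∀ l ∈ P, (r l).1 = (h l₀)⁻¹ * h l :=
        ⟨fun l => if hl : l ∈ P then ⟨_, hP l₀ hl₀ l hl⟩ else 1, fun l hl => by
          simp only [dif_pos hl]⟩
      obtain ⟨s1, s2, s3, -, -⟩ := hS ℂ G V ρ y ⊤
      obtain ⟨t1, t2, t3⟩ := hI G V ρ y
      refine k0.trans ((hK y _ (imS ρ y ⊤) hp le_sup_right s2 t1 ?_ (t3 m hSec) P α
        (fun l => resU ρ y (r l)) (fun l _ => t2 ⟨r l, rfl⟩) fun e => ?_).trans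
        (Nat.mul_le_mul_left _ (core_rk ρ α P h y r _ hr)))
      · rintro _ ⟨u, rfl⟩
        refine s3 u ?_
        rw [Subgroup.normalizer_eq_top]
        exact Subgroup.mem_top _
      · exact hv (((hB.2.2.2 ℂ G V ρ q α y).2.2.2.2 P h r _ hr).1.2 e)
  have h5 : finrank ℂ V ≤ 2 * κ.card * ((2 * q + 1) * K * rk (∑ l, α l • ρ (h l))) := by
    refine h1.trans ((Nat.mul_le_mul_right _ h2).trans ?_)
    rw [mul_assoc]
    exact Nat.mul_le_mul_left _ h4
  have h6 : (((2 * Nat.card G) ^ 2 : ℕ) : ℝ) ^ (δ / 4) =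
      2 ^ (δ / 2) * (Nat.card G : ℝ) ^ (δ / 2) := by
    rw [← Real.mul_rpow (by norm_num) (by positivity), Nat.cast_pow, ← Real.rpow_natCast,
      ← Real.rpow_mul (by positivity)]
    congr 1
    · push_cast
      rfl
    · push_cast
      ring
  have h7 : (Nat.card G : ℝ) ^ δ = (Nat.card G : ℝ) ^ (δ / 2) * (Nat.card G : ℝ) ^ (δ / 2) := by
    rw [← Real.rpow_add (by exact_mod_cast hG), add_halves]
  rw [h6, Fintype.card_coe] at h3
  calc (finrank ℂ V : ℝ)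
      ≤ 2 * κ.card * ((2 * q + 1) * K * rk (∑ l, α l • ρ (h l))) := by exact_mod_cast h5
    _ ≤ 2 * (c * (2 ^ (δ / 2) * (Nat.card G : ℝ) ^ (δ / 2))) *
        ((2 * q + 1) * (c' * (Nat.card G : ℝ) ^ (δ / 2)) * rk (∑ l, α l • ρ (h l))) := by gcongr
    _ = _ := by rw [h7]; ring

end Pool.Agent.Work.MP_11a08a_al.Lin
end

-- merged part: Pool.Agent.Work.MP_11a08a_al.Lin.FinL
section
/-!
As `final` in `Sol/Fin`, only the case of characteristic zero and without the shift by `h 0`: `fin_num`, `fin_step` with `L = ℂ`.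
-/

set_option autoImplicit false

open Finset Module Pool.Agent.Work.MP_11a08a_al.Sol
open scoped commutatorElement

namespace Pool.Agent.Work.MP_11a08a_al.Lin

theorem finL (hC : StmtCoreL) (hI : StmtIdeal) (hCh : StmtChange) (hR : StmtRatio) : StmtFinL := by
  intro ε hε q m
  obtain ⟨⟨B, hB⟩, -⟩ := hR q
  obtain ⟨c, p1, H⟩ := hC q m B (ε ^ 2 / 2) (by positivity)
  obtain ⟨N, hN⟩ := fin_num ε hε c p1
  refine ⟨N, fun n hn F _ _ G _ _ hS ρ hirr hg h α hne => hN n hn (Nat.card G) _ hg ?_⟩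
  have := Fintype.ofFinite G
  exact fin_step hI hCh ρ α h hirr hne ℂ (Or.inr ⟨inferInstance, inferInstance, inferInstance⟩)
    (by positivity) fun β V _ _ _ σ a b => H G V σ β h a (hB _ Nat.card_pos) hS b

end Pool.Agent.Work.MP_11a08a_al.Lin
end
end

-- merged part: Pool.Agent.Work.MP_11a08a_al.Lin.Cls
section
-- merged part: Pool.Agent.Work.MP_11a08a_al.Lin.K5
section
/-!
For `x ∈ O` the map `x' = h x h⁻¹` is linear (check on each sort; `P true ⊔ P false = ⊤`).  For `(x, y) ∈ R`, `z = y⁻¹ x'` maps each homogeneous vector into its span, so is a scalar on each sort (dimension at least 2); such maps commute with `O` and with each other.  Hence `⁅x₁, x₂⁆' = ⁅y₁, y₂⁆`.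
The `x ∈ A ⊤` with the first property form a subgroup containing all commutators, likewise for `y`; `A ⊤` is perfect.
-/

set_option autoImplicit false

open Module
open scoped commutatorElement

namespace Pool.Agent.Work.MP_11a08a_al.Lin

section

variable {K V : Type} [Field K] [AddCommGroup V] [Module K V] {p : Polar K V}

theorem k5_dec (p : Polar K V) (v : V) : ∃ a ∈ p.P true, ∃ b ∈ p.P false, a + b = v := by
  rcases p.sorts with h | h
  · exact ⟨v, by simp [h], 0, zero_mem _, add_zero v⟩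
  · exact Submodule.mem_sup.1 (h.1.sup_eq_top ▸ Submodule.mem_top)

theorem k5_conj {h : V ≃+ V} (hh : p.Semi h) {x : V ≃ₗ[K] V} (hx : x ∈ p.O) :
    ∃ x' : V ≃ₗ[K] V, ∀ v, x' (h v) = h (x v) := by
  obtain ⟨θ, f, h1, h2⟩ := hh
  have key : ∀ (c : K) s, ∀ v ∈ p.P s, h (x (h.symm (c • h v))) = c • h (x v) := by
    intro c s v hv
    obtain ⟨a, rfl⟩ := (θ s).surjective c
    rw [← h2 s v hv, h.symm_apply_apply, map_smul, h2 s _ ((hx.2.2 s v).2 hv)]
  refine ⟨{ (h.symm.trans x.toAddEquiv).trans h with map_smul' := fun c w => ?_ }, fun v => ?_⟩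
  · obtain ⟨v, rfl⟩ := h.surjective w
    obtain ⟨a, ha, b, hb, rfl⟩ := k5_dec p v
    change h (x (h.symm (c • h (a + b)))) = c • h (x (h.symm (h (a + b))))
    rw [h.symm_apply_apply]
    simp only [map_add, smul_add, key c _ a ha, key c _ b hb]
  · change h (x (h.symm (h v))) = _
    rw [h.symm_apply_apply]

theorem k5_scal {z : V ≃ₗ[K] V} (hz : ∀ s, ∀ w ∈ p.P s, z w ∈ Submodule.span K {w}) :
    ∃ ζ, p.Scal ζ z := by
  have key : ∀ s, ∃ ζ : K, ∀ w ∈ p.P s, z w = ζ • w := by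
    intro s
    have hm : ∀ w ∈ p.P s, (z : V →ₗ[K] V) w ∈ p.P s := fun w hw =>
      (Submodule.span_singleton_le_iff_mem _ _).2 hw (hz s w hw)
    obtain ⟨a, ha⟩ := LinearMap.exists_eq_smul_id_of_forall_notLinearIndependent
      (f := (z : V →ₗ[K] V).restrict hm) fun v hv => by
        obtain ⟨c, hc⟩ := Submodule.mem_span_singleton.1 (hz s v v.2)
        have h := LinearIndependent.pair_iff.1 hv c (-1) (Subtype.ext (by simp [hc]))
        exact neg_ne_zero.2 one_ne_zero h.2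
    exact ⟨a, fun w hw => congrArg Subtype.val (LinearMap.congr_fun ha ⟨w, hw⟩)⟩
  choose ζ hζ using key
  exact ⟨ζ, hζ⟩

theorem k5_comm {ζ : Bool → K} {z y : V ≃ₗ[K] V} (hz : p.Scal ζ z)
    (hy : ∀ s, ∀ w ∈ p.P s, y w ∈ p.P s) : z * y = y * z := by
  ext v
  obtain ⟨a, ha, b, hb, rfl⟩ := k5_dec p v
  simp only [LinearEquiv.mul_apply, map_add, hz _ a ha, hz _ b hb, hz _ _ (hy _ a ha),
    hz _ _ (hy _ b hb), map_smul]

theorem k5_br {G : Type} [Group G] {y y' z z' : G} (h1 : z * y = y * z) (h2 : z * y' = y' * z)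
    (h3 : z' * y = y * z') (h4 : z' * y' = y' * z') (h5 : z * z' = z' * z) :
    ⁅y * z, y' * z'⁆ = ⁅y, y'⁆ := by
  have e : y * z * (y' * z') = y * y' * (z * z') := by
    rw [mul_assoc, ← mul_assoc z, h2]; group
  have e' : y' * z' * (y * z) = y' * y * (z * z') := by
    rw [mul_assoc, ← mul_assoc z', h3, h5]; group
  have t : ∀ a b : G, ⁅a, b⁆ = a * b * (b * a)⁻¹ := fun a b => by
    rw [commutatorElement_def]; group
  rw [t, t, e, e']
  group

theorem k5_pair {h : V ≃+ V} (hh : p.Semi h) {x y x' y' : V ≃ₗ[K] V} (hx : x ∈ p.O) (hy : y ∈ p.O)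
    (hx' : x' ∈ p.O) (hy' : y' ∈ p.O)
    (H : ∀ s, ∀ v ∈ p.P s, y (h v) ∈ Submodule.span K {h (x v)})
    (H' : ∀ s, ∀ v ∈ p.P s, y' (h v) ∈ Submodule.span K {h (x' v)}) :
    ∀ v, ⁅y, y'⁆ (h v) = h (⁅x, x'⁆ v) := by
  have key : ∀ x y : V ≃ₗ[K] V, x ∈ p.O →
      (∀ s, ∀ v ∈ p.P s, y (h v) ∈ Submodule.span K {h (x v)}) →
      ∃ z ζ, p.Scal ζ z ∧ ∀ v, (y * z) (h v) = h (x v) := by
    intro x y hx H
    obtain ⟨u, hu⟩ := k5_conj hh hx
    obtain ⟨θ, f, h1, -⟩ := hh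
    obtain ⟨ζ, hζ⟩ := k5_scal (p := p) (z := y⁻¹ * u) fun t w hw => by
      obtain ⟨v, rfl⟩ := h.surjective w
      obtain ⟨s, rfl⟩ := f.surjective t
      obtain ⟨c, hc⟩ := Submodule.mem_span_singleton.1 (H s v ((h1 s v).1 hw))
      by_cases h0 : c = 0
      · rw [h0, zero_smul, eq_comm, map_eq_zero_iff _ y.injective] at hc
        simp [hc]
      · refine Submodule.mem_span_singleton.2 ⟨c⁻¹, ?_⟩
        rw [LinearEquiv.mul_apply, hu]
        apply y.injective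
        rw [map_smul, ← hc, inv_smul_smul₀ h0]
        exact (y.apply_symm_apply _).symm
    exact ⟨_, ζ, hζ, fun v => by rw [mul_inv_cancel_left, hu]⟩
  obtain ⟨z, ζ, hz, e⟩ := key x y hx H
  obtain ⟨z', ζ', hz', e'⟩ := key x' y' hx' H'
  have o : ∀ y ∈ p.O, ∀ s, ∀ w ∈ p.P s, y w ∈ p.P s := fun y hy s w hw => (hy.2.2 s w).2 hw
  have i : ∀ a b : V ≃ₗ[K] V, (∀ v, a (h v) = h (b v)) → ∀ v, a⁻¹ (h v) = h (b⁻¹ v) := by
    intro a b hab v
    apply a.injective
    rw [hab]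
    exact (a.apply_symm_apply _).trans (congrArg h (b.apply_symm_apply _).symm)
  intro v
  rw [← k5_br (k5_comm hz (o y hy)) (k5_comm hz (o y' hy')) (k5_comm hz' (o y hy))
    (k5_comm hz' (o y' hy')) (k5_comm hz fun s w hw => by
      rw [hz' s w hw]; exact Submodule.smul_mem _ _ hw)]
  simp only [commutatorElement_def]
  rw [LinearEquiv.mul_apply, i _ _ e', LinearEquiv.mul_apply, i _ _ e, LinearEquiv.mul_apply, e', e]
  rfl

end

theorem k5 (hB : StmtPB) (hE : StmtPE) (hQ : StmtQS) : StmtK5 := by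
  intro K V _ _ _ _ _ p R h hr hR hh H
  have hp := (hQ K V p ⊤ (hB K V p).2.2.2.2.1 hr).2.2.1
  have hO : p.A ⊤ ≤ p.O := fun x hx => (((hE K V p).2.2.2.2.2.2.2.2.2.1 ⊤).1 hx).1
  let S : Subgroup ((V ≃ₗ[K] V) × (V ≃ₗ[K] V)) :=
    { carrier := {u | u ∈ R ∧ ∀ v, u.2 (h v) = h (u.1 v)}
      one_mem' := ⟨R.one_mem, fun _ => rfl⟩
      mul_mem' := fun {a b} ha hb => ⟨R.mul_mem ha.1 hb.1, fun v => by
        rw [Prod.snd_mul, LinearEquiv.mul_apply, hb.2, ha.2]; rfl⟩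
      inv_mem' := fun {a} ha => ⟨R.inv_mem ha.1, fun v => by
        apply a.2.injective
        rw [ha.2]
        exact (a.2.apply_symm_apply _).trans (congrArg h (a.1.apply_symm_apply _).symm)⟩ }
  have key : ∀ x y x' y', (x, y) ∈ R → (x', y') ∈ R → (⁅x, x'⁆, ⁅y, y'⁆) ∈ S := by
    intro x y x' y' h1 h2
    have h3 := R.mul_mem (R.mul_mem (R.mul_mem h1 h2) (R.inv_mem h1)) (R.inv_mem h2)
    refine ⟨h3, ?_⟩
    exact k5_pair hh (hO (hR.le h1).1) (hO (hR.le h1).2) (hO (hR.le h2).1) (hO (hR.le h2).2)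
      (H x y h1) (H x' y' h2)
  constructor
  · have t : p.A ⊤ ≤ S.map (MonoidHom.fst _ _) := by
      rw [← hp, Subgroup.commutator_le]
      intro x hx x' hx'
      obtain ⟨y, hy⟩ := hR.left x hx
      obtain ⟨y', hy'⟩ := hR.left x' hx'
      exact ⟨_, key x y x' y' hy hy', rfl⟩
    intro x hx
    obtain ⟨u, hu, rfl⟩ := t hx
    exact ⟨u.2, hu.1, hu.2⟩
  · have t : p.A ⊤ ≤ S.map (MonoidHom.snd _ _) := by
      rw [← hp, Subgroup.commutator_le]
      intro y hy y' hy'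
      obtain ⟨x, hx⟩ := hR.right y hy
      obtain ⟨x', hx'⟩ := hR.right y' hy'
      exact ⟨_, key x y x' y' hx hx', rfl⟩
    intro y hy
    obtain ⟨u, hu, rfl⟩ := t hy
    exact ⟨u.1, hu.1, hu.2⟩

end Pool.Agent.Work.MP_11a08a_al.Lin
end

-- merged part: Pool.Agent.Work.MP_11a08a_al.Lin.K6
section
/-!
Orthogonality: for homogeneous `w`, `perp (span {w})` is spanned by the `b v - v` with `b ∈ A ⊤`, `b w = w` (`hBR`); this set is closed under scalars, and `h (b v - v) = b' (h v) - h v` with `b' (h w) = h w` is orthogonal to `h w`.  With the same for `h.symm`: `β (h v) (h w) = 0 ↔ β v w = 0`.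
For `0 ≠ w ∈ P (!s)` the functional `v ↦ (θ s)⁻¹ (β (h v) (h w))` on `P s` is linear with the kernel of `v ↦ β v w ≠ 0`, so it is `c w * β v w`; `c` is constant (additivity in `w`; independent `w, w'` give independent functionals, item 1 of `hB`).  Replacing `w` by `a • w` gives `σ (θ (!s) a) = θ s (σ a)`, so `θ true = θ false` by `hL`.
If all `P s = ⊤` take `h' = h`; singular vectors: for singular `x ≠ 0` take a singular `w ⊥ x` outside `span {x}`, the Eichler map `e`, `v` with `e v = v + x`, `β v x = 0`; the partner `y ∈ O` has `y (h v) = h v + h x`, and `g_add` shows that `h x` is singular; the same for `h.symm`.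
In the split case compose `h` with the map that is `1` on `P (f true)` and `σ c⁻¹` on `P (f false)`, so that the constant for `s = true` is `1`; by `β_symm` the other constant is `1`; `g (a + b) (a + b) ≡ β a b` for `a ∈ P true`, `b ∈ P false`, and `hL`.
-/

set_option autoImplicit false

open Module
open scoped commutatorElement

namespace Pool.Agent.Work.MP_11a08a_al.Lin

section

variable {K V : Type} [Field K] [AddCommGroup V] [Module K V]

theorem k6_ker (T : Submodule K V) {F G : V → K}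
    (hF : ∀ (a b : K), ∀ u ∈ T, ∀ v ∈ T, F (a • u - b • v) = a * F u - b * F v)
    (hG : ∀ (a b : K), ∀ u ∈ T, ∀ v ∈ T, G (a • u - b • v) = a * G u - b * G v)
    (h : ∀ v ∈ T, F v = 0 → G v = 0) : ∃ c, ∀ v ∈ T, G v = c * F v := by
  by_cases h0 : ∀ v ∈ T, F v = 0
  · exact ⟨0, fun v hv => by rw [h v hv (h0 v hv), zero_mul]⟩
  · push Not at h0
    obtain ⟨u, hu, h1⟩ := h0
    refine ⟨G u / F u, fun v hv => ?_⟩
    have h2 := h _ (T.sub_mem (T.smul_mem (F u) hv) (T.smul_mem (F v) hu))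
      (by rw [hF _ _ _ hv _ hu]; ring)
    rw [hG _ _ _ hv _ hu] at h2
    field_simp
    linear_combination h2

variable (p : Polar K V)

theorem k6_dec (v : V) : ∃ a ∈ p.P true, ∃ b ∈ p.P false, a + b = v := by
  rcases p.sorts with h | h
  · exact ⟨v, by simp [h], 0, by simp, add_zero v⟩
  · exact Submodule.mem_sup.1 (h.1.sup_eq_top ▸ Submodule.mem_top)

theorem k6_nd {s : Bool} {z : V} (hz : z ∈ p.P (!s)) (h : ∀ u ∈ p.P s, p.β u z = 0) : z = 0 := by
  refine p.nd z fun w => ?_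
  change p.β z w = 0
  rw [p.β_comm]
  rcases p.sorts with h1 | h1
  · exact h w (by simp [h1])
  · obtain ⟨a, ha, b, hb, rfl⟩ := k6_dec p w
    rw [p.β_add_left]
    cases s
    · rw [h b hb, add_zero]
      exact (h1.2 true a ha).2 z hz
    · rw [h a ha, zero_add]
      exact (h1.2 false b hb).2 z hz

theorem k6_sep {s : Bool} {w w' : V} (hw : w ∈ p.P (!s)) (hw' : w' ∈ p.P (!s))
    (h : w ∉ Submodule.span K {w'}) : ∃ u ∈ p.P s, p.β u w = 1 ∧ p.β u w' = 0 := by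
  by_contra h0
  push Not at h0
  obtain ⟨c, hc⟩ := k6_ker (p.P s) (F := fun u => p.β u w') (G := fun u => p.β u w)
    (by intros; simp) (by intros; simp) fun u hu h1 => by
      by_contra h2
      exact h0 ((p.β u w)⁻¹ • u) ((p.P s).smul_mem _ hu) (by simp [h2]) (by simp [h1])
  have := k6_nd p ((p.P _).sub_mem hw ((p.P _).smul_mem (p.σ c) hw')) fun u hu => by
    simp [hc u hu]
  exact h (Submodule.mem_span_singleton.2 ⟨p.σ c, (sub_eq_zero.1 this).symm⟩)

theorem k6_sing {a b : V} (ha : p.Sing a) (hb : p.Sing b) : p.Sing (a + b) ↔ p.β a b ∈ p.Λ := by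
  have h := p.Λ.add_mem (p.g_add a b) (p.Λ.add_mem ha hb)
  rw [show p.g (a + b) (a + b) - (p.g a a + p.g b b + p.β a b) + (p.g a a + p.g b b) =
    p.g (a + b) (a + b) - p.β a b by ring] at h
  exact ⟨fun h1 => by simpa using p.Λ.sub_mem h1 h, fun h1 => by
    simpa [Polar.Sing] using p.Λ.add_mem h h1⟩

/-- The hypotheses on the map. -/
def k6_good (h : V ≃+ V) : Prop :=
  p.Semi h ∧ (∀ x ∈ p.A ⊤, ∃ y ∈ p.A ⊤, ∀ v, y (h v) = h (x v)) ∧
    ∀ y ∈ p.A ⊤, ∃ x ∈ p.A ⊤, ∀ v, y (h v) = h (x v)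

variable {p}

theorem k6_symm {h : V ≃+ V} (H : k6_good p h) : k6_good p h.symm := by
  obtain ⟨⟨θ, f, h1, h2⟩, h3, h4⟩ := H
  have e : ∀ s v, h.symm v ∈ p.P (f.symm s) ↔ v ∈ p.P s := fun s v => by
    rw [← h1]; simp
  refine ⟨⟨fun s => (θ (f.symm s)).symm, f.symm, e, fun s v hv a => ?_⟩, fun x hx => ?_,
    fun y hy => ?_⟩
  · rw [h.symm_apply_eq, h2 _ _ ((e s v).2 hv)]
    simp
  · obtain ⟨y, hy, e⟩ := h4 x hx
    exact ⟨y, hy, fun v => by rw [h.eq_symm_apply, ← e]; simp⟩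
  · obtain ⟨x, hx, e⟩ := h3 y hy
    exact ⟨x, hx, fun v => by rw [h.eq_symm_apply, ← e]; simp⟩

theorem k6_O (hE : StmtPE) {y : V ≃ₗ[K] V} (hy : y ∈ p.A ⊤) : y ∈ p.O :=
  (((hE K V p).2.2.2.2.2.2.2.2.2.1 ⊤).1 hy).1

variable [Finite K] [FiniteDimensional K V]

theorem k6_orth (hB : StmtPB) (hE : StmtPE) (hBR : StmtBR) (hr : 100 ≤ p.rk ⊤) {h : V ≃+ V}
    (H : k6_good p h) {s : Bool} {v w : V} (hw : w ∈ p.P s) (e : p.β v w = 0) :
    p.β (h v) (h w) = 0 := by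
  have h1 := (hBR K V p hr _ ((hB K V p).2.2.2.1 s w hw)
    ((finrank_span_le_card _).trans (by simp))).2.2.2.2.2.2
  have h2 : v ∈ p.perp (Submodule.span K {w}) := fun u hu => by
    obtain ⟨a, rfl⟩ := Submodule.mem_span_singleton.1 hu
    simp [e]
  have h3 : ∀ u ∈ Submodule.span K {u | ∃ b ∈ p.A ⊤,
      (∀ t ∈ Submodule.span K {w}, b t = t) ∧ ∃ v, u = b v - v},
      ∀ a : K, p.β (h (a • u)) (h w) = 0 := by
    intro u hu
    induction hu using Submodule.span_induction with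
    | mem u hu =>
      obtain ⟨b, hb, h4, v, rfl⟩ := hu
      obtain ⟨y, hy, h5⟩ := H.2.1 b hb
      intro a
      have h6 := (k6_O hE hy).1 (h (a • v)) (h w)
      rw [h5 w, h4 w (Submodule.mem_span_singleton_self w)] at h6
      rw [smul_sub, ← map_smul, map_sub, ← h5, p.β_sub_left, h6, sub_self]
    | zero => simp
    | add u u' _ _ ih ih' => intro a; rw [smul_add, map_add, p.β_add_left, ih, ih', add_zero]
    | smul c u _ ih => intro a; rw [smul_smul, ih]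
  simpa using h3 v (h1 h2) 1

omit [Finite K] in
theorem k6_out (hB : StmtPB) (hr : 100 ≤ p.rk ⊤) (s : Bool) (w : V) :
    ∃ u ∈ p.P s, u ∉ Submodule.span K {w} := by
  by_contra h
  push Not at h
  have h1 := ((hB K V p).2.2.2.2.2.1 ⊤ (hB K V p).2.2.2.2.1).2.2.1 s
  have h2 : finrank K ↥(⊤ ⊓ p.P s) ≤ finrank K (Submodule.span K {w}) :=
    Submodule.finrank_mono fun u hu => h u hu.2
  have h3 : finrank K (Submodule.span K {w}) ≤ 1 := (finrank_span_le_card _).trans (by simp)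
  omega

theorem k6_const (hB : StmtPB) (hE : StmtPE) (hBR : StmtBR) (hr : 100 ≤ p.rk ⊤) {h : V ≃+ V}
    (H : k6_good p h) {θ : K ≃+* K} {s : Bool}
    (hθ : ∀ v ∈ p.P s, ∀ a : K, h (a • v) = θ a • h v) :
    ∃ c : K, c ≠ 0 ∧ ∀ v ∈ p.P s, ∀ w ∈ p.P (!s), p.β (h v) (h w) = c * θ (p.β v w) := by
  have h1 : ∀ w ∈ p.P (!s), ∃ c, ∀ v ∈ p.P s, θ.symm (p.β (h v) (h w)) = c * p.β v w :=
    fun w hw => k6_ker (p.P s) (F := fun v => p.β v w) (by intros; simp)
      (fun a b u hu v hv => by simp [hθ _ hu, hθ _ hv])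
      fun v _ e => by rw [k6_orth hB hE hBR hr H hw e, map_zero]
  choose! c hc using h1
  have h2 : ∀ w ∈ p.P (!s), ∀ w' ∈ p.P (!s), w ≠ 0 → w' ∉ Submodule.span K {w} → c w = c w' := by
    intro w hw w' hw' h0 h3
    obtain ⟨u', hu', a1, a2⟩ := k6_sep p hw' hw h3
    obtain ⟨u, hu, b1, b2⟩ := k6_sep p hw hw' fun h4 => by
      obtain ⟨a, rfl⟩ := Submodule.mem_span_singleton.1 h4
      have ha : a ≠ 0 := by rintro rfl; simp at h0
      exact h3 (Submodule.mem_span_singleton.2 ⟨a⁻¹, by simp [ha]⟩)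
    have h5 := hc _ ((p.P _).add_mem hw hw') _ ((p.P s).sub_mem hu hu')
    simp only [map_add, map_sub, p.β_add_right, p.β_sub_left, hc w hw u hu, hc w hw u' hu',
      hc w' hw' u hu, hc w' hw' u' hu', a1, a2, b1, b2] at h5
    linear_combination h5
  obtain ⟨w₀, hw₀, h3⟩ := k6_out hB hr (!s) 0
  have h0 : w₀ ≠ 0 := by rintro rfl; simp at h3
  have h4 : ∀ w ∈ p.P (!s), w ≠ 0 → c w = c w₀ := by
    intro w hw hw0
    by_cases h5 : w ∈ Submodule.span K {w₀}
    · obtain ⟨u, hu, h6⟩ := k6_out hB hr (!s) w₀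
      rw [h2 w₀ hw₀ u hu h0 h6]
      exact h2 w hw u hu hw0 fun h7 => h6 ((Submodule.span_singleton_le_iff_mem _ _).2 h5 h7)
    · exact (h2 w₀ hw₀ w hw h0 h5).symm
  refine ⟨θ (c w₀), fun e => ?_, fun v hv w hw => ?_⟩
  · obtain ⟨u, hu, a1, -⟩ := k6_sep p hw₀ (p.P _).zero_mem h3
    have h5 := hc w₀ hw₀ u hu
    rw [(map_eq_zero θ).1 e, zero_mul, map_eq_zero] at h5
    obtain ⟨θ', f, h6, -⟩ := H.1
    have := k6_orth hB hE hBR hr (k6_symm H) ((h6 _ _).2 hw₀) h5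
    simp [a1] at this
  · by_cases hw0 : w = 0
    · simp [hw0]
    · rw [← map_mul, ← h4 w hw hw0, ← hc w hw v hv, RingEquiv.apply_symm_apply]

theorem k6_sing_map (hB : StmtPB) (hE : StmtPE) (hR : StmtRL) (hBR : StmtBR) (hr : 100 ≤ p.rk ⊤)
    (hP : ∀ s, p.P s = ⊤) {h : V ≃+ V} (H : k6_good p h) {x : V} (hx : p.Sing x) :
    p.Sing (h x) := by
  classical
  obtain ⟨w, -, a1, a2, a3⟩ := ((hR K V p ⊤ (hB K V p).2.2.2.2.1).1 true 1 {x} {x} (by simp)
    (by omega) (by simp; omega)).2 (fun _ => 0) (by simp)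
  have a4 : w ∉ Submodule.span K {x} := fun h1 => a3 (Submodule.mem_sup_left (by simpa using h1))
  have a5 : p.Adm ⊤ true w x := ⟨by simp [hP], by simp [hP], a1, hx, a2 x (by simp)⟩
  obtain ⟨e, he⟩ := (hE K V p).1 ⊤ true w x a5
  obtain ⟨v, -, b1, b2⟩ := k6_sep p (s := true) (by simp [hP]) (by simp [hP]) a4
  obtain ⟨y, hy, h1⟩ := H.2.1 e (Subgroup.subset_closure ⟨true, w, x, a5, he⟩)
  have h2 := (k6_O hE hy).2.1 (h v)
  have h3 : e v = v + x := by simp [he v, b1, b2]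
  rw [h1, h3, map_add] at h2
  have h4 := p.g_add (h v) (h x)
  rw [k6_orth hB hE hBR hr H (s := true) (by simp [hP]) b2] at h4
  simpa [Polar.Sing] using p.Λ.sub_mem h2 h4

end

theorem k6 (hB : StmtPB) (hE : StmtPE) (hR : StmtRL) (hBR : StmtBR) (hL : StmtLam) : StmtK6 := by
  intro K V _ _ _ _ _ p h hr hS h1 h2
  have H : k6_good p h := ⟨hS, h1, h2⟩
  obtain ⟨θ, f, hf, hθ⟩ := hS
  obtain ⟨c, hc, hβ⟩ := k6_const hB hE hBR hr H (hθ true)
  have e : θ false = θ true := by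
    ext a
    obtain ⟨w, hw, h3⟩ := k6_out hB hr false 0
    obtain ⟨u, hu, a1, -⟩ := k6_sep p (s := true) hw (p.P _).zero_mem h3
    have h4 := hβ u hu _ ((p.P _).smul_mem a hw)
    rw [hθ false w hw, p.β_smul_right, p.β_smul_right, hβ u hu w hw, a1, map_one, mul_one, mul_one,
      (hL K V p _).1, mul_comm] at h4
    exact p.σ.injective (mul_left_cancel₀ hc h4)
  have hs : ∀ (a : K) v, h (a • v) = θ true a • h v := by
    intro a v
    obtain ⟨u, hu, w, hw, rfl⟩ := k6_dec p v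
    rw [smul_add, map_add, map_add, hθ true u hu, hθ false w hw, e, smul_add]
  rcases p.sorts with hP | hP
  · refine ⟨h, ⟨θ true, c, f, hc, hs, fun v w => hβ v (by simp [hP]) w (by simp [hP]),
      fun v => ⟨fun h3 => ?_, k6_sing_map hB hE hR hBR hr hP H⟩, hf⟩, fun _ _ _ _ => Iff.rfl⟩
    simpa [Polar.Sing] using k6_sing_map hB hE hR hBR hr hP (k6_symm H) h3
  · let Z : K → V →ₗ[K] V := fun d =>
      LinearMap.ofIsCompl hP.1 (p.P true).subtype (d • (p.P false).subtype)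
    have z1 : ∀ d, ∀ a ∈ p.P true, Z d a = a := fun d a ha =>
      LinearMap.ofIsCompl_apply_left hP.1 ⟨a, ha⟩
    have z2 : ∀ d, ∀ b ∈ p.P false, Z d b = d • b := fun d b hb =>
      LinearMap.ofIsCompl_apply_right hP.1 ⟨b, hb⟩
    have z3 : ∀ d d', d * d' = 1 → ∀ v, Z d (Z d' v) = v := by
      intro d d' hd v
      obtain ⟨a, ha, b, hb, rfl⟩ := k6_dec p v
      rw [map_add, z1 _ a ha, z2 _ b hb, map_add, map_smul, z1 _ a ha, z2 _ b hb, smul_smul,
        mul_comm, hd, one_smul]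
    have z4 : ∀ d s, ∀ v ∈ p.P s, Z d v ∈ p.P s := by
      intro d s v hv
      cases s
      · rw [z2 d v hv]; exact (p.P _).smul_mem d hv
      · rwa [z1 d v hv]
    obtain ⟨d, hd, hd'⟩ : ∃ d : K, d ≠ 0 ∧ c * θ true (p.σ d) = 1 :=
      ⟨p.σ ((θ true).symm c⁻¹), by simpa using hc, by simp [hc]⟩
    let z : V ≃+ V := ⟨⟨Z d, Z d⁻¹, z3 _ _ (inv_mul_cancel₀ hd), z3 _ _ (mul_inv_cancel₀ hd)⟩,
      map_add _⟩
    have z5 : ∀ a ∈ p.P true, ∀ b ∈ p.P false, (z.trans h) (a + b) = h a + h (d • b) := by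
      intro a ha b hb
      change h (Z d (a + b)) = _
      rw [map_add, z1 _ a ha, z2 _ b hb, map_add]
    have b1 : ∀ a ∈ p.P true, ∀ b ∈ p.P false, p.β (h a) (h (d • b)) = θ true (p.β a b) := by
      intro a ha b hb
      rw [hβ a ha _ ((p.P _).smul_mem d hb), p.β_smul_right, map_mul, ← mul_assoc, hd', one_mul]
    have b0 : ∀ s, ∀ a ∈ p.P s, ∀ b ∈ p.P s, p.β a b = 0 := fun s a ha b hb => (hP.2 s a ha).2 b hb
    have hε : θ true p.ε = p.ε := by rcases p.eps with h3 | h3 <;> simp [h3]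
    refine ⟨z.trans h, ⟨θ true, 1, f, one_ne_zero, fun a v => ?_, fun v w => ?_, fun v => ?_,
      fun s v => ?_⟩, fun x hx y _ => ?_⟩
    · change h (Z d (a • v)) = _ • h (Z d v)
      rw [map_smul, hs]
    · obtain ⟨a, ha, b, hb, rfl⟩ := k6_dec p v
      obtain ⟨a', ha', b', hb', rfl⟩ := k6_dec p w
      rw [z5 a ha b hb, z5 a' ha' b' hb']
      simp only [p.β_add_left, p.β_add_right]
      rw [b0 _ _ ((hf _ _).2 ha) _ ((hf _ _).2 ha'), b0 _ _ ha _ ha', b0 _ _ hb _ hb',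
        b0 _ _ ((hf _ _).2 ((p.P _).smul_mem d hb)) _ ((hf _ _).2 ((p.P _).smul_mem d hb')),
        b1 a ha b' hb', p.β_symm (h a'), b1 a' ha' b hb, p.β_symm a' b]
      simp [hε, (hL K V p _).1]
    · obtain ⟨a, ha, b, hb, rfl⟩ := k6_dec p v
      rw [z5 a ha b hb]
      refine (k6_sing p (hP.2 _ _ ((hf _ _).2 ha)).1
        (hP.2 _ _ ((hf _ _).2 ((p.P _).smul_mem d hb))).1).trans
        (Iff.trans ?_ (k6_sing p (hP.2 _ _ ha).1 (hP.2 _ _ hb).1).symm)
      rw [b1 a ha b hb, (hL K V p _).2]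
    · change h (Z d v) ∈ _ ↔ _
      rw [hf]
      exact ⟨fun h3 => z3 _ _ (inv_mul_cancel₀ hd) v ▸ z4 d⁻¹ s _ h3, z4 d s v⟩
    · have h3 : ∀ v, Z d (x v) = x (Z d v) := by
        intro v
        obtain ⟨a, ha, b, hb, rfl⟩ := k6_dec p v
        rw [map_add, map_add, map_add, z1 _ a ha, z2 _ b hb, z1 _ _ ((hx.2.2 _ _).2 ha),
          z2 _ _ ((hx.2.2 _ _).2 hb), map_add, map_smul]
      change (∀ v, y (h (Z d v)) = h (Z d (x v))) ↔ _
      simp only [h3]
      exact ⟨fun h4 v => by simpa only [z3 _ _ (mul_inv_cancel₀ hd)] using h4 (Z d⁻¹ v),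
        fun h4 v => h4 _⟩

end Pool.Agent.Work.MP_11a08a_al.Lin
end

-- merged part: Pool.Agent.Work.MP_11a08a_al.Lin.AutA
section
/-!
The images of the three-cycles `(o u k)` have pairwise products of order two, so they share an
arrow `a ↦ b` and are the cycles `(a b (t k))`.  The cycles `(o u k)` generate the group.
-/

set_option autoImplicit false
set_option linter.unusedVariables false

open Module Equiv
open scoped commutatorElement

namespace Pool.Agent.Work.MP_11a08a_al.Lin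

section

variable {X : Type}

/-- `c` is the cycle `(a b e)`. -/
def AutaT (c : X → X) (a b e : X) : Prop :=
  a ≠ b ∧ a ≠ e ∧ b ≠ e ∧ c a = b ∧ c b = e ∧ c e = a ∧ ∀ x, x = a ∨ x = b ∨ x = e ∨ c x = x

theorem auta_arrow {c d : X → X} {a b e p q r : X} (hc : AutaT c a b e) (hd : AutaT d p q r)
    (h : ∀ x, c (d (c (d x))) = x) (x : X) (hx : c (d x) ≠ x) :
    d a = b ∨ d b = e ∨ d e = a := by
  obtain ⟨c1, c2, c3, c4, c5, c6, c7⟩ := hc
  obtain ⟨d1, d2, d3, d4, d5, d6, d7⟩ := hd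
  have h1 := h p
  have h2 := h q
  have h3 := h r
  have h4 := h a
  clear h
  by_cases p1 : p = a <;> by_cases p2 : p = b <;> by_cases p3 : p = e <;>
    by_cases q1 : q = a <;> by_cases q2 : q = b <;> by_cases q3 : q = e <;> grind (splits := 30)

theorem auta_third {d : X → X} {a b e f p q r : X} (h1 : a ≠ b) (h2 : a ≠ e) (h3 : b ≠ e)
    (h4 : a ≠ f) (h5 : b ≠ f) (h6 : e ≠ f) (hi : Function.Injective d) (hd : AutaT d p q r)
    (k1 : d a = b ∨ d b = e ∨ d e = a) (k2 : d a = b ∨ d b = f ∨ d f = a) : d a = b := by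
  obtain ⟨d1, d2, d3, d4, d5, d6, d7⟩ := hd
  have := @hi e f
  grind (splits := 30)

variable [Fintype X] [DecidableEq X]

theorem auta_t {g : Perm X} (hg : g.IsThreeCycle) {a : X} (ha : g a ≠ a) :
    AutaT g a (g a) (g (g a)) := by
  have h1 := hg.support_eq_iff_mem_support.2 (Perm.mem_support.2 ha)
  have h2 := hg.nodup_iff_mem_support.2 (Perm.mem_support.2 ha)
  have h3 : (g ^ 3) a = a := by simp [← hg.orderOf]
  refine ⟨ha.symm, by grind, by grind, rfl, rfl, by simpa [pow_succ] using h3, fun x => ?_⟩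
  rw [← Perm.notMem_support, h1]
  grind

theorem auta_ex {g : Perm X} (hg : g.IsThreeCycle) : ∃ a b e, AutaT g a b e := by
  obtain ⟨a, ha, -⟩ := hg.isCycle
  exact ⟨_, _, _, auta_t hg ha⟩

omit [Fintype X] in
theorem auta_eq {g : Perm X} {a b e : X} (h : AutaT g a b e) : g = swap a e * swap a b := by
  obtain ⟨c1, c2, c3, c4, c5, c6, c7⟩ := h
  ext x
  simp only [Perm.mul_apply, swap_apply_def]
  grind

theorem auta_gen (K : Subgroup (Perm X)) (hK : K ≤ alternatingGroup X) {o u : X} (ou : o ≠ u)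
    (h : ∀ k, k ≠ o → k ≠ u → swap o k * swap o u ∈ K) : alternatingGroup X ≤ K := by
  have h1 : ∀ k, k ≠ o → swap o k * swap o u ∈ K := fun k hk => by
    by_cases e : k = u
    · rw [e, swap_mul_self]
      exact K.one_mem
    · exact h k hk e
  have h2 : ∀ p q, p ≠ q → swap p q * swap o u ∈ K := fun p q e => by
    by_cases e1 : p = o
    · rw [e1]
      exact h1 q fun c => e (e1.trans c.symm)
    by_cases e2 : q = o
    · rw [e2, swap_comm]
      exact h1 p e1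
    have := K.mul_mem (K.mul_mem (h1 p e1) (K.inv_mem (h1 q e2))) (h1 p e1)
    rwa [mul_inv_rev, swap_inv, swap_inv, mul_assoc (swap o p), ← mul_assoc (swap o u),
      swap_mul_self, one_mul, ← mul_assoc, swap_comm o q,
      swap_mul_swap_mul_swap e2 (Ne.symm e)] at this
  have h3 : ∀ g : Perm X, g ∈ K ∨ swap o u * g ∈ K := fun g => by
    induction g using Perm.swap_induction_on with
    | one => exact Or.inl K.one_mem
    | swap_mul g p q e ih =>
      rcases ih with ih | ih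
      · have := K.mul_mem (K.inv_mem (h2 p q e)) ih
        rw [mul_inv_rev, swap_inv, swap_inv, mul_assoc] at this
        exact Or.inr this
      · have := K.mul_mem (h2 p q e) ih
        rw [mul_assoc, ← mul_assoc (swap o u), swap_mul_self, one_mul] at this
        exact Or.inl this
  intro g hg
  refine (h3 g).resolve_right fun c => ?_
  have := hK c
  rw [Perm.mem_alternatingGroup] at this hg
  rw [Perm.sign_mul, hg, Perm.sign_swap ou] at this
  exact absurd this (by decide)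

theorem auta_main (f : alternatingGroup X →* Perm X) (hf : Function.Injective f)
    (h3 : ∀ x : alternatingGroup X, x.1.IsThreeCycle → (f x).IsThreeCycle) {o u k l : X}
    (ou : o ≠ u) (ko : k ≠ o) (ku : k ≠ u) (lo : l ≠ o) (lu : l ≠ u) (kl : k ≠ l) :
    ∃ t : Perm X, ∀ x, f x = t * x.1 * t⁻¹ := by
  have c3 : ∀ {k}, k ≠ o → k ≠ u → (swap o k * swap o u).IsThreeCycle := fun a b =>
    Perm.isThreeCycle_swap_mul_swap_same a.symm ou b
  obtain ⟨x, hx⟩ : ∃ x : X → alternatingGroup X, ∀ k, k ≠ o → k ≠ u →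
      (x k).1 = swap o k * swap o u :=
    ⟨fun k => if h : k ≠ o ∧ k ≠ u then ⟨_, (c3 h.1 h.2).mem_alternatingGroup⟩ else 1,
      fun k a b => by simp only [dif_pos (And.intro a b)]⟩
  have y3 : ∀ {k}, k ≠ o → k ≠ u → (f (x k)).IsThreeCycle := fun a b =>
    h3 _ (hx _ a b ▸ c3 a b)
  have ar : ∀ {k l a b e}, k ≠ o → k ≠ u → l ≠ o → l ≠ u → k ≠ l → AutaT (f (x k)) a b e →
      f (x l) a = b ∨ f (x l) b = e ∨ f (x l) e = a := fun {k l a b e} ko ku lo lu kl h => by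
    obtain ⟨p, q, r, h'⟩ := auta_ex (y3 lo lu)
    have e1 : x k * x l * (x k * x l) = 1 := Subtype.ext (by
      have e : swap o k * swap o u * (swap o l * swap o u) = swap o k * swap u l := by
        rw [mul_assoc, ← mul_assoc (swap o u), swap_comm o l, swap_mul_swap_mul_swap lo lu]
      have c : swap u l * swap o k = swap o k * swap u l := by
        rw [mul_swap_eq_swap_mul, swap_apply_of_ne_of_ne ou lo.symm, swap_apply_of_ne_of_ne ku kl]
      rw [Subgroup.coe_mul, Subgroup.coe_mul, hx k ko ku, hx l lo lu, e, mul_assoc,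
        ← mul_assoc (swap u l), c, mul_assoc, swap_mul_self, mul_one, swap_mul_self]
      rfl)
    have e2 : f (x k * x l) ≠ 1 := fun c => by
      have := congrArg (fun z : alternatingGroup X => z.1 o) (hf (c.trans f.map_one.symm))
      simp only [Subgroup.coe_mul, hx k ko ku, hx l lo lu, Perm.mul_apply, swap_apply_def,
        Subgroup.coe_one, Perm.one_apply] at this
      grind
    obtain ⟨z, hz⟩ := not_forall.1 fun c : ∀ z, f (x k * x l) z = z => e2 (Equiv.ext c)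
    rw [map_mul] at hz
    refine auta_arrow h h' (fun w => ?_) z hz
    have := congrArg (fun z => f z w) e1
    simpa only [map_mul, map_one, Perm.mul_apply, Perm.one_apply] using this
  have xi : ∀ {k l}, k ≠ o → k ≠ u → l ≠ o → l ≠ u → f (x k) = f (x l) → k = l :=
    fun {k l} ko ku lo lu c => by
    have := congrArg (fun z : alternatingGroup X => z.1 u) (hf c)
    simpa only [hx k ko ku, hx l lo lu, Perm.mul_apply, swap_apply_right, swap_apply_left]
      using this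
  obtain ⟨a, a1, a2⟩ : ∃ a, f (x k) a ≠ a ∧ f (x l) a = f (x k) a := by
    obtain ⟨a, b, e, h⟩ := auta_ex (y3 ko ku)
    have := ar ko ku lo lu kl h
    obtain ⟨c1, c2, c3, c4, c5, c6, -⟩ := h
    rcases this with c | c | c
    exacts [⟨a, by grind⟩, ⟨b, by grind⟩, ⟨e, by grind⟩]
  obtain ⟨b, hb⟩ : ∃ b, f (x k) a = b := ⟨_, rfl⟩
  have tk := auta_t (y3 ko ku) a1
  have tl := auta_t (y3 lo lu) (a2 ▸ a1)
  rw [hb] at tk a1 a2
  rw [a2] at tl
  have ef : f (x k) b ≠ f (x l) b := fun c =>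
    kl (xi ko ku lo lu ((auta_eq tk).trans (c ▸ (auta_eq tl).symm)))
  have all : ∀ {m}, m ≠ o → m ≠ u → AutaT (f (x m)) a b (f (x m) b) := fun {m} mo mu => by
    by_cases e1 : k = m
    · exact e1 ▸ tk
    by_cases e2 : l = m
    · exact e2 ▸ tl
    obtain ⟨p, q, r, h⟩ := auta_ex (y3 mo mu)
    have c := auta_third tk.1 tk.2.1 tk.2.2.1 tl.2.1 tl.2.2.1 ef (f (x m)).injective h
      (ar ko ku mo mu e1 tk) (ar lo lu mo mu e2 tl)
    have := auta_t (y3 mo mu) (a := a) (c ▸ a1)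
    rwa [c] at this
  obtain ⟨t, t1, t2, t3⟩ : ∃ t : X → X, t o = a ∧ t u = b ∧
      ∀ m, m ≠ o → m ≠ u → t m = f (x m) b :=
    ⟨fun m => if m = o then a else if m = u then b else f (x m) b, if_pos rfl,
      (if_neg ou.symm).trans (if_pos rfl), fun m c d => (if_neg c).trans (if_neg d)⟩
  have ti : Function.Injective t := fun m m' c => by
    have z : ∀ m, m ≠ o → m ≠ u → a ≠ t m ∧ b ≠ t m := fun m c d =>
      t3 m c d ▸ ⟨(all c d).2.1, (all c d).2.2.1⟩
    by_cases e : (m ≠ o ∧ m ≠ u) ∧ m' ≠ o ∧ m' ≠ u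
    · rw [t3 m e.1.1 e.1.2, t3 m' e.2.1 e.2.2] at c
      exact xi e.1.1 e.1.2 e.2.1 e.2.2
        ((auta_eq (all e.1.1 e.1.2)).trans (c ▸ (auta_eq (all e.2.1 e.2.2)).symm))
    · have z1 := z m
      have z2 := z m'
      clear * - t1 t2 a1 c e z1 z2
      grind
  obtain ⟨T, hT⟩ : ∃ T : Perm X, ∀ m, T m = t m :=
    ⟨Equiv.ofBijective t (Finite.injective_iff_bijective.1 ti), fun _ => rfl⟩
  have := auta_gen ((f.eqLocus ((MulAut.conj T).toMonoidHom.comp (alternatingGroup X).subtype)).map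
    (alternatingGroup X).subtype) (Subgroup.map_subtype_le _) ou fun m c d => ⟨x m, ?_, hx m c d⟩
  · refine ⟨T, fun y => ?_⟩
    obtain ⟨z, h1, h2⟩ := this y.2
    rw [← Subtype.ext h2]
    exact h1
  · change f (x m) = T * (x m).1 * T⁻¹
    rw [auta_eq (all c d), hx m c d, ← t3 m c d, ← t1, ← t2, ← hT, ← hT, ← hT, swap_apply_apply,
      swap_apply_apply]
    group

end

theorem autA (hF : StmtAF) (h3 : StmtAut3) : StmtAutA := by
  intro n hn α
  obtain ⟨t, ht⟩ := auta_main ((alternatingGroup (Fin n)).subtype.comp α.toMonoidHom)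
    (Subtype.val_injective.comp α.injective) (h3 n hn α) (o := ⟨0, by omega⟩) (u := ⟨1, by omega⟩)
    (k := ⟨2, by omega⟩) (l := ⟨3, by omega⟩) (by simp) (by simp) (by simp) (by simp) (by simp)
    (by simp)
  exact ⟨t, fun x y h => Subtype.ext ((ht x).trans h.symm)⟩

end Pool.Agent.Work.MP_11a08a_al.Lin
end

-- merged part: Pool.Agent.Work.MP_11a08a_al.Lin.Cls
section
/-!
In the last three cases `V' = V`, `P s = ⊤` and `p.O = O`.  Alternating: `σ = id`, `ε = -1`, `Λ = ⊤`, `g` with `g v w - g w v = B v w` (with a basis `b` indexed by `Fin n`, `g (b i) (b j) = if i < j then B (b i) (b j) else 0`, `Basis.constr` or `Matrix.toLinearMap₂`).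
Hermitian: `ε = 1`, `Λ = {a | a + σ a = 0}`, `g = u • B` with `u + σ u = 1`.  Quadratic: `σ = id`, `ε = 1`, `Λ = ⊥`, `g = f.toBilin b` (`QuadraticMap.toQuadraticMap_toBilin`).
General linear: `V' = V × Dual K V`, `g (v, φ) (w, ψ) = ψ v`, `ε = 1`, `Λ = ⊥`, `P true = fst`, `P false = snd`; `a ↦ a.prodCongr a.symm.dualMap` is an injective homomorphism with range `p.O`; `Subgroup.map_commutator`, `Subgroup.equivMapOfInjective`.
-/

set_option autoImplicit false

open Module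
open scoped commutatorElement

namespace Pool.Agent.Work.MP_11a08a_al.Lin

section

variable {K V : Type} [Field K] [AddCommGroup V] [Module K V]

theorem cls_of_eq (p : Polar K V) {O : Subgroup (V ≃ₗ[K] V)} (h : p.O = O) :
    Nonempty (p.D ≃* ↥⁅O, O⁆) := ⟨MulEquiv.subgroupCongr (by rw [Polar.D, h])⟩

theorem cls_alt [FiniteDimensional K V] (B : V →ₗ[K] V →ₗ[K] K) (h1 : ∀ v, B v v = 0)
    (h2 : ∀ v, (∀ w, B v w = 0) → v = 0) {O : Subgroup (V ≃ₗ[K] V)}
    (h3 : ∀ h, h ∈ O ↔ ∀ v w, B (h v) (h w) = B v w) : ∃ p : Polar K V, p.O = O := by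
  have sk : ∀ v w, B w v = -B v w := fun v w => by
    have := h1 (v + w)
    simp only [map_add, LinearMap.add_apply, h1] at this
    linear_combination this
  let b := Module.finBasis K V
  let g : V →ₗ[K] V →ₗ[K] K :=
    b.constr K fun i => b.constr K fun j => if i < j then B (b i) (b j) else 0
  have hg : g - g.flip = B := LinearMap.ext_basis b b fun i j => by
    simp only [g, LinearMap.sub_apply, LinearMap.flip_apply, Basis.constr_basis]
    rcases lt_trichotomy i j with h | rfl | h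
    · rw [if_pos h, if_neg h.not_gt, sub_zero]
    · rw [if_neg (lt_irrefl i), sub_zero, h1]
    · rw [if_neg h.not_gt, if_pos h, zero_sub, sk (b j) (b i)]
  have e : ∀ v w, g v w + -1 * RingHom.id K (g w v) = B v w := fun v w => by
    rw [← hg]
    simp [sub_eq_add_neg]
  refine ⟨⟨RingHom.id K, -1, ⊤, g, fun _ => ⊤, fun _ => rfl, Or.inr rfl, fun _ => trivial,
    fun a _ => by simp, fun _ _ _ => trivial, fun v hv => h2 v fun w => (e v w).symm.trans (hv w),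
    Or.inl fun _ => rfl⟩, Subgroup.ext fun h => ?_⟩
  rw [h3]
  refine ⟨fun hh v w => ?_, fun hh => ⟨fun v w => ?_, fun _ => trivial, fun _ _ => Iff.rfl⟩⟩
  · exact (e _ _).symm.trans ((hh.1 v w).trans (e v w))
  · exact (e _ _).trans ((hh v w).trans (e v w).symm)

theorem cls_her (σ : K →+* K) (B : V →ₗ[K] V →ₛₗ[σ] K) (h0 : ∀ a, σ (σ a) = a)
    (ha : ∃ a, σ a ≠ a) (h1 : ∀ v w, B w v = σ (B v w)) (h2 : ∀ v, (∀ w, B v w = 0) → v = 0)
    {O : Subgroup (V ≃ₗ[K] V)} (h3 : ∀ h, h ∈ O ↔ ∀ v w, B (h v) (h w) = B v w) :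
    ∃ p : Polar K V, p.O = O := by
  obtain ⟨a, ha⟩ := ha
  have hd : a - σ a ≠ 0 := sub_ne_zero.2 ha.symm
  have hd' : σ a - a ≠ 0 := sub_ne_zero.2 ha
  obtain ⟨u, hu⟩ : ∃ u, u + σ u = 1 := ⟨a / (a - σ a), by
    rw [map_div₀, map_sub, h0]
    field_simp
    ring⟩
  have e : ∀ v w, (u • B) v w + 1 * σ ((u • B) w v) = B v w := fun v w => by
    simp only [LinearMap.smul_apply, smul_eq_mul, map_mul, h1 v w, h0]
    linear_combination B v w * hu
  let Λ : AddSubgroup K :=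
    { carrier := {a | a + σ a = 0}
      add_mem' := fun {a b} (ha : a + σ a = 0) (hb : b + σ b = 0) => show _ = _ by
        rw [map_add]; linear_combination ha + hb
      zero_mem' := show _ = _ by simp
      neg_mem' := fun {a} (ha : a + σ a = 0) => show _ = _ by
        rw [map_neg]; linear_combination -ha }
  refine ⟨⟨σ, 1, Λ, u • B, fun _ => ⊤, h0, Or.inl rfl, fun a => show _ = _ by simp [h0],
    fun a (ha : a + σ a = 0) => by rwa [one_mul], fun a (ha : a + σ a = 0) c => show _ = _ by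
      simp only [map_mul, h0]; linear_combination c * σ c * ha,
    fun v hv => h2 v fun w => (e v w).symm.trans (hv w), Or.inl fun _ => rfl⟩,
    Subgroup.ext fun h => ?_⟩
  rw [h3]
  refine ⟨fun hh v w => ?_, fun hh => ⟨fun v w => ?_, fun v => ?_, fun _ _ => Iff.rfl⟩⟩
  · exact (e _ _).symm.trans ((hh.1 v w).trans (e v w))
  · exact (e _ _).trans ((hh v w).trans (e v w).symm)
  · change (u • B) (h v) (h v) - (u • B) v v ∈ Λ
    simp only [LinearMap.smul_apply, hh, sub_self]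
    exact Λ.zero_mem

theorem cls_quad (f : QuadraticForm K V) (h2 : ∀ v, (∀ w, f (v + w) = f v + f w) → v = 0)
    {O : Subgroup (V ≃ₗ[K] V)} (h3 : ∀ h, h ∈ O ↔ ∀ v, f (h v) = f v) :
    ∃ p : Polar K V, p.O = O := by
  obtain ⟨g, rfl⟩ := LinearMap.BilinMap.toQuadraticMap_surjective f
  simp only [LinearMap.BilinMap.toQuadraticMap_apply] at h2 h3
  have e : ∀ v w, g v w + 1 * RingHom.id K (g w v) = g (v + w) (v + w) - g v v - g w w :=
    fun v w => by
      simp only [map_add, LinearMap.add_apply, RingHom.id_apply]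
      ring
  refine ⟨⟨RingHom.id K, 1, ⊥, g, fun _ => ⊤, fun _ => rfl, Or.inl rfl, fun a => by simp,
    fun a ha => by simp [AddSubgroup.mem_bot.1 ha], fun a ha c => by
      simp [AddSubgroup.mem_bot.1 ha],
    fun v hv => h2 v fun w => by linear_combination (e v w).symm.trans (hv w),
    Or.inl fun _ => rfl⟩, Subgroup.ext fun h => ?_⟩
  rw [h3]
  refine ⟨fun hh v => sub_eq_zero.1 (AddSubgroup.mem_bot.1 (hh.2.1 v)),
    fun hh => ⟨fun v w => ?_, fun v => AddSubgroup.mem_bot.2 (sub_eq_zero.2 (hh v)),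
      fun _ _ => Iff.rfl⟩⟩
  refine (e _ _).trans (Eq.trans ?_ (e v w).symm)
  rw [← map_add, hh, hh, hh]

variable (K V)

/-- The polar space of the general linear group. -/
noncomputable def cls_gl : Polar K (V × Dual K V) where
  σ := RingHom.id K
  ε := 1
  Λ := ⊥
  g := LinearMap.mk₂ K (fun x y => y.2 x.1) (fun _ _ _ => by simp) (fun _ _ _ => by simp)
    (fun _ _ _ => by simp) (fun _ _ _ => by simp)
  P s := if s then LinearMap.ker (LinearMap.snd K _ _) else LinearMap.ker (LinearMap.fst K _ _)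
  invol _ := rfl
  eps := Or.inl rfl
  low a := by simp
  up a ha := by simp [AddSubgroup.mem_bot.1 ha]
  stab a ha c := by simp [AddSubgroup.mem_bot.1 ha]
  nd x hx := by
    refine Prod.ext ((Module.forall_dual_apply_eq_zero_iff K x.1).1 fun φ => ?_)
      (LinearMap.ext fun w => ?_)
    · simpa using hx (0, φ)
    · simpa using hx (w, 0)
  sorts := by
    refine Or.inr ⟨?_, fun s v hv => ?_⟩
    · simp only [if_true, Bool.false_eq_true, if_false, LinearMap.ker_snd, LinearMap.ker_fst]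
      exact LinearMap.isCompl_range_inl_inr
    · cases s
      · have h : v.1 = 0 := hv
        exact ⟨by simp [h], fun w (hw : w.1 = 0) => by simp [h, hw]⟩
      · have h : v.2 = 0 := hv
        exact ⟨by simp [h], fun w (hw : w.2 = 0) => by simp [h, hw]⟩

/-- The action on the sum of the space and its dual. -/
def cls_hom : (V ≃ₗ[K] V) →* ((V × Dual K V) ≃ₗ[K] (V × Dual K V)) where
  toFun a := a.prodCongr a.symm.dualMap
  map_one' := LinearEquiv.ext fun _ => rfl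
  map_mul' _ _ := LinearEquiv.ext fun _ => rfl

variable {K V}

theorem cls_hom_apply (a : V ≃ₗ[K] V) (x : V × Dual K V) :
    cls_hom K V a x = (a x.1, a.symm.dualMap x.2) := rfl

theorem cls_hom_inj : Function.Injective (cls_hom K V) := fun _ _ h => LinearEquiv.ext fun v =>
  congrArg Prod.fst (LinearEquiv.congr_fun h (v, 0))

theorem cls_g (x y : V × Dual K V) : (cls_gl K V).g x y = y.2 x.1 := rfl

theorem cls_beta (x y : V × Dual K V) : (cls_gl K V).β x y = y.2 x.1 + x.2 y.1 :=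
  congrArg (y.2 x.1 + ·) (one_mul _)

theorem cls_range : (cls_gl K V).O = (⊤ : Subgroup (V ≃ₗ[K] V)).map (cls_hom K V) := by
  ext h
  constructor
  · rintro ⟨h1, -, h3⟩
    have t1 : ∀ v, (h (v, 0)).2 = 0 := fun v => (h3 true (v, 0)).2 rfl
    have t2 : ∀ φ, (h (0, φ)).1 = 0 := fun φ => (h3 false (0, φ)).2 rfl
    have t3 : ∀ v, (h.symm (v, 0)).2 = 0 := fun v =>
      (h3 true (h.symm (v, 0))).1 (by rw [h.apply_symm_apply]; rfl)
    let a : V ≃ₗ[K] V := LinearEquiv.ofLinearMap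
      (LinearMap.fst K _ _ ∘ₗ h.toLinearMap ∘ₗ LinearMap.inl K _ _)
      (LinearMap.fst K _ _ ∘ₗ h.symm.toLinearMap ∘ₗ LinearMap.inl K _ _)
      (LinearMap.ext fun v => by
        change (h ((h.symm (v, 0)).1, 0)).1 = v
        rw [show ((h.symm (v, 0)).1, 0) = h.symm (v, 0) from Prod.ext rfl (t3 v).symm,
          h.apply_symm_apply])
      (LinearMap.ext fun v => by
        change (h.symm ((h (v, 0)).1, 0)).1 = v
        rw [show ((h (v, 0)).1, 0) = h (v, 0) from Prod.ext rfl (t1 v).symm,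
          h.symm_apply_apply])
    have ha : ∀ v, h (v, 0) = (a v, 0) := fun v => Prod.ext rfl (t1 v)
    refine ⟨a, trivial, LinearEquiv.ext fun x => ?_⟩
    have e : h (0, x.2) = (0, a.symm.dualMap x.2) := Prod.ext (t2 _) (LinearMap.ext fun w => by
      have := h1 (a.symm w, 0) (0, x.2)
      rw [cls_beta, cls_beta, ha, a.apply_symm_apply] at this
      simpa using this)
    have e' : x = (x.1, 0) + (0, x.2) := by simp
    rw [cls_hom_apply]
    conv_rhs => rw [e', map_add, ha, e]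
    simp
  · rintro ⟨a, -, rfl⟩
    refine ⟨fun v w => ?_, fun v => ?_, fun s v => ?_⟩
    · simp [cls_beta, cls_hom_apply]
    · refine AddSubgroup.mem_bot.2 ?_
      simp [cls_g, cls_hom_apply]
    · cases s
      · exact a.map_eq_zero_iff
      · exact a.symm.dualMap.map_eq_zero_iff

end

theorem cls : StmtCls := by
  rintro K V _ _ _ _ O (rfl | ⟨B, h1, h2, h3⟩ | ⟨σ, B, h0, ha, h1, h2, h3⟩ | ⟨f, h2, h3⟩)
  · refine ⟨V × Dual K V, inferInstance, inferInstance, inferInstance, cls_gl K V,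
      ⟨(MulEquiv.subgroupCongr ?_).trans (Subgroup.equivMapOfInjective _ _ cls_hom_inj).symm⟩⟩
    rw [Polar.D, cls_range, Subgroup.map_commutator]
  · obtain ⟨p, hp⟩ := cls_alt B h1 h2 h3
    exact ⟨V, _, _, inferInstance, p, cls_of_eq p hp⟩
  · obtain ⟨p, hp⟩ := cls_her σ B h0 ha h1 h2 h3
    exact ⟨V, _, _, inferInstance, p, cls_of_eq p hp⟩
  · obtain ⟨p, hp⟩ := cls_quad f h2 h3
    exact ⟨V, _, _, inferInstance, p, cls_of_eq p hp⟩

end Pool.Agent.Work.MP_11a08a_al.Lin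
end
end
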