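import Pool.Agent.Work.MP_11a08a_al.Lin.MixU
import Pool.Agent.Work.MP_11a08a_al.Sol.RB
import Pool.Agent.Work.MP_11a08a_al.Lin.DefsG
import Pool.Agent.Work.MP_11a08a_al.Sol.Nilp
import Pool.Agent.Work.MP_11a08a_al.Sol.Ideal

-- merged part: Pool.Agent.Work.MP_11a08a_al.Lin.QB
section
-- merged part: Pool.Agent.Work.MP_11a08a_al.Lin.Fn
section
/-!
By contradiction choose for each `i` (as the bound `d`) a counterexample `Γ i, D i, f i, g i` with `i < N i = Nat.card (Γ i)` and `τ < f i (g i)` (`choose`; the instances are chosen as well).  `Nat.card (Pw (Γ × Γ) k) = N ^ (2 k)`.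
Case A: for every `B`, `B ≤ D i` almost everywhere.  `k, C` from `hM` at `g` (replace `C` by `max C 0`); `θ = τ ^ (2 k) / 4`, `A = {x | θ < f x}` has `ncard A * θ ^ 2 * D ^ 2 ≤ N`; `τ ^ (2 k) N ^ (2 k) ≤ ∑ f (phi) ≤ θ N ^ (2 k) + card {phi ∈ A}` and `card {phi ∈ A} ≤ (θ + C / (θ ^ 2 D ^ 2)) N ^ (2 k)`; contradiction for large `D`.
Case B: `D i ≤ B` almost everywhere.  `ℓ x = √(1 - f x)` is subadditive, symmetric, a class function, `ℓ 1 = 0`.  `g' i ≠ 1` minimises `ℓ` among the elements `≠ 1`; by the last hypothesis `ℓ (g' i) ^ 2 ≤ 2 B / j` almost everywhere, for each `j`.  `k, C` from `hM` at `g'`, `η = 1 / 2`; all values of `phi` lie in `A = {x | ℓ x ≤ s}` whenever `2 k ℓ (g' i) ≤ s`, so `N ≤ 2 C * ncard A`.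
With `r = ⌈2 C⌉₊`, `s = 1 / (2 (3 r + 3))`, apply `hD` to `F x = 2 ^ ⌈ℓ x / s⌉₊`, `T = 2`: the closure of `A` has index `≤ r`, so is `⊤` when `r ! < N` (normal core), and `ℓ x ≤ 1 / 2`, `3 / 4 ≤ f x` for all `x`; then `D ^ 2 * ∑ f ^ 2 ≥ 4 * (9 / 16) N > N`.
-/

set_option autoImplicit false

open Filter MvPolynomial

namespace Pool.Agent.Work.MP_11a08a_al.Lin

theorem fn_card_pw (A : Type) (k : ℕ) : Nat.card (Pw A k) = Nat.card A ^ k := by
  induction k with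
  | zero => simp [Pw]
  | succ k ih =>
    have : Nat.card (Pw A (k + 1)) = Nat.card (A × Pw A k) := rfl
    rw [this, Nat.card_prod, ih, pow_succ']

theorem fn_card_pw2 (Γ : Type) (k : ℕ) :
    (Nat.card (Pw (Γ × Γ) k) : ℝ) = (Nat.card Γ : ℝ) ^ (2 * k) := by
  rw [fn_card_pw, Nat.card_prod, pow_mul]
  push_cast
  ring

theorem fn_ncard {P : Type} [Fintype P] (S : Set P) [DecidablePred (· ∈ S)] :
    (S.ncard : ℝ) = ∑ x : P, if x ∈ S then (1 : ℝ) else 0 := by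
  rw [Finset.sum_boole]
  congr 1
  rw [← Set.ncard_coe_finset]
  congr 1
  ext x
  simp

theorem fn_sum_le {P : Type} [Finite P] (h : P → ℝ) (S : Set P) (θ : ℝ) (h1 : ∀ x, h x ≤ 1)
    (h2 : ∀ x, x ∉ S → h x ≤ θ) (hθ : 0 ≤ θ) :
    ∑ᶠ x, h x ≤ θ * Nat.card P + S.ncard := by
  classical
  have := Fintype.ofFinite P
  rw [finsum_eq_sum_of_fintype, fn_ncard S, Nat.card_eq_fintype_card]
  have e : θ * (Fintype.card P : ℝ) = ∑ _x : P, θ := by
    simp [mul_comm]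
  rw [e, ← Finset.sum_add_distrib]
  refine Finset.sum_le_sum fun x _ => ?_
  by_cases hx : x ∈ S
  · simp only [hx, if_true]
    linarith [h1 x]
  · simp only [hx, if_false]
    linarith [h2 x hx]

theorem fn_le_sum {P : Type} [Finite P] (h : P → ℝ) (S : Set P) (c : ℝ) (h1 : ∀ x, 0 ≤ h x)
    (h2 : ∀ x ∈ S, c ≤ h x) : c * S.ncard ≤ ∑ᶠ x, h x := by
  classical
  have := Fintype.ofFinite P
  rw [finsum_eq_sum_of_fintype, fn_ncard S, Finset.mul_sum]
  refine Finset.sum_le_sum fun x _ => ?_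
  by_cases hx : x ∈ S
  · simp only [hx, if_true]
    linarith [h2 x hx]
  · simp only [hx, if_false]
    linarith [h1 x]

theorem fn_A {Γ : Type} [Group Γ] [Finite Γ] (f : Γ → ℝ) (D : ℕ) (g : Γ) (k : ℕ) (C τ : ℝ)
    (hτ : 0 < τ) (hg : τ < f g) (h01 : ∀ x, 0 ≤ f x ∧ f x ≤ 1)
    (hsum : (D : ℝ) ^ 2 * ∑ᶠ x, f x ^ 2 ≤ Nat.card Γ)
    (hmom : f g ^ (2 * k) * (Nat.card Γ : ℝ) ^ (2 * k) ≤ ∑ᶠ x : Pw (Γ × Γ) k, f (phi g k x))
    (hmix : ∀ A : Set Γ,
      (({x | phi g k x ∈ A} : Set (Pw (Γ × Γ) k)).ncard : ℝ) * Nat.card Γ ≤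
        (τ ^ (2 * k) / 4 * Nat.card Γ + C * A.ncard) * (Nat.card Γ : ℝ) ^ (2 * k)) :
    2 * (τ ^ (2 * k) / 4) ^ 3 * (D : ℝ) ^ 2 ≤ max C 0 := by
  set θ : ℝ := τ ^ (2 * k) / 4 with hθ
  have hθ0 : 0 < θ := by positivity
  have hN : (0 : ℝ) < Nat.card Γ := by exact_mod_cast Nat.card_pos
  set N : ℝ := (Nat.card Γ : ℝ) with hNdef
  have hM : 0 < N ^ (2 * k) := by positivity
  set A : Set Γ := {x | θ < f x} with hA
  have h1 : θ ^ 2 * A.ncard ≤ ∑ᶠ x, f x ^ 2 :=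
    fn_le_sum (fun x => f x ^ 2) A _ (fun x => sq_nonneg _) fun x hx =>
      pow_le_pow_left₀ hθ0.le (le_of_lt hx) 2
  have h2 : ∑ᶠ x : Pw (Γ × Γ) k, f (phi g k x) ≤
      θ * Nat.card (Pw (Γ × Γ) k) + ({x | phi g k x ∈ A} : Set (Pw (Γ × Γ) k)).ncard :=
    fn_sum_le (fun x => f (phi g k x)) _ θ (fun x => (h01 _).2)
      (fun x hx => not_lt.mp hx) hθ0.le
  rw [fn_card_pw2] at h2
  have h3 : τ ^ (2 * k) ≤ f g ^ (2 * k) := pow_le_pow_left₀ hτ.le hg.le _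
  have h4 := hmix A
  set a : ℝ := (A.ncard : ℝ) with ha
  set b : ℝ := (({x | phi g k x ∈ A} : Set (Pw (Γ × Γ) k)).ncard : ℝ) with hb
  set M : ℝ := N ^ (2 * k) with hMdef
  have ha0 : 0 ≤ a := by positivity
  have h5 : 3 * θ * M ≤ b := by
    have : τ ^ (2 * k) * M ≤ f g ^ (2 * k) * M := mul_le_mul_of_nonneg_right h3 hM.le
    have e : τ ^ (2 * k) = 4 * θ := by rw [hθ]; ring
    rw [e] at this
    linarith
  have h6 : 2 * θ * N ≤ max C 0 * a := by
    have h7 : 3 * θ * M * N ≤ (θ * N + C * a) * M :=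
      (mul_le_mul_of_nonneg_right h5 hN.le).trans h4
    have h8 : (3 * θ * N) * M ≤ (θ * N + C * a) * M := by linarith
    have h9 := le_of_mul_le_mul_right h8 hM
    have h10 : C * a ≤ max C 0 * a := mul_le_mul_of_nonneg_right (le_max_left _ _) ha0
    linarith
  have h7 : (D : ℝ) ^ 2 * (θ ^ 2 * a) ≤ N :=
    (mul_le_mul_of_nonneg_left h1 (sq_nonneg _)).trans hsum
  have hC0 : 0 ≤ max C 0 := le_max_right _ _
  have h8 : (2 * θ ^ 3 * (D : ℝ) ^ 2) * N ≤ max C 0 * N := by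
    have h9 : (2 * θ * N) * (θ ^ 2 * (D : ℝ) ^ 2) ≤ (max C 0 * a) * (θ ^ 2 * (D : ℝ) ^ 2) :=
      mul_le_mul_of_nonneg_right h6 (by positivity)
    have h10 : max C 0 * ((D : ℝ) ^ 2 * (θ ^ 2 * a)) ≤ max C 0 * N :=
      mul_le_mul_of_nonneg_left h7 hC0
    calc (2 * θ ^ 3 * (D : ℝ) ^ 2) * N = (2 * θ * N) * (θ ^ 2 * (D : ℝ) ^ 2) := by ring
      _ ≤ (max C 0 * a) * (θ ^ 2 * (D : ℝ) ^ 2) := h9
      _ = max C 0 * ((D : ℝ) ^ 2 * (θ ^ 2 * a)) := by ring
      _ ≤ max C 0 * N := h10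
  exact le_of_mul_le_mul_right h8 hN

theorem fn_len {Γ : Type} [Group Γ] (l : Γ → ℝ) (h1 : l 1 = 0) (hsym : ∀ x, l x⁻¹ = l x)
    (hcl : ∀ x y, l (y * x * y⁻¹) = l x) (hsub : ∀ x y, l (x * y) ≤ l x + l y) (g : Γ) (k : ℕ) :
    ∀ x : Pw (Γ × Γ) k, l (phi g k x) ≤ 2 * k * l g := by
  induction k with
  | zero =>
    intro x
    have : phi g 0 x = 1 := rfl
    rw [this, h1]
    simp
  | succ k ih =>
    intro x
    have e : phi g (k + 1) x =
        x.1.1 * g * x.1.1⁻¹ * (x.1.2 * g⁻¹ * x.1.2⁻¹) * phi g k x.2 := rfl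
    rw [e]
    have a1 := hsub (x.1.1 * g * x.1.1⁻¹ * (x.1.2 * g⁻¹ * x.1.2⁻¹)) (phi g k x.2)
    have a2 := hsub (x.1.1 * g * x.1.1⁻¹) (x.1.2 * g⁻¹ * x.1.2⁻¹)
    rw [hcl, hcl, hsym] at a2
    have a3 := ih x.2
    push_cast
    linarith

theorem fn_normal {Γ : Type} [Group Γ] (S : Set Γ) (hS : ∀ x ∈ S, ∀ y, y * x * y⁻¹ ∈ S) :
    (Subgroup.closure S).Normal := by
  constructor
  intro n hn g
  induction hn using Subgroup.closure_induction with
  | mem x hx => exact Subgroup.subset_closure (hS x hx g)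
  | one => simp
  | mul x y _ _ hx hy =>
    have := mul_mem hx hy
    convert this using 1
    group
  | inv x _ hx =>
    have := inv_mem hx
    convert this using 1
    group

theorem fn_all (hD : Sol.StmtDense) {Γ : Type} [Group Γ] [Finite Γ] (hS : IsSimpleGroup Γ)
    (l : Γ → ℝ) (h1 : l 1 = 0) (hsym : ∀ x, l x⁻¹ = l x)
    (hcl : ∀ x y, l (y * x * y⁻¹) = l x) (hsub : ∀ x y, l (x * y) ≤ l x + l y) (r : ℕ) (s : ℝ)
    (hs : 0 < s) (hr : r < Nat.card Γ)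
    (hA : Nat.card Γ ≤ r * ({x | l x ≤ s} : Set Γ).ncard) (x : Γ) : l x ≤ s * (3 * r + 3) := by
  have key : ∀ (y : Γ) (n : ℕ), 2 ^ ⌈l y / s⌉₊ ≤ 2 ^ n ↔ l y ≤ s * n := by
    intro y n
    rw [pow_le_pow_iff_right₀ (by norm_num : (1 : ℕ) < 2), Nat.ceil_le, div_le_iff₀ hs, mul_comm]
  have key1 : ∀ y : Γ, 2 ^ ⌈l y / s⌉₊ ≤ 2 ↔ l y ≤ s := by
    intro y
    have := key y 1
    simpa using this
  have eS : ({y | 2 ^ ⌈l y / s⌉₊ ≤ 2} : Set Γ) = {y | l y ≤ s} := by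
    ext y
    exact key1 y
  have h := hD Γ (fun y => 2 ^ ⌈l y / s⌉₊) 2 r (by norm_num)
    ((key1 1).mpr (by rw [h1]; exact hs.le))
    (fun a b => by
      rw [← pow_add]
      refine Nat.pow_le_pow_right (by norm_num) ?_
      refine le_trans (Nat.ceil_mono ?_) (Nat.ceil_add_le _ _)
      rw [← add_div]
      exact div_le_div_of_nonneg_right (hsub a b) hs.le)
    (fun a => by simp only [hsym])
    (by
      have e : Nat.card {y : Γ // 2 ^ ⌈l y / s⌉₊ ≤ 2} = ({y | l y ≤ s} : Set Γ).ncard := by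
        rw [← eS]
        rfl
      rw [e]
      exact hA)
  simp only [eS] at h
  have hn : (Subgroup.closure ({y | l y ≤ s} : Set Γ)).Normal :=
    fn_normal _ fun a ha b => by
      show l (b * a * b⁻¹) ≤ s
      rw [hcl]
      exact ha
  rcases hn.eq_bot_or_eq_top with hb | ht
  · have := h.1
    rw [hb, Subgroup.index_bot] at this
    omega
  · have := (key x (3 * r + 3)).mp (h.2 x (by rw [ht]; trivial))
    push_cast at this
    exact this

theorem fn_B (hD : Sol.StmtDense) {Γ : Type} [Group Γ] [Finite Γ] (hS : IsSimpleGroup Γ)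
    (f : Γ → ℝ) (D : ℕ) (hD2 : 2 ≤ D) (h1 : f 1 = 1)
    (hsym : ∀ x, f x⁻¹ = f x) (hcl : ∀ x y, f (y * x * y⁻¹) = f x)
    (hsub : ∀ x y, √(1 - f (x * y)) ≤ √(1 - f x) + √(1 - f y))
    (hsum : (D : ℝ) ^ 2 * ∑ᶠ x, f x ^ 2 ≤ Nat.card Γ) (g : Γ) (k : ℕ) (C : ℝ)
    (hmix : ∀ A : Set Γ,
      (({x | phi g k x ∈ A} : Set (Pw (Γ × Γ) k)).ncard : ℝ) * Nat.card Γ ≤
        (1 / 2 * Nat.card Γ + C * A.ncard) * (Nat.card Γ : ℝ) ^ (2 * k))
    (hr : ⌈2 * C⌉₊ < Nat.card Γ)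
    (hg : 2 * k * √(1 - f g) ≤ 1 / (2 * (3 * (⌈2 * C⌉₊ : ℝ) + 3))) : False := by
  set r : ℕ := ⌈2 * C⌉₊ with hrdef
  set s : ℝ := 1 / (2 * (3 * (r : ℝ) + 3)) with hsdef
  have hs : 0 < s := by positivity
  have hN : (0 : ℝ) < Nat.card Γ := by exact_mod_cast Nat.card_pos
  have l1 : √(1 - f 1) = 0 := by rw [h1]; simp
  have lsym : ∀ x, √(1 - f x⁻¹) = √(1 - f x) := fun x => by rw [hsym]
  have lcl : ∀ x y, √(1 - f (y * x * y⁻¹)) = √(1 - f x) := fun x y => by rw [hcl]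
  have h2 := hmix {x | √(1 - f x) ≤ s}
  have e : ({x | phi g k x ∈ ({x | √(1 - f x) ≤ s} : Set Γ)} : Set (Pw (Γ × Γ) k)) = Set.univ := by
    refine Set.eq_univ_of_forall fun x => ?_
    exact (fn_len (fun x => √(1 - f x)) l1 lsym lcl hsub g k x).trans hg
  rw [e, Set.ncard_univ, fn_card_pw2] at h2
  set a : ℕ := ({x | √(1 - f x) ≤ s} : Set Γ).ncard with ha
  have hM : 0 < (Nat.card Γ : ℝ) ^ (2 * k) := by positivity
  have h3 : (Nat.card Γ : ℝ) ≤ 1 / 2 * Nat.card Γ + C * a := by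
    refine le_of_mul_le_mul_right ?_ hM
    linarith
  have h4 : Nat.card Γ ≤ r * a := by
    have h5 : 2 * C ≤ r := Nat.le_ceil _
    have h6 : 2 * C * a ≤ r * a := mul_le_mul_of_nonneg_right h5 (Nat.cast_nonneg a)
    have h7 : (Nat.card Γ : ℝ) ≤ r * a := by linarith
    exact_mod_cast h7
  have h5 : ∀ x, (3 / 4 : ℝ) ≤ f x := by
    intro x
    have h6 := fn_all hD hS (fun x => √(1 - f x)) l1 lsym lcl hsub r s hs hr h4 x
    have h7 : s * (3 * r + 3) = 1 / 2 := by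
      rw [hsdef]
      field_simp
    rw [h7] at h6
    have h8 : 1 - f x ≤ (1 / 2) ^ 2 := by
      have := Real.sqrt_le_left (x := 1 - f x) (y := 1 / 2) (by norm_num)
      exact this.mp h6
    linarith
  have h6 : (3 / 4 : ℝ) ^ 2 * (Set.univ : Set Γ).ncard ≤ ∑ᶠ x, f x ^ 2 :=
    fn_le_sum (fun x => f x ^ 2) Set.univ _ (fun x => sq_nonneg _) fun x _ =>
      pow_le_pow_left₀ (by norm_num) (h5 x) 2
  rw [Set.ncard_univ] at h6
  have h7 : (2 : ℝ) ^ 2 ≤ (D : ℝ) ^ 2 :=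
    pow_le_pow_left₀ (by norm_num) (by exact_mod_cast hD2) 2
  have h8 : (2 : ℝ) ^ 2 * ((3 / 4 : ℝ) ^ 2 * Nat.card Γ) ≤ (D : ℝ) ^ 2 * ∑ᶠ x, f x ^ 2 :=
    mul_le_mul h7 h6 (by positivity) (by positivity)
  linarith

theorem fn_max {Γ : Type} [Group Γ] [Finite Γ] (f : Γ → ℝ) (g : Γ) (hg : g ≠ 1) :
    ∃ g' : Γ, g' ≠ 1 ∧ ∀ x, x ≠ 1 → f x ≤ f g' := by
  obtain ⟨a, ha, h⟩ := Set.exists_max_image {x : Γ | x ≠ 1} f (Set.toFinite _) ⟨g, hg⟩
  exact ⟨a, ha, h⟩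

theorem fn_small (t s : ℝ) (k B j : ℕ) (hs : 0 < s) (ht : t * j ≤ 2 * B)
    (hj : (2 * k) ^ 2 * (2 * B) / s ^ 2 < j) : 2 * k * √t ≤ s := by
  have hj0 : (0 : ℝ) < j := lt_of_le_of_lt (by positivity) hj
  rw [div_lt_iff₀ (by positivity)] at hj
  have h1 : ((2 * k) ^ 2 * t) * j ≤ s ^ 2 * j := by
    have : (2 * (k : ℝ)) ^ 2 * (t * j) ≤ (2 * k) ^ 2 * (2 * B) :=
      mul_le_mul_of_nonneg_left ht (by positivity)
    nlinarith
  have h2 := le_of_mul_le_mul_right h1 hj0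
  have h3 : 2 * k * √t = √((2 * k) ^ 2 * t) := by
    rw [Real.sqrt_mul (by positivity), Real.sqrt_sq (by positivity)]
  rw [h3]
  exact (Real.sqrt_le_left hs.le).mpr h2

theorem fn (hM : StmtMix) (hD : Sol.StmtDense) : StmtFn := by
  intro m τ hτ
  by_contra h
  push Not at h
  choose Γ G F hL hS hnc hd D f hD2 h01 h1 hsym hcl hsub hsum hmom hsm g hg hτg using h
  have big : ∀ B : ℕ, ∀ᶠ i in (hyperfilter ℕ : Filter ℕ), B ≤ Nat.card (Γ i) := by
    intro B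
    have : ∀ᶠ i in (hyperfilter ℕ : Filter ℕ), B ≤ i :=
      Nat.hyperfilter_le_atTop (eventually_ge_atTop B)
    exact this.mono fun i hi => hi.trans (hd i).le
  obtain ⟨k, C, hk⟩ := hM m Γ hL hS hnc big g hg
  have hθ : 0 < τ ^ (2 * k) / 4 := by positivity
  obtain ⟨B, hB⟩ : ∃ B : ℕ, ∀ᶠ i in (hyperfilter ℕ : Filter ℕ), D i ≤ B := by
    refine ⟨⌈max C 0 / (2 * (τ ^ (2 * k) / 4) ^ 3)⌉₊, (hk _ hθ).mono fun i hi => ?_⟩
    have h2 := fn_A (f i) (D i) (g i) k C τ hτ (hτg i) (h01 i) (hsum i) (hmom i (g i) k) hi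
    have h3 : ((D i : ℕ) : ℝ) ^ 2 ≤ max C 0 / (2 * (τ ^ (2 * k) / 4) ^ 3) := by
      rw [le_div_iff₀ (by positivity)]
      linarith
    have h4 : ((D i : ℕ) : ℝ) ≤ (D i : ℝ) ^ 2 := by
      exact_mod_cast Nat.le_self_pow (by norm_num) (D i)
    exact_mod_cast (h4.trans h3).trans (Nat.le_ceil _)
  choose g' hg' hmax using fun i => fn_max (f i) (g i) (hg i)
  obtain ⟨k', C', hk'⟩ := hM m Γ hL hS hnc big g' hg'
  obtain ⟨j, hj⟩ := exists_nat_gt
    ((2 * (k' : ℝ)) ^ 2 * (2 * B) / (1 / (2 * (3 * (⌈2 * C'⌉₊ : ℝ) + 3))) ^ 2)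
  have hj0 : 0 < j := by
    have : (0 : ℝ) < j := lt_of_le_of_lt (by positivity) hj
    exact_mod_cast this
  obtain ⟨i, ⟨⟨i1, i2⟩, i3⟩, i4⟩ := (((hB.and (hk' (1 / 2) (by norm_num))).and
    (big (⌈2 * C'⌉₊ + 1))).and (big ((2 * j + 1) ^ (2 * B ^ 2) + 1))).exists
  refine fn_B hD (hS i) (f i) (D i) (hD2 i) (h1 i) (hsym i) (hcl i) (hsub i) (hsum i)
    (g' i) k' C' i2 i3 ?_
  refine fn_small _ _ k' B j (by positivity) ?_ hj
  obtain ⟨x, hx, hx2⟩ := hsm i j hj0 (lt_of_le_of_lt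
    (Nat.pow_le_pow_right (by omega) (Nat.mul_le_mul_left 2 (Nat.pow_le_pow_left i1 2))) i4)
  have h2 : (1 - f i (g' i)) * j ≤ (1 - f i x) * j :=
    mul_le_mul_of_nonneg_right (by linarith [hmax i x hx]) (Nat.cast_nonneg j)
  have h3 : ((D i : ℕ) : ℝ) ≤ B := by exact_mod_cast i1
  linarith

end Pool.Agent.Work.MP_11a08a_al.Lin
end

-- merged part: Pool.Agent.Work.MP_11a08a_al.Lin.PB
section
/-!
Linear algebra; `β` is linear on the left and `σ`-semilinear on the right (simp lemmas in `DefsP`).  Treat the two cases of `p.sorts` separately only for gradedness: if all `P s = ⊤` every subspace is graded; in the split case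
`Gr T` means: for `a ∈ P true`, `b ∈ P false` with `a + b ∈ T` both lie in `T`, and `β` vanishes on `P s × P s`.
(1) the linear map `Φ : T → (R → K)`, `x ↦ (β x r)`; if `c` is not in its range take a functional `b` killing the range with `∑ b r * c r ≠ 0` (`Submodule.exists_dual_map_eq_bot_of_notMem`, or
`Subspace.forall_mem_dualAnnihilator_apply_eq_zero_iff`), put `a r = σ (b r)` (zero outside `R`); `β x (∑ a r • r) = 0` for all `x ∈ T`, use `β_comm`.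
(2) with a basis `u i` of `U` the map `v ↦ (β v (u i))` has kernel `perp U` and is onto by the argument of (1) and `p.nd`; `U ≤ perp (perp U)` and the dimensions agree.  Also prove `perp (S ⊔ T) = perp S ⊓ perp T` and, by (2), `perp (S ⊓ T) = perp S ⊔ perp T`.
(6) `U ⊓ P s ⊓ perp (U ⊓ P (!s)) = ⊥` (such a vector is orthogonal to `U ⊓ P true ⊔ U ⊓ P false ≥ U`); in the split case compare dimensions inside `U`: `U = (U ⊓ P true) ⊕ (U ⊓ P false)`, the linear map `U ⊓ P s → K ^ d`, `v ↦ (β v (u i))` for a basis `u i` of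
`U ⊓ P (!s)` is injective, so the two dimensions are equal.  `rk ⊤ + dim U ≤ rk U + dim V` is `Submodule.finrank_sup_add_finrank_inf_eq U (P true)`.  For `bad = S ⊔ Y`, `X = U ⊓ P s`, `X ⊓ Y = ⊥`:
`dim (bad ⊓ X) + dim Y = dim (bad ⊓ X ⊔ Y) ≤ dim S + dim Y`.  Last part, split case: `v = t + y`, `t = t₁ + t₂` with `t₁ ∈ span T ⊓ P s`, `t₂ ∈ P (!s) ≤ perp (U ⊓ P (!s))`; `v - t₁ = y + t₂ ∈ P s` lies in `perp U`.
(8) induction on `dim T - dim R`: if `R ≠ T` some homogeneous `v ∈ T` is not in `R`; apply the hypothesis to `R ⊔ span {v}` and use `Fin.cons`.  (7) apply (8) to `R = T ⊓ perp T`, `U = span (range v)`; `U ⊓ R = ⊥`, `dim U = j`,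
a vector of `U ⊓ perp U` is orthogonal to `U ⊔ R ≥ T`; `dim R ≤ dim (perp T)`.  (9) `H = span {e, f}` has dimension 2 and `Nd H`; every `u ∈ U` is `u' + a e + b f` with `u' ∈ U ⊓ perp H`; `perp (U ⊓ perp H) = perp U ⊔ H`; the bound for `rk` from
`finrank_sup_add_finrank_inf_eq` applied to `U ⊓ perp H` and `U ⊓ P true` inside `U`.
-/

set_option autoImplicit false

open Module
open scoped commutatorElement

namespace Pool.Agent.Work.MP_11a08a_al.Lin

section Aux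

open Submodule Polar

variable {K V : Type} [Field K] [AddCommGroup V] [Module K V] (p : Polar K V)

theorem pb_anti {S T : Submodule K V} (h : S ≤ T) : p.perp T ≤ p.perp S :=
  fun _ hv u hu => hv u (h hu)

theorem pb_le_pp (U : Submodule K V) : U ≤ p.perp (p.perp U) :=
  fun u hu v hv => p.β_comm.1 (hv u hu)

theorem pb_perp_sup (S T : Submodule K V) : p.perp (S ⊔ T) = p.perp S ⊓ p.perp T := by
  refine le_antisymm (le_inf (pb_anti p le_sup_left) (pb_anti p le_sup_right)) fun v hv u hu => ?_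
  obtain ⟨a, ha, b, hb, rfl⟩ := mem_sup.1 hu
  rw [β_add_right, hv.1 a ha, hv.2 b hb, add_zero]

theorem pb_perp_top : p.perp ⊤ = ⊥ :=
  eq_bot_iff.2 fun v hv => (mem_bot K).2 (p.nd v fun w => hv w mem_top)

theorem pb_perp_span {S : Set V} {v : V} (h : ∀ u ∈ S, p.β v u = 0) : v ∈ p.perp (span K S) := by
  intro u hu
  induction hu using span_induction with
  | mem x hx => exact h x hx
  | zero => exact p.β_zero_right v
  | add x y _ _ hx hy => rw [β_add_right, hx, hy, add_zero]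
  | smul a x _ hx => rw [β_smul_right, hx, mul_zero]

theorem pb_sum {ι : Type} (R : Finset ι) (x : V) (u : ι → V) :
    p.β x (∑ i ∈ R, u i) = ∑ i ∈ R, p.β x (u i) :=
  map_sum (AddMonoidHom.mk' (p.β x) (p.β_add_right x)) u R

theorem pb_one (T : Submodule K V) {ι : Type} [Fintype ι] (u : ι → V) (c : ι → K)
    (h : ∀ a : ι → K, ∑ i, a i • u i ∈ p.perp T → ∑ i, p.σ (a i) * c i = 0) :
    ∃ x ∈ T, ∀ i, p.β x (u i) = c i := by
  classical
  by_contra hc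
  have h1 : c ∉ T.map (LinearMap.pi fun i => p.βl (u i)) := by
    rintro ⟨x, hx, e⟩
    exact hc ⟨x, hx, fun i => congrFun e i⟩
  obtain ⟨f, h2, h3⟩ := exists_dual_map_eq_bot_of_notMem h1 inferInstance
  have e : ∀ y : ι → K, f y = ∑ i, p.σ (p.σ (f fun j => if i = j then 1 else 0)) * y i := by
    intro y
    rw [LinearMap.pi_apply_eq_sum_univ f y]
    refine Finset.sum_congr rfl fun i _ => ?_
    rw [σσ, smul_eq_mul, mul_comm]
  apply h2
  rw [e]
  refine h _ fun x hx => p.β_comm.1 ?_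
  have h4 : f (LinearMap.pi (fun i => p.βl (u i)) x) = 0 := by
    rw [← mem_bot K, ← h3]
    exact mem_map_of_mem (mem_map_of_mem hx)
  rw [e] at h4
  rw [pb_sum]
  exact (Finset.sum_congr rfl fun i _ => p.β_smul_right _ _ _).trans h4

theorem pb_one' (T : Submodule K V) (R : Finset V) (c : V → K)
    (h : ∀ a : V → K, ∑ r ∈ R, a r • r ∈ p.perp T → ∑ r ∈ R, p.σ (a r) * c r = 0) :
    ∃ x ∈ T, ∀ r ∈ R, p.β x r = c r := by
  classical
  obtain ⟨x, hx, e⟩ := pb_one p T (fun r : R => (r : V)) (fun r => c r) fun a ha => by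
    have h1 := h (fun v => if hv : v ∈ R then a ⟨v, hv⟩ else 0) (by
      rw [← Finset.sum_coe_sort]
      simpa using ha)
    rw [← Finset.sum_coe_sort] at h1
    simpa using h1
  exact ⟨x, hx, fun r hr => e ⟨r, hr⟩⟩

theorem pb_gr_s {U : Submodule K V} (hU : p.Gr U) (s : Bool) {v : V} (hv : v ∈ U) :
    ∃ a ∈ U ⊓ p.P s, ∃ b ∈ U ⊓ p.P (!s), a + b = v := by
  obtain ⟨a, ha, b, hb, e⟩ := mem_sup.1 (hU hv)
  cases s
  · exact ⟨b, hb, a, ha, (add_comm _ _).trans e⟩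
  · exact ⟨a, ha, b, hb, e⟩

theorem pb_gr_all (h : ∀ s, p.P s = ⊤) (U : Submodule K V) : p.Gr U := by
  rw [Gr, h, inf_top_eq]
  exact le_sup_left

theorem pb_gr_top : p.Gr ⊤ := by
  rcases p.sorts with h | ⟨h, -⟩
  · exact pb_gr_all p h _
  · rw [Gr, top_inf_eq, top_inf_eq, h.sup_eq_top]

theorem pb_gr_span {S : Set V} (h : ∀ t ∈ S, ∃ s, t ∈ p.P s) : p.Gr (span K S) := by
  refine span_le.2 fun t ht => ?_
  obtain ⟨s, hs⟩ := h t ht
  cases s
  · exact mem_sup_right ⟨subset_span ht, hs⟩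
  · exact mem_sup_left ⟨subset_span ht, hs⟩

theorem pb_gr_perp {T : Submodule K V} (hT : p.Gr T) : p.Gr (p.perp T) := by
  rcases p.sorts with h | ⟨-, h⟩
  · exact pb_gr_all p h _
  · intro v hv
    obtain ⟨a, ha, b, hb, rfl⟩ := pb_gr_s p (pb_gr_top p) true (mem_top (x := v))
    have h1 : a ∈ p.perp T := fun t ht => by
      obtain ⟨c, hc, d, hd, rfl⟩ := pb_gr_s p hT true ht
      have h2 := hv d hd.1
      have h3 : p.β b d = 0 := (h _ b hb.2).2 d hd.2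
      have h4 : p.β a c = 0 := (h _ a ha.2).2 c hc.2
      rw [β_add_left, h3, add_zero] at h2
      rw [β_add_right, h4, h2, add_zero]
    exact add_mem_sup ⟨h1, ha.2⟩ ⟨(Submodule.add_mem_iff_right _ h1).1 hv, hb.2⟩

theorem pb_gr_inf {T T' : Submodule K V} (hT : p.Gr T) (hT' : p.Gr T') : p.Gr (T ⊓ T') := by
  rcases p.sorts with h | ⟨h, -⟩
  · exact pb_gr_all p h _
  · intro v hv
    obtain ⟨a, ha, b, hb, e⟩ := pb_gr_s p hT true hv.1
    obtain ⟨a', ha', b', hb', e'⟩ := pb_gr_s p hT' true hv.2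
    have h1 : a - a' = b' - b := by
      rw [sub_eq_sub_iff_add_eq_add, e, add_comm, e']
    have h2 : a - a' = 0 :=
      disjoint_def.1 h.disjoint _ (sub_mem ha.2 ha'.2) (h1 ▸ sub_mem hb'.2 hb.2)
    rw [h2, eq_comm, sub_eq_zero] at h1
    rw [sub_eq_zero] at h2
    rw [← e]
    exact add_mem_sup ⟨⟨ha.1, h2 ▸ ha'.1⟩, ha.2⟩ ⟨⟨hb.1, h1 ▸ hb'.1⟩, hb.2⟩

theorem pb_gr_sup {T T' : Submodule K V} (hT : p.Gr T) (hT' : p.Gr T') : p.Gr (T ⊔ T') :=
  sup_le (hT.trans (sup_le_sup (inf_le_inf_right _ le_sup_left) (inf_le_inf_right _ le_sup_left)))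
    (hT'.trans (sup_le_sup (inf_le_inf_right _ le_sup_right) (inf_le_inf_right _ le_sup_right)))

theorem pb_hom {U : Submodule K V} (hU : p.Gr U) (s : Bool) {v : V} (hv : v ∈ p.P s) :
    v ∈ p.perp (U ⊓ p.P (!s)) ↔ v ∈ p.perp U := by
  refine ⟨fun h1 => ?_, fun h1 => pb_anti p inf_le_left h1⟩
  rcases p.sorts with h | ⟨-, h⟩
  · rwa [h, inf_top_eq] at h1
  · intro u hu
    obtain ⟨a, ha, b, hb, rfl⟩ := pb_gr_s p hU s hu
    have h2 : p.β v a = 0 := (h _ v hv).2 a ha.2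
    rw [β_add_right, h2, h1 b hb, add_zero]

theorem pb_disj {U : Submodule K V} (hU : p.Nd U) (s : Bool) :
    Disjoint (U ⊓ p.P s) (p.perp (U ⊓ p.P (!s))) := by
  refine disjoint_def.2 fun v hv h1 => ?_
  rw [← mem_bot K, ← hU.2]
  exact ⟨hv.1, (pb_hom p hU.1 s hv.2).1 h1⟩

theorem pb_bad {U : Submodule K V} (hU : p.Gr U) (s : Bool) (T : Finset V)
    (hT : ∀ t ∈ T, ∃ s', t ∈ p.P s') {v : V} (hv : v ∈ p.P s) (hb : v ∈ p.bad U s T) :
    v ∈ span K (T : Set V) ⊔ p.perp U := by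
  rcases p.sorts with h | ⟨-, h⟩
  · rwa [bad, h, inf_top_eq] at hb
  · obtain ⟨t, ht, y, hy, rfl⟩ := mem_sup.1 hb
    obtain ⟨a, ha, b, hb', rfl⟩ := pb_gr_s p (pb_gr_span p (S := T) hT) s ht
    rw [add_assoc] at hv ⊢
    refine add_mem_sup ha.1 ((pb_hom p hU s ((Submodule.add_mem_iff_right _ ha.2).1 hv)).1
      (add_mem (fun u hu => ?_) hy))
    exact (h _ b hb'.2).2 u hu.2

variable [FiniteDimensional K V]

theorem pb_dim (U : Submodule K V) : finrank K (p.perp U) + finrank K U = finrank K V := by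
  obtain ⟨u, -, h2, h3⟩ := exists_fun_fin_finrank_span_eq K (U : Set V)
  have h4 := LinearMap.finrank_range_add_finrank_ker (LinearMap.pi fun i => p.βl (u i))
  have h5 : LinearMap.range (LinearMap.pi fun i => p.βl (u i)) = ⊤ := by
    refine eq_top_iff.2 fun c _ => ?_
    obtain ⟨x, -, hx⟩ := pb_one p ⊤ u c fun a ha => by
      rw [pb_perp_top, mem_bot] at ha
      simp [Fintype.linearIndependent_iff.1 h3 a ha]
    exact ⟨x, funext hx⟩
  have h6 : LinearMap.ker (LinearMap.pi fun i => p.βl (u i)) = p.perp (span K (U : Set V)) := by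
    refine Eq.trans ?_ (congrArg p.perp h2)
    ext v
    refine ⟨fun hv => pb_perp_span p ?_, fun hv => funext fun i => hv _ (subset_span ⟨i, rfl⟩)⟩
    rintro _ ⟨i, rfl⟩
    exact congrFun hv i
  rw [h5, h6, finrank_top, finrank_fin_fun, span_eq] at h4
  omega

theorem pb_pp (U : Submodule K V) : p.perp (p.perp U) = U := by
  refine (eq_of_le_of_finrank_eq (pb_le_pp p U) ?_).symm
  have h1 := pb_dim p U
  have h2 := pb_dim p (p.perp U)
  omega

theorem pb_perp_inf (S T : Submodule K V) : p.perp (S ⊓ T) = p.perp S ⊔ p.perp T := by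
  rw [← pb_pp p (p.perp S ⊔ p.perp T), pb_perp_sup, pb_pp, pb_pp]

theorem pb_compl {U : Submodule K V} (hU : p.Nd U) : IsCompl U (p.perp U) :=
  (isCompl_iff_disjoint _ _ (by have := pb_dim p U; omega)).2 (disjoint_iff.2 hU.2)

theorem pb_rk {U : Submodule K V} (hU : p.Nd U) (s : Bool) :
    finrank K ↥(U ⊓ p.P s) = p.rk U := by
  have h : ∀ s, finrank K ↥(U ⊓ p.P s) ≤ finrank K ↥(U ⊓ p.P (!s)) := fun s => by
    have h1 := finrank_add_finrank_le_of_disjoint (pb_disj p hU s)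
    have h2 := pb_dim p (U ⊓ p.P (!s))
    omega
  cases s
  · exact le_antisymm (h false) (h true)
  · rfl

theorem pb_badle {U : Submodule K V} (hU : p.Nd U) (s : Bool) (T : Finset V) :
    finrank K ↥(p.bad U s T ⊓ (U ⊓ p.P s)) ≤ T.card := by
  have h1 := finrank_sup_add_finrank_inf_eq (p.bad U s T ⊓ (U ⊓ p.P s)) (p.perp (U ⊓ p.P (!s)))
  rw [((pb_disj p hU s).mono_left inf_le_right).eq_bot, finrank_bot] at h1
  have h2 : p.bad U s T ⊓ (U ⊓ p.P s) ⊔ p.perp (U ⊓ p.P (!s)) ≤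
      span K (T : Set V) ⊔ p.perp (U ⊓ p.P (!s)) := sup_le inf_le_left le_sup_right
  have h3 := finrank_mono h2
  have h4 := finrank_add_le_finrank_add_finrank (span K (T : Set V)) (p.perp (U ⊓ p.P (!s)))
  have h5 : finrank K (span K (T : Set V)) ≤ T.card := finrank_span_finset_le_card T
  omega

theorem pb_ind {T : Submodule K V} (hT : p.Gr T) (n : ℕ) : ∀ R : Submodule K V, R ≤ T →
    n + finrank K R = finrank K T → ∃ (s : Fin n → Bool) (v : Fin n → V),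
      p.Ind R s v ∧ (∀ i, v i ∈ T) ∧ T ≤ span K (Set.range v) ⊔ R := by
  induction n with
  | zero =>
    intro R h e
    refine ⟨Fin.elim0, Fin.elim0, ⟨fun i => i.elim0, fun _ _ i => i.elim0⟩, fun i => i.elim0, ?_⟩
    rw [eq_of_le_of_finrank_eq h (by omega)]
    exact le_sup_right
  | succ n ih =>
    intro R h e
    have h1 : ∃ s, ∃ w ∈ T ⊓ p.P s, w ∉ R := by
      by_contra hc
      push Not at hc
      have := finrank_mono (hT.trans (sup_le (hc true) (hc false)))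
      omega
    obtain ⟨s₀, w, hw, hR⟩ := h1
    obtain ⟨s, v, h2, h3, h4⟩ := ih (R ⊔ span K {w})
      (sup_le h ((span_singleton_le_iff_mem _ _).2 hw.1))
      (by rw [finrank_sup_span_singleton hR]; omega)
    refine ⟨Fin.cons s₀ s, Fin.cons w v, ⟨Fin.cases hw.2 h2.1, fun a ha => ?_⟩,
      Fin.cases hw.1 h3, h4.trans (sup_le (le_sup_of_le_left (span_mono ?_))
        (sup_le le_sup_right (le_sup_of_le_left (span_mono ?_))))⟩
    · rw [Fin.sum_univ_succ] at ha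
      simp only [Fin.cons_zero, Fin.cons_succ] at ha
      have h5 := h2.2 (fun i => a i.succ) ((Submodule.add_mem_iff_right _ (mem_sup_right
        (smul_mem _ (a 0) (mem_span_singleton_self w)))).1 (mem_sup_left ha))
      simp only [h5, zero_smul, Finset.sum_const_zero, add_zero] at ha
      refine Fin.cases ?_ h5
      by_contra h0
      exact hR ((smul_mem_iff _ h0).1 ha)
    · rw [Fin.range_cons]
      exact Set.subset_insert _ _
    · rw [Fin.range_cons]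
      exact Set.singleton_subset_iff.2 (Set.mem_insert _ _)

theorem pb_big {T : Submodule K V} (hT : p.Gr T) :
    ∃ U ≤ T, p.Nd U ∧ 2 * finrank K T ≤ finrank K U + finrank K V := by
  have h0 : finrank K ↥(T ⊓ p.perp T) ≤ finrank K T := finrank_mono inf_le_left
  obtain ⟨s, v, h1, h2, h3⟩ := pb_ind p hT (finrank K T - finrank K ↥(T ⊓ p.perp T))
    (T ⊓ p.perp T) inf_le_left (by omega)
  have h4 : span K (Set.range v) ≤ T := span_le.2 (Set.range_subset_iff.2 h2)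
  refine ⟨_, h4, ⟨pb_gr_span p ?_, eq_bot_iff.2 fun u hu => ?_⟩, ?_⟩
  · rintro _ ⟨i, rfl⟩
    exact ⟨_, h1.1 i⟩
  · have h5 : u ∈ p.perp T := by
      refine pb_anti p h3 ?_
      rw [pb_perp_sup]
      exact ⟨hu.2, pb_anti p inf_le_right (pb_le_pp p T (h4 hu.1))⟩
    obtain ⟨a, rfl⟩ := (mem_span_range_iff_exists_fun K).1 hu.1
    simp [h1.2 a ⟨h4 hu.1, h5⟩]
  · have h5 := finrank_mono h3
    have h6 := finrank_add_le_finrank_add_finrank (span K (Set.range v)) (T ⊓ p.perp T)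
    have h7 : finrank K ↥(T ⊓ p.perp T) ≤ finrank K (p.perp T) := finrank_mono inf_le_right
    have h8 := pb_dim p T
    omega

theorem pb_hyp {e f : V} (he : e ∈ p.P true) (hf : f ∈ p.P false) (h1 : p.Sing e) (h2 : p.Sing f)
    (h3 : p.β e f = 1) : p.Nd (span K {e, f}) ∧ finrank K (span K ({e, f} : Set V)) = 2 := by
  have h4 : p.β f e = p.ε := by rw [β_symm, h3, map_one, mul_one]
  refine ⟨⟨pb_gr_span p ?_, eq_bot_iff.2 fun u hu => ?_⟩, ?_⟩
  · rintro _ (rfl | rfl)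
    · exact ⟨_, he⟩
    · exact ⟨_, hf⟩
  · obtain ⟨a, b, rfl⟩ := mem_span_pair.1 hu.1
    have h5 := hu.2 f (subset_span (Or.inr rfl))
    have h6 := hu.2 e (subset_span (Or.inl rfl))
    simp only [β_add_left, β_smul_left, h1.β_self, h2.β_self, h3, h4, mul_zero, mul_one, add_zero,
      zero_add, mul_eq_zero, p.ε_ne, or_false] at h5 h6
    simp [h5, h6]
  · have h5 : e ≠ 0 := by
      rintro rfl
      simp at h3
    have h6 : f ∉ span K {e} := by
      intro h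
      obtain ⟨a, rfl⟩ := mem_span_singleton.1 h
      simp [h1.β_self] at h3
    rw [span_insert, finrank_sup_span_singleton h6, finrank_span_singleton h5]

theorem pb_cut {U H : Submodule K V} (hU : p.Nd U) (hH : p.Nd H) (h : H ≤ U) :
    p.Nd (U ⊓ p.perp H) ∧ finrank K ↥(U ⊓ p.perp H) + finrank K H = finrank K U ∧
      p.perp (U ⊓ p.perp H) = p.perp U ⊔ H ∧ p.rk U ≤ p.rk (U ⊓ p.perp H) + finrank K H := by
  have h1 : p.perp (U ⊓ p.perp H) = p.perp U ⊔ H := by rw [pb_perp_inf, pb_pp]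
  have h2 : finrank K ↥(U ⊓ p.perp H) + finrank K H = finrank K U := by
    have h3 := finrank_sup_add_finrank_inf_eq U (p.perp H)
    have h4 : U ⊔ p.perp H = ⊤ :=
      eq_top_iff.2 ((pb_compl p hH).sup_eq_top.ge.trans (sup_le_sup_right h _))
    rw [h4, finrank_top] at h3
    have h5 := pb_dim p H
    omega
  refine ⟨⟨pb_gr_inf p hU.1 (pb_gr_perp p hH.1), eq_bot_iff.2 fun v hv => ?_⟩, h2, h1, ?_⟩
  · obtain ⟨hv1, hv2⟩ := hv
    rw [h1] at hv2
    obtain ⟨y, hy, z, hz, rfl⟩ := mem_sup.1 hv2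
    have h3 : y = 0 := by
      rw [← mem_bot K, ← hU.2]
      exact ⟨(Submodule.add_mem_iff_left _ (h hz)).1 hv1.1, hy⟩
    rw [h3, zero_add] at hv1 ⊢
    rw [← hH.2]
    exact ⟨hz, hv1.2⟩
  · have h3 := finrank_sup_add_finrank_inf_eq (U ⊓ p.perp H) (U ⊓ p.P true)
    have h4 : finrank K ↥(U ⊓ p.perp H ⊔ U ⊓ p.P true) ≤ finrank K U :=
      finrank_mono (sup_le inf_le_left inf_le_left)
    have h5 : finrank K ↥(U ⊓ p.perp H ⊓ (U ⊓ p.P true)) ≤ p.rk (U ⊓ p.perp H) :=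
      finrank_mono (inf_le_inf_left _ inf_le_right)
    have h6 : p.rk U = finrank K ↥(U ⊓ p.P true) := rfl
    omega

end Aux

theorem pb : StmtPB := by
  intro K V _ _ _ _ p
  refine ⟨pb_one' p, fun U => ⟨pb_dim p U, pb_pp p U⟩,
    fun T T' hT => ⟨pb_gr_perp p hT, fun hT' => ⟨pb_gr_inf p hT hT', pb_gr_sup p hT hT'⟩⟩,
    fun s v hv => pb_gr_span p ?_, ⟨pb_gr_top p, by rw [pb_perp_top, inf_bot_eq]⟩,
    fun U hU => ⟨pb_compl p hU, ⟨pb_gr_perp p hU.1, by rw [pb_pp, inf_comm, hU.2]⟩, pb_rk p hU,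
      ?_, ?_, fun s v hv => pb_hom p hU.1 s hv, pb_badle p hU,
      fun s T hT v hv hb => pb_bad p hU.1 s T hT hv hb⟩,
    fun T hT => pb_big p hT, fun R T _ hT h => ?_, fun U e f hU he hf h1 h2 h3 => ?_⟩
  · rintro _ rfl
    exact ⟨s, hv⟩
  · have h1 := Submodule.finrank_mono hU.1
    have h2 := Submodule.finrank_add_le_finrank_add_finrank (U ⊓ p.P true) (U ⊓ p.P false)
    have h3 := pb_rk p hU true
    have h4 := pb_rk p hU false
    omega
  · have h1 := Submodule.finrank_sup_add_finrank_inf_eq U (p.P true)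
    have h2 := Submodule.finrank_le (U ⊔ p.P true)
    have h3 := pb_rk p hU true
    have h4 : p.rk ⊤ = finrank K (p.P true) := by rw [Polar.rk, top_inf_eq]
    omega
  · have h1 := Submodule.finrank_mono h
    obtain ⟨s, v, h2, h3, h4⟩ := pb_ind p hT (finrank K T - finrank K R) R h (by omega)
    exact ⟨_, s, v, h2, h3, h4, by omega⟩
  · obtain ⟨h4, h5⟩ := pb_hyp p he.2 hf.2 h1 h2 h3
    have h6 := pb_cut p hU h4 (Submodule.span_le.2 (Set.pair_subset he.1 hf.1))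
    rwa [h5] at h6

end Pool.Agent.Work.MP_11a08a_al.Lin
end

-- merged part: Pool.Agent.Work.MP_11a08a_al.Lin.RL
section
/-!
`q = Nat.card K ≥ 2`; a subspace of dimension `d` has `q ^ d` elements (`Module.natCard_eq_pow_finrank`).  Put `X = U ⊓ P s ⊓ perp (span R)`, `dim X ≥ rk U - j`.  The bad vectors in `U ⊓ P s` are at most `q ^ card T ≤ q ^ (rk U - j - 3)` (item 6 of `hB`).
Split case: all vectors of `P s` are singular, `x₀ + X` has at least `q ^ (rk U - j)` elements.  Case `P s = ⊤`, `rk U = dim U`: the radical `X ⊓ perp X` has dimension at most `dim (U ⊓ perp X) = dim U - dim X ≤ j`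
(`perp X = perp U ⊕ (U ⊓ perp X)` as `perp U ≤ perp X`), so a complement `X₁` of it in `X` has dimension at least 5.  Lemma (Chevalley-Warning): a subspace `Y` of dimension at least 3 contains `v ≠ 0` with `g v v = 0`: with `r = ringChar K`, `k` the degree of `K` over `ZMod r`
and a basis `b l`, write `v = ∑ i < 3, ∑ l, c i l • b l • y i`; `σ` fixes the prime field, so each coordinate of `g v v` is a polynomial of degree at most 2 in `3 k` variables; `char_dvd_card_solutions_of_fintype_sum_lt`, and `c = 0` is a solution.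
So there is a singular `e ∈ X`, `e ∉ perp X`; take `y ∈ X` with `β e y = 1` and `f = y - σ (ε g y y) • e`, singular by `g_add`, `β e f = 1`.  Replace `x₀` by `x₀' = x₀ - α e - γ f` orthogonal to `e` and `f`.  For `t ∈ X ⊓ perp (span {e, f})` (dimension at least `rk U - j - 2`) put
`y = x₀' + t`, `x = y + e + a • f` with `σ a = - g y y`; `x` is singular, and `t ↦ x` is injective (`β x e` determines `a`).  So at least `q ^ (rk U - j - 2) - q ^ (rk U - j - 3) ≥ q ^ (rk U - j - 3)` vectors remain.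
The existence part: `x₀` from item 1 of `hB` with `T = U ⊓ P s`.  Second item: `e` from `R = T = ∅`, so `e ∉ perp (U ⊓ P false)`; `f` from `s = false`, `R = {e}`, `c = ε`, then `β e f = ε σ ε = 1`.  Third item: induction on `j` with item 9 of `hB`; for `j = 0` take `v = e` or `f`.
-/

set_option autoImplicit false

open Module
open scoped commutatorElement

namespace Pool.Agent.Work.MP_11a08a_al.Lin

open MvPolynomial in
/-- a bilinear map into a small space has a nonzero isotropic vector -/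
theorem rl_cw {r : ℕ} [Fact r.Prime] {I J : Type} [Fintype I] [Fintype J] (B : I → I → J → ZMod r)
    (h : 2 * Fintype.card J < Fintype.card I) :
    ∃ c : I → ZMod r, c ≠ 0 ∧ ∀ l, ∑ a, ∑ a', c a * c a' * B a a' l = 0 := by
  classical
  let f : J → MvPolynomial I (ZMod r) := fun l => ∑ a, ∑ a', X a * X a' * C (B a a' l)
  have hf : ∀ l, (f l).totalDegree ≤ 2 := fun l =>
    totalDegree_finsetSum_le fun a _ => totalDegree_finsetSum_le fun a' _ => by
      refine (totalDegree_mul _ _).trans ?_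
      rw [totalDegree_C, add_zero]
      refine (totalDegree_mul _ _).trans ?_
      rw [totalDegree_X, totalDegree_X]
  have h1 : ∑ l, (f l).totalDegree < Fintype.card I := by
    refine lt_of_le_of_lt ((Finset.sum_le_sum fun l _ => hf l).trans ?_) h
    simp [mul_comm]
  have h2 := char_dvd_card_solutions_of_fintype_sum_lt r h1
  have he : ∀ (c : I → ZMod r) l, eval c (f l) = ∑ a, ∑ a', c a * c a' * B a a' l := fun c l => by
    simp [f]
  by_contra hn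
  push Not at hn
  have h3 : Fintype.card {x : I → ZMod r // ∀ l, eval x (f l) = 0} = 1 := by
    refine Fintype.card_eq_one_iff.2 ⟨⟨0, fun l => by rw [he]; simp⟩, fun y => Subtype.ext ?_⟩
    by_contra h0
    obtain ⟨l, hl⟩ := hn y.1 h0
    exact hl ((he _ l).symm.trans (y.2 l))
  rw [h3] at h2
  exact (Fact.out : r.Prime).not_dvd_one h2

variable {K V : Type} [Field K] [AddCommGroup V] [Module K V] (p : Polar K V)

theorem rl_iso [Finite K] (Y : Submodule K V) (hY : 3 ≤ finrank K Y) :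
    ∃ v ∈ Y, v ≠ 0 ∧ p.Sing v := by
  obtain ⟨r, hr⟩ := CharP.exists K
  have : Fact r.Prime := ⟨CharP.char_is_prime K r⟩
  let _ : Algebra (ZMod r) K := ZMod.algebra K r
  let b := Module.finBasis (ZMod r) K
  obtain ⟨y, hy⟩ := exists_linearIndependent_of_le_finrank hY
  have hk : 0 < finrank (ZMod r) K := finrank_pos
  have hσ : ∀ c : ZMod r, p.σ (algebraMap (ZMod r) K c) = algebraMap (ZMod r) K c := fun c =>
    RingHom.congr_fun (Subsingleton.elim (p.σ.comp (algebraMap (ZMod r) K)) _) c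
  let u : Fin 3 × Fin (finrank (ZMod r) K) → V := fun a => b a.2 • (y a.1 : V)
  obtain ⟨c, hc0, hc⟩ := rl_cw (fun a a' l => b.repr (p.g (u a) (u a')) l) (by
    simp only [Fintype.card_prod, Fintype.card_fin]
    omega)
  refine ⟨∑ a, algebraMap (ZMod r) K (c a) • u a,
    Y.sum_mem fun a _ => Y.smul_mem _ (Y.smul_mem _ (y a.1).2), fun h0 => hc0 ?_, ?_⟩
  · have h1 : ∑ i, (∑ l, c (i, l) • b l) • y i = 0 := by
      apply Subtype.ext
      rw [Submodule.coe_sum, Submodule.coe_zero, ← h0, Fintype.sum_prod_type]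
      refine Finset.sum_congr rfl fun i _ => ?_
      simp only [Submodule.coe_sum, Submodule.coe_smul, Finset.sum_smul, Algebra.smul_def, mul_smul,
        u]
    funext a
    exact Fintype.linearIndependent_iff.1 b.linearIndependent _
      (Fintype.linearIndependent_iff.1 hy _ h1 a.1) a.2
  · have h1 : p.g (∑ a, algebraMap (ZMod r) K (c a) • u a) (∑ a, algebraMap (ZMod r) K (c a) • u a)
        = ∑ a, ∑ a', (c a * c a') • p.g (u a) (u a') := by
      rw [map_sum, Finset.sum_comm]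
      refine Finset.sum_congr rfl fun a' _ => ?_
      rw [map_sum, LinearMap.sum_apply]
      refine Finset.sum_congr rfl fun a _ => ?_
      simp only [map_smul, LinearMap.smul_apply, LinearMap.map_smulₛₗ, smul_eq_mul, hσ,
        Algebra.smul_def, map_mul]
      ring
    have h2 : ∑ a, ∑ a', (c a * c a') • p.g (u a) (u a') = 0 := by
      refine b.ext_elem fun l => ?_
      simpa only [map_sum, map_smul, Finsupp.coe_finsetSum, Finset.sum_apply, Finsupp.smul_apply,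
        smul_eq_mul, map_zero, Finsupp.zero_apply] using hc l
    rw [Polar.Sing, h1, h2]
    exact p.Λ.zero_mem

theorem rl_perp {R : Set V} {v : V} :
    v ∈ p.perp (Submodule.span K R) ↔ ∀ r ∈ R, p.β v r = 0 := by
  refine ⟨fun h r hr => h r (Submodule.subset_span hr), fun h u hu => ?_⟩
  induction hu using Submodule.span_induction with
  | mem x hx => exact h x hx
  | zero => simp
  | add x y _ _ hx hy => simp [hx, hy]
  | smul a x _ hx => simp [hx]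

theorem rl_inf [FiniteDimensional K V] (W Y : Submodule K V) :
    finrank K W + finrank K Y ≤ finrank K ↥(W ⊓ Y) + finrank K V := by
  have h1 := Submodule.finrank_sup_add_finrank_inf_eq W Y
  have h2 := Submodule.finrank_le (W ⊔ Y)
  omega

theorem rl_dim (hB : StmtPB) [FiniteDimensional K V] (W : Submodule K V) (R : Finset V) :
    finrank K W ≤ finrank K ↥(W ⊓ p.perp (Submodule.span K (R : Set V))) + R.card := by
  have h1 := rl_inf W (p.perp (Submodule.span K (R : Set V)))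
  have h2 := ((hB K V p).2.1 (Submodule.span K (R : Set V))).1
  have h3 : finrank K (Submodule.span K (R : Set V)) ≤ R.card := finrank_span_finset_le_card R
  omega

theorem rl_card [Finite K] [FiniteDimensional K V] {Y : Submodule K V} {S : Set V} {m : ℕ}
    (hm : m ≤ finrank K Y) (φ : Y → V) (h1 : Function.Injective φ) (h2 : ∀ t, φ t ∈ S) :
    Nat.card K ^ m ≤ S.ncard := by
  have : Finite V := Module.finite_of_finite K
  have h3 := Nat.card_le_card_of_injective (fun t => (⟨φ t, h2 t⟩ : S))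
    fun t t' h => h1 (congrArg Subtype.val h)
  rw [Nat.card_coe_set_eq, Module.natCard_eq_pow_finrank (K := K)] at h3
  exact (Nat.pow_le_pow_right Nat.card_pos hm).trans h3

/-- singular vectors in a coset of a subspace with a singular vector outside the radical -/
theorem rl_coset (hB : StmtPB) [Finite K] [FiniteDimensional K V] {X : Submodule K V} {e f : V}
    (he : e ∈ X) (hf : f ∈ X) (hs : p.Sing e) (hef : p.β e f = 1) (x₀ : V) {m : ℕ}
    (hm : m + 2 ≤ finrank K X) : Nat.card K ^ m ≤ Set.ncard {x | x - x₀ ∈ X ∧ p.Sing x} := by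
  classical
  have h1 := rl_dim p hB X {e, f}
  have h2 : ({e, f} : Finset V).card ≤ 2 := Finset.card_le_two
  set y := x₀ + (p.ε * (1 - p.β x₀ e)) • f with hy
  have h3 : p.β y e = 1 := by
    rw [hy, p.β_add_left, p.β_smul_left, p.β_symm e f, hef, map_one]
    linear_combination (1 - p.β x₀ e) * p.εε
  refine rl_card (Y := X ⊓ p.perp (Submodule.span K (({e, f} : Finset V) : Set V))) (by omega)
    (fun t => y + t + p.σ (-p.g (y + t) (y + t)) • e) (fun t t' h => ?_) fun t => ⟨?_, ?_⟩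
  · have h4 := congrArg (fun v => p.β v f) h
    simp only [p.β_add_left, p.β_smul_left, hef, (rl_perp p).1 t.2.2 f (by simp),
      (rl_perp p).1 t'.2.2 f (by simp), mul_one, add_right_inj] at h4
    simp only [h4, add_left_inj, add_right_inj] at h
    exact Subtype.ext h
  · have h4 : y + t + p.σ (-p.g (y + t) (y + t)) • e - x₀ =
        (p.ε * (1 - p.β x₀ e)) • f + t + p.σ (-p.g (y + t) (y + t)) • e := by
      rw [hy]
      abel
    rw [h4]
    exact X.add_mem (X.add_mem (X.smul_mem _ hf) t.2.1) (X.smul_mem _ he)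
  · have h4 := p.Λ.add_mem (p.g_add (y + t) (p.σ (-p.g (y + t) (y + t)) • e))
      (hs.smul (p.σ (-p.g (y + t) (y + t))))
    rw [p.β_smul_right, p.β_add_left, h3, (rl_perp p).1 t.2.2 e (by simp), p.σσ] at h4
    unfold Polar.Sing
    convert h4 using 1
    ring

theorem rl_pair (hB : StmtPB) [Finite K] [FiniteDimensional K V] {U X : Submodule K V}
    (hU : p.Nd U) (hX : X ≤ U) (h : finrank K U + 3 ≤ 2 * finrank K X) :
    ∃ e ∈ X, ∃ f ∈ X, p.Sing e ∧ p.β e f = 1 := by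
  obtain ⟨-, b2, -, -, -, b6, -⟩ := hB K V p
  obtain ⟨C, hC⟩ := Submodule.exists_isCompl (X ⊓ p.perp X)
  have h1 := Submodule.finrank_sup_add_finrank_inf_eq U (p.perp X)
  have h2 : U ⊔ p.perp X = ⊤ := top_le_iff.1 ((b6 U hU).1.sup_eq_top.ge.trans
    (sup_le_sup_left (fun v hv u hu => hv u (hX hu)) U))
  have h3 := (b2 X).1
  have h4 : finrank K ↥(X ⊓ p.perp X) ≤ finrank K ↥(U ⊓ p.perp X) :=
    Submodule.finrank_mono (inf_le_inf_right _ hX)
  have h5 := Submodule.finrank_add_eq_of_isCompl hC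
  have h6 := rl_inf X C
  rw [h2, finrank_top] at h1
  obtain ⟨e, he, h0, hs⟩ := rl_iso p (X ⊓ C) (by omega)
  have h7 : e ∉ p.perp X := fun h => h0 (Submodule.disjoint_def.1 hC.disjoint e ⟨he.1, h⟩ he.2)
  rw [p.mem_perp] at h7
  push Not at h7
  obtain ⟨y, hy, h8⟩ := h7
  refine ⟨e, he.1, p.σ (p.β e y)⁻¹ • y, X.smul_mem _ hy, hs, ?_⟩
  rw [p.β_smul_right, p.σσ, inv_mul_cancel₀ h8]

theorem rl_main (hB : StmtPB) [Finite K] [FiniteDimensional K V] {U : Submodule K V} (hU : p.Nd U)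
    (s : Bool) {j : ℕ} {R : Finset V} (hR : R.card ≤ j) (hj : 2 * j + 5 ≤ p.rk U) {x₀ : V}
    (h0 : x₀ ∈ U ⊓ p.P s) : Nat.card K ^ (p.rk U - j - 2) ≤
      Set.ncard {x | x - x₀ ∈ U ⊓ p.P s ⊓ p.perp (Submodule.span K (R : Set V)) ∧ p.Sing x} := by
  have h1 := rl_dim p hB (U ⊓ p.P s) R
  have h2 := ((hB K V p).2.2.2.2.2.1 U hU).2.2.1 s
  rcases p.sorts with h | ⟨-, h⟩
  · have h3 : finrank K ↥(U ⊓ p.P s) = finrank K U := by rw [h s, inf_top_eq]
    obtain ⟨e, he, f, hf, hs, hef⟩ := rl_pair p hB hU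
      (X := U ⊓ p.P s ⊓ p.perp (Submodule.span K (R : Set V))) (inf_le_left.trans inf_le_left)
      (by omega)
    exact rl_coset p hB he hf hs hef x₀ (by omega)
  · refine rl_card (Y := U ⊓ p.P s ⊓ p.perp (Submodule.span K (R : Set V))) (by omega)
      (fun t => x₀ + t) (fun t t' h => Subtype.ext (add_left_cancel h)) fun t => ⟨?_, ?_⟩
    · rw [add_sub_cancel_left]
      exact t.2
    · exact (h s _ ((p.P s).add_mem h0.2 t.2.1.2)).1

theorem rl_one (hB : StmtPB) [Finite K] [FiniteDimensional K V] {U : Submodule K V} (hU : p.Nd U)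
    (s : Bool) {j : ℕ} {R T : Finset V} (hR : R.card ≤ j) (hj : 2 * j + 5 ≤ p.rk U)
    (hT : j + T.card + 3 ≤ p.rk U) {x₀ : V} (h0 : x₀ ∈ U ⊓ p.P s) :
    Nat.card K ^ (p.rk U - j - 3) ≤ Set.ncard
      {x | x ∈ U ⊓ p.P s ∧ p.Sing x ∧ (∀ r ∈ R, p.β x r = p.β x₀ r) ∧ x ∉ p.bad U s T} := by
  have : Finite V := Module.finite_of_finite K
  have h1 := rl_main p hB hU s hR hj h0
  have h2 := ((hB K V p).2.2.2.2.2.1 U hU).2.2.2.2.2.2.1 s T
  have h3 : Set.ncard (↑(p.bad U s T ⊓ (U ⊓ p.P s)) : Set V) ≤ Nat.card K ^ (p.rk U - j - 3) := by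
    rw [← Nat.card_coe_set_eq]
    exact (Module.natCard_eq_pow_finrank (K := K) (V := ↥(p.bad U s T ⊓ (U ⊓ p.P s)))).le.trans
      (Nat.pow_le_pow_right Nat.card_pos (by omega))
  have h4 : {x | x - x₀ ∈ U ⊓ p.P s ⊓ p.perp (Submodule.span K (R : Set V)) ∧ p.Sing x} ⊆
      {x | x ∈ U ⊓ p.P s ∧ p.Sing x ∧ (∀ r ∈ R, p.β x r = p.β x₀ r) ∧ x ∉ p.bad U s T} ∪
        ↑(p.bad U s T ⊓ (U ⊓ p.P s)) := by
    rintro x ⟨hx, hs⟩
    have h5 : x ∈ U ⊓ p.P s := by simpa using (U ⊓ p.P s).add_mem hx.1 h0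
    by_cases h6 : x ∈ p.bad U s T
    · exact Or.inr ⟨h6, h5⟩
    · refine Or.inl ⟨h5, hs, fun r hr => ?_, h6⟩
      rw [← sub_eq_zero, ← p.β_sub_left]
      exact (rl_perp p).1 hx.2 r hr
  have h5 := (Set.ncard_le_ncard h4).trans (Set.ncard_union_le _ _)
  have h6 : p.rk U - j - 2 = p.rk U - j - 3 + 1 := by omega
  have h7 : 2 ≤ Nat.card K := Finite.one_lt_card
  rw [h6, pow_succ] at h1
  have h8 := Nat.mul_le_mul_left (Nat.card K ^ (p.rk U - j - 3)) h7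
  omega

theorem rl_ex (hB : StmtPB) [Finite K] [FiniteDimensional K V] {U : Submodule K V} (hU : p.Nd U)
    (s : Bool) {j : ℕ} {R T : Finset V} (hR : R.card ≤ j) (hj : 2 * j + 5 ≤ p.rk U)
    (hT : j + T.card + 3 ≤ p.rk U) (c : V → K)
    (hc : ∀ a : V → K, ∑ r ∈ R, a r • r ∈ p.perp (U ⊓ p.P s) → ∑ r ∈ R, p.σ (a r) * c r = 0) :
    ∃ x ∈ U ⊓ p.P s, p.Sing x ∧ (∀ r ∈ R, p.β x r = c r) ∧ x ∉ p.bad U s T := by
  obtain ⟨x₀, h0, h1⟩ := (hB K V p).1 _ R c hc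
  obtain ⟨x, h2, h3, h4, h5⟩ := Set.nonempty_of_ncard_ne_zero
    ((Nat.pow_pos Nat.card_pos).trans_le (rl_one p hB hU s hR hj hT h0)).ne'
  exact ⟨x, h2, h3, fun r hr => (h4 r hr).trans (h1 r hr), h5⟩

theorem rl_two (hB : StmtPB) [Finite K] [FiniteDimensional K V] {U : Submodule K V} (hU : p.Nd U)
    (h : 7 ≤ p.rk U) :
    ∃ e ∈ U ⊓ p.P true, ∃ f ∈ U ⊓ p.P false, p.Sing e ∧ p.Sing f ∧ p.β e f = 1 := by
  obtain ⟨e, e1, e2, -, e3⟩ := rl_ex p hB hU true (j := 0) (R := ∅) (T := ∅) le_rfl (by omega)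
    (by rw [Finset.card_empty]; omega) 0 (by simp)
  have e4 : e ∉ p.perp (U ⊓ p.P false) := fun k => e3 (Submodule.mem_sup_right k)
  obtain ⟨f, f1, f2, f3, -⟩ := rl_ex p hB hU false (j := 1) (R := {e}) (T := ∅)
    (Finset.card_singleton e).le (by omega) (by rw [Finset.card_empty]; omega) (fun _ => p.ε)
    fun a ha => by
      rw [Finset.sum_singleton] at ha ⊢
      by_cases h0 : a e = 0
      · rw [h0, map_zero, zero_mul]
      · exact absurd ((Submodule.smul_mem_iff _ h0).1 ha) e4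
  refine ⟨e, e1, f, f1, e2, f2, ?_⟩
  rw [p.β_symm f e, f3 e (Finset.mem_singleton_self e), p.σε, p.εε]

theorem rl_three (hB : StmtPB) [Finite K] [FiniteDimensional K V] (j : ℕ) :
    ∀ U : Submodule K V, p.Nd U → 2 * j + 7 ≤ p.rk U → ∃ U' ≤ U, p.Nd U' ∧
      finrank K U' + 2 * (j + 1) = finrank K U ∧ ∀ s, ∃ v ∈ U ⊓ p.P s, v ≠ 0 ∧ v ∈ p.perp U' := by
  induction j with
  | zero =>
    intro U hU h
    obtain ⟨e, e1, f, f1, e2, f2, h1⟩ := rl_two p hB hU (by omega)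
    obtain ⟨a1, a2, a3, -⟩ := (hB K V p).2.2.2.2.2.2.2.2 U e f hU e1 f1 e2 f2 h1
    refine ⟨_, inf_le_left, a1, a2, fun s => ?_⟩
    rw [a3]
    cases s
    · refine ⟨f, f1, ?_, Submodule.mem_sup_right (Submodule.subset_span (by simp))⟩
      rintro rfl
      simp at h1
    · refine ⟨e, e1, ?_, Submodule.mem_sup_right (Submodule.subset_span (by simp))⟩
      rintro rfl
      simp at h1
  | succ j ih =>
    intro U hU h
    obtain ⟨e, e1, f, f1, e2, f2, h1⟩ := rl_two p hB hU (by omega)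
    obtain ⟨a1, a2, -, a4⟩ := (hB K V p).2.2.2.2.2.2.2.2 U e f hU e1 f1 e2 f2 h1
    obtain ⟨U', b1, b2, b3, b4⟩ := ih _ a1 (by omega)
    refine ⟨U', b1.trans inf_le_left, b2, by omega, fun s => ?_⟩
    obtain ⟨v, v1, v2⟩ := b4 s
    exact ⟨v, ⟨v1.1.1, v1.2⟩, v2⟩

theorem rl (hB : StmtPB) : StmtRL := by
  intro K V _ _ _ _ _ p U hU
  exact ⟨fun s j R T hR hj hT => ⟨fun _ h0 => rl_one p hB hU s hR hj hT h0,
    rl_ex p hB hU s hR hj hT⟩, rl_two p hB hU, fun j => rl_three p hB j U hU⟩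

end Pool.Agent.Work.MP_11a08a_al.Lin
end

-- merged part: Pool.Agent.Work.MP_11a08a_al.Lin.BigI1
section
/-!
Take an orthonormal basis (`stdOrthonormalBasis`), `D = finrank > 0`; `ρ x` preserves inner products (`LinearMap.norm_map_iff_inner_map_map` or `LinearIsometry.inner_map_map`).  `trace a = ∑ i, ⟪b i, a (b i)⟫` (`LinearMap.trace_eq_sum_inner`), so `‖trace (ρ x)‖ ≤ D` and `trace (ρ x⁻¹)` is the conjugate.
Put `F a = √(∑ i, ‖a (b i)‖ ^ 2)`, the norm of the vector `(a (b i))` in `PiLp 2 (fun _ => W)`; it is subadditive, `F (u a) = F a` for isometric `u`.  For isometric `a` and `‖c‖ = 1`: `F (a - c) ^ 2 = 2 D - 2 re (conj c * trace a) ≥ 2 D - 2 ‖trace a‖`, with equality for a suitable `c`.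
For the triangle inequality write `a a' - c c' = a (a' - c') + c' (a - c)`.  Last item: choose lifts `s y`; the map `y ↦ (⌊j * re (entry)⌋, ⌊j * im (entry)⌋)` takes values in functions from `Fin D × Fin D × Bool` to `Finset.Icc (-j) j`; two different `y, y'` have the same value, so `F (ρ (s y') - ρ (s y)) ^ 2 ≤ 2 D ^ 2 / j ^ 2`
(`‖v‖ ^ 2 = ∑ ‖⟪b i, v⟫‖ ^ 2`), and `g = y⁻¹ y'` has `2 D (1 - f g) ≤ F (ρ ((s y)⁻¹ s y') - 1) ^ 2`.
-/

set_option autoImplicit false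

open Finset Module Pool.Agent.Work.MP_11a08a_al.Sol
open scoped commutatorElement

namespace Pool.Agent.Work.MP_11a08a_al.Lin

section Aux

variable {H : Type} [NormedAddCommGroup H] [InnerProductSpace ℂ H]

theorem bigi1_sq {u w : H} {c : ℂ} {D : ℝ} (hc : ‖c‖ = 1) (hu : ‖u‖ ^ 2 = D) (hw : ‖w‖ ^ 2 = D) :
    ‖w - c • u‖ ^ 2 = 2 * D - 2 * (c * inner ℂ w u).re := by
  rw [norm_sub_sq (𝕜 := ℂ), norm_smul, hc, one_mul, hu, hw, inner_smul_right]
  simp only [RCLike.re_to_complex]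
  ring

theorem bigi1_low {u w : H} {c : ℂ} {D : ℝ} (hc : ‖c‖ = 1) (hu : ‖u‖ ^ 2 = D) (hw : ‖w‖ ^ 2 = D) :
    2 * D - 2 * ‖inner ℂ u w‖ ≤ ‖w - c • u‖ ^ 2 := by
  rw [bigi1_sq hc hu hw]
  have h := Complex.re_le_norm (c * inner ℂ w u)
  rw [norm_mul, hc, one_mul, norm_inner_symm] at h
  linarith

theorem bigi1_eq {u w : H} {D : ℝ} (hu : ‖u‖ ^ 2 = D) (hw : ‖w‖ ^ 2 = D) :
    ∃ c : ℂ, ‖c‖ = 1 ∧ ‖w - c • u‖ ^ 2 = 2 * D - 2 * ‖inner ℂ u w‖ := by
  obtain ⟨c, hc, h⟩ := RCLike.exists_norm_eq_mul_self (inner ℂ w u)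
  refine ⟨c, hc, ?_⟩
  rw [bigi1_sq hc hu hw, ← h, norm_inner_symm]
  rfl

theorem bigi1_tri {u v w : H} {D r s t : ℝ} (hD : 0 < D) (hu : ‖u‖ ^ 2 = D) (hv : ‖v‖ ^ 2 = D)
    (hw : ‖w‖ ^ 2 = D) (hr : r * D = ‖inner ℂ u w‖) (hs : s * D = ‖inner ℂ u v‖)
    (ht : t * D = ‖inner ℂ v w‖) : √(1 - r) ≤ √(1 - s) + √(1 - t) := by
  obtain ⟨c, hc, h1⟩ := bigi1_eq hu hv
  obtain ⟨c', hc', h2⟩ := bigi1_eq hv hw
  have h3 := bigi1_low (c := c' * c) (by rw [norm_mul, hc, hc', one_mul]) hu hw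
  have h4 : ‖w - (c' * c) • u‖ ≤ ‖v - c • u‖ + ‖w - c' • v‖ := by
    have e : w - (c' * c) • u = c' • (v - c • u) + (w - c' • v) := by
      rw [smul_sub, mul_smul]
      abel
    rw [e]
    refine (norm_add_le _ _).trans_eq ?_
    rw [norm_smul, hc', one_mul]
  have hD2 : (0 : ℝ) ≤ 2 * D := by linarith
  refine le_of_mul_le_mul_left ?_ (Real.sqrt_pos.2 (by linarith : 0 < 2 * D))
  rw [mul_add, ← Real.sqrt_mul hD2, ← Real.sqrt_mul hD2, ← Real.sqrt_mul hD2]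
  refine le_trans (Real.sqrt_le_iff.2 ⟨norm_nonneg _, by linarith⟩) (h4.trans (add_le_add
    (Real.le_sqrt_of_sq_le (by linarith)) (Real.le_sqrt_of_sq_le (by linarith))))

end Aux

theorem bigi1_pig {Q κ : Type} [Fintype κ] (r : Q → κ → ℝ) (hr : ∀ y k, |r y k| ≤ 1) (j : ℕ)
    (h : (2 * j + 1) ^ Fintype.card κ < Nat.card Q) :
    ∃ y y', y ≠ y' ∧ ∀ k, (r y' k - r y k) ^ 2 * (j : ℝ) ^ 2 ≤ 1 := by
  classical
  have hm : ∀ y k, ⌊(j : ℝ) * r y k⌋ ∈ Icc (-(j : ℤ)) j := fun y k => by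
    have h1 := abs_le.1 (hr y k)
    have h0 : (0 : ℝ) ≤ j := Nat.cast_nonneg j
    refine mem_Icc.2 ⟨Int.le_floor.2 ?_, Int.floor_le_iff.2 ?_⟩
    · push_cast
      nlinarith [h1.1]
    · push_cast
      nlinarith [h1.2]
  have hn : ¬ Function.Injective fun (y : Q) (k : κ) =>
      (⟨⌊(j : ℝ) * r y k⌋, hm y k⟩ : Icc (-(j : ℤ)) j) := fun hi => by
    have h1 := Nat.card_le_card_of_injective _ hi
    rw [Nat.card_fun, Nat.card_eq_fintype_card (α := κ), Nat.card_eq_fintype_card (α := Icc _ _),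
      Fintype.card_coe, Int.card_Icc, show ((j : ℤ) + 1 - -j).toNat = 2 * j + 1 by omega] at h1
    omega
  obtain ⟨y, y', h1, h2⟩ := Function.not_injective_iff.1 hn
  refine ⟨y, y', h2, fun k => ?_⟩
  have h3 := abs_lt.1 (Int.abs_sub_lt_one_of_floor_eq_floor
    (congrArg Subtype.val (congrFun h1 k)))
  nlinarith [h3.1, h3.2]

theorem bigi1_close {W ι : Type} [Fintype ι] [NormedAddCommGroup W] [InnerProductSpace ℂ W]
    (b : OrthonormalBasis ι ℂ W) (u u' : W) (t : ℝ)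
    (h1 : ∀ k, ((inner ℂ (b k) u').re - (inner ℂ (b k) u).re) ^ 2 * t ≤ 1)
    (h2 : ∀ k, ((inner ℂ (b k) u').im - (inner ℂ (b k) u).im) ^ 2 * t ≤ 1) :
    ‖u' - u‖ ^ 2 * t ≤ Fintype.card ι * 2 := by
  rw [← b.sum_sq_norm_inner_right, sum_mul, ← nsmul_eq_mul, ← card_univ]
  refine sum_le_card_nsmul _ _ _ fun k _ => ?_
  rw [Complex.sq_norm, Complex.normSq_apply, inner_sub_right, Complex.sub_re, Complex.sub_im]
  linarith [h1 k, h2 k]

theorem bigI1 : StmtBigI1 := by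
  intro Γ Q W _ _ _ _ _ _ π ρ f hs hρ hf
  obtain ⟨b⟩ : Nonempty (OrthonormalBasis (Fin (finrank ℂ W)) ℂ W) := ⟨stdOrthonormalBasis ℂ W⟩
  have hD : (0 : ℝ) < finrank ℂ W := by exact_mod_cast finrank_pos
  obtain ⟨v, hv⟩ : ∃ v : Γ → PiLp 2 fun _ : Fin (finrank ℂ W) => W, ∀ x i, v x i = ρ x (b i) :=
    ⟨fun x => WithLp.toLp 2 fun i => ρ x (b i), fun _ _ => rfl⟩
  have hn : ∀ x, ‖v x‖ ^ 2 = finrank ℂ W := fun x => by
    rw [PiLp.norm_sq_eq_of_L2]
    simp [hv, hρ]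
  have hi : ∀ x y, f (π y) * finrank ℂ W = ‖inner ℂ (v x) (v (x * y))‖ := fun x y => by
    rw [hf, LinearMap.trace_eq_sum_inner _ b, PiLp.inner_apply]
    simp only [hv, map_mul, Module.End.mul_apply,
      (LinearMap.norm_map_iff_inner_map_map (𝕜 := ℂ) (ρ x)).1 (hρ x)]
  have h01 : ∀ x, 0 ≤ f x ∧ f x ≤ 1 := fun x => by
    obtain ⟨x, rfl⟩ := hs x
    have h1 := hi 1 x
    have h2 := norm_inner_le_norm (𝕜 := ℂ) (v 1) (v (1 * x))
    refine ⟨nonneg_of_mul_nonneg_left (h1 ▸ norm_nonneg _) hD, le_of_mul_le_mul_right ?_ hD⟩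
    nlinarith [hn 1, hn (1 * x), sq_nonneg (‖v 1‖ - ‖v (1 * x)‖)]
  refine ⟨h01, ?_, fun x => ?_, fun x y => ?_, fun x y => ?_, fun j hj hQ => ?_⟩
  · have h1 := hf 1
    rw [map_one, map_one, LinearMap.trace_one, Complex.norm_natCast] at h1
    exact mul_right_cancel₀ hD.ne' (h1.trans (one_mul _).symm)
  · obtain ⟨x, rfl⟩ := hs x
    have h1 := hi 1 x
    have h2 := hi x x⁻¹
    rw [one_mul] at h1
    rw [mul_inv_cancel, norm_inner_symm, ← h1, map_inv] at h2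
    exact mul_right_cancel₀ hD.ne' h2
  · obtain ⟨x, rfl⟩ := hs x
    obtain ⟨y, rfl⟩ := hs y
    have h1 := hf (y * x * y⁻¹)
    rw [map_mul ρ, LinearMap.trace_mul_comm, ← map_mul ρ, inv_mul_cancel_left, ← hf, map_mul,
      map_mul, map_inv] at h1
    exact mul_right_cancel₀ hD.ne' h1
  · obtain ⟨x, rfl⟩ := hs x
    obtain ⟨y, rfl⟩ := hs y
    have h1 := hi 1 (x * y)
    have h2 := hi 1 x
    rw [one_mul] at h1 h2
    rw [map_mul] at h1
    exact bigi1_tri hD (hn 1) (hn x) (hn (x * y)) h1 h2 (hi x y)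
  · choose σ hσ using hs
    have hb : ∀ y i k, ‖inner ℂ (b k) (ρ (σ y) (b i))‖ ≤ 1 := fun y i k => by
      refine (norm_inner_le_norm _ _).trans_eq ?_
      rw [hρ, b.norm_eq_one, b.norm_eq_one, one_mul]
    obtain ⟨y, y', hy, h⟩ := bigi1_pig
      (fun y (k : (Fin (finrank ℂ W) × Fin (finrank ℂ W)) ⊕
          (Fin (finrank ℂ W) × Fin (finrank ℂ W))) =>
        Sum.elim (fun p => (inner ℂ (b p.2) (ρ (σ y) (b p.1))).re)
          (fun p => (inner ℂ (b p.2) (ρ (σ y) (b p.1))).im) k)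
      (by
        rintro y (p | p)
        · exact (Complex.abs_re_le_norm _).trans (hb y _ _)
        · exact (Complex.abs_im_le_norm _).trans (hb y _ _)) j
      (by
        rw [Fintype.card_sum, Fintype.card_prod, Fintype.card_fin, ← two_mul, ← sq]
        exact hQ)
    have h1 : ‖v (σ y') - v (σ y)‖ ^ 2 * (j : ℝ) ^ 2 ≤ finrank ℂ W * (finrank ℂ W * 2) := by
      rw [PiLp.norm_sq_eq_of_L2, sum_mul]
      refine (sum_le_card_nsmul _ _ ((finrank ℂ W : ℝ) * 2) fun i _ => ?_).trans_eq (by simp)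
      have h2 := bigi1_close b (ρ (σ y) (b i)) (ρ (σ y') (b i)) _
        (fun k => h (Sum.inl (i, k))) fun k => h (Sum.inr (i, k))
      rw [Fintype.card_fin] at h2
      rw [PiLp.sub_apply, hv, hv]
      exact h2
    have h2 := bigi1_low (c := 1) norm_one (hn (σ y)) (hn (σ y'))
    have h3 := hi (σ y) ((σ y)⁻¹ * σ y')
    rw [mul_inv_cancel_left, map_mul, map_inv, hσ, hσ] at h3
    rw [one_smul, ← h3] at h2
    refine ⟨y⁻¹ * y', fun e => hy (inv_mul_eq_one.1 e), ?_⟩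
    have h4 : (1 - f (y⁻¹ * y')) * (j : ℝ) ^ 2 ≤ finrank ℂ W := by
      refine le_of_mul_le_mul_left ?_ (by linarith : (0 : ℝ) < 2 * finrank ℂ W)
      have h5 := mul_le_mul_of_nonneg_right h2 (sq_nonneg (j : ℝ))
      linarith
    have h5 : (j : ℝ) ≤ (j : ℝ) ^ 2 := by exact_mod_cast Nat.le_self_pow (by norm_num) j
    have h6 := mul_le_mul_of_nonneg_left h5 (sub_nonneg.2 (h01 (y⁻¹ * y')).2)
    linarith

end Pool.Agent.Work.MP_11a08a_al.Lin
end

-- merged part: Pool.Agent.Work.MP_11a08a_al.Lin.BigI2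
section
/-!
Schur: an endomorphism commuting with all `ρ g` is a scalar (an eigenspace is invariant and nonzero, `Module.End.exists_eigenvalue`); the scalar is `trace / D`.  (1) `∑ g, ‖χ g‖ ^ 2 = card Γ`: for every `a : End ℂ W`, `∑ g, ρ g * a * ρ g⁻¹ = (card Γ * trace a / D) • 1`; apply this to the rank one maps `v ↦ ⟪b j, v⟫ • b i` of an orthonormal basis, take the entry `(i, j)` and sum:
`∑ g, χ g * χ g⁻¹ = ∑ i j, card Γ * δ i j / D`.  (Or use the character theory of Mathlib.)  `χ g⁻¹ = conj (χ g)`.  Every fibre of `π` has `card ker` elements, `card Γ = card Q * card ker`.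
(2) choose a section `s : Q → Γ` and a lift `g'` of `g`.  `s a * x * (s a)⁻¹` depends only on `a` (the kernel is central), so `∑ a : Q, ρ (s a * x * (s a)⁻¹)` commutes with `ρ Γ` and equals `(card Q * χ x / D) • 1`.  Define the lift `phi' k : Pw (Q × Q) k → Γ` by recursion, `π (phi' k x) = phi g k x`,
and `∑ x, ρ (phi' k x) = (card Q ^ 2 * χ g' * χ g'⁻¹ / D ^ 2) ^ k • 1` by induction (`Fintype.sum_prod_type`).  Take traces and norms.
-/

set_option autoImplicit false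

open Finset Module Pool.Agent.Work.MP_11a08a_al.Sol
open scoped commutatorElement

namespace Pool.Agent.Work.MP_11a08a_al.Lin

section

variable {Γ Q W : Type} [Group Γ] [Group Q] [NormedAddCommGroup W] [InnerProductSpace ℂ W]
  [FiniteDimensional ℂ W] [Nontrivial W] {π : Γ →* Q} {ρ : Representation ℂ Γ W}

theorem bigi2_schur (hirr : ∀ U : Submodule ℂ W, (∀ g, ∀ v ∈ U, ρ g v ∈ U) → U = ⊥ ∨ U = ⊤)
    (a : End ℂ W) (ha : ∀ g, ρ g * a = a * ρ g) : ∃ c : ℂ, a = c • (1 : End ℂ W) := by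
  obtain ⟨c, hc⟩ := Module.End.exists_eigenvalue a
  have h := (hirr (a.eigenspace c) fun g v hv => by
    rw [Module.End.mem_eigenspace_iff] at hv ⊢
    rw [← Module.End.mul_apply, ← ha, Module.End.mul_apply, hv, map_smul]).resolve_left hc
  refine ⟨c, LinearMap.ext fun v => ?_⟩
  have hv : v ∈ a.eigenspace c := h ▸ Submodule.mem_top
  exact Module.End.mem_eigenspace_iff.1 hv

theorem bigi2_D : (finrank ℂ W : ℂ) ≠ 0 := Nat.cast_ne_zero.2 finrank_pos.ne'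

theorem bigi2_avg [Fintype Q] (hker : π.ker ≤ Subgroup.center Γ)
    (hirr : ∀ U : Submodule ℂ W, (∀ g, ∀ v ∈ U, ρ g v ∈ U) → U = ⊥ ∨ U = ⊤)
    {s : Q → Γ} (hs : ∀ x, π (s x) = x) (a : End ℂ W) :
    ∑ x, ρ (s x) * a * ρ (s x)⁻¹ =
      ((Fintype.card Q : ℂ) * LinearMap.trace ℂ W a / finrank ℂ W) • (1 : End ℂ W) := by
  have h1 : ∀ y : Γ, ρ y * a * ρ y⁻¹ = ρ (s (π y)) * a * ρ (s (π y))⁻¹ := by
    intro y
    have hz : (s (π y))⁻¹ * y ∈ Subgroup.center Γ := hker (by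
      rw [MonoidHom.mem_ker, map_mul, map_inv, hs, inv_mul_cancel])
    obtain ⟨c, hc⟩ := bigi2_schur hirr (ρ ((s (π y))⁻¹ * y)) fun g => by
      rw [← map_mul, ← map_mul, Subgroup.mem_center_iff.1 hz g]
    have h2 : ρ ((s (π y))⁻¹ * y) * a = a * ρ ((s (π y))⁻¹ * y) := by
      rw [hc, smul_mul_assoc, mul_smul_comm, one_mul, mul_one]
    calc ρ y * a * ρ y⁻¹ = ρ (s (π y)) * (ρ ((s (π y))⁻¹ * y) * a) * ρ y⁻¹ := by
          rw [← mul_assoc, ← map_mul, mul_inv_cancel_left]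
      _ = ρ (s (π y)) * a * ρ (s (π y))⁻¹ := by
          rw [h2, ← mul_assoc, mul_assoc _ _ (ρ y⁻¹), ← map_mul, mul_inv_cancel_right]
  obtain ⟨c, hc⟩ := bigi2_schur hirr (∑ x, ρ (s x) * a * ρ (s x)⁻¹) fun g => by
    rw [Finset.mul_sum, Finset.sum_mul]
    refine Fintype.sum_equiv (Equiv.mulLeft (π g)) _ _ fun x => ?_
    have h2 := h1 (g * s x)
    rw [map_mul π, hs] at h2
    rw [Equiv.coe_mulLeft, ← h2, mul_assoc _ _ (ρ g), ← map_mul ρ _ g, mul_inv_rev,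
      inv_mul_cancel_right, map_mul, mul_assoc, mul_assoc, mul_assoc]
  have h3 := congrArg (LinearMap.trace ℂ W) hc
  have h4 : ∀ x, LinearMap.trace ℂ W (ρ (s x) * a * ρ (s x)⁻¹) = LinearMap.trace ℂ W a := by
    intro x
    rw [LinearMap.trace_mul_comm, ← mul_assoc, ← map_mul, inv_mul_cancel, map_one, one_mul]
  rw [map_sum, Finset.sum_congr rfl fun x _ => h4 x, map_smul, LinearMap.trace_one,
    Finset.sum_const, Finset.card_univ, nsmul_eq_mul, smul_eq_mul] at h3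
  rw [hc, h3, mul_div_cancel_right₀ _ bigi2_D]

omit [Nontrivial W] in
theorem bigi2_conj (hn : ∀ x v, ‖ρ x v‖ = ‖v‖) (g : Γ) :
    LinearMap.trace ℂ W (ρ g⁻¹) = starRingEnd ℂ (LinearMap.trace ℂ W (ρ g)) := by
  rw [LinearMap.trace_eq_sum_inner _ (stdOrthonormalBasis ℂ W),
    LinearMap.trace_eq_sum_inner _ (stdOrthonormalBasis ℂ W), map_sum]
  refine Finset.sum_congr rfl fun i _ => ?_
  rw [inner_conj_symm, ← (LinearMap.norm_map_iff_inner_map_map (𝕜 := ℂ) (ρ g)).1 (hn g),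
    ← Module.End.mul_apply (ρ g) (ρ g⁻¹), ← map_mul, mul_inv_cancel, map_one,
    Module.End.one_apply]

theorem bigi2_sq [Fintype Q] (hker : π.ker ≤ Subgroup.center Γ)
    (hirr : ∀ U : Submodule ℂ W, (∀ g, ∀ v ∈ U, ρ g v ∈ U) → U = ⊥ ∨ U = ⊤)
    {s : Q → Γ} (hs : ∀ x, π (s x) = x) :
    ∑ x, LinearMap.trace ℂ W (ρ (s x)) * LinearMap.trace ℂ W (ρ (s x)⁻¹) = Fintype.card Q := by
  obtain ⟨b⟩ : Nonempty (OrthonormalBasis (Fin (finrank ℂ W)) ℂ W) := ⟨stdOrthonormalBasis ℂ W⟩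
  have h1 : ∀ i j, ∑ x, inner ℂ (b i) (ρ (s x) (b i)) * inner ℂ (b j) (ρ (s x)⁻¹ (b j)) =
      if i = j then (Fintype.card Q : ℂ) / finrank ℂ W else 0 := by
    intro i j
    have h := bigi2_avg hker hirr hs ((innerₛₗ ℂ (b j)).smulRight (b i))
    have h2 := congrArg (fun u : End ℂ W => inner ℂ (b i) (u (b j))) h
    simp only [LinearMap.sum_apply, inner_sum, Module.End.mul_apply, LinearMap.smulRight_apply,
      innerₛₗ_apply_apply, map_smul, inner_smul_right, LinearMap.smul_apply, Module.End.one_apply,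
      LinearMap.trace_smulRight, b.inner_eq_ite] at h2
    rw [Finset.sum_congr rfl fun x _ => mul_comm _ _, h2]
    by_cases hij : i = j
    · simp [hij]
    · simp [hij]
  have h2 : ∀ x, LinearMap.trace ℂ W (ρ (s x)) * LinearMap.trace ℂ W (ρ (s x)⁻¹) =
      ∑ i, ∑ j, inner ℂ (b i) (ρ (s x) (b i)) * inner ℂ (b j) (ρ (s x)⁻¹ (b j)) := by
    intro x
    rw [LinearMap.trace_eq_sum_inner _ b, LinearMap.trace_eq_sum_inner _ b, Finset.sum_mul_sum]
  rw [Finset.sum_congr rfl fun x _ => h2 x, Finset.sum_comm,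
    Finset.sum_congr rfl fun i _ => Finset.sum_comm]
  simp only [h1, Finset.sum_ite_eq, Finset.mem_univ, if_true, Finset.sum_const, Finset.card_univ,
    Fintype.card_fin, nsmul_eq_mul]
  rw [mul_div_cancel₀ _ bigi2_D]

theorem bigi2_lift [Fintype Q] (hker : π.ker ≤ Subgroup.center Γ)
    (hirr : ∀ U : Submodule ℂ W, (∀ g, ∀ v ∈ U, ρ g v ∈ U) → U = ⊥ ∨ U = ⊤)
    {s : Q → Γ} (hs : ∀ x, π (s x) = x) (g : Q) (k : ℕ) :
    ∃ L : Pw (Q × Q) k → Γ, (∀ x, π (L x) = phi g k x) ∧ ∑ᶠ x, ρ (L x) =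
      ((Fintype.card Q : ℂ) * LinearMap.trace ℂ W (ρ (s g)) / finrank ℂ W *
        ((Fintype.card Q : ℂ) * LinearMap.trace ℂ W (ρ (s g)⁻¹) / finrank ℂ W)) ^ k •
          (1 : End ℂ W) := by
  induction k with
  | zero =>
    refine ⟨fun _ => 1, fun _ => map_one π, ?_⟩
    show ∑ᶠ _ : Unit, ρ 1 = _
    rw [finsum_unique, map_one, pow_zero, one_smul]
  | succ k ih =>
    obtain ⟨L, h1, h2⟩ := ih
    have := Fintype.ofFinite (Pw (Q × Q) k)
    refine ⟨fun x : (Q × Q) × Pw (Q × Q) k =>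
      s x.1.1 * s g * (s x.1.1)⁻¹ * (s x.1.2 * (s g)⁻¹ * (s x.1.2)⁻¹) * L x.2, fun x => ?_, ?_⟩
    · simp only [map_mul, map_inv, hs, h1]
      rfl
    · show ∑ᶠ x : (Q × Q) × Pw (Q × Q) k,
        ρ (s x.1.1 * s g * (s x.1.1)⁻¹ * (s x.1.2 * (s g)⁻¹ * (s x.1.2)⁻¹) * L x.2) = _
      rw [finsum_eq_sum_of_fintype] at h2 ⊢
      simp only [Fintype.sum_prod_type, map_mul]
      simp only [← Finset.mul_sum, ← Finset.sum_mul]
      rw [h2, bigi2_avg hker hirr hs, bigi2_avg hker hirr hs, smul_mul_smul_comm,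
        smul_mul_smul_comm, one_mul, one_mul, pow_succ']

end

theorem bigI2 : StmtBigI2 := by
  intro Γ Q W _ _ _ _ _ _ _ π ρ f hπ hker hn hirr hf
  have : Finite Q := Finite.of_surjective π hπ
  have := Fintype.ofFinite Q
  choose s hs using hπ
  have hf' : ∀ x, f x * finrank ℂ W = ‖LinearMap.trace ℂ W (ρ (s x))‖ := fun x => by
    rw [← hf, hs]
  have hD : (0 : ℝ) < finrank ℂ W := Nat.cast_pos.2 finrank_pos
  rw [Nat.card_eq_fintype_card]
  refine ⟨le_of_eq ?_, fun g k => ?_⟩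
  · have h := bigi2_sq hker hirr hs
    simp only [bigi2_conj hn, Complex.mul_conj', ← hf'] at h
    rw [finsum_eq_sum_of_fintype, Finset.mul_sum]
    have h2 : ∑ x, (f x * finrank ℂ W) ^ 2 = Fintype.card Q := by exact_mod_cast h
    rw [← h2]
    exact Finset.sum_congr rfl fun x _ => by ring
  · obtain ⟨L, h1, h2⟩ := bigi2_lift hker hirr hs g k
    have := Fintype.ofFinite (Pw (Q × Q) k)
    rw [finsum_eq_sum_of_fintype] at h2 ⊢
    have h3 := congrArg (fun u => ‖LinearMap.trace ℂ W u‖) h2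
    simp only [map_sum, map_smul, LinearMap.trace_one, smul_eq_mul, norm_mul, norm_pow, norm_div,
      Complex.norm_natCast, bigi2_conj hn, RCLike.norm_conj, ← hf'] at h3
    have h4 := norm_sum_le Finset.univ fun x => LinearMap.trace ℂ W (ρ (L x))
    simp only [h3, ← hf, h1, ← Finset.sum_mul] at h4
    refine le_trans (le_of_eq ?_) (le_of_mul_le_mul_right h4 hD)
    rw [pow_mul, pow_mul, ← mul_pow]
    congr 1
    field_simp

end Pool.Agent.Work.MP_11a08a_al.Lin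
end

-- merged part: Pool.Agent.Work.MP_11a08a_al.Lin.Ang
section
/-!
`J = B ⊔ B'`, `ρ = (Units.coeHom _).comp J.subtype`, `X = (Fx J)ᗮ` is invariant.  A nonzero invariant `U ≤ X` has dimension at least `D`: else `U ≤ Fx N`, the elements of `B` that fix `U` pointwise form a subgroup containing `N` and normal in `B`, so `B` and likewise `B'` fix `U`, `U ≤ Fx J ⊓ X = ⊥`.  So `hS` applies to `u'`.
If `n ≤ 4` use Cauchy-Schwarz.  For `x = (a i)⁻¹ * a j`, `i ≠ j`, and `y ∈ J ∩ dc (B' ⊔ Zs) x` write `y = c • (b x b')` with `b, b' ∈ B'`; `‖c‖ = 1` if `u' ≠ 0`, so `‖⟪y u', u'⟫‖ = ‖⟪x u', u'⟫‖`.  Hence `D * ncard * ‖⟪x u', u'⟫‖ ^ 2 ≤ card J * ‖u'‖ ^ 4 ≤ E * ncard * ‖u'‖ ^ 4` with `E, ncard > 0`, so `n * ‖⟪x u', u'⟫‖ ^ 2 ≤ ‖u'‖ ^ 4`.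
`v = ∑ i, a i u'` has `⟪u, v⟫ = n ⟪u, u'⟫` (`a i u = u`) and `‖v‖ ^ 2 ≤ n ‖u'‖ ^ 2 + n ^ 2 ‖u'‖ ^ 2 / √n ≤ 2 n √n ‖u'‖ ^ 2`; so `√n ‖⟪u, u'⟫‖ ^ 2 ≤ 2 ‖u‖ ^ 2 ‖u'‖ ^ 2`.
-/

set_option autoImplicit false

open Finset Module Pool.Agent.Work.MP_11a08a_al.Sol
open scoped commutatorElement

namespace Pool.Agent.Work.MP_11a08a_al.Lin

section

variable {W : Type} [AddCommGroup W] [Module ℂ W]

/-- The elements that fix `U` pointwise. -/
def ang_St (U : Submodule ℂ W) : Subgroup (End ℂ W)ˣ where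
  carrier := {y | ∀ w ∈ U, (y : End ℂ W) w = w}
  one_mem' _ _ := rfl
  mul_mem' ha hb w hw := by rw [Units.val_mul, End.mul_apply, hb w hw, ha w hw]
  inv_mem' {y} hy w hw := by
    conv_lhs => rw [← hy w hw, ← End.mul_apply, Units.inv_mul, End.one_apply]

theorem ang_fix {N B : Subgroup (End ℂ W)ˣ} (h : Ncl N B) {U : Submodule ℂ W}
    (hU : ∀ y ∈ B, ∀ w ∈ U, (y : End ℂ W) w ∈ U) (hN : U ≤ Fx N) : B ≤ ang_St U := by
  refine (h.2 (B ⊓ ang_St U) (le_inf h.1 fun y hy w hw => hN hw y hy) inf_le_left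
    fun b hb x hx => ⟨B.mul_mem (B.mul_mem hb hx.1) (B.inv_mem hb), fun w hw => ?_⟩).ge.trans
    inf_le_right
  rw [Units.val_mul, Units.val_mul, End.mul_apply, End.mul_apply, hx.2 _ (hU _ (inv_mem hb) w hw),
    ← End.mul_apply, Units.mul_inv, End.one_apply]

/-- Scalar multiples of elements of `B`. -/
def ang_Sc (B : Subgroup (End ℂ W)ˣ) : Subgroup (End ℂ W)ˣ where
  carrier := {y | ∃ c : ℂ, c ≠ 0 ∧ ∃ b ∈ B, (y : End ℂ W) = c • (b : End ℂ W)}
  one_mem' := ⟨1, one_ne_zero, 1, one_mem _, (one_smul _ _).symm⟩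
  mul_mem' := by
    rintro x y ⟨c, hc, b, hb, h⟩ ⟨c', hc', b', hb', h'⟩
    exact ⟨c * c', mul_ne_zero hc hc', b * b', mul_mem hb hb', by
      rw [Units.val_mul, Units.val_mul, h, h', smul_mul_smul_comm]⟩
  inv_mem' := by
    rintro x ⟨c, hc, b, hb, h⟩
    refine ⟨c⁻¹, inv_ne_zero hc, b⁻¹, inv_mem hb, Units.inv_eq_of_mul_eq_one_right ?_⟩
    rw [h, smul_mul_smul_comm, mul_inv_cancel₀ hc, Units.mul_inv, one_smul]

theorem ang_sc (B : Subgroup (End ℂ W)ˣ) : B ⊔ Zs ℂ W ≤ ang_Sc B :=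
  sup_le (fun b hb => ⟨1, one_ne_zero, b, hb, (one_smul _ _).symm⟩)
    fun _ ⟨c, hc, h⟩ => ⟨c, hc, 1, one_mem _, h⟩

end

theorem ang_sum {W : Type} [NormedAddCommGroup W] [InnerProductSpace ℂ W] {n : ℕ} {u u' : W}
    (v : Fin n → W) (h1 : ∀ i, inner ℂ u (v i) = inner ℂ u u') (h2 : ∀ i, ‖v i‖ = ‖u'‖)
    (h3 : ∀ i j, i ≠ j → n * ‖inner ℂ (v i) (v j)‖ ^ 2 ≤ ‖u'‖ ^ 4) :
    n * ‖inner ℂ u u'‖ ^ 4 ≤ 4 * ‖u‖ ^ 4 * ‖u'‖ ^ 4 := by
  rcases Nat.eq_zero_or_pos n with rfl | hn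
  · rw [Nat.cast_zero, zero_mul]
    positivity
  have n1 : (1 : ℝ) ≤ n := by exact_mod_cast hn
  obtain ⟨s, s0, hs⟩ : ∃ s : ℝ, 1 ≤ s ∧ s ^ 2 = n :=
    ⟨√n, Real.one_le_sqrt.2 n1, Real.sq_sqrt (by positivity)⟩
  have s1 : s ≤ n := by nlinarith
  have a1 : ∀ i j, s * ‖inner ℂ (v i) (v j)‖ ≤
      (if i = j then n * ‖u'‖ ^ 2 else 0) + ‖u'‖ ^ 2 := fun i j => by
    split_ifs with h
    · have k := norm_inner_le_norm (𝕜 := ℂ) (v i) (v j)
      rw [h2, h2, ← sq] at k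
      exact (mul_le_mul s1 k (norm_nonneg _) (by positivity)).trans
        (le_add_of_nonneg_right (by positivity))
    · rw [zero_add]
      refine le_of_sq_le_sq ?_ (by positivity)
      rw [mul_pow, hs, ← pow_mul]
      exact h3 i j h
  have a2 : s * ‖∑ i, v i‖ ^ 2 ≤ 2 * n ^ 2 * ‖u'‖ ^ 2 := by
    have k : ‖∑ i, v i‖ ^ 2 ≤ ∑ i, ∑ j, ‖inner ℂ (v i) (v j)‖ := by
      rw [← inner_self_eq_norm_sq (𝕜 := ℂ), inner_self_re_eq_norm, sum_inner]
      refine (norm_sum_le _ _).trans (sum_le_sum fun i _ => ?_)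
      rw [inner_sum]
      exact norm_sum_le _ _
    refine (mul_le_mul_of_nonneg_left k (by positivity)).trans ?_
    simp only [mul_sum]
    refine (sum_le_sum fun i _ => sum_le_sum fun j _ => a1 i j).trans_eq ?_
    simp only [sum_add_distrib, sum_ite_eq, mem_univ, if_true, sum_const, card_univ,
      Fintype.card_fin, nsmul_eq_mul]
    ring
  have a3 : n * ‖inner ℂ u u'‖ ≤ ‖u‖ * ‖∑ i, v i‖ := by
    refine le_trans (le_of_eq ?_) (norm_inner_le_norm (𝕜 := ℂ) u (∑ i, v i))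
    rw [inner_sum, sum_congr rfl fun i _ => h1 i, sum_const, card_univ, Fintype.card_fin,
      nsmul_eq_mul, norm_mul, Complex.norm_natCast]
  have a4 : s * ‖inner ℂ u u'‖ ^ 2 ≤ 2 * ‖u‖ ^ 2 * ‖u'‖ ^ 2 := by
    refine le_of_mul_le_mul_left (a := (n : ℝ) ^ 2) ?_ (by positivity)
    have b1 := mul_le_mul_of_nonneg_left (pow_le_pow_left₀ (by positivity) a3 2)
      (show 0 ≤ s by positivity)
    have b2 := mul_le_mul_of_nonneg_left a2 (sq_nonneg ‖u‖)
    linarith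
  have a5 := pow_le_pow_left₀ (by positivity) a4 2
  rw [mul_pow, hs] at a5
  linarith

theorem ang (hS : StmtSchur) : StmtAng := by
  classical
  intro W _ _ _ n E D N B B' hfin hiso hD hB hB' hU ⟨a, ha, hG⟩ u hu u' hu' hX
  have := Fintype.ofFinite ↥(B ⊔ B')
  have hin : ∀ y ∈ B ⊔ B', ∀ v w : W, inner ℂ ((y : End ℂ W) v) ((y : End ℂ W) w) = inner ℂ v w :=
    fun y hy => (LinearMap.norm_map_iff_inner_map_map _).1 (hiso y hy)
  have aJ : ∀ i, a i ∈ B ⊔ B' := fun i => Subgroup.mem_sup_left (ha i)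
  have key := hS ↥(B ⊔ B') W ((Units.coeHom _).comp (B ⊔ B').subtype) (Fx (B ⊔ B'))ᗮ D
    (fun x => hiso x.1 x.2)
    (fun g v hv => (Submodule.mem_orthogonal _ _).2 fun w hw => by
      have h1 := hin g.1 g.2 w v
      rw [hw g.1 g.2] at h1
      exact h1.trans ((Submodule.mem_orthogonal _ _).1 hv w hw))
    (fun U h1 h2 h3 => by
      by_contra h4
      have h5 := hU U (fun y hy => h3 ⟨y, Subgroup.mem_sup_left (hB.1 hy)⟩) (not_le.1 h4)
      have h6 := ang_fix hB (fun y hy => h3 ⟨y, Subgroup.mem_sup_left hy⟩) h5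
      have h7 := ang_fix hB' (fun y hy => h3 ⟨y, Subgroup.mem_sup_right hy⟩) h5
      refine h2 (eq_bot_iff.2 (((Fx (B ⊔ B')).inf_orthogonal_eq_bot).le.trans' (le_inf ?_ h1)))
      exact fun w hw y hy => sup_le h6 h7 hy w hw) u' hX
  refine ang_sum (fun i => (a i : End ℂ W) u') (fun i => ?_) (fun i => hiso _ (aJ i) _)
    fun i j hij => ?_
  · rw [← hin _ (aJ i) u u', hu _ (ha i)]
  by_cases h0 : u' = 0
  · simp [h0]
  have xJ : (a i)⁻¹ * a j ∈ B ⊔ B' := mul_mem (inv_mem (aJ i)) (aJ j)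
  have e1 : ‖inner ℂ ((a i : End ℂ W) u') ((a j : End ℂ W) u')‖ =
      ‖inner ℂ ((((a i)⁻¹ * a j : (End ℂ W)ˣ) : End ℂ W) u') u'‖ := by
    rw [← hin _ (aJ i) _ u', norm_inner_symm, ← End.mul_apply, ← Units.val_mul,
      mul_inv_cancel_left]
  have h1 := hG i j hij
  generalize (a i)⁻¹ * a j = x at xJ e1 h1
  let T : Finset ↥(B ⊔ B') := univ.filter fun g => g.1 ∈ dc (B' ⊔ Zs ℂ W) x
  have e2 : Set.ncard {y | y ∈ B ⊔ B' ∧ y ∈ dc (B' ⊔ Zs ℂ W) x} = T.card := by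
    rw [← Set.ncard_coe_finset, ← Set.ncard_image_of_injective _ Subtype.val_injective]
    congr 1
    ext y
    simp [T, and_comm]
  have e3 : ∀ g ∈ T, ‖inner ℂ ((g.1 : End ℂ W) u') u'‖ = ‖inner ℂ ((x : End ℂ W) u') u'‖ := by
    intro g hg
    obtain ⟨b, hb, b', hb', e⟩ := (mem_filter.1 hg).2
    obtain ⟨c, -, y, hy, k⟩ := ang_sc B' hb
    obtain ⟨c', -, y', hy', k'⟩ := ang_sc B' hb'
    have k1 : (g.1 : End ℂ W) u' = (c * c') • (y : End ℂ W) ((x : End ℂ W) u') := by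
      rw [e, Units.val_mul, Units.val_mul, End.mul_apply, End.mul_apply, k, k',
        LinearMap.smul_apply, LinearMap.smul_apply, hu' y' hy', map_smul, map_smul, smul_smul]
    have k2 := hiso g.1 g.2 u'
    rw [k1, norm_smul, hiso y (Subgroup.mem_sup_right hy), hiso x xJ,
      mul_eq_right₀ (norm_ne_zero_iff.2 h0)] at k2
    have k3 := hin y (Subgroup.mem_sup_right hy) ((x : End ℂ W) u') u'
    rw [hu' y hy] at k3
    rw [k1, inner_smul_left, norm_mul, RCLike.norm_conj, k2, one_mul, k3]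
  have e4 : (T.card : ℝ) * ‖inner ℂ ((x : End ℂ W) u') u'‖ ^ 2 ≤
      ∑ g : ↥(B ⊔ B'), ‖inner ℂ ((g.1 : End ℂ W) u') u'‖ ^ 2 := by
    rw [← nsmul_eq_mul, ← sum_const, ← sum_congr rfl fun g hg => congrArg (· ^ 2) (e3 g hg)]
    exact sum_le_sum_of_subset_of_nonneg (subset_univ _) fun _ _ _ => sq_nonneg _
  rw [e2, Nat.card_eq_fintype_card] at h1
  have p0 : (0 : ℝ) < E * T.card := by exact_mod_cast Fintype.card_pos.trans_le h1
  have p1 : (Fintype.card ↥(B ⊔ B') : ℝ) ≤ E * T.card := by exact_mod_cast h1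
  have p2 : (n : ℝ) * E ≤ D := by exact_mod_cast hD
  rw [e1]
  refine le_of_mul_le_mul_left ?_ p0
  calc _ = (n * E) * (T.card * ‖inner ℂ ((x : End ℂ W) u') u'‖ ^ 2) := by ring
    _ ≤ _ := mul_le_mul p2 e4 (mul_nonneg (Nat.cast_nonneg _) (sq_nonneg _)) (Nat.cast_nonneg _)
    _ ≤ _ := key
    _ ≤ _ := mul_le_mul_of_nonneg_right p1 (by positivity)

end Pool.Agent.Work.MP_11a08a_al.Lin
end

-- merged part: Pool.Agent.Work.MP_11a08a_al.Lin.Cor
section
/-!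
`cor`: (a) `S₁ = R.map fst ≤ S`; choose for `x ∈ S₁` an `x'` with `(x, x') ∈ R`; the coset of `x'` modulo `Z'` depends only on the coset of `x` modulo `Z`, and the induced map `S₁ ⧸ Z.subgroupOf S₁ → S' ⧸ Z'.subgroupOf S'` is onto (`Nat.card_le_card_of_surjective`; `relIndex_le_of_le_right`).
(b) for `Z' ≤ B' ≤ S'`, `π'`, let `R' = R ⊓ comap snd B'`, `B = R'.map fst`; `fst : R' → B` is onto, its kernel is killed by `π' ∘ snd`, so `π = liftOfSurjective`.  `ind π' S' ⊆ ind π S`, and `Known` is monotone in the set of automorphisms.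
`secI`: `R = {(g, u) | ∃ s : stab ρ W, s.1 = g ∧ (resU ρ W s)⁻¹ * u ∈ Zs}`, `Z = ⊥`, `S = ⊤`, item 1 of `hS`.
`nextL`: copy the proof of `Sol.next`; call `next_grp` with `d = Zs.relIndex S` (a simple section above `Z` has order at most `Z.relIndex S`: `card (B ⧸ A) = A.index ≤ (Z.subgroupOf B).index`), and get `SecK` from `hC` with `R = {(s, x) | s ∈ S, x centralises M, s * x⁻¹ ∈ next_U M}`.
-/

set_option autoImplicit false

open Finset Module Pool.Agent.Work.MP_11a08a_al.Sol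
open scoped commutatorElement

namespace Pool.Agent.Work.MP_11a08a_al.Lin

theorem cor_mono {m : ℕ} {Q : Type} [Group Q] {𝒜 𝒜' : Set (MulAut Q)} (h : 𝒜' ⊆ 𝒜)
    (k : Known m Q 𝒜) : Known m Q 𝒜' := by
  rcases k with k | ⟨n, π, k⟩ | ⟨K, V, a1, a2, a3, a4, a5, p, π, b1, b2, k⟩
  · exact Or.inl k
  · exact Or.inr (Or.inl ⟨n, π, h.trans k⟩)
  · exact Or.inr (Or.inr ⟨K, V, a1, a2, a3, a4, a5, p, π, b1, b2, h.trans k⟩)

theorem cor_uq {G G' : Type} [Group G] [Group G'] {Z' : Subgroup G'} {R : Subgroup (G × G')}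
    (h1 : ∀ x', (1, x') ∈ R → x' ∈ Z') {x y : G} {x' y' : G'} (hx : (x, x') ∈ R)
    (hy : (y, y') ∈ R) (h : (x⁻¹ * y, 1) ∈ R) : x'⁻¹ * y' ∈ Z' := by
  refine h1 _ ?_
  have := R.mul_mem (R.inv_mem h) (R.mul_mem (R.inv_mem hx) hy)
  simpa [mul_assoc] using this

theorem cor_idx {G G' : Type} [Group G] [Group G'] {Z S : Subgroup G} {Z' S' : Subgroup G'}
    {R : Subgroup (G × G')} (hR : R ≤ S.prod S') (hs : ∀ x' ∈ S', ∃ x, (x, x') ∈ R)
    (h1 : ∀ x', (1, x') ∈ R → x' ∈ Z') (hZ : ∀ z ∈ Z, (z, 1) ∈ R) (hfin : Z.relIndex S ≠ 0) :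
    Z'.relIndex S' ≠ 0 ∧ Z'.relIndex S' ≤ Z.relIndex S := by
  choose c hc using hs
  let f : S' ⧸ Z'.subgroupOf S' → S ⧸ Z.subgroupOf S := fun q =>
    ((⟨c q.out.1 q.out.2, (hR (hc _ q.out.2)).1⟩ : S) : S ⧸ Z.subgroupOf S)
  have hf : Function.Injective f := fun q q' e => by
    have h2 := QuotientGroup.eq.1 e
    have h3 := cor_uq h1 (hc _ q.out.2) (hc _ q'.out.2) (hZ _ h2)
    rw [← q.out_eq', ← q'.out_eq']
    exact QuotientGroup.eq.2 h3
  have : Finite (S ⧸ Z.subgroupOf S) := Nat.finite_of_card_ne_zero hfin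
  have : Finite (S' ⧸ Z'.subgroupOf S') := Finite.of_injective f hf
  exact ⟨Nat.card_pos.ne', Nat.card_le_card_of_injective f hf⟩

theorem cor_sec {G G' : Type} [Group G] [Group G'] {Z S : Subgroup G} {Z' S' : Subgroup G'}
    {R : Subgroup (G × G')} (hR : R ≤ S.prod S') (hs : ∀ x' ∈ S', ∃ x, (x, x') ∈ R)
    (h1 : ∀ x', (1, x') ∈ R → x' ∈ Z') (hZ : ∀ z ∈ Z, (z, 1) ∈ R) {m : ℕ} (h : SecK m Z S) :
    SecK m Z' S' := by
  intro B' hZB hBS Q _ π' hπ' hk hQ hna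
  let B : Subgroup G := (R ⊓ B'.comap (MonoidHom.snd G G')).map (MonoidHom.fst G G')
  have hB : ∀ b, b ∈ B ↔ ∃ x' : B', (b, x'.1) ∈ R := fun b =>
    ⟨fun ⟨p, hp, e⟩ => ⟨⟨p.2, hp.2⟩, e ▸ hp.1⟩, fun ⟨x', hx⟩ => ⟨(b, x'.1), ⟨hx, x'.2⟩, rfl⟩⟩
  have uq : ∀ (b : G) (x' y' : B'), (b, x'.1) ∈ R → (b, y'.1) ∈ R → π' x' = π' y' := by
    intro b x' y' hx hy
    have h2 := hk (x'⁻¹ * y') (cor_uq h1 hx hy (by rw [inv_mul_cancel]; exact R.one_mem))
    rwa [map_mul, map_inv, inv_mul_eq_one] at h2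
  choose c hc using fun b : B => (hB b.1).1 b.2
  let π : B →* Q := MonoidHom.mk' (fun b => π' (c b)) fun a b => by
    rw [← map_mul]
    exact uq _ _ _ (hc (a * b)) (R.mul_mem (hc a) (hc b))
  have hπ : ∀ (b : B) (x' : B'), (b.1, x'.1) ∈ R → π b = π' x' := fun b x' hx =>
    uq _ _ _ (hc b) hx
  refine cor_mono ?_ (h B (fun z hz => (hB z).2 ⟨1, hZ z hz⟩)
    (fun b hb => ?_) Q π (fun q => ?_) (fun b hb => ?_) hQ hna)
  · rintro α ⟨s', hs', hn, hα⟩
    obtain ⟨s, hss⟩ := hs s' hs'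
    have cj : ∀ (b : G) (x' : G'), (b, x') ∈ R → (s * b * s⁻¹, s' * x' * s'⁻¹) ∈ R :=
      fun b x' hx => R.mul_mem (R.mul_mem hss hx) (R.inv_mem hss)
    refine ⟨s, (hR hss).1, Subgroup.mem_normalizer_iff.2 fun b => ⟨fun hb => ?_, fun hb => ?_⟩,
      fun x y e => ?_⟩
    · obtain ⟨x', hx⟩ := (hB b).1 hb
      exact (hB _).2 ⟨⟨_, (Subgroup.mem_normalizer_iff.1 hn _).1 x'.2⟩, cj _ _ hx⟩
    · obtain ⟨x', hx⟩ := (hB _).1 hb
      refine (hB _).2 ⟨⟨_, (Subgroup.mem_normalizer_iff''.1 hn _).1 x'.2⟩, ?_⟩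
      have := R.mul_mem (R.mul_mem (R.inv_mem hss) hx) hss
      simpa [mul_assoc] using this
    · have h2 := cj _ _ (hc x)
      rw [← e] at h2
      rw [hπ x _ (hc x), hπ y ⟨_, (Subgroup.mem_normalizer_iff.1 hn _).1 (c x).2⟩ h2]
      exact hα _ _ rfl
  · obtain ⟨x', hx⟩ := (hB b).1 hb
    exact (hR hx).1
  · obtain ⟨x', rfl⟩ := hπ' q
    obtain ⟨x, hx⟩ := hs x'.1 (hBS x'.2)
    exact ⟨⟨x, (hB x).2 ⟨x', hx⟩⟩, hπ _ _ hx⟩
  · rw [hπ b 1 (hZ _ hb), map_one]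

/-- The graph of a homomorphism modulo a central subgroup. -/
def cor_graph {G G' : Type} [Group G] [Group G'] {T : Subgroup G} (f : T →* G')
    {Z : Subgroup G'} (hZ : Z ≤ Subgroup.center G') : Subgroup (G × G') where
  carrier := {p | ∃ (s : T) (z : G'), s.1 = p.1 ∧ z ∈ Z ∧ p.2 = f s * z}
  one_mem' := ⟨1, 1, rfl, Z.one_mem, by simp⟩
  mul_mem' := by
    rintro a b ⟨s, z, e, hz, h⟩ ⟨s', z', e', hz', h'⟩
    refine ⟨s * s', z * z', by simp [e, e'], Z.mul_mem hz hz', ?_⟩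
    rw [Prod.snd_mul, h, h', map_mul, mul_assoc, ← mul_assoc z,
      ← Subgroup.mem_center_iff.1 (hZ hz) (f s'), mul_assoc, mul_assoc]
  inv_mem' := by
    rintro a ⟨s, z, e, hz, h⟩
    refine ⟨s⁻¹, z⁻¹, by simp [e], Z.inv_mem hz, ?_⟩
    rw [Prod.snd_inv, h, map_inv, Subgroup.mem_center_iff.1 (hZ hz) (f s), mul_inv_rev]

/-- The correspondence given by a factorisation into commuting subgroups. -/
def cor_fac {G : Type} [Group G] (S : Subgroup G) {U C : Subgroup G}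
    (h : ∀ a ∈ U, ∀ x ∈ C, a * x = x * a) : Subgroup (G × G) where
  carrier := {p | p.1 ∈ S ∧ p.2 ∈ C ∧ ∃ a ∈ U, p.1 = a * p.2}
  one_mem' := ⟨S.one_mem, C.one_mem, 1, U.one_mem, by simp⟩
  mul_mem' := by
    rintro p q ⟨p1, p2, a, ha, e⟩ ⟨q1, q2, b, hb, e'⟩
    refine ⟨S.mul_mem p1 q1, C.mul_mem p2 q2, a * b, U.mul_mem ha hb, ?_⟩
    rw [Prod.fst_mul, Prod.snd_mul, e, e', mul_assoc, ← mul_assoc p.2, ← h b hb _ p2, mul_assoc,
      mul_assoc]
  inv_mem' := by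
    rintro p ⟨p1, p2, a, ha, e⟩
    refine ⟨S.inv_mem p1, C.inv_mem p2, a⁻¹, U.inv_mem ha, ?_⟩
    rw [Prod.fst_inv, Prod.snd_inv, e, h a ha _ p2, mul_inv_rev]

theorem cor_triv {G : Type} [Group G] {Z S : Subgroup G} (h : Z.relIndex S ≠ 0) :
    next_Sec (Z.relIndex S) Z S := by
  intro B hB A _ hA _
  have h1 : Z.relIndex B ≠ 0 := fun h0 => h (Subgroup.relIndex_eq_zero_of_le_right hB h0)
  have : (Z.subgroupOf B).FiniteIndex := ⟨h1⟩
  exact Or.inr ((Subgroup.index_antitone hA).trans (Subgroup.relIndex_le_of_le_right hB h))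

theorem cor_cen {F W : Type} [Field F] [AddCommGroup W] [Module F W] :
    Zs F W ≤ Subgroup.center _ := by
  rintro z ⟨c, -, h⟩
  exact Subgroup.mem_center_iff.2 fun x => Units.ext (by simp [h])

theorem cor : StmtCor := by
  intro G G' _ _ Z S Z' S' R hR hs h1 hZ
  exact ⟨cor_idx hR hs h1 hZ, fun m => cor_sec hR hs h1 hZ⟩

theorem secI (hS : StmtSec) (hC : StmtCor) : StmtSecI := by
  intro G V _ _ _ _ ρ W
  have h := (hS ℂ G V ρ W ⊤).1
  obtain ⟨a, b⟩ := hC G _ ⊥ ⊤ (Zs ℂ W) (imS ρ W ⊤) (cor_graph (resU ρ W) cor_cen)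
    (by
      rintro p ⟨s, z, -, hz, e⟩
      exact ⟨trivial, (h _).2 ⟨s, z, trivial, hz, e⟩⟩)
    (fun u hu => by
      obtain ⟨s, z, -, hz, e⟩ := (h u).1 hu
      exact ⟨s.1, s, z, rfl, hz, e⟩)
    (by
      rintro u ⟨s, z, e, hz, e'⟩
      have h1 : s = 1 := Subtype.ext e
      rw [h1, map_one, one_mul] at e'
      exact (show u = z from e') ▸ hz)
    (fun z hz => by
      rw [Subgroup.mem_bot.1 hz]
      exact Subgroup.one_mem _)
  rw [Subgroup.relIndex_bot_left, Subgroup.card_top] at a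
  refine ⟨(a Nat.card_pos.ne').2, ?_, b⟩
  rintro _ ⟨s, rfl⟩
  exact (h _).2 ⟨s, 1, trivial, Subgroup.one_mem _, (mul_one _).symm⟩

theorem nextL (hM : StmtMU) (hC : StmtCor) : StmtNextL := by
  intro W _ _ _ _ m H S M hZS hfin hH hsec hMS hMZ hSM hMU
  obtain ⟨-, -, -, h4, h5⟩ := hM ℂ W M hMU
  have hz : ∀ z ∈ Zs ℂ W, (z : End ℂ W) ∈ spn M := by
    rintro z ⟨c, -, h⟩
    rw [h]
    exact Submodule.smul_mem _ c (next_mem M.one_mem)
  have hS : ∀ s ∈ S, ∃ a ∈ next_U M, ∃ x ∈ Subgroup.centralizer (M : Set (End ℂ W)ˣ),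
      s = a * x := fun s hs => by
    obtain ⟨A, a1, a2, a3⟩ := h4 s (hSM s hs)
    exact ⟨A, ⟨a1, a2⟩, A⁻¹ * s, next_cm.2 a3, (mul_inv_cancel_left _ _).symm⟩
  have hUC : ∀ a ∈ next_U M, ∀ x ∈ Subgroup.centralizer (M : Set (End ℂ W)ˣ), a * x = x * a :=
    fun a ha x hx => Units.ext (next_comm ha.1 (next_cm.1 hx))
  have hi : ∀ a ∈ next_U M, a ∈ Subgroup.centralizer (M : Set (End ℂ W)ˣ) → a ∈ Zs ℂ W :=
    fun a ha hc => by
      obtain ⟨c, e⟩ := h5 a ha.1 1 one_ne_zero (fun u _ => by simp)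
        (by simpa using next_cm.1 hc)
      exact ⟨c, fun h0 => a.ne_zero (by rw [e, h0, zero_smul]), e⟩
  have hZU : Zs ℂ W ≤ next_U M := fun z h => ⟨hz z h, hz _ (Subgroup.inv_mem _ h)⟩
  obtain ⟨S', s1, s2, s3, -, s5⟩ := next_grp (U := next_U M)
    (C := Subgroup.centralizer (M : Set (End ℂ W)ˣ)) cor_cen hfin (cor_triv hfin) hUC hi hZU
    (cor_cen.trans (Subgroup.center_le_centralizer _)) hS hMS
    (fun u hu => ⟨next_mem hu, next_mem (M.inv_mem hu)⟩) hMZ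
  have s4 : SecK m (Zs ℂ W) S' := by
    refine (hC _ _ (Zs ℂ W) S (Zs ℂ W) S' (cor_fac S hUC) ?_ (fun x hx => ?_) ?_
      (fun z h => ⟨hZS h, Subgroup.one_mem _, z, hZU h, (mul_one _).symm⟩)).2 m hsec
    · rintro p ⟨p1, p2, a, ha, e⟩
      exact ⟨p1, (s5 _).2 ⟨p2, a, ha, e ▸ p1⟩⟩
    · obtain ⟨x1, a, ha, x2⟩ := (s5 x).1 hx
      exact ⟨a * x, x2, x1, a, ha, rfl⟩
    · rintro x ⟨-, x1, a, ha, e⟩
      have e' : x = a⁻¹ := eq_inv_of_mul_eq_one_right e.symm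
      exact hi x (e' ▸ (next_U M).inv_mem ha) x1
  refine ⟨S', s1, s2, s3, fun h hh => Subgroup.mem_normalizer_iff.2 fun x => ⟨fun hx => ?_,
    fun hx => ?_⟩, s4, fun s hs => ?_⟩
  · exact (s5 _).2 (next_stab (hH h hh).1 (hH h hh).2 ((s5 _).1 hx))
  · have := (s5 _).2 (next_stab (hH _ (H.inv_mem hh)).1 (hH _ (H.inv_mem hh)).2 ((s5 _).1 hx))
    simpa [mul_assoc] using this
  · obtain ⟨a, ha, x, hx, rfl⟩ := hS s hs
    exact ⟨a, x, ha.1, ha.2, (s5 _).2 ⟨hx, a, ha, hs⟩, next_cm.1 hx, rfl⟩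

end Pool.Agent.Work.MP_11a08a_al.Lin
end

-- merged part: Pool.Agent.Work.MP_11a08a_al.Lin.Fam
section
/-!
Lemma 1: if `Src n S L 𝓝` and `g ∈ S` then `Src n S (str_cj g L) (fun s => str_cj g '' 𝓝 s)`: `str_cj g L ⊔ Zs = str_cj g (L ⊔ Zs)`, `π' = π ∘ (conjugation by g⁻¹)`, `ind π' S = ind π S` (`s ↦ g⁻¹ s g`), `hat π' N = str_cj g (hat π N)`.
Lemma 2: if `Src n S L 𝓝`, `t ∈ S`, `str_cj t L = L`, `s ≤ n`, `N ∈ 𝓝 s` then `str_cj t N ∈ 𝓝 s`: `t` induces `α ∈ ind π S`, `str_cj t (hat π N) = hat π (N.map α)`, `invN`.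
Take the orbit relation `L ~ L' ↔ ∃ t ∈ S, L' = str_cj t L`, representatives `rep L` (`Quotient.out`), `g L ∈ S` with `L = str_cj (g L) (rep L)`, and `𝓝 L s = str_cj (g L) '' 𝓝₀ (rep L) s`; `(g (str_cj t L))⁻¹ * t * g L` fixes `rep L`.
-/

set_option autoImplicit false

open Finset Module Pool.Agent.Work.MP_11a08a_al.Sol
open scoped commutatorElement

namespace Pool.Agent.Work.MP_11a08a_al.Lin

section

variable {G Q : Type} [Group G] [Group Q]

theorem fam_cj_mul (a b : G) (M : Subgroup G) : str_cj a (str_cj b M) = str_cj (a * b) M := by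
  ext x; simp [str_mem_cj, mul_assoc]

theorem fam_cj_one (M : Subgroup G) : str_cj 1 M = M := by
  ext x; simp [str_mem_cj]

theorem fam_nrm {Z : Subgroup G} (hZ : Z.Normal) (g x : G) : g⁻¹ * x * g ∈ Z ↔ x ∈ Z := by
  constructor
  · intro h
    simpa [mul_assoc] using hZ.conj_mem _ h g
  · intro h
    simpa using hZ.conj_mem _ h g⁻¹

theorem fam_cj_sup (g : G) (L : Subgroup G) {Z : Subgroup G} (hZ : Z.Normal) :
    str_cj g L ⊔ Z = str_cj g (L ⊔ Z) := by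
  have h : str_cj g Z = Z := by
    ext x; rw [str_mem_cj, fam_nrm hZ]
  conv_lhs => rw [← h]
  exact (Subgroup.map_sup L Z _).symm

/-- Conjugation as a map between two conjugate subgroups. -/
def fam_cjh (g : G) {B B' : Subgroup G} (h : ∀ x, x ∈ B' ↔ g⁻¹ * x * g ∈ B) : B' →* B where
  toFun x := ⟨g⁻¹ * x * g, (h x).1 x.2⟩
  map_one' := by ext; simp
  map_mul' x y := by ext; simp [mul_assoc]

theorem fam_cjh_val (g : G) {B B' : Subgroup G} (h : ∀ x, x ∈ B' ↔ g⁻¹ * x * g ∈ B) (x : B') :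
    (fam_cjh g h x : G) = g⁻¹ * x * g := rfl

theorem fam_cjh_surj (g : G) {B B' : Subgroup G} (h : ∀ x, x ∈ B' ↔ g⁻¹ * x * g ∈ B) :
    Function.Surjective (fam_cjh g h) := by
  intro y
  refine ⟨⟨g * y * g⁻¹, (h _).2 ?_⟩, ?_⟩
  · simp [mul_assoc]
  · ext; simp [fam_cjh_val, mul_assoc]

theorem fam_hat (g : G) {B B' : Subgroup G} (h : ∀ x, x ∈ B' ↔ g⁻¹ * x * g ∈ B) (π : B →* Q)
    (N : Subgroup Q) : hat (π.comp (fam_cjh g h)) N = str_cj g (hat π N) := by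
  have key : (N.comap (π.comp (fam_cjh g h))).map B'.subtype =
      str_cj g ((N.comap π).map B.subtype) := by
    ext x
    rw [str_mem_cj]
    constructor
    · rintro ⟨y, hy, rfl⟩
      exact ⟨fam_cjh g h y, hy, rfl⟩
    · rintro ⟨y, hy, hyx⟩
      have hx : x ∈ B' := (h x).2 (by rw [← hyx]; exact y.2)
      have e : fam_cjh g h ⟨x, hx⟩ = y := Subtype.ext hyx.symm
      refine ⟨⟨x, hx⟩, ?_, rfl⟩
      show π (fam_cjh g h ⟨x, hx⟩) ∈ N
      rw [e]; exact hy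
  unfold hat
  rw [str_cj_comm, key]

theorem fam_ind_le {g : G} {B B' S : Subgroup G} (h : ∀ x, x ∈ B' ↔ g⁻¹ * x * g ∈ B)
    (hg : g ∈ S) (π : B →* Q) (π' : B' →* Q) (hπ : ∀ x, π' x = π (fam_cjh g h x)) :
    ind π S ⊆ ind π' S := by
  rintro α ⟨s, hs, hn, hα⟩
  refine ⟨g * s * g⁻¹, S.mul_mem (S.mul_mem hg hs) (S.inv_mem hg), ?_, ?_⟩
  · rw [Subgroup.mem_normalizer_iff]
    intro x
    have h1 := (Subgroup.mem_normalizer_iff.1 hn) (g⁻¹ * x * g)
    have h2 : g⁻¹ * (g * s * g⁻¹ * x * (g * s * g⁻¹)⁻¹) * g = s * (g⁻¹ * x * g) * s⁻¹ := by group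
    show x ∈ B' ↔ g * s * g⁻¹ * x * (g * s * g⁻¹)⁻¹ ∈ B'
    rw [h, h, h2]
    exact h1
  · intro x y hxy
    rw [hπ, hπ]
    refine hα _ _ ?_
    rw [fam_cjh_val, fam_cjh_val, hxy]
    group

theorem fam_ind {g : G} {B B' S : Subgroup G} (h : ∀ x, x ∈ B' ↔ g⁻¹ * x * g ∈ B)
    (hg : g ∈ S) (π : B →* Q) : ind (π.comp (fam_cjh g h)) S = ind π S := by
  have h' : ∀ x, x ∈ B ↔ g⁻¹⁻¹ * x * g⁻¹ ∈ B' := by
    intro x; rw [h]; simp [mul_assoc]
  refine Set.Subset.antisymm (fam_ind_le h' (S.inv_mem hg) _ _ fun x => ?_)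
    (fam_ind_le h hg _ _ fun _ => rfl)
  show π x = π (fam_cjh g h (fam_cjh g⁻¹ h' x))
  congr 1
  ext
  simp [fam_cjh_val, mul_assoc]

theorem fam_aut {B : Type} [Group B] (π π' : B →* Q) (h : Function.Surjective π)
    (h' : Function.Surjective π') (hk : π'.ker = π.ker) :
    ∃ α : MulAut Q, ∀ x, α (π' x) = π x := by
  refine ⟨((QuotientGroup.quotientKerEquivOfSurjective π' h').symm.trans
    (QuotientGroup.quotientMulEquivOfEq hk)).trans
    (QuotientGroup.quotientKerEquivOfSurjective π h), fun x => ?_⟩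
  have e : (QuotientGroup.quotientKerEquivOfSurjective π' h').symm (π' x) = QuotientGroup.mk x := by
    rw [MulEquiv.symm_apply_eq]; rfl
  rw [MulEquiv.trans_apply, MulEquiv.trans_apply, e]
  rfl

end

variable {W : Type} [AddCommGroup W] [Module ℂ W]

theorem fam_normal : (Zs ℂ W).Normal := by
  constructor
  rintro z ⟨c, hc, hz⟩ g
  refine ⟨c, hc, ?_⟩
  rw [Units.val_mul, Units.val_mul, hz, mul_smul_comm, mul_one, smul_mul_assoc, Units.mul_inv]

theorem fam_src {n : ℕ} {S L : Subgroup (End ℂ W)ˣ} {𝓝 : ℕ → Set (Subgroup (End ℂ W)ˣ)}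
    (h : Src n S L 𝓝) {g : (End ℂ W)ˣ} (hg : g ∈ S) :
    Src n S (str_cj g L) fun s => str_cj g '' 𝓝 s := by
  obtain ⟨Q, iQ, π, C, 𝓜, lam, q₀, hs, hk, hG, hN⟩ := h
  have hB : ∀ x, x ∈ str_cj g L ⊔ Zs ℂ W ↔ g⁻¹ * x * g ∈ L ⊔ Zs ℂ W := by
    intro x; rw [fam_cj_sup g L fam_normal, str_mem_cj]
  refine ⟨Q, iQ, π.comp (fam_cjh g hB), C, 𝓜, lam, q₀, hs.comp (fam_cjh_surj g hB), ?_, ?_, ?_⟩
  · intro x
    rw [MonoidHom.comp_apply, hk, fam_cjh_val, fam_nrm fam_normal]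
  · rw [fam_ind hB hg]; exact hG
  · intro s
    show str_cj g '' 𝓝 s = _
    rw [hN, Set.image_image]
    exact Set.image_congr fun N _ => (fam_hat g hB π N).symm

theorem fam_fix {n : ℕ} {S L : Subgroup (End ℂ W)ˣ} {𝓝 : ℕ → Set (Subgroup (End ℂ W)ˣ)}
    (h : Src n S L 𝓝) {t : (End ℂ W)ˣ} (ht : t ∈ S) (hL : str_cj t L = L) {s : ℕ} (hs : s ≤ n)
    {N : Subgroup (End ℂ W)ˣ} (hN : N ∈ 𝓝 s) : str_cj t N ∈ 𝓝 s := by
  obtain ⟨Q, iQ, π, C, 𝓜, lam, q₀, hsur, hk, hG, h𝓝⟩ := h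
  have hB : ∀ x, x ∈ L ⊔ Zs ℂ W ↔ t⁻¹ * x * t ∈ L ⊔ Zs ℂ W := by
    intro x; rw [← str_mem_cj, ← fam_cj_sup t L fam_normal, hL]
  obtain ⟨α, hα⟩ := fam_aut π (π.comp (fam_cjh t hB)) hsur (hsur.comp (fam_cjh_surj t hB)) (by
    ext x
    rw [MonoidHom.mem_ker, MonoidHom.mem_ker, MonoidHom.comp_apply, hk, hk, fam_cjh_val,
      fam_nrm fam_normal])
  have hi : α ∈ ind π S := by
    refine ⟨t, ht, Subgroup.mem_normalizer_iff''.2 hB, fun x y hxy => ?_⟩
    rw [← hα y, MonoidHom.comp_apply]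
    congr 2
    ext1
    rw [fam_cjh_val, hxy]
    group
  rw [h𝓝] at hN ⊢
  obtain ⟨M, hM, rfl⟩ := hN
  refine ⟨M.map α.toMonoidHom, hG.one.invN α hi s hs M hM, ?_⟩
  rw [← fam_hat t hB π M]
  have e : (M.map α.toMonoidHom).comap π = M.comap (π.comp (fam_cjh t hB)) := by
    ext x
    rw [Subgroup.mem_comap, Subgroup.mem_comap, ← hα x]
    exact Subgroup.mem_map_iff_mem (f := α.toMonoidHom) α.injective
  unfold hat
  rw [e]

theorem fam : StmtFam := by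
  intro W _ _ n S C hC hsrc
  choose! 𝓝₀ h₀ using hsrc
  let r : Setoid (Subgroup (End ℂ W)ˣ) :=
    { r := fun L L' => ∃ t ∈ S, L' = str_cj t L
      iseqv :=
        ⟨fun L => ⟨1, S.one_mem, (fam_cj_one L).symm⟩,
          fun ⟨t, ht, e⟩ => ⟨t⁻¹, S.inv_mem ht, by rw [e, str_cj_inv]⟩,
          fun ⟨t, ht, e⟩ ⟨u, hu, e'⟩ => ⟨u * t, S.mul_mem hu ht, by rw [e', e, fam_cj_mul]⟩⟩ }
  obtain ⟨rep, hrep, hrr⟩ : ∃ rep : Subgroup (End ℂ W)ˣ → Subgroup (End ℂ W)ˣ,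
      (∀ L, ∃ t ∈ S, L = str_cj t (rep L)) ∧ ∀ t ∈ S, ∀ L, rep (str_cj t L) = rep L := by
    refine ⟨fun L => (Quotient.mk r L).out,
      fun L => Quotient.exact (s := r) (Quotient.out_eq (Quotient.mk r L)), ?_⟩
    intro t ht L
    have e : Quotient.mk r L = Quotient.mk r (str_cj t L) := Quotient.sound ⟨t, ht, rfl⟩
    show (Quotient.mk r (str_cj t L)).out = (Quotient.mk r L).out
    rw [e]
  choose g hg hgL using hrep
  have hinv : ∀ L, str_cj (g L)⁻¹ L = rep L := by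
    intro L
    have := str_cj_inv (g L) (rep L)
    rwa [← hgL L] at this
  have hmem : ∀ L ∈ C, rep L ∈ C := by
    intro L hL
    rw [← hinv L]
    exact (hC _ (hg L) L hL).2
  refine ⟨fun L s => str_cj (g L) '' 𝓝₀ (rep L) s, fun L hL => ?_, ?_⟩
  · have := fam_src (h₀ _ (hmem L hL)) (hg L)
    rwa [← hgL L] at this
  · rintro t ht L hL s hs N ⟨N₀, hN₀, rfl⟩
    have hu : (g (str_cj t L))⁻¹ * t * g L ∈ S :=
      S.mul_mem (S.mul_mem (S.inv_mem (hg _)) ht) (hg L)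
    have hfix : str_cj ((g (str_cj t L))⁻¹ * t * g L) (rep L) = rep L := by
      rw [← fam_cj_mul, ← fam_cj_mul, ← hgL L, hinv, hrr t ht L]
    refine ⟨str_cj ((g (str_cj t L))⁻¹ * t * g L) N₀, ?_, ?_⟩
    · rw [hrr t ht L]
      exact fam_fix (h₀ _ (hmem L hL)) hu hfix hs hN₀
    · rw [fam_cj_mul, fam_cj_mul]
      congr 1
      group

end Pool.Agent.Work.MP_11a08a_al.Lin
end

-- merged part: Pool.Agent.Work.MP_11a08a_al.Lin.NearG
section
/-!
`𝒦 = KK C 𝓝`, `Pet` by `hK`.  `lev t` = the least `s` with `s = n` or `∃ K ∈ 𝒦 s, Cen t K` (`Nat.find`), `f 0 = 1`, `f s = 8 s`, `D l l' = f (lev ((r l)⁻¹ * r l'))`.  Symmetric; `D a c ≤ D a b * D b c`: if one level is `0` (`zero`, `le`) the other witness works, else `lev ≤ 4 * max` by `inter` or because `lev ≤ n`.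
`hA` with `T' t = 128 * lv t`, `lv t = 16 ^ q * (4 ^ q * (t + 4))`, gives `T₀`; `s₀ = 4 ^ q * (T₀ + 1)`.  Hypothesis of `hA`: if `n < 16 * lv t` then `D ≤ T' t` always.  Else let `Y a = ∑ l ∈ P with ρ l = a, α l • r l`; each term is `LocK (t + 4) (r a)` (if `(r a)⁻¹ r l` centralises `y` then `tw (r a) y (r l) = r l`), a sum of `j ≤ q` terms is `LocK (4 ^ j * (t + 4))`.
If two representatives differ, all `Y a ≠ 0` by `MinV`; fix `a₁`, apply `hP` to `R = (P.image ρ).erase a₁`, whose sum is `- Y a₁`; intersect the two subgroups (level `4 lv`), `hF` gives `lev ≤ 16 lv` for `(r a)⁻¹ r a₁`, a contradiction.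
Finally fix `l₀ ∈ P` (if `P` is empty take `N = L`), intersect the at most `q` subgroups for `(r l₀)⁻¹ r l`, get `K = C.sup k ∈ 𝒦 s₀` centralised by all quotients, `N = k L`, first part of `hF`.
-/

set_option autoImplicit false

open Finset Module Pool.Agent.Work.MP_11a08a_al.Sol
open scoped commutatorElement

namespace Pool.Agent.Work.MP_11a08a_al.Lin

section

variable {W : Type} [AddCommGroup W] [Module ℂ W] {n : ℕ} {S M : Subgroup (End ℂ W)ˣ}
  {𝒦 : ℕ → Set (Subgroup (End ℂ W)ˣ)}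

theorem nearg_inter (h : Pet n S M 𝒦) {q m : ℕ} (hm : 4 ^ q * m ≤ n) (P : Finset (Fin q))
    (Q : Fin q → (End ℂ W)ˣ → Prop) (hQ : ∀ l ∈ P, ∃ K ∈ 𝒦 m, ∀ y ∈ K, Q l y) :
    ∃ K ∈ 𝒦 (4 ^ q * m), ∀ y ∈ K, ∀ l ∈ P, Q l y := by
  have k : ∀ P : Finset (Fin q), 4 ^ P.card * m ≤ 4 ^ q * m := fun P =>
    Nat.mul_le_mul_right _ (Nat.pow_le_pow_right (by norm_num)
      ((card_le_univ _).trans_eq (Fintype.card_fin q)))
  suffices ∃ K ∈ 𝒦 (4 ^ P.card * m), ∀ y ∈ K, ∀ l ∈ P, Q l y from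
    this.imp fun K hK => ⟨h.mono _ _ (k P) hK.1, hK.2⟩
  induction P using Finset.cons_induction with
  | empty => exact ⟨M, h.mono _ _ (Nat.zero_le _) h.top, by simp⟩
  | cons a P ha ih =>
    obtain ⟨K, k1, k2⟩ := ih fun l hl => hQ l (mem_cons_of_mem hl)
    obtain ⟨K', k3, k4⟩ := hQ a (mem_cons_self _ _)
    have k5 := (k (cons a P ha)).trans hm
    rw [card_cons, pow_succ', mul_assoc] at k5 ⊢
    obtain ⟨K'', k6, k7⟩ := h.inter _ k5 K k1 K'
      (h.mono _ _ (Nat.le_mul_of_pos_left _ (by positivity)) k3)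
    exact ⟨K'', k6, fun y hy => (forall_mem_cons _ _).2 ⟨k4 y (k7 hy).2, k2 y (k7 hy).1⟩⟩

theorem nearg_inv {t : (End ℂ W)ˣ} {K : Subgroup (End ℂ W)ˣ} (h : Cen t K) : Cen t⁻¹ K :=
  fun y hy => Commute.inv_left (h y hy)

theorem nearg_mul {a b : (End ℂ W)ˣ} {K : Subgroup (End ℂ W)ˣ} (h : ∀ y ∈ K, a * y = y * a)
    (h' : ∀ y ∈ K, b * y = y * b) : Cen (a * b) K :=
  fun y hy => Commute.mul_left (h y hy) (h' y hy)

theorem nearg_lev (h : Pet n S M 𝒦) (hn : n ≠ 0) : ∃ D : (End ℂ W)ˣ → ℕ, D 1 ≤ 1 ∧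
    (∀ t, D t⁻¹ = D t) ∧ (∀ a b, D (a * b) ≤ D a * D b) ∧
    (∀ s t, D t ≤ s → s < n → ∃ K ∈ 𝒦 s, Cen t K) ∧
    ∀ s t, 0 < s → (n ≤ s ∨ ∃ K ∈ 𝒦 s, Cen t K) → D t ≤ 8 * s := by
  classical
  have ex : ∀ t : (End ℂ W)ˣ, ∃ s, n ≤ s ∨ ∃ K ∈ 𝒦 s, Cen t K := fun t => ⟨n, Or.inl le_rfl⟩
  obtain ⟨f, hf⟩ : ∃ f : (End ℂ W)ˣ → ℕ, ∀ t s, f t ≤ s ↔ n ≤ s ∨ ∃ K ∈ 𝒦 s, Cen t K :=
    ⟨fun t => Nat.find (ex t), fun t s => ⟨fun k => (Nat.find_spec (ex t)).imp k.trans'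
      fun ⟨K, k1, k2⟩ => ⟨K, h.mono _ _ k k1, k2⟩, fun k => Nat.find_min' _ k⟩⟩
  have f1 : ∀ t, f t⁻¹ ≤ f t := fun t => (hf _ _).2 (((hf t _).1 le_rfl).imp_right
    fun ⟨K, k1, k2⟩ => ⟨K, k1, nearg_inv k2⟩)
  have f2 : ∀ t, f t⁻¹ = f t := fun t => (f1 t).antisymm (by simpa using f1 t⁻¹)
  have f3 : ∀ a b, f a = 0 → f (a * b) ≤ f b := fun a b k => by
    obtain ⟨K, k1, k2⟩ := ((hf a 0).1 k.le).resolve_left (by omega)
    rw [h.zero K k1] at k2
    exact (hf _ _).2 (((hf b _).1 le_rfl).imp_right fun ⟨K', k3, k4⟩ =>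
      ⟨K', k3, nearg_mul (fun y hy => k2 y (h.le _ _ k3 hy)) k4⟩)
  have f4 : ∀ a b s, f a ≤ s → f b ≤ s → f (a * b) ≤ 4 * s := fun a b s k k' => by
    rcases le_or_gt n (4 * s) with e | e
    · exact (hf _ _).2 (Or.inl e)
    obtain ⟨K, k1, k2⟩ := ((hf a s).1 k).resolve_left (by omega)
    obtain ⟨K', k3, k4⟩ := ((hf b s).1 k').resolve_left (by omega)
    obtain ⟨K'', k5, k6⟩ := h.inter s e.le K k1 K' k3
    exact (hf _ _).2 (Or.inr ⟨K'', k5,
      nearg_mul (fun y hy => k2 y (k6 hy).1) fun y hy => k4 y (k6 hy).2⟩)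
  refine ⟨fun t => max 1 (8 * f t), ?_⟩
  beta_reduce
  refine ⟨?_, fun t => by rw [f2], fun a b => ?_, fun s t k k' =>
    ((hf t s).1 (by omega)).resolve_left (by omega), fun s t k k' => by
      have := (hf t s).2 k'
      omega⟩
  · have := (hf 1 0).2 (Or.inr ⟨M, h.top, fun y _ => by simp⟩)
    omega
  rcases Nat.eq_zero_or_pos (f a) with e | e
  · have := f3 a b e
    rw [e, mul_zero, max_eq_left zero_le_one, one_mul]
    omega
  rcases Nat.eq_zero_or_pos (f b) with e' | e'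
  · have := f3 b⁻¹ a⁻¹ ((f2 b).trans e')
    rw [← mul_inv_rev, f2, f2] at this
    rw [e', mul_zero, max_eq_left zero_le_one, mul_one]
    omega
  have k1 := f4 a b (f a + f b) (by omega) (by omega)
  have k2 := Nat.mul_le_mul_left (f a) e'
  have k3 := Nat.mul_le_mul_right (f b) e
  rw [max_eq_right (show 1 ≤ 8 * f a by omega), max_eq_right (show 1 ≤ 8 * f b by omega)]
  exact max_le (by nlinarith) (by nlinarith)

end

theorem nearG (hA : StmtAgg) (hK : StmtKK) (hP : StmtPetG) (hF : StmtFar) : StmtNearG := by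
  intro q
  obtain ⟨T₀, hT⟩ := hA q fun t => 8 * (4 * (4 * (16 ^ q * (4 ^ q * (t + 4)))))
  have p4 : ∀ m, m ≤ 4 ^ q * m := fun m => Nat.le_mul_of_pos_left _ (by positivity)
  refine ⟨4 ^ q * (T₀ + 1), fun W _ _ _ n d S C 𝓝 hC hfam hS hn hFx P α r hr hM L hL => ?_⟩
  have n4 := p4 (T₀ + 1)
  have pet := hK W n d S C 𝓝 hC hfam hS (by omega)
  obtain ⟨D, d1, d2, d3, d4, d5⟩ := nearg_lev pet (by omega)
  have key := hT P (fun l l' => D ((r l)⁻¹ * r l')) (fun l _ => by simpa using d1)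
    (fun l _ l' _ => by rw [← d2]; simp) (fun a _ b _ c _ => by
      simpa [mul_assoc] using d3 ((r a)⁻¹ * r b) ((r b)⁻¹ * r c)) fun t ρ a1 a2 l hl l' hl' => ?_
  · obtain ⟨K, k1, k2⟩ : ∃ K ∈ KK C 𝓝 (4 ^ q * (T₀ + 1)), ∀ l ∈ P, ∀ l' ∈ P,
        Cen ((r l)⁻¹ * r l') K := by
      rcases P.eq_empty_or_nonempty with rfl | ⟨l₀, h0⟩
      · exact ⟨_, pet.mono _ _ (Nat.zero_le _) pet.top, by simp⟩
      obtain ⟨K, k1, k2⟩ := nearg_inter pet (by omega) P _ fun l hl =>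
        d4 (T₀ + 1) _ ((key l₀ h0 l hl).trans (Nat.le_succ _)) (by omega)
      refine ⟨K, k1, fun l hl l' hl' => ?_⟩
      simpa [mul_assoc] using nearg_mul (nearg_inv fun y hy => k2 y hy l hl) fun y hy => k2 y hy l' hl'
    have k3 := (hF W n d _ S C 𝓝 hC hfam hn (hFx _ hn)).1
    obtain ⟨k, k4, k5, rfl⟩ := id k1
    exact ⟨k L, k4 L hL, fun l hl l' hl' => ⟨k3 _ (mul_mem (inv_mem (hr l hl)) (hr l' hl')) _ k1
      (k2 l hl l' hl') L hL, fun y hy => k2 l hl l' hl' y (le_sup (f := k) hL hy)⟩⟩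
  by_contra c
  have m1 := p4 (t + 4)
  generalize hm : 4 ^ q * (t + 4) = m at m1 a2
  have m2 : m ≤ 16 ^ q * m := Nat.le_mul_of_pos_left _ (by positivity)
  generalize hv : 16 ^ q * m = v at m2 a2
  rcases le_total n (4 * (4 * v)) with e | e
  · exact (a2 l hl l' hl' c).not_ge (d5 _ _ (by omega) (Or.inl e))
  obtain ⟨Y, hY⟩ : ∃ Y : Fin q → End ℂ W, ∀ a, Y a =
      ∑ l ∈ P.filter fun l => ρ l = a, α l • (r l : End ℂ W) := ⟨_, fun _ => rfl⟩
  have y1 : ∀ a, LocK (KK C 𝓝) m (r a) (Y a) := fun a => by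
    obtain ⟨K, k1, k2⟩ := nearg_inter pet (m := t + 4) (by omega) (P.filter fun l => ρ l = a) _
      fun l hl => d4 _ _ ((a1 l (mem_filter.1 hl).1).2.trans (Nat.le_add_right _ _)) (by omega)
    refine ⟨K, hm ▸ k1, fun y hy => ?_⟩
    rw [hY, rank_tw_sum]
    refine sum_congr rfl fun l hl => ?_
    rw [rank_tw_smul, rank_tw_fix]
    rw [← (mem_filter.1 hl).2]
    exact (congrArg Units.val (k2 y hy l hl)).symm
  have y2 : ∑ a ∈ (P.image ρ).erase (ρ l'), Y a = (-1 : ℂ) • Y (ρ l') := by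
    rw [neg_one_smul, eq_neg_iff_add_eq_zero, sum_erase_add _ _ (mem_image_of_mem ρ hl')]
    simp only [hY]
    exact (sum_fiberwise_of_maps_to (fun l hl => mem_image_of_mem ρ hl) _).trans hM.1
  have y3 : Y (ρ l') ≠ 0 := by
    rw [hY]
    refine hM.2 _ (filter_subset _ _) ⟨l', mem_filter.2 ⟨hl', rfl⟩⟩ fun e => c ?_
    rw [← e] at hl
    exact (mem_filter.1 hl).2
  have y4 : ∀ a ∈ P.image ρ, r a ∈ S := fun a ha => by
    obtain ⟨l, hl, rfl⟩ := mem_image.1 ha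
    exact hr _ (a1 l hl).1
  obtain ⟨X, x0, ⟨a, x1, K₁, x2, x3⟩, -, -, x4⟩ := (hP W n S _ _ pet m (by omega)).2 q (by omega)
    ((P.image ρ).erase (ρ l')) r Y (fun a ha => ⟨y4 a (mem_of_mem_erase ha), y1 a⟩)
    (by rw [y2]; simpa using y3)
  obtain ⟨K₂, x5, x6⟩ := x4 _ (y4 _ (mem_image_of_mem ρ hl')) ((y1 (ρ l')).imp fun K hK =>
    ⟨hK.1, fun y hy => by rw [y2, rank_tw_smul, hK.2 y hy]⟩)
  rw [hv] at x2 x5
  obtain ⟨K, x7, x8⟩ := pet.inter v (by omega) K₁ x2 K₂ x5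
  have x9 := (hF W n d _ S C 𝓝 hC hfam e (hFx _ e)).2 _ (y4 a (mem_of_mem_erase x1)) _
    (y4 _ (mem_image_of_mem ρ hl')) X x0 K x7 fun y hy => ⟨x3 y (x8 hy).1, x6 y (x8 hy).2⟩
  obtain ⟨l₁, h1, rfl⟩ := mem_image.1 (mem_of_mem_erase x1)
  exact (a2 l₁ h1 l' hl' (ne_of_mem_erase x1)).not_ge (d5 _ _ (by omega) (Or.inr x9))

end Pool.Agent.Work.MP_11a08a_al.Lin
end

-- merged part: Pool.Agent.Work.MP_11a08a_al.Lin.QB
section
/-!
Use `Finset.supIndep_iff_supIndep_subtype`-like lemmas (`iSupIndep_iff_supIndep`, `iSupIndep_iff_supIndep_of_injOn`) and `block_two`, `block_map` of `Sol/Block`.  Lemma: if `QBlk q ρ U`, `U₁ ≤ U` and `QInd q {U₁.map (ρ g) | g ∈ stab ρ U}` then `QBlk q ρ U₁` (for `y = U₁.map (ρ (g y))` in a finset `X` put `π y = U.map (ρ (g y))`; members with the same `π y` differ by the stabiliser; injective maps preserve independence).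
(1) take `U` of least dimension with `U ≤ x`, `¬ Van`, `QBlk`.  If `U₂ ≤ U` is invariant under the stabiliser, Maschke (average a projection over the finite group `stab ρ U`, or `MonoidAlgebra.Submodule.exists_isCompl`) gives an invariant complement `U₃`; both are `QBlk`, one is not `Van`, so is `U`.  For `U₁` as in `QPrim` (mapped into `V`) the join of its translates under the stabiliser is invariant and nonzero, so `U`; some translate is not `Van`, is `QBlk`, so is `U`.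
(2) third item of the last part of `hB` with `ι` the subtype of the finset `P.image (fun l => U.map (ρ (b l)))` (if `P` is empty there is nothing to prove).  (3) as in `Sol/Block`: a nonzero joint eigenspace of `A`; its translates are joint eigenspaces, independent by `hDi`.
-/

set_option autoImplicit false

open Finset Module Pool.Agent.Work.MP_11a08a_al.Sol
open scoped commutatorElement

namespace Pool.Agent.Work.MP_11a08a_al.Lin

section Aux

variable {G V : Type} [Group G] [AddCommGroup V] [Module ℂ V] {q : ℕ}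

theorem qb_of_indep {ι : Type} {E : ι → Submodule ℂ V} (hE : iSupIndep E)
    {𝒳 : Set (Submodule ℂ V)} (h : 𝒳 ⊆ Set.range E) : QInd q 𝒳 := fun X hX _ => by
  have h1 := (sSupIndep_iff _).1 (hE.sSupIndep_range.mono (hX.trans h))
  exact (iSupIndep_comp_coe_iff_supIndep (f := id)).1 h1

theorem qb_mono {𝒳 𝒴 : Set (Submodule ℂ V)} (h : QInd q 𝒴) (hs : 𝒳 ⊆ 𝒴) : QInd q 𝒳 :=
  fun X hX hc => h X (hX.trans hs) hc

theorem qb_single (U : Submodule ℂ V) : QInd q {U} := fun _ hX _ =>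
  (Finset.supIndep_singleton U id).subset fun _ hx => Finset.mem_singleton.2 (hX hx)

theorem qb_map {W : Type} [AddCommGroup W] [Module ℂ W] {f : W →ₗ[ℂ] V}
    (hf : Function.Injective f) {𝒴 : Set (Submodule ℂ W)} (h : QInd q 𝒴) :
    QInd q (Submodule.map f '' 𝒴) := by
  classical
  intro X hX hc
  obtain ⟨Y, hY, rfl⟩ := Finset.subset_set_image_iff.1 hX
  rw [Finset.card_image_of_injective _ (Submodule.map_injective_of_injective hf)] at hc
  have h1 := f.iSupIndep_map hf (h Y hY hc).independent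
  exact Finset.SupIndep.image ((iSupIndep_comp_coe_iff_supIndep (f := id ∘ Submodule.map f)).1 h1)

theorem qb_tr {ρ : Representation ℂ G V} {U : Submodule ℂ V} (h : QBlk q ρ U) (g : G) :
    QBlk q ρ (U.map (ρ g)) :=
  qb_mono h fun _ ⟨g', e⟩ => ⟨g' * g, e.trans (block_map ρ U g g')⟩

theorem qb_sub {ρ : Representation ℂ G V} {U U₁ : Submodule ℂ V} (h : QBlk q ρ U) (hle : U₁ ≤ U)
    (hs : QInd q {x | ∃ g ∈ stab ρ U, x = U₁.map (ρ g)}) : QBlk q ρ U₁ := by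
  classical
  intro X hX hc
  have h1 : ∀ x : X, ∃ g, x.1 = U₁.map (ρ g) := fun x => hX x.2
  choose γ hγ using h1
  have hc' : (univ : Finset X).card ≤ q := by simpa using hc
  have h2 := (h (univ.image fun x : X => U.map (ρ (γ x))) (fun y hy => by
    obtain ⟨x, -, rfl⟩ := mem_image.1 hy
    exact ⟨γ x, rfl⟩) (card_image_le.trans hc')).independent
  refine (iSupIndep_comp_coe_iff_supIndep (f := id)).1 (block_two _ _
    (fun x => ⟨U.map (ρ (γ x)), mem_image_of_mem _ (mem_univ x)⟩) h2 (fun k => ?_) fun k => ?_)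
  · change k.1 ≤ U.map (ρ (γ k))
    rw [hγ k]
    exact Submodule.map_mono hle
  have h3 := hs ((univ.filter fun j : X => U.map (ρ (γ j)) = U.map (ρ (γ k))).image
    fun j : X => j.1.map (ρ (γ k)⁻¹)) (fun y hy => by
      obtain ⟨j, hj, rfl⟩ := mem_image.1 hy
      exact ⟨_, block_stab (mem_filter.1 hj).2, by rw [hγ j, block_map]⟩)
    (card_image_le.trans ((card_filter_le _ _).trans hc'))
  have h4 := Finset.supIndep_iff_disjoint_erase.1 h3 (k.1.map (ρ (γ k)⁻¹))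
    (mem_image_of_mem _ (mem_filter.2 ⟨mem_univ k, rfl⟩))
  have hi := block_inj ρ (γ k)⁻¹
  rw [Submodule.disjoint_def] at h4 ⊢
  intro v hv hv'
  refine hi ((h4 _ ⟨v, hv, rfl⟩ ?_).trans (map_zero _).symm)
  refine (?_ : _ ≤ Submodule.comap (ρ (γ k)⁻¹) _) hv'
  refine iSup₂_le fun j hj => Submodule.map_le_iff_le_comap.1 (Finset.le_sup (f := id)
    (mem_erase.2 ⟨fun e => hj.1 (Subtype.ext (Submodule.map_injective_of_injective hi e)), ?_⟩))
  exact mem_image_of_mem _ (mem_filter.2 ⟨mem_univ j, Subtype.mk.inj hj.2⟩)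

theorem qb_inv {ρ : Representation ℂ G V} {U U₁ : Submodule ℂ V} (h : QBlk q ρ U) (hle : U₁ ≤ U)
    (hs : ∀ g ∈ stab ρ U, ∀ v ∈ U₁, ρ g v ∈ U₁) : QBlk q ρ U₁ := by
  refine qb_sub h hle (qb_mono (qb_single U₁) ?_)
  rintro _ ⟨g, hg, rfl⟩
  refine le_antisymm ?_ fun v hv => ⟨ρ g⁻¹ v, hs _ ((stab ρ U).inv_mem hg) v hv, by simp⟩
  rintro _ ⟨v, hv, rfl⟩
  exact hs g hg v hv

theorem qb_maschke [Finite G] (ρ : Representation ℂ G V) (S : Subgroup G) (U : Submodule ℂ V)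
    (hs : ∀ g ∈ S, ∀ v ∈ U, ρ g v ∈ U) :
    ∃ C : Submodule ℂ V, U ⊓ C = ⊥ ∧ U ⊔ C = ⊤ ∧ ∀ g ∈ S, ∀ v ∈ C, ρ g v ∈ C := by
  let σ : Representation ℂ S V := ρ.comp S.subtype
  have : NeZero (Nat.card S : ℂ) := ⟨Nat.cast_ne_zero.2 Nat.card_pos.ne'⟩
  have hσ : σ.IsSemisimpleRepresentation := inferInstance
  obtain ⟨C, hC⟩ := hσ.exists_isCompl ⟨U, fun g v hv => hs g g.2 v hv⟩
  exact ⟨C.toSubmodule, congrArg Subrepresentation.toSubmodule hC.inf_eq_bot,
    congrArg Subrepresentation.toSubmodule hC.sup_eq_top,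
    fun g hg v hv => C.apply_mem_toSubmodule ⟨g, hg⟩ hv⟩

theorem qb_van (ρ : Representation ℂ G V) (α : Fin q → ℂ) (a : Fin q → G) (U : Submodule ℂ V) :
    Van ρ α univ a U ↔ U ≤ LinearMap.ker (∑ l, α l • ρ (a l)) :=
  forall₂_congr fun w _ => by simp [LinearMap.sum_apply]

theorem qb_one [Finite G] [FiniteDimensional ℂ V] (ρ : Representation ℂ G V) (α : Fin q → ℂ)
    (x : Submodule ℂ V) (a : Fin q → G) (hx : Blk ρ x) (hv : ¬ Van ρ α univ a x) :
    ∃ U ≤ x, ¬ Van ρ α univ a U ∧ QBlk q ρ U ∧ QPrim q (resU ρ U).range := by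
  obtain ⟨U, ⟨h0, h1, h2⟩, hmin⟩ :=
    (InvImage.wf (fun P : Submodule ℂ V => finrank ℂ P) wellFounded_lt).has_min
      {P | P ≤ x ∧ ¬ Van ρ α univ a P ∧ QBlk q ρ P}
      ⟨x, le_rfl, hv, qb_of_indep hx fun y hy => ⟨⟨y, hy⟩, rfl⟩⟩
  have hm : ∀ U' ≤ U, ¬ Van ρ α univ a U' → QBlk q ρ U' → U' = U := fun U' hle b c =>
    Submodule.eq_of_le_of_finrank_le hle (not_lt.1 (hmin U' ⟨hle.trans h0, b, c⟩))
  refine ⟨U, h0, h1, h2, fun U₁ hne hq => ?_⟩
  have hle : U₁.map U.subtype ≤ U := Submodule.map_subtype_le _ _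
  have hb : QBlk q ρ (U₁.map U.subtype) := by
    refine qb_sub h2 hle (qb_mono (qb_map U.injective_subtype hq) ?_)
    rintro _ ⟨g, hg, rfl⟩
    refine ⟨_, ⟨_, ⟨⟨g, hg⟩, rfl⟩, rfl⟩, ?_⟩
    rw [← Submodule.map_comp, ← Submodule.map_comp]
    rfl
  have ht : ∀ g : stab ρ U, (U₁.map U.subtype).map (ρ g) ≤ U := fun g => by
    rintro _ ⟨v, hv, rfl⟩
    exact g.2.1 v (hle hv)
  have hJ : ∀ g ∈ stab ρ U, ∀ v ∈ ⨆ g : stab ρ U, (U₁.map U.subtype).map (ρ g),
      ρ g v ∈ ⨆ g : stab ρ U, (U₁.map U.subtype).map (ρ g) := fun g hg v hv => by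
    refine Submodule.mem_comap.1 ((?_ : _ ≤ Submodule.comap (ρ g) _) hv)
    refine iSup_le fun g' => Submodule.map_le_iff_le_comap.1 ?_
    rw [block_map]
    exact le_iSup (fun g : stab ρ U => (U₁.map U.subtype).map (ρ g)) (⟨g, hg⟩ * g')
  have hJv : ¬ Van ρ α univ a (⨆ g : stab ρ U, (U₁.map U.subtype).map (ρ g)) := by
    intro hvan
    obtain ⟨C, c1, c2, c3⟩ := qb_maschke ρ (stab ρ U) _ hJ
    have c4 : U ⊓ C = U := by
      refine hm _ inf_le_left (fun h => h1 ?_)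
        (qb_inv h2 inf_le_left fun g hg v hv => ⟨hg.1 v hv.1, c3 g hg v hv.2⟩)
      rw [qb_van] at h hvan ⊢
      refine le_trans ?_ (sup_le hvan h)
      rw [inf_comm, ← sup_inf_assoc_of_le _ (iSup_le ht), c2, top_inf_eq]
    have c5 : (U₁.map U.subtype).map (ρ (1 : stab ρ U)) ≤ ⊥ := by
      rw [← c1]
      exact le_inf (le_iSup (fun g : stab ρ U => (U₁.map U.subtype).map (ρ g)) 1)
        ((ht 1).trans (inf_eq_left.1 c4))
    exact hne (block_bot U.injective_subtype (block_bot (block_inj ρ _) (le_bot_iff.1 c5)))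
  obtain ⟨g, hg⟩ : ∃ g : stab ρ U, ¬ Van ρ α univ a ((U₁.map U.subtype).map (ρ g)) := by
    by_contra! h
    exact hJv ((qb_van _ _ _ _).2 (iSup_le fun g => (qb_van _ _ _ _).1 (h g)))
  have h3 := congrArg (fun P : Submodule ℂ V => finrank ℂ P) (hm _ (ht g) hg (qb_tr hb g))
  simp only [block_rank (block_inj ρ _), block_rank U.injective_subtype] at h3
  exact Submodule.eq_top_of_finrank_eq h3

theorem qb_prim (hDi : StmtDiag) [FiniteDimensional ℂ V] {H : Subgroup (End ℂ V)ˣ}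
    (h : QPrim q H) : Prim H := fun A hc hn => by
  rcases subsingleton_or_nontrivial V with hV | hV
  · exact fun a _ => ⟨1, one_ne_zero, Subsingleton.elim _ _⟩
  obtain ⟨χ₀, hχ⟩ := block_eig (fun a : A => ((a : (End ℂ V)ˣ) : End ℂ V)) fun a b => by
    rw [← Units.val_mul, hc a a.2 b b.2, Units.val_mul]
  have h5 := h _ hχ (qb_of_indep (hDi ℂ V A fun a : A => ((a : (End ℂ V)ˣ) : End ℂ V)).1 (by
    rintro _ ⟨s, hs, rfl⟩
    have h2 : ∀ a : A, s⁻¹ * a * s ∈ A := fun a =>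
      (Subgroup.mem_set_normalizer_iff''.1 (hn _ hs) a).1 a.2
    have h3 : ∀ a : A, s * a * s⁻¹ ∈ A := fun a =>
      (Subgroup.mem_normalizer_iff.1 (hn _ hs) a).1 a.2
    refine ⟨fun a => χ₀ ⟨_, h2 a⟩, le_antisymm (fun w hw => ?_) ?_⟩
    · refine ⟨(s⁻¹ : (End ℂ V)ˣ).1 w,
        (Submodule.mem_iInf _).2 fun a => End.mem_eigenspace_iff.2 ?_, ?_⟩
      · have h4 := End.mem_eigenspace_iff.1 ((Submodule.mem_iInf _).1 hw ⟨_, h3 a⟩)
        have h6 : (⟨_, h2 ⟨_, h3 a⟩⟩ : A) = a := Subtype.ext (by simp only; group)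
        beta_reduce at h4
        rw [h6] at h4
        rw [← map_smul, ← h4, ← Module.End.mul_apply, ← Module.End.mul_apply, ← Units.val_mul,
          ← Units.val_mul]
        simp only [mul_assoc, inv_mul_cancel_left]
      · rw [← Module.End.mul_apply, ← Units.val_mul, mul_inv_cancel, Units.val_one,
          Module.End.one_apply]
    · rintro _ ⟨w, hw, rfl⟩
      refine (Submodule.mem_iInf _).2 fun a => End.mem_eigenspace_iff.2 ?_
      have h4 := End.mem_eigenspace_iff.1 ((Submodule.mem_iInf _).1 hw ⟨_, h2 a⟩)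
      rw [← map_smul, ← h4, ← Module.End.mul_apply, ← Module.End.mul_apply, ← Units.val_mul,
        ← Units.val_mul]
      simp only [mul_assoc, mul_inv_cancel_left]))
  intro a ha
  have h6 : (a : End ℂ V) = χ₀ ⟨a, ha⟩ • (1 : End ℂ V) := LinearMap.ext fun w =>
    End.mem_eigenspace_iff.1 ((Submodule.mem_iInf _).1 (h5.ge Submodule.mem_top) ⟨a, ha⟩)
  refine ⟨_, fun e => a.ne_zero ?_, h6⟩
  rw [h6, e, zero_smul]

end Aux

theorem qb (hDi : StmtDiag) (hB : StmtBasic) : StmtQB := by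
  classical
  refine ⟨fun G V _ _ _ _ _ q ρ α => ⟨qb_one ρ α, fun U P b hU hP l hl l' hl' => ?_⟩,
    fun W _ _ _ q H h => qb_prim hDi h⟩
  have h1 := (hU (P.image fun l => U.map (ρ (b l))) (fun y hy => by
    obtain ⟨x, -, rfl⟩ := mem_image.1 hy
    exact ⟨b x, rfl⟩) (card_image_le.trans (by simpa using card_le_univ P))).independent
  have h2 := (hB.2.2.2 ℂ G V ρ q α U).2.2.1 _ _ P b
    (fun i => if h : i ∈ P then ⟨U.map (ρ (b i)), mem_image_of_mem _ h⟩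
      else ⟨U.map (ρ (b l)), mem_image_of_mem _ hl⟩) h1
    (fun i hi w hw => by
      rw [dif_pos hi]
      exact ⟨w, hw, rfl⟩) hP l hl l' hl'
  rw [dif_pos hl, dif_pos hl'] at h2
  exact block_stab (Subtype.mk.inj h2).symm

end Pool.Agent.Work.MP_11a08a_al.Lin
end
end

-- merged part: Pool.Agent.Work.MP_11a08a_al.Lin.GainL
section
-- merged part: Pool.Agent.Work.MP_11a08a_al.Lin.QRc1
section
/-!
Projective representations of a finite vector space that are stable under all transvections.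
-/

set_option autoImplicit false
set_option linter.unusedSectionVars false

open Module

namespace Pool.Agent.Work.MP_11a08a_al.Lin

open Sol

theorem qrc_cen {W : Type} [AddCommGroup W] [Module ℂ W] {z : (End ℂ W)ˣ} (hz : z ∈ Zs ℂ W)
    (x : (End ℂ W)ˣ) : x * z = z * x := by
  obtain ⟨c, -, h⟩ := hz
  exact Units.ext (by simp [h])

theorem qrc_comm {G : Type} [Group G] {A B C T z₁ z₂ z₃ : G} (h₁ : ∀ x, x * z₁ = z₁ * x)
    (h₂ : ∀ x, x * z₂ = z₂ * x) (h₃ : ∀ x, x * z₃ = z₃ * x) (hA : A * T = z₁ * (T * A))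
    (hC : C * T = z₂ * (T * (C * B))) (hω : A * C = z₃ * (C * A)) : A * B = B * A := by
  have e1 : A * C * T = z₁ * z₂ * z₃ * (T * C) * (A * B) := by
    calc A * C * T = A * (C * T) := mul_assoc _ _ _
      _ = (A * z₂) * (T * (C * B)) := by rw [hC, mul_assoc]
      _ = z₂ * (A * T) * (C * B) := by rw [h₂ A]; simp only [mul_assoc]
      _ = (z₂ * z₁) * T * (A * C) * B := by rw [hA]; simp only [mul_assoc]
      _ = (z₁ * z₂) * (T * z₃) * (C * A) * B := by rw [h₁ z₂, hω]; simp only [mul_assoc]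
      _ = _ := by rw [h₃ T]; simp only [mul_assoc]
  have e2 : A * C * T = z₁ * z₂ * z₃ * (T * C) * (B * A) := by
    calc A * C * T = z₃ * C * (A * T) := by rw [hω]; simp only [mul_assoc]
      _ = z₃ * (C * z₁) * T * A := by rw [hA]; simp only [mul_assoc]
      _ = (z₃ * z₁) * (C * T) * A := by rw [h₁ C]; simp only [mul_assoc]
      _ = (z₁ * (z₃ * z₂)) * (T * (C * B)) * A := by rw [hC, h₁ z₃]; simp only [mul_assoc]
      _ = _ := by rw [h₂ z₃]; simp only [mul_assoc]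
  exact mul_left_cancel (e1.symm.trans e2)

section Rep

variable {K M W : Type} [Field K] [AddCommGroup M] [Module K M] [FiniteDimensional K M]
  [AddCommGroup W] [Module ℂ W] {F : M → (End ℂ W)ˣ}

theorem qrc_commute (hM : 3 ≤ finrank K M)
    (hadd : ∀ v v', ∃ z ∈ Zs ℂ W, F (v + v') = z * (F v * F v'))
    (hconj : ∀ (φ : M →ₗ[K] K) (v₀ : M), φ v₀ = 0 → ∃ T : (End ℂ W)ˣ, ∀ v, ∃ z ∈ Zs ℂ W,
      F v * T = z * (T * F (v + φ v • v₀))) (v v' : M) : F v * F v' = F v' * F v := by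
  classical
  obtain ⟨u, hu⟩ : ∃ u, u ∉ Submodule.span K (({v, v'} : Finset M) : Set M) := by
    by_contra h
    push Not at h
    have h1 : Submodule.span K (({v, v'} : Finset M) : Set M) = ⊤ := eq_top_iff.2 fun u _ => h u
    have h2 := finrank_span_finset_le_card (R := K) ({v, v'} : Finset M)
    rw [Set.finrank, h1, finrank_top] at h2
    have h3 : ({v, v'} : Finset M).card ≤ 2 := Finset.card_le_two
    omega
  obtain ⟨ψ, hψ, hk⟩ := Submodule.exists_le_ker_of_notMem hu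
  have hv : ψ v = 0 := hk (Submodule.subset_span (by simp))
  have hv' : ψ v' = 0 := hk (Submodule.subset_span (by simp))
  obtain ⟨T, hT⟩ := hconj ((ψ u)⁻¹ • ψ) v' (by simp [hv'])
  obtain ⟨z₁, hz₁, e₁⟩ := hT v
  obtain ⟨z₂, hz₂, e₂⟩ := hT u
  obtain ⟨z₃, hz₃, e₃⟩ := hadd u v'
  obtain ⟨z₄, hz₄, e₄⟩ := hadd v u
  obtain ⟨z₅, hz₅, e₅⟩ := hadd u v
  simp only [LinearMap.smul_apply, hv, smul_zero, zero_smul, add_zero] at e₁
  simp only [LinearMap.smul_apply, smul_eq_mul, inv_mul_cancel₀ hψ, one_smul] at e₂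
  refine qrc_comm (C := F u) (T := T) (z₂ := z₂ * z₃) (z₃ := z₄⁻¹ * z₅) (qrc_cen hz₁)
    (qrc_cen ((Zs ℂ W).mul_mem hz₂ hz₃))
    (qrc_cen ((Zs ℂ W).mul_mem ((Zs ℂ W).inv_mem hz₄) hz₅)) e₁ ?_ ?_
  · rw [e₂, e₃, ← mul_assoc T, qrc_cen hz₃ T]
    simp only [mul_assoc]
  · rw [mul_assoc, ← e₅, add_comm, e₄, inv_mul_cancel_left]

theorem qrc_pow [Finite M] (hadd : ∀ v v', ∃ z ∈ Zs ℂ W, F (v + v') = z * (F v * F v')) (v : M) :
    F v ^ Nat.card M ∈ Zs ℂ W := by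
  have h0 : F 0 ∈ Zs ℂ W := by
    obtain ⟨z, hz, e⟩ := hadd 0 0
    rw [add_zero, ← mul_assoc, eq_comm, mul_eq_right] at e
    rw [← inv_eq_of_mul_eq_one_right e]
    exact (Zs ℂ W).inv_mem hz
  have h1 : ∀ k : ℕ, ∃ z ∈ Zs ℂ W, F (k • v) = z * F v ^ k := by
    intro k
    induction k with
    | zero => exact ⟨F 0, h0, by simp⟩
    | succ k ih =>
      obtain ⟨z, hz, e⟩ := ih
      obtain ⟨z', hz', e'⟩ := hadd (k • v) v
      refine ⟨z' * z, (Zs ℂ W).mul_mem hz' hz, ?_⟩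
      rw [succ_nsmul, e', e, pow_succ]
      simp only [mul_assoc]
  obtain ⟨z, hz, e⟩ := h1 (Nat.card M)
  rw [card_nsmul_eq_zero'] at e
  have : F v ^ Nat.card M = z⁻¹ * F 0 := by rw [e, inv_mul_cancel_left]
  rw [this]
  exact (Zs ℂ W).mul_mem ((Zs ℂ W).inv_mem hz) h0

/-- The weights. -/
def qrcWt (F : M → (End ℂ W)ˣ) (χ : M → ℂ) : Prop :=
  ∃ y : W, y ≠ 0 ∧ ∀ v, (F v : End ℂ W) y = χ v • y

theorem qrc_unit (T : (End ℂ W)ˣ) {y : W} (hy : y ≠ 0) : (T : End ℂ W) y ≠ 0 := by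
  intro h
  have h1 : ((T⁻¹ * T : (End ℂ W)ˣ) : End ℂ W) y = 0 := by
    rw [Units.val_mul, End.mul_apply, h, map_zero]
  rw [inv_mul_cancel] at h1
  exact hy h1

theorem qrc_wt_ne {χ : M → ℂ} (h : qrcWt F χ) (v : M) : χ v ≠ 0 := by
  obtain ⟨y, hy, h⟩ := h
  intro h0
  exact qrc_unit (F v) hy (by rw [h, h0, zero_smul])

theorem qrc_wt_add {v v' : M} (hadd : ∃ z ∈ Zs ℂ W, F (v + v') = z * (F v * F v')) :
    ∃ c : ℂ, c ≠ 0 ∧ ∀ χ, qrcWt F χ → χ (v + v') = c * (χ v * χ v') := by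
  obtain ⟨z, ⟨c, hc, hz⟩, e⟩ := hadd
  refine ⟨c, hc, ?_⟩
  rintro χ ⟨y, hy, h⟩
  have h1 := h (v + v')
  rw [e, Units.val_mul, Units.val_mul, hz] at h1
  simp only [End.mul_apply, h, map_smul, LinearMap.smul_apply, End.one_apply, smul_smul] at h1
  have h2 := smul_left_injective ℂ hy h1
  rw [← h2]
  ring

theorem qrc_wt_conj {τ : M → M} {T : (End ℂ W)ˣ}
    (hT : ∀ v, ∃ z ∈ Zs ℂ W, F v * T = z * (T * F (τ v))) :
    ∃ c : M → ℂ, (∀ v, c v ≠ 0) ∧ ∀ χ, qrcWt F χ → qrcWt F fun v => c v * χ (τ v) := by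
  choose z hz e using hT
  choose c hc hz using hz
  refine ⟨c, hc, ?_⟩
  rintro χ ⟨y, hy, h⟩
  refine ⟨(T : End ℂ W) y, qrc_unit T hy, fun v => ?_⟩
  have h1 := congrArg (fun u : (End ℂ W)ˣ => (u : End ℂ W) y) (e v)
  simp only [Units.val_mul, End.mul_apply, hz, h, map_smul, LinearMap.smul_apply, End.one_apply,
    smul_smul] at h1
  rw [h1, mul_comm]

theorem qrc_rep [Finite K] [FiniteDimensional ℂ W] [Nontrivial W] (m : ℕ)
    (hM : m + 3 ≤ finrank K M) (hD : finrank ℂ W ^ 2 < Nat.card K ^ m)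
    (hadd : ∀ v v', ∃ z ∈ Zs ℂ W, F (v + v') = z * (F v * F v'))
    (hconj : ∀ (φ : M →ₗ[K] K) (v₀ : M), φ v₀ = 0 → ∃ T : (End ℂ W)ˣ, ∀ v, ∃ z ∈ Zs ℂ W,
      F v * T = z * (T * F (v + φ v • v₀))) (v₁ : M) : F v₁ ∈ Zs ℂ W := by
  classical
  have : Finite M := Module.finite_of_finite K
  have hcm := qrc_commute (by omega) hadd hconj
  obtain ⟨hind, hspan⟩ := diag ℂ W M fun v => (F v : End ℂ W)
  have hcard : ((Nat.card M : ℕ) : ℂ) ≠ 0 := Nat.cast_ne_zero.2 Nat.card_pos.ne'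
  have htop := hspan inferInstance inferInstance ⊤ (Nat.card M) hcard (fun _ _ _ => trivial)
    (fun i j w _ => by
      have := congrArg (fun u : (End ℂ W)ˣ => (u : End ℂ W) w) (hcm i j)
      simpa using this)
    (fun i => by
      obtain ⟨c, hc, h⟩ := qrc_pow hadd i
      refine ⟨c, hc, fun w _ => ?_⟩
      rw [← Units.val_pow_eq_pow_val, h]
      simp)
  have hwt : ∀ χ : M → ℂ, (⨅ i, (F i : End ℂ W).eigenspace (χ i)) ≠ ⊥ ↔ qrcWt F χ := by
    intro χ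
    rw [Submodule.ne_bot_iff]
    constructor
    · rintro ⟨y, hy, h0⟩
      exact ⟨y, h0, fun v => End.mem_eigenspace_iff.1 ((Submodule.mem_iInf _).1 hy v)⟩
    · rintro ⟨y, h0, hy⟩
      exact ⟨y, (Submodule.mem_iInf _).2 fun v => End.mem_eigenspace_iff.2 (hy v), h0⟩
  by_contra hne
  obtain ⟨χ, χ', hχ, hχ', hd⟩ : ∃ χ χ', qrcWt F χ ∧ qrcWt F χ' ∧ χ v₁ ≠ χ' v₁ := by
    by_contra h
    push Not at h
    obtain ⟨χ₀, hχ₀⟩ : ∃ χ₀, qrcWt F χ₀ := by
      by_contra h0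
      push Not at h0
      have h1 : (⊤ : Submodule ℂ W) ≤ ⊥ := htop.trans (iSup_le fun χ => inf_le_right.trans
        (le_of_eq (not_not.1 fun h2 => h0 χ ((hwt χ).1 h2))))
      exact top_ne_bot (le_bot_iff.1 h1)
    refine hne ⟨χ₀ v₁, qrc_wt_ne hχ₀ v₁, ?_⟩
    have h1 : (⊤ : Submodule ℂ W) ≤ (F v₁ : End ℂ W).eigenspace (χ₀ v₁) := by
      refine htop.trans (iSup_le fun χ => inf_le_right.trans ?_)
      by_cases h2 : (⨅ i, (F i : End ℂ W).eigenspace (χ i)) = ⊥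
      · rw [h2]
        exact bot_le
      · rw [← h χ χ₀ ((hwt χ).1 h2) hχ₀]
        exact iInf_le _ v₁
    ext y
    simpa using End.mem_eigenspace_iff.1 (h1 (Submodule.mem_top (x := y)))
  let _ := hind.fintypeNeBotOfFiniteDimensional
  have hS := hind.subtype_ne_bot_le_finrank
  let L : Submodule K (Dual K M) := LinearMap.ker (Dual.eval K M v₁)
  have hL : m ≤ finrank K L := by
    have h1 := LinearMap.finrank_range_add_finrank_ker (Dual.eval K M v₁)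
    have h2 := Submodule.finrank_le (LinearMap.range (Dual.eval K M v₁))
    rw [finrank_self] at h2
    rw [Subspace.dual_finrank_eq] at h1
    change m ≤ finrank K (LinearMap.ker (Dual.eval K M v₁))
    omega
  have hc : ∀ φ : L, ∃ c : M → ℂ, (∀ v, c v ≠ 0) ∧
      ∀ χ, qrcWt F χ → qrcWt F fun v => c v * χ (v + φ.1 v • v₁) := by
    intro φ
    obtain ⟨T, hT⟩ := hconj φ.1 v₁ φ.2
    exact qrc_wt_conj hT
  choose c hc0 hc using hc
  let Φ : L → {χ : M → ℂ // (⨅ i, (F i : End ℂ W).eigenspace (χ i)) ≠ ⊥} ×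
      {χ : M → ℂ // (⨅ i, (F i : End ℂ W).eigenspace (χ i)) ≠ ⊥} :=
    fun φ => (⟨_, (hwt _).2 (hc φ χ hχ)⟩, ⟨_, (hwt _).2 (hc φ χ' hχ')⟩)
  have hΦ : Function.Injective Φ := by
    intro φ φ' h
    by_contra hφ
    obtain ⟨u, hu⟩ : ∃ u, φ.1 u ≠ φ'.1 u := by
      by_contra h0
      push Not at h0
      exact hφ (Subtype.ext (LinearMap.ext h0))
    have hu0 : φ.1 u - φ'.1 u ≠ 0 := sub_ne_zero.2 hu
    set v := (φ.1 u - φ'.1 u)⁻¹ • u with hv
    have h1 : φ.1 v = φ'.1 v + 1 := by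
      rw [hv, map_smul, map_smul, smul_eq_mul, smul_eq_mul]
      field_simp
      ring
    have e1 := congrFun (congrArg Subtype.val (congrArg Prod.fst h)) v
    have e2 := congrFun (congrArg Subtype.val (congrArg Prod.snd h)) v
    simp only [Φ] at e1 e2
    rw [h1, add_smul, one_smul, ← add_assoc] at e1 e2
    obtain ⟨k, hk, hk'⟩ := qrc_wt_add (hadd (v + φ'.1 v • v₁) v₁)
    rw [hk' χ hχ] at e1
    rw [hk' χ' hχ'] at e2
    have n1 := qrc_wt_ne hχ (v + φ'.1 v • v₁)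
    have n2 := qrc_wt_ne hχ' (v + φ'.1 v • v₁)
    have f1 : c φ v * k * χ v₁ = c φ' v := mul_right_cancel₀ n1 (by rw [← e1]; ring)
    have f2 : c φ v * k * χ' v₁ = c φ' v := mul_right_cancel₀ n2 (by rw [← e2]; ring)
    exact hd (mul_left_cancel₀ (mul_ne_zero (hc0 φ v) hk) (f1.trans f2.symm))
  have h1 := Nat.card_le_card_of_injective Φ hΦ
  rw [Nat.card_prod, Module.natCard_eq_pow_finrank (K := K) (V := L)] at h1
  rw [← Nat.card_eq_fintype_card] at hS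
  have h2 : Nat.card K ^ m ≤ Nat.card K ^ finrank K L := Nat.pow_le_pow_right Nat.card_pos hL
  have h3 := Nat.mul_le_mul hS hS
  rw [sq] at hD
  omega

end Rep

end Pool.Agent.Work.MP_11a08a_al.Lin
end

-- merged part: Pool.Agent.Work.MP_11a08a_al.Lin.QRc
section
/-!
`N` = the elements `a ∈ A U` with `f a ∈ Zs`, the kernel of the homomorphism to the quotient by `Zs` (central, see `Sol/DefsB`); if `W` is trivial everything is in `Zs`.  By `hQ` it suffices to find one independent admissible pair whose Eichler map lies in `N`.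
With `hR` choose `x ≠ 0` singular in `U ⊓ P false` and, by induction, `w 0, .., w (m + 2)` singular in `U ⊓ P true`, orthogonal to `x` and to each other, each outside the span of `x` and the earlier ones.  `U' = span (range w)` is totally singular, `E v` is the Eichler map of `(x, v)`, `E (v + v') = E v * E v'` for `v, v' ∈ U'`.
By `hW` with `j = m + 4` every linear automorphism `γ` of `U'` is induced by some `a ∈ A U` with `a x = x`, so `a (E v) a⁻¹ = E (γ v)`.  The commutator `f (E v) f (E v') f (E v)⁻¹ f (E v')⁻¹` is a scalar `ω v v'`, multiplicative in each variable, and `ω (γ v) (γ v') = ω v v'`.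
For independent `v, v'` take `v'' ∉ span {v, v'}`; the pairs `(v, v')`, `(v, v'')`, `(v, v' + v'')` are related by linear automorphisms (or directly by `hW` with `j = 3`), so `ω v v' = ω v (v' + v'') = ω v v' * ω v v''` and all are `1`.  For `v ≠ 0`, `v' ∈ span {v}` write `v' = (v' + v'') - v''`.
Now the `f (E v)` commute and `f (E v) ^ r` is scalar for `r = ringChar K`.  `Sol.diag`: `W` is spanned by the joint eigenspaces `W χ`, `χ : U' → ℂ`, which are independent, so at most `dim W < D` weights have `W χ ≠ ⊥`.  If there is only one weight, all `f (E v)` are scalar.  Else the quotient `δ = χ / χ'` of two weights is a nontrivial character of `U'`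
(`f (E (v + v')) = κ f (E v) f (E v')`), and `δ ∘ γ⁻¹` is again a quotient of two weights (`f a` permutes the weight spaces, `f a f (E v) (f a)⁻¹ = κ' v • f (E (γ v))`).  Take `v₀` with `δ v₀ ≠ 1`; for each functional `φ` on `U'` with `φ v₀ = 0` (at least `q ^ m` of them) the transvection `v ↦ v + φ v • v₀` gives `δ v * δ (φ v • v₀)`,
and different `φ` give different characters (take `v` with `(φ - φ') v = 1`).  So `q ^ m ≤ (D - 1) ^ 2 < D ^ 2`, a contradiction.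
-/

set_option autoImplicit false

open Module
open scoped commutatorElement

namespace Pool.Agent.Work.MP_11a08a_al.Lin

open Polar Sol

theorem qrc_tuple (hR : StmtRL) {K V : Type} [Field K] [Finite K] [AddCommGroup V] [Module K V]
    [FiniteDimensional K V] (p : Polar K V) (U : Submodule K V) (hU : p.Nd U) :
    ∀ (j : ℕ) (s : Fin j → Bool), 2 * j + 5 ≤ p.rk U → ∃ v : Fin j → V, p.Ind (p.perp U) s v ∧
      (∀ i, v i ∈ U) ∧ (∀ i, p.Sing (v i)) ∧ ∀ i i', p.β (v i) (v i') = 0 := by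
  classical
  intro j
  induction j with
  | zero =>
    intro s _
    exact ⟨fun i => i.elim0, ⟨fun i => i.elim0, fun _ _ i => i.elim0⟩, fun i => i.elim0,
      fun i => i.elim0, fun i => i.elim0⟩
  | succ j ih =>
    intro s hj
    obtain ⟨v, ⟨hP, hI⟩, hv, hS, hβ⟩ := ih (Fin.tail s) (by omega)
    have hc : (Finset.univ.image v).card ≤ j := Finset.card_image_le.trans (by simp)
    obtain ⟨x, ⟨hxU, hxP⟩, hxS, hxβ, hxb⟩ := ((hR K V p U hU).1 (s 0) j (Finset.univ.image v)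
      (Finset.univ.image v) hc (by omega) (by omega)).2 (fun _ => 0) (fun a _ => by simp)
    have hx : ∀ i, p.β x (v i) = 0 := fun i =>
      hxβ _ (Finset.mem_image_of_mem v (Finset.mem_univ i))
    refine ⟨Fin.cons x v, ⟨fun i => ?_, fun a ha => ?_⟩, fun i => ?_, fun i => ?_, fun i i' => ?_⟩
    · refine Fin.cases ?_ (fun i => ?_) i
      · exact hxP
      · exact hP i
    · rw [Fin.sum_univ_succ] at ha
      simp only [Fin.cons_zero, Fin.cons_succ] at ha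
      have h0 : a 0 = 0 := by
        by_contra h0
        refine hxb ?_
        have h1 : ∑ i : Fin j, a i.succ • v i ∈
            Submodule.span K ((Finset.univ.image v : Finset V) : Set V) :=
          Submodule.sum_mem _ fun i _ => Submodule.smul_mem _ _ (Submodule.subset_span (by simp))
        have h2 : a 0 • x + ∑ i : Fin j, a i.succ • v i ∈ p.perp (U ⊓ p.P (!s 0)) :=
          fun u hu => ha u hu.1
        have h3 : a 0 • x ∈ p.bad U (s 0) (Finset.univ.image v) := by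
          have h4 := Submodule.sub_mem (p.bad U (s 0) (Finset.univ.image v))
            (Submodule.mem_sup_right h2) (Submodule.mem_sup_left h1)
          rwa [add_sub_cancel_right] at h4
        exact (Submodule.smul_mem_iff _ h0).1 h3
      rw [h0, zero_smul, zero_add] at ha
      intro i
      refine Fin.cases ?_ (fun i => ?_) i
      · exact h0
      · exact hI (fun i => a i.succ) ha i
    · refine Fin.cases ?_ (fun i => ?_) i
      · exact hxU
      · exact hv i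
    · refine Fin.cases ?_ (fun i => ?_) i
      · exact hxS
      · exact hS i
    · refine Fin.cases ?_ (fun i => ?_) i <;> refine Fin.cases ?_ (fun i' => ?_) i'
      · exact hxS.β_self
      · exact hx i'
      · exact p.β_comm.1 (hx i)
      · exact hβ i i'

theorem qrc_sing {K V : Type} [Field K] [AddCommGroup V] [Module K V] (p : Polar K V) {n : ℕ}
    (w : Fin n → V) (hS : ∀ i, p.Sing (w i)) (hβ : ∀ i i', p.β (w i) (w i') = 0) :
    ∀ u ∈ Submodule.span K (Set.range w), p.Sing u ∧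
      ∀ u' ∈ Submodule.span K (Set.range w), p.β u u' = 0 := by
  have h1 : ∀ u ∈ Submodule.span K (Set.range w), ∀ i, p.β u (w i) = 0 := by
    intro u hu i
    induction hu using Submodule.span_induction with
    | mem u hu =>
      obtain ⟨i', rfl⟩ := hu
      exact hβ i' i
    | zero => simp
    | add a b _ _ ha hb => simp [ha, hb]
    | smul c a _ ha => simp [ha]
  have h2 : ∀ u ∈ Submodule.span K (Set.range w), ∀ u' ∈ Submodule.span K (Set.range w),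
      p.β u u' = 0 := by
    intro u hu u' hu'
    induction hu' using Submodule.span_induction with
    | mem u' hu' =>
      obtain ⟨i', rfl⟩ := hu'
      exact h1 u hu i'
    | zero => simp
    | add a b _ _ ha hb => simp [ha, hb]
    | smul c a _ ha => simp [ha]
  intro u hu
  refine ⟨?_, h2 u hu⟩
  induction hu using Submodule.span_induction with
  | mem u hu =>
    obtain ⟨i', rfl⟩ := hu
    exact hS i'
  | zero => exact p.sing_zero
  | add a b ha' hb' ha hb => exact ha.add hb (h2 a ha' b hb')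
  | smul c a _ ha => exact ha.smul c

theorem qrc_two {W : Type} [AddCommGroup W] [Module ℂ W] {G : Type} [Group G]
    {f : G → (End ℂ W)ˣ} (hf : ∀ x y, f (x * y) * (f x * f y)⁻¹ ∈ Zs ℂ W) {a b c d : G}
    (h : a * b = c * d) : ∃ z ∈ Zs ℂ W, f a * f b = z * (f c * f d) := by
  refine ⟨(f (a * b) * (f a * f b)⁻¹)⁻¹ * (f (c * d) * (f c * f d)⁻¹),
    (Zs ℂ W).mul_mem ((Zs ℂ W).inv_mem (hf a b)) (hf c d), ?_⟩
  rw [h]
  group

theorem qrc (hB : StmtPB) (hE : StmtPE) (hR : StmtRL) (hW : StmtWT) (hQ : StmtQS2) : StmtQRc := by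
  classical
  intro K V _ _ _ _ _ p U m D hU hm hD W _ _ _ hWD f hf
  rcases subsingleton_or_nontrivial W with hW0 | hW0
  · exact fun x => ⟨1, one_ne_zero, Subsingleton.elim _ _⟩
  obtain ⟨e1, e2, -, e4, -, -, -, e8, -, e10, -⟩ := hE K V p
  obtain ⟨v, hI, hvU, hvS, hvβ⟩ := qrc_tuple hR p U hU (m + 3 + 1)
    (Fin.cons false fun _ => true) (by omega)
  let L : (Fin (m + 3) → K) →ₗ[K] V := Fintype.linearCombination K fun i => v i.succ
  have hL : ∀ a, L a = ∑ i, a i • v i.succ := fun a => Fintype.linearCombination_apply _ _ _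
  have hLs : ∀ a, L a ∈ Submodule.span K (Set.range v) := fun a => by
    rw [hL]
    exact Submodule.sum_mem _ fun i _ => Submodule.smul_mem _ _ (Submodule.subset_span ⟨_, rfl⟩)
  have hLU : ∀ a, L a ∈ U ⊓ p.P true := fun a => by
    rw [hL]
    exact Submodule.sum_mem _ fun i _ => Submodule.smul_mem _ _ ⟨hvU _, hI.1 i.succ⟩
  have h0s : v 0 ∈ Submodule.span K (Set.range v) := Submodule.subset_span ⟨_, rfl⟩
  have hsp := qrc_sing p v hvS hvβ
  have hI' : ∀ (c : K) a, c • v 0 + L a ∈ p.perp U → c = 0 ∧ a = 0 := by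
    intro c a h
    have h1 := hI.2 (Fin.cons c a) (by
      rw [Fin.sum_univ_succ]
      simpa only [Fin.cons_zero, Fin.cons_succ, ← hL] using h)
    exact ⟨h1 0, funext fun i => h1 i.succ⟩
  have hAdm : ∀ a, p.Adm U true (v 0) (L a) := fun a =>
    ⟨⟨hvU 0, hI.1 0⟩, hLU a, hvS 0, (hsp _ (hLs a)).1, (hsp _ h0s).2 _ (hLs a)⟩
  choose E hEi using fun a => e1 U true (v 0) (L a) (hAdm a)
  have hEA : ∀ a, E a ∈ p.A U := fun a => Subgroup.subset_closure ⟨true, _, _, hAdm a, hEi a⟩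
  have hrep := qrc_rep (K := K) (F := fun a => f ⟨E a, hEA a⟩) m (by simp)
    (lt_of_lt_of_le (Nat.pow_lt_pow_left hWD two_ne_zero) hD) (fun a a' => by
      have h1 : E (a + a') = E a * E a' := e2 _ _ _ _ (hEi (a + a')) (by
        rw [map_add]
        exact e4 _ _ _ _ _ (hvβ 0 0) ((hsp _ h0s).2 _ (hLs a)) ((hsp _ h0s).2 _ (hLs a'))
          ((hsp _ (hLs a')).2 _ (hLs a)) (hEi a) (hEi a'))
      have h2 : (⟨E (a + a'), hEA _⟩ : p.A U) = ⟨E a, hEA a⟩ * ⟨E a', hEA a'⟩ := Subtype.ext h1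
      exact ⟨_, hf ⟨E a, hEA a⟩ ⟨E a', hEA a'⟩, by rw [h2, inv_mul_cancel_right]⟩)
    (fun φ a₀ h0 => by
      let τ : (Fin (m + 3) → K) →ₗ[K] (Fin (m + 3) → K) := LinearMap.id + φ.smulRight a₀
      have hτ : ∀ a, τ a = a + φ a • a₀ := fun a => rfl
      have hτ0 : ∀ a, τ a = 0 → a = 0 := by
        intro a h
        have h1 := congrArg φ h
        rw [hτ, map_add, map_smul, h0, smul_zero, add_zero, map_zero] at h1
        rwa [hτ, h1, zero_smul, add_zero] at h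
      have hsum : ∀ a : Fin (m + 3) → K, ∑ i, a i • L (τ (Pi.single i 1)) = L (τ a) := by
        intro a
        conv_rhs => rw [pi_eq_sum_univ' a]
        simp only [map_sum, map_smul]
      let v' : Fin (m + 3 + 1) → V := Fin.cons (v 0) fun i => L (τ (Pi.single i 1))
      have hv's : ∀ i, v' i ∈ Submodule.span K (Set.range v) := fun i =>
        Fin.cases h0s (fun i => hLs _) i
      have hv'U : ∀ i, v' i ∈ U := fun i => Fin.cases (hvU 0) (fun i => (hLU _).1) i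
      obtain ⟨e, he, hev⟩ := (hW K V p U hU (m + 3 + 1) _ v (by omega) hI).1 v'
        ⟨fun i => Fin.cases (hI.1 0) (fun i => (hLU _).2) i, fun a ha => by
          rw [Fin.sum_univ_succ] at ha
          simp only [v', Fin.cons_zero, Fin.cons_succ] at ha
          rw [hsum fun i => a i.succ] at ha
          obtain ⟨h1, h2⟩ := hI' _ _ ha
          intro i
          exact Fin.cases h1 (fun i => congrFun (hτ0 _ h2) i) i⟩
        (fun i => U.sub_mem (hv'U i) (hvU i))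
        (fun i => p.Λ.sub_mem (hsp _ (hv's i)).1 (hvS i))
        (fun i i' => ((hsp _ (hv's i)).2 _ (hv's i')).trans (hvβ i i').symm)
      have he0 : e (v 0) = v 0 := hev 0
      have heL : ∀ a, e (L a) = L (τ a) := fun a => by
        rw [← hsum, hL, map_sum]
        exact Finset.sum_congr rfl fun i _ => by rw [map_smul, hev i.succ]; rfl
      refine ⟨f (⟨e, he⟩ : p.A U)⁻¹, fun a => qrc_two hf ?_⟩
      have h1 := (e8 e ((e10 U).1 he).1).2 _ _ _ (hEi a)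
      rw [he0, heL] at h1
      have h2 := e2 _ _ _ _ (hEi (τ a)) h1
      refine Subtype.ext ?_
      change E a * e⁻¹ = e⁻¹ * E (τ a)
      rw [h2]
      group)
  have hN : (Zs ℂ W).Normal := ⟨fun z hz g => by
    rw [qrc_cen hz g, mul_inv_cancel_right]
    exact hz⟩
  let g : p.A U →* (End ℂ W)ˣ ⧸ Zs ℂ W := MonoidHom.mk' (fun x => (f x : (End ℂ W)ˣ ⧸ Zs ℂ W))
    fun x y => by
      rw [← QuotientGroup.mk_mul, QuotientGroup.eq_iff_div_mem, div_eq_mul_inv]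
      exact hf x y
  have hg : ∀ x, x ∈ g.ker ↔ f x ∈ Zs ℂ W := fun x => QuotientGroup.eq_one_iff _
  have hle := hQ K V p U hU (by omega) (g.ker.map (p.A U).subtype) (by
      rintro a ha _ ⟨x, hx, rfl⟩
      have h1 := (MonoidHom.normal_ker g).conj_mem x hx ⟨a, ha⟩
      exact Subgroup.mem_map_of_mem (p.A U).subtype h1)
    true (v 0) (L (Pi.single 0 1)) (E (Pi.single 0 1)) (hAdm _) (hEi _) (by
      intro h
      have h1 := (hI' 1 0 (by rw [h]; simp)).1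
      exact one_ne_zero h1) (by
      intro h
      obtain ⟨c, hc⟩ := Submodule.mem_span_singleton.1 h
      have h1 := (hI' (-c) (Pi.single 0 1) (by rw [← hc]; simp)).2
      simpa using congrFun h1 0)
    ⟨⟨E _, hEA _⟩, (hg _).2 (hrep _), rfl⟩
  intro x
  obtain ⟨y, hy, hxy⟩ := hle x.2
  have h1 : y = x := Subtype.ext hxy
  exact (hg x).1 (h1 ▸ hy)

end Pool.Agent.Work.MP_11a08a_al.Lin
end

-- merged part: Pool.Agent.Work.MP_11a08a_al.Lin.G1
section
/-!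
Take `k = 10 n + 2000`.  For `bar π U ∈ cN π s`, `s ≤ n`, one has `rk U ≥ rk ⊤ - n`.  `inter`: `T = U ⊓ U'` is graded of codimension at most `2 s`, item 7 of `hB`.  `gen`: closure induction on `A U` (`A U ≤ A ⊤ ≤ D`).  `perf`, `qs`: `hBar`.
`idx`: the index of `bar π U` is at most `(A U).relIndex (A ⊤)` (`π` maps `A ⊤` onto `Q`); if `dim (perp U) = 0` then `U = ⊤`; else item 8 of `hB` with `R = ⊥`, `T = perp U` gives `1 ≤ j ≤ s` and `hI` with `J = A ⊤` gives `card (A ⊤) ≤ q ^ (j * rk ⊤ + 1024) * card (A U)`, `j * rk ⊤ + 1024 ≤ 2 * rk ⊤ * s`.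
`big`: item 8 with `R = ⊥`, `T = ⊤` gives a homogeneous basis; its first `j = 4 n + 1` members (`Fin.castLE`) are independent, `hW` gives an orbit of size at least `q ^ (j * (rk ⊤ - j - 3)) ≥ q ^ (2 * rk ⊤ * n + 2)`, so `card (A ⊤)` is at least that; use `card (A ⊤) ≤ q ^ 2 * card Q`.
`loc`: `T = perp (span {x, w})` is graded of codimension at most 2, item 7 gives `U ≤ T` of codimension at most 4; `a ∈ A U` fixes `x, w ∈ perp U`, so `a e a⁻¹ = e`.  `invC`, `invN`: `hS` and `hBar`.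
-/

set_option autoImplicit false

open Module
open scoped commutatorElement

namespace Pool.Agent.Work.MP_11a08a_al.Lin

open Polar

section Aux

variable {K V Q : Type} [Field K] [AddCommGroup V] [Module K V] [Group Q] {p : Polar K V}

theorem g1_mem {π : p.D →* Q} {U : Submodule K V} {y : Q} :
    y ∈ bar π U ↔ ∃ x : p.D, x.1 ∈ p.A U ∧ π x = y := Iff.rfl

theorem g1_isE {U : Submodule K V} {e : V ≃ₗ[K] V} (h : p.IsE U e) : p.IsE ⊤ e := by
  obtain ⟨s, x, w, ⟨hx, hw, h3⟩, he⟩ := h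
  exact ⟨s, x, w, ⟨⟨trivial, hx.2⟩, ⟨trivial, hw.2⟩, h3⟩, he⟩

theorem g1_gen (π : p.D →* Q) (hD : p.A ⊤ ≤ p.D) (U : Submodule K V) :
    bar π U ≤ Subgroup.closure (cC π ∩ bar π U) := by
  have h : p.A U ≤ ((Subgroup.closure (cC π ∩ bar π U)).comap π).map p.D.subtype := by
    refine (Subgroup.closure_le _).2 fun e he => ?_
    have h1 : e ∈ p.D := hD (Subgroup.subset_closure (g1_isE he))
    exact ⟨⟨e, h1⟩, Subgroup.subset_closure ⟨⟨⟨e, h1⟩, g1_isE he, rfl⟩,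
      g1_mem.2 ⟨⟨e, h1⟩, Subgroup.subset_closure he, rfl⟩⟩, rfl⟩
  intro y hy
  obtain ⟨x, hx, rfl⟩ := g1_mem.1 hy
  obtain ⟨x', hx', e⟩ := h hx
  obtain rfl : x' = x := Subtype.ext e
  exact hx'

theorem g1_index [Finite (V ≃ₗ[K] V)] (π : p.D →* Q) (hD : p.A ⊤ ≤ p.D) (ht : bar π ⊤ = ⊤)
    {U : Submodule K V} (hU : p.A U ≤ p.A ⊤) {c : ℕ}
    (hc : Nat.card (p.A ⊤) ≤ c * Nat.card (p.A U)) : (bar π U).index ≤ c := by
  have hs : Function.Surjective (π.comp (Subgroup.inclusion hD)) := by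
    intro y
    obtain ⟨x, hx, rfl⟩ := g1_mem.1 (ht.symm ▸ Subgroup.mem_top y : y ∈ bar π ⊤)
    exact ⟨⟨x.1, hx⟩, rfl⟩
  have h1 : ((p.A U).subgroupOf (p.A ⊤)).map (π.comp (Subgroup.inclusion hD)) ≤ bar π U := by
    rintro _ ⟨x, hx, rfl⟩
    exact g1_mem.2 ⟨Subgroup.inclusion hD x, hx, rfl⟩
  have h2 := (Subgroup.index_dvd_of_le h1).trans
    (Subgroup.index_map_dvd ((p.A U).subgroupOf (p.A ⊤)) hs)
  have h3 := Subgroup.index_mul_card ((p.A U).subgroupOf (p.A ⊤))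
  rw [Nat.card_congr (Subgroup.subgroupOfEquivOfLe hU).toEquiv] at h3
  refine (Nat.le_of_dvd (Nat.pos_of_ne_zero Subgroup.index_ne_zero_of_finite) h2).trans ?_
  exact Nat.le_of_mul_le_mul_right (h3.le.trans hc) Nat.card_pos

theorem g1_orbit [Finite (V ≃ₗ[K] V)] (J : Subgroup (V ≃ₗ[K] V)) {j : ℕ} (v : Fin j → V) :
    Set.ncard {f : Fin j → V | ∃ e ∈ J, ∀ i, f i = e (v i)} ≤ Nat.card J := by
  have e : {f : Fin j → V | ∃ e ∈ J, ∀ i, f i = e (v i)} =
      (fun e : V ≃ₗ[K] V => fun i => e (v i)) '' (J : Set (V ≃ₗ[K] V)) := by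
    ext f
    exact ⟨fun ⟨e, he, h⟩ => ⟨e, he, (funext h).symm⟩,
      fun ⟨e, he, h⟩ => ⟨e, he, fun i => (congrFun h i).symm⟩⟩
  rw [e]
  exact Set.ncard_image_le (Set.toFinite _)

theorem g1_ind {j j' : ℕ} {s : Fin j → Bool} {v : Fin j → V} (h : p.Ind ⊥ s v) (hj : j' ≤ j) :
    p.Ind ⊥ (s ∘ Fin.castLE hj) (v ∘ Fin.castLE hj) := by
  have h1 : LinearIndependent K v := Fintype.linearIndependent_iff.2 fun a ha =>
    h.2 a ((Submodule.mem_bot K).2 ha)
  exact ⟨fun i => h.1 _, fun a ha => Fintype.linearIndependent_iff.1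
    (h1.comp _ (Fin.castLE_injective hj)) a ((Submodule.mem_bot K).1 ha)⟩

theorem g1_span (x : V) : finrank K (Submodule.span K {x}) ≤ 1 := by
  simpa using finrank_span_le_card (R := K) ({x} : Set V)

end Aux

theorem g1 (hB : StmtPB) (hE : StmtPE) (hS : StmtSS) (hW : StmtWT) (hI : StmtIX) (hBar : StmtBar) :
    StmtG1 := by
  intro n
  refine ⟨10 * n + 2000, ?_⟩
  intro K V Q _ _ _ _ _ _ p π hC hk
  obtain ⟨-, B2, B3, B4, B5, B6, B7, B8, -⟩ := hB K V p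
  obtain ⟨-, E2, -, -, -, -, -, E8, E9, E10, -⟩ := hE K V p
  obtain ⟨D1, D2, D3, D4, D5, D6⟩ := hBar K V Q p π hC (by omega)
  have hfV : Finite V := Module.finite_of_finite K
  have hfin : Finite (V ≃ₗ[K] V) :=
    Finite.of_injective (fun e : V ≃ₗ[K] V => (e : V → V)) DFunLike.coe_injective
  have hq : 1 ≤ Nat.card K := Nat.card_pos
  have hV : p.rk ⊤ ≤ finrank K V := Submodule.finrank_le _
  have hnt : Nontrivial V := Module.nontrivial_of_finrank_pos (R := K) (by omega)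
  have hrk : ∀ U : Submodule K V, p.Nd U → finrank K V ≤ finrank K U + n → 40 ≤ p.rk U := by
    intro U hU h
    have := (B6 U hU).2.2.2.2.1
    omega
  have hmono : ∀ U U' : Submodule K V, U ≤ U' → bar π U ≤ bar π U' := by
    intro U U' h y hy
    obtain ⟨x, hx, rfl⟩ := g1_mem.1 hy
    exact g1_mem.2 ⟨x, E9 U U' h hx, rfl⟩
  have hbot : p.Gr ⊥ := bot_le
  refine ⟨⟨⊤, B5, by simp, D3.symm⟩, ?_, ?_, ?_, ?_, ?_, ?_, ?_, ?_, ?_, ?_⟩
  · rintro s t hst _ ⟨U, hU, h, rfl⟩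
    exact ⟨U, hU, by omega, rfl⟩
  · rintro s - _ ⟨U, hU, h, rfl⟩ _ ⟨U', hU', h', rfl⟩
    obtain ⟨W, hW1, hW2, hW3⟩ := B7 (U ⊓ U') ((B3 U U' hU.1).2 hU'.1).1
    have h1 := Submodule.finrank_sup_add_finrank_inf_eq U U'
    have h2 := Submodule.finrank_le (U ⊔ U')
    exact ⟨bar π W, ⟨W, hW2, by omega, rfl⟩,
      le_inf (hmono _ _ (hW1.trans inf_le_left)) (hmono _ _ (hW1.trans inf_le_right))⟩
  · rintro _ ⟨U, -, -, rfl⟩
    exact g1_gen π D2 U
  · rintro _ ⟨U, hU, h, rfl⟩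
    exact (D6 U hU (hrk U hU h)).1
  · rintro _ ⟨U, hU, h, rfl⟩
    exact (D6 U hU (hrk U hU h)).2.1
  · rintro s - _ ⟨U, hU, h, rfl⟩
    obtain ⟨j, t, v, h1, -, h3, h4⟩ := B8 ⊥ (p.perp U) hbot (B3 U ⊥ hU.1).1 bot_le
    have h5 := (B2 U).1
    rw [finrank_bot] at h4
    rcases Nat.eq_zero_or_pos j with h6 | h6
    · obtain rfl : U = ⊤ := Submodule.eq_top_of_finrank_eq (by omega)
      rw [D3, Subgroup.index_top]
      exact Nat.one_le_pow _ _ (Nat.one_le_pow _ _ hq)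
    · have h7 := (hI K V p U hU).2.2 (p.A ⊤) ⊥ j t v (D2.trans D1) (fun a _ r hr => by
        rw [(Submodule.mem_bot K).1 hr, map_zero]) h1.1 h3
      refine (g1_index π D2 D3 (E9 U ⊤ le_top) h7).trans ?_
      rw [← pow_mul]
      refine Nat.pow_le_pow_right hq ?_
      have h8 := Nat.mul_le_mul_right (p.rk ⊤) (show j ≤ s by omega)
      have h9 := Nat.mul_le_mul_right (p.rk ⊤) (show 1 ≤ s by omega)
      have h10 : 2 * p.rk ⊤ * s = s * p.rk ⊤ + s * p.rk ⊤ := by ring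
      omega
  · obtain ⟨j, t, v, h1, -, -, h4⟩ := B8 ⊥ ⊤ hbot B5.1 bot_le
    rw [finrank_bot, finrank_top] at h4
    have hj : 4 * n + 1 ≤ j := by omega
    have hp : p.perp ⊤ = ⊥ := by simpa using B5.2
    have h5 := ((hW K V p ⊤ B5 (4 * n + 1) _ _ (by omega) (hp ▸ g1_ind h1 hj)).2.trans
      (g1_orbit _ _)).trans D4
    have h6 : 2 + 2 * p.rk ⊤ * n ≤ (4 * n + 1) * (p.rk ⊤ - (4 * n + 1) - 3) := by
      obtain ⟨r, hr⟩ := Nat.exists_eq_add_of_le hk
      rw [hr, show 10 * n + 2000 + r - (4 * n + 1) - 3 = 6 * n + 1996 + r by omega]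
      nlinarith [Nat.zero_le (n * n), Nat.zero_le (n * r)]
    have h7 := (Nat.pow_le_pow_right hq h6).trans h5
    rw [pow_add] at h7
    rw [← pow_mul]
    exact Nat.le_of_mul_le_mul_left h7 (Nat.one_le_pow _ _ hq)
  · rintro _ ⟨e, ⟨s, x, w, ⟨hx, hw, -⟩, he⟩, rfl⟩
    have g0 := ((B3 _ _ (B4 _ x hx.2)).2 (B4 _ w hw.2)).2
    obtain ⟨U, hU1, hU2, hU3⟩ := B7 _ (B3 _ ⊥ g0).1
    have h1 := (B2 (Submodule.span K {x} ⊔ Submodule.span K {w})).1
    have h2 := Submodule.finrank_sup_add_finrank_inf_eq (Submodule.span K {x})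
      (Submodule.span K {w})
    have h3 := g1_span (K := K) x
    have h4 := g1_span (K := K) w
    refine ⟨bar π U, ⟨U, hU2, by omega, rfl⟩, fun y hy => ?_⟩
    obtain ⟨a, ha, rfl⟩ := g1_mem.1 hy
    obtain ⟨a1, a2⟩ := (E10 U).1 ha
    have hx' : a.1 x = x := a2 x fun u hu => p.β_comm.1
      (hU1 hu x (Submodule.mem_sup_left (Submodule.mem_span_singleton_self x)))
    have hw' : a.1 w = w := a2 w fun u hu => p.β_comm.1
      (hU1 hu w (Submodule.mem_sup_right (Submodule.mem_span_singleton_self w)))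
    have h5 := (E8 a.1 a1).2 x w e.1 he
    rw [hx', hw'] at h5
    have h6 : a * e = e * a := Subtype.ext (mul_inv_eq_iff_eq_mul.1 (E2 x w _ _ h5 he))
    rw [← map_mul, h6, map_mul]
  · rintro α ⟨h, hh, hα⟩ _ ⟨e, he, rfl⟩
    obtain ⟨e', he', h1⟩ := (((hS K V p).2.2 h hh).2.2.2.2 ⊤ ⊤ (by simp)).2.2.1 e.1 he
    exact ⟨⟨e', D2 (Subgroup.subset_closure he')⟩, he', hα _ _ h1⟩
  · rintro α ⟨h, hh, hα⟩ s - _ ⟨U, hU, h0, rfl⟩
    obtain ⟨-, -, -, S4, S5⟩ := (hS K V p).2.2 h hh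
    obtain ⟨U', hU'⟩ := S4 U
    obtain ⟨h1, h2, -⟩ := S5 U U' hU'
    exact ⟨U', h2 hU, by omega, D5 h hh U U' hU' α fun x y _ => hα x y⟩

end Pool.Agent.Work.MP_11a08a_al.Lin
end

-- merged part: Pool.Agent.Work.MP_11a08a_al.Lin.G4
section
/-!
`k = n + 85`; prove the second alternative.  For `N = bar π U` the third item of `hR` with `j = 39` gives `U' ≤ U`; `U₀ = perp U'` is nondegenerate with `80 ≤ dim U₀ ≤ s + 80`, so `40 ≤ rk U₀`.  `L₀ = bar π U₀`, `Q₀ = L₀ ⧸ center L₀`.  Simple: the preimage of a normal subgroup, mapped into `Q`, is central or `L₀` (`hBar`).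
Not commutative: else `L₀ = ⁅L₀, L₀⁆` is central in itself, so commutative and trivial.  The composite `π₁ : A U₀ →* Q₀` is onto with kernel in the centre (`hBar`).  `LinG`: item 5 of `hA` with `T = span {1} ⊔ {φ | φ = 0 on U', range φ ≤ U₀}`, of dimension at most `1 + (s + 80) ^ 2` (restriction to `U₀` is injective; `perp U₀ = U'`, `A U₀ ≤ OU U₀`).
Size: a central element of `A U₀` agrees with a scalar map on `U₀` (`hC`) and is the identity on `U'`, so there are at most `q ^ 2`; `card (A U₀) ≥ q ^ 36` by `hW` with `j = 1`.  Invariance: if `α` with `h` fixes `N` pointwise then `h = z` on `U`; `z` preserves graded subspaces, so `h` maps `U'` into, hence onto, itself (finite), preserves `perp U'` (`hS`), and `hBar` gives `L₀.map α = L₀`.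
If `α` also fixes `L₀` then `h = z'` on `U₀`; the vectors `v` of `hR` lie in `U ⊓ U₀ ⊓ P s`, so `ζ = ζ'`, `z = z'`, `h = z` on `U' ⊔ U₀ = ⊤`; then `y = x` satisfies `y h = h x` for `x ∈ D`, so `α = 1`.
-/

set_option autoImplicit false

open Module
open scoped commutatorElement

namespace Pool.Agent.Work.MP_11a08a_al.Lin

theorem g4_simple {Q : Type} [Group Q] (L : Subgroup Q) (h1 : ⁅L, L⁆ = L) (h2 : L ≠ ⊥)
    (h3 : ∀ M ≤ L, (∀ a ∈ L, ∀ x ∈ M, a * x * a⁻¹ ∈ M) →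
      M ≤ Subgroup.centralizer (L : Set Q) ∨ M = L) :
    IsSimpleGroup (L ⧸ Subgroup.center L) ∧ ∃ x y : L ⧸ Subgroup.center L, x * y ≠ y * x := by
  have hc : ∀ x : L, x ∈ Subgroup.center L ↔ x.1 ∈ Subgroup.centralizer (L : Set Q) := fun x => by
    rw [Subgroup.mem_center_iff, Subgroup.mem_centralizer_iff]
    exact ⟨fun h g hg => congrArg Subtype.val (h ⟨g, hg⟩), fun h g => Subtype.ext (h g.1 g.2)⟩
  have nc : ∃ x y : L ⧸ Subgroup.center L, x * y ≠ y * x := by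
    by_contra hno
    push Not at hno
    have h4 : ⁅L, L⁆ ≤ Subgroup.centralizer (L : Set Q) := by
      rw [Subgroup.commutator_le]
      intro a ha b hb
      have h5 : (⁅(⟨a, ha⟩ : L), (⟨b, hb⟩ : L)⁆ : L) ∈ Subgroup.center L := by
        rw [← QuotientGroup.ker_mk' (Subgroup.center L), MonoidHom.mem_ker, map_commutatorElement,
          commutatorElement_eq_one_iff_mul_comm]
        exact hno _ _
      exact (hc _).1 h5
    rw [h1, ← Subgroup.commutator_eq_bot_iff_le_centralizer, h1] at h4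
    exact h2 h4
  refine ⟨?_, nc⟩
  obtain ⟨x, y, hxy⟩ := nc
  have : Nontrivial (L ⧸ Subgroup.center L) := ⟨⟨_, _, hxy⟩⟩
  refine ⟨fun H hH => ?_⟩
  have hm : ∀ z : L, z.1 ∈ (H.comap (QuotientGroup.mk' (Subgroup.center L))).map L.subtype ↔
      QuotientGroup.mk' (Subgroup.center L) z ∈ H := fun z =>
    Subgroup.mem_map_iff_mem L.subtype_injective
  rcases h3 ((H.comap (QuotientGroup.mk' (Subgroup.center L))).map L.subtype)
    (Subgroup.map_subtype_le _) (fun a ha b hb => by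
      have hb' := Subgroup.map_subtype_le _ hb
      have h5 := hH.conj_mem _ ((hm ⟨b, hb'⟩).1 hb) (QuotientGroup.mk' _ ⟨a, ha⟩)
      rw [← map_inv, ← map_mul, ← map_mul] at h5
      exact (hm _).2 h5) with h4 | h4
  · left
    rw [eq_bot_iff]
    intro z hz
    obtain ⟨w, rfl⟩ := QuotientGroup.mk'_surjective _ z
    rw [Subgroup.mem_bot, ← MonoidHom.mem_ker, QuotientGroup.ker_mk']
    exact (hc w).2 (h4 ((hm w).2 hz))
  · right
    rw [eq_top_iff]
    intro z _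
    obtain ⟨w, rfl⟩ := QuotientGroup.mk'_surjective _ z
    refine (hm w).1 ?_
    rw [h4]
    exact w.2

section

variable {K V : Type} [Field K] [AddCommGroup V] [Module K V]

theorem g4_scal {p : Polar K V} {ζ : Bool → K} {z : V ≃ₗ[K] V} (hz : p.Scal ζ z)
    {W : Submodule K V} (hW : p.Gr W) {v : V} (hv : v ∈ W) : z v ∈ W := by
  obtain ⟨a, ha, b, hb, rfl⟩ := Submodule.mem_sup.1 (hW hv)
  rw [map_add, hz true a ha.2, hz false b hb.2]
  exact W.add_mem (W.smul_mem _ ha.1) (W.smul_mem _ hb.1)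

theorem g4_scal_eq {p : Polar K V} {ζ : Bool → K} {z z' : V ≃ₗ[K] V} (hz : p.Scal ζ z)
    (hz' : p.Scal ζ z') {W : Submodule K V} (hW : p.Gr W) {v : V} (hv : v ∈ W) : z v = z' v := by
  obtain ⟨a, ha, b, hb, rfl⟩ := Submodule.mem_sup.1 (hW hv)
  rw [map_add, map_add, hz true a ha.2, hz false b hb.2, hz' true a ha.2, hz' false b hb.2]

theorem g4_ext {F F' : Type} [FunLike F V V] [AddHomClass F V V] [FunLike F' V V]
    [AddHomClass F' V V] {W W' : Submodule K V} (h : IsCompl W W') {a : F} {b : F'}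
    (h1 : ∀ v ∈ W, a v = b v) (h2 : ∀ v ∈ W', a v = b v) (v : V) : a v = b v := by
  have hv : v ∈ W ⊔ W' := by
    rw [h.sup_eq_top]
    trivial
  obtain ⟨x, hx, y, hy, rfl⟩ := Submodule.mem_sup.1 hv
  rw [map_add, map_add, h1 x hx, h2 y hy]

theorem g4_dim [FiniteDimensional K V] {W W' : Submodule K V} (h : IsCompl W W') :
    ∃ T : Submodule K (End K V), finrank K T ≤ 1 + finrank K W * finrank K W ∧
      ∀ x : End K V, (∀ v, x v - v ∈ W) → (∀ v ∈ W', x v = v) → x ∈ T := by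
  obtain ⟨pr, h1, h2⟩ : ∃ pr : V →ₗ[K] W, (∀ v : W, pr v = v) ∧ ∀ v ∈ W', pr v = 0 :=
    ⟨W.projectionOnto W' h, fun v => Submodule.projectionOnto_apply_left h v,
      fun v hv => Submodule.projectionOnto_apply_right h ⟨v, hv⟩⟩
  let Φ : (W →ₗ[K] W) →ₗ[K] End K V :=
    { toFun := fun ψ => W.subtype ∘ₗ ψ ∘ₗ pr
      map_add' := fun _ _ => by ext; simp
      map_smul' := fun _ _ => by ext; simp }
  refine ⟨Submodule.span K {1} ⊔ LinearMap.range Φ, ?_, fun x a1 a2 => ?_⟩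
  · refine (Submodule.finrank_add_le_finrank_add_finrank _ _).trans (add_le_add ?_ ?_)
    · simpa using finrank_span_le_card (R := K) ({1} : Set (End K V))
    · exact (LinearMap.finrank_range_le Φ).trans (finrank_linearMap K K W W).le
  · refine Submodule.mem_sup.2 ⟨1, Submodule.subset_span rfl, x - 1,
      ⟨((x - 1).codRestrict W a1) ∘ₗ W.subtype, ?_⟩, by abel⟩
    refine LinearMap.ext (g4_ext h (fun v hv => ?_) fun v hv => ?_)
    · have := h1 ⟨v, hv⟩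
      simp only [Φ, LinearMap.coe_mk, AddHom.coe_mk, LinearMap.comp_apply, Submodule.subtype_apply,
        LinearMap.codRestrict_apply]
      rw [this]
    · simp [Φ, h2 v hv, a2 v hv]

end

theorem g4 (hB : StmtPB) (hE : StmtPE) (hS : StmtSS) (hR : StmtRL) (hW : StmtWT) (hC : StmtSC)
    (hA : StmtAdj) (hBar : StmtBar) : StmtG4 := by
  intro n
  refine ⟨n + 85, fun K V Q _ _ _ _ _ _ p π hπ hk => Or.inr ?_⟩
  rintro s hs _ ⟨U, hU, hdim, rfl⟩
  classical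
  obtain ⟨-, B2, -, -, -, B6, -⟩ := hB K V p
  obtain ⟨-, -, -, -, -, -, -, -, E9, E10, -⟩ := hE K V p
  obtain ⟨C1, C2⟩ := hC K V p
  obtain ⟨R1, R2, -, -, R5, R6⟩ := hBar K V Q p π hπ (by omega)
  have rU : 85 ≤ p.rk U := by
    have := (B6 U hU).2.2.2.2.1
    omega
  obtain ⟨U', hU'U, hU', hd', hv⟩ := (hR K V p U hU).2.2 39 (by omega)
  obtain ⟨cU, hU₀, -⟩ := B6 U' hU'
  have pp : p.perp (p.perp U') = U' := (B2 U').2
  have d0 := (B2 U').1
  have dU : finrank K U ≤ finrank K V := U.finrank_le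
  generalize hW0 : p.perp U' = U₀ at cU hU₀ pp d0 hv
  have r0 : 40 ≤ p.rk U₀ := by
    have := (B6 U₀ hU₀).2.2.2.1
    omega
  have : Finite V := Module.finite_of_finite K
  have : Finite (V ≃ₗ[K] V) :=
    Finite.of_injective (fun e : V ≃ₗ[K] V => (e : V → V)) DFunLike.coe_injective
  have : Nontrivial V := by
    obtain ⟨v, -, h1, -⟩ := hv true
    exact ⟨⟨v, 0, h1⟩⟩
  obtain ⟨S1, -, S3⟩ := hS K V p
  obtain ⟨⟨L1, L2⟩, L3, L4, L5⟩ := R6 U₀ hU₀ r0
  obtain ⟨simp0, nc0⟩ := g4_simple _ L1 L2 L3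
  have AD : p.A U₀ ≤ p.D := (E9 U₀ ⊤ le_top).trans R2
  have fixU' : ∀ x ∈ p.A U₀, ∀ v ∈ U', x v = v := fun x hx v h1 =>
    ((E10 U₀).1 hx).2 v (pp.symm ▸ h1)
  obtain ⟨φ, hφ⟩ : ∃ φ : p.A U₀ →* Polar.bar π U₀, ∀ x, (φ x).1 = π ⟨x.1, AD x.2⟩ :=
    ⟨(π.comp (Subgroup.inclusion AD)).codRestrict _ fun x => ⟨⟨x.1, AD x.2⟩, x.2, rfl⟩,
      fun _ => rfl⟩
  have sφ : Function.Surjective φ := by
    rintro ⟨_, x, hx, rfl⟩
    exact ⟨⟨x.1, hx⟩, Subtype.ext (hφ _)⟩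
  obtain ⟨π₁, hπ₁⟩ : ∃ π₁ : p.A U₀ →* Polar.bar π U₀ ⧸ Subgroup.center (Polar.bar π U₀),
      π₁ = (QuotientGroup.mk' _).comp φ := ⟨_, rfl⟩
  have s1 : Function.Surjective π₁ := by
    rw [hπ₁]
    exact (QuotientGroup.mk'_surjective _).comp sφ
  have k1 : ∀ x ∈ π₁.ker, x.1 ∈ Subgroup.centralizer (p.A U₀ : Set (V ≃ₗ[K] V)) := by
    intro x hx
    rw [hπ₁, MonoidHom.mem_ker, MonoidHom.comp_apply, ← MonoidHom.mem_ker,
      QuotientGroup.ker_mk', Subgroup.mem_center_iff] at hx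
    refine L4 ⟨x.1, AD x.2⟩ x.2 ?_
    rw [← hφ, Subgroup.mem_centralizer_iff]
    exact fun g hg => congrArg Subtype.val (hx ⟨g, hg⟩)
  refine ⟨Polar.bar π U₀, _, inferInstance, QuotientGroup.mk' (Subgroup.center _), L1,
    QuotientGroup.mk'_surjective _, (QuotientGroup.ker_mk' _).le, simp0, nc0, ?_, ?_, ?_⟩
  · obtain ⟨T, hT, mT⟩ := g4_dim cU.symm
    refine hA.2.2.2.2 K V _ _ (p.A U₀) π₁ T s1 (fun x hx => ?_) simp0 nc0
      (fun x hx => mT _ ((E10 U₀).2 x hx) (fixU' x hx)) (hT.trans ?_)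
    · rw [Subgroup.mem_center_iff]
      exact fun g => Subtype.ext (Subgroup.mem_centralizer_iff.1 (k1 x hx) g.1 g.2)
    · have h1 : finrank K U₀ ≤ s + 80 := by omega
      have h2 := Nat.mul_le_mul h1 h1
      nlinarith
  · have hz : ∀ x : π₁.ker, ∃ z : {z : V ≃ₗ[K] V | ∃ ζ, p.Scal ζ z}, ∀ v ∈ U₀, x.1.1 v = z.1 v := by
      intro x
      obtain ⟨ζ, z, h1, -, -, h2⟩ := (C2 U₀ hU₀ (by omega)).2 x.1.1.toAddEquiv
        (S1 _ ((E10 U₀).1 x.1.2).1) fun e he v => by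
          have h3 := Subgroup.mem_centralizer_iff.1 (k1 x.1 x.2) e (Subgroup.subset_closure he)
          exact DFunLike.congr_fun h3 v
      exact ⟨⟨z, ζ, h1⟩, h2⟩
    choose z hz using hz
    have c1 : Nat.card π₁.ker ≤ Nat.card K ^ 2 := by
      refine (Nat.card_le_card_of_injective z fun x y hxy => ?_).trans C1
      refine Subtype.ext (Subtype.ext (LinearEquiv.ext (g4_ext cU (fun v h1 => ?_) fun v h1 => ?_)))
      · rw [fixU' _ x.1.2 v h1, fixU' _ y.1.2 v h1]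
      · rw [hz x v h1, hz y v h1, hxy]
    obtain ⟨v, h1, h2, h3⟩ := hv true
    have c2 := (hW K V p U₀ hU₀ 1 (fun _ => true) (fun _ => v) (by omega)
      ⟨fun _ => h1.2, fun a ha i => by
        rw [Fin.sum_univ_one] at ha
        have h4 : a 0 • v ∈ U₀ ⊓ p.perp U₀ := ⟨U₀.smul_mem _ h3, ha⟩
        rw [hU₀.2, Submodule.mem_bot, smul_eq_zero] at h4
        rw [Subsingleton.elim i 0]
        exact h4.resolve_right h2⟩).2
    have c3 : Set.ncard {f : Fin 1 → V | ∃ e ∈ p.A U₀, ∀ i, f i = e v} ≤ Nat.card (p.A U₀) := by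
      refine le_trans (Set.ncard_le_ncard (t := (fun (e : V ≃ₗ[K] V) (_ : Fin 1) => e v) ''
        (p.A U₀ : Set (V ≃ₗ[K] V))) ?_) (Set.ncard_image_le (Set.toFinite _))
      rintro f ⟨e, he, hf⟩
      exact ⟨e, he, (funext hf).symm⟩
    have c4 := π₁.ker.card_mul_index
    rw [Subgroup.index_ker, MonoidHom.range_eq_top.2 s1, Subgroup.card_top] at c4
    have q0 : 0 < Nat.card K := Nat.card_pos
    have c5 : Nat.card K ^ 3 ≤ Nat.card K ^ (1 * (p.rk U₀ - 1 - 3)) :=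
      Nat.pow_le_pow_right q0 (by omega)
    have c6 := (c5.trans (c2.trans c3)).trans (c4.symm.le.trans (Nat.mul_le_mul_right _ c1))
    rw [pow_succ] at c6
    exact Nat.le_of_mul_le_mul_left c6 (pow_pos q0 2)
  · rintro α ⟨h, sh, hα⟩ hfix
    obtain ⟨ζ, z, z1, -, z3, z4⟩ :=
      (R6 U hU (by omega)).2.2.2 h sh α (fun x y _ => hα x y) hfix
    have m1 : Set.MapsTo h (U' : Set V) (U' : Set V) := fun v h1 => by
      rw [z4 v (hU'U h1)]
      exact g4_scal z1 hU'.1 h1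
    have m2 := ((Set.toFinite _).injOn_iff_bijOn_of_mapsTo m1).1 h.injective.injOn
    have β0 := (S3 h sh).2.2.1
    have m3 : ∀ v, h v ∈ U₀ ↔ v ∈ U₀ := fun v => by
      rw [← hW0]
      refine ⟨fun h1 u hu => (β0 v u).1 (h1 _ (m1 hu)), fun h1 u hu => ?_⟩
      obtain ⟨w, hw, rfl⟩ := m2.surjOn hu
      exact (β0 v w).2 (h1 w hw)
    refine ⟨R5 h sh U₀ U₀ m3 α fun x y _ => hα x y, fun hfix' => ?_⟩
    obtain ⟨ζ', z', z1', -, -, z4'⟩ := L5 h sh α (fun x y _ => hα x y) hfix'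
    have e1 : ζ' = ζ := funext fun t => by
      obtain ⟨v, h1, h2, h3⟩ := hv t
      have h4 := (z4' v h3).symm.trans (z4 v h1.1)
      rw [z1' t v h1.2, z1 t v h1.2] at h4
      exact smul_left_injective K h2 h4
    subst e1
    have e2 : ∀ v, h v = z v := g4_ext cU (fun v h1 => z4 v (hU'U h1))
      fun v h1 => (z4' v h1).trans (g4_scal_eq z1' z1 hU₀.1 h1)
    ext y
    obtain ⟨x, rfl⟩ := hπ.surj y
    refine hα x x fun v => ?_
    rw [e2, e2]
    exact (DFunLike.congr_fun (z3 x.1 (R1 x.2)) v).symm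

end Pool.Agent.Work.MP_11a08a_al.Lin
end

-- merged part: Pool.Agent.Work.MP_11a08a_al.Lin.A2
section
/-!
`E = 2 ^ n`, `D = n * E`, `r = D ^ 2`, `k = 5 r + n ^ 3 + 5 n + 10`.  `QR`: take an injection `β : Fin r × Fin 5 → Fin m` with range outside `S`, `X i = aFix (complement of the block of i)`; `X i ≤ aFix S`, perfect and nontrivial, `Ncl` by item 3 of `hF`, different blocks commute (disjoint supports); `hQ`.
Moving lemma: if `Ncl (aFix S) B`, every `v ∈ X` is moved by `B` and `card X * card T < m - n`, then some `b ∈ B` maps `X` outside `T`.  Indeed some `b v` lies outside `S` (otherwise `{x ∈ B | ∀ b ∈ B, x (b v) = b v}` is normal in `B` and contains `aFix S`), so the orbit of `v` contains the complement of `S` (item 5, `j = 1`); count the `b` with `b v ∈ T` by orbit and stabiliser.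
`Gen`: `J = B ⊔ B'`, `X` = the points of `S` moved by `J`, enumerated by `v : Fin j → Fin m`, `card J ≤ m ^ j * card (aFix S)`; `X'` = those moved by `B'`, `X''` = the others.  Choose `a k` by induction mapping `X''` outside `⋃ i < k, a i S`.  `dc B' x⁻¹` is the inverse of `dc B' x`, so let `x = (a i)⁻¹ * a k`, `i < k`; take `b ∈ B'` mapping `X'` outside `x⁻¹ S`;
`y = x b` maps `X` outside `S`.  By item 5 every injective tuple `f` outside `S` is `e f ∘ y ∘ v`, there are `(m - card S).descFactorial j ≥ (m - 2 n) ^ j` of them, `(f, a) ↦ e f * y * a` is injective into `dc B' x`, and `m ≤ 2 (m - 2 n)`.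
-/

set_option autoImplicit false

open Module
open scoped commutatorElement

namespace Pool.Agent.Work.MP_11a08a_al.Lin

open Finset

section Aux

variable {m : ℕ} {S : Finset (Fin m)} {B B' : Subgroup (alternatingGroup (Fin m))}

theorem a2_mem {x : alternatingGroup (Fin m)} : x ∈ aFix S ↔ ∀ i ∈ S, x.1 i = i := Iff.rfl

theorem a2_qr (hF : StmtAF) (hQ : StmtQRm) {D : ℕ} (h : S.card + 5 * D ^ 2 + 5 ≤ m) :
    QR D (aFix S) := by
  obtain ⟨β, hβ⟩ := Function.Embedding.exists_of_card_le_finset (α := Fin (D ^ 2) × Fin 5)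
    (s := Sᶜ) (by
      rw [card_compl, Fintype.card_prod, Fintype.card_fin, Fintype.card_fin, Fintype.card_fin]
      omega)
  have hc : ∀ i, (univ.image fun t => β (i, t))ᶜ.card + 5 ≤ m := fun i => by
    rw [card_compl, card_image_of_injective _ fun t t' e => (Prod.mk.inj (β.injective e)).2,
      card_univ, Fintype.card_fin, Fintype.card_fin]
    omega
  refine hQ _ _ (D ^ 2) D (fun i => aFix (univ.image fun t => β (i, t))ᶜ) le_rfl
    (fun i => ⟨(hF m _ (hc i)).1.1, fun x hx v hv => hx v (mem_compl.2 fun k => ?_),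
      fun M h1 h2 h3 => ?_⟩) fun i j hij x hx y hy => Subtype.ext ?_
  · obtain ⟨t, -, rfl⟩ := mem_image.1 k
    exact mem_compl.1 (hβ ⟨_, rfl⟩) hv
  · refine ((hF m S (by omega)).2.2.1 M h2 h3).resolve_left fun e => ?_
    exact (hF m _ (hc i)).1.2 (le_bot_iff.1 (e ▸ h1))
  · refine Equiv.Perm.Disjoint.commute fun v => ?_
    by_cases k : v ∈ univ.image fun t => β (i, t)
    · refine Or.inr (hy v (mem_compl.2 fun k' => ?_))
      obtain ⟨t, -, rfl⟩ := mem_image.1 k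
      obtain ⟨t', -, e⟩ := mem_image.1 k'
      exact hij (Prod.mk.inj (β.injective e)).1.symm
    · exact Or.inl (hx v (mem_compl.2 k))

theorem a2_out (hB : Ncl (aFix S) B) {v : Fin m} (hv : ∃ b ∈ B, b.1 v ≠ v) :
    ∃ b ∈ B, b.1 v ∉ S := by
  classical
  by_contra hn
  push Not at hn
  obtain ⟨b0, h0, h1⟩ := hv
  have h := hB.2 (B ⊓ aFix (univ.filter fun w => ∃ b ∈ B, b.1 v = w))
    (le_inf hB.1 fun x hx w hw => by
      obtain ⟨b, hb, rfl⟩ := (mem_filter.1 hw).2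
      exact hx _ (hn b hb)) inf_le_left fun c hc x hx =>
    ⟨B.mul_mem (B.mul_mem hc hx.1) (B.inv_mem hc), fun w hw => by
      obtain ⟨b, hb, rfl⟩ := (mem_filter.1 hw).2
      have k := hx.2 ((c⁻¹ * b).1 v)
        (mem_filter.2 ⟨mem_univ _, _, B.mul_mem (B.inv_mem hc) hb, rfl⟩)
      change c.1 (x.1 ((c⁻¹ * b).1 v)) = b.1 v
      rw [k]
      exact c.1.apply_symm_apply _⟩
  rw [← h] at h0
  exact h1 (h0.2 v (mem_filter.2 ⟨mem_univ _, 1, B.one_mem, rfl⟩))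

open Classical in
theorem a2_fib (hF : StmtAF) (hm : S.card + 5 ≤ m) (hB : Ncl (aFix S) B) {v : Fin m}
    (hv : ∃ b ∈ B, b.1 v ≠ v) (t : Fin m) :
    Sᶜ.card * (univ.filter fun b => b ∈ B ∧ b.1 v = t).card ≤
      (univ.filter fun b => b ∈ B).card := by
  obtain ⟨b1, h1, h2⟩ := a2_out hB hv
  have hc : ∀ w, ∃ c : alternatingGroup (Fin m), w ∉ S → c ∈ B ∧ c.1 v = w := fun w => by
    by_cases hw : w ∈ S
    · exact ⟨1, fun k => absurd hw k⟩
    obtain ⟨x, hx, e⟩ := (hF m S hm).2.2.2.2 1 (fun _ => b1.1 v) (fun _ => w) (by omega)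
      (Function.injective_of_subsingleton _) (Function.injective_of_subsingleton _)
      (fun _ => h2) fun _ => hw
    exact ⟨x * b1, fun _ => ⟨B.mul_mem (hB.1 hx) h1, e 0⟩⟩
  choose c hc using hc
  rcases (univ.filter fun b => b ∈ B ∧ b.1 v = t).eq_empty_or_nonempty with e | ⟨b0, h0⟩
  · rw [e, card_empty, mul_zero]
    exact Nat.zero_le _
  obtain ⟨-, p1, p2⟩ := mem_filter.1 h0
  have key : ∀ w ∉ S, ∀ b : alternatingGroup (Fin m), b.1 v = t → (c w * b0⁻¹ * b).1 v = w :=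
    fun w hw b hb => by
      change (c w).1 (b0.1.symm (b.1 v)) = w
      rw [hb, ← p2, Equiv.symm_apply_apply, (hc w hw).2]
  rw [← card_product]
  refine card_le_card_of_injOn (fun p => c p.1 * b0⁻¹ * p.2) (fun p hp => ?_) fun p hp q hq e => ?_
  · obtain ⟨q1, q2⟩ := mem_product.1 hp
    exact mem_filter.2 ⟨mem_univ _, B.mul_mem (B.mul_mem (hc _ (mem_compl.1 q1)).1 (B.inv_mem p1))
      (mem_filter.1 q2).2.1⟩
  · obtain ⟨q1, q2⟩ := mem_product.1 hp
    obtain ⟨r1, r2⟩ := mem_product.1 hq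
    have e1 : p.1 = q.1 := by
      rw [← key p.1 (mem_compl.1 q1) p.2 (mem_filter.1 q2).2.2,
        ← key q.1 (mem_compl.1 r1) q.2 (mem_filter.1 r2).2.2]
      exact congrArg (fun g : alternatingGroup (Fin m) => g.1 v) e
    refine Prod.ext e1 ?_
    simp only [e1] at e
    exact mul_left_cancel e

theorem a2_mov (hF : StmtAF) (hm : S.card + 5 ≤ m) (hB : Ncl (aFix S) B) (X T : Finset (Fin m))
    (hX : ∀ v ∈ X, ∃ b ∈ B, b.1 v ≠ v) (hc : X.card * T.card + S.card < m) :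
    ∃ b ∈ B, ∀ v ∈ X, b.1 v ∉ T := by
  classical
  by_contra hn
  push Not at hn
  have h1 : (univ.filter fun b => b ∈ B) ⊆ (X ×ˢ T).biUnion fun p =>
      univ.filter fun b => b ∈ B ∧ b.1 p.1 = p.2 := fun b hb => by
    obtain ⟨v, hv, ht⟩ := hn b (mem_filter.1 hb).2
    exact mem_biUnion.2 ⟨(v, b.1 v), mem_product.2 ⟨hv, ht⟩,
      mem_filter.2 ⟨mem_univ _, (mem_filter.1 hb).2, rfl⟩⟩
  have h2 := Nat.mul_le_mul_left Sᶜ.card ((card_le_card h1).trans card_biUnion_le)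
  rw [mul_sum] at h2
  have h3 := h2.trans (sum_le_card_nsmul _ _ (univ.filter fun b => b ∈ B).card fun p hp => by
    convert a2_fib hF hm hB (hX p.1 (mem_product.1 hp).1) p.2)
  rw [card_product, smul_eq_mul, card_compl, Fintype.card_fin] at h3
  have h4 : 0 < (univ.filter fun b => b ∈ B).card :=
    card_pos.2 ⟨1, mem_filter.2 ⟨mem_univ _, B.one_mem⟩⟩
  have h5 := Nat.le_of_mul_le_mul_right h3 h4
  omega

theorem a2_card {j : ℕ} (v : Fin j → Fin m) (J : Subgroup (alternatingGroup (Fin m)))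
    (hJ : ∀ w ∈ S, w ∈ Set.range v ∨ ∀ x ∈ J, x.1 w = w) :
    Nat.card J ≤ m ^ j * Nat.card (aFix S) := by
  have hc : ∀ f : Fin j → Fin m, ∃ c : J, ∀ x : J, (∀ i, x.1.1 (v i) = f i) →
      ∀ i, c.1.1 (v i) = f i := fun f => by
    by_cases k : ∃ x : J, ∀ i, x.1.1 (v i) = f i
    · obtain ⟨x, hx⟩ := k
      exact ⟨x, fun _ _ => hx⟩
    · exact ⟨1, fun x hx => absurd ⟨x, hx⟩ k⟩
  choose c hc using hc
  have hm : ∀ x : J, ((c fun i => x.1.1 (v i))⁻¹ * x).1 ∈ aFix S := fun x w hw => by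
    rcases hJ w hw with ⟨i, rfl⟩ | k
    · change (c fun i => x.1.1 (v i)).1.1.symm (x.1.1 (v i)) = v i
      rw [Equiv.symm_apply_eq]
      exact (hc _ x (fun _ => rfl) i).symm
    · exact k _ (Subtype.prop _)
  have h := Nat.card_le_card_of_injective
    (fun x : J => ((fun i => x.1.1 (v i), ⟨_, hm x⟩) : (Fin j → Fin m) × aFix S)) fun x y e => by
      obtain ⟨e1, e2⟩ := Prod.mk.inj e
      have e3 : (c fun i => x.1.1 (v i))⁻¹ * x = (c fun i => y.1.1 (v i))⁻¹ * y :=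
        Subtype.ext (Subtype.mk.inj e2)
      rw [e1] at e3
      exact mul_left_cancel e3
  rwa [Nat.card_prod, Nat.card_fun, Nat.card_fin, Nat.card_fin] at h

theorem a2_dc (hF : StmtAF) {j : ℕ} (hm : S.card + j + 5 ≤ m) (hB : aFix S ≤ B')
    {v : Fin j → Fin m} (hv : Function.Injective v) (hS : ∀ i, v i ∈ S)
    {x b : alternatingGroup (Fin m)} (hb : b ∈ B') (hy : ∀ i, (x * b).1 (v i) ∉ S) :
    (m - S.card).descFactorial j * Nat.card (aFix S) ≤ (dc B' x).ncard := by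
  have he : ∀ f : Fin j ↪ ↥(Sᶜ), ∃ e ∈ aFix S, ∀ i, e.1 ((x * b).1 (v i)) = f i := fun f =>
    (hF m S (by omega)).2.2.2.2 j (fun i => (x * b).1 (v i)) (fun i => f i) (by omega)
      ((x * b).1.injective.comp hv) (Subtype.val_injective.comp f.injective) hy
      fun i => mem_compl.1 (f i).2
  choose e he he' using he
  have key : ∀ (f : Fin j ↪ ↥(Sᶜ)) (a : aFix S) (i : Fin j),
      (e f * x * (b * a.1)).1 (v i) = f i := fun f a i => by
    change (e f).1 ((x * b).1 (a.1.1 (v i))) = f i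
    rw [a.2 _ (hS i), he']
  have h := Nat.card_le_card_of_injective
    (fun p : (Fin j ↪ ↥(Sᶜ)) × aFix S => (⟨e p.1 * x * (b * p.2.1), _, hB (he _), _,
      B'.mul_mem hb (hB p.2.2), rfl⟩ : dc B' x)) fun p q r => by
      have r1 : e p.1 * x * (b * p.2.1) = e q.1 * x * (b * q.2.1) := congrArg Subtype.val r
      have r2 : p.1 = q.1 := Function.Embedding.ext fun i => Subtype.ext (by
        rw [← key p.1 p.2 i, ← key q.1 q.2 i, r1])
      rw [r2] at r1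
      exact Prod.ext r2 (Subtype.ext (mul_left_cancel (mul_left_cancel r1)))
  rwa [Nat.card_prod, Nat.card_eq_fintype_card, Fintype.card_embedding_eq, Fintype.card_coe,
    card_compl, Fintype.card_fin, Fintype.card_fin, Nat.card_coe_set_eq] at h

theorem a2_inv {Q : Type} [Group Q] (B : Subgroup Q) (x : Q) :
    (dc B x⁻¹).ncard = (dc B x).ncard := by
  rw [← Set.ncard_image_of_injective _ inv_injective]
  congr 1
  ext y
  constructor
  · rintro ⟨_, ⟨b, hb, b', hb', rfl⟩, rfl⟩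
    exact ⟨_, B.inv_mem hb', _, B.inv_mem hb, by group⟩
  · rintro ⟨b, hb, b', hb', rfl⟩
    exact ⟨_, ⟨_, B.inv_mem hb', _, B.inv_mem hb, rfl⟩, by group⟩

theorem a2_seq (hF : StmtAF) {n : ℕ} (hS : S.card ≤ n) (hm : n * (n * n) + n + 5 ≤ m)
    (hB : Ncl (aFix S) B) (X : Finset (Fin m)) (hn : X.card ≤ n)
    (hX : ∀ v ∈ X, ∃ b ∈ B, b.1 v ≠ v) : ∀ k ≤ n, ∃ a : ℕ → alternatingGroup (Fin m),
      (∀ i, a i ∈ B) ∧ ∀ i l, i < l → l < k → ∀ v ∈ X, ((a i)⁻¹ * a l).1 v ∉ S := by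
  intro k
  induction k with
  | zero => exact fun _ => ⟨fun _ => 1, fun _ => B.one_mem, fun _ _ _ h => absurd h (by omega)⟩
  | succ k ih =>
    intro hk
    obtain ⟨a, h1, h2⟩ := ih (by omega)
    have hT : ((range k).biUnion fun i => S.image (a i).1).card ≤ n * n :=
      (card_biUnion_le_card_mul _ _ n fun i _ => card_image_le.trans hS).trans
        (Nat.mul_le_mul_right n (by rw [card_range]; omega))
    obtain ⟨b, hb, hb'⟩ := a2_mov hF (by omega) hB X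
      ((range k).biUnion fun i => S.image (a i).1) hX (by
      have := Nat.mul_le_mul hn hT
      omega)
    refine ⟨Function.update a k b, fun i => ?_, fun i l hi hl v hv => ?_⟩
    · rcases eq_or_ne i k with rfl | e
      · rwa [Function.update_self]
      · rw [Function.update_of_ne e]
        exact h1 i
    · rw [Function.update_of_ne (show i ≠ k by omega)]
      rcases eq_or_ne l k with rfl | e
      · rw [Function.update_self]
        exact fun q => hb' v hv (mem_biUnion.2 ⟨i, mem_range.2 hi,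
          mem_image.2 ⟨_, q, (a i).1.apply_symm_apply _⟩⟩)
      · rw [Function.update_of_ne e]
        exact h2 i l hi (by omega) v hv

theorem a2_gen (hF : StmtAF) {n : ℕ} (hS : S.card ≤ n) (hm : n * (n * n) + n * n + 4 * n + 5 ≤ m)
    (hB : Ncl (aFix S) B) (hB' : Ncl (aFix S) B') : Gen n (2 ^ n) B B' := by
  classical
  set X' := S.filter fun v => ∃ b ∈ B', b.1 v ≠ v with hX'
  set X'' := S.filter fun v => (∀ b ∈ B', b.1 v = v) ∧ ∃ b ∈ B, b.1 v ≠ v with hX''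
  have hsub : X' ∪ X'' ⊆ S := union_subset (filter_subset _ _) (filter_subset _ _)
  have hj : (X' ∪ X'').card ≤ n := (card_le_card hsub).trans hS
  obtain ⟨a, h1, h2⟩ := a2_seq hF hS (by omega) hB X''
    ((card_le_card (filter_subset _ _)).trans hS) (fun v hv => (mem_filter.1 hv).2.2) n le_rfl
  set v := (X' ∪ X'').orderEmbOfFin rfl with hv
  have hr : ∀ i, v i ∈ X' ∪ X'' := fun i => orderEmbOfFin_mem _ _ i
  have hJ := a2_card (S := S) v (B ⊔ B') fun w hw => by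
    by_cases k : w ∈ X' ∪ X''
    · left
      rw [hv, range_orderEmbOfFin]
      exact k
    · right
      rw [mem_union, not_or, hX', hX'', mem_filter, mem_filter] at k
      have k1 : ∀ b ∈ B', b.1 w = w := fun b hb => by
        by_contra q
        exact k.1 ⟨hw, b, hb, q⟩
      have k2 : ∀ b ∈ B, b.1 w = w := fun b hb => by
        by_contra q
        exact k.2 ⟨hw, k1, b, hb, q⟩
      have k3 : B ⊔ B' ≤ aFix {w} := sup_le
        (fun b hb i hi => by rw [mem_singleton.1 hi]; exact k2 b hb)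
        fun b hb i hi => by rw [mem_singleton.1 hi]; exact k1 b hb
      exact fun x hx => k3 hx w (mem_singleton_self w)
  have hp : m ^ (X' ∪ X'').card ≤ 2 ^ n * (m - S.card).descFactorial (X' ∪ X'').card := by
    refine (Nat.pow_le_pow_left (show m ≤ 2 * (m - S.card + 1 - (X' ∪ X'').card) by omega)
      _).trans ?_
    rw [mul_pow]
    exact Nat.mul_le_mul (Nat.pow_le_pow_right (by omega) hj) (Nat.pow_sub_le_descFactorial _ _)
  have main : ∀ i l, i < l → l < n →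
      Nat.card ↥(B ⊔ B') ≤ 2 ^ n * (dc B' ((a i)⁻¹ * a l)).ncard := fun i l hi hl => by
    obtain ⟨b, hb, hb'⟩ := a2_mov hF (by omega) hB' X' (S.image ((a i)⁻¹ * a l).1.symm)
      (fun w hw => (mem_filter.1 hw).2) (by
        have := Nat.mul_le_mul ((card_le_card (filter_subset
          (fun v => ∃ b ∈ B', b.1 v ≠ v) S)).trans hS)
          ((card_image_le (f := ((a i)⁻¹ * a l).1.symm)).trans hS)
        rw [← hX'] at this
        omega)
    have h3 := a2_dc hF (by omega) hB'.1 v.injective (fun i => hsub (hr i))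
      (x := (a i)⁻¹ * a l) hb fun t => by
        change ((a i)⁻¹ * a l).1 (b.1 (v t)) ∉ S
        rcases mem_union.1 (hr t) with k | k
        · exact fun q => hb' _ k (mem_image.2 ⟨_, q, Equiv.symm_apply_apply _ _⟩)
        · rw [(mem_filter.1 k).2.1 b hb]
          exact h2 i l hi hl _ k
    refine hJ.trans ((Nat.mul_le_mul_right _ hp).trans ?_)
    rw [mul_assoc]
    exact Nat.mul_le_mul_left _ h3
  refine ⟨fun i => a i, fun i => h1 i, fun i l hil => ?_⟩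
  rcases lt_or_gt_of_ne (Fin.val_ne_of_ne hil) with k | k
  · exact main i l k l.2
  · rw [← a2_inv, mul_inv_rev, inv_inv]
    exact main l i k i.2

end Aux

theorem a2 (hF : StmtAF) (hQ : StmtQRm) : StmtA2 := by
  intro n
  refine ⟨5 * (n * 2 ^ n) ^ 2 + (n * (n * n) + n * n + 4 * n + 5), fun m hm =>
    ⟨2 ^ n, n * 2 ^ n, le_rfl, ?_⟩⟩
  rintro _ ⟨S, hS, rfl⟩
  exact ⟨a2_qr hF hQ (by omega), fun B B' hB hB' => a2_gen hF hS (by omega) hB hB'⟩

end Pool.Agent.Work.MP_11a08a_al.Lin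
end

-- merged part: Pool.Agent.Work.MP_11a08a_al.Lin.Split
section
/-!
`M = C.sup id`, `MU M`, `Nm t M` for `t ∈ S` (`hJ`).  `T = {a ∈ next_U M | ∃ x, Cm M x ∧ a * x ∈ S}` (`next_U`, `next_comm`, `next_cm` in `Sol/Next`) is a subgroup containing `M`; `hC` with `R = {(s, a) | s ∈ S, a ∈ next_U M, a⁻¹ * s centralises M}` shows that it is finite modulo `Zs` (item v of `hM` with `x = 1`).  Write `t i = A i * x i` by item iv.
`i ~ j` iff `Cen ((t i)⁻¹ * t j) M` is an equivalence relation; `(t i)⁻¹ t j = (A i)⁻¹ A j * ((x i)⁻¹ x j)`, so `(A i)⁻¹ A j` and `(t i)⁻¹ t j` act on `M` in the same way.  Choose representatives `rep : ι → ι` with `rep i₀ = i₀`, `J' = J.image rep`, `z c = (A c)⁻¹ * ∑ i in the class of c, α i • t i`, which commutes with `M`; `∑ c ∈ J', A c * z c` is the whole sum.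
For `c ≠ c'` in `J'`, `u = (A c)⁻¹ A c'` does not centralise some `L ∈ C`; `str_cj u⁻¹ L ∈ C` is `L` or commutes with `L`; `MU L` from `mu {L}`; `Fx L = ⊥` by item iii (`y - 1 ∈ spn L` vanishes on `Fx L`) and `ns`.  So `hB` gives `Sm (2 τ) u`, `hG` with `2 τ` gives the hypothesis of `hT` with `K = 2 k`.
-/

set_option autoImplicit false

open Finset Module Pool.Agent.Work.MP_11a08a_al.Sol
open scoped commutatorElement

namespace Pool.Agent.Work.MP_11a08a_al.Lin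

/-- The correspondence between `S` and the first factors of its elements. -/
theorem split_grp {G : Type} [Group G] (S U K : Subgroup G)
    (h : ∀ a ∈ U, ∀ x ∈ K, a * x = x * a) :
    ∃ R : Subgroup (G × G), ∀ p, p ∈ R ↔ p.1 ∈ S ∧ p.2 ∈ U ∧ p.2⁻¹ * p.1 ∈ K := by
  refine ⟨⟨⟨⟨{p | p.1 ∈ S ∧ p.2 ∈ U ∧ p.2⁻¹ * p.1 ∈ K}, ?_⟩, S.one_mem, U.one_mem, ?_⟩, ?_⟩,
    fun _ => Iff.rfl⟩
  · rintro ⟨s, a⟩ ⟨s', a'⟩ ⟨h1, h2, h3⟩ ⟨h4, h5, h6⟩
    refine ⟨S.mul_mem h1 h4, U.mul_mem h2 h5, ?_⟩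
    have e : (a * a')⁻¹ * (s * s') = a'⁻¹ * (a⁻¹ * s) * s' := by group
    show (a * a')⁻¹ * (s * s') ∈ K
    rw [e, h _ (U.inv_mem h5) _ h3, mul_assoc]
    exact K.mul_mem h3 h6
  · show (1 : G)⁻¹ * 1 ∈ K
    rw [inv_mul_cancel]
    exact K.one_mem
  · rintro ⟨s, a⟩ ⟨h1, h2, h3⟩
    refine ⟨S.inv_mem h1, U.inv_mem h2, ?_⟩
    have e : a⁻¹⁻¹ * s⁻¹ = a * (a⁻¹ * s)⁻¹ * a⁻¹ := by group
    show a⁻¹⁻¹ * s⁻¹ ∈ K
    rw [e, h _ h2 _ (K.inv_mem h3), mul_inv_cancel_right]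
    exact K.inv_mem h3

theorem split_fin (hC : StmtCor) {G : Type} [Group G] {S U K Z : Subgroup G}
    {R : Subgroup (G × G)} (hR : ∀ p, p ∈ R ↔ p.1 ∈ S ∧ p.2 ∈ U ∧ p.2⁻¹ * p.1 ∈ K) (hZ : Z ≤ S)
    (hf : Z.relIndex S ≠ 0) (h1 : ∀ x ∈ U, x ∈ K → x ∈ Z) (h2 : ∀ z ∈ Z, z ∈ K) :
    ∃ T : Subgroup G, Z.relIndex T ≠ 0 ∧ ∀ p ∈ R, p.2 ∈ T := by
  refine ⟨R.map (MonoidHom.snd G G), ((hC G G Z S Z (R.map (MonoidHom.snd G G)) R
    (fun p hp => ⟨((hR p).1 hp).1, p, hp, rfl⟩) ?_ (fun x hx => ?_) fun z hz => ?_).1 hf).1,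
    fun p hp => ⟨p, hp, rfl⟩⟩
  · rintro _ ⟨p, hp, rfl⟩
    exact ⟨p.1, hp⟩
  · obtain ⟨-, h3, h4⟩ := (hR _).1 hx
    rw [mul_one, K.inv_mem_iff] at h4
    exact h1 x h3 h4
  · refine (hR _).2 ⟨hZ hz, U.one_mem, ?_⟩
    rw [inv_one, one_mul]
    exact h2 z hz

theorem split_cen {G : Type} [Group G] {t : G} {N : Subgroup G} :
    Cen t N ↔ t ∈ Subgroup.centralizer (N : Set G) :=
  ⟨fun h y hy => (h y hy).symm, fun h y hy => (h y hy).symm⟩

section

variable {W : Type} [AddCommGroup W] [Module ℂ W] [FiniteDimensional ℂ W] [Nontrivial W]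

theorem split_fx (hM : StmtMU) {L : Subgroup (End ℂ W)ˣ} (h1 : MU L) (h2 : ¬ L ≤ Zs ℂ W) :
    Fx L = ⊥ := by
  by_contra h0
  refine h2 fun y hy => ⟨1, one_ne_zero, ?_⟩
  have h3 := (hM ℂ W L h1).2.2.1 (Fx L) h0 (fun u hu w hw => by rw [hw u hu]; exact hw)
    ((y : End ℂ W) - 1) (Submodule.sub_mem _ (next_mem hy) (next_mem L.one_mem)) fun w hw => by
      rw [LinearMap.sub_apply, hw y hy, End.one_apply, sub_self]
  rw [one_smul]
  exact sub_eq_zero.1 h3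

omit [FiniteDimensional ℂ W] [Nontrivial W] in
theorem split_UK {M : Subgroup (End ℂ W)ˣ} : ∀ a ∈ next_U M,
    ∀ x ∈ Subgroup.centralizer (M : Set (End ℂ W)ˣ), a * x = x * a := fun _ ha _ hx =>
  Units.ext (next_comm ha.1 (next_cm.1 hx))

/-- The first factor of an element that does not centralise all components has small trace. -/
theorem split_sm (hM : StmtMU) (hB : StmtBigT) {d : ℕ} {τ : ℝ} {T : Subgroup (End ℂ W)ˣ}
    {C : Finset (Subgroup (End ℂ W)ˣ)} (hc : Comp d C) (hb : ∀ L ∈ C, BigG τ L ∧ L ≤ T)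
    (hT : (Zs ℂ W).relIndex T ≠ 0) {s a : (End ℂ W)ˣ} (hs : NmC s C) (ha : a ∈ T)
    (hU : a ∈ next_U (C.sup id))
    (hx : a⁻¹ * s ∈ Subgroup.centralizer ((C.sup id : Subgroup (End ℂ W)ˣ) : Set (End ℂ W)ˣ))
    (hn : ¬ Cen s (C.sup id)) : Sm (2 * τ) a := by
  obtain ⟨L, hL, h1⟩ : ∃ L ∈ C, ¬ Cen s L := by
    by_contra h0
    push Not at h0
    have h2 : C.sup id ≤ Subgroup.centralizer {s} := Finset.sup_le fun L hL y hy =>
      Subgroup.mem_centralizer_singleton_iff.2 (h0 L hL y hy).symm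
    exact hn fun y hy => (Subgroup.mem_centralizer_singleton_iff.1 (h2 hy)).symm
  have hLM : L ≤ C.sup id := Finset.le_sup (f := id) hL
  have hmu : MU L := by
    have h2 := hc.mu {L} (Finset.singleton_subset_iff.2 hL)
    rwa [Finset.sup_singleton] at h2
  have hxL : a⁻¹ * s ∈ Subgroup.centralizer (L : Set (End ℂ W)ˣ) :=
    Subgroup.centralizer_le hLM hx
  refine hB W τ T L a hT (hb L hL).2 ha (hb L hL).1 (split_fx hM hmu (hc.ns L hL)) ?_
  have hL' : str_cj s⁻¹ L ∈ C := (hs L hL).2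
  by_cases e : str_cj s⁻¹ L = L
  · refine Or.inl ⟨?_, fun h2 => h1 (split_cen.2 ?_)⟩
    · have h2 : s ∈ Subgroup.normalizer (L : Set (End ℂ W)ˣ) :=
        Subgroup.mem_normalizer_iff.2 fun y => by
          have h3 := str_mem_cj (t := s⁻¹) (x := y) (M := L)
          rwa [e, inv_inv] at h3
      have h3 := Subgroup.mul_mem _ h2
        (Subgroup.inv_mem _ (Subgroup.centralizer_le_normalizer _ hxL))
      rwa [mul_inv_rev, inv_inv, mul_inv_cancel_left] at h3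
    · have h3 := Subgroup.mul_mem _ (split_cen.1 h2) hxL
      rwa [mul_inv_cancel_left] at h3
  · refine Or.inr ⟨hmu, fun x hx' y hy => hc.cm _ hL' _ hL e _ ?_ y hy⟩
    have h2 : a⁻¹ * x * a ∈ next_U (C.sup id) := Subgroup.mul_mem _ (Subgroup.mul_mem _
      (Subgroup.inv_mem _ hU) ⟨next_mem (hLM hx'), next_mem (Subgroup.inv_mem _ (hLM hx'))⟩) hU
    have h3 := split_UK _ h2 _ hx
    have h4 : s⁻¹⁻¹ * (a⁻¹ * x * a) * s⁻¹ = x := by
      calc s⁻¹⁻¹ * (a⁻¹ * x * a) * s⁻¹ = a * (a⁻¹ * s * (a⁻¹ * x * a)) * s⁻¹ := by group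
        _ = x := by rw [← h3]; group
    rw [str_mem_cj, h4]
    exact hx'

end

theorem split (hM : StmtMU) (hJ : StmtJoin) (hC : StmtCor) (hT : StmtTens) (hB : StmtBigT)
    (hG : StmtGram) : StmtSplit := by
  classical
  intro W _ _ _ _ d τ S C hc hb hZ hf hn ι J k α t hk hτ ht i₀ hi₀
  have hmu : MU (C.sup id) := hc.mu C (Finset.Subset.refl C)
  obtain ⟨-, -, -, h4, h5⟩ := hM ℂ W _ hmu
  obtain ⟨K, hK⟩ : ∃ K, K =
      Subgroup.centralizer ((C.sup id : Subgroup (End ℂ W)ˣ) : Set (End ℂ W)ˣ) := ⟨_, rfl⟩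
  obtain ⟨R, hR⟩ := split_grp S (next_U (C.sup id)) K (hK ▸ split_UK)
  obtain ⟨T, hTf, hmT⟩ := split_fin hC hR hZ hf (fun x h1 h2 => by
      rw [hK] at h2
      obtain ⟨c, h3⟩ := h5 _ h1.1 1 one_ne_zero (fun u _ => by rw [mul_one, one_mul])
        (by rw [mul_one]; exact next_cm.1 h2)
      refine ⟨c, fun h0 => ?_, h3⟩
      rw [h0, zero_smul] at h3
      exact x.ne_zero h3)
    (fun z hz => by
      rw [hK]
      exact next_cm.2 fun u _ => (rank_zs hz _).symm)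
  have hb' : ∀ L ∈ C, BigG τ L ∧ L ≤ T := fun L hL =>
    ⟨(hb L hL).1, fun y hy => by
      have h1 : y ∈ C.sup id := Finset.le_sup (f := id) hL hy
      refine hmT (y, y) ((hR _).2
        ⟨(hb L hL).2 hy, ⟨next_mem h1, next_mem (Subgroup.inv_mem _ h1)⟩, ?_⟩)
      rw [inv_mul_cancel]
      exact K.one_mem⟩
  have hA : ∀ i ∈ J, ∃ A, (t i, A) ∈ R := fun i hi => by
    obtain ⟨A, h1, h2, h3⟩ := h4 (t i) ((hJ ℂ W d C hc).2.2.1 _ (hn _ (ht i hi)))
    exact ⟨A, (hR _).2 ⟨ht i hi, ⟨h1, h2⟩, hK ▸ next_cm.2 h3⟩⟩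
  choose! A hA using hA
  obtain ⟨φ, hφ⟩ : ∃ φ : ι → (End ℂ W)ˣ ⧸ K, ∀ i j, φ i = φ j ↔ (t i)⁻¹ * t j ∈ K :=
    ⟨fun i => (t i : (End ℂ W)ˣ ⧸ K), fun _ _ => QuotientGroup.eq⟩
  have : Nonempty ι := ⟨i₀⟩
  choose! r hr hr' using fun c (h : c ∈ J.image φ) => Finset.mem_image.1 h
  have hcard : (J.image φ).card ≤ k := Finset.card_image_le.trans hk
  have h0 : φ i₀ ∈ J.image φ := Finset.mem_image_of_mem φ hi₀
  obtain ⟨Y, hY⟩ : ∃ Y : (End ℂ W)ˣ ⧸ K → End ℂ W,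
      ∀ c, Y c = ∑ i ∈ J.filter fun i => φ i = c, α i • (t i : End ℂ W) := ⟨_, fun _ => rfl⟩
  have h6 := (hT W _ hmu).2 _ (J.image φ) (fun c => (A (r c) : End ℂ W))
    (fun c => ((A (r c))⁻¹ : (End ℂ W)ˣ) * Y c) (2 * k) (fun c hc' => ⟨?_, fun u hu => ?_⟩) _ h0
    fun β hβ => hG W _ hTf _ (J.image φ) k (2 * τ) (fun c => A (r c)) hcard (by linarith)
      (fun c hc' => hmT _ (hA _ (hr c hc'))) (fun c h1 c' h2 hne => ?_) β ⟨_, h0, hβ⟩
  · simp only [Units.mul_inv_cancel_left, hY] at h6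
    rw [Finset.sum_fiberwise_of_maps_to fun i hi => Finset.mem_image_of_mem φ hi] at h6
    have h7 := rank_left (A (r (φ i₀)) : End ℂ W) (((A (r (φ i₀)))⁻¹ : (End ℂ W)ˣ) * Y (φ i₀))
    rw [Units.mul_inv_cancel_left, hY] at h7
    rw [Finset.filter_congr (q := fun i => φ i = φ i₀) fun i _ => by
      rw [split_cen, ← hK, ← hφ, eq_comm]]
    refine h7.trans (h6.trans (Nat.mul_le_mul_right _ ?_))
    rw [sq, ← mul_assoc]
    exact Nat.mul_le_mul_left _ hcard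
  · exact ((hR _).1 (hA _ (hr c hc'))).2.1.1
  · rw [hY, Finset.mul_sum, Finset.mul_sum, Finset.sum_mul]
    refine Finset.sum_congr rfl fun i hi => ?_
    have h1 := K.mul_mem ((hR _).1 (hA _ (hr c hc'))).2.2
      ((hφ (r c) i).1 ((hr' c hc').trans (Finset.mem_filter.1 hi).2.symm))
    rw [mul_assoc, mul_inv_cancel_left, hK] at h1
    have h2 := next_cm.1 h1 u hu
    rw [Units.val_mul] at h2
    rw [mul_smul_comm, mul_smul_comm, smul_mul_assoc, h2]
  · have h3 := R.mul_mem (R.inv_mem (hA _ (hr c h1))) (hA _ (hr c' h2))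
    obtain ⟨a1, a2, a3⟩ := (hR _).1 h3
    refine split_sm hM hB hc hb' hTf (hn _ a1) (hmT _ h3) a2 (hK ▸ a3) fun h => hne ?_
    rw [← hr' c h1, ← hr' c' h2, hφ, hK]
    exact split_cen.1 h

end Pool.Agent.Work.MP_11a08a_al.Lin
end

-- merged part: Pool.Agent.Work.MP_11a08a_al.Lin.Hat2
section
/-!
`q₁ = max 2 d` with `d` from `hB` for `((s + 100) ^ 2, τ)`.  `T = L ⊔ Zs`.  For `t ∈ S` with `Nm t L` there is a unique `α t ∈ ind π S` with `α t (π x) = π (t x t⁻¹)`; this is a homomorphism from `S ⊓ normalizer L` to `MulAut Q` (see `gain_quot` in `Sol/Gain` for a similar construction; or `liftOfSurjective`).  If `α t = 1` then `⁅t, x⁆ ∈ Zs` on `L`, so `Cen t L` as `L` is perfect.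
For perfect `N` the image of `hat π N` is `N`, so `Cen t (hat π N)` gives `α t x = x` on `N`.  If `q₀ ≤ q₁`: `Act` with the image in `MulAut E × units` of the comap of the group of `GAct` under `prodMap id α`.  Else `GLin` gives `L₀, Q₀, π₀`; take `hat π L₀ ≤ L`, finite and perfect, with the surjection onto `Q₀`; an element of its kernel commutes with `hat π L₀` modulo `Zs`, so is central.
-/

set_option autoImplicit false

open Finset Module Pool.Agent.Work.MP_11a08a_al.Sol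
open scoped commutatorElement

namespace Pool.Agent.Work.MP_11a08a_al.Lin

section

variable {G Q : Type} [Group G] [Group Q] {Z : Subgroup G}

theorem hat2_cz (hZ : ∀ z ∈ Z, ∀ x, x * z = z * x) {a b z z' : G} (hz : z ∈ Z) (hz' : z' ∈ Z) :
    ⁅a * z, b * z'⁆ = ⁅a, b⁆ := by
  have h1 : ∀ x, z * x * z⁻¹ = x := fun x => by rw [← hZ z hz x, mul_inv_cancel_right]
  have h2 : ∀ x, z' * x * z'⁻¹ = x := fun x => by rw [← hZ z' hz' x, mul_inv_cancel_right]
  calc ⁅a * z, b * z'⁆ = a * (z * (b * z') * z⁻¹) * a⁻¹ * (b * z')⁻¹ := by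
        simp only [commutatorElement_def]; group
    _ = a * b * (z' * a⁻¹ * z'⁻¹) * b⁻¹ := by rw [h1]; group
    _ = ⁅a, b⁆ := by rw [h2, commutatorElement_def]

theorem hat2_cen (hZ : ∀ z ∈ Z, ∀ x, x * z = z * x) {L : Subgroup G} (hL : ⁅L, L⁆ = L) {t : G}
    (h : ∀ y ∈ L, y⁻¹ * (t * y * t⁻¹) ∈ Z) : Cen t L := by
  have h1 : ⁅L, L⁆ ≤ Subgroup.centralizer {t} := by
    rw [Subgroup.commutator_le]
    intro a ha b hb
    rw [Subgroup.mem_centralizer_singleton_iff]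
    have h2 := hat2_cz hZ (a := a) (b := b) (h a ha) (h b hb)
    rw [mul_inv_cancel_left, mul_inv_cancel_left] at h2
    calc ⁅a, b⁆ * t = ⁅t * a * t⁻¹, t * b * t⁻¹⁆ * t := by rw [h2]
      _ = t * ⁅a, b⁆ := by simp only [commutatorElement_def]; group
  intro y hy
  rw [← hL] at hy
  exact (Subgroup.mem_centralizer_singleton_iff.1 (h1 hy)).symm

theorem hat2_comm (hZ : ∀ z ∈ Z, ∀ x, x * z = z * x) {A B : Subgroup G}
    (h : ∀ a ∈ A, ∃ b ∈ B, b⁻¹ * a ∈ Z) : ⁅A, A⁆ ≤ ⁅B, B⁆ := by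
  rw [Subgroup.commutator_le]
  intro a ha a' ha'
  obtain ⟨b, hb, hz⟩ := h a ha
  obtain ⟨b', hb', hz'⟩ := h a' ha'
  have h2 := hat2_cz hZ (a := b) (b := b') hz hz'
  rw [mul_inv_cancel_left, mul_inv_cancel_left] at h2
  rw [h2]
  exact Subgroup.commutator_mem_commutator hb hb'

variable {T : Subgroup G} {π : T →* Q}

/-- `α` is induced by `t`. -/
def hat2_R (π : T →* Q) (α : MulAut Q) (t : G) : Prop :=
  t ∈ Subgroup.normalizer (T : Set G) ∧ ∀ x y : T, y.1 = t * x.1 * t⁻¹ → α (π x) = π y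

theorem hat2_conj {t : G} (ht : t ∈ Subgroup.normalizer (T : Set G)) (x : T) :
    t * x.1 * t⁻¹ ∈ T := (Subgroup.mem_normalizer_iff.1 ht x.1).1 x.2

theorem hat2_R_one : hat2_R π 1 1 :=
  ⟨Subgroup.one_mem _, fun x y h => by
    have : y = x := Subtype.ext (by simpa using h)
    rw [this]; rfl⟩

theorem hat2_R_mul {α β : MulAut Q} {t u : G} (h : hat2_R π α t) (h' : hat2_R π β u) :
    hat2_R π (α * β) (t * u) :=
  ⟨Subgroup.mul_mem _ h.1 h'.1, fun x y hxy => by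
    rw [MulAut.mul_apply, h'.2 x ⟨_, hat2_conj h'.1 x⟩ rfl]
    exact h.2 _ y (by rw [hxy]; group)⟩

theorem hat2_R_inv {α : MulAut Q} {t : G} (h : hat2_R π α t) : hat2_R π α⁻¹ t⁻¹ :=
  ⟨Subgroup.inv_mem _ h.1, fun x y hxy => by
    rw [← h.2 y x (by rw [hxy]; group)]
    simp⟩

theorem hat2_hom (hZ : ∀ z ∈ Z, ∀ x, x * z = z * x) (hs : Function.Surjective π)
    (hk : ∀ x, π x = 1 ↔ x.1 ∈ Z) {t : G} (ht : t ∈ Subgroup.normalizer (T : Set G)) :
    ∃ f : Q →* Q, ∀ x y : T, y.1 = t * x.1 * t⁻¹ → f (π x) = π y := by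
  let c : T →* T :=
    { toFun := fun x => ⟨_, hat2_conj ht x⟩
      map_one' := Subtype.ext (by simp)
      map_mul' := fun a b => Subtype.ext (by simp [mul_assoc]) }
  have hc : π.ker ≤ (π.comp c).ker := by
    intro x hx
    rw [MonoidHom.mem_ker, hk] at hx
    rw [MonoidHom.mem_ker, MonoidHom.comp_apply, hk]
    change t * x.1 * t⁻¹ ∈ Z
    rw [hZ _ hx t, mul_inv_cancel_right]
    exact hx
  refine ⟨π.liftOfRightInverse _ (Function.rightInverse_surjInv hs) ⟨π.comp c, hc⟩,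
    fun x y hxy => ?_⟩
  rw [MonoidHom.liftOfRightInverse_comp_apply]
  exact congrArg π (Subtype.ext hxy.symm)

theorem hat2_aut (hZ : ∀ z ∈ Z, ∀ x, x * z = z * x) (hs : Function.Surjective π)
    (hk : ∀ x, π x = 1 ↔ x.1 ∈ Z) {t : G} (ht : t ∈ Subgroup.normalizer (T : Set G)) :
    ∃ α, hat2_R π α t := by
  obtain ⟨f, hf⟩ := hat2_hom hZ hs hk ht
  obtain ⟨g, hg⟩ := hat2_hom hZ hs hk (Subgroup.inv_mem _ ht)
  refine ⟨MonoidHom.toMulEquiv f g ?_ ?_, ht, hf⟩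
  · ext q
    obtain ⟨x, rfl⟩ := hs q
    rw [MonoidHom.comp_apply, hf x ⟨_, hat2_conj ht x⟩ rfl]
    exact hg _ x (by group)
  · ext q
    obtain ⟨x, rfl⟩ := hs q
    rw [MonoidHom.comp_apply, hg x ⟨_, hat2_conj (Subgroup.inv_mem _ ht) x⟩ rfl]
    exact hf _ x (by group)

theorem hat2_eq (N : Subgroup Q) : hat π N = (⁅N.comap π, N.comap π⁆).map T.subtype :=
  (Subgroup.map_commutator _ _ _).symm

theorem hat2_img (hs : Function.Surjective π) {N : Subgroup Q} (hN : ⁅N, N⁆ = N) {m : Q}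
    (hm : m ∈ N) : ∃ x : T, x.1 ∈ hat π N ∧ π x = m := by
  have h1 : (⁅N.comap π, N.comap π⁆).map π = N := by
    rw [Subgroup.map_commutator, Subgroup.map_comap_eq_self_of_surjective hs, hN]
  rw [← h1] at hm
  obtain ⟨x, hx, rfl⟩ := hm
  exact ⟨x, by rw [hat2_eq]; exact ⟨x, hx, rfl⟩, rfl⟩

theorem hat2_mem {N : Subgroup Q} {y : G} (hy : y ∈ hat π N) : ∃ h : y ∈ T, π ⟨y, h⟩ ∈ N := by
  obtain ⟨x, hx, rfl⟩ := Subgroup.commutator_le_self _ hy
  exact ⟨x.2, hx⟩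

theorem hat2_perf (hZ : ∀ z ∈ Z, ∀ x, x * z = z * x) (hs : Function.Surjective π)
    (hk : ∀ x, π x = 1 ↔ x.1 ∈ Z) {N : Subgroup Q} (hN : ⁅N, N⁆ = N) :
    ⁅hat π N, hat π N⁆ = hat π N := by
  refine le_antisymm (Subgroup.commutator_le_self _) (hat2_comm hZ ?_)
  rintro _ ⟨a, ha, rfl⟩
  obtain ⟨x, hx, hxa⟩ := hat2_img hs hN (m := π a) ha
  refine ⟨x.1, hx, (hk (x⁻¹ * a)).1 ?_⟩
  rw [map_mul, map_inv, hxa, inv_mul_cancel]

theorem hat2_fix (hs : Function.Surjective π) {N : Subgroup Q} (hN : ⁅N, N⁆ = N) {α : MulAut Q}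
    {t : G} (h : hat2_R π α t) (hc : Cen t (hat π N)) : ∀ x ∈ N, α x = x := by
  intro m hm
  obtain ⟨x, hx, rfl⟩ := hat2_img hs hN hm
  exact h.2 x x (by rw [hc _ hx, mul_inv_cancel_right])

theorem hat2_triv (hZ : ∀ z ∈ Z, ∀ x, x * z = z * x) (hk : ∀ x, π x = 1 ↔ x.1 ∈ Z)
    {L : Subgroup G} (hL : ⁅L, L⁆ = L) (hT : L ≤ T) {t : G} (h : hat2_R π 1 t) : Cen t L := by
  refine hat2_cen hZ hL fun y hy => ?_
  have h1 := h.2 ⟨y, hT hy⟩ ⟨_, hat2_conj h.1 ⟨y, hT hy⟩⟩ rfl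
  refine (hk ((⟨y, hT hy⟩ : T)⁻¹ * ⟨_, hat2_conj h.1 ⟨y, hT hy⟩⟩)).1 ?_
  rw [map_mul, map_inv, ← h1, MulAut.one_apply, inv_mul_cancel]

theorem hat2_nm {N : Subgroup Q} {α : MulAut Q} {t : G} (h : hat2_R π α t)
    (hN : N.map α.toMonoidHom = N) : t ∈ Subgroup.normalizer (hat π N : Set G) := by
  have h0 : ∀ q, α q ∈ N ↔ q ∈ N := fun q => by
    constructor
    · intro hq
      rw [← hN] at hq
      obtain ⟨q', hq', e⟩ := hq
      rwa [← α.injective e]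
    · intro hq
      rw [← hN]
      exact ⟨q, hq, rfl⟩
  have h1 : str_cj t ((N.comap π).map T.subtype) = (N.comap π).map T.subtype := by
    ext x
    rw [str_mem_cj]
    constructor
    · rintro ⟨y, hy, e⟩
      have e' : t * y.1 * t⁻¹ = x := by
        rw [show y.1 = t⁻¹ * x * t from e]; group
      refine ⟨⟨_, hat2_conj h.1 y⟩, ?_, e'⟩
      rw [SetLike.mem_coe, Subgroup.mem_comap, ← h.2 y _ rfl, h0]
      exact hy
    · rintro ⟨y, hy, rfl⟩
      refine ⟨⟨_, hat2_conj (Subgroup.inv_mem _ h.1) y⟩, ?_, by simp⟩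
      rw [SetLike.mem_coe, Subgroup.mem_comap, ← h0, h.2 _ y (by group)]
      exact hy
  have h2 : str_cj t (hat π N) = hat π N := by rw [hat, str_cj_comm, h1]
  rw [Subgroup.mem_normalizer_iff'']
  intro x
  rw [← str_mem_cj, h2]

theorem hat2_big {τ : ℝ} {m d : ℕ}
    (hB : ∀ (Γ Q : Type) [Group Γ] [Finite Γ] [Group Q] (π : Γ →* Q), Function.Surjective π →
      π.ker ≤ Subgroup.center Γ → commutator Γ = ⊤ → IsSimpleGroup Q →
      (∃ x y : Q, x * y ≠ y * x) → LinG m Q → d < Nat.card Q → BigG τ Γ)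
    (hZ : ∀ z ∈ Z, ∀ x, x * z = z * x) (hs : Function.Surjective π)
    (hk : ∀ x, π x = 1 ↔ x.1 ∈ Z) {N : Subgroup Q} (hN : ⁅N, N⁆ = N) [Finite (hat π N)]
    {Q₀ : Type} [Group Q₀] (π₀ : N →* Q₀) (hs₀ : Function.Surjective π₀)
    (hk₀ : π₀.ker ≤ Subgroup.center N) (hsi : IsSimpleGroup Q₀) (hna : ∃ x y : Q₀, x * y ≠ y * x)
    (hl : LinG m Q₀) (hd : d < Nat.card Q₀) : BigG τ (hat π N) := by
  have hp := hat2_perf hZ hs hk hN
  have hle : hat π N ≤ T := fun y hy => (hat2_mem hy).1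
  let φ : hat π N →* N :=
    (π.comp (Subgroup.inclusion hle)).codRestrict N fun y => (hat2_mem y.2).2
  have hφ : Function.Surjective φ := by
    rintro ⟨q, hq⟩
    obtain ⟨x, hx, rfl⟩ := hat2_img hs hN hq
    exact ⟨⟨x.1, hx⟩, rfl⟩
  refine hB _ Q₀ (π₀.comp φ) (hs₀.comp hφ) ?_ ?_ hsi hna hl hd
  · intro x hx
    have h1 : φ x ∈ Subgroup.center N := hk₀ hx
    have h2 : Cen x.1 (hat π N) := by
      refine hat2_cen hZ hp fun y hy => ?_
      have h3 := Subgroup.mem_center_iff.1 h1 (φ ⟨y, hy⟩)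
      have h4 : φ ((⟨y, hy⟩ : hat π N)⁻¹ * (x * ⟨y, hy⟩ * x⁻¹)) = 1 := by
        rw [map_mul, map_mul, map_mul, map_inv, map_inv, ← h3]; group
      exact (hk _).1 (congrArg Subtype.val h4)
    rw [Subgroup.mem_center_iff]
    exact fun y => Subtype.ext (h2 y.1 y.2).symm
  · apply Subgroup.map_injective (hat π N).subtype_injective
    rw [Subgroup.map_subtype_commutator, hp, ← MonoidHom.range_eq_map, Subgroup.range_subtype]

/-- The composite of two correspondences. -/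
def hat2_T {A : Type} [Group A] (π : T →* Q) (U : Subgroup (A × MulAut Q)) : Subgroup (A × G) where
  carrier := {p | ∃ α, (p.1, α) ∈ U ∧ hat2_R π α p.2}
  one_mem' := ⟨1, U.one_mem, hat2_R_one⟩
  mul_mem' := by
    rintro a b ⟨α, h1, h2⟩ ⟨β, h3, h4⟩
    exact ⟨α * β, U.mul_mem h1 h3, hat2_R_mul h2 h4⟩
  inv_mem' := by
    rintro a ⟨α, h1, h2⟩
    exact ⟨α⁻¹, U.inv_mem h1, hat2_R_inv h2⟩

end

theorem hat2 (hB : StmtBig) : StmtHat2 := by
  intro s τ hτ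
  obtain ⟨d, hd⟩ := hB.1 ((s + 100) ^ 2) τ hτ
  refine ⟨max 2 d, ?_⟩
  intro W _ _ n S L 𝓝 hsn hfin hL ⟨Q, _, π, C, 𝓜, lam, q₀, hs, hk, hG, h𝓝⟩
  have hZ : ∀ z ∈ Zs ℂ W, ∀ x : (End ℂ W)ˣ, x * z = z * x := fun z hz x =>
    Units.ext (rank_zs hz x).symm
  have := str_normal hZ
  have hnm : ∀ t, Nm t L → t ∈ Subgroup.normalizer ((L ⊔ Zs ℂ W : Subgroup _) : Set (End ℂ W)ˣ) :=
    fun t ht => str_nm_sup le_rfl (str_nm_Z hZ _) ht
  have hex : ∀ t ∈ S, Nm t L → ∃ α ∈ ind π S, hat2_R π α t := fun t htS ht => by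
    obtain ⟨α, hα⟩ := hat2_aut hZ hs hk (hnm t ht)
    exact ⟨α, ⟨t, htS, hα⟩, hα⟩
  have hperf : ∀ M ∈ 𝓜 s, ⁅M, M⁆ = M := fun M hM => (hG.one.perf M (hG.one.mono s n hsn hM)).1
  by_cases hq : q₀ ≤ max 2 d
  · left
    obtain ⟨E, _, _, U, h1, h2, h3, h4⟩ := hG.act
    refine ⟨E, inferInstance, inferInstance, hat2_T π U, ?_, ?_, ?_, ?_⟩
    · intro t htS ht
      obtain ⟨α, hα, hR⟩ := hex t htS ht
      obtain ⟨h, hh⟩ := h1 α hα
      exact ⟨h, α, hh, hR⟩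
    · have e : {h | (h, (1 : (End ℂ W)ˣ)) ∈ hat2_T π U} = {h | (h, (1 : MulAut Q)) ∈ U} := by
        ext h
        constructor
        · rintro ⟨α, hα, hR⟩
          have e1 : α = 1 := by
            ext q
            obtain ⟨x, rfl⟩ := hs q
            exact hR.2 x x (by simp)
          rw [e1] at hα
          exact hα
        · intro hh
          exact ⟨1, hh, hat2_R_one⟩
      rw [e]
      exact h2.trans (Nat.pow_le_pow_left hq 2)
    · rintro t ⟨α, hα, hR⟩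
      rw [h3 α hα] at hR
      exact hat2_triv hZ hk hL le_sup_left hR
    · intro N hN
      rw [h𝓝] at hN
      obtain ⟨M, hM, rfl⟩ := hN
      obtain ⟨F, hF, hF'⟩ := h4 s hsn M hM
      refine ⟨F, hF.trans (Nat.pow_le_pow_left hq s), fun t htS ht hc => ?_⟩
      obtain ⟨α, hα, hR⟩ := hex t htS ht
      obtain ⟨h, hh, hh'⟩ := hF' α hα (hat2_fix hs (hperf M hM) hR hc)
      exact ⟨h, ⟨α, hh, hR⟩, hh'⟩
  · right
    rw [not_le, max_lt_iff] at hq
    intro N hN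
    rw [h𝓝] at hN
    obtain ⟨M, hM, rfl⟩ := hN
    obtain ⟨L₀, Q₀, _, π₀, p1, p2, p3, p4, p5, p6, p7, p8⟩ :=
      (hG.lin.resolve_left (not_le.2 hq.1)) s hsn M hM
    have hle : hat π L₀ ≤ L := by
      refine le_trans (hat2_comm hZ ?_) hL.le
      rintro _ ⟨a, -, rfl⟩
      obtain ⟨l, hl, z, hz, e⟩ := Subgroup.mem_sup_of_normal_right.1 a.2
      refine ⟨l, hl, ?_⟩
      rw [Subgroup.subtype_apply, ← e, inv_mul_cancel_left]
      exact hz
    have : Finite (hat π L₀) := Finite.of_injective _ (Subgroup.inclusion_injective hle)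
    refine ⟨hat π L₀, hle, hat2_big hd hZ hs hk p1 π₀ p2 p3 p4 p5 p6 (hq.2.trans_le p7),
      fun t htS ht hc => ?_⟩
    obtain ⟨α, hα, hR⟩ := hex t htS ht
    obtain ⟨r1, r2⟩ := p8 α hα (hat2_fix hs (hperf M hM) hR hc)
    refine ⟨hat2_nm hR r1, fun hc' => ?_⟩
    rw [r2 (hat2_fix hs p1 hR hc')] at hR
    exact hat2_triv hZ hk hL le_sup_left hR

end Pool.Agent.Work.MP_11a08a_al.Lin
end

-- merged part: Pool.Agent.Work.MP_11a08a_al.Lin.Str3
section
/-!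
`m'` from `hG` for `(n, m)`, `d` from `hB` for `(m', τ)`, `q₁` from `h2`.  `E, C` from `hS`.  `C₁ = {L ∈ C | Zs.relIndex L ≤ d}`, `C₂ = {L ∈ C \ C₁ | BigG τ L}`, `C₃` the others; both conditions are invariant under conjugation (`relIndex_map_map_of_injective`, `Subgroup.equivMapOfInjective`, second part of `hB`).  `Comp` passes to subfamilies.
For `L ∈ C₃`, `T = L ⊔ Zs ≤ S`, `Q = T ⧸ Zs.subgroupOf T` is simple and not commutative (`str_simple`), of order `Zs.relIndex L > d`; `SecK` and `hG` give `LinG m' Q` or a geometry; in the first case `hB` for `L →* Q` gives `BigG τ L`, which is false.  So `Src`; apply `hF`, `h1`, `h2`.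
-/

set_option autoImplicit false

open Finset Module Pool.Agent.Work.MP_11a08a_al.Sol
open scoped commutatorElement

namespace Pool.Agent.Work.MP_11a08a_al.Lin

section

variable {W : Type} [AddCommGroup W] [Module ℂ W]

theorem str3_z : ∀ z ∈ Zs ℂ W, ∀ x : (End ℂ W)ˣ, x * z = z * x := fun z hz x =>
  Units.ext (by simpa using (rank_zs hz (x : End ℂ W)).symm)

theorem str3_cjZ (t : (End ℂ W)ˣ) : (Zs ℂ W).map (MulAut.conj t).toMonoidHom = Zs ℂ W :=
  str_cj_eq (str_nm_Z str3_z ⊤ (Subgroup.mem_top t))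

theorem str3_idx (t : (End ℂ W)ˣ) (L : Subgroup (End ℂ W)ˣ) :
    (Zs ℂ W).relIndex (L.map (MulAut.conj t).toMonoidHom) = (Zs ℂ W).relIndex L := by
  have h := Subgroup.relIndex_map_map_of_injective (f := (MulAut.conj t).toMonoidHom) (Zs ℂ W) L
    (MulAut.conj t).injective
  rwa [str3_cjZ] at h

theorem str3_comp {d d' : ℕ} {C C' : Finset (Subgroup (End ℂ W)ˣ)} (h : Comp d C) (hC : C' ⊆ C)
    (hd : ∀ L ∈ C', (Zs ℂ W).relIndex L ≤ d') : Comp d' C' :=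
  ⟨fun L hL => h.perf L (hC hL), fun L hL => h.ns L (hC hL),
    fun L hL => ⟨(h.fin L (hC hL)).1, hd L hL⟩,
    fun L hL L' hL' => h.cm L (hC hL) L' (hC hL'), fun S hS => h.mu S (hS.trans hC)⟩

theorem str3_nmc {t : (End ℂ W)ˣ} {C : Finset (Subgroup (End ℂ W)ˣ)} (h : NmC t C)
    (P : Subgroup (End ℂ W)ˣ → Prop) [DecidablePred P]
    (hP : ∀ (u : (End ℂ W)ˣ) L, P L → P (L.map (MulAut.conj u).toMonoidHom)) :
    NmC t (C.filter P) := fun L hL => by
  rw [mem_filter] at hL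
  exact ⟨mem_filter.2 ⟨(h L hL.1).1, hP _ _ hL.2⟩, mem_filter.2 ⟨(h L hL.1).2, hP _ _ hL.2⟩⟩

theorem str3_src {n m m' d : ℕ} {τ : ℝ} {S L : Subgroup (End ℂ W)ˣ}
    (hG : ∀ (Q : Type) [Group Q] (𝒜 : Set (MulAut Q)), IsSimpleGroup Q →
      (∃ x y : Q, x * y ≠ y * x) → Known m Q 𝒜 →
      LinG m' Q ∨ ∃ C 𝓝 lam q₀, Geo n 𝒜 C 𝓝 lam q₀)
    (hB : ∀ (Γ Q : Type) [Group Γ] [Finite Γ] [Group Q]
      (π : Γ →* Q), Function.Surjective π → π.ker ≤ Subgroup.center Γ → commutator Γ = ⊤ →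
      IsSimpleGroup Q → (∃ x y : Q, x * y ≠ y * x) → LinG m' Q → d < Nat.card Q → BigG τ Γ)
    (hZ : Zs ℂ W ≤ S) (hK : SecK m (Zs ℂ W) S) (hL : L ≤ S) (hp : ⁅L, L⁆ = L)
    (hn : ¬ L ≤ Zs ℂ W) (hq : QSi L) (hf : Finite L) (hd : d < (Zs ℂ W).relIndex L)
    (hb : ¬ BigG τ L) : ∃ 𝓝, Src n S L 𝓝 := by
  have : (Zs ℂ W).Normal := str_normal str3_z
  have hn' : ¬ ⁅L ⊔ Zs ℂ W, L ⊔ Zs ℂ W⁆ ≤ Zs ℂ W := fun h =>
    hn (hp ▸ (Subgroup.commutator_mono le_sup_left le_sup_left).trans h)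
  obtain ⟨h1, h2⟩ := str_simple (T := L ⊔ Zs ℂ W) le_sup_right hn' hq
  push Not at h2
  set π : ↥(L ⊔ Zs ℂ W) →* (↥(L ⊔ Zs ℂ W) ⧸ (Zs ℂ W).subgroupOf (L ⊔ Zs ℂ W)) :=
    QuotientGroup.mk' _ with hπ
  have hker : ∀ x, π x = 1 ↔ x.1 ∈ Zs ℂ W := fun x => by
    rw [hπ, QuotientGroup.mk'_apply, QuotientGroup.eq_one_iff, Subgroup.mem_subgroupOf]
  have hsurj : Function.Surjective π := QuotientGroup.mk'_surjective _
  have hk := hK (L ⊔ Zs ℂ W) le_sup_right (sup_le hL hZ) _ π hsurj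
    (fun b hb => (hker b).2 hb) h1 h2
  rcases hG _ _ h1 h2 hk with h | ⟨C, 𝓜, lam, q₀, h⟩
  · refine absurd (hB L _ (π.comp (Subgroup.inclusion le_sup_left)) ?_ ?_ ?_ h1 h2 h ?_) hb
    · intro y
      obtain ⟨⟨x, hx⟩, rfl⟩ := hsurj y
      have hx' := hx
      rw [← SetLike.mem_coe, Subgroup.mul_normal] at hx'
      obtain ⟨l, hl, z, hz, rfl⟩ := hx'
      refine ⟨⟨l, hl⟩, ?_⟩
      have e : (⟨l * z, hx⟩ : ↥(L ⊔ Zs ℂ W)) = Subgroup.inclusion le_sup_left ⟨l, hl⟩ *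
          ⟨z, Subgroup.mem_sup_right hz⟩ := rfl
      show π (Subgroup.inclusion le_sup_left ⟨l, hl⟩) = π ⟨l * z, hx⟩
      rw [e, map_mul, (hker ⟨z, Subgroup.mem_sup_right hz⟩).2 hz, mul_one]
    · intro x hx
      have hx' : x.1 ∈ Zs ℂ W := (hker _).1 hx
      exact Subgroup.mem_center_iff.2 fun y => Subtype.ext (str3_z _ hx' _)
    · apply Subgroup.map_injective (Subgroup.subtype_injective L)
      rw [commutator_def, Subgroup.map_commutator, ← MonoidHom.range_eq_map,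
        Subgroup.range_subtype, hp]
    · rw [← Subgroup.index_eq_card]
      change d < (Zs ℂ W).relIndex (L ⊔ Zs ℂ W)
      rwa [Subgroup.relIndex_sup_right]
  · exact ⟨fun s => hat π '' 𝓜 s, _, _, π, C, 𝓜, lam, q₀, hsurj, hker, h, fun _ => rfl⟩

end

theorem str3 (hS : StmtStrL) (hG : StmtGeo) (hB : StmtBig) (h1 : StmtHat1) (h2 : StmtHat2)
    (hF : StmtFam) : StmtStr3 := by
  classical
  intro n s m τ hτ hsn
  obtain ⟨m', hm'⟩ := hG n m
  obtain ⟨d, hd⟩ := hB.1 m' τ hτ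
  obtain ⟨q₁, hq₁⟩ := h2 s τ hτ
  refine ⟨q₁, d, fun W _ _ _ _ H S hH hZ hfin hN hK => ?_⟩
  obtain ⟨E, C, hst, hC⟩ := hS W H S hH hZ hfin hN
  have hbig : ∀ (u : (End ℂ W)ˣ) (L : Subgroup (End ℂ W)ˣ),
      BigG τ L ↔ BigG τ (L.map (MulAut.conj u).toMonoidHom) := fun u L =>
    ⟨hB.2 τ _ _ (L.equivMapOfInjective _ (MulAut.conj u).injective),
      hB.2 τ _ _ (L.equivMapOfInjective _ (MulAut.conj u).injective).symm⟩
  set C₃ := C.filter fun L => d < (Zs ℂ W).relIndex L ∧ ¬ BigG τ L with hC₃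
  have hn₃ : ∀ t, t ∈ H ∨ t ∈ S → NmC t C₃ := fun t ht =>
    str3_nmc (hst.nC t ht) _ fun u L hL => ⟨by rw [str3_idx]; exact hL.1,
      fun h => hL.2 ((hbig u L).2 h)⟩
  have hsrc : ∀ L ∈ C₃, ∃ 𝓝, Src n S L 𝓝 := fun L hL => by
    obtain ⟨hL, h3, h4⟩ := mem_filter.1 hL
    exact str3_src hm' hd hZ hK (hst.cS L hL) (hst.comp.perf L hL) (hst.comp.ns L hL)
      (hC L hL).1 (hC L hL).2 h3 h4
  obtain ⟨𝓝, h𝓝, hinv⟩ := hF W n S C₃ (fun t ht => hn₃ t (Or.inr ht)) hsrc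
  have hs₃ : C₃ ⊆ C := filter_subset _ _
  refine ⟨E, C, C.filter fun L => (Zs ℂ W).relIndex L ≤ d, C.filter fun L => BigG τ L, C₃, 𝓝,
    hst, ⟨filter_subset _ _, filter_subset _ _, hs₃⟩, fun L hL => ?_, fun t ht => ⟨?_, ?_, hn₃ t ht⟩,
    str3_comp hst.comp (filter_subset _ _) fun L hL => (mem_filter.1 hL).2,
    str3_comp hst.comp (filter_subset _ _) fun L hL => (hst.comp.fin L (mem_filter.1 hL).1).2,
    str3_comp hst.comp hs₃ fun L hL => (hst.comp.fin L (hs₃ hL)).2,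
    fun L hL => (mem_filter.1 hL).2,
    ⟨fun L hL => hst.cS L (hs₃ hL), fun t ht => hn₃ t (Or.inr ht), fun L hL =>
      h1 W n S L (𝓝 L) (hC L (hs₃ hL)).2 (hst.comp.perf L (hs₃ hL)) (h𝓝 L hL), hinv⟩,
    fun L hL => hq₁ W n S L (𝓝 L) hsn (hC L (hs₃ hL)).2 (hst.comp.perf L (hs₃ hL)) (h𝓝 L hL)⟩
  · by_cases a1 : (Zs ℂ W).relIndex L ≤ d
    · exact Or.inl (mem_filter.2 ⟨hL, a1⟩)
    · by_cases a2 : BigG τ L
      · exact Or.inr (Or.inl (mem_filter.2 ⟨hL, a2⟩))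
      · exact Or.inr (Or.inr (mem_filter.2 ⟨hL, not_le.1 a1, a2⟩))
  · exact str3_nmc (hst.nC t ht) _ fun u L hL => by rw [str3_idx]; exact hL
  · exact str3_nmc (hst.nC t ht) _ fun u L hL => (hbig u L).1 hL

end Pool.Agent.Work.MP_11a08a_al.Lin
end

-- merged part: Pool.Agent.Work.MP_11a08a_al.Lin.Far
section
/-!
(1) `K = C.sup k`; if `str_cj t L ≠ L` then `k L ≤ L ⊓ str_cj t L` commutes with itself, but it is perfect and nontrivial.  (2) `t = s₁⁻¹ s₂`, `X' = s₁⁻¹ X`; for `y ∈ K`: `y X' = X' y = (t y t⁻¹) X'`.  So `R = range X' ≠ ⊥` is invariant under `K` and `y`, `t y t⁻¹` agree on `R`.  Let `L ∈ C`, `N = k L`; `N` does not fix `R` pointwise.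
If `str_cj t L ≠ L` then `y y' w = y (t y' t⁻¹) w = (t y' t⁻¹) y w = y' y w` on `R`, so the perfect group `N` fixes `R`: false.  So `t` normalises `L`, `str_cj t⁻¹ N ∈ 𝓝 L s`; take `k' L ≤ N ⊓ str_cj t⁻¹ N` from `inter`, and `k' L = L` if `N = L`.  The elements of `N` fixing `R` form a normal subgroup, central by `qs`.
For `y ∈ k' L`, `t y t⁻¹ = y c` with `c` central in `N`; so `t` fixes all commutators of `k' L`, which is perfect.
-/

set_option autoImplicit false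

open Finset Module Pool.Agent.Work.MP_11a08a_al.Sol
open scoped commutatorElement

namespace Pool.Agent.Work.MP_11a08a_al.Lin

section

variable {G : Type} [Group G]

theorem far_nm {t : G} {L : Subgroup G} (h : str_cj t L = L) :
    t ∈ Subgroup.normalizer (L : Set G) := by
  rw [Subgroup.mem_normalizer_iff]
  intro x
  have h1 : t * x * t⁻¹ ∈ str_cj t L ↔ x ∈ L := by
    rw [str_mem_cj, show t⁻¹ * (t * x * t⁻¹) * t = x by group]
  rw [h] at h1
  exact h1.symm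

theorem far_le {t : G} {A N : Subgroup G} (hp : ⁅N, N⁆ = N)
    (ha : ∀ y ∈ N, ∀ a ∈ A, y * a * y⁻¹ ∈ A) (hb : ∀ y ∈ N, y⁻¹ * (t * y * t⁻¹) ∈ A)
    (hc : ∀ y ∈ N, ∀ y' ∈ N, y * (t * y' * t⁻¹) = t * y' * t⁻¹ * y) : N ≤ A := by
  rw [← hp, Subgroup.commutator_le]
  intro y hy y' hy'
  have h1 := ha y' hy' _ (A.mul_mem (hb y' hy') (ha y hy _ (A.inv_mem (hb y' hy'))))
  have h2 := hc y hy y' hy'
  obtain ⟨u, hu⟩ : ∃ u, u = t * y' * t⁻¹ := ⟨_, rfl⟩
  rw [← hu] at h1 h2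
  have h3 : y' * (y'⁻¹ * u * (y * (y'⁻¹ * u)⁻¹ * y⁻¹)) * y'⁻¹ =
      (u * y) * u⁻¹ * y' * y⁻¹ * y'⁻¹ := by group
  rw [h3, ← h2, mul_inv_cancel_right] at h1
  exact h1

theorem far_cen {t : G} {N N' : Subgroup G} (hp : ⁅N', N'⁆ = N') (hle : N' ≤ N)
    (hb : ∀ y ∈ N', y⁻¹ * (t * y * t⁻¹) ∈ Subgroup.centralizer (N : Set G))
    (hm : ∀ y ∈ N', t * y * t⁻¹ ∈ N) : N' ≤ Subgroup.centralizer {t} := by
  rw [← hp, Subgroup.commutator_le]
  intro y hy y' hy'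
  rw [Subgroup.mem_centralizer_singleton_iff]
  have h1 := Subgroup.mem_centralizer_iff.1 (hb y hy) _ (hm y' hy')
  have h2 := Subgroup.mem_centralizer_iff.1 (hb y' hy') _ (N.inv_mem (hle hy))
  obtain ⟨c, hc⟩ : ∃ c, c = y⁻¹ * (t * y * t⁻¹) := ⟨_, rfl⟩
  obtain ⟨c', hc'⟩ : ∃ c', c' = y'⁻¹ * (t * y' * t⁻¹) := ⟨_, rfl⟩
  have e : t * y * t⁻¹ = y * c := by rw [hc, mul_inv_cancel_left]
  have e' : t * y' * t⁻¹ = y' * c' := by rw [hc', mul_inv_cancel_left]
  rw [← hc, e'] at h1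
  rw [← hc'] at h2
  have h3 : t * ⁅y, y'⁆ * t⁻¹ = ⁅y, y'⁆ := by
    calc t * ⁅y, y'⁆ * t⁻¹ = ⁅t * y * t⁻¹, t * y' * t⁻¹⁆ := by
          simp only [commutatorElement_def]
          group
      _ = y * (c * (y' * c')) * c⁻¹ * y⁻¹ * (y' * c')⁻¹ := by
          rw [e, e', commutatorElement_def]
          group
      _ = y * y' * (c' * y⁻¹) * (y' * c')⁻¹ := by
          rw [← h1]
          group
      _ = ⁅y, y'⁆ := by
          rw [← h2, commutatorElement_def]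
          group
  exact (mul_inv_eq_iff_eq_mul.1 h3).symm

end

/-- The units that fix an endomorphism under left multiplication. -/
def far_A {W : Type} [AddCommGroup W] [Module ℂ W] (X : End ℂ W) : Subgroup (End ℂ W)ˣ where
  carrier := {y | (y : End ℂ W) * X = X}
  one_mem' := one_mul X
  mul_mem' {a b} ha hb := by
    show ((a * b : (End ℂ W)ˣ) : End ℂ W) * X = X
    rw [Units.val_mul, mul_assoc, hb, ha]
  inv_mem' {a} ha := by
    show ((a⁻¹ : (End ℂ W)ˣ) : End ℂ W) * X = X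
    rw [Units.inv_mul_eq_iff_eq_mul, ha]

theorem far_tw {W : Type} [AddCommGroup W] [Module ℂ W] {s r y : (End ℂ W)ˣ} {X : End ℂ W}
    (h : tw r y X = X) : ((s⁻¹ * r * y * (s⁻¹ * r)⁻¹ : (End ℂ W)ˣ) : End ℂ W) *
      (((s⁻¹ : (End ℂ W)ˣ) : End ℂ W) * X) = ((s⁻¹ : (End ℂ W)ˣ) : End ℂ W) * X * y := by
  unfold tw at h
  rw [Units.mul_inv_eq_iff_eq_mul] at h
  rw [mul_assoc _ X, ← h, ← mul_assoc, ← mul_assoc, ← Units.val_mul, ← Units.val_mul]
  congr 2
  group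

theorem far : StmtFar := by
  intro W _ _ n d s S C 𝓝 hC hF hs hx
  classical
  refine ⟨fun t ht K hK hc L hL => ?_, fun s₁ h₁ s₂ h₂ X hX K hK hy => ?_⟩
  · obtain ⟨k, hk, -, rfl⟩ := hK
    refine far_nm ?_
    by_contra hne
    have hst := hF.std L hL
    obtain ⟨hp, hb⟩ := hst.perf _ (hst.mono s n (by omega) (hk L hL))
    refine hb (le_bot_iff.1 (far_le (t := t) hp (fun y _ a ha => ?_) (fun y hy => ?_)
      fun y hy y' hy' => ?_))
    · rw [Subgroup.mem_bot.1 ha, mul_one, mul_inv_cancel]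
      exact one_mem _
    · rw [hc y (Finset.le_sup (f := k) hL hy), mul_inv_cancel_right, inv_mul_cancel]
      exact one_mem _
    · exact hC.cm L hL _ (hF.nC t ht L hL).1 (Ne.symm hne) y (hst.le _ _ (hk L hL) hy) _
        ⟨y', hst.le _ _ (hk L hL) hy', rfl⟩
  · obtain ⟨k, hk, hcard, rfl⟩ := hK
    obtain ⟨t, htd⟩ : ∃ t, t = s₁⁻¹ * s₂ := ⟨_, rfl⟩
    obtain ⟨Y, hY⟩ : ∃ Y, Y = ((s₁⁻¹ : (End ℂ W)ˣ) : End ℂ W) * X := ⟨_, rfl⟩
    have ht : t ∈ S := htd ▸ S.mul_mem (S.inv_mem h₁) h₂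
    have hY0 : Y ≠ 0 := hY ▸ rank_ne _ hX
    have e1 : ∀ y ∈ C.sup k, (y : End ℂ W) * Y = Y * y := by
      intro y hy'
      have h := far_tw (s := s₁) (hy y hy').1
      rwa [inv_mul_cancel, one_mul, inv_one, mul_one, ← hY] at h
    have e2 : ∀ y ∈ C.sup k, ((t * y * t⁻¹ : (End ℂ W)ˣ) : End ℂ W) * Y = Y * y := by
      intro y hy'
      have h := far_tw (s := s₁) (hy y hy').2
      rwa [← htd, ← hY] at h
    have ha : ∀ y ∈ C.sup k, ∀ a ∈ far_A Y, y * a * y⁻¹ ∈ far_A Y := by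
      intro y hy' a ha
      have ha' : (a : End ℂ W) * Y = Y := ha
      show ((y * a * y⁻¹ : (End ℂ W)ˣ) : End ℂ W) * Y = Y
      rw [Units.val_mul, Units.val_mul, mul_assoc, e1 _ (inv_mem hy'), mul_assoc, ← mul_assoc _ Y,
        ha', ← e1 _ (inv_mem hy'), Units.mul_inv_cancel_left]
    have hb : ∀ y ∈ C.sup k, y⁻¹ * (t * y * t⁻¹) ∈ far_A Y := by
      intro y hy'
      show ((y⁻¹ * (t * y * t⁻¹) : (End ℂ W)ˣ) : End ℂ W) * Y = Y
      rw [Units.val_mul, mul_assoc, e2 y hy', ← e1 y hy', Units.inv_mul_cancel_left]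
    have key : ∀ L ∈ C, ∃ N', N' ∈ 𝓝 L (4 * s) ∧ (k L = L → N' = L) ∧
        N' ≤ Subgroup.centralizer {t} := by
      intro L hL
      have hst := hF.std L hL
      have hn := hst.mono s n (by omega) (hk L hL)
      have hle : k L ≤ C.sup k := Finset.le_sup (f := k) hL
      have hnA : ¬ k L ≤ far_A Y := fun h => hY0 (LinearMap.ext fun w => by
        have h1 : Y w ∈ Fx (k L) := fun y hy' => LinearMap.congr_fun (h hy') w
        rw [hx L hL _ (hk L hL)] at h1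
        exact h1)
      have hcj : str_cj t L = L := by
        by_contra hne
        exact hnA (far_le (t := t) (hst.perf _ hn).1 (fun y hy' => ha y (hle hy'))
          (fun y hy' => hb y (hle hy')) fun y hy' y' hy'' =>
          hC.cm L hL _ (hF.nC t ht L hL).1 (Ne.symm hne) y (hst.le _ _ (hk L hL) hy') _
            ⟨y', hst.le _ _ (hk L hL) hy'', rfl⟩)
      have hcj' : str_cj t⁻¹ L = L := by
        conv_lhs => rw [← hcj]
        exact str_cj_inv t L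
      have hq : k L ⊓ far_A Y ≤ Subgroup.centralizer (k L : Set (End ℂ W)ˣ) :=
        (hst.qs _ hn _ inf_le_left fun a ha' x hx' =>
          ⟨(k L).mul_mem ((k L).mul_mem ha' hx'.1) ((k L).inv_mem ha'),
            ha a (hle ha') x hx'.2⟩).resolve_right
          fun h => hnA (h ▸ inf_le_right)
      obtain ⟨N', h1, h2, h3⟩ : ∃ N', N' ∈ 𝓝 L (4 * s) ∧ (k L = L → N' = L) ∧
          N' ≤ k L ⊓ str_cj t⁻¹ (k L) := by
        by_cases hkL : k L = L
        · exact ⟨L, hst.mono 0 _ (Nat.zero_le _) hst.top, fun _ => rfl, by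
            rw [hkL, hcj', inf_idem]⟩
        · have h4 := hF.inv t⁻¹ (S.inv_mem ht) L hL s (by omega) _ (hk L hL)
          rw [hcj'] at h4
          obtain ⟨N', h1, h2⟩ := hst.inter s hs _ (hk L hL) _ h4
          exact ⟨N', h1, fun h => absurd h hkL, h2⟩
      have hm : ∀ y ∈ N', t * y * t⁻¹ ∈ k L := fun y hy' => by
        have h4 := str_mem_cj.1 (h3 hy').2
        rwa [inv_inv] at h4
      exact ⟨N', h1, h2, far_cen (hst.perf _ (hst.mono _ n hs h1)).1 (h3.trans inf_le_left)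
        (fun y hy' => hq ⟨(k L).mul_mem ((k L).inv_mem (h3 hy').1) (hm y hy'),
          hb y (hle (h3 hy').1)⟩) hm⟩
    choose! k' k1 k2 k3 using key
    refine ⟨C.sup k', ⟨k', k1, ?_, rfl⟩, fun y hy' => ?_⟩
    · refine le_trans (Finset.card_le_card fun L hL => ?_) (hcard.trans (by omega))
      rw [Finset.mem_filter] at hL ⊢
      exact ⟨hL.1, fun h => hL.2 (k2 L hL.1 h)⟩
    · rw [← htd]
      exact (Subgroup.mem_centralizer_singleton_iff.1 (Finset.sup_le k3 hy')).symm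

end Pool.Agent.Work.MP_11a08a_al.Lin
end

-- merged part: Pool.Agent.Work.MP_11a08a_al.Lin.GainL
section
/-!
Copy `gain` of `Sol/Gain` (with `S = ⊤`, `F = ℂ`; reuse `gain_quot`, `gain_fix`, `gain_idx`).  Constants: `T₀` from `hN`, `s₀` from `hNG`, `n = 4 s₀ + 4 q ^ 4 + 1`, `τ = 1 / (32 q ^ 2 + 1)`, `q₁, d` from `hSt` for `(n, s₀, m, τ)`, `hGC` for `(s₀, q₁, d, q * q * T₀)`.  `H = (resU ρ W).range ≤ S' = imS ρ W ⊤`, `Prim H` by `hQ`.
For each row with `P` nonempty fix `l₀ ∈ P`, `r m = resU ((b l₀)⁻¹ * b m)`, `MinV` by `hB`; `π (γ i (l, l')) = (r l)⁻¹ * r l'` for `l, l' ∈ P` and `γ = 1` otherwise.  The hypothesis of `hGC`: `L ∈ C₂` by `hRB`; `L ∈ C₃` by `hHi`, `hNG`, and in the case `Lin0` by `hN2` (`MU L` from `mu {L}`).  The part for `E` is unchanged.  `N = (N₂ ⊓ N₃).map Γ.subtype`, `hNi`.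
-/

set_option autoImplicit false

open Finset Module Pool.Agent.Work.MP_11a08a_al.Sol
open scoped commutatorElement

namespace Pool.Agent.Work.MP_11a08a_al.Lin

theorem gainL (hS : StmtSec) (hI : StmtSecI) (hSt : StmtStr3) (hQ : StmtQB) (hN : StmtNear)
    (hHi : StmtHigh) (hNG : StmtNearG) (hRB : StmtRedB) (hN2 : StmtNear2) (hGA : StmtGA)
    (hGC : StmtGainC) (hU : StmtUni) (hNi : StmtNilpL) (hB : StmtBasic) : StmtGainL := by
  classical
  intro q m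
  obtain ⟨T₀, hN⟩ := hN q
  obtain ⟨s₀, hNG⟩ := hNG q
  have hτ : (0 : ℝ) < 1 / (32 * (q : ℝ) ^ 2 + 1) := by positivity
  have hτ1 : 32 * (q : ℝ) ^ 2 * (1 / (32 * (q : ℝ) ^ 2 + 1)) ≤ 1 := by
    rw [mul_one_div, div_le_one (by positivity)]
    linarith
  have hτ2 : 8 * (q : ℝ) ^ 2 * (1 / (32 * (q : ℝ) ^ 2 + 1)) ≤ 1 := by
    rw [mul_one_div, div_le_one (by positivity)]
    nlinarith [sq_nonneg (q : ℝ)]
  obtain ⟨q₁, d, hSt⟩ := hSt (4 * s₀ + 4 * q ^ 4 + 1) s₀ m _ hτ (by omega)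
  obtain ⟨T₂, hGC⟩ := hGC s₀ q₁ d (q * q * T₀)
  refine ⟨2 * (T₀ + 1) ^ (q * q) + T₂, fun T => ?_⟩
  obtain ⟨B₃, hU⟩ := hU T (2 * (T₀ + 1) ^ (q * q))
  obtain ⟨B₂, hGC⟩ := hGC T
  refine ⟨B₂ * B₃, ?_⟩
  intro G V κ _ _ _ _ _ ρ α P W Γ I b hd hW hP hΓ hI' hb
  have : Nontrivial W := Submodule.nontrivial_iff_ne_bot.2 hW
  obtain ⟨s1, s2, s3, s4, -⟩ := hS ℂ G V ρ W ⊤
  obtain ⟨-, j2, j3⟩ := hI G V ρ W
  obtain ⟨E, C, C₁, C₂, C₃, 𝓝, hE3⟩ := hSt W (resU ρ W).range (imS ρ W ⊤) (hQ.2 W q _ hP)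
    le_sup_right s2
    (by
      rintro _ ⟨g, rfl⟩
      exact s3 g (by rw [Subgroup.normalizer_eq_top]; trivial)) (j3 m hd)
  have hE := hE3.str
  let π : Γ →* (End ℂ W)ˣ := (resU ρ W).comp (Subgroup.inclusion hΓ)
  have hπH : ∀ g, π g ∈ (resU ρ W).range := fun g => ⟨_, rfl⟩
  have hπS : ∀ g, π g ∈ imS ρ W ⊤ := fun g => j2 (hπH g)
  obtain ⟨γ, hγ, hγr⟩ : ∃ γ : κ → Fin q × Fin q → Γ,
      (∀ i ∈ I, ∀ l ∈ P, ∀ l' ∈ P, (γ i (l, l')).1 = (b i l)⁻¹ * b i l') ∧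
      ∀ i ∈ I, ∃ r : Fin q → (End ℂ W)ˣ, (∀ l, r l ∈ (resU ρ W).range) ∧
        MinV P (fun l => α l • (r l : End ℂ W)) ∧
        ∀ Φ : (End ℂ W)ˣ → Prop, Φ 1 → (∀ l ∈ P, ∀ l' ∈ P, Φ ((r l)⁻¹ * r l')) →
          ∀ x, Φ (π (γ i x)) := by
    refine ⟨fun i x => if h : (b i x.1)⁻¹ * b i x.2 ∈ Γ ∧ x.1 ∈ P ∧ x.2 ∈ P then ⟨_, h.1⟩ else 1,
      fun i hi l hl l' hl' => by
        beta_reduce
        rw [dif_pos ⟨(hb i hi).1 l hl l' hl', hl, hl'⟩], fun i hi => ?_⟩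
    obtain ⟨g, hg⟩ : ∃ g : G, ∀ l ∈ P, g⁻¹ * b i l ∈ Γ := by
      rcases P.eq_empty_or_nonempty with h | ⟨l₀, h⟩
      · exact ⟨1, by simp [h]⟩
      · exact ⟨b i l₀, (hb i hi).1 l₀ h⟩
    let r : Fin q → stab ρ W := fun l => if h : g⁻¹ * b i l ∈ stab ρ W then ⟨_, h⟩ else 1
    have hr : ∀ l ∈ P, (r l).1 = g⁻¹ * b i l := fun l hl => by
      simp only [r]
      rw [dif_pos (hΓ (hg l hl))]
    refine ⟨fun l => resU ρ W (r l), fun l => ⟨_, rfl⟩,
      ((hB.2.2.2 ℂ G V ρ q α W).2.2.2.2 P (b i) r g hr).2.1 (hb i hi).2, ?_⟩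
    rintro Φ h1 h2 ⟨l, l'⟩
    beta_reduce
    split_ifs with h
    · have e : (resU ρ W (r l))⁻¹ * resU ρ W (r l') = π ⟨_, h.1⟩ := by
        rw [← map_inv, ← map_mul]
        refine congrArg _ (Subtype.ext ?_)
        rw [Subgroup.coe_mul, Subgroup.coe_inv, hr l h.2.1, hr l' h.2.2]
        change _ = (b i l)⁻¹ * b i l'
        group
      rw [← e]
      exact h2 l h.2.1 l' h.2.2
    · rw [map_one]
      exact h1
  have hγ' : ∀ i ∈ I, ∀ x, sig E (π (γ i x)) ≤ T₀ + 1 ∧ (supp C (π (γ i x))).card ≤ T₀ := by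
    intro i hi
    obtain ⟨r, r1, r2, r3⟩ := hγr i hi
    obtain ⟨n1, n2⟩ := hN ℂ W P α r r2
    refine r3 (fun t => sig E t ≤ T₀ + 1 ∧ (supp C t).card ≤ T₀) ⟨?_, ?_⟩ fun l hl l' hl' =>
      ⟨(n1 E hE.heis (fun m _ => hE.nE _ (Or.inl (r1 m))) l hl l' hl').trans (Nat.le_succ _),
        n2 _ C hE.comp (fun m _ => hE.nC _ (Or.inl (r1 m))) l hl l' hl'⟩
    · rw [sig, (Subgroup.relIndex_eq_one (H := fixE E 1)).2 fun e he => ⟨he, by simp⟩]
      exact Nat.le_add_left _ _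
    · rw [supp, Finset.filter_false_of_mem (by simp), Finset.card_empty]
      exact Nat.zero_le _
  have hc1 : ∀ L : Subgroup (End ℂ W)ˣ, Cen 1 L := fun L y _ => by rw [one_mul, mul_one]
  have hFx := hHi W q _ _ _ _ C₃ 𝓝 hP j2 s2 hE3.c₃ hE3.fam (by omega)
  have hC3 : ∀ L ∈ C, L ∈ C₁ ∨ (∀ i ∈ I, ∀ x, Cen (π (γ i x)) L) ∨
      (Act s₀ q₁ (imS ρ W ⊤) L (𝓝 L) ∧
      ∀ i ∈ I, ∃ N ∈ 𝓝 L s₀, ∀ x, Nm (π (γ i x)) L ∧ Cen (π (γ i x)) N) := by
    intro L hL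
    rcases hE3.cover L hL with h | h | h
    · exact Or.inl h
    · refine Or.inr (Or.inl fun i hi => ?_)
      obtain ⟨r, r1, r2, r3⟩ := hγr i hi
      have := (hRB W q _ _ (imS ρ W ⊤) C₂ hE3.c₂
        (fun L' hL' => ⟨hE3.big L' hL', hE.cS L' (hE3.sub.2.1 hL')⟩) le_sup_right s2
        (fun t ht => (hE3.nC t (Or.inr ht)).2.1) hτ.le hτ1 P α r (fun l _ => j2 (r1 l))).2 r2
      exact r3 (fun t => Cen t L) (hc1 L) fun l hl l' hl' => this l hl l' hl' L h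
    · have key : ∀ r : Fin q → (End ℂ W)ˣ, (∀ l, r l ∈ (resU ρ W).range) →
          MinV P (fun l => α l • (r l : End ℂ W)) → ∃ N ∈ 𝓝 L s₀, ∀ l ∈ P, ∀ l' ∈ P,
            Nm ((r l)⁻¹ * r l') L ∧ Cen ((r l)⁻¹ * r l') N := fun r r1 r2 =>
        hNG W _ _ _ C₃ 𝓝 hE3.c₃ hE3.fam s2 (by omega) hFx P α r (fun l _ => j2 (r1 l)) r2 L h
      rcases hE3.alt L h with h' | h'
      · refine Or.inr (Or.inr ⟨h', fun i hi => ?_⟩)
        obtain ⟨r, r1, r2, r3⟩ := hγr i hi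
        obtain ⟨N, hN1, hN2⟩ := key r r1 r2
        exact ⟨N, hN1, r3 (fun t => Nm t L ∧ Cen t N) ⟨one_mem _, hc1 N⟩ hN2⟩
      · refine Or.inr (Or.inl fun i hi => ?_)
        obtain ⟨r, r1, r2, r3⟩ := hγr i hi
        obtain ⟨N, hN1, hN3⟩ := key r r1 r2
        have hmu : MU L := by
          have := hE3.c₃.mu {L} (Finset.singleton_subset_iff.2 h)
          rwa [Finset.sup_singleton] at this
        exact r3 (fun t => Cen t L) (hc1 L)
          (hN2 W q s₀ _ _ L N (𝓝 L) hmu h' hN1 hτ2 P α r (fun l _ => j2 (r1 l)) r2 hN3)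
  have hgain : ∀ (K : Subgroup Γ) (I' : Finset κ), I' ⊆ I → T < K.index →
      I.card ≤ (2 * (T₀ + 1) ^ (q * q) + T₂) * I'.card → (∀ i ∈ I', Set.range (γ i) ⊆ K) →
      ∃ (K : Subgroup G) (I' : Finset κ), I' ⊆ I ∧ T < K.relIndex Γ ∧
        I.card ≤ (2 * (T₀ + 1) ^ (q * q) + T₂) * I'.card ∧ ∀ i ∈ I', Rat P (b i) K :=
    fun K I' h1 h2 h3 h4 => ⟨K.map Γ.subtype, I', h1, by rwa [gain_idx], h3,
      fun i hi l hl l' hl' => ⟨γ i (l, l'), h4 i hi ⟨_, rfl⟩, hγ i (h1 hi) l hl l' hl'⟩⟩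
  obtain ⟨X, _, _, p, φ, p1, p2, p3⟩ := gain_quot (Zs ℂ W) E gain_Zs hE.heis.fin hE.heis.comm π
    fun g => hE.nE _ (Or.inl (hπH g))
  have hfix : ∀ g (e : E), φ g (p e) = p e ↔ ⁅π g, e.1⁆ ∈ Zs ℂ W := fun g e => by
    obtain ⟨c, c1, c2⟩ := p3 g e
    rw [← mul_inv_eq_one, c2, p2, c1]
  rcases hGA Γ X κ ((MulAut.toPerm X).comp φ) I (fun i => Set.range (γ i)) ((T₀ + 1) ^ (q * q)) T
    (fun i hi => by
      have := gain_fix φ (γ i) (T := T₀ + 1) fun x => by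
        rw [← Subgroup.index_comap_of_surjective _ p1]
        refine le_of_eq_of_le (congrArg Subgroup.index ?_) (hγ' i hi x).1
        ext e
        exact (hfix _ e).trans ⟨fun h => ⟨e.2, h⟩, fun h => h.2⟩
      rwa [Fintype.card_prod, Fintype.card_fin] at this) hI' with ⟨K, I', h1, h2, h3, h4⟩ | h0
  · exact Or.inl (hgain K I' h1 h2 (h3.trans (Nat.mul_le_mul_right _ (Nat.le_add_right _ _))) h4)
  obtain ⟨N₃, E₁, E₂, n3, i3, u3⟩ := hU Γ X φ h0
  rcases hGC W Γ κ (imS ρ W ⊤) C C₁ 𝓝 π I (Fin q × Fin q) γ hE3.sub.1 hE3.c₁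
    (fun g => ⟨hπS g, (hE3.nC _ (Or.inr (hπS g))).1⟩) hI'
    (fun i hi => (Finset.sum_le_card_nsmul _ _ T₀ fun x _ => (hγ' i hi x).2).trans (by simp))
    hC3 with ⟨K, I', h1, h2, h3, h4⟩ | ⟨N₂, n2, i2, u2⟩
  · exact Or.inl (hgain K I' h1 h2 (h3.trans (Nat.mul_le_mul_right _ (Nat.le_add_left _ _))) h4)
  have hmem : ∀ (E' : Subgroup X) (e : E), e.1 ∈ (E'.comap p).map E.subtype ↔ p e ∈ E' :=
    fun E' e => ⟨fun ⟨x, hx, h⟩ => (Subtype.ext h : x = e) ▸ hx, fun h => ⟨e, h, rfl⟩⟩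
  have hZ : ∀ E' : Subgroup X, Zs ℂ W ≤ (E'.comap p).map E.subtype := fun E' z hz =>
    (hmem E' ⟨z, hE.heis.le hz⟩).2 (by rw [(p2 _).2 hz]; exact one_mem _)
  have g1 := hNi W _ _ _ E ((N₂ ⊓ N₃).map π) ((E₁.comap p).map E.subtype)
    ((E₂.comap p).map E.subtype) C hE (by rintro _ ⟨g, -, rfl⟩; exact hπS g)
    (by
      rw [← (hB.2.2.1 Γ (N₂ ⊓ N₃) 2).2.2.2 _ π]
      rintro _ ⟨g, hg, rfl⟩
      exact u2 g ((hB.2.2.1 Γ N₂ 2).2.2.1 _ inf_le_left hg)) (by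
      rintro _ ⟨g, hg, rfl⟩
      obtain ⟨a1, a2, a3⟩ := u3 g hg.2
      refine ⟨fun e he => ?_, fun e he he' => ?_, fun e he he' =>
        (hfix g ⟨e, he⟩).1 (a3 _ ((hmem _ ⟨e, he⟩).1 he'))⟩
      · obtain ⟨c, c1, c2⟩ := p3 g ⟨e, he⟩
        exact c1 ▸ (hmem _ c).2 (c2 ▸ a1 _)
      · obtain ⟨c, c1, c2⟩ := p3 g ⟨e, he⟩
        exact c1 ▸ (hmem _ c).2 (c2 ▸ a2 _ ((hmem _ ⟨e, he⟩).1 he'))) (hZ _) (hZ _)
  refine Or.inr ⟨(N₂ ⊓ N₃).map Γ.subtype, Subgroup.map_subtype_le _, ?_, ?_, ?_⟩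
  · refine le_trans ?_ (Subgroup.le_normalizer_map _)
    rw [Subgroup.normalizer_eq_top, ← MonoidHom.range_eq_map, Subgroup.range_subtype]
  · rw [gain_idx]
    exact Subgroup.index_inf_le.trans (Nat.mul_le_mul i2 i3)
  · rw [← (hB.2.2.1 Γ (N₂ ⊓ N₃) 5).2.2.2 G Γ.subtype]
    rintro _ ⟨g, hg, rfl⟩
    rw [← (hB.2.2.1 Γ (N₂ ⊓ N₃) 5).2.2.2 _ π] at g1
    exact (s4 (Subgroup.inclusion hΓ g) hW).2 (g1 ⟨g, hg, rfl⟩)

end Pool.Agent.Work.MP_11a08a_al.Lin
end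
end
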