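import Pool.Agent.Work.MP_11a08a_al.Lin.DefsG
import Pool.Agent.Work.MP_11a08a_al.Sol.Rank

-- merged part: Pool.Agent.Work.MP_11a08a_al.Lin.SS
section
/-!
`SemiSim h` has data `θ, c, f`.  Composition: `θ.trans θ'`, `c' * θ' c`, `f.trans f'`.  Inverse: `θ.symm`, `θ.symm c⁻¹`, `f.symm`.  There are `v, w` with `β v w = 1` (`p.nd`, scale `v`); comparing `β (h w) (h v) = ε σ (β (h v) (h w))` with `c θ (β w v)`, `β w v = ε`, `θ ε = ε`
gives `σ c = c`.  So the constant `c⁻¹` works for Eichler maps (every vector is `h v`).  `U'` has carrier `{y | h.symm y ∈ U}`.  Dimensions: `rank_eq_of_equiv_equiv` with `θ` and the restriction of `h`.  A permutation `f` of `Bool` has `f (!s) = !(f s)`, so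
`Adm U s x w` gives `Adm U' (f s) (h x) (c⁻¹ • h w)`, and `e'` exists by item 1 of `hE`... then it satisfies `e' (h v) = h (e v)` by computation.  The last item by closure induction (for inverses: `e' (h v) = h (e v)` gives `e'⁻¹ (h v) = h (e⁻¹ v)`).
-/

set_option autoImplicit false

open Module
open scoped commutatorElement

namespace Pool.Agent.Work.MP_11a08a_al.Lin

section

variable {K V : Type} [Field K] [AddCommGroup V] [Module K V] (p : Polar K V)

theorem ss_symm {h : V ≃+ V} (hh : p.SemiSim h) : p.SemiSim h.symm := by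
  obtain ⟨θ, c, f, hc, h1, h2, h3, h4⟩ := hh
  refine ⟨θ.symm, θ.symm c⁻¹, f.symm, ?_, fun a v => ?_, fun v w => ?_, fun v => ?_,
    fun s v => ?_⟩
  · simpa using hc
  · apply h.injective
    rw [h1]
    simp
  · have := h2 (h.symm v) (h.symm w)
    rw [h.apply_symm_apply, h.apply_symm_apply] at this
    rw [this, ← map_mul, ← mul_assoc, inv_mul_cancel₀ hc, one_mul, θ.symm_apply_apply]
  · have := h3 (h.symm v)
    rw [h.apply_symm_apply] at this
    exact this.symm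
  · have := h4 (f.symm s) (h.symm v)
    rw [h.apply_symm_apply, f.apply_symm_apply] at this
    exact this.symm

theorem ss_trans {h h' : V ≃+ V} (hh : p.SemiSim h) (hh' : p.SemiSim h') :
    p.SemiSim (h.trans h') := by
  obtain ⟨θ, c, f, hc, h1, h2, h3, h4⟩ := hh
  obtain ⟨θ', c', f', hc', h1', h2', h3', h4'⟩ := hh'
  refine ⟨θ.trans θ', c' * θ' c, f.trans f', ?_, fun a v => ?_, fun v w => ?_, fun v => ?_,
    fun s v => ?_⟩
  · exact mul_ne_zero hc' (by simpa using hc)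
  · simp only [AddEquiv.trans_apply, RingEquiv.trans_apply, h1, h1']
  · simp only [AddEquiv.trans_apply, RingEquiv.trans_apply, h2, h2', map_mul, mul_assoc]
  · simp only [AddEquiv.trans_apply]
    exact (h3' _).trans (h3 v)
  · simp only [AddEquiv.trans_apply, Equiv.trans_apply]
    exact (h4' _ _).trans (h4 s v)

theorem ss_O {h : V ≃ₗ[K] V} (hh : h ∈ p.O) : p.SemiSim h.toAddEquiv := by
  obtain ⟨h1, h2, h3⟩ := hh
  refine ⟨RingEquiv.refl K, 1, 1, one_ne_zero, fun a v => h.map_smul a v, fun v w => ?_,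
    fun v => ?_, fun s v => h3 s v⟩
  · rw [one_mul]
    exact h1 v w
  · constructor
    · intro hv
      have := p.Λ.sub_mem hv (h2 v)
      simpa using this
    · intro hv
      have := p.Λ.add_mem (h2 v) hv
      simpa using this

theorem ss_eps (θ : K ≃+* K) : θ p.ε = p.ε := by
  rcases p.eps with h | h <;> simp [h]

theorem ss_one [Nontrivial V] : ∃ v w, p.β v w = 1 := by
  obtain ⟨v, hv⟩ := exists_ne (0 : V)
  have : ∃ w, p.β v w ≠ 0 := by
    by_contra hc
    exact hv (p.nd v fun w => by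
      by_contra h
      exact hc ⟨w, h⟩)
  obtain ⟨w, hw⟩ := this
  exact ⟨(p.β v w)⁻¹ • v, w, by rw [p.β_smul_left, inv_mul_cancel₀ hw]⟩

theorem ss_sigma [Nontrivial V] {h : V ≃+ V} {θ : K ≃+* K} {c : K}
    (h2 : ∀ v w, p.β (h v) (h w) = c * θ (p.β v w)) : p.σ c = c := by
  obtain ⟨v, w, hvw⟩ := ss_one p
  have e1 := h2 w v
  rw [p.β_symm (h v) (h w), h2 v w, p.β_symm v w, hvw] at e1
  simp only [map_one, mul_one, ss_eps] at e1
  rw [mul_comm c] at e1
  exact mul_left_cancel₀ p.ε_ne e1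

theorem ss_calc [Nontrivial V] {h : V ≃+ V} {θ : K ≃+* K} {c : K} (hc : c ≠ 0)
    (h1 : ∀ (a : K) v, h (a • v) = θ a • h v)
    (h2 : ∀ v w, p.β (h v) (h w) = c * θ (p.β v w)) (x w v : V) :
    h (v + p.β v x • w - (p.ε * p.β v w) • x) =
      h v + p.β (h v) (h x) • (c⁻¹ • h w) - (p.ε * p.β (h v) (c⁻¹ • h w)) • h x := by
  have hs := ss_sigma p h2
  rw [map_sub, map_add, h1, h1, p.β_smul_right, h2, h2, map_inv₀, hs, smul_smul, map_mul,
    ss_eps]
  congr 2
  · congr 1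
    field_simp
  · field_simp

theorem ss_not (f : Equiv.Perm Bool) (s : Bool) : f (!s) = !(f s) := by
  have : f (!s) ≠ f s := fun h => by simpa using f.injective h
  revert this
  cases f (!s) <;> cases f s <;> simp

theorem ss_gr {h : V ≃+ V} {f : Equiv.Perm Bool} (h4 : ∀ s v, h v ∈ p.P (f s) ↔ v ∈ p.P s)
    {U U' : Submodule K V} (hU : ∀ v, h v ∈ U' ↔ v ∈ U) (hg : p.Gr U) : p.Gr U' := by
  intro y hy
  obtain ⟨v, rfl⟩ := h.surjective y
  obtain ⟨a, ha, b, hb, rfl⟩ := Submodule.mem_sup.1 (hg ((hU v).1 hy))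
  have key : ∀ s, ∀ z ∈ U ⊓ p.P s, h z ∈ U' ⊓ p.P true ⊔ U' ⊓ p.P false := by
    intro s z hz
    have h5 : h z ∈ U' ⊓ p.P (f s) := ⟨(hU z).2 hz.1, (h4 s z).2 hz.2⟩
    revert h5
    cases f s
    · exact fun h5 => Submodule.mem_sup_right h5
    · exact fun h5 => Submodule.mem_sup_left h5
  rw [map_add]
  exact Submodule.add_mem _ (key _ a ha) (key _ b hb)

theorem ss_rank {h : V ≃+ V} {θ : K ≃+* K} (h1 : ∀ (a : K) v, h (a • v) = θ a • h v)
    {U U' : Submodule K V} (hU : ∀ v, h v ∈ U' ↔ v ∈ U) : finrank K U' = finrank K U := by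
  let j : U ≃+ U' :=
    { toFun := fun v => ⟨h v, (hU v).2 v.2⟩
      invFun := fun y => ⟨h.symm y, (hU _).1 (by rw [h.apply_symm_apply]; exact y.2)⟩
      left_inv := fun v => Subtype.ext (h.symm_apply_apply _)
      right_inv := fun y => Subtype.ext (h.apply_symm_apply _)
      map_add' := fun a b => Subtype.ext (h.map_add _ _) }
  have := rank_eq_of_equiv_equiv θ j θ.bijective fun a v => Subtype.ext (h1 a v)
  unfold finrank
  rw [this]

end

theorem ss (hE : StmtPE) : StmtSS := by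
  intro K V _ _ _ _ _ p
  refine ⟨fun h hh => ss_O p hh, fun h h' a b => ss_trans p a b, fun h hh => ?_⟩
  refine ⟨ss_symm p hh, ?_⟩
  obtain ⟨θ, c, f, hc, h1, h2, h3, h4⟩ := hh
  have hz : ∀ v w, p.β (h v) (h w) = 0 ↔ p.β v w = 0 := by
    intro v w
    rw [h2, mul_eq_zero, map_eq_zero_iff θ θ.injective]
    exact or_iff_right hc
  have hIs : ∀ U U' : Submodule K V, (∀ v, h v ∈ U' ↔ v ∈ U) →
      ∀ e, p.IsE U e → ∃ e', p.IsE U' e' ∧ ∀ v, e' (h v) = h (e v) := by
    rintro U U' hU e ⟨s, x, w, ⟨a1, a2, a3, a4, a5⟩, he⟩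
    have hA : p.Adm U' (f s) (h x) (c⁻¹ • h w) := by
      refine ⟨⟨(hU x).2 a1.1, ?_⟩, Submodule.smul_mem _ _ ⟨(hU w).2 a2.1, (h4 s w).2 a2.2⟩,
        (h3 x).2 a3, Polar.Sing.smul ((h3 w).2 a4) _, ?_⟩
      · rw [← ss_not]
        exact (h4 _ x).2 a1.2
      · rw [p.β_smul_right, (hz x w).2 a5, mul_zero]
    obtain ⟨e', he'⟩ := (hE K V p).1 U' _ _ _ hA
    refine ⟨e', ⟨_, _, _, hA, he'⟩, fun v => ?_⟩
    rw [he' (h v), he v, ss_calc p hc h1 h2]
  refine ⟨⟨c⁻¹, inv_ne_zero hc, fun x w e e' he hee y => ?_⟩, hz, fun U => ?_,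
    fun U U' hU => ⟨ss_rank h1 hU, fun hN => ⟨ss_gr p h4 hU hN.1, ?_⟩, hIs U U' hU, ?_⟩⟩
  · obtain ⟨v, rfl⟩ := h.surjective y
    rw [hee, he v, ss_calc p hc h1 h2]
  · refine ⟨{ carrier := {y | h.symm y ∈ U}
              add_mem' := fun {a b} ha hb => ?_
              zero_mem' := ?_
              smul_mem' := fun a y hy => ?_ }, fun v => ?_⟩
    · show h.symm (a + b) ∈ U
      rw [map_add]
      exact U.add_mem ha hb
    · show h.symm 0 ∈ U
      rw [map_zero]
      exact U.zero_mem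
    · show h.symm (a • y) ∈ U
      have e : h.symm (a • y) = θ.symm a • h.symm y := by
        apply h.injective
        rw [h1]
        simp
      rw [e]
      exact U.smul_mem _ hy
    · show h.symm (h v) ∈ U ↔ v ∈ U
      rw [h.symm_apply_apply]
  · rw [eq_bot_iff]
    intro y hy
    obtain ⟨v, rfl⟩ := h.surjective y
    have hv : v ∈ U ⊓ p.perp U :=
      ⟨(hU v).1 hy.1, fun u hu => (hz v u).1 (hy.2 (h u) ((hU u).2 hu))⟩
    rw [hN.2, Submodule.mem_bot] at hv
    rw [hv, map_zero]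
    exact Submodule.zero_mem _
  · intro e he
    induction he using Subgroup.closure_induction with
    | mem e he =>
      obtain ⟨e', h5, h6⟩ := hIs U U' hU e he
      exact ⟨e', Subgroup.subset_closure h5, h6⟩
    | one => exact ⟨1, Subgroup.one_mem _, fun _ => rfl⟩
    | mul a b _ _ ha hb =>
      obtain ⟨a', h5, h6⟩ := ha
      obtain ⟨b', h7, h8⟩ := hb
      refine ⟨a' * b', Subgroup.mul_mem _ h5 h7, fun v => ?_⟩
      show a' (b' (h v)) = h (a (b v))
      rw [h8, h6]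
    | inv a _ ha =>
      obtain ⟨a', h5, h6⟩ := ha
      refine ⟨a'⁻¹, Subgroup.inv_mem _ h5, fun v => ?_⟩
      show a'.symm (h v) = h (a.symm v)
      rw [LinearEquiv.symm_apply_eq, h6, a.apply_symm_apply]

end Pool.Agent.Work.MP_11a08a_al.Lin
end

-- merged part: Pool.Agent.Work.MP_11a08a_al.Lin.WS
section
/-!
Exchange: for a subspace `Y`, if `v ∈ Y ⊔ span {u}` and `v ∉ Y` then `u ∈ Y ⊔ span {v}`.
Move lemma: if `v ∈ P s`, `w ∈ U ⊓ P s` is singular, `β w r = 0` for `r ∈ R`, `β v w = 0` and `v ∉ bad U s (insert w R)`, then some `e ∈ A U` fixes `R` and `e v = v + w`: take `x ∈ U ⊓ P (!s)` singular from `hR` (sort `!s`, the finset `insert v (insert w R)`,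
`c v = ε`, `c = 0` elsewhere, `T = ∅`; the condition holds because a relation with `a v ≠ 0` puts `v` in `bad`), `β v x = 1`, and `e` is the Eichler map of `(x, w)`.
First move: `u₁` singular, orthogonal to `R` and `v`, outside `bad U s (R ∪ {v, v'})`; `v₁ = v + u₁` is reached from `v` (exchange), `v₁ ∉ bad U s (insert v' R)`, so `v' ∉ bad U s (insert v₁ R)`; the hypotheses hold for `v₁, v'`.  Put `d = v' - v₁`, so `λ = g d d + β v₁ d ∈ Λ`.
Take `u ∈ U ⊓ P s` singular, orthogonal to `R` and `v₁`, with `β u d = β d v₁ + β d d`, outside `bad U s (R ∪ {v₁, v'})`.  The condition of `hR`: in the split case the constant is zero; if all `P s = ⊤` a relation with `a d ≠ 0` gives `d ∈ bad U s (insert v₁ R)`, so `v'` lies there too, which is false.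
Then `v₁ ↦ v₁ + u` and `v' ↦ v' + (u - d) = v₁ + u` by the move lemma: `g (u - d) (u - d) ≡ g d d - β u d = - ε σ λ = λ` modulo `Λ` (`p.up`), `β v' (u - d) = 0` as `β d u = ε σ (β u d) = β v₁ d + β d d`, and `u - d ∉ bad U s (insert v' R)`.
-/

set_option autoImplicit false

open Module
open scoped commutatorElement

namespace Pool.Agent.Work.MP_11a08a_al.Lin

open Polar

section

variable {K V : Type} [Field K] [AddCommGroup V] [Module K V]

theorem ws_exch {Y : Submodule K V} {u v : V} (h : v ∈ Y ⊔ Submodule.span K {u}) (hv : v ∉ Y) :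
    u ∈ Y ⊔ Submodule.span K {v} := by
  obtain ⟨y, hy, z, hz, rfl⟩ := Submodule.mem_sup.1 h
  obtain ⟨a, rfl⟩ := Submodule.mem_span_singleton.1 hz
  have ha : a ≠ 0 := by
    rintro rfl
    exact hv (by simpa using hy)
  have e : u = -(a⁻¹ • y) + a⁻¹ • (y + a • u) := by
    rw [smul_add, smul_smul, inv_mul_cancel₀ ha, one_smul, neg_add_cancel_left]
  rw [e]
  refine Submodule.add_mem _ (Submodule.mem_sup_left (Y.neg_mem (Y.smul_mem _ hy)))
    (Submodule.mem_sup_right (Submodule.smul_mem _ _ ?_))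
  rw [← e]
  exact Submodule.mem_span_singleton_self _

variable [DecidableEq V] {p : Polar K V} {U : Submodule K V} {s : Bool} {R : Finset V}

theorem ws_bad_insert (u : V) :
    p.bad U s (insert u R) = p.bad U s R ⊔ Submodule.span K {u} := by
  rw [bad, bad, Finset.coe_insert, Submodule.span_insert, sup_comm (Submodule.span K {u}),
    sup_right_comm]

theorem ws_bad_le (u : V) : p.bad U s R ≤ p.bad U s (insert u R) := by
  rw [ws_bad_insert]
  exact le_sup_left

theorem ws_bad_self (u : V) : u ∈ p.bad U s (insert u R) := by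
  rw [ws_bad_insert]
  exact Submodule.mem_sup_right (Submodule.mem_span_singleton_self u)

theorem ws_bad_exch {u v : V} (hv : v ∉ p.bad U s R) (hu : u ∉ p.bad U s (insert v R)) :
    v ∉ p.bad U s (insert u R) := by
  rw [ws_bad_insert] at hu ⊢
  exact fun h => hu (ws_exch h hv)

variable [Finite K] [FiniteDimensional K V]

theorem ws_get (hR : StmtRL) (hU : p.Nd U) (s : Bool) (R T : Finset V) (d : V) (κ : K)
    (h1 : 2 * R.card + 7 ≤ p.rk U) (h2 : R.card + T.card + 4 ≤ p.rk U)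
    (hd : κ = 0 ∨ d ∉ Submodule.span K (R : Set V) ⊔ p.perp (U ⊓ p.P s)) :
    ∃ x ∈ U ⊓ p.P s, p.Sing x ∧ p.β x d = κ ∧ (∀ r ∈ R, p.β x r = 0) ∧ x ∉ p.bad U s T := by
  have H := ((hR K V p U hU).1 s (R.card + 1) (insert d R) T (Finset.card_insert_le _ _)
    (by omega) (by omega)).2
  rcases hd with rfl | hd
  · obtain ⟨x, x1, x2, x3, x4⟩ := H (fun _ => 0) (fun a _ => by simp)
    exact ⟨x, x1, x2, x3 d (Finset.mem_insert_self _ _),
      fun r hr => x3 r (Finset.mem_insert_of_mem hr), x4⟩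
  · have dR : d ∉ R := fun h => hd (Submodule.mem_sup_left (Submodule.subset_span h))
    have cR : ∀ r ∈ R, (if r = d then κ else 0) = 0 := fun r hr =>
      if_neg fun h => dR (by rwa [h] at hr)
    obtain ⟨x, x1, x2, x3, x4⟩ := H (fun r => if r = d then κ else 0) (fun a ha => by
      rw [Finset.sum_insert dR] at ha ⊢
      have h0 : a d = 0 := by
        by_contra h0
        refine hd ?_
        have e : d = -((a d)⁻¹ • ∑ r ∈ R, a r • r) + (a d)⁻¹ • (a d • d + ∑ r ∈ R, a r • r) := by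
          rw [smul_add, smul_smul, inv_mul_cancel₀ h0, one_smul]
          abel
        have m : -((a d)⁻¹ • ∑ r ∈ R, a r • r) + (a d)⁻¹ • (a d • d + ∑ r ∈ R, a r • r) ∈
            Submodule.span K (R : Set V) ⊔ p.perp (U ⊓ p.P s) :=
          Submodule.add_mem _ (Submodule.mem_sup_left (Submodule.neg_mem _ (Submodule.smul_mem _ _
            (Submodule.sum_mem _ fun r hr => Submodule.smul_mem _ _ (Submodule.subset_span hr)))))
            (Submodule.mem_sup_right (Submodule.smul_mem _ _ ha))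
        rwa [← e] at m
      rw [h0, map_zero, zero_mul, zero_add]
      exact Finset.sum_eq_zero fun r hr => by rw [cR r hr, mul_zero])
    refine ⟨x, x1, x2, ?_, fun r hr => ?_, x4⟩
    · simpa using x3 d (Finset.mem_insert_self _ _)
    · rw [x3 r (Finset.mem_insert_of_mem hr), cR r hr]

theorem ws_move (hE : StmtPE) (hR : StmtRL) (hU : p.Nd U) (hk : 2 * R.card + 9 ≤ p.rk U) {v w : V}
    (hw : w ∈ U ⊓ p.P s) (sw : p.Sing w) (hr : ∀ r ∈ R, p.β w r = 0) (hvw : p.β v w = 0)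
    (hv : v ∉ p.bad U s (insert w R)) : ∃ e ∈ p.A U, (∀ r ∈ R, e r = r) ∧ e v = v + w := by
  have hc := Finset.card_insert_le w R
  obtain ⟨x, x1, x2, x3, x4, -⟩ := ws_get hR hU (!s) (insert w R) ∅ v p.ε (by omega)
    (by rw [Finset.card_empty]; omega) (Or.inr hv)
  have ad : p.Adm U s x w := ⟨x1, hw, x2, sw, x4 w (Finset.mem_insert_self _ _)⟩
  obtain ⟨e, he⟩ := (hE K V p).1 U s x w ad
  refine ⟨e, Subgroup.subset_closure ⟨s, x, w, ad, he⟩, fun r h => ?_, ?_⟩
  · rw [he r, p.β_comm.1 (x4 r (Finset.mem_insert_of_mem h)), p.β_comm.1 (hr r h)]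
    simp
  · rw [he v, hvw, p.β_symm x v, x3]
    simp

theorem ws_two (hE : StmtPE) (hR : StmtRL) (hU : p.Nd U) (hk : 2 * R.card + 9 ≤ p.rk U) {v v' : V}
    (hv : v ∈ p.P s) (hv' : v' ∈ p.P s) (hg : p.g v' v' - p.g v v ∈ p.Λ) (hd : v' - v ∈ U)
    (hr : ∀ r ∈ R, p.β v' r = p.β v r) (b : v ∉ p.bad U s R) (b0 : v' ∉ p.bad U s R)
    (b' : v' ∉ p.bad U s (insert v R)) : ∃ e ∈ p.A U, (∀ r ∈ R, e r = r) ∧ e v = v' := by
  obtain ⟨d, rfl⟩ : ∃ d, v' = v + d := ⟨v' - v, by abel⟩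
  rw [add_sub_cancel_left] at hd
  have dP : d ∈ p.P s := by simpa using (p.P s).sub_mem hv' hv
  have hl : p.g d d + p.β v d ∈ p.Λ := by
    have := p.Λ.sub_mem hg (p.g_add v d)
    convert this using 1
    ring
  have c1 := Finset.card_insert_le v R
  have c2 := Finset.card_insert_le (v + d) (insert v R)
  obtain ⟨u, u1, u2, u3, u4, u5⟩ := ws_get hR hU s (insert v R) (insert (v + d) (insert v R)) d
    (p.β d v + p.β d d) (by omega) (by omega) (by
      rcases p.sorts with h | h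
      · refine Or.inr fun k => b' (Submodule.add_mem _ (ws_bad_self v) ?_)
        rwa [bad, h (!s), ← h s]
      · have k1 : p.β d v = 0 := (h.2 s d dP).2 v hv
        have k2 : p.β d d = 0 := (h.2 s d dP).2 d dP
        exact Or.inl (by rw [k1, k2, add_zero]))
  have uv : p.β v u = 0 := p.β_comm.1 (u4 v (Finset.mem_insert_self _ _))
  have ur : ∀ r ∈ R, p.β u r = 0 := fun r h => u4 r (Finset.mem_insert_of_mem h)
  obtain ⟨e1, m1, f1, g1⟩ := ws_move hE hR hU hk u1 u2 ur uv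
    (ws_bad_exch b fun k => u5 (ws_bad_le _ k))
  have sw : p.Sing (u - d) := by
    have k1 := p.g_add u (-d)
    have k2 := p.up _ hl
    have k3 : p.g (-d) (-d) = p.g d d := by simp
    have k4 := p.β_symm v d
    have k5 : p.β d d = p.g d d + p.ε * p.σ (p.g d d) := rfl
    rw [k3, p.β_neg_right, u3, ← sub_eq_add_neg u d] at k1
    rw [map_add, mul_add, ← k4] at k2
    have k6 := p.Λ.add_mem (p.Λ.add_mem k1 u2) hl
    rw [Sing]
    convert k6 using 1
    linear_combination -k5 - k2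
  obtain ⟨e2, m2, f2, g2⟩ := ws_move (s := s) (v := v + d) hE hR hU hk
    (Submodule.sub_mem _ u1 ⟨hd, dP⟩) sw (fun r h => by
      have := hr r h
      rw [p.β_add_left] at this
      rw [p.β_sub_left, ur r h]
      linear_combination -this) (by
      have k1 := p.β_symm u d
      have k2 := p.β_symm d v
      have k3 := p.β_symm d d
      rw [u3, map_add, mul_add, ← k2, ← k3] at k1
      rw [p.β_add_left, p.β_sub_right, p.β_sub_right, uv, k1]
      ring) (ws_bad_exch b0 fun k => u5 (by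
      have k1 : p.bad U s (insert (v + d) R) ≤ p.bad U s (insert (v + d) (insert v R)) := by
        rw [Finset.insert_comm]
        exact ws_bad_le _
      have k2 := Submodule.sub_mem _ (Submodule.add_mem _ (k1 k) (ws_bad_self (v + d)))
        (ws_bad_le (v + d) (ws_bad_self v))
      convert k2 using 1
      abel))
  refine ⟨e2⁻¹ * e1, (p.A U).mul_mem ((p.A U).inv_mem m2) m1, fun r h => ?_, ?_⟩
  · exact e2.symm_apply_eq.2 ((f1 r h).trans (f2 r h).symm)
  · exact e2.symm_apply_eq.2 (by rw [g2]; exact g1.trans (by abel))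

end

theorem ws (hB : StmtPB) (hE : StmtPE) (hR : StmtRL) : StmtWS := by
  have _ := hB
  intro K V _ _ _ _ _ p U hU s R v v' hk hv hv' hg hd hr b b'
  classical
  have c1 := Finset.card_insert_le v' R
  have c2 := Finset.card_insert_le v (insert v' R)
  obtain ⟨u, u1, u2, u3, u4, u5⟩ := ws_get hR hU s R (insert v (insert v' R)) v 0 (by omega)
    (by omega) (Or.inl rfl)
  have uv : p.β v u = 0 := p.β_comm.1 u3
  obtain ⟨e1, m1, f1, g1⟩ := ws_move hE hR hU (by omega) u1 u2 u4 uv (ws_bad_exch b fun k => u5 (by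
    rw [Finset.insert_comm]
    exact ws_bad_le _ k))
  have b1 : v + u ∉ p.bad U s (insert v' R) := fun k => u5 (by
    simpa using Submodule.sub_mem _ (ws_bad_le v k) (ws_bad_self v))
  obtain ⟨e2, m2, f2, g2⟩ := ws_two (s := s) (v := v + u) (v' := v') hE hR hU (by omega)
    ((p.P s).add_mem hv u1.2) hv' (by
      have k1 := p.g_add v u
      rw [uv] at k1
      have k2 := p.Λ.sub_mem (p.Λ.sub_mem hg k1) u2
      convert k2 using 1
      ring) (by
      have k := U.sub_mem hd u1.1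
      convert k using 1
      abel) (fun r h => by rw [p.β_add_left, u4 r h, add_zero, hr r h])
    (fun k => b1 (ws_bad_le _ k)) b' (ws_bad_exch b' b1)
  refine ⟨e2 * e1, (p.A U).mul_mem m2 m1, fun r h => ?_, ?_⟩
  · exact (congrArg e2 (f1 r h)).trans (f2 r h)
  · exact (congrArg e2 g1).trans g2

end Pool.Agent.Work.MP_11a08a_al.Lin
end

-- merged part: Pool.Agent.Work.MP_11a08a_al.Lin.WT
section
/-!
First part: by induction on `k ≤ j` there is `e ∈ A U` with `e (v i) = v' i` for `i < k`.  The tuple `e ∘ v` satisfies all hypotheses again (`e ∈ OU U`, `e v - v ∈ U`; if `∑ a i • e (v i) = y ∈ perp U` then `∑ a i • v i = e⁻¹ y = y`).  Apply `hS` to `e (v k)`, `v' k` and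
`R = {v' i | i < k}`; a vector of an independent tuple is not in `bad U s R` by the last part of item 6 of `hB`.
Second part: fix `J` with `2 J + 13 ≤ rk U` and prove `q ^ (j * (rk U - J - 3)) ≤ ncard` for `j ≤ J` by induction.  Restrict tuples on `Fin (j + 1)` to `Fin j` (`Fin.init` or `Fin.tail`); the fibre over `e ∘ init v` contains the tuples with last entry `e (v last + u)`, where `u` runs over the singular vectors of
`U ⊓ P s` orthogonal to all `v i` and outside `bad U s (range v)` (`hR` with `x₀ = 0`, `R = T =` the image of `v`, bound `J`); `hS` with `R = {v i | i < j}` gives `e' ∈ A U` fixing these with `e' (v last) = v last + u` (`g_add`, `β (v last) u = 0`).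
Count with `Finset.mul_card_image_le_card` or `Finset.card_eq_sum_card_fiberwise`.
-/

set_option autoImplicit false

open Module
open scoped commutatorElement

namespace Pool.Agent.Work.MP_11a08a_al.Lin

section

variable {K V : Type} [Field K] [AddCommGroup V] [Module K V] {p : Polar K V}

theorem wt_notmem {W : Submodule K V} {j : ℕ} {s : Fin j → Bool} {v : Fin j → V}
    (h : p.Ind W s v) (k : Fin j) (T : Finset V) (hT : ∀ t ∈ T, ∃ i, i ≠ k ∧ t = v i) :
    v k ∉ Submodule.span K (T : Set V) ⊔ W := by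
  classical
  intro hm
  obtain ⟨y, hy, z, hz, hyz⟩ := Submodule.mem_sup.mp hm
  have key : ∀ y ∈ Submodule.span K (T : Set V), ∃ a : Fin j → K, a k = 0 ∧ y = ∑ i, a i • v i := by
    intro y hy
    induction hy using Submodule.span_induction with
    | mem t ht =>
      obtain ⟨i, hi, rfl⟩ := hT t ht
      refine ⟨Pi.single i 1, Pi.single_eq_of_ne hi.symm 1, ?_⟩
      rw [Finset.sum_eq_single i]
      · simp
      · intro b _ hb
        rw [Pi.single_eq_of_ne hb, zero_smul]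
      · intro hi'
        exact absurd (Finset.mem_univ i) hi'
    | zero => exact ⟨0, rfl, by simp⟩
    | add x y _ _ hx hy =>
      obtain ⟨a, ha, rfl⟩ := hx
      obtain ⟨b, hb, rfl⟩ := hy
      refine ⟨a + b, by simp [ha, hb], ?_⟩
      simp only [Pi.add_apply, add_smul, Finset.sum_add_distrib]
    | smul c x _ hx =>
      obtain ⟨a, ha, rfl⟩ := hx
      refine ⟨c • a, by simp [ha], ?_⟩
      simp only [Pi.smul_apply, smul_eq_mul, mul_smul, Finset.smul_sum]
  obtain ⟨a, ha, rfl⟩ := key y hy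
  have h1 : ∑ i, (Pi.single k 1 - a : Fin j → K) i • v i = z := by
    simp only [Pi.sub_apply, sub_smul, Finset.sum_sub_distrib]
    have h2 : ∑ i, (Pi.single k 1 : Fin j → K) i • v i = v k := by
      rw [Finset.sum_eq_single k]
      · simp
      · intro b _ hb
        rw [Pi.single_eq_of_ne hb, zero_smul]
      · intro hi'
        exact absurd (Finset.mem_univ k) hi'
    rw [h2, ← hyz, add_sub_cancel_left]
  have h3 := h.2 _ (h1 ▸ hz) k
  simp [ha] at h3

theorem wt_ind_map {U : Submodule K V} {j : ℕ} {s : Fin j → Bool} {v : Fin j → V}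
    (h : p.Ind (p.perp U) s v) {e : V ≃ₗ[K] V} (he : e ∈ p.OU U) :
    p.Ind (p.perp U) s (fun i => e (v i)) := by
  refine ⟨fun i => (he.1.2.2 _ _).mpr (h.1 i), fun a ha => h.2 a ?_⟩
  have h1 : ∑ i, a i • e (v i) = e (∑ i, a i • v i) := by
    simp only [map_sum, map_smul]
  have h2 := he.2 _ ha
  rw [h1] at ha h2
  rw [← e.injective h2]
  exact ha

theorem wt_ind_tail {W : Submodule K V} {j : ℕ} {s : Fin (j + 1) → Bool} {v : Fin (j + 1) → V}
    (h : p.Ind W s v) : p.Ind W (fun i : Fin j => s i.succ) (fun i => v i.succ) := by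
  refine ⟨fun i => h.1 _, fun a ha i => ?_⟩
  have h1 := h.2 (Fin.cons 0 a) (by simpa [Fin.sum_univ_succ] using ha) i.succ
  simpa using h1

end

theorem wt (hB : StmtPB) (hE : StmtPE) (hR : StmtRL) (hS : StmtWS) : StmtWT := by
  classical
  intro K V _ _ _ _ _ p U hU
  have hbad := ((hB K V p).2.2.2.2.2.1 U hU).2.2.2.2.2.2.2
  have hA := (hE K V p).2.2.2.2.2.2.2.2.2.1 U
  have nb : ∀ {j : ℕ} {s : Fin j → Bool} {v : Fin j → V}, p.Ind (p.perp U) s v →
      ∀ (k : Fin j) (T : Finset V), (∀ t ∈ T, ∃ i, i ≠ k ∧ t = v i) →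
      v k ∉ p.bad U (s k) T := by
    intro j s v h k T hT hm
    refine wt_notmem h k T hT (hbad (s k) T (fun t ht => ?_) _ (h.1 k) hm)
    obtain ⟨i, _, rfl⟩ := hT t ht
    exact ⟨_, h.1 i⟩
  have : Finite V := Module.finite_of_finite K
  have count : ∀ J : ℕ, 2 * J + 13 ≤ p.rk U → ∀ j ≤ J, ∀ (s : Fin j → Bool) (v : Fin j → V),
      p.Ind (p.perp U) s v → (Nat.card K ^ (p.rk U - J - 3)) ^ j ≤
        Set.ncard {f : Fin j → V | ∃ e ∈ p.A U, ∀ i, f i = e (v i)} := by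
    intro J hJ j
    induction j with
    | zero =>
      intro _ s v _
      rw [pow_zero]
      exact (Set.ncard_pos (Set.toFinite _)).mpr ⟨v, 1, (p.A U).one_mem, fun i => rfl⟩
    | succ j ih =>
      intro hj s v hv
      have h1 := ih (by omega) _ _ (wt_ind_tail hv)
      set O' := {f : Fin j → V | ∃ e ∈ p.A U, ∀ i, f i = e (v i.succ)} with hO'
      let R : Finset V := Finset.univ.image v
      have hRc : R.card ≤ j + 1 := Finset.card_image_le.trans (by simp)
      let R' : Finset V := Finset.univ.image fun i : Fin j => v i.succ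
      have hRc' : R'.card ≤ j := Finset.card_image_le.trans (by simp)
      have hRR : R' ⊆ R := by
        intro t ht
        obtain ⟨i, _, rfl⟩ := Finset.mem_image.mp ht
        exact Finset.mem_image_of_mem _ (Finset.mem_univ _)
      have h0R : v 0 ∈ R := Finset.mem_image_of_mem _ (Finset.mem_univ _)
      have h2 := ((hR K V p U hU).1 (s 0) J R R (by omega) (by omega) (by omega)).1 0
        (Submodule.zero_mem _)
      set S := {x | x ∈ U ⊓ p.P (s 0) ∧ p.Sing x ∧ (∀ r ∈ R, p.β x r = p.β 0 r) ∧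
        x ∉ p.bad U (s 0) R} with hSdef
      have hE' : ∀ f ∈ O', ∃ e : V ≃ₗ[K] V, e ∈ p.A U ∧ ∀ i, f i = e (v i.succ) :=
        fun f hf => hf
      choose! E hE1 hE2 using hE'
      have h3 : (O' ×ˢ S).ncard ≤
          Set.ncard {f : Fin (j + 1) → V | ∃ e ∈ p.A U, ∀ i, f i = e (v i)} := by
        refine Set.ncard_le_ncard_of_injOn
          (fun x : (Fin j → V) × V => (Fin.cons (E x.1 (v 0 + x.2)) x.1 : Fin (j + 1) → V))
          ?_ ?_ (Set.toFinite _)
        · rintro ⟨f, u⟩ ⟨hf, hu1, hu2, hu3, hu4⟩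
          simp only [Polar.β_zero_left] at hu3
          obtain ⟨e', he', hfix, hmove⟩ := hS K V p U hU (s 0) R' (v 0) (v 0 + u) (by omega)
            (hv.1 0) (Submodule.add_mem _ (hv.1 0) hu1.2)
            (by
              have h4 := p.Λ.add_mem (p.g_add (v 0) u) hu2
              rw [p.β_comm.mp (hu3 _ h0R)] at h4
              convert h4 using 1
              ring)
            (by rw [add_sub_cancel_left]; exact hu1.1)
            (fun r hr => by rw [Polar.β_add_left, hu3 r (hRR hr), add_zero])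
            (nb hv 0 R' fun t ht => by
              obtain ⟨i, _, rfl⟩ := Finset.mem_image.mp ht
              exact ⟨i.succ, Fin.succ_ne_zero i, rfl⟩)
            (fun hm => hu4 (by
              have h7 : p.bad U (s 0) R' ≤ p.bad U (s 0) R :=
                sup_le_sup (Submodule.span_mono (Finset.coe_subset.mpr hRR)) le_rfl
              have h5 : v 0 + u ∈ p.bad U (s 0) R := h7 hm
              have h6 : v 0 ∈ p.bad U (s 0) R :=
                Submodule.mem_sup_left (Submodule.subset_span (Finset.mem_coe.mpr h0R))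
              simpa using Submodule.sub_mem _ h5 h6))
          refine ⟨E f * e', (p.A U).mul_mem (hE1 f hf) he', fun i => ?_⟩
          refine Fin.cases ?_ (fun i => ?_) i
          · change E f (v 0 + u) = E f (e' (v 0))
            rw [hmove]
          · change f i = E f (e' (v i.succ))
            rw [hfix _ (Finset.mem_image_of_mem _ (Finset.mem_univ i))]
            exact hE2 f hf i
        · rintro ⟨f, u⟩ _ ⟨f', u'⟩ _ h
          obtain ⟨h4, h5⟩ := Fin.cons_injective2.eq_iff.mp h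
          dsimp only at h4 h5
          subst h5
          rw [add_left_cancel ((E f).injective h4)]
      rw [Set.ncard_prod] at h3
      rw [pow_succ]
      exact (Nat.mul_le_mul h1 h2).trans h3
  intro j s v hj hv
  refine ⟨fun v' hv' hU' hg hβ => ?_, ?_⟩
  · have key : ∀ k ≤ j, ∃ e ∈ p.A U, ∀ i : Fin j, i.val < k → e (v i) = v' i := by
      intro k
      induction k with
      | zero => exact fun _ => ⟨1, (p.A U).one_mem, fun i hi => absurd hi (Nat.not_lt_zero _)⟩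
      | succ k ih =>
        intro hk
        obtain ⟨e, he, hev⟩ := ih (by omega)
        have heO := hA.1 he
        let κ : Fin j := ⟨k, hk⟩
        let R : Finset V := (Finset.univ.filter fun i : Fin j => i.val < k).image v'
        have hRc : R.card ≤ j :=
          Finset.card_image_le.trans ((Finset.card_filter_le _ _).trans (by simp))
        have hRm : ∀ t ∈ R, ∃ i : Fin j, i.val < k ∧ t = v' i := by
          intro t ht
          obtain ⟨i, hi, rfl⟩ := Finset.mem_image.mp ht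
          exact ⟨i, (Finset.mem_filter.mp hi).2, rfl⟩
        have hne : ∀ i : Fin j, i.val < k → i ≠ κ := by
          rintro i hi rfl
          exact lt_irrefl _ hi
        obtain ⟨e', he', hfix, hmove⟩ := hS K V p U hU (s κ) R (e (v κ)) (v' κ) (by omega)
          ((heO.1.2.2 _ _).mpr (hv.1 κ)) (hv'.1 κ)
          (by
            have h4 := p.Λ.sub_mem (hg κ) (heO.1.2.1 (v κ))
            convert h4 using 1
            ring)
          (by
            have h4 := U.sub_mem (hU' κ) (hA.2 e he (v κ))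
            convert h4 using 1
            abel)
          (fun r hr => by
            obtain ⟨i, hi, rfl⟩ := hRm r hr
            rw [hβ, ← hev i hi, heO.1.1])
          (nb (wt_ind_map hv heO) κ R fun t ht => by
            obtain ⟨i, hi, rfl⟩ := hRm t ht
            exact ⟨i, hne i hi, (hev i hi).symm⟩)
          (nb hv' κ R fun t ht => by
            obtain ⟨i, hi, rfl⟩ := hRm t ht
            exact ⟨i, hne i hi, rfl⟩)
        refine ⟨e' * e, (p.A U).mul_mem he' he, fun i hi => ?_⟩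
        change e' (e (v i)) = v' i
        rcases Nat.lt_succ_iff_lt_or_eq.mp hi with h | h
        · rw [hev i h]
          exact hfix _ (Finset.mem_image_of_mem _ (Finset.mem_filter.mpr ⟨Finset.mem_univ _, h⟩))
        · have h' : i = κ := Fin.ext h
          rw [h', hmove]
    obtain ⟨e, he, hev⟩ := key j le_rfl
    exact ⟨e, he, fun i => hev i i.2⟩
  · rw [mul_comm, pow_mul]
    exact count j hj j le_rfl s v hv

end Pool.Agent.Work.MP_11a08a_al.Lin
end

-- merged part: Pool.Agent.Work.MP_11a08a_al.Lin.IX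
section
/-!
`V` and `V ≃ₗ[K] V` are finite.  (1) `h` fixes `perp U` pointwise, so `h U ⊆ perp (perp U) = U`; the same for `h⁻¹`.  (2) prove `(A U).relIndex (OU U) ≤ q ^ 1024` by strong induction on `finrank U`.  If `rk U ≤ 16` then `dim U ≤ 32` and `h ↦ (h (u i))` for a basis `u` of `U` is injective on `OU U`
(`IsCompl U (perp U)`) with values in `U`, so `card (OU U) ≤ q ^ (32 * 32)`.  Else take `e, f` from `hR`, `U' = U ⊓ perp (span {e, f})`; by item 9 of `hB` an element of `OU U` fixing `e` and `f` lies in `OU U'`.  For `h ∈ OU U` the first part of `hW` with `j = 2`, `v = ![e, f]`, `v' = ![h e, h f]`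
gives `a ∈ A U` with `a⁻¹ h ∈ OU U'` (`h v - v ∈ U` for `v ∈ U`; independence modulo `perp U` from `β e f = 1`).  So every coset of `A U` in `OU U` meets `OU U'`, and `A U' ≤ A U` gives a surjection from the cosets of `A U'` in `OU U'` (use inverses to match the side).
(3) the map `h ↦ (h (v i))` from `J` to `∀ i, P (s i)` (each factor has `q ^ rk ⊤` elements, item 6 of `hB` for `⊤`); two elements in one fibre differ by an element of `OU U`; so `card J ≤ q ^ (j * rk ⊤) * card (OU U)`.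
-/

set_option autoImplicit false

open Module
open scoped commutatorElement

namespace Pool.Agent.Work.MP_11a08a_al.Lin

theorem ix_fib {G X : Type} [Group G] [Finite G] [Finite X] {J H : Subgroup G} (φ : J → X)
    (h : ∀ a b : J, φ a = φ b → a.1⁻¹ * b.1 ∈ H) : Nat.card J ≤ Nat.card X * Nat.card H := by
  rw [← Nat.card_prod]
  have r : ∀ a : J, φ (Function.invFun φ (φ a)) = φ a := fun a => Function.invFun_eq ⟨a, rfl⟩
  refine Nat.card_le_card_of_injective (fun a => (φ a, ⟨_, h _ a (r a)⟩)) fun a b k => ?_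
  have k1 : φ a = φ b := congrArg Prod.fst k
  have k2 := congrArg (fun z => z.2.1) k
  simp only [k1] at k2
  exact Subtype.ext (mul_left_cancel k2)

section

variable {K V : Type} [Field K] [AddCommGroup V] [Module K V] {p : Polar K V} {U : Submodule K V}

theorem ix_fix {h : V ≃ₗ[K] V} {S : Set V} {R : Submodule K V} (h1 : ∀ v ∈ S, h v = v)
    (h2 : ∀ v ∈ R, h v = v) : ∀ v ∈ Submodule.span K S ⊔ R, h v = v := fun _ hv =>
  (sup_le (Submodule.span_le.2 h1) h2 :
    _ ≤ LinearMap.eqLocus (h : V →ₗ[K] V) LinearMap.id) hv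

theorem ix_mem (hU : p.perp (p.perp U) = U) {h : V ≃ₗ[K] V} (hh : h ∈ p.OU U) {v : V}
    (hv : v ∈ U) : h v ∈ U :=
  hU.le fun w hw => by rw [← hh.2 w hw, hh.1.1]; exact p.β_comm.1 (hw v hv)

theorem ix_ind {e f : V} (he : e ∈ U ⊓ p.P true) (hf : f ∈ U ⊓ p.P false) (h1 : p.β e e = 0)
    (h2 : p.β f f = 0) (h3 : p.β e f = 1) : p.Ind (p.perp U) ![true, false] ![e, f] := by
  refine ⟨Fin.forall_fin_two.2 ⟨he.2, hf.2⟩, fun a ha => Fin.forall_fin_two.2 ⟨?_, ?_⟩⟩
  · simpa [h2, h3] using ha f hf.1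
  · simpa [h1, p.β_symm e f, h3, p.ε_ne] using ha e he.1

end

theorem ix_cov (hB : StmtPB) (hE : StmtPE) (hR : StmtRL) (hW : StmtWT) {K V : Type} [Field K]
    [Finite K] [AddCommGroup V] [Module K V] [FiniteDimensional K V] (p : Polar K V) (n : ℕ) :
    ∀ U : Submodule K V, finrank K U = n → p.Nd U → ∃ T : Set (V ≃ₗ[K] V),
      Nat.card T ≤ Nat.card K ^ 1024 ∧ ∀ h ∈ p.OU U, ∃ a ∈ p.A U, a⁻¹ * h ∈ T := by
  obtain ⟨-, b2, -, -, -, b6, -, -, b9⟩ := hB K V p
  obtain ⟨-, -, -, -, -, -, -, -, e9, e10, -⟩ := hE K V p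
  induction n using Nat.strong_induction_on with
  | _ n ih =>
    intro U hn hU
    rcases le_or_gt (p.rk U) 16 with k | k
    · have : Finite V := Module.finite_of_finite K
      have : Finite (U →ₗ[K] U) := DFunLike.finite _
      refine ⟨p.OU U, ?_, fun h hh => ⟨1, one_mem _, by simpa using hh⟩⟩
      refine (Nat.card_le_card_of_injective (fun h : p.OU U => (h.1 : V →ₗ[K] V).restrict
        fun v hv => ix_mem (b2 U).2 h.2 hv) fun a b hab => ?_).trans ?_
      · refine Subtype.ext (LinearEquiv.ext fun v => ?_)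
        obtain ⟨u, hu, w, hw, rfl⟩ := Submodule.mem_sup.1
          ((b6 U hU).1.sup_eq_top.ge (Submodule.mem_top (x := v)))
        rw [map_add, map_add, a.2.2 w hw, b.2.2 w hw]
        exact congrArg (fun z : U →ₗ[K] U => (z ⟨u, hu⟩ : V) + w) hab
      · rw [natCard_eq_pow_finrank (K := K), finrank_linearMap]
        have := (b6 U hU).2.2.2.1
        exact Nat.pow_le_pow_right Nat.card_pos
          (Nat.mul_le_mul (show _ ≤ 32 by omega) (show _ ≤ 32 by omega))
    · obtain ⟨e, he, f, hf, se, sf, hef⟩ := (hR K V p U hU).2.1 (by omega)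
      obtain ⟨c1, c2, c3, -⟩ := b9 U e f hU he hf se sf hef
      obtain ⟨T, t1, t2⟩ := ih _ (by omega) _ rfl c1
      refine ⟨T, t1, fun h hh => ?_⟩
      obtain ⟨a, ha, k1⟩ := (hW K V p U hU 2 _ _ (by omega)
        (ix_ind he hf se.β_self sf.β_self hef)).1 ![h e, h f]
        (ix_ind ⟨ix_mem (b2 U).2 hh he.1, (hh.1.2.2 _ _).2 he.2⟩
          ⟨ix_mem (b2 U).2 hh hf.1, (hh.1.2.2 _ _).2 hf.2⟩ ((hh.1.1 _ _).trans se.β_self)
          ((hh.1.1 _ _).trans sf.β_self) ((hh.1.1 _ _).trans hef))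
        (Fin.forall_fin_two.2 ⟨sub_mem (ix_mem (b2 U).2 hh he.1) he.1,
          sub_mem (ix_mem (b2 U).2 hh hf.1) hf.1⟩)
        (Fin.forall_fin_two.2 ⟨hh.1.2.1 e, hh.1.2.1 f⟩)
        (Fin.forall_fin_two.2 ⟨Fin.forall_fin_two.2 ⟨hh.1.1 e e, hh.1.1 e f⟩,
          Fin.forall_fin_two.2 ⟨hh.1.1 f e, hh.1.1 f f⟩⟩)
      have k2 := mul_mem (inv_mem ((e10 U).1 ha)) hh
      obtain ⟨b, hb, k3⟩ := t2 (a⁻¹ * h) ⟨k2.1, by
        rw [c3, sup_comm]
        refine ix_fix ?_ k2.2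
        rintro _ (rfl | rfl)
        exacts [a.symm_apply_eq.2 (k1 0).symm, a.symm_apply_eq.2 (k1 1).symm]⟩
      exact ⟨a * b, mul_mem ha (e9 _ _ inf_le_left hb), by rwa [mul_inv_rev, mul_assoc]⟩

theorem ix (hB : StmtPB) (hE : StmtPE) (hR : StmtRL) (hW : StmtWT) : StmtIX := by
  intro K V _ _ _ _ _ p U hU
  have : Finite V := Module.finite_of_finite K
  have : Finite (V ≃ₗ[K] V) := DFunLike.finite _
  obtain ⟨-, b2, -, -, b5, b6, -⟩ := hB K V p
  have h2 : Nat.card (p.OU U) ≤ Nat.card K ^ 1024 * Nat.card (p.A U) := by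
    obtain ⟨T, t1, t2⟩ := ix_cov hB hE hR hW p _ U rfl hU
    choose a ha k using t2
    refine (ix_fib (H := p.A U) (fun h : p.OU U => (⟨_, k h.1⁻¹ (inv_mem h.2)⟩ : T))
      fun x y hxy => ?_).trans (Nat.mul_le_mul_right _ t1)
    have k1 : _ * _ = _ * _ := congrArg Subtype.val hxy
    rw [show x.1⁻¹ * y.1 = a _ (inv_mem x.2) * (a _ (inv_mem y.2))⁻¹ by
      rw [← inv_mul_eq_iff_eq_mul, ← mul_assoc, k1, inv_mul_cancel_right]]
    exact mul_mem (ha _ _) (inv_mem (ha _ _))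
  refine ⟨fun h hh v => ⟨fun k => ?_, ix_mem (b2 U).2 hh⟩, h2, fun J R j s v hJ hR hv hs => ?_⟩
  · simpa using ix_mem (b2 U).2 (inv_mem hh) k
  · refine (ix_fib (H := p.OU U) (X := ∀ i, p.P (s i))
      (fun h i => ⟨h.1 (v i), ((hJ h.2).2.2 _ _).2 (hv i)⟩) fun x y hxy => ?_).trans ?_
    · have k := mul_mem (inv_mem x.2) y.2
      refine ⟨hJ k, fun w hw => ix_fix ?_ (hR _ k) w (hs hw)⟩
      rintro _ ⟨i, rfl⟩
      exact x.1.symm_apply_eq.2 (congrArg Subtype.val (congrFun hxy i)).symm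
    · have k : ∀ s, Nat.card (p.P s) = Nat.card K ^ p.rk ⊤ := fun s => by
        rw [natCard_eq_pow_finrank (K := K), ← (b6 ⊤ b5).2.2.1 s, top_inf_eq]
      simp only [Nat.card_pi, k, Finset.prod_const, Finset.card_fin]
      rw [pow_add, mul_assoc, mul_comm j, pow_mul]
      exact Nat.mul_le_mul_left _ h2

end Pool.Agent.Work.MP_11a08a_al.Lin
end

-- merged part: Pool.Agent.Work.MP_11a08a_al.Lin.SC
section
/-!
(0) `z` is determined by `ζ` because `P true ⊔ P false = ⊤`; inject the set into `Bool → K`.  (1) if `x, y` are singular, orthogonal and independent then `x + y` is singular and comparing coefficients in `h (x + y)` gives the same scalar.  For nonzero singular `x, y` take `z` singular, orthogonal to both,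
outside `bad U s {x, y} ≥ span {x, y}` (`hR`, all constants zero).  So one `ζ` works for all singular vectors.  Every `x₀ ∈ U ⊓ P s` is a sum of two singular vectors: in the split case it is singular; else for `x₀ ≠ 0` take a singular `u` with `β u x₀ = ε σ (g x₀ x₀)`, then `x₀ - u` is singular.
(2) let `x ≠ 0` be singular in `U ⊓ P s`, `w ∈ U ⊓ P (!s)` singular, orthogonal to `x`, `w ∉ span {x}`, `e` the Eichler map (`Adm U (!s) x w`).  Item 1 of `hB` (with `⊤`) gives `v` with `β v x = 0`, `β v w = -ε`, so `e v - v = x` and `h x = e (h v) - h v ∈ span {x, w}`.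
With a second `w' ∉ span {x, w}` we get `h x ∈ span {x}`.  So `h = ζ s` on `U ⊓ P s`, `ζ s ≠ 0`, and `θ = id` for the data `θ, c, f` of `h`.  If all `P s = ⊤` the two scalars agree and `z = ζ • 1` (`LinearEquiv.smulOfNeZero`); else define `z` from `IsCompl` (`LinearMap.ofIsCompl`, or
`ζ true • proj + ζ false • proj'` with the inverse built the same way).  From `e, f` of `hR` with `β e f = 1`: `ζ true * σ (ζ false) = c` and, with `β f e = ε`, `ζ false * σ (ζ true) = c`.  So `β (z v) (z w) = c β v w`.  Singular vectors: if all `P s = ⊤` use `g_smul`, `p.stab` with `ζ` and `ζ⁻¹`; in the split case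
`g (a + b) (a + b) ≡ β a b` for `a ∈ P true`, `b ∈ P false`, and `t ∈ Λ ↔ c t ∈ Λ` follows from `h (t • e + f) = z (t • e + f)`.
-/

set_option autoImplicit false

open Module
open scoped commutatorElement

namespace Pool.Agent.Work.MP_11a08a_al.Lin

section

open Polar

variable {K V : Type} [Field K] [AddCommGroup V] [Module K V] {p : Polar K V}

theorem sc_dec (p : Polar K V) (v : V) : ∃ a ∈ p.P true, ∃ b ∈ p.P false, a + b = v := by
  rcases p.sorts with h | ⟨h, -⟩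
  · exact ⟨v, by simp [h], 0, zero_mem _, add_zero v⟩
  · exact Submodule.mem_sup.1 (h.sup_eq_top ▸ Submodule.mem_top)

theorem sc_card [Finite K] (p : Polar K V) :
    Set.ncard {z | ∃ ζ, p.Scal ζ z} ≤ Nat.card K ^ 2 := by
  have : Function.Injective fun z : {z | ∃ ζ, p.Scal ζ z} => z.2.choose := by
    intro z z' e
    refine Subtype.ext (LinearEquiv.ext fun v => ?_)
    obtain ⟨a, ha, b, hb, rfl⟩ := sc_dec p v
    have e' : z.2.choose = z'.2.choose := e
    rw [map_add, map_add, z.2.choose_spec _ a ha, z.2.choose_spec _ b hb, z'.2.choose_spec _ a ha,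
      z'.2.choose_spec _ b hb, e']
  simpa [Nat.card_fun] using Nat.card_le_card_of_injective _ this

theorem sc_lin {ζ : Bool → K} (h : (∀ s, p.P s = ⊤) → ζ true = ζ false) :
    ∃ L : V →ₗ[K] V, ∀ s, ∀ v ∈ p.P s, L v = ζ s • v := by
  rcases p.sorts with q | ⟨q, -⟩
  · refine ⟨ζ true • LinearMap.id, fun s v _ => ?_⟩
    cases s <;> simp [h q]
  · refine ⟨LinearMap.ofIsCompl q (ζ true • (p.P true).subtype) (ζ false • (p.P false).subtype),
      fun s v hv => ?_⟩
    cases s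
    · exact LinearMap.ofIsCompl_apply_right q ⟨v, hv⟩
    · exact LinearMap.ofIsCompl_apply_left q ⟨v, hv⟩

theorem sc_scal {ζ : Bool → K} (h0 : ∀ s, ζ s ≠ 0) (h : (∀ s, p.P s = ⊤) → ζ true = ζ false) :
    ∃ z, p.Scal ζ z := by
  obtain ⟨L, hL⟩ := sc_lin h
  have key : ∀ {A B : V →ₗ[K] V} {x y : Bool → K}, (∀ s, ∀ v ∈ p.P s, A v = x s • v) →
      (∀ s, ∀ v ∈ p.P s, B v = y s • v) → (∀ s, y s * x s = 1) → A ∘ₗ B = LinearMap.id := by
    intro A B x y hA hB e
    ext v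
    obtain ⟨a, ha, b, hb, rfl⟩ := sc_dec p v
    simp [hA _ a ha, hA _ b hb, hB _ a ha, hB _ b hb, smul_smul, e]
  obtain ⟨L', hL'⟩ := sc_lin (p := p) (ζ := fun s => (ζ s)⁻¹) fun q => by rw [h q]
  exact ⟨LinearEquiv.ofLinearMap L L' (key hL hL' fun s => inv_mul_cancel₀ (h0 s))
    (key hL' hL fun s => mul_inv_cancel₀ (h0 s)), hL⟩

theorem sc_ind {x y : V} {a b : K} {S : Submodule K V} (hx : x ∈ S) (hy : y ∉ S)
    (e : a • x + b • y ∈ S) : b = 0 := by
  by_contra hb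
  exact hy ((S.smul_mem_iff hb).1 ((S.add_mem_iff_right (S.smul_mem a hx)).1 e))

variable [Finite K] [FiniteDimensional K V] {U : Submodule K V}

theorem sc_pick (hR : StmtRL) (hU : p.Nd U) (hr : 20 ≤ p.rk U) (s : Bool) (x y : V) :
    ∃ z ∈ U ⊓ p.P s, p.Sing z ∧ p.β x z = 0 ∧ p.β y z = 0 ∧
      z ∉ Submodule.span K ({x, y} : Set V) := by
  classical
  have c2 : ({x, y} : Finset V).card ≤ 2 := Finset.card_le_two
  obtain ⟨z, z1, z2, z3, z4⟩ := ((hR K V p U hU).1 s 2 {x, y} {x, y} c2 (by omega) (by omega)).2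
    (fun _ => 0) (by simp)
  refine ⟨z, z1, z2, p.β_comm.1 (z3 x (by simp)), p.β_comm.1 (z3 y (by simp)), fun q => z4 ?_⟩
  exact Submodule.mem_sup_left (by simpa using q)

theorem sc_one (hR : StmtRL) (hU : p.Nd U) (hr : 20 ≤ p.rk U) (h : V →+ V) (s : Bool)
    (H : ∀ x ∈ U ⊓ p.P s, p.Sing x → ∃ a : K, h x = a • x) :
    ∃ ζ : K, ∀ x ∈ U ⊓ p.P s, h x = ζ • x := by
  have A : ∀ x ∈ U ⊓ p.P s, ∀ z ∈ U ⊓ p.P s, p.Sing x → p.Sing z → p.β x z = 0 →
      ∀ S : Submodule K V, x ∈ S → z ∉ S → ∀ b : K, h z = b • z → h x = b • x := by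
    intro x hx z hz sx sz o S xS zS b hb
    obtain ⟨a, ha⟩ := H x hx sx
    obtain ⟨c, hc⟩ := H _ (add_mem hx hz) (sx.add sz o)
    rw [map_add, ha, hb, smul_add] at hc
    have e : (a - c) • x + (b - c) • z = 0 := by
      rw [sub_smul, sub_smul, sub_add_sub_comm, hc, sub_self]
    have e1 := sub_eq_zero.1 (sc_ind xS zS (e ▸ S.zero_mem))
    rw [e1] at hc ⊢
    rw [ha, add_right_cancel hc]
  have B : ∃ ζ : K, ∀ x ∈ U ⊓ p.P s, p.Sing x → h x = ζ • x := by
    obtain ⟨y, hy, sy, -, -, y0⟩ := sc_pick hR hU hr s 0 0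
    obtain ⟨a, ha⟩ := H y hy sy
    refine ⟨a, fun x hx sx => ?_⟩
    obtain ⟨z, hz, sz, o1, o2, zS⟩ := sc_pick hR hU hr s x y
    obtain ⟨b, hb⟩ := H z hz sz
    have e := A y hy z hz sy sz o2 _ (Submodule.subset_span (by simp)) zS b hb
    have : a = b := smul_left_injective K (fun q : y = 0 => y0 (by simp [q])) (ha.symm.trans e)
    exact this ▸ A x hx z hz sx sz o1 _ (Submodule.subset_span (by simp)) zS b hb
  obtain ⟨ζ, hζ⟩ := B
  refine ⟨ζ, fun x hx => ?_⟩
  rcases p.sorts with q | ⟨-, q⟩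
  swap
  · exact hζ x hx (q s x hx.2).1
  obtain ⟨u, u1, u2, u3, -⟩ := ((hR K V p U hU).1 s 1 {x} ∅ (by simp) (by omega)
    (by simp; omega)).2 (fun _ => p.g x x) fun a ha => by
      rw [Finset.sum_singleton, q, inf_top_eq] at ha
      have : a x • x ∈ U ⊓ p.perp U := ⟨U.smul_mem _ hx.1, ha⟩
      rw [hU.2, Submodule.mem_bot, smul_eq_zero] at this
      rcases this with e | e <;> simp [e]
  have s2 : p.Sing (-u + x) := by
    have := p.Λ.add_mem (p.g_add (-u) x) u2.neg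
    rw [β_neg_left, u3 x (by simp)] at this
    simpa only [Sing, add_neg_cancel_right, sub_add_cancel] using this
  have e : x = u + (-u + x) := by simp
  rw [e, map_add, hζ u u1 u2, hζ _ (add_mem (neg_mem u1) hx) s2, ← smul_add]

theorem sc_fix (hB : StmtPB) (hE : StmtPE) (hR : StmtRL) (hU : p.Nd U) (hr : 20 ≤ p.rk U)
    (h : V →+ V) (H : ∀ e, p.IsE U e → ∀ v, e (h v) = h (e v)) (s : Bool) (x : V)
    (hx : x ∈ U ⊓ p.P s) (sx : p.Sing x) : ∃ a : K, h x = a • x := by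
  classical
  have A : ∀ w ∈ U ⊓ p.P (!s), p.Sing w → p.β x w = 0 → ∀ S : Submodule K V, x ∈ S → w ∉ S →
      ∃ a b : K, h x = a • x + b • w := by
    intro w hw sw o S xS wS
    have ad : p.Adm U (!s) x w := ⟨by simpa using hx, hw, sx, sw, o⟩
    obtain ⟨e, he⟩ := (hE K V p).1 _ _ _ _ ad
    have ne : x ≠ w := fun q => wS (q ▸ xS)
    obtain ⟨v, -, hv⟩ := (hB K V p).1 ⊤ {x, w} (fun r => if r = w then -p.ε else 0) fun a ha => by
      rw [Finset.sum_pair ne] at ha ⊢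
      have := p.nd _ fun u => ha u trivial
      simp [ne, sc_ind xS wS (this ▸ S.zero_mem)]
    have v1 : p.β v x = 0 := by simpa [ne] using hv x (by simp)
    have v2 : p.β v w = -p.ε := by simpa using hv w (by simp)
    have := H e ⟨_, x, w, ad, he⟩ v
    rw [he, he, v1, v2, zero_smul, add_zero, mul_neg, εε, neg_smul, one_smul, sub_neg_eq_add,
      map_add, add_sub_assoc, add_right_inj] at this
    exact ⟨-(p.ε * p.β (h v) w), p.β (h v) x, by rw [← this, neg_smul, neg_add_eq_sub]⟩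
  obtain ⟨w, hw, sw, o, -, wS⟩ := sc_pick hR hU hr (!s) x x
  obtain ⟨w', hw', sw', o', -, wS'⟩ := sc_pick hR hU hr (!s) x w
  have m1 : x ∈ Submodule.span K ({x, w} : Set V) := Submodule.subset_span (by simp)
  have m2 : w ∈ Submodule.span K ({x, w} : Set V) := Submodule.subset_span (by simp)
  obtain ⟨a, b, e⟩ := A w hw sw o _ (Submodule.subset_span (by simp)) wS
  obtain ⟨a', b', e'⟩ := A w' hw' sw' o' _ m1 wS'
  have := sc_ind (a := a') (b := b') m1 wS' (by
    rw [← e', e]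
    exact add_mem (Submodule.smul_mem _ _ m1) (Submodule.smul_mem _ _ m2))
  exact ⟨a', by rw [e', this, zero_smul, add_zero]⟩

omit [Finite K] [FiniteDimensional K V] in
theorem sc_sing {a b : V} (ha : p.Sing a) (hb : p.Sing b) : p.Sing (a + b) ↔ p.β a b ∈ p.Λ := by
  have := p.Λ.add_mem (p.g_add a b) (p.Λ.add_mem ha hb)
  constructor <;> intro q
  · convert p.Λ.sub_mem q this using 1
    ring
  · have := p.Λ.add_mem this q
    rw [Sing]
    convert this using 1
    ring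

theorem sc_two (hB : StmtPB) (hE : StmtPE) (hR : StmtRL) (hU : p.Nd U) (hr : 20 ≤ p.rk U)
    (h : V ≃+ V) (hs : p.SemiSim h) (H : ∀ e, p.IsE U e → ∀ v, e (h v) = h (e v)) :
    ∃ ζ z, p.Scal ζ z ∧ p.SemiSim z.toAddEquiv ∧ (∀ x ∈ p.O, z * x = x * z) ∧
      ∀ v ∈ U, h v = z v := by
  obtain ⟨θ, c, -, c0, h1, h2, h3, -⟩ := hs
  choose ζ hζ using fun s => sc_one hR hU hr h.toAddMonoidHom s
    (sc_fix hB hE hR hU hr h.toAddMonoidHom H s)
  replace hζ : ∀ s, ∀ x ∈ U ⊓ p.P s, h x = ζ s • x := hζ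
  obtain ⟨e, he, f, hf, se, sf, ef⟩ := (hR K V p U hU).2.1 (by omega)
  have e0 : e ≠ 0 := fun q => by simp [q] at ef
  have k1 : ζ true * p.σ (ζ false) = c := by
    simpa [hζ _ e he, hζ _ f hf, ef, mul_comm] using h2 e f
  have t0 : ζ true ≠ 0 := fun q => c0 (by rw [← k1, q, zero_mul])
  have z0 : ∀ s, ζ s ≠ 0 := fun s => by
    cases s
    exacts [fun q => c0 (by rw [← k1, q, map_zero, mul_zero]), t0]
  have th : ∀ a, θ a = a := fun a => by
    have := h1 a e
    rw [hζ _ _ (Submodule.smul_mem _ a he), hζ _ e he, smul_smul, smul_smul, mul_comm] at this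
    exact (mul_right_cancel₀ t0 (smul_left_injective K e0 this)).symm
  have k2 : ζ false * p.σ (ζ true) = c := by
    have := h2 f e
    rw [hζ _ e he, hζ _ f hf, th, β_smul_left, β_smul_right, p.β_symm e f, ef, map_one, mul_one,
      ← mul_assoc] at this
    exact mul_right_cancel₀ p.ε_ne this
  have tf : (∀ s, p.P s = ⊤) → ζ true = ζ false := fun q =>
    smul_left_injective K e0 ((hζ _ e he).symm.trans (hζ false e ⟨he.1, by simp [q]⟩))
  obtain ⟨z, hz⟩ := sc_scal z0 tf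
  refine ⟨ζ, z, hz, ⟨RingEquiv.refl K, c, 1, c0, fun a v => z.map_smul a v, fun v w => ?_,
    fun v => ?_, fun s v => ⟨fun q => ?_, fun q => ?_⟩⟩, fun x hx => LinearEquiv.ext fun v => ?_,
    fun v hv => ?_⟩
  · show p.β (z v) (z w) = c * p.β v w
    rcases p.sorts with q | ⟨-, q⟩
    · rw [hz true v (by simp [q]), hz false w (by simp [q]), β_smul_left, β_smul_right, ← k1,
        mul_assoc]
    obtain ⟨a, ha, b, hb, rfl⟩ := sc_dec p v
    obtain ⟨a', ha', b', hb', rfl⟩ := sc_dec p w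
    have q1 : p.β a a' = 0 := (q _ a ha).2 a' ha'
    have q2 : p.β b b' = 0 := (q _ b hb).2 b' hb'
    simp only [map_add, hz _ a ha, hz _ b hb, hz _ a' ha', hz _ b' hb', β_add_left, β_add_right,
      β_smul_left, β_smul_right, q1, q2]
    linear_combination p.β a b' * k1 + p.β b a' * k2
  · show p.Sing (z v) ↔ p.Sing v
    rcases p.sorts with q | ⟨-, q⟩
    · rw [hz true v (by simp [q])]
      exact ⟨fun k => by simpa [smul_smul, t0] using k.smul (ζ true)⁻¹, fun k => k.smul _⟩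
    have k3 : ∀ a ∈ p.P true, ∀ b ∈ p.P false,
        p.Sing (ζ true • a + ζ false • b) ↔ c * p.β a b ∈ p.Λ := fun a ha b hb => by
      rw [sc_sing (Sing.smul (q _ a ha).1 _) (Sing.smul (q _ b hb).1 _), β_smul_left, β_smul_right,
        ← mul_assoc, k1]
    obtain ⟨a, ha, b, hb, rfl⟩ := sc_dec p v
    have m := Submodule.smul_mem _ (p.β a b) he
    have k4 : p.Sing (h (p.β a b • e + f)) ↔ p.Sing (p.β a b • e + f) := h3 _
    rw [map_add, hζ _ _ m, hζ _ f hf, k3 _ m.2 _ hf.2, sc_sing (se.smul _) sf, β_smul_left, ef,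
      mul_one] at k4
    rw [map_add, hz _ a ha, hz _ b hb, k3 a ha b hb, sc_sing (q _ a ha).1 (q _ b hb).1, k4]
  · have q' : z v ∈ p.P s := q
    have : z ((ζ s)⁻¹ • z v) = z v := by
      rw [map_smul, hz s _ q', smul_smul, inv_mul_cancel₀ (z0 s), one_smul]
    exact z.injective this ▸ Submodule.smul_mem _ _ q'
  · show z v ∈ p.P s
    rw [hz s v q]
    exact Submodule.smul_mem _ _ q
  · obtain ⟨a, ha, b, hb, rfl⟩ := sc_dec p v
    show z (x (a + b)) = x (z (a + b))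
    simp only [map_add, map_smul, hz _ a ha, hz _ b hb, hz _ _ ((hx.2.2 _ a).2 ha),
      hz _ _ ((hx.2.2 _ b).2 hb)]
  · obtain ⟨a, ha, b, hb, rfl⟩ := Submodule.mem_sup.1 (hU.1 hv)
    rw [map_add, map_add, hζ _ a ha, hζ _ b hb, hz _ a ha.2, hz _ b hb.2]

end

theorem sc (hB : StmtPB) (hE : StmtPE) (hR : StmtRL) : StmtSC := by
  intro K V _ _ _ _ _ p
  exact ⟨sc_card p, fun U hU hr => ⟨sc_one hR hU hr, sc_two hB hE hR hU hr⟩⟩

end Pool.Agent.Work.MP_11a08a_al.Lin
end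

-- merged part: Pool.Agent.Work.MP_11a08a_al.Lin.QS2
section
/-!
Step 1: if `Adm U s x' w'`, `x' ≠ 0`, `w' ∉ span {x'}`, the first part of `hW` (`j = 2`, tuples `![x, w]`, `![x', w']`, sorts `![!s, s]`; a combination in `perp U` lies in `U ⊓ perp U = ⊥`) gives `a ∈ A U` with `a x = x'`, `a w = w'`, and `a e a⁻¹` is the Eichler map of `(x', w')`.
Step 2: `e` is also the map of `(w, -(ε • x))`, admissible for the sort `!s` and independent, so step 1 applies to both sorts.  Step 3: if `x' = 0` the map is `1`.  If `w' ∈ span {x'}` take `w''` singular in `U ⊓ P s'`, orthogonal to `x'`, outside `bad U s' {x'} ≥ span {x'}`; the map of `(x', w')` is the product of the maps of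
`(x', w' + w'')` and `(x', -w'')`.  Finish with `Subgroup.closure_le`.
-/

set_option autoImplicit false

open Module
open scoped commutatorElement

namespace Pool.Agent.Work.MP_11a08a_al.Lin

section

variable {K V : Type} [Field K] [AddCommGroup V] [Module K V] {p : Polar K V} {U : Submodule K V}
  {s : Bool} {x w : V}

theorem qs2_ind (hU : p.Nd U) (h : p.Adm U s x w) (hx : x ≠ 0) (hw : w ∉ Submodule.span K {x}) :
    p.Ind (p.perp U) ![!s, s] ![x, w] := by
  refine ⟨Fin.forall_fin_two.2 ⟨h.1.2, h.2.1.2⟩, fun a ha => ?_⟩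
  rw [Fin.sum_univ_two] at ha
  have h1 : a 0 • x + a 1 • w = 0 := (Submodule.eq_bot_iff _).1 hU.2 _
    ⟨U.add_mem (U.smul_mem _ h.1.1) (U.smul_mem _ h.2.1.1), ha⟩
  have h2 : a 1 = 0 := by
    by_contra k
    refine hw ((Submodule.smul_mem_iff _ k).1 ?_)
    rw [eq_neg_of_add_eq_zero_right h1]
    exact neg_mem (Submodule.smul_mem _ _ (Submodule.mem_span_singleton_self x))
  rw [h2, zero_smul, add_zero] at h1
  exact Fin.forall_fin_two.2 ⟨(smul_eq_zero.1 h1).resolve_right hx, h2⟩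

theorem qs2_β (h : p.Adm U s x w) (i i' : Fin 2) : p.β (![x, w] i) (![x, w] i') = 0 := by
  revert i i'
  exact Fin.forall_fin_two.2 ⟨Fin.forall_fin_two.2 ⟨h.2.2.1.β_self, h.2.2.2.2⟩,
    Fin.forall_fin_two.2 ⟨p.β_comm.1 h.2.2.2.2, h.2.2.2.1.β_self⟩⟩

theorem qs2_swap (h : p.Adm U s x w) (hx : x ≠ 0) (hw : w ∉ Submodule.span K {x}) :
    p.Adm U (!s) w (-(p.ε • x)) ∧ w ≠ 0 ∧ -(p.ε • x) ∉ Submodule.span K {w} := by
  refine ⟨⟨by rw [Bool.not_not]; exact h.2.1, neg_mem (Submodule.smul_mem _ _ h.1), h.2.2.2.1,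
    (h.2.2.1.smul _).neg, by simp [p.β_comm.1 h.2.2.2.2]⟩, fun k => hw (k ▸ zero_mem _),
    fun k => ?_⟩
  obtain ⟨c, hc⟩ := Submodule.mem_span_singleton.1 k
  have h1 : c ≠ 0 := by
    rintro rfl
    rw [zero_smul, eq_comm, neg_eq_zero, smul_eq_zero] at hc
    exact hc.elim p.ε_ne hx
  refine hw ((Submodule.smul_mem_iff _ h1).1 ?_)
  rw [hc]
  exact neg_mem (Submodule.smul_mem _ _ (Submodule.mem_span_singleton_self x))

theorem qs2_one (hE : StmtPE) (hW : StmtWT) [Finite K] [FiniteDimensional K V] (hU : p.Nd U)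
    (hr : 40 ≤ p.rk U) {N : Subgroup (V ≃ₗ[K] V)} (hN : ∀ a ∈ p.A U, ∀ x ∈ N, a * x * a⁻¹ ∈ N)
    {e e' : V ≃ₗ[K] V} {x' w' : V} (h : p.Adm U s x w) (he : p.Ei x w e) (hx : x ≠ 0)
    (hw : w ∉ Submodule.span K {x}) (hm : e ∈ N) (h' : p.Adm U s x' w') (he' : p.Ei x' w' e')
    (hx' : x' ≠ 0) (hw' : w' ∉ Submodule.span K {x'}) : e' ∈ N := by
  obtain ⟨-, e2, -, -, -, -, -, e8, -, e10, -⟩ := hE K V p
  obtain ⟨a, a1, a2⟩ := (hW K V p U hU 2 _ _ (by omega) (qs2_ind hU h hx hw)).1 _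
    (qs2_ind hU h' hx' hw')
    (Fin.forall_fin_two.2 ⟨U.sub_mem h'.1.1 h.1.1, U.sub_mem h'.2.1.1 h.2.1.1⟩)
    (Fin.forall_fin_two.2 ⟨p.Λ.sub_mem h'.2.2.1 h.2.2.1, p.Λ.sub_mem h'.2.2.2.1 h.2.2.2.1⟩)
    fun i i' => (qs2_β h' i i').trans (qs2_β h i i').symm
  have h1 := (e8 a ((e10 U).1 a1).1).2 x w e he
  rw [show a x = x' from a2 0, show a w = w' from a2 1] at h1
  rw [e2 _ _ _ _ he' h1]
  exact hN a a1 e hm

end

theorem qs2 (hB : StmtPB) (hE : StmtPE) (hR : StmtRL) (hW : StmtWT) : StmtQS2 := by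
  intro K V _ _ _ _ _ p U hU hr N hN s x w e h he hx hw hm
  obtain ⟨e1, e2, -, e4, -, e6, -⟩ := hE K V p
  have key : ∀ s' x' w' e', p.Adm U s' x' w' → p.Ei x' w' e' → x' ≠ 0 →
      w' ∉ Submodule.span K {x'} → e' ∈ N := fun s' x' w' e' h' he' hx' hw' => by
    by_cases k : s' = s
    · exact qs2_one hE hW hU hr hN h he hx hw hm (k ▸ h') he' hx' hw'
    · obtain ⟨b1, b2, b3⟩ := qs2_swap h hx hw
      exact qs2_one hE hW hU hr hN b1 (e6 _ _ _ he) b2 b3 hm (Bool.eq_not_of_ne k ▸ h') he' hx' hw'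
  refine (Subgroup.closure_le N).2 ?_
  rintro e' ⟨s', x', w', h', he'⟩
  by_cases hx' : x' = 0
  · have h1 : e' = 1 := LinearEquiv.ext fun v => by simpa [hx'] using he' v
    rw [h1]
    exact N.one_mem
  by_cases hw' : w' ∈ Submodule.span K {x'}
  swap
  · exact key _ _ _ _ h' he' hx' hw'
  obtain ⟨u, u1, u2, u3, u4⟩ := ((hR K V p U hU).1 s' 1 {x'} {x'} (Finset.card_singleton _).le
    (by omega) (by rw [Finset.card_singleton]; omega)).2 0 (by simp)
  have u5 : p.β x' u = 0 := p.β_comm.1 (u3 x' (Finset.mem_singleton_self _))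
  have u6 : u ∉ Submodule.span K {x'} := fun k =>
    u4 (Submodule.mem_sup_left (by rwa [Finset.coe_singleton]))
  have u7 : p.β w' u = 0 := by
    obtain ⟨c, rfl⟩ := Submodule.mem_span_singleton.1 hw'
    rw [p.β_smul_left, u5, mul_zero]
  have a1 : p.Adm U s' x' (w' + u) := ⟨h'.1, add_mem h'.2.1 u1, h'.2.2.1, h'.2.2.2.1.add u2 u7, by
    rw [p.β_add_right, h'.2.2.2.2, u5, add_zero]⟩
  have a2 : p.Adm U s' x' (-u) := ⟨h'.1, neg_mem u1, h'.2.2.1, u2.neg, by
    rw [p.β_neg_right, u5, neg_zero]⟩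
  obtain ⟨f1, hf1⟩ := e1 _ _ _ _ a1
  obtain ⟨f2, hf2⟩ := e1 _ _ _ _ a2
  have h1 := e4 _ _ _ _ _ h'.2.2.1.β_self a1.2.2.2.2 a2.2.2.2.2
    (by simp [p.β_comm.1 u7, u2.β_self]) hf1 hf2
  rw [add_neg_cancel_right] at h1
  rw [e2 _ _ _ _ he' h1]
  exact N.mul_mem
    (key _ _ _ _ a1 hf1 hx' fun k => u6 ((Submodule.add_mem_iff_right _ hw').1 k))
    (key _ _ _ _ a2 hf2 hx' fun k => u6 (neg_mem_iff.1 k))

end Pool.Agent.Work.MP_11a08a_al.Lin
end

-- merged part: Pool.Agent.Work.MP_11a08a_al.Lin.QS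
section
/-!
Write `E x w` for the Eichler map.  (1) if `e` is central, `hC` applies to `h = e.toAddEquiv` (`SemiSim` with `θ = refl`, `c = 1`, `f = 1`), `e = z` on `U`; `e x = x`, `e w = w` give `ζ = 1`, so `e = 1` on `U`; but item 1 of `hB` with `T = U` gives `v ∈ U` with `β v x = 1`, `β v w = 0`, `e v = v + w`.
(2) from `hR`.  (3) take `(z, w')` from (2) and `a ∈ U ⊓ P s` singular, orthogonal to `z, w'`, outside `span {z, w'}`; `hW` gives `h ∈ A U` with `h z = z`, `h a = a + w'`; `h (E z a) h⁻¹ (E z a)⁻¹ = E z w'` lies in the commutator subgroup; apply `hQ`.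
(4) let `g ∈ N` not commute with some generator `E x w`; `c = g (E x w) g⁻¹ (E x w)⁻¹ = E (g x) (g w) * (E x w)⁻¹ ∈ N`, `c ≠ 1`, `c` fixes the vectors orthogonal to `S = {x, w, g x, g w} ⊆ U` and `c v - v ∈ span S`.  If `c y ∈ span {y}` for all singular `y` of both sorts, then by `hC` `c = ζ t` on `U ⊓ P t`, and `ζ t = 1` as a nonzero
singular vector orthogonal to `S` exists; so `c = 1` on `U` and on `perp U`, false.  Take `t` and a singular `y ∈ U ⊓ P t` with `c y ∉ span {y}`.  Take `z ∈ U ⊓ P (!t)` singular, orthogonal to `S` and `y`, outside `span {y, c y}`: `c z = z`, `β z (c y) = 0`, and `c' = c (E z y) c⁻¹ (E z y)⁻¹ = E z (c y) * (E z y)⁻¹ ∈ N`.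
Take `w' ∈ U ⊓ P t` singular, orthogonal to `z, y, c y`, outside `span {z, y, c y}`.  The tuples `![z, y, c y]` and `![z, y, c y + w']` are independent with the same forms, so `hW` (`j = 3`) gives `h ∈ A U` between them, and `h c' h⁻¹ c'⁻¹ = E z (c y + w') * (E z (c y))⁻¹ = E z w' ∈ N`.  Apply `hQ`.
-/

set_option autoImplicit false

open Module
open scoped commutatorElement

namespace Pool.Agent.Work.MP_11a08a_al.Lin

section

variable {K V : Type} [Field K] [Finite K] [AddCommGroup V] [Module K V] [FiniteDimensional K V]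
  {p : Polar K V} {U : Submodule K V}

theorem qs_room (hR : StmtRL) (hU : p.Nd U) (hr : 40 ≤ p.rk U) (s : Bool) (R T : Finset V)
    (h1 : R.card ≤ 5) (h2 : T.card ≤ 5) : ∃ x ∈ U ⊓ p.P s, p.Sing x ∧ (∀ r ∈ R, p.β x r = 0) ∧
      x ∉ Submodule.span K (T : Set V) := by
  obtain ⟨x, hx, h3, h4, h5⟩ := ((hR K V p U hU).1 s 5 R T h1 (by omega) (by omega)).2
    (fun _ => 0) (fun _ _ => by simp)
  exact ⟨x, hx, h3, h4, fun h => h5 (Submodule.mem_sup_left h)⟩

omit [Finite K] [FiniteDimensional K V] in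
theorem qs_solve {a : K} {u v : V} {S : Submodule K V} (h : a • u + v = 0) (hv : v ∈ S)
    (hu : u ∉ S) : a = 0 := by
  by_contra ha
  apply hu
  have e : u = -a⁻¹ • v := by
    have : v = -(a • u) := by rw [eq_neg_iff_add_eq_zero, add_comm, h]
    rw [this, neg_smul, smul_neg, neg_neg, smul_smul, inv_mul_cancel₀ ha, one_smul]
  rw [e]
  exact S.smul_mem _ hv

omit [Finite K] [FiniteDimensional K V] in
theorem qs_ind (hU : p.Nd U) {t : Bool} {z y a : V} (hz : z ∈ U ⊓ p.P (!t)) (hy : y ∈ U ⊓ p.P t)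
    (ha : a ∈ U ⊓ p.P t)
    (hi : ∀ b c d : K, b • z + c • y + d • a = 0 → b = 0 ∧ c = 0 ∧ d = 0) :
    p.Ind (p.perp U) ![!t, t, t] ![z, y, a] := by
  refine ⟨fun i => ?_, fun c hc i => ?_⟩
  · fin_cases i
    · exact hz.2
    · exact hy.2
    · exact ha.2
  · rw [Fin.sum_univ_three] at hc
    have h1 : c 0 • z + c 1 • y + c 2 • a ∈ U ⊓ p.perp U :=
      ⟨U.add_mem (U.add_mem (U.smul_mem _ hz.1) (U.smul_mem _ hy.1)) (U.smul_mem _ ha.1), hc⟩
    rw [hU.2, Submodule.mem_bot] at h1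
    obtain ⟨h2, h3, h4⟩ := hi _ _ _ h1
    fin_cases i
    · exact h2
    · exact h3
    · exact h4

omit [Finite K] [FiniteDimensional K V] in
theorem qs_mem {s : Bool} {x w : V} {e : V ≃ₗ[K] V} (h : p.Adm U s x w) (he : p.Ei x w e) :
    e ∈ p.A U := Subgroup.subset_closure ⟨s, x, w, h, he⟩

omit [Finite K] [FiniteDimensional K V] in
theorem qs_fix {x w v : V} {e : V ≃ₗ[K] V} (he : p.Ei x w e) (h1 : p.β v x = 0)
    (h2 : p.β v w = 0) : e v = v := by
  rw [he v, h1, h2]; simp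

omit [Finite K] [FiniteDimensional K V] in
theorem qs_gr (hU : p.Gr U) {e : V ≃ₗ[K] V} (h : ∀ s, ∀ v ∈ U ⊓ p.P s, e v = v) :
    ∀ v ∈ U, e v = v := by
  intro v hv
  obtain ⟨a, ha, b, hb, rfl⟩ := Submodule.mem_sup.1 (hU hv)
  rw [map_add, h _ a ha, h _ b hb]

omit [Finite K] [FiniteDimensional K V] in
theorem qs_one {ζ : K} {v : V} (h : v = ζ • v) (hv : v ≠ 0) : ζ = 1 := by
  have h1 : (ζ - 1) • v = 0 := by rw [sub_smul, one_smul, ← h, sub_self]
  exact sub_eq_zero.1 ((smul_eq_zero.1 h1).resolve_right hv)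

theorem qs_comm (hE : StmtPE) (hR : StmtRL) (hW : StmtWT) (hU : p.Nd U) (hr : 40 ≤ p.rk U)
    {t : Bool} {z y a : V} {e : V ≃ₗ[K] V} (hA : p.Adm U t z a) (hy : y ∈ U ⊓ p.P t)
    (hi : ∀ b c d : K, b • z + c • y + d • a = 0 → b = 0 ∧ c = 0 ∧ d = 0) (he : p.Ei z a e) :
    ∃ h ∈ p.A U, ∃ w, p.Adm U t z w ∧ w ∉ Submodule.span K {z} ∧ h z = z ∧ h y = y ∧
      p.Ei z w (h * e * h⁻¹ * e⁻¹) := by
  classical
  obtain ⟨E1, E2, -, E4, -, -, -, E8, -, E10, -⟩ := hE K V p
  obtain ⟨hz, ha, sz, sa, za⟩ := hA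
  obtain ⟨w, hw, sw, h1, h2⟩ := qs_room hR hU hr t {z, y, a} {z, y, a}
    (Finset.card_le_three.trans (by omega)) (Finset.card_le_three.trans (by omega))
  have wz : p.β w z = 0 := h1 z (by simp)
  have wy : p.β w y = 0 := h1 y (by simp)
  have wa : p.β w a = 0 := h1 a (by simp)
  have zw : p.β z w = 0 := p.β_comm.1 wz
  have yw : p.β y w = 0 := p.β_comm.1 wy
  have aw : p.β a w = 0 := p.β_comm.1 wa
  have ww : p.β w w = 0 := sw.β_self
  have m : ∀ v ∈ ({z, y, a} : Finset V), v ∈ Submodule.span K (({z, y, a} : Finset V) : Set V) :=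
    fun v hv => Submodule.subset_span hv
  have hi' : ∀ b c d : K, b • z + c • y + d • (a + w) = 0 → b = 0 ∧ c = 0 ∧ d = 0 := by
    intro b c d h
    have h3 : d • w + (b • z + c • y + d • a) = 0 := by rw [← h, smul_add]; abel
    have hd : d = 0 := qs_solve h3 (Submodule.add_mem _ (Submodule.add_mem _
      (Submodule.smul_mem _ _ (m z (by simp))) (Submodule.smul_mem _ _ (m y (by simp))))
      (Submodule.smul_mem _ _ (m a (by simp)))) h2
    refine hi b c d ?_
    rwa [hd, zero_smul, zero_add, ← hd] at h3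
  obtain ⟨h, hh, hv⟩ := (hW K V p U hU 3 ![!t, t, t] ![z, y, a] (by omega)
    (qs_ind hU hz hy ha hi)).1 ![z, y, a + w]
    (qs_ind hU hz hy (Submodule.add_mem _ ha hw) hi') (fun i => by
      fin_cases i
      · simp
      · simp
      · simpa using hw.1) (fun i => by
      fin_cases i
      · simp
      · simp
      · exact p.Λ.sub_mem (sa.add sw aw) sa) (fun i i' => by
      fin_cases i <;> fin_cases i' <;> simp [wz, wy, wa, zw, yw, aw, ww])
  have v0 : h z = z := hv 0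
  have v1 : h y = y := hv 1
  have v2 : h a = a + w := hv 2
  have hAw : p.Adm U t z w := ⟨hz, hw, sz, sw, zw⟩
  refine ⟨h, hh, w, hAw, fun hc => h2 (Submodule.span_mono (by simp) hc), v0, v1, ?_⟩
  obtain ⟨e', he'⟩ := E1 U t z w hAw
  have a1 := (E8 h ((E10 U).1 hh).1).2 z a e he
  rw [v0, v2, add_comm] at a1
  have a2 := E4 z w a e' e sz.β_self zw za aw he' he
  rw [E2 _ _ _ _ a1 a2, mul_inv_cancel_right]
  exact he'

theorem qs_1 (hB : StmtPB) (hE : StmtPE) (hC : StmtSC) (hU : p.Nd U) (hr : 40 ≤ p.rk U)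
    {s : Bool} {x w : V} {e : V ≃ₗ[K] V} (hA : p.Adm U s x w) (he : p.Ei x w e) (hx : x ≠ 0)
    (hw : w ∉ Submodule.span K {x}) :
    e ∉ Subgroup.centralizer (p.A U : Set (V ≃ₗ[K] V)) := by
  classical
  obtain ⟨-, -, -, -, -, -, -, E8, -, E10, -⟩ := hE K V p
  intro hc
  have hO : e ∈ p.O := ((E10 U).1 (qs_mem hA he)).1
  have hw0 : w ≠ 0 := fun h => hw (h ▸ Submodule.zero_mem _)
  have hxw : x ≠ w := fun h => hw (h ▸ Submodule.mem_span_singleton_self _)
  have hS : p.SemiSim e.toAddEquiv :=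
    ⟨RingEquiv.refl K, 1, 1, one_ne_zero, fun a v => e.map_smul a v,
      fun u v => by rw [one_mul]; exact hO.1 u v, fun v => (E8 e hO).1 v, fun t v => hO.2.2 t v⟩
  obtain ⟨ζ, z, hz, -, -, hez⟩ := ((hC K V p).2 U hU (by omega)).2 e.toAddEquiv hS
    (fun e' he' v => by
      have := hc e' (Subgroup.subset_closure he')
      exact congrArg (fun f : V ≃ₗ[K] V => f v) this)
  obtain ⟨mx, mw, sx, sw, xw⟩ := hA
  have hez' : ∀ t, ∀ v ∈ U ⊓ p.P t, e v = ζ t • v := fun t v hv =>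
    (hez v hv.1).trans (hz t v hv.2)
  have z1 : ζ (!s) = 1 := qs_one ((qs_fix he sx.β_self xw).symm.trans (hez' _ x mx)) hx
  have z2 : ζ s = 1 :=
    qs_one ((qs_fix he (p.β_comm.1 xw) sw.β_self).symm.trans (hez' _ w mw)) hw0
  have z3 : ∀ t, ζ t = 1 := by
    intro t
    cases s <;> cases t <;> assumption
  have h1 : ∀ v ∈ U, e v = v := qs_gr hU.1 fun t v hv => by rw [hez' t v hv, z3, one_smul]
  obtain ⟨v, hv, h2⟩ := (hB K V p).1 U {x, w} (fun r => if r = x then 1 else 0) (fun a ha => by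
    rw [Finset.sum_pair hxw] at ha ⊢
    have h3 : a x • x + a w • w ∈ U ⊓ p.perp U :=
      ⟨U.add_mem (U.smul_mem _ mx.1) (U.smul_mem _ mw.1), ha⟩
    rw [hU.2, Submodule.mem_bot, add_comm] at h3
    have h4 : a w = 0 :=
      qs_solve h3 (Submodule.smul_mem _ _ (Submodule.mem_span_singleton_self x)) hw
    rw [h4, zero_smul, zero_add] at h3
    have h5 : a x = 0 := (smul_eq_zero.1 h3).resolve_right hx
    simp [h4, h5])
  have h3 : p.β v x = 1 := by simpa using h2 x (by simp)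
  have h4 : p.β v w = 0 := by simpa [hxw.symm] using h2 w (by simp)
  have h5 := he v
  rw [h1 v hv, h3, h4] at h5
  exact hw0 (by simpa using h5)

theorem qs_2 (hR : StmtRL) (hU : p.Nd U) (hr : 40 ≤ p.rk U) :
    ∃ s x w, p.Adm U s x w ∧ x ≠ 0 ∧ w ∉ Submodule.span K {x} := by
  obtain ⟨x, hx, sx, -, h1⟩ := qs_room hR hU hr false ∅ ∅ (by simp) (by simp)
  obtain ⟨w, hw, sw, h2, h3⟩ := qs_room hR hU hr true {x} {x} (by simp) (by simp)
  exact ⟨true, x, w, ⟨hx, hw, sx, sw, p.β_comm.1 (h2 x (by simp))⟩, by simpa using h1,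
    by simpa using h3⟩

theorem qs_3 (hE : StmtPE) (hR : StmtRL) (hW : StmtWT) (hQ : StmtQS2) (hU : p.Nd U)
    (hr : 40 ≤ p.rk U) : ⁅p.A U, p.A U⁆ = p.A U := by
  classical
  have hle : ⁅p.A U, p.A U⁆ ≤ p.A U := Subgroup.commutator_le.2 fun g hg h hh =>
    mul_mem (mul_mem (mul_mem hg hh) (inv_mem hg)) (inv_mem hh)
  refine le_antisymm hle ?_
  obtain ⟨t, z, y, hA, hz, hy⟩ := qs_2 hR hU hr
  obtain ⟨a, ha, sa, h1, h2⟩ := qs_room hR hU hr t {z} {z, y} (by simp)
    (Finset.card_le_two.trans (by omega))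
  have hA' : p.Adm U t z a := ⟨hA.1, ha, hA.2.2.1, sa, p.β_comm.1 (h1 z (by simp))⟩
  obtain ⟨e, he⟩ := (hE K V p).1 U t z a hA'
  have m : ∀ v ∈ ({z, y} : Finset V), v ∈ Submodule.span K (({z, y} : Finset V) : Set V) :=
    fun v hv => Submodule.subset_span hv
  obtain ⟨h, hh, w, h3, h4, -, -, h5⟩ := qs_comm hE hR hW hU hr hA' hA.2.1 (fun b c d h => by
    have hd : d = 0 := qs_solve ((add_comm _ _).trans h) (Submodule.add_mem _
      (Submodule.smul_mem _ _ (m z (by simp))) (Submodule.smul_mem _ _ (m y (by simp)))) h2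
    rw [hd, zero_smul, add_zero] at h
    have hc : c = 0 := qs_solve ((add_comm _ _).trans h)
      (Submodule.smul_mem _ _ (Submodule.mem_span_singleton_self z)) hy
    rw [hc, zero_smul, add_zero] at h
    exact ⟨(smul_eq_zero.1 h).resolve_right hz, hc, hd⟩) he
  refine hQ K V p U hU hr _ (fun a ha x hx => ?_) t z w _ h3 h5 hz h4
    (Subgroup.commutator_mem_commutator hh (qs_mem hA' he))
  have e1 : a * x * a⁻¹ = ⁅a, x⁆ * x := by rw [commutatorElement_def, inv_mul_cancel_right]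
  rw [e1]
  exact mul_mem (Subgroup.commutator_mem_commutator ha (hle hx)) hx

theorem qs_4 (hB : StmtPB) (hE : StmtPE) (hR : StmtRL) (hW : StmtWT) (hC : StmtSC) (hQ : StmtQS2)
    (hU : p.Nd U) (hr : 40 ≤ p.rk U) (N : Subgroup (V ≃ₗ[K] V)) (hN : N ≤ p.A U)
    (hn : ∀ a ∈ p.A U, ∀ x ∈ N, a * x * a⁻¹ ∈ N) :
    N ≤ Subgroup.centralizer (p.A U : Set (V ≃ₗ[K] V)) ∨ N = p.A U := by
  classical
  obtain ⟨E1, E2, -, -, -, -, -, E8, -, E10, -⟩ := hE K V p
  rw [or_iff_not_imp_left]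
  intro hnc
  refine le_antisymm hN ?_
  obtain ⟨g, hg, e, ⟨s, x, w, hA, he⟩, hge⟩ : ∃ g ∈ N, ∃ e, p.IsE U e ∧ e * g ≠ g * e := by
    by_contra hcon
    push Not at hcon
    apply hnc
    intro g hg
    rw [Polar.A, Subgroup.centralizer_closure]
    exact fun e he => hcon g hg e he
  have hcm : ∀ a ∈ N, ∀ b ∈ p.A U, a * b * a⁻¹ * b⁻¹ ∈ N := by
    intro a ha b hb
    have e1 : a * b * a⁻¹ * b⁻¹ = a * (b * a⁻¹ * b⁻¹) := by simp only [mul_assoc]
    rw [e1]
    exact mul_mem ha (hn b hb _ (inv_mem ha))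
  have hO : ∀ a ∈ p.A U, a ∈ p.O := fun a ha => ((E10 U).1 ha).1
  obtain ⟨c, hcN, hc1, hcf⟩ : ∃ c ∈ N, c ≠ 1 ∧
      ∀ v, (∀ r ∈ ({x, w, g x, g w} : Finset V), p.β v r = 0) → c v = v := by
    refine ⟨g * e * g⁻¹ * e⁻¹, hcm g hg e (qs_mem hA he), fun h => hge ?_, fun v hv => ?_⟩
    · rw [mul_inv_eq_one, mul_inv_eq_iff_eq_mul] at h
      exact h.symm
    · have a1 : e v = v := qs_fix he (hv x (by simp)) (hv w (by simp))
      have a2 : (g * e * g⁻¹) v = v := qs_fix ((E8 g (hO g (hN hg))).2 x w e he)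
        (hv _ (by simp)) (hv _ (by simp))
      have a3 : e⁻¹ v = v := e.symm_apply_eq.2 a1.symm
      rw [LinearEquiv.mul_apply, a3, a2]
  have hcA := hN hcN
  have hcO := hO c hcA
  have c4 : ({x, w, g x, g w} : Finset V).card ≤ 4 := Finset.card_le_four
  obtain ⟨t, y, hy, sy, hcy⟩ : ∃ t, ∃ y ∈ U ⊓ p.P t, p.Sing y ∧ ∀ a : K, c y ≠ a • y := by
    by_contra hcon
    push Not at hcon
    apply hc1
    have h1 : ∀ v ∈ U, c v = v := qs_gr hU.1 fun t v hv => by
      obtain ⟨ζ, hζ⟩ := ((hC K V p).2 U hU (by omega)).1 c.toAddEquiv.toAddMonoidHom t (hcon t)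
      obtain ⟨u, hu, -, h2, h3⟩ := qs_room hR hU hr t {x, w, g x, g w} ∅ (by omega) (by simp)
      have h4 : ζ = 1 := qs_one ((hcf u h2).symm.trans (hζ u hu)) (by simpa using h3)
      exact (hζ v hv).trans (by rw [h4, one_smul])
    have h2 := (((hB K V p).2.2.2.2.2.1 U hU).1).sup_eq_top
    refine LinearEquiv.ext fun v => ?_
    obtain ⟨a, ha, b, hb, rfl⟩ := Submodule.mem_sup.1 (h2 ▸ Submodule.mem_top (x := v))
    rw [map_add, h1 a ha, ((E10 U).1 hcA).2 b hb]
    rfl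
  have hy0 : y ≠ 0 := fun h => hcy 0 (by rw [h, map_zero, smul_zero])
  have hcyU : c y ∈ U ⊓ p.P t := by
    refine ⟨?_, (hcO.2.2 t y).2 hy.2⟩
    have := U.add_mem ((E10 U).2 c hcA y) hy.1
    rwa [sub_add_cancel] at this
  obtain ⟨z, hz, sz, h1, h2⟩ := qs_room hR hU hr (!t) (insert y {x, w, g x, g w}) {y, c y}
    ((Finset.card_insert_le _ _).trans (by omega)) (Finset.card_le_two.trans (by omega))
  have cz : c z = z := hcf z fun r hr => h1 r (Finset.mem_insert_of_mem hr)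
  have zy : p.β z y = 0 := h1 y (Finset.mem_insert_self _ _)
  have zcy : p.β z (c y) = 0 := by rw [← zy, ← hcO.1 z y, cz]
  have A0 : p.Adm U t z y := ⟨hz, hy, sz, sy, zy⟩
  have A1 : p.Adm U t z (c y) := ⟨hz, hcyU, sz, ((E8 c hcO).1 y).2 sy, zcy⟩
  obtain ⟨e0, he0⟩ := E1 U t z y A0
  have he1 := (E8 c hcO).2 z y e0 he0
  rw [cz] at he1
  have m : ∀ v ∈ ({y, c y} : Finset V), v ∈ Submodule.span K (({y, c y} : Finset V) : Set V) :=
    fun v hv => Submodule.subset_span hv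
  obtain ⟨h, hh, w', h3, h4, hz', hy', h5⟩ := qs_comm hE hR hW hU hr A1 hy (fun b d f h => by
    have hb : b = 0 := qs_solve ((add_assoc _ _ _).symm.trans h) (Submodule.add_mem _
      (Submodule.smul_mem _ _ (m y (by simp))) (Submodule.smul_mem _ _ (m _ (by simp)))) h2
    rw [hb, zero_smul, zero_add] at h
    have hf : f = 0 := qs_solve ((add_comm _ _).trans h)
      (Submodule.smul_mem _ _ (Submodule.mem_span_singleton_self y)) (fun hc => by
        obtain ⟨a, ha⟩ := Submodule.mem_span_singleton.1 hc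
        exact hcy a ha.symm)
    rw [hf, zero_smul, add_zero] at h
    exact ⟨hb, (smul_eq_zero.1 h).resolve_right hy0, hf⟩) he1
  refine hQ K V p U hU hr N hn t z w' _ h3 h5 (fun h => h2 (h ▸ Submodule.zero_mem _)) h4 ?_
  have a1 := (E8 h (hO h hh)).2 z y e0 he0
  rw [hz', hy'] at a1
  have a2 : h * e0 * h⁻¹ = e0 := E2 _ _ _ _ a1 he0
  have a3 := hcm c hcN e0 (qs_mem A0 he0)
  have a4 := mul_mem (hn h hh _ a3) (inv_mem a3)
  have a5 : h * (c * e0 * c⁻¹ * e0⁻¹) * h⁻¹ * (c * e0 * c⁻¹ * e0⁻¹)⁻¹ =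
      h * (c * e0 * c⁻¹) * h⁻¹ * ((h * e0 * h⁻¹)⁻¹ * e0) * (c * e0 * c⁻¹)⁻¹ := by group
  rwa [a5, a2, inv_mul_cancel, mul_one] at a4

end

theorem qs (hB : StmtPB) (hE : StmtPE) (hR : StmtRL) (hW : StmtWT) (hC : StmtSC) (hQ : StmtQS2) :
    StmtQS := by
  intro K V _ _ _ _ _ p U hU hr
  exact ⟨fun s x w e h1 h2 h3 h4 => qs_1 hB hE hC hU hr h1 h2 h3 h4, qs_2 hR hU hr,
    qs_3 hE hR hW hQ hU hr, qs_4 hB hE hR hW hC hQ hU hr⟩

end Pool.Agent.Work.MP_11a08a_al.Lin
end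

-- merged part: Pool.Agent.Work.MP_11a08a_al.Lin.Adj
section
/-!
(1) choose a basis (`Module.finBasis`), `LinearMap.toMatrix`, and pad with an identity block up to size `m`; it is easiest to prove (2) first (`Matrix.fromBlocks A 0 0 1` reindexed along `finSumFinEquiv`, or `V × (Fin k → K)`).  (3) compose.  (4) permutation matrices over `ℚ`, or (1) with `V = Fin n → ℚ` and `LinearEquiv.funCongrLeft`.
(5) `T'` = the span of the elements of `X` in `End K V`, `T' ≤ T`, is invariant under conjugation by `X`; this gives `ρ : X →* (T' ≃ₗ[K] T')` whose kernel is the centre of `X`.  The image of the centre of `X` is central in `Q`, so trivial (`Q` is simple and not commutative); so `ρ.ker = π.ker`, and `ρ` factors through an injective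
homomorphism from `Q` (`MonoidHom.liftOfSurjective`, or `QuotientGroup.quotientKerEquivOfSurjective` and `QuotientGroup.kerLift`).  Apply (1).
-/

set_option autoImplicit false

open Module
open scoped commutatorElement

namespace Pool.Agent.Work.MP_11a08a_al.Lin

section
variable {K V Q : Type} [Field K] [AddCommGroup V] [Module K V] [FiniteDimensional K V] [Group Q]

theorem adj_eq {m : ℕ} (f : Q →* End K V) (hf : Function.Injective f) (h : finrank K V = m) :
    LinG m Q := by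
  let e := LinearMap.toMatrixAlgEquiv (finBasisOfFinrankEq K V h)
  refine ⟨K, inferInstance, ((e : End K V →* Matrix (Fin m) (Fin m) K).comp f).toHomUnits,
    fun a b hab => hf (e.injective ?_)⟩
  exact congrArg Units.val hab

theorem adj_end {m : ℕ} (f : Q →* End K V) (hf : Function.Injective f) (h : finrank K V ≤ m) :
    LinG m Q := by
  let g : Q →* End K (V × (Fin (m - finrank K V) → K)) :=
    { toFun := fun q => (f q).prodMap LinearMap.id
      map_one' := by rw [map_one]; rfl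
      map_mul' := fun a b => by rw [map_mul]; rfl }
  refine adj_eq g (fun a b hab => hf (LinearMap.ext fun v => ?_)) ?_
  · exact congrArg Prod.fst (LinearMap.congr_fun hab (v, 0))
  · rw [finrank_prod, finrank_fin_fun]
    omega

theorem adj_one {m : ℕ} (f : Q →* (V ≃ₗ[K] V)) (hf : Function.Injective f) (h : finrank K V ≤ m) :
    LinG m Q :=
  adj_end (LinearEquiv.automorphismGroup.toLinearMapMonoidHom.comp f)
    (LinearEquiv.toLinearMap_injective.comp hf) h

theorem adj_alt (n : ℕ) : LinG n (alternatingGroup (Fin n)) := by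
  let g : alternatingGroup (Fin n) →* End ℚ (Fin n → ℚ) :=
    { toFun := fun q => LinearMap.funLeft ℚ ℚ (q⁻¹).1
      map_one' := rfl
      map_mul' := fun a b => by rw [mul_inv_rev]; rfl }
  refine adj_end g (fun a b hab => inv_injective (Subtype.ext (Equiv.ext fun i => ?_))) (by simp)
  have h : (((a⁻¹).1 i : ℕ) : ℚ) = ((b⁻¹).1 i : ℕ) :=
    congrFun (LinearMap.congr_fun hab fun j => ((j : ℕ) : ℚ)) i
  exact Fin.ext (Nat.cast_injective h)

theorem adj_conj {m : ℕ} (X : Subgroup (V ≃ₗ[K] V)) (π : X →* Q) (T : Submodule K (End K V))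
    (hs : Function.Surjective π) (hk : π.ker ≤ Subgroup.center X) (hQ : IsSimpleGroup Q)
    (hn : ∃ x y : Q, x * y ≠ y * x) (hT : ∀ x ∈ X, (x : End K V) ∈ T) (hm : finrank K T ≤ m) :
    LinG m Q := by
  let ι : X →* End K V := LinearEquiv.automorphismGroup.toLinearMapMonoidHom.comp X.subtype
  have hι : Function.Injective ι := LinearEquiv.toLinearMap_injective.comp Subtype.val_injective
  let S : Submodule K (End K V) := Submodule.span K (Set.range ι)
  have hS : S ≤ T := Submodule.span_le.2 (by rintro _ ⟨x, rfl⟩; exact hT _ x.2)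
  let c : X → End K (End K V) := fun x => LinearMap.mulLeft K (ι x) ∘ₗ LinearMap.mulRight K (ι x⁻¹)
  have hc : ∀ x y, c x (ι y) = ι (x * y * x⁻¹) := fun x y => by
    rw [map_mul, map_mul, mul_assoc]
    rfl
  have hi : ∀ x, ∀ t ∈ S, c x t ∈ S := fun x => by
    have : S ≤ S.comap (c x) := Submodule.span_le.2 (by
      rintro _ ⟨y, rfl⟩
      exact Submodule.subset_span ⟨_, (hc x y).symm⟩)
    exact this
  let ρ : X →* End K S :=
    { toFun := fun x => (c x).restrict (hi x)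
      map_one' := LinearMap.ext fun t => Subtype.ext (by
        show ι 1 * (t.1 * ι 1⁻¹) = t.1
        rw [inv_one, map_one, one_mul, mul_one])
      map_mul' := fun a b => LinearMap.ext fun t => Subtype.ext (by
        show ι (a * b) * (t.1 * ι (a * b)⁻¹) = ι a * (ι b * (t.1 * ι b⁻¹) * ι a⁻¹)
        rw [mul_inv_rev, map_mul, map_mul]
        simp only [mul_assoc]) }
  have h1 : π.ker ≤ ρ.toHomUnits.ker := fun x hx => by
    refine Units.ext (LinearMap.ext fun t => Subtype.ext ?_)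
    refine LinearMap.eqOn_span (f := c x) (g := LinearMap.id) ?_ t.2
    rintro _ ⟨y, rfl⟩
    rw [hc, ← Subgroup.mem_center_iff.1 (hk hx) y, mul_inv_cancel_right]
    rfl
  have h2 : Subgroup.center Q = ⊥ := by
    refine (hQ.eq_bot_or_eq_top_of_normal _ inferInstance).resolve_right fun h => ?_
    obtain ⟨x, y, hxy⟩ := hn
    exact hxy (Subgroup.mem_center_iff.1 (h ▸ Subgroup.mem_top y) x)
  let φ := π.liftOfSurjective hs ⟨ρ.toHomUnits, h1⟩
  have h3 : ∀ x, φ (π x) = ρ.toHomUnits x := fun x => by simp [φ]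
  refine adj_end ((Units.coeHom _).comp φ) (Units.val_injective.comp ?_)
    ((Submodule.finrank_mono hS).trans hm)
  refine (injective_iff_map_eq_one φ).2 fun q hq => ?_
  obtain ⟨x, rfl⟩ := hs q
  rw [h3] at hq
  rw [← Subgroup.mem_bot, ← h2, Subgroup.mem_center_iff]
  intro q
  obtain ⟨y, rfl⟩ := hs q
  have h4 : c x (ι y) = ι y := congrArg Subtype.val
    (LinearMap.congr_fun (congrArg Units.val hq) ⟨ι y, Submodule.subset_span ⟨y, rfl⟩⟩)
  rw [hc] at h4
  rw [← map_mul, ← map_mul, mul_inv_eq_iff_eq_mul.1 (hι h4)]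

end


theorem adj : StmtAdj := by
  refine ⟨fun K V Q _ _ _ _ _ m f => adj_one f, ?_, ?_, adj_alt,
    fun K V Q _ _ _ _ _ m X π T => adj_conj X π T⟩
  · rintro Q _ m m' h ⟨K, _, f, hf⟩
    let e : Matrix (Fin m) (Fin m) K ≃ₐ[K] End K (Fin m → K) := Matrix.toLinAlgEquiv'
    exact adj_end ((e : Matrix (Fin m) (Fin m) K →* End K (Fin m → K)).comp
      ((Units.coeHom _).comp f)) (e.injective.comp (Units.val_injective.comp hf)) (by simpa using h)
  · rintro Q Q' _ _ m g hg ⟨K, _, f, hf⟩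
    exact ⟨K, inferInstance, f.comp g, hf.comp hg⟩

end Pool.Agent.Work.MP_11a08a_al.Lin
end

-- merged part: Pool.Agent.Work.MP_11a08a_al.Lin.Bar
section
/-!
`A ⊤ = ⁅A ⊤, A ⊤⁆ ≤ ⁅O, O⁆ = D` (`hQ`, `Nd ⊤`, `A ⊤ ≤ OU ⊤ ≤ O`).  `A ⊤` is normalised by `O` (last item of `hE`), so `bar π ⊤` is normal in the simple group `Q`; it is not trivial, since otherwise `A ⊤ ≤ ker π ≤ center D` is commutative, against items 1, 2 of `hQ`.
An element of `A ⊤` in the kernel centralises `A ⊤`, so by `hC` (with `U = ⊤`) it is a scalar map; there are at most `q ^ 2` of them; `card (A ⊤) = card Q * card (kernel)`.  The map statement: the last item of `hS` for `h`, and for `h.symm` with `U', U` exchanged (`V` is nontrivial as `rk ⊤ > 0`).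
For `U`: `Subgroup.map_commutator`; for `M ≤ bar π U` let `M' = (M.comap π).map D.subtype ⊓ A U` and apply item 4 of `hQ`.  Third item: `M' = {x ∈ A U | π x centralises bar π U}` is normal in `A U`; if it is `A U` then `bar π U` is commutative and perfect, so trivial.
Fourth item: for `e ∈ A U` let `e' ∈ A ⊤` with `e' h = h e` (`hS` with `⊤, ⊤`); `π e' = α (π e) = π e`, so `e' e⁻¹ ∈ center D`, and `e ↦ e' e⁻¹` is a homomorphism from the perfect group `A U` to a commutative group, so trivial (the set of `e ∈ A U` that commute with `h` is a subgroup containing all commutators: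
if `e₁' = z₁ e₁`, `e₂' = z₂ e₂` with central `z₁, z₂` then `⁅e₁', e₂'⁆ = ⁅e₁, e₂⁆`).  Apply `hC`.
-/

set_option autoImplicit false

open Module
open scoped commutatorElement

namespace Pool.Agent.Work.MP_11a08a_al.Lin

section abstract

variable {G Q : Type} [Group G] [Group Q] {D A : Subgroup G} {π : D →* Q}

theorem bar_mem {y : Q} : y ∈ (A.subgroupOf D).map π ↔ ∃ x : D, x.1 ∈ A ∧ π x = y := Iff.rfl

theorem bar_perf (hA : A ≤ D) (h : ⁅A, A⁆ = A) :
    ⁅(A.subgroupOf D).map π, (A.subgroupOf D).map π⁆ = (A.subgroupOf D).map π := by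
  rw [← Subgroup.map_commutator]
  congr 1
  apply Subgroup.map_injective D.subtype_injective
  rw [Subgroup.map_commutator, Subgroup.map_subgroupOf_eq_of_le hA, h]

theorem bar_cen (hA : A ≤ D) (hk : π.ker ≤ Subgroup.center D) {x : D} (hx : π x = 1) :
    x.1 ∈ Subgroup.centralizer (A : Set G) := fun a ha =>
  congrArg Subtype.val (Subgroup.mem_center_iff.1 (hk hx) ⟨a, hA ha⟩)

theorem bar_ne (hA : A ≤ D) (hk : π.ker ≤ Subgroup.center D) {e : G} (he : e ∈ A)
    (h : e ∉ Subgroup.centralizer (A : Set G)) : (A.subgroupOf D).map π ≠ ⊥ := fun h0 => by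
  have h1 : π ⟨e, hA he⟩ ∈ (A.subgroupOf D).map π := ⟨_, he, rfl⟩
  rw [h0] at h1
  exact h (bar_cen hA hk (x := ⟨e, hA he⟩) h1)

theorem bar_alt (hA : A ≤ D) (hq : ∀ N : Subgroup G, N ≤ A → (∀ a ∈ A, ∀ x ∈ N, a * x * a⁻¹ ∈ N) →
      N ≤ Subgroup.centralizer (A : Set G) ∨ N = A) (M : Subgroup Q)
    (hM : ∀ a ∈ (A.subgroupOf D).map π, ∀ x ∈ M, a * x * a⁻¹ ∈ M) :
    (∀ x : D, x.1 ∈ A → π x ∈ M → x.1 ∈ Subgroup.centralizer (A : Set G)) ∨
      (A.subgroupOf D).map π ≤ M := by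
  refine (hq ((M.comap π).map D.subtype ⊓ A) inf_le_right ?_).imp
    (fun h x hx hm => h ⟨⟨x, hm, rfl⟩, hx⟩) fun h => ?_
  · rintro a ha _ ⟨⟨x, hx, rfl⟩, hx'⟩
    refine ⟨⟨⟨a, hA ha⟩ * x * ⟨a, hA ha⟩⁻¹, ?_, rfl⟩, A.mul_mem (A.mul_mem ha hx') (A.inv_mem ha)⟩
    change π _ ∈ M
    rw [map_mul, map_mul, map_inv]
    exact hM _ ⟨_, ha, rfl⟩ _ hx
  · rintro _ ⟨x, hx, rfl⟩
    obtain ⟨⟨y, hy, e⟩, -⟩ := h.ge hx
    exact (Subtype.ext e : y = x) ▸ hy

theorem bar_top (hs : Function.Surjective π) (hQ : IsSimpleGroup Q)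
    (hn : ∀ d ∈ D, ∀ a ∈ A, d * a * d⁻¹ ∈ A) (h0 : (A.subgroupOf D).map π ≠ ⊥) :
    (A.subgroupOf D).map π = ⊤ := by
  have h1 : (A.subgroupOf D).Normal := ⟨fun a ha d => hn d.1 d.2 a.1 ha⟩
  exact (h1.map π hs).eq_bot_or_eq_top.resolve_left h0

theorem bar_card [Finite G] (hA : A ≤ D) (hs : Function.Surjective π) (S : Set G)
    (h : ∀ x : D, x.1 ∈ A → π x = 1 → x.1 ∈ S) : Nat.card A ≤ S.ncard * Nat.card Q := by
  have : Finite Q := Finite.of_surjective π hs
  let φ : A →* Q := π.comp (Subgroup.inclusion hA)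
  rw [← φ.ker.card_mul_index, Subgroup.index_ker, ← Nat.card_coe_set_eq]
  refine Nat.mul_le_mul ?_ (Nat.card_le_card_of_injective _ Subtype.val_injective)
  refine Nat.card_le_card_of_injective
    (fun x => (⟨x.1.1, h (Subgroup.inclusion hA x.1) x.1.2 x.2⟩ : S)) fun x y e => ?_
  exact Subtype.ext (Subtype.ext (congrArg (fun w : S => w.1) e))

theorem bar_comm {H : Type} [Group H] {π : H →* Q} (hk : π.ker ≤ Subgroup.center H) {x x' : H}
    (h : π x' = π x) (y : H) : ⁅x', y⁆ = ⁅x, y⁆ := by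
  have h1 : x' * x⁻¹ ∈ π.ker := by rw [MonoidHom.mem_ker, map_mul, map_inv, h, mul_inv_cancel]
  have h2 := Subgroup.mem_center_iff.1 (hk h1) (x * y * x⁻¹)
  have h3 : x' * y * x'⁻¹ = x' * x⁻¹ * (x * y * x⁻¹) * (x' * x⁻¹)⁻¹ := by group
  rw [commutatorElement_def, commutatorElement_def, h3, ← h2, mul_inv_cancel_right]

theorem bar_diag (hA : A ≤ D) (hk : π.ker ≤ Subgroup.center D) (hp : ⁅A, A⁆ = A)
    (T : Subgroup (G × G)) (h : ∀ x : D, x.1 ∈ A → ∃ y : D, (x.1, y.1) ∈ T ∧ π y = π x) :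
    ∀ e ∈ A, (e, e) ∈ T := by
  suffices H : ⁅A, A⁆ ≤ T.comap ((MonoidHom.id G).prod (MonoidHom.id G)) by
    rw [hp] at H
    exact H
  refine Subgroup.commutator_le.2 fun a ha b hb => ?_
  obtain ⟨a', h1, h2⟩ := h ⟨a, hA ha⟩ ha
  obtain ⟨b', h3, h4⟩ := h ⟨b, hA hb⟩ hb
  have e : ⁅a', b'⁆ = ⁅(⟨a, hA ha⟩ : D), (⟨b, hA hb⟩ : D)⁆ := by
    rw [bar_comm hk h2, ← commutatorElement_inv, bar_comm hk h4, commutatorElement_inv]
  have e' : ⁅a'.1, b'.1⁆ = ⁅a, b⁆ := congrArg Subtype.val e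
  have h5 : (⁅a, b⁆, ⁅a'.1, b'.1⁆) ∈ T :=
    T.mul_mem (T.mul_mem (T.mul_mem h1 h3) (T.inv_mem h1)) (T.inv_mem h3)
  rw [e'] at h5
  exact h5

end abstract

/-- The pairs of linear maps intertwined by `h`. -/
def bar_T (K : Type) {V : Type} [Field K] [AddCommGroup V] [Module K V] (h : V ≃+ V) :
    Subgroup ((V ≃ₗ[K] V) × (V ≃ₗ[K] V)) where
  carrier := {q | ∀ v, q.2 (h v) = h (q.1 v)}
  one_mem' _ := rfl
  mul_mem' {a _} ha hb v := (congrArg a.2 (hb v)).trans (ha _)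
  inv_mem' {a} ha v := a.2.symm_apply_eq.2
    ((congrArg h (a.1.apply_symm_apply v).symm).trans (ha _).symm)

theorem barS (hB : StmtPB) (hE : StmtPE) (hS : StmtSS) (hC : StmtSC) (hQ : StmtQS) : StmtBar := by
  intro K V Q _ _ _ _ _ _ p π hπ hr
  have hV : Nontrivial V := by
    have : Nontrivial ↥(⊤ ⊓ p.P true) :=
      Module.nontrivial_of_finrank_pos (R := K) (lt_of_lt_of_le (by decide) hr)
    exact (⊤ ⊓ p.P true).subtype_injective.nontrivial
  have : Finite V := Module.finite_of_finite K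
  have : Finite (V ≃ₗ[K] V) := Finite.of_injective _ DFunLike.coe_injective
  have hT : p.Nd ⊤ := (hB K V p).2.2.2.2.1
  obtain ⟨e1, -, -, -, -, -, -, -, e9, e10, e11⟩ := hE K V p
  obtain ⟨s1, -, s3⟩ := hS K V p
  obtain ⟨c1, c2⟩ := hC K V p
  have hDO : p.D ≤ p.O := Subgroup.commutator_le.2 fun a ha b hb =>
    p.O.mul_mem (p.O.mul_mem (p.O.mul_mem ha hb) (p.O.inv_mem ha)) (p.O.inv_mem hb)
  have hAO : p.A ⊤ ≤ p.O := fun x hx => ((e10 ⊤).1 hx).1
  have hAD : p.A ⊤ ≤ p.D := by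
    rw [← (hQ K V p ⊤ hT hr).2.2.1]
    exact Subgroup.commutator_mono hAO hAO
  have hUD : ∀ U, p.A U ≤ p.D := fun U => (e9 U ⊤ le_top).trans hAD
  have hne : ∀ U, p.Nd U → 40 ≤ p.rk U → Polar.bar π U ≠ ⊥ := fun U hU hr => by
    obtain ⟨q1, ⟨s, x, w, ha, hx, hw⟩, -⟩ := hQ K V p U hU hr
    obtain ⟨e, he⟩ := e1 U s x w ha
    exact bar_ne (hUD U) hπ.ker (Subgroup.subset_closure ⟨s, x, w, ha, he⟩)
      (q1 s x w e ha he hx hw)
  refine ⟨hDO, hAD, bar_top hπ.surj hπ.simple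
    (fun d hd => e11 ⊤ d (hDO hd) fun _ => Iff.rfl) (hne ⊤ hT hr), ?_, ?_, fun U hU hrU => ?_⟩
  · refine (bar_card hAD hπ.surj {z | ∃ ζ, p.Scal ζ z} fun x hx h1 => ?_).trans
      (Nat.mul_le_mul_right _ c1)
    obtain ⟨ζ, z, hz, -, -, h⟩ := (c2 ⊤ hT (by omega)).2 x.1.toAddEquiv (s1 _ (hAO hx))
      fun e he v => LinearEquiv.congr_fun
        (bar_cen hAD hπ.ker h1 e (Subgroup.subset_closure he)) v
    exact ⟨ζ, (LinearEquiv.ext fun v => h v trivial : x.1 = z) ▸ hz⟩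
  · intro h hh U U' hU α hα
    refine le_antisymm ?_ ?_
    · rintro _ ⟨_, ⟨x, hx, rfl⟩, rfl⟩
      obtain ⟨e', h1, h2⟩ := ((s3 h hh).2.2.2.2 U U' hU).2.2.2 x.1 hx
      exact ⟨⟨e', hUD U' h1⟩, h1, (hα x _ (e9 U ⊤ le_top hx) h2).symm⟩
    · rintro _ ⟨y, hy, rfl⟩
      obtain ⟨e, h1, h2⟩ := ((s3 h.symm (s3 h hh).1).2.2.2.2 U' U fun v => by
        rw [← hU, h.apply_symm_apply]).2.2.2 y.1 hy
      refine ⟨π ⟨e, hUD U h1⟩, ⟨_, h1, rfl⟩, hα _ y (e9 U ⊤ le_top h1) fun v => ?_⟩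
      have h3 := h2 (h v)
      rw [h.symm_apply_apply] at h3
      exact h.symm_apply_eq.1 h3.symm
  obtain ⟨-, -, q3, q4⟩ := hQ K V p U hU hrU
  have hp : ⁅Polar.bar π U, Polar.bar π U⁆ = Polar.bar π U := bar_perf (hUD U) q3
  refine ⟨⟨hp, hne U hU hrU⟩, fun M hM hn => ?_, ?_, fun h hh α hα hfix => ?_⟩
  · refine (bar_alt (hUD U) q4 M hn).imp (fun h x hx => ?_) fun h => le_antisymm hM h
    obtain ⟨e, he, rfl⟩ := hM hx
    rintro _ ⟨a, ha, rfl⟩
    rw [← map_mul, ← map_mul]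
    exact congrArg π (Subtype.ext (h e he hx a.1 ha))
  · refine (bar_alt (hUD U) q4 (Subgroup.centralizer (Polar.bar π U : Set Q))
      fun a ha x hx => ?_).resolve_right fun h => hne U hU hrU ?_
    · rwa [hx a ha, mul_inv_cancel_right]
    · rw [← hp]
      exact Subgroup.commutator_eq_bot_iff_le_centralizer.2 h
  · refine (c2 U hU (by omega)).2 h hh fun e he => ?_
    refine bar_diag (hUD U) hπ.ker q3 (bar_T K h) (fun x hx => ?_) e (Subgroup.subset_closure he)
    have hx' := e9 U ⊤ le_top hx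
    obtain ⟨e', h1, h2⟩ := ((s3 h hh).2.2.2.2 ⊤ ⊤ fun _ => Iff.rfl).2.2.2 x.1 hx'
    exact ⟨⟨e', hAD h1⟩, h2, (hα x _ hx' h2).symm.trans (hfix _ ⟨x, hx, rfl⟩)⟩

end Pool.Agent.Work.MP_11a08a_al.Lin
end

-- merged part: Pool.Agent.Work.MP_11a08a_al.Lin.G2
section
/-!
`c = 1024 + n (2 n + 3)`, `E = q ^ c`, `D = q ^ (c + n)` (`n ≤ 2 ^ n ≤ q ^ n`), `m = 2 (c + n)`, `k = 2 m + 11 n + 100`.  `QR D (bar π U)`: compose `f` with the surjection `A U → bar π U` and use `hQR`.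
For `Ncl N B` let `B₀ = (B.comap π).map D.subtype` and `B₁` the smallest subgroup with `A U ≤ B₁ ≤ B₀` invariant under conjugation by `B₀` (an `sInf`, or `Subgroup.closure` of the conjugates).  Its image is normal in `B` and contains `N`, so it is `B`; hence `B₀ = B₁ * ker π` with `ker π` central, subgroups invariant under `B₁` are invariant under `B₀`,
and `Ncl (A U) B₁`.  `hU` gives `a i ∈ B₁`.  With `J = B₁ ⊔ B₁'`, `Z = ker π ⊓ J`: `card J = card (B ⊔ B') * card Z`, and `π` maps `dc B₁' x ⊆ J` into `dc B' (π x)` with fibres of size at most `card Z`.  Cancel `card Z`.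
-/

set_option autoImplicit false

open Module
open scoped commutatorElement

namespace Pool.Agent.Work.MP_11a08a_al.Lin

section Aux

variable {H G : Type} [Group H] [Group G]

theorem g2_qr {A : Subgroup H} {N : Subgroup G} (φ : A →* N) (hφ : Function.Surjective φ) {D : ℕ}
    (h : QR D A) : QR D N := by
  intro W _ _ _ hW f hf x
  obtain ⟨y, rfl⟩ := hφ x
  refine h W hW (fun a => f (φ a)) (fun a b => ?_) y
  rw [map_mul]
  exact hf _ _

theorem g2_ncl_map (f : H →* G) {A B : Subgroup H} (h : Ncl A B) : Ncl (A.map f) (B.map f) := by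
  refine ⟨Subgroup.map_mono h.1, fun M h1 h2 h3 => le_antisymm h2 ?_⟩
  have e := h.2 (M.comap f ⊓ B) (le_inf (Subgroup.map_le_iff_le_comap.1 h1) h.1) inf_le_right
    fun b hb x hx => ⟨by
      have := h3 _ (Subgroup.mem_map_of_mem f hb) _ hx.1
      rwa [← map_inv, ← map_mul, ← map_mul] at this,
      B.mul_mem (B.mul_mem hb hx.2) (B.inv_mem hb)⟩
  rw [Subgroup.map_le_iff_le_comap, ← e]
  exact inf_le_left

theorem g2_lift (π : H →* G) (hs : Function.Surjective π) (hk : π.ker ≤ Subgroup.center H)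
    {A : Subgroup H} {B : Subgroup G} (h : Ncl (A.map π) B) :
    ∃ B₁ : Subgroup H, B₁.map π = B ∧ Ncl A B₁ := by
  have hA : A ≤ B.comap π := Subgroup.map_le_iff_le_comap.1 h.1
  obtain ⟨B₁, h1, h2, h3, h4⟩ : ∃ B₁ : Subgroup H, A ≤ B₁ ∧ B₁ ≤ B.comap π ∧
      (∀ b ∈ B.comap π, ∀ x ∈ B₁, b * x * b⁻¹ ∈ B₁) ∧ ∀ M : Subgroup H, A ≤ M →
        (∀ b ∈ B.comap π, ∀ x ∈ M, b * x * b⁻¹ ∈ M) → B₁ ≤ M := by
    refine ⟨sInf {M | A ≤ M ∧ ∀ b ∈ B.comap π, ∀ x ∈ M, b * x * b⁻¹ ∈ M},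
      le_sInf fun M hM => hM.1, sInf_le ⟨hA, fun b hb x hx => ?_⟩, fun b hb x hx => ?_,
      fun M a1 a2 => sInf_le ⟨a1, a2⟩⟩
    · exact Subgroup.mul_mem _ (Subgroup.mul_mem _ hb hx) (Subgroup.inv_mem _ hb)
    · exact Subgroup.mem_sInf.2 fun M hM => hM.2 b hb x (Subgroup.mem_sInf.1 hx M hM)
  have e : B₁.map π = B := by
    refine h.2 _ (Subgroup.map_mono h1) (Subgroup.map_le_iff_le_comap.2 h2) ?_
    rintro b hb _ ⟨x, hx, rfl⟩
    obtain ⟨b₀, rfl⟩ := hs b
    exact ⟨_, h3 b₀ hb x hx, by rw [map_mul, map_mul, map_inv]⟩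
  refine ⟨B₁, e, h1, fun M a1 a2 a3 => le_antisymm a2 (h4 M a1 fun b hb x hx => ?_)⟩
  have hb' : π b ∈ B₁.map π := by
    rw [e]
    exact hb
  obtain ⟨b₁, c1, c2⟩ := hb'
  have hz : b₁⁻¹ * b ∈ Subgroup.center H := hk (by
    rw [MonoidHom.mem_ker, map_mul, map_inv, c2, inv_mul_cancel])
  have c3 := Subgroup.mem_center_iff.1 hz x
  have c4 : b * x * b⁻¹ = b₁ * x * b₁⁻¹ := by
    calc b * x * b⁻¹ = b₁ * (b₁⁻¹ * b * x) * b⁻¹ := by group
      _ = b₁ * (x * (b₁⁻¹ * b)) * b⁻¹ := by rw [c3]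
      _ = b₁ * x * b₁⁻¹ := by group
  rw [c4]
  exact a3 b₁ c1 x hx

theorem g2_dc (f : H →* G) (B : Subgroup H) (x : H) : dc (B.map f) (f x) = f '' dc B x := by
  ext y
  constructor
  · rintro ⟨_, ⟨b, hb, rfl⟩, _, ⟨b', hb', rfl⟩, rfl⟩
    exact ⟨b * x * b', ⟨b, hb, b', hb', rfl⟩, by rw [map_mul, map_mul]⟩
  · rintro ⟨_, ⟨b, hb, b', hb', rfl⟩, rfl⟩
    exact ⟨_, ⟨b, hb, rfl⟩, _, ⟨b', hb', rfl⟩, by rw [map_mul, map_mul]⟩

theorem g2_gen_inj (f : H →* G) (hf : Function.Injective f) {n E : ℕ} {B B' : Subgroup H}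
    (h : Gen n E (B.map f) (B'.map f)) : Gen n E B B' := by
  obtain ⟨a, ha, h⟩ := h
  choose a' h1 h2 using ha
  refine ⟨a', h1, fun i j hij => ?_⟩
  have := h i j hij
  rwa [← h2 i, ← h2 j, ← map_inv, ← map_mul, g2_dc, Set.ncard_image_of_injective _ hf,
    ← Subgroup.map_sup, Subgroup.card_map_of_injective hf] at this

theorem g2_fib [Finite H] (f : H →* G) (J : Subgroup H) (S : Set H) (hS : S ⊆ J) :
    S.ncard ≤ (f '' S).ncard * Nat.card (f.domRestrict J).ker := by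
  have hc : ∀ y : f '' S, ∃ x ∈ S, f x = y := fun y => y.2
  choose σ h1 h2 using hc
  have : Finite (f '' S) := (S.toFinite.image f).to_subtype
  rw [← Nat.card_coe_set_eq, ← Nat.card_coe_set_eq, ← Nat.card_prod]
  refine Nat.card_le_card_of_injective (fun s : S =>
    ((⟨f s, s, s.2, rfl⟩, ⟨⟨(σ ⟨f s, s, s.2, rfl⟩)⁻¹ * s,
      J.mul_mem (J.inv_mem (hS (h1 _))) (hS s.2)⟩, ?_⟩) : (f '' S) × (f.domRestrict J).ker)) ?_
  · rw [MonoidHom.mem_ker, MonoidHom.domRestrict_apply, map_mul, map_inv, h2, inv_mul_cancel]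
  · intro s t e
    have e1 := congrArg Prod.fst e
    have e2 := congrArg (fun z : (f '' S) × (f.domRestrict J).ker => (z.2.1.1 : H)) e
    simp only at e1 e2
    rw [e1] at e2
    exact Subtype.ext (mul_left_cancel e2)

theorem g2_gen_map [Finite H] (f : H →* G) {n E : ℕ} {B B' : Subgroup H} (h : Gen n E B B') :
    Gen n E (B.map f) (B'.map f) := by
  obtain ⟨a, ha, h⟩ := h
  refine ⟨fun i => f (a i), fun i => Subgroup.mem_map_of_mem f (ha i), fun i j hij => ?_⟩
  have h1 := h i j hij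
  have h2 := g2_fib f (B ⊔ B') (dc B' ((a i)⁻¹ * a j)) (by
    rintro _ ⟨b, hb, b', hb', rfl⟩
    exact Subgroup.mul_mem _ (Subgroup.mul_mem _ (Subgroup.mem_sup_right hb)
      (Subgroup.mem_sup_left (B.mul_mem (B.inv_mem (ha i)) (ha j)))) (Subgroup.mem_sup_right hb'))
  have h3 := (f.domRestrict (B ⊔ B')).ker.index_mul_card
  rw [Subgroup.index_ker, MonoidHom.domRestrict_range, Subgroup.map_sup] at h3
  rw [← map_inv, ← map_mul, g2_dc]
  refine Nat.le_of_mul_le_mul_right ?_ (Nat.card_pos (α := (f.domRestrict (B ⊔ B')).ker))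
  rw [h3, mul_assoc]
  exact h1.trans (Nat.mul_le_mul_left _ h2)

end Aux

theorem g2 (hB : StmtPB) (hE : StmtPE) (hQR : StmtQRc) (hU : StmtBlkU) (hBar : StmtBar) : StmtG2 := by
  intro n
  obtain ⟨c, hc⟩ : ∃ c, c = 1024 + n * (2 * n + 3) := ⟨_, rfl⟩
  refine ⟨4 * (c + n) + 11 * n + 100, fun K V Q _ _ _ _ _ _ p π hπ hk => ?_⟩
  have hq : 2 ≤ Nat.card K := Finite.one_lt_card
  have : Finite V := Module.finite_of_finite K
  have : Finite (V ≃ₗ[K] V) := Finite.of_injective (fun e => (e : V → V)) DFunLike.coe_injective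
  obtain ⟨hDO, hAD, -⟩ := hBar K V Q p π hπ (by omega)
  refine ⟨Nat.card K ^ c, Nat.card K ^ (c + n), ?_, ?_⟩
  · rw [pow_add, mul_comm]
    exact Nat.mul_le_mul_left _ (Nat.lt_two_pow_self.le.trans (Nat.pow_le_pow_left hq n))
  rintro _ ⟨U, hUn, hUr, rfl⟩
  have hA : p.A U ≤ p.D := ((hE K V p).2.2.2.2.2.2.2.2.1 U ⊤ le_top).trans hAD
  have hr := ((hB K V p).2.2.2.2.2.1 U hUn).2.2.2.2.1
  refine ⟨g2_qr ((π.subgroupMap _).comp (Subgroup.subgroupOfEquivOfLe hA).symm.toMonoidHom)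
    ((π.subgroupMap_surjective _).comp (Subgroup.subgroupOfEquivOfLe hA).symm.surjective)
    (hQR K V p U (2 * (c + n)) _ hUn (by omega) (by rw [← pow_mul, mul_comm])),
    fun B B' h1 h2 => ?_⟩
  obtain ⟨B₁, rfl, a1⟩ := g2_lift π hπ.surj hπ.ker h1
  obtain ⟨B₂, rfl, a2⟩ := g2_lift π hπ.surj hπ.ker h2
  have b1 := g2_ncl_map p.D.subtype a1
  have b2 := g2_ncl_map p.D.subtype a2
  rw [Subgroup.map_subgroupOf_eq_of_le hA] at b1 b2
  refine g2_gen_map π (g2_gen_inj p.D.subtype p.D.subtype_injective ?_)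
  rw [hc]
  exact hU K V p U n hUn hUr (by omega) _ _ ((Subgroup.map_subtype_le _).trans hDO)
    ((Subgroup.map_subtype_le _).trans hDO) b1 b2

end Pool.Agent.Work.MP_11a08a_al.Lin
end

-- merged part: Pool.Agent.Work.MP_11a08a_al.Lin.G3
section
/-!
`k = n + 40`.  `E = Multiplicative V`; `h : MulAut E` corresponds to `h' : V ≃+ V` (`MulEquiv.toAdditive`, `AddEquiv.toMultiplicative`).  `T` = the pairs `(h, α)` with `SemiSim h'` and `∀ x y : D, x ∈ A ⊤ → (∀ v, y (h' v) = h' (x v)) → α (π x) = π y`.  Products: conjugate `x` by the right factor inside `A ⊤` (last item of `hS` with `⊤, ⊤`).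
Inverses: if `y h'⁻¹ = h'⁻¹ x` then `y ∈ A ⊤` by `hS` for `h'.symm`, and `x h' = h' y`.  If `(h, 1) ∈ T`, the last item of `hBar` with `U = ⊤` makes `h'` a scalar map; at most `q ^ 2` by `hC`.  If `(1, α) ∈ T` then `α` fixes `bar π ⊤ = ⊤`.  `F` is `U` as a subgroup, of index `q ^ codim`.
If `α` with `h'` fixes `bar π U` pointwise, `hBar` gives `z` with `h' = z` on `U`, `(z, 1) ∈ T` because `z` commutes with `O`, and `(z⁻¹ h, α) ∈ T` fixes `F`.
-/

set_option autoImplicit false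

open Module
open scoped commutatorElement

namespace Pool.Agent.Work.MP_11a08a_al.Lin

open Polar

section

variable {K V Q : Type} [Field K] [AddCommGroup V] [Module K V] [Group Q]

/-- The additive automorphism attached to an automorphism of the multiplicative copy. -/
def g3_add (h : MulAut (Multiplicative V)) : V ≃+ V := AddEquiv.toMultiplicative.symm h

/-- The similitude `h` induces `α`. -/
def g3_rel (p : Polar K V) (π : p.D →* Q) (h : V ≃+ V) (α : MulAut Q) : Prop :=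
  p.SemiSim h ∧ ∀ x y : p.D, x.1 ∈ p.A ⊤ → (∀ v, y.1 (h v) = h (x.1 v)) → α (π x) = π y

/-- The group of pairs. -/
def g3_T [FiniteDimensional K V] [Nontrivial V] (hS : StmtSS) (p : Polar K V) (π : p.D →* Q)
    (hA : p.A ⊤ ≤ p.D) : Subgroup (MulAut (Multiplicative V) × MulAut Q) where
  carrier := {z | g3_rel p π (g3_add z.1) z.2}
  one_mem' := ⟨(hS K V p).1 1 p.O.one_mem, fun x y _ h => by
    have : y = x := Subtype.ext (LinearEquiv.ext h)
    rw [this]; rfl⟩
  mul_mem' := by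
    rintro ⟨h1, α1⟩ ⟨h2, α2⟩ ⟨a1, a2⟩ ⟨b1, b2⟩
    refine ⟨(hS K V p).2.1 _ _ b1 a1, fun x y hx h => ?_⟩
    obtain ⟨e, he, he'⟩ :=
      (((hS K V p).2.2 _ b1).2.2.2.2 ⊤ ⊤ fun _ => Iff.rfl).2.2.2 x.1 hx
    have e1 := b2 x ⟨e, hA he⟩ hx he'
    have e2 := a2 ⟨e, hA he⟩ y he fun w => by
      obtain ⟨v, rfl⟩ := (g3_add h2).surjective w
      exact (h v).trans (congrArg (g3_add h1) (he' v).symm)
    exact (congrArg α1 e1).trans e2
  inv_mem' := by
    rintro ⟨h, α⟩ ⟨a1, a2⟩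
    have b1 := ((hS K V p).2.2 _ a1).1
    refine ⟨b1, fun x y hx hxy => ?_⟩
    obtain ⟨e, he, he'⟩ :=
      (((hS K V p).2.2 _ b1).2.2.2.2 ⊤ ⊤ fun _ => Iff.rfl).2.2.2 x.1 hx
    have hxy' : ∀ v, y.1 ((g3_add h).symm v) = (g3_add h).symm (x.1 v) := hxy
    have e1 : y.1 = e := LinearEquiv.ext fun w => by
      obtain ⟨v, rfl⟩ := (g3_add h).symm.surjective w
      exact (hxy' v).trans (he' v).symm
    have e2 := a2 y x (e1 ▸ he) fun v => by
      have h1 := hxy' (g3_add h v)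
      rw [AddEquiv.symm_apply_apply] at h1
      exact ((AddEquiv.eq_symm_apply _).1 h1).symm
    exact α.symm_apply_eq.2 e2.symm

end

theorem g3 (hB : StmtPB) (hE : StmtPE) (hS : StmtSS) (hC : StmtSC) (hBar : StmtBar) : StmtG3 := by
  have _ := hE
  intro n
  refine ⟨n + 40, fun K V Q _ _ _ _ _ _ p π hπ hk => ?_⟩
  have : Finite V := Module.finite_of_finite K
  have : Finite (V ≃ₗ[K] V) := Finite.of_injective _ DFunLike.coe_injective
  have : Nontrivial V := Module.nontrivial_of_finrank_pos (R := K)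
    (lt_of_lt_of_le (by omega : 0 < p.rk ⊤) (Submodule.finrank_le _))
  obtain ⟨hDO, hA, htop, -, -, hU⟩ := hBar K V Q p π hπ (by omega)
  obtain ⟨-, -, -, -, b5, b6, -⟩ := hB K V p
  refine ⟨Multiplicative V, inferInstance, inferInstance, g3_T hS p π hA, ?_, ?_, ?_, ?_⟩
  · rintro α ⟨h, h1, h2⟩
    exact ⟨AddEquiv.toMultiplicative h, h1, fun x y _ => h2 x y⟩
  · refine le_trans ?_ (hC K V p).1
    refine le_trans (Set.ncard_le_ncard ?_ (Set.toFinite _)) (Set.ncard_image_le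
      (f := fun z : V ≃ₗ[K] V => (AddEquiv.toMultiplicative z.toAddEquiv : MulAut _))
      (Set.toFinite _))
    rintro h ⟨h1, h2⟩
    obtain ⟨ζ, z, z1, -, -, z2⟩ := (hU ⊤ b5 (by omega)).2.2.2 _ h1 1 h2 fun _ _ => rfl
    exact ⟨z, ⟨ζ, z1⟩, MulEquiv.ext fun v => (z2 v.toAdd trivial).symm⟩
  · rintro α ⟨-, h2⟩
    refine MulEquiv.ext fun y => ?_
    have hy : y ∈ bar π ⊤ := by rw [htop]; trivial
    obtain ⟨x, hx, rfl⟩ := hy
    exact h2 x x hx fun _ => rfl
  · rintro s hs N ⟨U, u1, u2, rfl⟩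
    have u3 := (b6 U u1).2.2.2.2.1
    refine ⟨AddSubgroup.toSubgroup U.toAddSubgroup, ?_, ?_⟩
    · rw [AddSubgroup.index_toSubgroup]
      have e1 : U.toAddSubgroup.index = Nat.card (V ⧸ U) := rfl
      have e2 := U.finrank_quotient_add_finrank
      rw [e1, Module.natCard_eq_pow_finrank (K := K)]
      exact Nat.pow_le_pow_right Nat.card_pos (by omega)
    · rintro α ⟨h, h1, h2⟩ hα
      obtain ⟨ζ, z, -, z1, z2, z3⟩ := (hU U u1 (by omega)).2.2.2 h h1 α (fun x y _ => h2 x y) hα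
      have m1 : (AddEquiv.toMultiplicative z.toAddEquiv, (1 : MulAut Q)) ∈ g3_T hS p π hA := by
        refine ⟨z1, fun x y _ hxy => ?_⟩
        have e1 : y.1 * z = z * x.1 := LinearEquiv.ext hxy
        rw [z2 _ (hDO x.2)] at e1
        rw [Subtype.ext (mul_right_cancel e1)]
        rfl
      have m2 : (AddEquiv.toMultiplicative h, α) ∈ g3_T hS p π hA := ⟨h1, fun x y _ => h2 x y⟩
      have m3 := (g3_T hS p π hA).mul_mem ((g3_T hS p π hA).inv_mem m1) m2
      rw [Prod.inv_mk, Prod.mk_mul_mk, inv_one, one_mul] at m3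
      exact ⟨_, m3, fun e he => z.symm_apply_eq.2 (z3 e.toAdd he)⟩

end Pool.Agent.Work.MP_11a08a_al.Lin
end

-- merged part: Pool.Agent.Work.MP_11a08a_al.Lin.QRm
section
/-!
`M` = the elements of `N` with `f x ∈ Zs` (kernel of the homomorphism to the quotient by the central subgroup `Zs`), mapped into `Q`; it is normal in `N`.  If `X i ≤ M` for some `i` then `M = N`.  Otherwise: for `i ≠ j`, `x ∈ X i`, `y ∈ X j` the commutator of `f x` and `f y` is a scalar `ω x y`, multiplicative in `x`, so trivial on the perfect group `X i`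
(the `x ∈ X i` with `f x` commuting with `f y` form a subgroup containing all commutators).  `C k` = the submodule of `End ℂ W` of maps commuting with `f x` for all `x ∈ X i`, `i < k`.  `C (k + 1) < C k` for `k < r`: the `f x`, `x ∈ X k`, lie in `C k`; if they were in `C (k + 1)` they would commute with each other, so `f ⁅x, y⁆ ∈ Zs` and `X k = ⁅X k, X k⁆ ≤ M`.
Hence `r ≤ dim (End ℂ W) = (dim W) ^ 2 < D ^ 2`.
-/

set_option autoImplicit false

open Module
open scoped commutatorElement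

namespace Pool.Agent.Work.MP_11a08a_al.Lin

open Sol Subgroup

theorem qrm_lift {H H' : Type} [Group H] [Group H'] {π : H →* H'} (hs : Function.Surjective π)
    (hk : π.ker ≤ center H) {P P' : Subgroup H'} (h : ⁅P, P'⁆ = ⊥) :
    ⁅⁅P.comap π, P.comap π⁆, P'.comap π⁆ = ⊥ := by
  have h1 : ⁅P.comap π, P'.comap π⁆ ≤ center H := le_trans (by
    rw [← Subgroup.map_eq_bot_iff, map_commutator, map_comap_eq_self_of_surjective hs,
      map_comap_eq_self_of_surjective hs, h]) hk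
  have h2 : ⁅⁅P.comap π, P'.comap π⁆, P.comap π⁆ = ⊥ :=
    commutator_eq_bot_iff_le_centralizer.2 (h1.trans (center_le_centralizer _))
  exact commutator_commutator_eq_bot_of_rotate h2 (by rwa [commutator_comm (P'.comap π)])

theorem qrm_dim {F A : Type} [Field F] [Ring A] [Algebra F A] [FiniteDimensional F A] {r : ℕ}
    (x y : Fin r → A) (h1 : ∀ i j, i ≠ j → x i * y j = y j * x i)
    (h2 : ∀ i, x i * y i ≠ y i * x i) : r ≤ finrank F A := by
  have h : LinearIndependent F x := Fintype.linearIndependent_iff.2 fun g hg j => by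
    have k : ∑ i, g i • (x i * y j - y j * x i) = 0 := by
      simpa [Finset.sum_mul, Finset.mul_sum, smul_sub] using
        congrArg (fun a => a * y j - y j * a) hg
    rw [Finset.sum_eq_single j (fun i _ k => by rw [h1 i j k, sub_self, smul_zero])
      (by simp)] at k
    exact (smul_eq_zero.1 k).resolve_right (sub_ne_zero.2 (h2 j))
  simpa using h.fintype_card_le_finrank

theorem qrm : StmtQRm := by
  intro Q _ N r D X hD hX hc W _ _ _ hW f hf
  have hZ : Zs ℂ W ≤ center _ := fun z ⟨c, _, h⟩ => mem_center_iff.2 fun g =>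
    Units.ext (by simp [h])
  have : (Zs ℂ W).Normal := ⟨fun z hz g => by rwa [mem_center_iff.1 (hZ hz), mul_inv_cancel_right]⟩
  obtain ⟨φ, hφ⟩ : ∃ φ : N →* (End ℂ W)ˣ ⧸ Zs ℂ W, ∀ x, φ x = f x :=
    ⟨MonoidHom.mk' (fun x => f x) fun x y => by
      rw [← QuotientGroup.mk_mul, QuotientGroup.eq_iff_div_mem, div_eq_mul_inv]
      exact hf x y, fun _ => rfl⟩
  obtain ⟨P, hP⟩ : ∃ P : Fin r → Subgroup ((End ℂ W)ˣ ⧸ Zs ℂ W),
    ∀ i, P i = ((X i).subgroupOf N).map φ := ⟨_, fun _ => rfl⟩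
  have p1 : ∀ i, ⁅P i, P i⁆ = P i := fun i => by
    rw [hP, ← map_commutator]
    refine congrArg _ (map_injective N.subtype_injective ?_)
    rw [map_commutator, map_subgroupOf_eq_of_le (hX i).2.1, (hX i).1]
  have p2 : ∀ i j, i ≠ j → ⁅P i, P j⁆ = ⊥ := fun i j k => by
    rw [hP, hP, ← map_commutator, commutator_eq_bot_iff_le_centralizer.2 fun x hx y hy =>
      Subtype.ext (hc i j k _ hx _ hy).symm, Subgroup.map_bot]
  by_cases h0 : ∃ i, P i = ⊥
  · obtain ⟨i, hi⟩ := h0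
    rw [hP, Subgroup.map_eq_bot_iff] at hi
    have h1 := (hX i).2.2 (φ.ker.map N.subtype)
      (fun x hx => ⟨⟨x, (hX i).2.1 hx⟩, hi hx, rfl⟩) (map_subtype_le _) (by
        rintro b hb _ ⟨x, hx, rfl⟩
        exact ⟨_, φ.normal_ker.conj_mem x hx ⟨b, hb⟩, rfl⟩)
    intro x
    obtain ⟨y, hy, k⟩ := h1.ge x.2
    rw [← QuotientGroup.eq_one_iff, ← hφ, ← Subtype.ext k]
    exact hy
  · have hs := QuotientGroup.mk'_surjective (Zs ℂ W)
    obtain ⟨L, hL⟩ : ∃ L : Fin r → Subgroup (End ℂ W)ˣ, ∀ i, L i =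
      ⁅(P i).comap (QuotientGroup.mk' _), (P i).comap (QuotientGroup.mk' _)⁆ := ⟨_, fun _ => rfl⟩
    have l1 : ∀ i, ∃ x ∈ L i, ∃ y ∈ L i, x * y ≠ y * x := fun i => by
      by_contra! k
      have k1 : (L i).map (QuotientGroup.mk' _) = P i := by
        rw [hL, map_commutator, map_comap_eq_self_of_surjective hs, p1]
      refine h0 ⟨i, ?_⟩
      rw [← p1, ← k1, ← map_commutator, commutator_eq_bot_iff_le_centralizer.2
        fun x hx y hy => k y hy x hx, Subgroup.map_bot]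
    choose x hx y hy l2 using l1
    have l3 := qrm_dim (F := ℂ) (fun i => (x i : End ℂ W)) (fun i => (y i : End ℂ W))
      (fun i j k => congrArg Units.val (commutator_eq_bot_iff_le_centralizer.1
        (qrm_lift hs ((QuotientGroup.ker_mk' _).trans_le hZ) (p2 i j k)) (hL i ▸ hx i) _
          (commutator_le_self _ (hL j ▸ hy j))).symm) fun i k => l2 i (Units.ext k)
    rw [finrank_linearMap] at l3
    have := Nat.mul_self_lt_mul_self hW
    rw [sq] at hD
    omega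

end Pool.Agent.Work.MP_11a08a_al.Lin
end

-- merged part: Pool.Agent.Work.MP_11a08a_al.Lin.AF
section
/-!
Let `α = {i // i ∉ S}`, `Nat.card α = m - card S ≥ 5`.  `Equiv.Perm.ofSubtype` gives an isomorphism from `alternatingGroup α` onto `aFix S` (`sign_ofSubtype`, inverse by `subtypePerm`; `Equiv.Perm.subtypeEquivSubtypePerm`).  Transport `alternatingGroup.isSimpleGroup`, `closure_three_cycles_eq_alternating` (three-cycles go to three-cycles: `cycleType_ofSubtype`), perfectness (simple and not commutative, or `alternatingGroup.commutator..`).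
(4) for `i ∉ S` and distinct `j, k ∉ S ∪ {i}` the three-cycle `swap i j * swap i k` lies in `aFix S`; if `t` commutes with it then `t` preserves its support `{i, j, k}`; with two such cycles `{i, j, k}`, `{i, j', k'}` we get `t i = i`.
(5) there is a permutation of `α` mapping `v` to `v'` (`Equiv.Perm.exists_extending_pair` or `Equiv.extendSubtype`); if it is odd, multiply by a swap of two points outside the range of `v'` (there are at least two).
-/

set_option autoImplicit false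

open Module
open scoped commutatorElement

namespace Pool.Agent.Work.MP_11a08a_al.Lin

theorem af_range {m : ℕ} (S : Finset (Fin m)) :
    aFix S = (alternatingGroup.ofSubtype Sᶜ).range := by
  ext x
  rw [alternatingGroup.mem_range_ofSubtype_iff]
  refine ⟨fun h i hi => Finset.mem_compl.2 fun hS => Equiv.Perm.mem_support.1 hi (h i hS),
    fun h i hS => ?_⟩
  by_contra hc
  exact Finset.mem_compl.1 (h (Equiv.Perm.mem_support.2 hc)) hS

theorem af_inj {m j : ℕ} (S : Finset (Fin m)) {v : Fin j → Fin m} (hv : Function.Injective v)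
    (hS : ∀ i, v i ∉ S) : Function.Injective (Sum.elim (fun x : S => (x : Fin m)) v) :=
  Function.Injective.sumElim Subtype.val_injective hv fun a b e => hS b (e ▸ a.2)

theorem af_trans {m : ℕ} (S : Finset (Fin m)) (j : ℕ) (v v' : Fin j → Fin m)
    (h : S.card + j + 2 ≤ m) (hv : Function.Injective v) (hv' : Function.Injective v')
    (hS : ∀ i, v i ∉ S) (hS' : ∀ i, v' i ∉ S) : ∃ x ∈ aFix S, ∀ i, x.1 (v i) = v' i := by
  obtain ⟨σ, hσ⟩ := Equiv.Perm.exists_extending_pair _ _ (af_inj S hv hS) (af_inj S hv' hS')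
  have h1 : ∀ i ∈ S, σ i = i := fun i hi => hσ (Sum.inl ⟨i, hi⟩)
  have h2 : ∀ i, σ (v i) = v' i := fun i => hσ (Sum.inr i)
  rcases Int.units_eq_one_or (Equiv.Perm.sign σ) with h3 | h3
  · exact ⟨⟨σ, Equiv.Perm.mem_alternatingGroup.2 h3⟩, h1, h2⟩
  · have h4 : 1 < (S ∪ Finset.univ.image v')ᶜ.card := by
      have h5 := Finset.card_union_le S (Finset.univ.image v')
      have h6 : (Finset.univ.image v').card ≤ j :=
        Finset.card_image_le.trans (by rw [Finset.card_univ, Fintype.card_fin])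
      rw [Finset.card_compl, Fintype.card_fin]
      omega
    obtain ⟨a, ha, b, hb, hab⟩ := Finset.one_lt_card.1 h4
    simp only [Finset.mem_compl, Finset.mem_union, Finset.mem_image, Finset.mem_univ, true_and,
      not_or, not_exists] at ha hb
    refine ⟨⟨Equiv.swap a b * σ, Equiv.Perm.mem_alternatingGroup.2 ?_⟩, fun i hi => ?_,
      fun i => ?_⟩
    · rw [map_mul, Equiv.Perm.sign_swap hab, h3]
      simp
    · change Equiv.swap a b (σ i) = i
      rw [h1 i hi]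
      exact Equiv.swap_apply_of_ne_of_ne (fun e => ha.1 (e ▸ hi)) fun e => hb.1 (e ▸ hi)
    · change Equiv.swap a b (σ (v i)) = v' i
      rw [h2 i]
      exact Equiv.swap_apply_of_ne_of_ne (ha.2 i) (hb.2 i)

theorem af_cent {m : ℕ} (S : Finset (Fin m)) (h : S.card + 5 ≤ m) (t : Equiv.Perm (Fin m))
    (ht : ∀ x ∈ aFix S, t * x.1 = x.1 * t) (i : Fin m) (hi : i ∉ S) : t i = i := by
  by_contra hc
  have h1 : 0 < (insert i (insert (t i) S))ᶜ.card := by
    have h2 := Finset.card_insert_le i (insert (t i) S)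
    have h3 := Finset.card_insert_le (t i) S
    rw [Finset.card_compl, Fintype.card_fin]
    omega
  obtain ⟨b, hb⟩ := Finset.card_pos.1 h1
  simp only [Finset.mem_compl, Finset.mem_insert, not_or] at hb
  by_cases hS : t i ∈ S
  · obtain ⟨x, hx, e⟩ := af_trans S 1 (fun _ => i) (fun _ => b) (by omega)
      (Function.injective_of_subsingleton _) (Function.injective_of_subsingleton _)
      (fun _ => hi) fun _ => hb.2.2
    have h2 : t (x.1 i) = x.1 (t i) := DFunLike.congr_fun (ht x hx) i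
    rw [e 0, hx _ hS] at h2
    exact hb.1 (t.injective h2)
  · have h3 : (insert i S).card + 1 + 2 ≤ m := by
      have := Finset.card_insert_le i S
      omega
    obtain ⟨x, hx, e⟩ := af_trans (insert i S) 1 (fun _ => t i) (fun _ => b) h3
      (Function.injective_of_subsingleton _) (Function.injective_of_subsingleton _)
      (fun _ => by simp [hc, hS]) fun _ => by simp [hb.1, hb.2.2]
    have h2 : t (x.1 i) = x.1 (t i) :=
      DFunLike.congr_fun (ht x fun k hk => hx k (Finset.mem_insert_of_mem hk)) i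
    rw [e 0, hx i (Finset.mem_insert_self i S)] at h2
    exact hb.2.1 h2.symm

theorem af : StmtAF := by
  intro m S h
  have h5 : 5 ≤ Nat.card ↥(Sᶜ) := by
    rw [Nat.card_eq_fintype_card, Fintype.card_coe, Finset.card_compl, Fintype.card_fin]
    omega
  have hs := alternatingGroup.isSimpleGroup h5
  refine ⟨⟨?_, ?_⟩, ?_, fun M hM hn => ?_, af_cent S h, af_trans S⟩
  · rw [af_range, MonoidHom.range_eq_map, ← Subgroup.map_commutator, ← commutator_def,
      commutator_alternatingGroup_eq_top h5]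
  · rw [af_range, MonoidHom.range_eq_map, Ne,
      Subgroup.map_eq_bot_iff_of_injective _ alternatingGroup.ofSubtype_injective]
    exact top_ne_bot
  · refine (af_range S).le.trans ?_
    rw [MonoidHom.range_eq_map, ← alternatingGroup.closure_isThreeCycles_eq_top,
      MonoidHom.map_closure]
    refine Subgroup.closure_mono ?_
    rintro _ ⟨y, hy, rfl⟩
    refine ⟨Equiv.Perm.cycleType_ofSubtype.trans hy, ?_⟩
    rw [af_range]
    exact ⟨y, rfl⟩
  · rw [af_range] at hM hn ⊢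
    have hN : (M.comap (alternatingGroup.ofSubtype Sᶜ)).Normal := ⟨fun x hx a => by
      rw [Subgroup.mem_comap, map_mul, map_mul, map_inv]
      exact hn _ ⟨a, rfl⟩ _ hx⟩
    rw [← Subgroup.map_comap_eq_self hM]
    rcases hN.eq_bot_or_eq_top with e | e
    · exact Or.inl (by rw [e, Subgroup.map_bot])
    · exact Or.inr (by rw [e, MonoidHom.range_eq_map])

end Pool.Agent.Work.MP_11a08a_al.Lin
end

-- merged part: Pool.Agent.Work.MP_11a08a_al.Lin.A1
section
/-!
`k = 4 n + 20`.  `inter`: `S ∪ S'`.  `gen`, `perf`, `qs`: `hF`.  `idx`: `x ↦ (x i)` for `i ∈ S` is injective on left cosets of `aFix S`, values in `S → Fin m`.  `big`: `2 * card = m !` (`two_mul_nat_card_alternatingGroup`), `m ! ≥ m.descFactorial (2 n + 2) ≥ (m - 2 n - 1) ^ (2 n + 2) ≥ m ^ (n + 1)` (`Nat.pow_sub_le_descFactorial`).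
`loc`: `S` = the support, disjoint permutations commute.  An `α ∈ altAut` is `MulAut.conjNormal t`; it maps three-cycles to three-cycles and `aFix S` to `aFix (S.image t)`.
`GAct`: `E = Multiplicative (Fin m → ZMod 2)`, `T` = the range of the homomorphism `t ↦ (h t, conjNormal t)` from `Perm (Fin m)`, `h t φ = φ ∘ t⁻¹` (`arrowAction`, `MulDistribMulAction.toMulAut`, or by hand).  If `conjNormal t = 1` then `t = 1` by item 4 of `hF` with `S = ∅`; `h` is injective (`Pi.single`).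
`F` = the functions vanishing on `S`, the kernel of the restriction to `S`, of index at most `2 ^ card S`; if `t` commutes with `aFix S` it fixes the complement of `S` pointwise and preserves `S`, so `h t` fixes `F`.
-/

set_option autoImplicit false

open Module
open scoped commutatorElement

namespace Pool.Agent.Work.MP_11a08a_al.Lin

section

variable {m : ℕ}

theorem a1_mem {S : Finset (Fin m)} {x : alternatingGroup (Fin m)} :
    x ∈ aFix S ↔ ∀ i ∈ S, x.1 i = i := Iff.rfl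

theorem a1_alt {α : MulAut (alternatingGroup (Fin m))}
    (h : α ∈ altAut (MulEquiv.refl (alternatingGroup (Fin m)))) :
    ∃ t : Equiv.Perm (Fin m), α = MulAut.conjNormal t := by
  obtain ⟨t, ht⟩ := h
  refine ⟨t, MulEquiv.ext fun x => ?_⟩
  exact ht x (MulAut.conjNormal t x) (MulAut.conjNormal_apply t x)

theorem a1_idx (S : Finset (Fin m)) : (aFix S).index ≤ m ^ S.card := by
  rw [Subgroup.index_eq_card]
  let f : (alternatingGroup (Fin m) ⧸ aFix S) → (S → Fin m) := fun q i => q.out.1 i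
  have hf : Function.Injective f := by
    intro q q' h
    rw [← q.out_eq, ← q'.out_eq]
    refine QuotientGroup.eq.2 fun i hi => ?_
    have := congrFun h ⟨i, hi⟩
    show (q.out.1)⁻¹ (q'.out.1 i) = i
    rw [Equiv.Perm.inv_eq_iff_eq]
    exact this.symm
  have := Nat.card_le_card_of_injective f hf
  simpa using this

theorem a1_big {n : ℕ} (h : 4 * n + 20 ≤ m) : m ^ n ≤ Nat.card (alternatingGroup (Fin m)) := by
  have : Nontrivial (Fin m) := Fin.nontrivial_iff_two_le.2 (by omega)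
  have h1 := two_mul_nat_card_alternatingGroup (α := Fin m)
  rw [Nat.card_perm, Nat.card_fin] at h1
  have h2 := Nat.factorial_mul_descFactorial (n := m) (k := 2 * n + 2) (by omega)
  have h3 := Nat.pow_sub_le_descFactorial m (2 * n + 2)
  have h4 : m.descFactorial (2 * n + 2) ≤ m.factorial := by
    rw [← h2]
    exact Nat.le_mul_of_pos_left _ (Nat.factorial_pos _)
  obtain ⟨a, ha⟩ : ∃ a, m + 1 - (2 * n + 2) = a := ⟨_, rfl⟩
  rw [ha] at h3
  have h5 : m ≤ a ^ 2 := by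
    have h6 : m ≤ 2 * a := by omega
    have h7 : 2 ≤ a := by omega
    calc m ≤ 2 * a := h6
      _ ≤ a * a := Nat.mul_le_mul_right a h7
      _ = a ^ 2 := (sq a).symm
  have h8 : m ^ (n + 1) ≤ a ^ (2 * n + 2) := by
    rw [show 2 * n + 2 = 2 * (n + 1) by ring, pow_mul]
    exact Nat.pow_le_pow_left h5 _
  have h9 : 2 * m ^ n ≤ m ^ (n + 1) := by
    rw [pow_succ, mul_comm]
    exact Nat.mul_le_mul_left _ (by omega)
  omega

theorem a1_map (t : Equiv.Perm (Fin m)) (S : Finset (Fin m)) :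
    (aFix S).map (MulAut.conjNormal t : MulAut (alternatingGroup (Fin m))).toMonoidHom =
      aFix (S.image t) := by
  ext x
  obtain ⟨y, rfl⟩ := (MulAut.conjNormal t : MulAut (alternatingGroup (Fin m))).surjective x
  have e : ∀ i, (MulAut.conjNormal t y).1 (t i) = t (y.1 i) := by
    intro i
    rw [MulAut.conjNormal_apply]
    simp
  constructor
  · rintro ⟨z, hz, hzy⟩ j hj
    obtain rfl : z = y :=
      (MulAut.conjNormal t : MulAut (alternatingGroup (Fin m))).injective hzy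
    obtain ⟨i, hi, rfl⟩ := Finset.mem_image.1 hj
    rw [e, hz i hi]
  · intro h
    refine ⟨y, fun i hi => ?_, rfl⟩
    have := h (t i) (Finset.mem_image_of_mem _ hi)
    rw [e] at this
    exact t.injective this

/-- The permutation action on functions with values in the field with two elements. -/
def a1_h : Equiv.Perm (Fin m) →* MulAut (Multiplicative (Fin m → ZMod 2)) where
  toFun t :=
    { toFun := fun φ => Multiplicative.ofAdd fun i => φ.toAdd (t⁻¹ i)
      invFun := fun φ => Multiplicative.ofAdd fun i => φ.toAdd (t i)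
      left_inv := fun φ => by
        apply Multiplicative.toAdd.injective
        funext i
        simp
      right_inv := fun φ => by
        apply Multiplicative.toAdd.injective
        funext i
        simp
      map_mul' := fun _ _ => rfl }
  map_one' := rfl
  map_mul' _ _ := rfl

theorem a1_h_apply (t : Equiv.Perm (Fin m)) (φ : Multiplicative (Fin m → ZMod 2)) (i : Fin m) :
    (a1_h t φ).toAdd i = φ.toAdd (t⁻¹ i) := rfl

theorem a1_h_one {t : Equiv.Perm (Fin m)} (h : a1_h t = 1) : t = 1 := by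
  ext i
  have h1 := a1_h_apply t (Multiplicative.ofAdd (Pi.single i 1)) (t i)
  have e : t⁻¹ (t i) = i := by simp
  rw [h, e] at h1
  simp only [MulAut.one_apply, toAdd_ofAdd, Pi.single_eq_same] at h1
  by_contra hne
  have h2 : t i ≠ i := fun h3 => hne (by rw [h3]; rfl)
  rw [Pi.single_eq_of_ne h2] at h1
  exact zero_ne_one h1

/-- Restriction of functions to `S`. -/
def a1_res (S : Finset (Fin m)) :
    Multiplicative (Fin m → ZMod 2) →* Multiplicative (S → ZMod 2) where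
  toFun φ := Multiplicative.ofAdd fun i => φ.toAdd i
  map_one' := rfl
  map_mul' _ _ := rfl

theorem a1_res_index (S : Finset (Fin m)) : (a1_res S).ker.index ≤ 2 ^ S.card := by
  rw [Subgroup.index_ker]
  have := Nat.card_le_card_of_injective _ (a1_res S).range.subtype_injective
  refine this.trans (le_of_eq ?_)
  show Nat.card (S → ZMod 2) = _
  simp

theorem a1_comm {t : Equiv.Perm (Fin m)} {x : alternatingGroup (Fin m)}
    (h : MulAut.conjNormal t x = x) : t * x.1 = x.1 * t := by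
  have := congrArg Subtype.val h
  rw [MulAut.conjNormal_apply] at this
  exact mul_inv_eq_iff_eq_mul.1 this

theorem a1_act (hF : StmtAF) {n : ℕ} (hm : n + 5 ≤ m) :
    GAct n (altAut (MulEquiv.refl (alternatingGroup (Fin m)))) (aN m) 2 := by
  let Φ : Equiv.Perm (Fin m) →* MulAut (Multiplicative (Fin m → ZMod 2)) ×
      MulAut (alternatingGroup (Fin m)) := a1_h.prod MulAut.conjNormal
  refine ⟨Multiplicative (Fin m → ZMod 2), inferInstance, inferInstance, Φ.range, ?_, ?_, ?_, ?_⟩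
  · intro α hα
    obtain ⟨t, rfl⟩ := a1_alt hα
    exact ⟨a1_h t, t, rfl⟩
  · have hs : {h | (h, (1 : MulAut (alternatingGroup (Fin m)))) ∈ Φ.range} ⊆ {1} := by
      rintro h ⟨t, ht⟩
      have h1 : a1_h t = h := congrArg Prod.fst ht
      have h2 : (MulAut.conjNormal t : MulAut (alternatingGroup (Fin m))) = 1 :=
        congrArg Prod.snd ht
      have h3 : t = 1 := by
        ext i
        have := (hF m ∅ (by simp; omega)).2.2.2.1 t
          (fun x _ => a1_comm (by rw [h2]; rfl)) i (by simp)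
        rw [this]
        rfl
      rw [← h1, h3, map_one]
      rfl
    have := Set.ncard_le_ncard hs (Set.finite_singleton _)
    rw [Set.ncard_singleton] at this
    omega
  · rintro α ⟨t, ht⟩
    have h1 : a1_h t = 1 := congrArg Prod.fst ht
    have h2 : (MulAut.conjNormal t : MulAut (alternatingGroup (Fin m))) = α :=
      congrArg Prod.snd ht
    rw [← h2, a1_h_one h1, map_one]
  · rintro s hs N ⟨S, hS, rfl⟩
    refine ⟨(a1_res S).ker, (a1_res_index S).trans (Nat.pow_le_pow_right (by omega) hS), ?_⟩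
    intro α hα hfix
    obtain ⟨t, rfl⟩ := a1_alt hα
    have ht := (hF m S (by omega)).2.2.2.1 t fun x hx => a1_comm (hfix x hx)
    refine ⟨a1_h t, ⟨t, rfl⟩, fun e he => ?_⟩
    have he' : ∀ i ∈ S, e.toAdd i = 0 := fun i hi =>
      congrFun (congrArg Multiplicative.toAdd (MonoidHom.mem_ker.1 he)) ⟨i, hi⟩
    apply Multiplicative.toAdd.injective
    funext i
    rw [a1_h_apply]
    by_cases hi : i ∈ S
    · have h1 : t⁻¹ i ∈ S := by
        by_contra h2
        have h3 := ht _ h2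
        have e2 : t (t⁻¹ i) = i := by simp
        rw [e2] at h3
        exact h2 (h3 ▸ hi)
      rw [he' _ hi, he' _ h1]
    · have h1 : t⁻¹ i = i := by
        rw [Equiv.Perm.inv_eq_iff_eq]
        exact (ht i hi).symm
      rw [h1]

end

theorem a1 (hF : StmtAF) : StmtA1 := by
  intro n
  refine ⟨4 * n + 20, fun m hm => ⟨?_, a1_act hF (by omega)⟩⟩
  refine ⟨⟨∅, by simp, ?_⟩, ?_, ?_, ?_, ?_, ?_, ?_, a1_big hm, ?_, ?_, ?_⟩
  · ext x
    simp [a1_mem]
  · rintro s t hst N ⟨S, hS, rfl⟩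
    exact ⟨S, hS.trans hst, rfl⟩
  · rintro s - N ⟨S, hS, rfl⟩ N' ⟨S', hS', rfl⟩
    refine ⟨aFix (S ∪ S'), ⟨S ∪ S', ?_, rfl⟩, fun x hx => ⟨fun i hi => ?_, fun i hi => ?_⟩⟩
    · have := Finset.card_union_le S S'
      omega
    · exact hx i (Finset.mem_union_left _ hi)
    · exact hx i (Finset.mem_union_right _ hi)
  · rintro N ⟨S, hS, rfl⟩
    exact (hF m S (by omega)).2.1
  · rintro N ⟨S, hS, rfl⟩
    exact (hF m S (by omega)).1
  · rintro N ⟨S, hS, rfl⟩ M hM hn
    rcases (hF m S (by omega)).2.2.1 M hM hn with h | h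
    · left
      rw [h]
      exact bot_le
    · exact Or.inr h
  · rintro s - N ⟨S, hS, rfl⟩
    exact (a1_idx S).trans (Nat.pow_le_pow_right (by omega) hS)
  · intro y hy
    have hy' : y.1.IsThreeCycle := hy
    refine ⟨aFix y.1.support, ⟨_, by rw [hy'.card_support]; omega, rfl⟩, fun x hx => ?_⟩
    have hd : Equiv.Perm.Disjoint x.1 y.1 := by
      intro i
      by_cases hi : i ∈ y.1.support
      · exact Or.inl (hx i hi)
      · exact Or.inr (Equiv.Perm.notMem_support.1 hi)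
    exact Subtype.ext hd.commute.eq
  · intro α hα y hy
    obtain ⟨t, rfl⟩ := a1_alt hα
    have hy' : y.1.cycleType = {3} := hy
    show (MulAut.conjNormal t y).1.cycleType = {3}
    rw [MulAut.conjNormal_apply, Equiv.Perm.cycleType_conj, hy']
  · rintro α hα s - N ⟨S, hS, rfl⟩
    obtain ⟨t, rfl⟩ := a1_alt hα
    exact ⟨S.image t, Finset.card_image_le.trans hS, a1_map t S⟩

end Pool.Agent.Work.MP_11a08a_al.Lin
end

-- merged part: Pool.Agent.Work.MP_11a08a_al.Lin.Tr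
section
/-!
Routine transport.  For `α ∈ 𝒜'` put `α₀ = (e.trans α).trans e.symm`, `e (α₀ x) = α (e x)`.  Use `Subgroup.map` along `e` (an order isomorphism `MulEquiv.mapSubgroup`), `Subgroup.index_map_equiv` or `index_map_of_injective`, `MonoidHom.map_closure`, `map_commutator`.  `Ncl`, `Gen`, `dc`: pull `B, B'` back along `e`.  `QR`: compose `f` with `e.subgroupMap N`.
`GAct`: `T'` = the image of `T` under `MonoidHom.prodMap (id) (MulAut.congr e)`, or the comap under the inverse.  `GLin`: `L₀.map e`, `π₀ ∘ (e.subgroupMap L₀).symm`.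
-/

set_option autoImplicit false

open Module
open scoped commutatorElement

namespace Pool.Agent.Work.MP_11a08a_al.Lin

section

variable {Q Q' : Type} [Group Q] [Group Q'] (e : Q ≃* Q')

theorem tr_surj (M : Subgroup Q') : ∃ M₀ : Subgroup Q, M = M₀.map e.toMonoidHom :=
  ⟨M.comap e.toMonoidHom, (Subgroup.map_comap_eq_self_of_surjective e.surjective M).symm⟩

theorem tr_mem {N : Subgroup Q} {x : Q} : e x ∈ N.map e.toMonoidHom ↔ x ∈ N :=
  Subgroup.mem_map_iff_mem (f := e.toMonoidHom) e.injective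

theorem tr_le {N M : Subgroup Q} : N.map e.toMonoidHom ≤ M.map e.toMonoidHom ↔ N ≤ M :=
  Subgroup.map_le_map_iff_of_injective (f := e.toMonoidHom) e.injective

theorem tr_eq {N M : Subgroup Q} : N.map e.toMonoidHom = M.map e.toMonoidHom ↔ N = M :=
  (Subgroup.map_injective (f := e.toMonoidHom) e.injective).eq_iff

theorem tr_norm {N M : Subgroup Q} :
    (∀ a ∈ N.map e.toMonoidHom, ∀ x ∈ M.map e.toMonoidHom, a * x * a⁻¹ ∈ M.map e.toMonoidHom) ↔
      ∀ a ∈ N, ∀ x ∈ M, a * x * a⁻¹ ∈ M := by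
  constructor
  · intro h a ha x hx
    have := h _ ((tr_mem e).2 ha) _ ((tr_mem e).2 hx)
    rwa [← map_inv, ← map_mul, ← map_mul, tr_mem] at this
  · rintro h _ ⟨a, ha, rfl⟩ _ ⟨x, hx, rfl⟩
    rw [← map_inv, ← map_mul, ← map_mul]
    exact ⟨_, h a ha x hx, rfl⟩

theorem tr_aut (α : MulAut Q') (x : Q) : e (((e.trans α).trans e.symm) x) = α (e x) := by
  simp

theorem tr_map (α : MulAut Q') (N : Subgroup Q) :
    (N.map e.toMonoidHom).map α.toMonoidHom =
      (N.map ((e.trans α).trans e.symm).toMonoidHom).map e.toMonoidHom := by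
  rw [Subgroup.map_map, Subgroup.map_map]
  congr 1
  ext x
  simp

theorem tr_fix (α : MulAut Q') {N : Subgroup Q} :
    (∀ x ∈ N.map e.toMonoidHom, α x = x) ↔ ∀ x ∈ N, ((e.trans α).trans e.symm) x = x := by
  constructor
  · intro h x hx
    apply e.injective
    rw [tr_aut]
    exact h _ ((tr_mem e).2 hx)
  · rintro h _ ⟨x, hx, rfl⟩
    have := congrArg e (h x hx)
    rwa [tr_aut] at this

theorem tr_one (α : MulAut Q') (h : (e.trans α).trans e.symm = (1 : MulAut Q)) : α = 1 := by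
  ext y
  obtain ⟨x, rfl⟩ := e.surjective y
  rw [← tr_aut, h]
  rfl

theorem tr_QR {D : ℕ} {N : Subgroup Q} (h : QR D N) : QR D (N.map e.toMonoidHom) := by
  intro W _ _ _ hW f hf y
  obtain ⟨x, rfl⟩ := (e.subgroupMap N).surjective y
  refine h W hW (fun x => f (e.subgroupMap N x)) (fun x y => ?_) x
  rw [map_mul]
  exact hf _ _

theorem tr_Ncl {N B : Subgroup Q} (h : Ncl (N.map e.toMonoidHom) (B.map e.toMonoidHom)) :
    Ncl N B :=
  ⟨(tr_le e).1 h.1, fun _ h1 h2 h3 =>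
    (tr_eq e).1 (h.2 _ ((tr_le e).2 h1) ((tr_le e).2 h2) ((tr_norm e).2 h3))⟩

theorem tr_dc (B : Subgroup Q) (x : Q) : dc (B.map e.toMonoidHom) (e x) = e '' dc B x := by
  ext y
  constructor
  · rintro ⟨_, ⟨b, hb, rfl⟩, _, ⟨b', hb', rfl⟩, rfl⟩
    exact ⟨_, ⟨b, hb, b', hb', rfl⟩, by simp⟩
  · rintro ⟨_, ⟨b, hb, b', hb', rfl⟩, rfl⟩
    exact ⟨_, (tr_mem e).2 hb, _, (tr_mem e).2 hb', by simp⟩

theorem tr_Gen {n E : ℕ} {B B' : Subgroup Q} (h : Gen n E B B') :
    Gen n E (B.map e.toMonoidHom) (B'.map e.toMonoidHom) := by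
  obtain ⟨a, ha, h⟩ := h
  refine ⟨fun i => e (a i), fun i => (tr_mem e).2 (ha i), fun i j hij => ?_⟩
  have h1 : Nat.card ↥((B ⊔ B').map e.toMonoidHom) = Nat.card ↥(B ⊔ B') :=
    (Nat.card_congr (e.subgroupMap (B ⊔ B')).toEquiv).symm
  rw [← Subgroup.map_sup, h1, ← map_inv, ← map_mul, tr_dc,
    Set.ncard_image_of_injective _ e.injective]
  exact h i j hij

variable {n : ℕ} {𝒜 : Set (MulAut Q)} {𝒜' : Set (MulAut Q')} {C : Set Q}
  {𝓝 : ℕ → Set (Subgroup Q)} {lam q₀ : ℕ}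

theorem tr_one' (hA : ∀ α ∈ 𝒜', (e.trans α).trans e.symm ∈ 𝒜) (h : Geo1 n 𝒜 C 𝓝 lam) :
    Geo1 n 𝒜' (e '' C) (fun s => (fun N => N.map e.toMonoidHom) '' 𝓝 s) lam where
  top := ⟨⊤, h.top, Subgroup.map_top_of_surjective _ e.surjective⟩
  mono s t hst := Set.image_mono (h.mono s t hst)
  inter := by
    rintro s hs _ ⟨N, hN, rfl⟩ _ ⟨N', hN', rfl⟩
    obtain ⟨N'', h1, h2⟩ := h.inter s hs N hN N' hN'
    exact ⟨_, ⟨N'', h1, rfl⟩, le_inf (Subgroup.map_mono (h2.trans inf_le_left))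
      (Subgroup.map_mono (h2.trans inf_le_right))⟩
  gen := by
    rintro _ ⟨N, hN, rfl⟩
    refine (Subgroup.map_mono (h.gen N hN)).trans ?_
    rw [MonoidHom.map_closure]
    refine Subgroup.closure_mono ?_
    rintro _ ⟨x, hx, rfl⟩
    exact ⟨⟨x, hx.1, rfl⟩, ⟨x, hx.2, rfl⟩⟩
  perf := by
    rintro _ ⟨N, hN, rfl⟩
    refine ⟨?_, fun h0 => (h.perf N hN).2 ?_⟩
    · show ⁅N.map e.toMonoidHom, N.map e.toMonoidHom⁆ = N.map e.toMonoidHom
      rw [← Subgroup.map_commutator, (h.perf N hN).1]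
    · exact (Subgroup.map_eq_bot_iff_of_injective (f := e.toMonoidHom) N e.injective).1 h0
  qs := by
    rintro _ ⟨N, hN, rfl⟩ M h1 h2
    obtain ⟨M, rfl⟩ := tr_surj e M
    rcases h.qs N hN M ((tr_le e).1 h1) ((tr_norm e).1 h2) with h3 | h3
    · left
      rintro _ ⟨x, hx, rfl⟩ _ ⟨y, hy, rfl⟩
      rw [← map_mul, ← map_mul, h3 hx y hy]
    · right
      rw [h3]
  idx := by
    rintro s hs _ ⟨N, hN, rfl⟩
    have h1 : (N.map e.toMonoidHom).index = N.index := Subgroup.index_map_equiv N e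
    exact h1.le.trans (h.idx s hs N hN)
  big := h.big.trans (Nat.card_congr e.toEquiv).le
  loc := by
    rintro _ ⟨y, hy, rfl⟩
    obtain ⟨N, hN, h1⟩ := h.loc y hy
    refine ⟨_, ⟨N, hN, rfl⟩, ?_⟩
    rintro _ ⟨x, hx, rfl⟩
    show e x * e y = e y * e x
    rw [← map_mul, ← map_mul, h1 x hx]
  invC := by
    rintro α hα _ ⟨y, hy, rfl⟩
    exact ⟨_, h.invC _ (hA α hα) y hy, tr_aut e α y⟩
  invN := by
    rintro α hα s hs _ ⟨N, hN, rfl⟩
    exact ⟨_, h.invN _ (hA α hα) s hs N hN, (tr_map e α N).symm⟩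

theorem tr_blk (h : GBlk n 𝓝) : GBlk n (fun s => (fun N => N.map e.toMonoidHom) '' 𝓝 s) := by
  obtain ⟨E, D, h1, h2⟩ := h
  refine ⟨E, D, h1, ?_⟩
  rintro _ ⟨N, hN, rfl⟩
  refine ⟨tr_QR e (h2 N hN).1, fun B B' hB hB' => ?_⟩
  obtain ⟨B, rfl⟩ := tr_surj e B
  obtain ⟨B', rfl⟩ := tr_surj e B'
  exact tr_Gen e ((h2 N hN).2 B B' (tr_Ncl e hB) (tr_Ncl e hB'))

theorem tr_act (hA : ∀ α ∈ 𝒜', (e.trans α).trans e.symm ∈ 𝒜) (h : GAct n 𝒜 𝓝 q₀) :
    GAct n 𝒜' (fun s => (fun N => N.map e.toMonoidHom) '' 𝓝 s) q₀ := by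
  obtain ⟨E, i1, i2, T, h1, h2, h3, h4⟩ := h
  let T' : Subgroup (MulAut E × MulAut Q') :=
    T.comap (MonoidHom.prodMap (MonoidHom.id _) (MulAut.congr e).symm.toMonoidHom)
  have hT : ∀ (g : MulAut E) (α : MulAut Q'),
      (g, α) ∈ T' ↔ (g, ((e.trans α).trans e.symm : MulAut Q)) ∈ T := fun g α => Iff.rfl
  have h0 : ((e.trans (1 : MulAut Q')).trans e.symm : MulAut Q) = 1 := by
    ext x
    simp
  refine ⟨E, i1, i2, T', fun α hα => ?_, ?_, fun α hα => ?_, ?_⟩
  · obtain ⟨g, hg⟩ := h1 _ (hA α hα)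
    exact ⟨g, (hT g α).2 hg⟩
  · simp only [hT, h0]
    exact h2
  · exact tr_one e α (h3 _ ((hT _ α).1 hα))
  · rintro s hs _ ⟨N, hN, rfl⟩
    obtain ⟨F, f1, f2⟩ := h4 s hs N hN
    refine ⟨F, f1, fun α hα hx => ?_⟩
    obtain ⟨g, hg, hg'⟩ := f2 _ (hA α hα) ((tr_fix e α).1 hx)
    exact ⟨g, (hT g α).2 hg, hg'⟩

theorem tr_lin (hA : ∀ α ∈ 𝒜', (e.trans α).trans e.symm ∈ 𝒜) (h : GLin n 𝒜 𝓝 q₀) :
    GLin n 𝒜' (fun s => (fun N => N.map e.toMonoidHom) '' 𝓝 s) q₀ := by
  rcases h with h | h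
  · exact Or.inl h
  right
  rintro s hs _ ⟨N, hN, rfl⟩
  obtain ⟨L, Q₀, i1, π, h1, h2, h3, h4, h5, h6, h7, h8⟩ := h s hs N hN
  let φ : L ≃* L.map e.toMonoidHom := e.subgroupMap L
  refine ⟨L.map e.toMonoidHom, Q₀, i1, π.comp φ.symm.toMonoidHom, ?_,
    h2.comp φ.symm.surjective, fun y hy => ?_, h4, h5, h6, h7, fun α hα hx => ?_⟩
  · rw [← Subgroup.map_commutator, h1]
  · obtain ⟨x, rfl⟩ := φ.surjective y
    have hx : x ∈ π.ker := by
      have h0 : π (φ.symm (φ x)) = 1 := hy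
      rwa [φ.symm_apply_apply] at h0
    rw [Subgroup.mem_center_iff]
    intro z
    obtain ⟨w, rfl⟩ := φ.surjective z
    rw [← map_mul, ← map_mul, Subgroup.mem_center_iff.1 (h3 hx) w]
  · obtain ⟨g1, g2⟩ := h8 _ (hA α hα) ((tr_fix e α).1 hx)
    refine ⟨?_, fun hL => tr_one e α (g2 ((tr_fix e α).1 hL))⟩
    rw [tr_map, g1]

end

theorem trS : StmtTr := by
  intro Q Q' _ _ e n 𝒜 𝒜' C 𝓝 lam q₀ hA h
  exact ⟨tr_one' e hA h.one, tr_blk e h.blk, tr_act e hA h.act, tr_lin e hA h.lin⟩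

end Pool.Agent.Work.MP_11a08a_al.Lin
end

-- merged part: Pool.Agent.Work.MP_11a08a_al.Lin.Herm
section
/-!
If `W` is trivial take any core and `r = 1`.  Else start from an inner product `b` (transport from `EuclideanSpace ℂ (Fin n)` along a basis).  For a unit `t` put `ν t = ‖det t‖ ^ (2 / n) > 0` (`Real.rpow`), multiplicative, `ν (c • 1) = ‖c‖ ^ 2`.  The form `b' t v w = (ν t)⁻¹ * b (t v) (t w)` depends only on the coset of `t` modulo `Zs`.
Sum it over the finite type `T ⧸ Zs.subgroupOf T` (representatives `Quotient.out`): `c v w = ∑ x, b' (out x) v w`.  For `t ∈ T`, `b' u (t v) (t w) = ν t * b' (u t) v w`; as `Zs` is central the subgroup is normal and right multiplication by the class of `t` permutes the quotient group.  So `r = ν t`.  If `t ^ k = 1`, `k > 0`, then `ν t ^ k = 1`.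
-/

set_option autoImplicit false

open Finset Module Pool.Agent.Work.MP_11a08a_al.Sol
open scoped commutatorElement

namespace Pool.Agent.Work.MP_11a08a_al.Lin

section

variable {W E : Type} [AddCommGroup W] [Module ℂ W] [NormedAddCommGroup E] [InnerProductSpace ℂ E]
  (e : W ≃ₗ[ℂ] E) (ν : (End ℂ W)ˣ →* ℝ)

/-- The normalised pull-back of the inner product. -/
noncomputable def herm_B (u : (End ℂ W)ˣ) (v w : W) : ℂ :=
  ((ν u)⁻¹ : ℝ) * inner ℂ (e ((u : End ℂ W) v)) (e ((u : End ℂ W) w))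

theorem herm_B_mul (hν : ∀ t, 0 < ν t) (u t : (End ℂ W)ˣ) (v w : W) :
    herm_B e ν u ((t : End ℂ W) v) ((t : End ℂ W) w) = ν t * herm_B e ν (u * t) v w := by
  have h : (ν t : ℂ) ≠ 0 := Complex.ofReal_ne_zero.2 (hν t).ne'
  simp only [herm_B, map_mul, Units.val_mul, End.mul_apply]
  push_cast
  field_simp

theorem herm_B_z (hz : ∀ (z : (End ℂ W)ˣ) (c : ℂ), (z : End ℂ W) = c • 1 → Nontrivial W →
    ν z = ‖c‖ ^ 2) {z : (End ℂ W)ˣ} (h : z ∈ Zs ℂ W) (u : (End ℂ W)ˣ) :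
    herm_B e ν (z * u) = herm_B e ν u := by
  funext v w
  rcases subsingleton_or_nontrivial W with hW | hW
  · simp [herm_B, Subsingleton.elim v 0]
  obtain ⟨c, hc, h⟩ := h
  have h1 : ((‖c‖ : ℝ) : ℂ) ≠ 0 := Complex.ofReal_ne_zero.2 (norm_ne_zero_iff.2 hc)
  simp only [herm_B, map_mul, Units.val_mul, End.mul_apply, hz z c h hW, h, LinearMap.smul_apply,
    End.one_apply, map_smul, inner_smul_left, inner_smul_right]
  rw [← mul_assoc c, Complex.mul_conj']
  push_cast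
  field_simp

theorem herm_B_self (u : (End ℂ W)ˣ) (v : W) :
    (herm_B e ν u v v).re = (ν u)⁻¹ * ‖e ((u : End ℂ W) v)‖ ^ 2 := by
  rw [herm_B, Complex.re_ofReal_mul, ← inner_self_eq_norm_sq (𝕜 := ℂ)]
  rfl

include e in
theorem herm_avg (hν : ∀ t, 0 < ν t) (hz : ∀ (z : (End ℂ W)ˣ) (c : ℂ), (z : End ℂ W) = c • 1 →
    Nontrivial W → ν z = ‖c‖ ^ 2) (T : Subgroup (End ℂ W)ˣ) (hT : (Zs ℂ W).relIndex T ≠ 0) :
    ∃ c : InnerProductSpace.Core ℂ W, ∀ t ∈ T, ∀ v w,
      c.inner ((t : End ℂ W) v) ((t : End ℂ W) w) = ν t * c.inner v w := by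
  let _ : Fintype (T ⧸ (Zs ℂ W).subgroupOf T) := Subgroup.fintypeOfIndexNeZero hT
  let F : T ⧸ (Zs ℂ W).subgroupOf T → W → W → ℂ :=
    Quotient.lift (fun u : T => herm_B e ν (u : (End ℂ W)ˣ)⁻¹) fun u u' h => by
      have h1 : ((u⁻¹ * u' : T) : (End ℂ W)ˣ) ∈ Zs ℂ W :=
        (QuotientGroup.leftRel_apply (s := (Zs ℂ W).subgroupOf T)).1 h
      rw [← herm_B_z e ν hz h1 (u' : (End ℂ W)ˣ)⁻¹]
      simp
  have hF : ∀ x, ∃ u, F x = herm_B e ν u := by
    rintro ⟨u⟩
    exact ⟨_, rfl⟩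
  choose g hg using hF
  have h0 : ∀ x v, 0 ≤ (F x v v).re := fun x v => by
    rw [hg, herm_B_self]
    exact mul_nonneg (inv_pos.2 (hν _)).le (sq_nonneg _)
  refine ⟨{ inner := fun v w => ∑ x, F x v w
            conj_inner_symm := fun v w => ?_
            re_inner_nonneg := fun v => ?_
            add_left := fun v v' w => ?_
            smul_left := fun v w r => ?_
            definite := fun v hv => ?_ }, fun t ht v w => ?_⟩
  · simp only [map_sum, hg, herm_B, map_mul, Complex.conj_ofReal, inner_conj_symm]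
  · rw [map_sum]
    exact Finset.sum_nonneg fun x _ => h0 x v
  · simp only [hg, herm_B, map_add, inner_add_left, mul_add, Finset.sum_add_distrib]
  · simp only [hg, herm_B, map_smul, inner_smul_left, Finset.mul_sum, mul_left_comm]
  · have h1 : ∑ x, (F x v v).re = 0 := by
      rw [← Complex.re_sum, hv, Complex.zero_re]
    have h2 := (Finset.sum_eq_zero_iff_of_nonneg fun x _ => h0 x v).1 h1
      (QuotientGroup.mk 1) (Finset.mem_univ _)
    change (herm_B e ν ((1 : T) : (End ℂ W)ˣ)⁻¹ v v).re = 0 at h2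
    rw [herm_B_self] at h2
    simpa using h2
  · change ∑ x, F x _ _ = ν t * ∑ x, F x v w
    rw [Finset.mul_sum, ← Equiv.sum_comp (MulAction.toPerm (⟨t, ht⟩ : T))]
    refine Finset.sum_congr rfl ?_
    rintro ⟨u⟩ -
    change herm_B e ν (t * u)⁻¹ _ _ = ν t * herm_B e ν (u : (End ℂ W)ˣ)⁻¹ v w
    rw [herm_B_mul e ν hν]
    simp

end

theorem herm : StmtHerm := by
  intro W _ _ _ T hT
  let e : W ≃ₗ[ℂ] EuclideanSpace ℂ (Fin (finrank ℂ W)) := LinearEquiv.ofFinrankEq _ _ (by simp)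
  let ν : (End ℂ W)ˣ →* ℝ :=
    { toFun := fun t => ‖LinearMap.det (t : End ℂ W)‖ ^ (2 / finrank ℂ W : ℝ)
      map_one' := by simp
      map_mul' := fun s t => by
        rw [Units.val_mul, map_mul, norm_mul, Real.mul_rpow (norm_nonneg _) (norm_nonneg _)] }
  have hν : ∀ t, 0 < ν t := fun t =>
    Real.rpow_pos_of_pos (norm_pos_iff.2 (t.isUnit.map LinearMap.det).ne_zero) _
  obtain ⟨c, hc⟩ := herm_avg e ν hν (fun z c h _ => by
    have hn : (finrank ℂ W : ℝ) ≠ 0 := Nat.cast_ne_zero.2 finrank_pos.ne'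
    change ‖LinearMap.det (z : End ℂ W)‖ ^ (2 / finrank ℂ W : ℝ) = _
    rw [h, LinearMap.det_smul, map_one, mul_one, norm_pow, ← Real.rpow_natCast,
      ← Real.rpow_mul (norm_nonneg _), mul_div_cancel₀ _ hn, Real.rpow_two]) T hT
  refine ⟨c, fun t ht => ⟨ν t, hν t, hc t ht, fun h => ?_⟩⟩
  obtain ⟨k, hk, h1⟩ := isOfFinOrder_iff_pow_eq_one.1 h
  refine (pow_eq_one_iff_of_nonneg (hν t).le hk.ne').1 ?_
  rw [← map_pow, h1, map_one]

end Pool.Agent.Work.MP_11a08a_al.Lin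
end

-- merged part: Pool.Agent.Work.MP_11a08a_al.Lin.Tens
section
/-!
Matrix units `e a b`, `a b : Fin (n + 1)`; every `A ∈ spn M` is `∑ a b, c a b • e a b`, and `x` with `Cm M x` commutes with `spn M`.  (1) `trace (e a b * x) = if a = b then trace (e 0 0 * x) else 0` (write `e a b = e a 0 * e 0 b`, `trace_mul_comm`); use it for `x` and for `1`.
(2) `X = range (e 0 0)`, `d = dim X`.  The map `w ↦ (e 0 a w)` is an isomorphism `W ≃ (Fin (n + 1) → X)` with inverse `u ↦ ∑ a, e a 0 (u a)`; so `dim W = (n + 1) d`, `rk (x i₀) ≤ (n + 1) * dim (X.map (x i₀))`, and `rk (∑ a b, c a b • e a b) ≤ rank c * d` (the range lies in the sum over a basis `v` of the column space of `c` of the images of `X` under `∑ a, v a • e a 0`).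
If `d = 0` all is trivial; else the hypothesis gives `n + 1 ≤ K * rank (∑ β i • c i)` for `β i₀ ≠ 0`.  Let `Y = ∑ A i * x i`.  By induction on `k`: if `k * card J < dim (X.map (x i₀)) + card J`, there are `T ≤ X` with `dim T ≤ k * card J` and `R ≤ range Y` with `∀ v ∈ R, ∀ a, e 0 a v ∈ T` and `(n + 1) * k ≤ K * dim R`.
Step: `dim T < dim (X.map (x i₀))`, take `w ∈ X` with `x i₀ w ∉ T` and a functional `φ` on `W` killing `T` with `φ (x i₀ w) ≠ 0`; `ψ u = Y (∑ b, u b • e b 0 w)`, `Φ v = (φ (e 0 a v))`; `Φ ∘ ψ` is the matrix `∑ i, φ (x i w) • c i`, `Φ` kills `R`, so `dim (R ⊔ range ψ) ≥ dim R + rank`; `T' = T ⊔ span {x i w}`.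
Finally take `k` with `dim (X.map (x i₀)) ≤ k * card J < dim (X.map (x i₀)) + card J`.
-/

set_option autoImplicit false

open Finset Module Pool.Agent.Work.MP_11a08a_al.Sol
open scoped commutatorElement

namespace Pool.Agent.Work.MP_11a08a_al.Lin

section

variable {W : Type} [AddCommGroup W] [Module ℂ W] {M : Subgroup (End ℂ W)ˣ} {n : ℕ}
  {e : Fin (n + 1) → Fin (n + 1) → End ℂ W}

theorem tens_coef (h : mu_Sys M e) {A : End ℂ W} (hA : A ∈ spn M) (a b : Fin (n + 1)) :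
    ∃ c : ℂ, c • e 0 0 = e 0 a * A * e b 0 := by
  refine Submodule.mem_span_singleton.1 (h.le'
    (U := (ℂ ∙ e 0 0).comap (LinearMap.mulLeftRight ℂ (e 0 a, e b 0))) (fun u v => ?_) hA)
  rw [Submodule.mem_comap, LinearMap.mulLeftRight_apply, h.mul]
  split_ifs
  · rw [h.mul]
    split_ifs
    exacts [Submodule.mem_span_singleton_self _, zero_mem _]
  · rw [zero_mul]
    exact zero_mem _

theorem tens_tr (h : mu_Sys M e) {x : End ℂ W} (hx : Cm M x) (a b : Fin (n + 1)) :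
    LinearMap.trace ℂ W (e a b * x) = if a = b then LinearMap.trace ℂ W (e 0 0 * x) else 0 := by
  rw [← h.same a 0 b, mul_assoc, LinearMap.trace_mul_comm, mul_assoc, ← mu_cm hx (h.mem a 0),
    ← mul_assoc, h.mul]
  by_cases k : a = b
  · rw [if_pos k, if_pos k.symm]
  · rw [if_neg k, if_neg (Ne.symm k), zero_mul, map_zero]

theorem tens_tr1 (h : mu_Sys M e) {x : End ℂ W} (hx : Cm M x) :
    LinearMap.trace ℂ W x = (n + 1 : ℕ) * LinearMap.trace ℂ W (e 0 0 * x) := by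
  rw [← congrArg (LinearMap.trace ℂ W) (one_mul x), ← h.sum, sum_mul, map_sum,
    sum_congr rfl fun a _ => (tens_tr h hx a a).trans (if_pos rfl), sum_const, card_univ,
    Fintype.card_fin, nsmul_eq_mul]

theorem tens_one : Cm M (1 : End ℂ W) := fun _ _ => (mul_one _).trans (one_mul _).symm

variable [FiniteDimensional ℂ W]

theorem tens_dimW (h : mu_Sys M e) : finrank ℂ W = (n + 1) * rk (e 0 0) := by
  have k := tens_tr1 h tens_one
  rw [LinearMap.trace_one, mul_one,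
    (LinearMap.IsIdempotentElem.isProj_range _ (h.same 0 0 0)).trace] at k
  exact_mod_cast k

theorem tens_trace (h : mu_Sys M e) {a : End ℂ W} (ha : a ∈ spn M) {x : End ℂ W} (hx : Cm M x) :
    LinearMap.trace ℂ W (a * x) * finrank ℂ W =
      LinearMap.trace ℂ W a * LinearMap.trace ℂ W x := by
  obtain ⟨c, rfl⟩ := (Submodule.mem_span_range_iff_exists_fun ℂ).1 (h.le ha)
  rw [sum_mul, map_sum, map_sum, sum_mul, sum_mul]
  refine sum_congr rfl fun p _ => ?_
  have k := tens_tr h tens_one p.1 p.2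
  rw [mul_one] at k
  rw [smul_mul_assoc, map_smul, map_smul, tens_tr h hx, k, ← LinearMap.trace_one,
    tens_tr1 h tens_one, tens_tr1 h hx (x := x), smul_eq_mul, smul_eq_mul]
  split_ifs <;> ring

theorem tens_rk (h : mu_Sys M e) (B : End ℂ W) (c : Fin (n + 1) → Fin (n + 1) → ℂ)
    (hc : ∀ a b, c b a • e 0 0 = e 0 a * B * e b 0) (U : Submodule ℂ (Fin (n + 1) → ℂ))
    (hU : ∀ b, c b ∈ U) : rk B ≤ finrank ℂ U * rk (e 0 0) := by
  let v := Module.finBasis ℂ U
  have h1 : ∀ a b, c b a = ∑ s, (v s).1 a * v.repr ⟨_, hU b⟩ s := fun a b => by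
    have := congrFun (congrArg Subtype.val (v.sum_repr ⟨_, hU b⟩)) a
    rw [AddSubmonoidClass.coe_finsetSum, Finset.sum_apply] at this
    exact this.symm.trans (sum_congr rfl fun s _ => mul_comm _ _)
  have h2 : B = ∑ a, ∑ b, c b a • (e a 0 * e 0 0 * e 0 b) := by
    rw [← one_mul B, ← mul_one (1 * B), ← h.sum, sum_mul, sum_mul]
    refine sum_congr rfl fun a _ => ?_
    rw [mul_sum]
    refine sum_congr rfl fun b _ => ?_
    rw [← smul_mul_assoc, ← mul_smul_comm, hc, ← mul_assoc, ← mul_assoc, h.same, mul_assoc _ _ (e 0 b),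
      h.same]
  have h3 : B = ∑ s, (∑ a, (v s).1 a • e a 0) * e 0 0 * ∑ b, v.repr ⟨_, hU b⟩ s • e 0 b := by
    rw [h2]
    simp only [h1, sum_mul, mul_sum, sum_smul, smul_mul_assoc, mul_smul_comm, smul_smul, smul_sum]
    rw [sum_comm]
    refine (sum_congr rfl fun b _ => sum_comm).trans (sum_comm.trans ?_)
    simp only [mul_comm]
  refine (congrArg rk h3).trans_le ((mu_rk_sum univ _ fun s => mu_rk_mul _ (e 0 0) _).trans_eq ?_)
  rw [card_univ, Fintype.card_fin]

theorem tens_dim {V : Type} [AddCommGroup V] [Module ℂ V] (f : W →ₗ[ℂ] V) {R R' : Submodule ℂ W}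
    (h : R ≤ R') (h0 : R ≤ LinearMap.ker f) :
    finrank ℂ R + finrank ℂ (R'.map f) ≤ finrank ℂ R' := by
  rw [← LinearMap.finrank_range_add_finrank_ker (f.domRestrict R'), LinearMap.range_domRestrict,
    LinearMap.ker_domRestrict, ← (Submodule.comapSubtypeEquivOfLe h).finrank_eq, add_comm]
  exact Nat.add_le_add_left (Submodule.finrank_mono (Submodule.comap_mono h0)) _

/-- vectors in the range of `Y` whose coordinates lie in `T` -/
def tens_R (e : Fin (n + 1) → Fin (n + 1) → End ℂ W) (Y : End ℂ W) (T : Submodule ℂ W) :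
    Submodule ℂ W := LinearMap.range Y ⊓ ⨅ a, T.comap (e 0 a)

theorem tens_step (h : mu_Sys M e) {ι : Type} (J : Finset ι) (A x : ι → End ℂ W) (K : ℕ)
    (hA : ∀ i ∈ J, A i ∈ spn M ∧ Cm M (x i)) (i₀ : ι)
    (hK : ∀ β : ι → ℂ, β i₀ ≠ 0 → finrank ℂ W ≤ K * rk (∑ i ∈ J, β i • A i))
    (T : Submodule ℂ W) (hT : finrank ℂ T < rk (e 0 0 * x i₀)) :
    ∃ T' : Submodule ℂ W, finrank ℂ T' ≤ finrank ℂ T + J.card ∧
      K * finrank ℂ (tens_R e (∑ i ∈ J, A i * x i) T) + (n + 1) ≤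
        K * finrank ℂ (tens_R e (∑ i ∈ J, A i * x i) T') := by
  obtain ⟨w, hw⟩ : ∃ w, e 0 0 (x i₀ w) ∉ T := by
    by_contra! k
    refine hT.not_ge (Submodule.finrank_mono ?_)
    rintro _ ⟨w, rfl⟩
    exact k w
  obtain ⟨φ, k1, k2⟩ := Submodule.exists_le_ker_of_notMem hw
  choose! c hc using fun i (hi : i ∈ J) => tens_coef h (hA i hi).1
  let T' := T ⊔ Submodule.span ℂ (Set.range fun i : J => e 0 0 (x i w))
  let Φ : W →ₗ[ℂ] (Fin (n + 1) → ℂ) := LinearMap.pi fun a => φ ∘ₗ e 0 a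
  have k3 : ∀ a b, e 0 a ((∑ i ∈ J, A i * x i) (e b 0 w)) = ∑ i ∈ J, c i a b • e 0 0 (x i w) :=
    fun a b => by
      rw [LinearMap.sum_apply, map_sum]
      refine sum_congr rfl fun i hi => ?_
      rw [← LinearMap.smul_apply, hc i hi, ← End.mul_apply (x := w), ← End.mul_apply (x := w),
        ← End.mul_apply (x := w), mul_assoc _ (x i), ← mu_cm (hA i hi).2 (h.mem b 0)]
      simp only [mul_assoc]
  have k4 := tens_rk h (∑ i ∈ J, φ (e 0 0 (x i w)) • A i)
    (fun b => Φ ((∑ i ∈ J, A i * x i) (e b 0 w))) (fun a b => by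
      change φ (e 0 a _) • _ = _
      rw [k3, map_sum, sum_smul, mul_sum, sum_mul]
      refine sum_congr rfl fun i hi => ?_
      rw [mul_smul_comm, smul_mul_assoc, ← hc i hi, map_smul, smul_eq_mul, mul_comm, mul_smul])
    ((tens_R e (∑ i ∈ J, A i * x i) T').map Φ) fun b => Submodule.mem_map_of_mem
      ⟨⟨_, rfl⟩, (Submodule.mem_iInf _).2 fun a => by
        rw [Submodule.mem_comap, k3]
        exact Submodule.sum_mem _ fun i hi => Submodule.smul_mem _ _
          (Submodule.mem_sup_right (Submodule.subset_span ⟨⟨i, hi⟩, rfl⟩))⟩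
  have k5 := tens_dim Φ (R := tens_R e (∑ i ∈ J, A i * x i) T)
    (R' := tens_R e (∑ i ∈ J, A i * x i) T')
    (inf_le_inf_left _ (iInf_mono fun a => Submodule.comap_mono le_sup_left))
    fun v hv => funext fun a => k2 ((Submodule.mem_iInf _).1 hv.2 a)
  have k6 := (hK (fun i => φ (e 0 0 (x i w))) k1).trans (Nat.mul_le_mul_left K k4)
  have k7 : 0 < rk (e 0 0) := (Nat.zero_le _).trans_lt (hT.trans_le (rank_right _ _))
  rw [tens_dimW h, ← mul_assoc] at k6
  refine ⟨T', (Submodule.finrank_add_le_finrank_add_finrank _ _).trans (Nat.add_le_add_left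
    ((finrank_range_le_card _).trans_eq (Fintype.card_coe J)) _), ?_⟩
  exact (Nat.add_le_add_left (Nat.le_of_mul_le_mul_right k6 k7) _).trans
    ((mul_add _ _ _).ge.trans (Nat.mul_le_mul_left K k5))

theorem tens_x (h : mu_Sys M e) {x : End ℂ W} (hx : Cm M x) :
    rk x ≤ (n + 1) * rk (e 0 0 * x) := by
  have k : x = ∑ a, e a 0 * (e 0 0 * x) * e 0 a := by
    refine (one_mul x).symm.trans ?_
    rw [← h.sum, sum_mul]
    refine sum_congr rfl fun a _ => ?_
    rw [← mul_assoc, h.same, mul_assoc, ← mu_cm hx (h.mem 0 a), ← mul_assoc, h.same]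
  refine (congrArg rk k).trans_le ((mu_rk_sum univ _ fun s => mu_rk_mul _ _ _).trans_eq ?_)
  rw [card_univ, Fintype.card_fin]

end

theorem tens : StmtTens := by
  rintro W _ _ _ M ⟨n, e, h1, h2, h3, h4⟩
  have h : mu_Sys M e := ⟨h1, h2, h3, h4⟩
  refine ⟨fun a ha x hx => tens_trace h ha hx, fun ι J A x K hA i₀ hi hK => ?_⟩
  refine (tens_x h (hA i₀ hi).2).trans (not_lt.1 fun k => ?_)
  have k0 : ∀ T, finrank ℂ (tens_R e (∑ i ∈ J, A i * x i) T) ≤ rk (∑ i ∈ J, A i * x i) :=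
    fun T => Submodule.finrank_mono inf_le_left
  have k1 : ∀ m : ℕ, ∃ T : Submodule ℂ W, finrank ℂ T ≤ m * J.card ∧
      (n + 1) * m ≤ K * finrank ℂ (tens_R e (∑ i ∈ J, A i * x i) T) := fun m => by
    induction m with
    | zero => exact ⟨⊥, by simp, Nat.zero_le _⟩
    | succ m ih =>
      obtain ⟨T, t1, t2⟩ := ih
      have t3 := Nat.mul_le_mul_right J.card (t2.trans (Nat.mul_le_mul_left K (k0 T)))
      rw [mul_right_comm K, mul_assoc] at t3
      obtain ⟨T', t4, t5⟩ := tens_step h J A x K hA i₀ hK T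
        (t1.trans_lt (Nat.lt_of_mul_lt_mul_left (t3.trans_lt k)))
      exact ⟨T', t4.trans ((Nat.add_le_add_right t1 _).trans_eq (add_one_mul _ _).symm),
        (mul_add_one _ _).trans_le ((Nat.add_le_add_right t2 _).trans t5)⟩
  obtain ⟨T, -, t2⟩ := k1 (K * rk (∑ i ∈ J, A i * x i) + 1)
  exact (Nat.lt_succ_self _).not_ge ((Nat.le_mul_of_pos_left _ n.succ_pos).trans
    (t2.trans (Nat.mul_le_mul_left K (k0 T))))

end Pool.Agent.Work.MP_11a08a_al.Lin
end

-- merged part: Pool.Agent.Work.MP_11a08a_al.Lin.BigT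
section
/-!
If `W` is trivial both sides vanish.  By `hH` the elements of `L` (finite) are unitary and `⟪t v, t w⟫ = r ⟪v, w⟫`, so the adjoint of `t` is `r t⁻¹`, `‖trace t⁻¹‖ = ‖trace t‖ / r`.  With an orthonormal basis `b` put `⟪a, a'⟫ = ∑ i, ⟪a (b i), a' (b i)⟫`.  `t₀ = ∑ y : L, y⁻¹ t y` has `trace t₀ = card L * trace t`, `‖trace t₀‖ ^ 2 ≤ dim * ⟪t₀, t₀⟫` (Cauchy-Schwarz),
`⟪y⁻¹ t y, y'⁻¹ t y'⟫ = r * trace (y⁻¹ t⁻¹ y y'⁻¹ t y') = r * trace (t⁻¹ z t z⁻¹)` with `z = y y'⁻¹`.  So it suffices to show `∑ z : L, ‖trace (t⁻¹ z t z⁻¹)‖ ≤ 2 τ * dim * card L`.  There is a subgroup `K ≠ ⊤` of `L` containing the centre such that the term is at most `τ * dim` for `z ∉ K`; every term is at most `dim`, and `card K ≤ τ * card L` by `idx`.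
First case: `K = {z | t⁻¹ z t z⁻¹ is central in L}`; if `K = ⊤` then `z ↦ t⁻¹ z t z⁻¹` is a homomorphism from a perfect group to a commutative group, so `t` centralises `L`.  Use `tr` for the representation `(Units.coeHom _).comp L.subtype`.
Second case: `K` = the centre (`L` is perfect and nontrivial because `Fx L = ⊥`); `hT` gives `trace (z⁻¹ * (t⁻¹ z t)) * dim = trace z⁻¹ * trace (t⁻¹ z t)`, `‖trace (t⁻¹ z t)‖ = ‖trace z‖ ≤ dim`.
To use `hH`: prove a lemma for `[NormedAddCommGroup W] [InnerProductSpace ℂ W]`, then `obtain ⟨c, hc⟩ := hH W T h; let _ := c.toNormedAddCommGroup; let _ := InnerProductSpace.ofCore c.toCore; exact lemma ..` (this typechecks).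
-/

set_option autoImplicit false

open Finset Module Pool.Agent.Work.MP_11a08a_al.Sol
open scoped commutatorElement

namespace Pool.Agent.Work.MP_11a08a_al.Lin

section Inner

variable {W : Type} [NormedAddCommGroup W] [InnerProductSpace ℂ W] [FiniteDimensional ℂ W]

theorem bigt_cs (a : End ℂ W) : ‖LinearMap.trace ℂ W a‖ ^ 2 ≤
    finrank ℂ W * ‖LinearMap.trace ℂ W (star a * a)‖ := by
  let b := stdOrthonormalBasis ℂ W
  have h1 : ‖LinearMap.trace ℂ W a‖ ≤ ∑ i, ‖a (b i)‖ := by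
    rw [LinearMap.trace_eq_sum_inner a b]
    refine (norm_sum_le _ _).trans (sum_le_sum fun i _ => ?_)
    refine (norm_inner_le_norm _ _).trans ?_
    rw [b.orthonormal.1 i, one_mul]
  have h2 : LinearMap.trace ℂ W (star a * a) = ((∑ i, ‖a (b i)‖ ^ 2 : ℝ) : ℂ) := by
    rw [LinearMap.trace_eq_sum_inner _ b]
    push_cast
    refine sum_congr rfl fun i _ => ?_
    rw [Module.End.mul_apply, LinearMap.star_eq_adjoint, LinearMap.adjoint_inner_right,
      inner_self_eq_norm_sq_to_K]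
    rfl
  rw [h2, Complex.norm_real, Real.norm_of_nonneg (sum_nonneg fun i _ => sq_nonneg _)]
  refine (pow_le_pow_left₀ (norm_nonneg _) h1 2).trans (sq_sum_le_card_mul_sum_sq.trans ?_)
  simp

theorem bigt_star (a : End ℂ W) :
    ‖LinearMap.trace ℂ W (star a)‖ = ‖LinearMap.trace ℂ W a‖ := by
  let b := stdOrthonormalBasis ℂ W
  rw [← Complex.norm_conj (LinearMap.trace ℂ W a), LinearMap.trace_eq_sum_inner _ b,
    LinearMap.trace_eq_sum_inner _ b, map_sum]
  congr 1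
  refine sum_congr rfl fun i _ => ?_
  rw [LinearMap.star_eq_adjoint, LinearMap.adjoint_inner_right, inner_conj_symm]

theorem bigt_adj {t : (End ℂ W)ˣ} {r : ℝ}
    (h : ∀ v w, inner ℂ ((t : End ℂ W) v) ((t : End ℂ W) w) = r * inner ℂ v w) :
    star (t : End ℂ W) = (r : ℂ) • ((t⁻¹ : (End ℂ W)ˣ) : End ℂ W) := by
  symm
  rw [LinearMap.star_eq_adjoint, LinearMap.eq_adjoint_iff]
  intro x y
  rw [LinearMap.smul_apply, inner_smul_left, Complex.conj_ofReal, ← h, ← Module.End.mul_apply,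
    Units.mul_inv, Module.End.one_apply]

theorem bigt_unit {g : (End ℂ W)ˣ} (h : star (g : End ℂ W) = ((g⁻¹ : (End ℂ W)ˣ) : End ℂ W)) :
    ‖LinearMap.trace ℂ W (g : End ℂ W)‖ ≤ finrank ℂ W := by
  have h1 := bigt_cs (g : End ℂ W)
  rw [h, Units.inv_mul, LinearMap.trace_one, Complex.norm_natCast, ← sq] at h1
  exact (pow_le_pow_iff_left₀ (norm_nonneg _) (Nat.cast_nonneg _) two_ne_zero).1 h1

theorem bigt_an {L : Subgroup (End ℂ W)ˣ} [Fintype L] {t : (End ℂ W)ˣ} {r : ℝ} (hr : 0 < r)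
    (hL : ∀ y ∈ L, ∀ v w, inner ℂ ((y : End ℂ W) v) ((y : End ℂ W) w) = (1 : ℝ) * inner ℂ v w)
    (ht : ∀ v w, inner ℂ ((t : End ℂ W) v) ((t : End ℂ W) w) = r * inner ℂ v w) :
    (∀ z ∈ L, ‖LinearMap.trace ℂ W (z : End ℂ W)‖ ≤ finrank ℂ W) ∧
    (∀ z ∈ L, ‖LinearMap.trace ℂ W ((t⁻¹ * z * t * z⁻¹ : (End ℂ W)ˣ) : End ℂ W)‖ ≤ finrank ℂ W) ∧
    ‖LinearMap.trace ℂ W (t : End ℂ W)‖ * ‖LinearMap.trace ℂ W ((t⁻¹ : (End ℂ W)ˣ) : End ℂ W)‖ *
      Fintype.card L ≤ finrank ℂ W * ∑ z : L,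
        ‖LinearMap.trace ℂ W ((t⁻¹ * z * t * (z : (End ℂ W)ˣ)⁻¹ : (End ℂ W)ˣ) : End ℂ W)‖ := by
  have hU : ∀ y ∈ L, star (y : End ℂ W) = ((y⁻¹ : (End ℂ W)ˣ) : End ℂ W) := fun y hy => by
    rw [bigt_adj (hL y hy), Complex.ofReal_one, one_smul]
  have hU' : ∀ y ∈ L, star ((y⁻¹ : (End ℂ W)ˣ) : End ℂ W) = (y : End ℂ W) := fun y hy => by
    rw [hU _ (L.inv_mem hy), inv_inv]
  have h1 := bigt_adj ht
  have hr' : (r : ℂ) ≠ 0 := Complex.ofReal_ne_zero.2 hr.ne'
  have h2 : star ((t⁻¹ : (End ℂ W)ˣ) : End ℂ W) = (r : ℂ)⁻¹ • (t : End ℂ W) := by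
    have h3 := congrArg star h1
    rw [star_star, star_smul, Complex.star_def, Complex.conj_ofReal] at h3
    rw [h3, smul_smul, inv_mul_cancel₀ hr', one_smul]
  refine ⟨fun z hz => bigt_unit (hU z hz), fun z hz => bigt_unit ?_, ?_⟩
  · simp only [Units.val_mul, star_mul, mul_inv_rev, inv_inv, hU z hz, hU' z hz, h1, h2,
      smul_mul_assoc, mul_smul_comm, smul_smul, inv_mul_cancel₀ hr', one_smul,
      mul_assoc]
  let u : L → End ℂ W := fun y => (((y : (End ℂ W)ˣ)⁻¹ * t * y : (End ℂ W)ˣ) : End ℂ W)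
  let φ : L → ℝ := fun z =>
    ‖LinearMap.trace ℂ W ((t⁻¹ * z * t * (z : (End ℂ W)ˣ)⁻¹ : (End ℂ W)ˣ) : End ℂ W)‖
  have h3 : ∀ y, LinearMap.trace ℂ W (u y) = LinearMap.trace ℂ W (t : End ℂ W) := fun y => by
    simp only [u, Units.val_mul]
    rw [LinearMap.trace_mul_comm, ← mul_assoc, Units.mul_inv, one_mul]
  have h4 : ∀ y y', ‖LinearMap.trace ℂ W (star (u y) * u y')‖ = r * φ (y * y'⁻¹) := fun y y' => by
    have e1 : star (u y) * u y' = (r : ℂ) • ((((y : (End ℂ W)ˣ)⁻¹ : (End ℂ W)ˣ) : End ℂ W) *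
        ((t⁻¹ * y * (y' : (End ℂ W)ˣ)⁻¹ * t * y' : (End ℂ W)ˣ) : End ℂ W)) := by
      simp only [u, Units.val_mul, star_mul, hU _ y.2, hU' _ y.2, h1, smul_mul_assoc,
        mul_smul_comm, mul_assoc]
    rw [e1, map_smul, smul_eq_mul, norm_mul, Complex.norm_real, Real.norm_of_nonneg hr.le,
      LinearMap.trace_mul_comm, ← Units.val_mul]
    simp only [φ, Subgroup.coe_mul, Subgroup.coe_inv, mul_inv_rev, inv_inv, mul_assoc]
  have h5 := bigt_cs (∑ y, u y)
  have h6 : ‖LinearMap.trace ℂ W (star (∑ y, u y) * ∑ y, u y)‖ ≤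
      Fintype.card L * (r * ∑ z, φ z) := by
    rw [star_sum, sum_mul_sum, sum_comm, map_sum]
    refine (norm_sum_le _ _).trans ((sum_le_card_nsmul _ _ (r * ∑ z, φ z) fun y' _ => ?_).trans
      (by rw [nsmul_eq_mul, card_univ]))
    rw [map_sum]
    refine (norm_sum_le _ _).trans (le_of_eq ?_)
    simp only [h4]
    rw [← mul_sum, Equiv.sum_comp (Equiv.mulRight y'⁻¹) φ |>.symm]
    rfl
  rw [map_sum, sum_congr rfl fun y _ => h3 y, sum_const, card_univ, nsmul_eq_mul, norm_mul,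
    Complex.norm_natCast] at h5
  have h7 : ‖LinearMap.trace ℂ W (t : End ℂ W)‖ =
      r * ‖LinearMap.trace ℂ W ((t⁻¹ : (End ℂ W)ˣ) : End ℂ W)‖ := by
    rw [← bigt_star, h1, map_smul, smul_eq_mul, norm_mul, Complex.norm_real,
      Real.norm_of_nonneg hr.le]
  have hc : (0 : ℝ) < Fintype.card L := Nat.cast_pos.2 Fintype.card_pos
  have h8 := h5.trans (mul_le_mul_of_nonneg_left h6 (Nat.cast_nonneg _))
  refine le_of_mul_le_mul_left ?_ (mul_pos hc hr)
  calc _ = (Fintype.card L * ‖LinearMap.trace ℂ W (t : End ℂ W)‖) ^ 2 := by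
        rw [h7]
        ring
    _ ≤ _ := h8
    _ = _ := by ring

end Inner

theorem bigt_sum {Γ : Type} [Group Γ] [Fintype Γ] {τ n : ℝ} (hn : 0 ≤ n) (φ : Γ → ℝ)
    (K : Subgroup Γ) (hK : 1 ≤ τ * K.index) (h1 : ∀ z, φ z ≤ n) (h2 : ∀ z, z ∉ K → φ z ≤ τ * n) :
    ∑ z, φ z ≤ 2 * τ * n * Fintype.card Γ := by
  classical
  have hτ : 0 ≤ τ := by
    by_contra h
    have := mul_nonpos_of_nonpos_of_nonneg (not_le.1 h).le (Nat.cast_nonneg (α := ℝ) K.index)
    linarith
  have h3 : ∑ z, φ z ≤ ∑ z : Γ, ((if z ∈ K then n else 0) + τ * n) := sum_le_sum fun z _ => by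
    split_ifs with h
    · exact (h1 z).trans (le_add_of_nonneg_right (mul_nonneg hτ hn))
    · rw [zero_add]
      exact h2 z h
  have h4 : ∑ z : Γ, (if z ∈ K then n else 0) = Nat.card K * n := by
    rw [← sum_filter, sum_const, nsmul_eq_mul, Nat.card_eq_fintype_card (α := K),
      Fintype.card_subtype]
  have h5 : (Nat.card K : ℝ) * K.index = Fintype.card Γ := by
    rw [← Nat.card_eq_fintype_card, ← K.card_mul_index, Nat.cast_mul]
  rw [sum_add_distrib, h4, sum_const, card_univ, nsmul_eq_mul] at h3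
  have h6 := mul_le_mul_of_nonneg_left hK (mul_nonneg (Nat.cast_nonneg (α := ℝ) (Nat.card K)) hn)
  rw [← h5] at h3 ⊢
  linarith

theorem bigt_comm {Γ : Type} [Group Γ] {a b : Γ} (ha : a ∈ Subgroup.center Γ)
    (hb : b ∈ Subgroup.center Γ) (x y : Γ) : ⁅a * x, b * y⁆ = ⁅x, y⁆ := by
  rw [Subgroup.mem_center_iff] at ha hb
  have h1 : ∀ g, a * g * a⁻¹ = g := fun g => by rw [← ha, mul_inv_cancel_right]
  have h2 : ∀ g, b * g * b⁻¹ = g := fun g => by rw [← hb, mul_inv_cancel_right]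
  calc ⁅a * x, b * y⁆ = a * (x * b * y * x⁻¹) * a⁻¹ * (y⁻¹ * b⁻¹) := by
        rw [commutatorElement_def]
        group
    _ = b * ⁅x, y⁆ * b⁻¹ := by
        rw [h1, hb x, commutatorElement_def]
        group
    _ = _ := h2 _

theorem bigt_aut {Γ : Type} [Group Γ] (hp : commutator Γ = ⊤) (c : Γ →* Γ)
    (hs : Function.Surjective c) (hne : ¬ ∀ z, c z = z) : ∃ K : Subgroup Γ,
      Subgroup.center Γ ≤ K ∧ K ≠ ⊤ ∧ ∀ z, z ∉ K → c z * z⁻¹ ∉ Subgroup.center Γ := by
  have hK : ∀ z, z ∈ ((QuotientGroup.mk' (Subgroup.center Γ)).comp c).eqLocus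
      (QuotientGroup.mk' (Subgroup.center Γ)) ↔ c z * z⁻¹ ∈ Subgroup.center Γ := fun z => by
    rw [← div_eq_mul_inv, ← QuotientGroup.eq_iff_div_mem]
    rfl
  refine ⟨_, fun z hz => (hK z).2 (mul_mem ?_ (inv_mem hz)), fun e => hne fun z => ?_,
    fun z hz h => hz ((hK z).2 h)⟩
  · rw [Subgroup.mem_center_iff] at hz ⊢
    intro g
    obtain ⟨g, rfl⟩ := hs g
    rw [← map_mul, hz, map_mul]
  · have h1 : ∀ z, c z * z⁻¹ ∈ Subgroup.center Γ := fun z => (hK z).1 (e ▸ Subgroup.mem_top z)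
    have h2 : commutator Γ ≤ c.eqLocus (MonoidHom.id Γ) := by
      rw [commutator_def, Subgroup.commutator_le]
      intro x _ y _
      change c ⁅x, y⁆ = ⁅x, y⁆
      rw [map_commutatorElement, ← bigt_comm (h1 x) (h1 y) x y, inv_mul_cancel_right,
        inv_mul_cancel_right]
    exact h2 (hp ▸ Subgroup.mem_top z)

theorem bigt_K (hT : StmtTens) {W : Type} [AddCommGroup W] [Module ℂ W] [FiniteDimensional ℂ W]
    [Nontrivial W] {τ : ℝ} {L : Subgroup (End ℂ W)ˣ} {t : (End ℂ W)ˣ} (hB : BigG τ L)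
    (hF : Fx L = ⊥) (hU : ∀ z ∈ L, ‖LinearMap.trace ℂ W (z : End ℂ W)‖ ≤ finrank ℂ W)
    (h : (Nm t L ∧ ¬ Cen t L) ∨ (MU L ∧ ∀ x ∈ L, Cen (t⁻¹ * x * t) L)) :
    ∃ K : Subgroup L, Subgroup.center L ≤ K ∧ K ≠ ⊤ ∧ ∀ z : L, z ∉ K →
      ‖LinearMap.trace ℂ W ((t⁻¹ * z * t * (z : (End ℂ W)ˣ)⁻¹ : (End ℂ W)ˣ) : End ℂ W)‖ ≤
        τ * finrank ℂ W := by
  have htr : ∀ z : L, z ∉ Subgroup.center L →
      ‖LinearMap.trace ℂ W ((z : (End ℂ W)ˣ) : End ℂ W)‖ ≤ τ * finrank ℂ W :=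
    hB.tr W ((Units.coeHom _).comp L.subtype) fun w hw => by
      have : w ∈ Fx L := fun y hy => hw ⟨y, hy⟩
      rwa [hF] at this
  rcases h with ⟨hN, hC⟩ | ⟨hM, hC⟩
  · have hN' := Subgroup.mem_normalizer_iff.1 hN
    have hm : ∀ z : L, ((MulAut.conj t⁻¹).toMonoidHom.comp L.subtype) z ∈ L := fun z =>
      (hN' _).2 (by simp [mul_assoc])
    obtain ⟨K, h1, h2, h3⟩ := bigt_aut hB.perf (MonoidHom.codRestrict _ L hm)
      (fun z => ⟨⟨_, (hN' z).1 z.2⟩, Subtype.ext (by simp [mul_assoc])⟩) fun e => hC fun y hy => by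
        have e1 : t⁻¹ * y * t⁻¹⁻¹ = y := congrArg Subtype.val (e ⟨y, hy⟩)
        rw [inv_inv, mul_assoc, inv_mul_eq_iff_eq_mul] at e1
        exact e1.symm
    exact ⟨K, h1, h2, fun z hz => htr _ (h3 z hz)⟩
  · refine ⟨_, le_rfl, fun e => ?_, fun z hz => ?_⟩
    · have h1 : commutator L = ⊥ := (commutator_eq_bot_iff_center_eq_top L).2 e
      obtain ⟨w, hw⟩ := exists_ne (0 : W)
      have h2 : w ∈ Fx L := fun y hy => by
        have h3 : (⟨y, hy⟩ : L) ∈ (⊥ : Subgroup L) := h1 ▸ hB.perf ▸ Subgroup.mem_top _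
        rw [show y = 1 from congrArg Subtype.val (Subgroup.mem_bot.1 h3)]
        rfl
      rw [hF] at h2
      exact hw h2
    · have h1 := (hT W L hM).1 (((z : (End ℂ W)ˣ)⁻¹ : (End ℂ W)ˣ) : End ℂ W)
        (Submodule.subset_span ⟨_, L.inv_mem z.2, rfl⟩) ((t⁻¹ * z * t : (End ℂ W)ˣ) : End ℂ W)
        fun u hu => by rw [← Units.val_mul, ← Units.val_mul, hC z z.2 u hu]
      have h2 : LinearMap.trace ℂ W ((t⁻¹ * z * t : (End ℂ W)ˣ) : End ℂ W) =
          LinearMap.trace ℂ W ((z : (End ℂ W)ˣ) : End ℂ W) := by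
        rw [Units.val_mul, LinearMap.trace_mul_comm, ← Units.val_mul, mul_inv_cancel_left]
      have h3 := congrArg norm h1
      rw [norm_mul, norm_mul, Complex.norm_natCast, h2, LinearMap.trace_mul_comm,
        ← Units.val_mul] at h3
      have h4 := htr z⁻¹ fun h => hz ((inv_mem_iff (x := z)).1 h)
      have hn : (0 : ℝ) < finrank ℂ W := Nat.cast_pos.2 finrank_pos
      refine le_of_mul_le_mul_right (h3.trans_le ?_) hn
      exact mul_le_mul h4 (hU _ z.2) (norm_nonneg _) ((norm_nonneg _).trans h4)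

theorem bigT (hH : StmtHerm) (hT : StmtTens) : StmtBigT := by
  intro W _ _ _ τ T L t hT0 hLT ht hB hF h
  rcases subsingleton_or_nontrivial W with hW | hW
  · rw [Sm, finrank_zero_of_subsingleton, Subsingleton.elim (t : End ℂ W) 0]
    simp
  have := hB.fin
  have := Fintype.ofFinite L
  obtain ⟨c, hc⟩ := hH W T hT0
  obtain ⟨r, hr, ht', -⟩ := hc t ht
  have hL : ∀ y ∈ L, ∀ v w, c.inner ((y : End ℂ W) v) ((y : End ℂ W) w) =
      (1 : ℝ) * c.inner v w := fun y hy => by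
    obtain ⟨r', -, h1, h2⟩ := hc y (hLT hy)
    rwa [h2 (L.subtype.isOfFinOrder (isOfFinOrder_of_finite (⟨y, hy⟩ : L)))] at h1
  have han := by
    let _ := c.toNormedAddCommGroup
    let _ := InnerProductSpace.ofCore c.toCore
    exact bigt_an (L := L) (t := t) hr hL ht'
  obtain ⟨h1, h2, h3⟩ := han
  obtain ⟨K, hK1, hK2, hK3⟩ := bigt_K hT hB hF h1 h
  have h4 := bigt_sum (Nat.cast_nonneg _) _ K (hB.idx K hK1 hK2) (fun z => h2 _ z.2) hK3
  have hc : (0 : ℝ) < Fintype.card L := Nat.cast_pos.2 Fintype.card_pos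
  refine le_of_mul_le_mul_right
    (h3.trans ((mul_le_mul_of_nonneg_left h4 (Nat.cast_nonneg _)).trans_eq ?_)) hc
  ring

end Pool.Agent.Work.MP_11a08a_al.Lin
end

-- merged part: Pool.Agent.Work.MP_11a08a_al.Lin.Gram
section
/-!
By `hH`, `A i = ρ i • U i` with `ρ i > 0` and `U i` isometric.  With an orthonormal basis `b` put `⟪a, a'⟫ = ∑ l, ⟪a (b l), a' (b l)⟫`; `⟪U i, U j⟫ = trace ((U i)⁻¹ U j)`, the trace of the inverse is the conjugate, so `Sm` gives `‖⟪U i, U j⟫‖ ^ 2 ≤ τ dim ^ 2 ≤ (dim / (2 k)) ^ 2`, and `⟪U i, U i⟫ = dim`.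
For `B = ∑ γ i • U i`, `γ i = β i ρ i`, `σ = ∑ ‖γ i‖ ^ 2 > 0`: `(∑ ‖γ i‖) ^ 2 ≤ k σ`, so `⟪B, B⟫ ≥ dim σ - dim / (2 k) * k σ = dim σ / 2`.  Upper bound: choose the orthonormal basis adapted to `ker B` and its orthogonal complement (of dimension `rk B`), or write `∑ l, ‖B (b l)‖ ^ 2 = ∑ l, ‖B (p (b l))‖ ^ 2 ≤ (∑ ‖γ i‖) ^ 2 * ∑ l, ‖p (b l)‖ ^ 2`
with the orthogonal projection `p` onto `(ker B)ᗮ`, `∑ l, ‖p (b l)‖ ^ 2 = trace p = rk B`.
To use `hH`: prove a lemma for `[NormedAddCommGroup W] [InnerProductSpace ℂ W]`, then `obtain ⟨c, hc⟩ := hH W T h; let _ := c.toNormedAddCommGroup; let _ := InnerProductSpace.ofCore c.toCore; exact lemma ..` (this typechecks).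
-/

set_option autoImplicit false

open Finset Module Pool.Agent.Work.MP_11a08a_al.Sol
open scoped commutatorElement

namespace Pool.Agent.Work.MP_11a08a_al.Lin

section

variable {W : Type} [NormedAddCommGroup W] [InnerProductSpace ℂ W] [FiniteDimensional ℂ W]

theorem gram_up {n : Type} [Fintype n] (b : OrthonormalBasis n ℂ W) (B : End ℂ W) (s : ℝ)
    (hs : ∀ v, ‖B v‖ ≤ s * ‖v‖) : ∑ l, ‖B (b l)‖ ^ 2 ≤ s ^ 2 * rk B := by
  obtain ⟨K, hK⟩ : ∃ K : Submodule ℂ W, K = (LinearMap.ker B)ᗮ := ⟨_, rfl⟩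
  have h1 : ∀ v, B v = B (K.starProjection v) := fun v => by
    have h := K.sub_starProjection_mem_orthogonal v
    rw [show Kᗮ = LinearMap.ker B by rw [hK, Submodule.orthogonal_orthogonal], LinearMap.mem_ker,
      map_sub] at h
    exact sub_eq_zero.1 h
  have h2 : finrank ℂ K = rk B := by
    have a1 := (LinearMap.ker B).finrank_add_finrank_orthogonal
    have a2 := LinearMap.finrank_range_add_finrank_ker B
    rw [← hK] at a1
    unfold rk
    omega
  have h3 : LinearMap.IsProj K (K.starProjection : W →ₗ[ℂ] W) :=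
    ⟨K.starProjection_apply_mem, fun x hx => K.starProjection_eq_self_iff.2 hx⟩
  have h4 := congrArg Complex.re (h3.trace.symm.trans (LinearMap.trace_eq_sum_inner _ b))
  rw [Complex.natCast_re, Complex.re_sum, h2] at h4
  rw [h4, mul_sum]
  refine sum_le_sum fun l _ => ?_
  have h5 : (inner ℂ (b l) ((K.starProjection : W →ₗ[ℂ] W) (b l))).re =
      ‖K.starProjection (b l)‖ ^ 2 :=
    (inner_re_symm (𝕜 := ℂ) _ _).trans (K.re_inner_starProjection_eq_normSq (b l))
  rw [h5, h1, ← mul_pow]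
  exact pow_le_pow_left₀ (norm_nonneg _) (hs _) 2

omit [FiniteDimensional ℂ W] in
theorem gram_tr {n : Type} [Fintype n] (b : OrthonormalBasis n ℂ W) (a a' : (End ℂ W)ˣ) (r : ℝ)
    (h : ∀ v w, inner ℂ ((a : End ℂ W) v) ((a : End ℂ W) w) = r * inner ℂ v w) :
    ∑ l, inner ℂ ((a : End ℂ W) (b l)) ((a' : End ℂ W) (b l)) =
      r * LinearMap.trace ℂ W ((a⁻¹ * a' : (End ℂ W)ˣ) : End ℂ W) := by
  rw [LinearMap.trace_eq_sum_inner _ b, mul_sum]
  refine sum_congr rfl fun l _ => ?_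
  rw [← h, ← End.mul_apply, ← Units.val_mul, mul_inv_cancel_left]

theorem gram_main {ι : Type} (J : Finset ι) (k : ℕ) (τ : ℝ) (A : ι → (End ℂ W)ˣ) (r : ι → ℝ)
    (hk : J.card ≤ k) (hτ : 4 * (k : ℝ) ^ 2 * τ ≤ 1) (r0 : ∀ i ∈ J, 0 < r i)
    (hr : ∀ i ∈ J, ∀ v w, inner ℂ ((A i : End ℂ W) v) ((A i : End ℂ W) w) = r i * inner ℂ v w)
    (hS : ∀ i ∈ J, ∀ j ∈ J, i ≠ j → Sm τ ((A i)⁻¹ * A j)) (β : ι → ℂ) (hβ : ∃ i ∈ J, β i ≠ 0) :
    finrank ℂ W ≤ 2 * k * rk (∑ i ∈ J, β i • (A i : End ℂ W)) := by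
  classical
  let b := stdOrthonormalBasis ℂ W
  obtain ⟨G, hG⟩ : ∃ G : ι → ι → ℂ, ∀ i j,
      G i j = ∑ l, inner ℂ ((A i : End ℂ W) (b l)) ((A j : End ℂ W) (b l)) := ⟨_, fun _ _ => rfl⟩
  obtain ⟨γ, hγ⟩ : ∃ γ : ι → ℝ, ∀ i, γ i = ‖β i‖ * √(r i) := ⟨_, fun _ => rfl⟩
  have d0 : (0 : ℝ) ≤ finrank ℂ W := Nat.cast_nonneg _
  have k0 : (0 : ℝ) ≤ k := Nat.cast_nonneg _
  have γ0 : ∀ i, 0 ≤ γ i := fun i => by rw [hγ]; positivity
  have g1 : ∀ i ∈ J, G i i = r i * finrank ℂ W := fun i hi => by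
    rw [hG, gram_tr b _ _ _ (hr i hi), inv_mul_cancel, Units.val_one, LinearMap.trace_one]
  have g2 : ∀ i ∈ J, ∀ j ∈ J, i ≠ j →
      2 * k * ‖G i j‖ ≤ √(r i) * √(r j) * finrank ℂ W := fun i hi j hj hij => by
    have a1 : ‖G j i‖ = ‖G i j‖ := by
      rw [← Complex.norm_conj, hG, hG, map_sum]
      simp only [inner_conj_symm]
    have a2 := hS i hi j hj hij
    rw [Sm, mul_inv_rev, inv_inv] at a2
    have a3 : ‖G i j‖ * ‖G j i‖ ≤ r i * r j * (τ * (finrank ℂ W : ℝ) ^ 2) := by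
      rw [hG, hG, gram_tr b _ _ _ (hr i hi), gram_tr b _ _ _ (hr j hj), norm_mul, norm_mul,
        Complex.norm_real, Complex.norm_real, Real.norm_of_nonneg (r0 i hi).le,
        Real.norm_of_nonneg (r0 j hj).le, mul_mul_mul_comm]
      exact mul_le_mul_of_nonneg_left a2 (mul_pos (r0 i hi) (r0 j hj)).le
    refine le_of_sq_le_sq ?_ (by positivity)
    rw [mul_pow, mul_pow _ (finrank ℂ W : ℝ), mul_pow (√(r i)), Real.sq_sqrt (r0 i hi).le,
      Real.sq_sqrt (r0 j hj).le]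
    rw [a1] at a3
    have a4 := mul_le_mul_of_nonneg_left a3 (by positivity : (0 : ℝ) ≤ 4 * (k : ℝ) ^ 2)
    have a5 := mul_le_mul_of_nonneg_left hτ
      (mul_nonneg (mul_pos (r0 i hi) (r0 j hj)).le (sq_nonneg (finrank ℂ W : ℝ)))
    linarith
  have hn : ∀ i ∈ J, ∀ v, ‖(A i : End ℂ W) v‖ = √(r i) * ‖v‖ := fun i hi v => by
    have a1 := congrArg Complex.re (hr i hi v v)
    rw [Complex.re_ofReal_mul, ← RCLike.re_to_complex, ← RCLike.re_to_complex,
      inner_self_eq_norm_sq, inner_self_eq_norm_sq] at a1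
    rw [← Real.sqrt_sq (norm_nonneg ((A i : End ℂ W) v)), a1, Real.sqrt_mul (r0 i hi).le,
      Real.sqrt_sq (norm_nonneg v)]
  have up := gram_up b (∑ i ∈ J, β i • (A i : End ℂ W)) (∑ i ∈ J, γ i) fun v => by
    rw [LinearMap.sum_apply, sum_mul]
    refine norm_sum_le_of_le _ fun i hi => ?_
    rw [LinearMap.smul_apply, norm_smul, hn i hi, hγ, mul_assoc]
  have e1 : ∑ l, ‖(∑ i ∈ J, β i • (A i : End ℂ W)) (b l)‖ ^ 2 =
      ∑ i ∈ J, ∑ j ∈ J, (starRingEnd ℂ (β i) * β j * G i j).re := by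
    simp only [← Complex.re_sum, hG, mul_sum]
    have a1 : ∀ l, ‖(∑ i ∈ J, β i • (A i : End ℂ W)) (b l)‖ ^ 2 = (∑ i ∈ J, ∑ j ∈ J,
        starRingEnd ℂ (β i) * β j * inner ℂ ((A i : End ℂ W) (b l)) ((A j : End ℂ W) (b l))).re := by
      intro l
      rw [← inner_self_eq_norm_sq (𝕜 := ℂ), RCLike.re_to_complex, LinearMap.sum_apply, sum_inner]
      refine congrArg _ (sum_congr rfl fun i _ => ?_)
      rw [inner_sum]
      refine sum_congr rfl fun j _ => ?_
      rw [LinearMap.smul_apply, LinearMap.smul_apply, inner_smul_left, inner_smul_right, mul_assoc]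
    simp only [a1, ← Complex.re_sum]
    refine congrArg _ (sum_comm.trans (sum_congr rfl fun i _ => sum_comm))
  have e2 : ∀ i ∈ J, ∀ j ∈ J, (if i = j then 2 * k * γ i ^ 2 * finrank ℂ W else 0) -
      γ i * γ j * finrank ℂ W ≤ 2 * k * (starRingEnd ℂ (β i) * β j * G i j).re := by
    intro i hi j hj
    split_ifs with hij
    · subst hij
      rw [g1 i hi, Complex.conj_mul', ← Complex.ofReal_pow, ← Complex.ofReal_natCast,
        ← Complex.ofReal_mul, ← Complex.ofReal_mul, Complex.ofReal_re, hγ, mul_pow,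
        Real.sq_sqrt (r0 i hi).le]
      have a1 : 0 ≤ ‖β i‖ * √(r i) * (‖β i‖ * √(r i)) * finrank ℂ W := by positivity
      linarith
    · have a1 := neg_le_of_abs_le (Complex.abs_re_le_norm (starRingEnd ℂ (β i) * β j * G i j))
      rw [norm_mul, norm_mul, Complex.norm_conj] at a1
      have a2 := mul_le_mul_of_nonneg_left a1 (by positivity : (0 : ℝ) ≤ 2 * k)
      have a3 := mul_le_mul_of_nonneg_left (g2 i hi j hj hij)
        (mul_nonneg (norm_nonneg (β i)) (norm_nonneg (β j)))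
      rw [hγ, hγ]
      linarith
  have e3 := sum_le_sum fun i hi => sum_le_sum (e2 i hi)
  simp only [sum_sub_distrib, sum_ite_eq, ← mul_sum, ← sum_mul] at e3
  rw [sum_congr rfl fun i hi => if_pos hi, ← sum_mul, ← mul_sum, ← e1] at e3
  have e4 : (∑ i ∈ J, γ i) ^ 2 ≤ k * ∑ i ∈ J, γ i ^ 2 :=
    sq_sum_le_card_mul_sum_sq.trans (mul_le_mul_of_nonneg_right (Nat.cast_le.2 hk)
      (sum_nonneg fun i _ => sq_nonneg _))
  obtain ⟨i, hi, hb⟩ := hβ
  have s0 : 0 < ∑ i ∈ J, γ i ^ 2 := sum_pos' (fun i _ => sq_nonneg _) ⟨i, hi, by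
    rw [hγ]
    exact pow_pos (mul_pos (norm_pos_iff.2 hb) (Real.sqrt_pos.2 (r0 i hi))) 2⟩
  have k1 : (0 : ℝ) < k := Nat.cast_pos.2 ((card_pos.2 ⟨i, hi⟩).trans_le hk)
  have q0 : (0 : ℝ) ≤ rk (∑ i ∈ J, β i • (A i : End ℂ W)) := Nat.cast_nonneg _
  have e5 := mul_le_mul_of_nonneg_right e4 d0
  have e6 := mul_le_mul_of_nonneg_left (up.trans (mul_le_mul_of_nonneg_right e4 q0))
    (by positivity : (0 : ℝ) ≤ 2 * k)
  have e7 : (finrank ℂ W : ℝ) ≤ 2 * k * rk (∑ i ∈ J, β i • (A i : End ℂ W)) :=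
    le_of_mul_le_mul_left (by linarith) (mul_pos k1 s0)
  exact_mod_cast e7

end

theorem gram (hH : StmtHerm) : StmtGram := by
  intro W _ _ _ T h ι J k τ A hk hτ hA hS β hβ
  obtain ⟨c, hc⟩ := hH W T h
  let _ := c.toNormedAddCommGroup
  let _ := InnerProductSpace.ofCore c.toCore
  have h1 : ∀ i, ∃ r : ℝ, i ∈ J → 0 < r ∧
      ∀ v w, c.inner ((A i : End ℂ W) v) ((A i : End ℂ W) w) = r * c.inner v w := fun i => by
    by_cases hi : i ∈ J
    · obtain ⟨r, a1, a2, -⟩ := hc _ (hA i hi)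
      exact ⟨r, fun _ => ⟨a1, a2⟩⟩
    · exact ⟨0, fun a => absurd a hi⟩
  choose r hr using h1
  exact gram_main J k τ A r hk hτ (fun i hi => (hr i hi).1) (fun i hi => (hr i hi).2) hS β hβ

end Pool.Agent.Work.MP_11a08a_al.Lin
end

-- merged part: Pool.Agent.Work.MP_11a08a_al.Lin.Ind
section
/-!
Make `ρ` unitary by `hH` (for `ρ.toHomUnits.range`).  Lemma: for `γ ≠ 1` the map `A = (card Γ)⁻¹ • ∑ z, ρ (z⁻¹ * γ z)` has `‖A v‖ ^ 2 ≤ 2 τ ‖v‖ ^ 2`.  Indeed `A * ρ (γ z) = ρ z * A`, the adjoint is `A' = (card Γ)⁻¹ • ∑ z, ρ ((γ z)⁻¹ * z)`, so `A' A` is symmetric and commutes with all `ρ x`.  Let `l` be an eigenvalue of `A' A` and `X` its eigenspace: invariant, nonzero, without fixed vectors;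
`l * dim X = trace (A' A on X)` is the average over `z, z'` of the trace on `X` of `ρ ((γ z)⁻¹ z z'⁻¹ γ z')`, which is conjugate to `ρ (u⁻¹ γ u)`, `u = z' z⁻¹`.  `K = {u | u⁻¹ γ u ∈ center}` is a subgroup containing the centre, `K ≠ ⊤` (else `u ↦ u⁻¹ γ u` is a homomorphism from a perfect group to a commutative group), so `‖l‖ ≤ 2 τ` by `tr`, `idx`.
Conclude with an orthonormal eigenbasis (`LinearMap.IsSymmetric.eigenvectorBasis`) or by induction on the dimension.  Then let `γ₀ ∈ J` maximise `‖w γ‖`; apply `ρ (γ₀ y)⁻¹` to the relation and average over `y`: `w γ₀ = - ∑ γ ≠ γ₀, A (γ γ₀⁻¹) (w γ)` (substitute `z = γ₀ y`), each term has norm at most `‖w γ₀‖ / (2 k)`.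
To use `hH`: prove a lemma for `[NormedAddCommGroup W] [InnerProductSpace ℂ W]`, then `obtain ⟨c, hc⟩ := hH W T h; let _ := c.toNormedAddCommGroup; let _ := InnerProductSpace.ofCore c.toCore; exact lemma ..` (this typechecks).
-/

set_option autoImplicit false

open Finset Module Pool.Agent.Work.MP_11a08a_al.Sol
open scoped commutatorElement

namespace Pool.Agent.Work.MP_11a08a_al.Lin

section

variable {Γ : Type} [Group Γ]

open scoped IsMulCommutative in
theorem ind_K (hp : commutator Γ = ⊤) {γ : MulAut Γ} (hγ : γ ≠ 1) :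
    ∃ K : Subgroup Γ, Subgroup.center Γ ≤ K ∧ K ≠ ⊤ ∧
      ∀ u, u ∈ K ↔ u⁻¹ * γ u ∈ Subgroup.center Γ := by
  have key : ∀ u, u ∈ (QuotientGroup.mk' (Subgroup.center Γ)).eqLocus
      ((QuotientGroup.mk' (Subgroup.center Γ)).comp γ.toMonoidHom) ↔
      u⁻¹ * γ u ∈ Subgroup.center Γ := fun u => QuotientGroup.eq
  refine ⟨_, fun u hu => (key u).2 (mul_mem (inv_mem hu) (MulEquivClass.apply_mem_center γ hu)),
    fun h => hγ ?_, key⟩
  have hc : ∀ u, u⁻¹ * γ u ∈ Subgroup.center Γ := fun u => (key u).1 (h ▸ Subgroup.mem_top u)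
  let φ : Γ →* Subgroup.center Γ := MonoidHom.mk' (fun u => ⟨u⁻¹ * γ u, hc u⟩) fun a b =>
    Subtype.ext (by
      change (a * b)⁻¹ * γ (a * b) = a⁻¹ * γ a * (b⁻¹ * γ b)
      rw [← mul_assoc, ← Subgroup.mem_center_iff.1 (hc a) b⁻¹, map_mul, mul_inv_rev]
      simp only [mul_assoc])
  ext u
  have := Abelianization.commutator_subset_ker φ (hp ▸ Subgroup.mem_top u)
  exact (inv_mul_eq_one.1 (congrArg Subtype.val this)).symm

variable [Fintype Γ]

section

variable {W : Type} [AddCommGroup W] [Module ℂ W] (ρ : Representation ℂ Γ W) (γ : MulAut Γ)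

/-- The sum of the operators `ρ (z⁻¹ * γ z)`. -/
noncomputable def ind_S : End ℂ W := ∑ z, ρ (z⁻¹ * γ z)

/-- Its adjoint. -/
noncomputable def ind_T : End ℂ W := ∑ z, ρ ((γ z)⁻¹ * z)

theorem ind_comm (y : Γ) : ind_T ρ γ * ind_S ρ γ * ρ y = ρ y * (ind_T ρ γ * ind_S ρ γ) := by
  obtain ⟨x, rfl⟩ := γ.surjective y
  have h1 : ind_S ρ γ * ρ (γ x) = ρ x * ind_S ρ γ := by
    rw [ind_S, sum_mul, mul_sum]
    refine Fintype.sum_equiv (Equiv.mulRight x) _ _ fun z => ?_
    rw [← map_mul, ← map_mul, Equiv.coe_mulRight, map_mul γ, mul_inv_rev]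
    simp only [mul_assoc, mul_inv_cancel_left]
  have h2 : ρ (γ x) * ind_T ρ γ = ind_T ρ γ * ρ x := by
    rw [ind_T, sum_mul, mul_sum]
    refine (Fintype.sum_equiv (Equiv.mulRight x) _ _ fun z => ?_).symm
    rw [← map_mul, ← map_mul, Equiv.coe_mulRight, map_mul γ, mul_inv_rev]
    simp only [mul_assoc, mul_inv_cancel_left]
  rw [mul_assoc, h1, ← mul_assoc, ← h2, mul_assoc]

end

variable {W : Type} [NormedAddCommGroup W] [InnerProductSpace ℂ W] [FiniteDimensional ℂ W]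
  {ρ : Representation ℂ Γ W} {γ : MulAut Γ} {τ : ℝ}

theorem ind_tr (f : End ℂ W) (h : ∀ v w, inner ℂ (f v) (f w) = inner ℂ v w) :
    ‖LinearMap.trace ℂ W f‖ ≤ finrank ℂ W := by
  rw [LinearMap.trace_eq_sum_inner f (stdOrthonormalBasis ℂ W)]
  refine (norm_sum_le _ _).trans ((sum_le_card_nsmul _ _ 1 fun i _ => ?_).trans (by simp))
  refine (norm_inner_le_norm _ _).trans ?_
  rw [norm_eq_sqrt_re_inner (𝕜 := ℂ) (f _), h, ← norm_eq_sqrt_re_inner,
    (stdOrthonormalBasis ℂ W).orthonormal.1 i, mul_one]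

theorem ind_trace (hB : BigG τ Γ) (hU : ∀ x v w, inner ℂ (ρ x v) (ρ x w) = inner ℂ v w)
    (h0 : ∀ v, (∀ x, ρ x v = v) → v = 0) (hγ : γ ≠ 1) :
    ‖LinearMap.trace ℂ W (ind_T ρ γ * ind_S ρ γ)‖ ≤
      2 * τ * (Fintype.card Γ : ℝ) ^ 2 * finrank ℂ W := by
  classical
  obtain ⟨K, k1, k2, k3⟩ := ind_K hB.perf hγ
  have hi := hB.idx K k1 k2
  have hτ : 0 ≤ τ := by
    by_contra h
    have := mul_nonpos_of_nonpos_of_nonneg (not_le.1 h).le (Nat.cast_nonneg (α := ℝ) K.index)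
    linarith
  have hd : (0 : ℝ) ≤ finrank ℂ W := Nat.cast_nonneg _
  have hK : ((univ.filter fun u => u ∈ K).card : ℝ) ≤ τ * Fintype.card Γ := by
    have h1 : (univ.filter fun u => u ∈ K).card = Nat.card K := by
      rw [Nat.card_eq_fintype_card, Fintype.card_subtype]
    rw [h1, ← Nat.card_eq_fintype_card, ← K.card_mul_index, Nat.cast_mul]
    have := mul_le_mul_of_nonneg_left hi (Nat.cast_nonneg (α := ℝ) (Nat.card K))
    linarith
  have h1 : ∑ u, ‖LinearMap.trace ℂ W (ρ (u⁻¹ * γ u))‖ ≤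
      2 * τ * Fintype.card Γ * finrank ℂ W := by
    have h2 : ∀ u ∈ univ, ‖LinearMap.trace ℂ W (ρ (u⁻¹ * γ u))‖ ≤
        (if u ∈ K then (finrank ℂ W : ℝ) else 0) + τ * finrank ℂ W := fun u _ => by
      split_ifs with h
      · exact (ind_tr _ (hU _)).trans (le_add_of_nonneg_right (mul_nonneg hτ hd))
      · rw [zero_add]
        exact hB.tr W ρ h0 _ fun h' => h ((k3 u).2 h')
    refine (sum_le_sum h2).trans ?_
    rw [sum_add_distrib, ← sum_filter, sum_const, sum_const, nsmul_eq_mul, nsmul_eq_mul, card_univ]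
    have := mul_le_mul_of_nonneg_right hK hd
    linarith
  rw [ind_T, sum_mul, map_sum]
  refine (norm_sum_le _ _).trans ((sum_le_card_nsmul _ _
    (2 * τ * Fintype.card Γ * finrank ℂ W) fun z _ => ?_).trans (le_of_eq ?_))
  · rw [ind_S, mul_sum, map_sum]
    refine (norm_sum_le _ _).trans ((le_of_eq ?_).trans h1)
    refine (Fintype.sum_equiv (Equiv.mulRight z) _ _ fun u => ?_).symm
    have h3 : (γ z)⁻¹ * z * ((u * z)⁻¹ * γ (u * z)) = (γ z)⁻¹ * (u⁻¹ * γ u * γ z) := by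
      rw [map_mul γ, mul_inv_rev]
      simp only [mul_assoc, mul_inv_cancel_left]
    rw [Equiv.coe_mulRight, ← map_mul, h3, map_mul ρ (γ z)⁻¹, LinearMap.trace_mul_comm, ← map_mul,
      mul_inv_cancel_right]
  · rw [nsmul_eq_mul, card_univ]
    ring

theorem ind_eig (hB : BigG τ Γ) (hU : ∀ x v w, inner ℂ (ρ x v) (ρ x w) = inner ℂ v w)
    (h0 : ∀ v, (∀ x, ρ x v = v) → v = 0) (hγ : γ ≠ 1) {l : ℂ}
    (hl : End.HasEigenvalue (ind_T ρ γ * ind_S ρ γ) l) :
    ‖l‖ ≤ 2 * τ * (Fintype.card Γ : ℝ) ^ 2 := by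
  obtain ⟨X, hX⟩ : ∃ X, X = End.eigenspace (ind_T ρ γ * ind_S ρ γ) l := ⟨_, rfl⟩
  have hm : ∀ v, v ∈ X ↔ (ind_T ρ γ * ind_S ρ γ) v = l • v := fun v => by
    rw [hX, End.mem_eigenspace_iff]
  have hi : ∀ g, X ≤ X.comap (ρ g) := fun g v hv => (hm _).2 (by
    rw [← End.mul_apply, ind_comm, End.mul_apply, (hm v).1 hv, map_smul])
  have h1 := ind_trace (ρ := ρ.subrepresentation X hi) hB (fun x v w => hU x v w)
    (fun v hv => Subtype.ext (h0 v fun x => congrArg Subtype.val (hv x))) hγ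
  have hs : ∀ (a : Γ → Γ) (v : X), ((∑ z, ρ.subrepresentation X hi (a z)) v : W) =
      (∑ z, ρ (a z)) v := fun a v => by
    rw [LinearMap.sum_apply, LinearMap.sum_apply, Submodule.coe_sum]
    rfl
  have h2 : ind_T (ρ.subrepresentation X hi) γ * ind_S (ρ.subrepresentation X hi) γ = l • 1 := by
    ext v
    rw [End.mul_apply, ind_T, hs, ind_S, hs]
    exact (hm v).1 v.2
  rw [h2, map_smul, LinearMap.trace_one, smul_eq_mul, norm_mul, Complex.norm_natCast] at h1
  refine le_of_mul_le_mul_right h1 (Nat.cast_pos.2 (Nat.pos_of_ne_zero fun h => ?_))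
  exact End.hasEigenvalue_iff.1 hl (hX ▸ Submodule.finrank_eq_zero.1 h)

theorem ind_norm (hB : BigG τ Γ) (hU : ∀ x v w, inner ℂ (ρ x v) (ρ x w) = inner ℂ v w)
    (h0 : ∀ v, (∀ x, ρ x v = v) → v = 0) (hγ : γ ≠ 1) (v : W) :
    ‖ind_S ρ γ v‖ ^ 2 ≤ 2 * τ * (Fintype.card Γ : ℝ) ^ 2 * ‖v‖ ^ 2 := by
  have ha : ∀ v w, inner ℂ (ind_S ρ γ v) w = inner ℂ v (ind_T ρ γ w) := fun v w => by
    rw [ind_S, ind_T, LinearMap.sum_apply, LinearMap.sum_apply, sum_inner, inner_sum]
    refine sum_congr rfl fun z _ => ?_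
    rw [← hU (z⁻¹ * γ z) v, ← End.mul_apply, ← map_mul]
    simp
  have hs : LinearMap.IsSymmetric (ind_T ρ γ * ind_S ρ γ) := fun v w => by
    rw [End.mul_apply, End.mul_apply, ← ha, ← inner_conj_symm, ← ha, inner_conj_symm]
  have h1 : ‖ind_S ρ γ v‖ ^ 2 = ‖inner ℂ v ((ind_T ρ γ * ind_S ρ γ) v)‖ := by
    rw [End.mul_apply, ← ha, inner_self_eq_norm_sq_to_K, norm_pow, RCLike.norm_ofReal, abs_norm]
  rw [h1, ← (hs.eigenvectorBasis rfl).sum_inner_mul_inner,
    ← (hs.eigenvectorBasis rfl).sum_sq_norm_inner_right v, mul_sum]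
  refine (norm_sum_le _ _).trans (sum_le_sum fun i _ => ?_)
  rw [← hs, hs.apply_eigenvectorBasis, inner_smul_left, norm_mul, norm_mul, norm_inner_symm v,
    RCLike.norm_conj, mul_left_comm, ← sq]
  exact mul_le_mul_of_nonneg_right (ind_eig hB hU h0 hγ (hs.hasEigenvalue_eigenvalues rfl i))
    (sq_nonneg _)

theorem ind_main (hB : BigG τ Γ) (hU : ∀ x v w, inner ℂ (ρ x v) (ρ x w) = inner ℂ v w)
    (h0 : ∀ v, (∀ x, ρ x v = v) → v = 0) (J : Finset (MulAut Γ)) (k : ℕ) (w : MulAut Γ → W)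
    (hk : J.card ≤ k) (hτ : 8 * (k : ℝ) ^ 2 * τ ≤ 1) (h : ∀ y, ∑ γ ∈ J, ρ (γ y) (w γ) = 0) :
    ∀ γ ∈ J, w γ = 0 := by
  classical
  intro γ₁ h₁
  obtain ⟨γ₀, h₀, hmax⟩ := exists_max_image J (fun γ => ‖w γ‖) ⟨γ₁, h₁⟩
  have hN : (0 : ℝ) < Fintype.card Γ := Nat.cast_pos.2 Fintype.card_pos
  have hk0 : (0 : ℝ) < k := Nat.cast_pos.2 ((card_pos.2 ⟨γ₁, h₁⟩).trans_le hk)
  have h1 : ∑ γ ∈ J, ind_S ρ (γ * γ₀⁻¹) (w γ) = 0 := by
    simp only [ind_S, LinearMap.sum_apply]
    rw [sum_comm]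
    refine sum_eq_zero fun z _ => ?_
    simp only [map_mul, End.mul_apply, MulAut.mul_apply]
    rw [← map_sum, h, map_zero]
  rw [← add_sum_erase J _ h₀, mul_inv_cancel, add_eq_zero_iff_eq_neg] at h1
  have h2 : ‖ind_S ρ 1 (w γ₀)‖ = Fintype.card Γ * ‖w γ₀‖ := by
    simp [ind_S, ← Nat.cast_smul_eq_nsmul ℂ, norm_smul]
  have h3 : ∀ γ ∈ J.erase γ₀, ‖ind_S ρ (γ * γ₀⁻¹) (w γ)‖ ≤
      Fintype.card Γ * ‖w γ₀‖ / (2 * k) := fun γ hγ => by
    have h4 := ind_norm hB hU h0 (mul_inv_eq_one.not.2 (ne_of_mem_erase hγ)) (w γ)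
    rw [le_div_iff₀ (by positivity)]
    refine le_trans (le_of_sq_le_sq (b := Fintype.card Γ * ‖w γ‖) ?_ (by positivity))
      (mul_le_mul_of_nonneg_left (hmax γ (mem_of_mem_erase hγ)) hN.le)
    have h5 := mul_le_mul_of_nonneg_right h4 (sq_nonneg (2 * (k : ℝ)))
    have h6 := mul_le_mul_of_nonneg_right hτ (sq_nonneg (Fintype.card Γ * ‖w γ‖))
    linarith
  have h4 := (norm_sum_le _ _).trans (sum_le_card_nsmul _ _ _ h3)
  rw [← norm_neg, ← h1, h2, nsmul_eq_mul, ← mul_div_assoc, le_div_iff₀ (by positivity)] at h4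
  have h5 : ((J.erase γ₀).card : ℝ) ≤ k := Nat.cast_le.2 (card_erase_le.trans hk)
  have h6 := mul_le_mul_of_nonneg_right h5 (mul_nonneg hN.le (norm_nonneg (w γ₀)))
  have h7 : k * Fintype.card Γ * ‖w γ₀‖ ≤ 0 := by linarith
  exact norm_le_zero_iff.1 ((hmax γ₁ h₁).trans (nonpos_of_mul_nonpos_right h7 (mul_pos hk0 hN)))

end

theorem indS (hH : StmtHerm) : StmtInd := by
  intro τ Γ W _ _ _ _ ρ J k w hB h0 hk hτ h
  have := hB.fin
  let _ := Fintype.ofFinite Γ
  have : Finite ρ.toHomUnits.range := .of_surjective _ ρ.toHomUnits.rangeRestrict_surjective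
  obtain ⟨c, hc⟩ := hH W ρ.toHomUnits.range Subgroup.index_ne_zero_of_finite
  let _ := c.toNormedAddCommGroup
  let _ := InnerProductSpace.ofCore c.toCore
  refine ind_main hB (fun x u v => ?_) h0 J k w hk hτ h
  obtain ⟨r, -, h1, h2⟩ := hc _ ⟨x, rfl⟩
  have h3 := h1 u v
  rw [h2 (ρ.toHomUnits.isOfFinOrder (isOfFinOrder_of_finite x)), Complex.ofReal_one, one_mul] at h3
  exact h3

end Pool.Agent.Work.MP_11a08a_al.Lin
end

-- merged part: Pool.Agent.Work.MP_11a08a_al.Lin.High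
section
/-!
Suppose `Fx N₀ ≠ ⊥`, `N₀ ∈ 𝓝 L₀ s`.  By `hH` for `S` the elements of the finite groups `L ∈ C` are unitary.  Call `X : Subgroup → Subgroup` admissible if for each `L ∈ C` either `X L = ⊥` or `X L ≤ L` and `Ncl N (X L)` for some `N ∈ 𝓝 L s`, and `Fx (C.sup X) ≠ ⊥`.  The tuple with `N₀` at `L₀` and `⊥` elsewhere is admissible.
Call `X` maximal if it maximises `∑ L ∈ C, card (X L)` (bounded; `Nat.findGreatest` or `Nat.find`); a maximal `X` has some `X L ≠ ⊥`.  For `g ∈ S` the tuple `L ↦ str_cj g (X (str_cj g⁻¹ L))` is maximal again (`inv`, `Finset.sum_bij`), with fixed space `(Fx (C.sup X)).map g`.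
Claim: if `X, X'` are maximal and differ at some `L ∈ C`, then `n ‖⟪u, u'⟫‖ ^ 4 ≤ 4 ‖u‖ ^ 4 ‖u'‖ ^ 4` for `u ∈ Fx (C.sup X)`, `u' ∈ Fx (C.sup X')`.  With `J = X L ⊔ X' L` we may assume `J ≠ X' L` (else exchange).  If `N ∈ 𝓝 L s`, `N'' ≤ N`, `N'' ∈ 𝓝 L n` and `Ncl N B` then `Ncl N'' B` (for `M` normal in `B` containing `N''`, `qs` for `M ⊓ N`; it cannot centralise `N` as `N''` is perfect and nontrivial).
So if both entries are nontrivial, `inter` gives `N''` with `Ncl N'' (X L)`, `Ncl N'' (X' L)`, and `Ncl N' J`.  The tuple `update X' L J` has a larger sum, so its fixed space is `⊥`.  The average `p` of `u'` over `J` is fixed by `J` and by the `X' L'`, `L' ≠ L` (they commute with `J` and fix `u'`), so `p = 0`, and `u' ∈ (Fx J)ᗮ`.  If `X' L = ⊥` then `u ∈ Fx J`; else `hA` with `blk`.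
As `4 q ^ 4 < n`, `q ‖⟪u, u'⟫‖ < ‖u‖ ‖u'‖` for nonzero `u, u'`; at most `q` subspaces with this property are independent (in a vanishing sum take the term of largest norm; `Finset.supIndep_iff_disjoint_erase`, `Submodule.mem_iSup_finset_iff_exists_sum`).  So `QPrim` gives `Fx (C.sup X) = ⊤`, all `X L = ⊥`, a contradiction.
To use `hH`: prove a lemma for `[NormedAddCommGroup W] [InnerProductSpace ℂ W]`, then `obtain ⟨c, hc⟩ := hH W T h; let _ := c.toNormedAddCommGroup; let _ := InnerProductSpace.ofCore c.toCore; exact lemma ..` (this typechecks).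
-/

set_option autoImplicit false

open Finset Module Pool.Agent.Work.MP_11a08a_al.Sol
open scoped commutatorElement

namespace Pool.Agent.Work.MP_11a08a_al.Lin

theorem high_ncl_cj {G : Type} [Group G] (g : G) {N B : Subgroup G} (h : Ncl N B) :
    Ncl (str_cj g N) (str_cj g B) := by
  refine ⟨str_cj_mono h.1, fun M h1 h2 h3 => ?_⟩
  rw [← h.2 (str_cj g⁻¹ M) ?_ ?_ ?_, str_cj_inv']
  · rw [← str_cj_inv g N]
    exact str_cj_mono h1
  · rw [← str_cj_inv g B]
    exact str_cj_mono h2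
  · intro b hb x hx
    rw [str_mem_cj] at hx ⊢
    have := h3 (g * b * g⁻¹) (str_mem_cj.2 (by simpa [mul_assoc] using hb)) _ hx
    simpa [mul_assoc] using this

theorem high_ncl_sup {G : Type} [Group G] {N B B' : Subgroup G} (h : Ncl N B) (h' : Ncl N B')
    {N' : Subgroup G} (h1 : N ≤ N') (h2 : N' ≤ B') : Ncl N' (B ⊔ B') := by
  refine ⟨h2.trans le_sup_right, fun M m1 m2 m3 => le_antisymm m2 (sup_le ?_ ?_)⟩
  · exact inf_eq_right.1 (h.2 (M ⊓ B) (le_inf (h1.trans m1) h.1) inf_le_right fun b hb x hx =>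
      ⟨m3 b (Subgroup.mem_sup_left hb) x hx.1, B.mul_mem (B.mul_mem hb hx.2) (B.inv_mem hb)⟩)
  · exact inf_eq_right.1 (h'.2 (M ⊓ B') (le_inf (h1.trans m1) h'.1) inf_le_right fun b hb x hx =>
      ⟨m3 b (Subgroup.mem_sup_right hb) x hx.1, B'.mul_mem (B'.mul_mem hb hx.2) (B'.inv_mem hb)⟩)

section

variable {W : Type} [AddCommGroup W] [Module ℂ W]

theorem high_down {n : ℕ} {L N N' B : Subgroup (End ℂ W)ˣ} {𝓝 : ℕ → Set (Subgroup (End ℂ W)ˣ)}
    (hL : Std n L 𝓝) (hN : N ∈ 𝓝 n) (hN' : N' ∈ 𝓝 n) (h1 : N' ≤ N) (h : Ncl N B) : Ncl N' B := by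
  refine ⟨h1.trans h.1, fun M m1 m2 m3 => ?_⟩
  rcases hL.qs N hN (M ⊓ N) inf_le_right (fun a ha x hx =>
    ⟨m3 a (h.1 ha) x hx.1, N.mul_mem (N.mul_mem ha hx.2) (N.inv_mem ha)⟩) with h2 | h2
  · refine absurd ?_ (hL.perf N' hN').2
    rw [← (hL.perf N' hN').1, Subgroup.commutator_eq_bot_iff_le_centralizer]
    exact ((le_inf m1 h1).trans h2).trans (Subgroup.centralizer_le h1)
  · exact h.2 M (inf_eq_right.1 h2) m2 m3

/-- An entry of an admissible tuple. -/
def high_Ent (𝓝 : ℕ → Set (Subgroup (End ℂ W)ˣ)) (s : ℕ) (L B : Subgroup (End ℂ W)ˣ) : Prop :=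
  B = ⊥ ∨ (B ≤ L ∧ ∃ N ∈ 𝓝 s, Ncl N B)

theorem high_Ent.le {𝓝 : ℕ → Set (Subgroup (End ℂ W)ˣ)} {s : ℕ} {L B : Subgroup (End ℂ W)ˣ}
    (h : high_Ent 𝓝 s L B) : B ≤ L := by
  rcases h with rfl | h
  exacts [bot_le, h.1]

variable (C : Finset (Subgroup (End ℂ W)ˣ))
  (𝓝 : Subgroup (End ℂ W)ˣ → ℕ → Set (Subgroup (End ℂ W)ˣ)) (s : ℕ)

/-- The common fixed vectors of a tuple. -/
def high_F (X : Subgroup (End ℂ W)ˣ → Subgroup (End ℂ W)ˣ) : Submodule ℂ W := ⨅ L ∈ C, Fx (X L)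

theorem high_mem {X : Subgroup (End ℂ W)ˣ → Subgroup (End ℂ W)ˣ} {w : W} :
    w ∈ high_F C X ↔ ∀ L ∈ C, ∀ y ∈ X L, (y : End ℂ W) w = w := by
  simp only [high_F, Submodule.mem_iInf]
  rfl

/-- Admissible tuples. -/
def high_Adm (X : Subgroup (End ℂ W)ˣ → Subgroup (End ℂ W)ˣ) : Prop :=
  (∀ L ∈ C, high_Ent (𝓝 L) s L (X L)) ∧ (∃ L ∈ C, X L ≠ ⊥) ∧ high_F C X ≠ ⊥

/-- The size of a tuple. -/
noncomputable def high_mu (X : Subgroup (End ℂ W)ˣ → Subgroup (End ℂ W)ˣ) : ℕ :=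
  ∑ L ∈ C, Nat.card (X L)

/-- Maximal tuples. -/
def high_Max (X : Subgroup (End ℂ W)ˣ → Subgroup (End ℂ W)ˣ) : Prop :=
  high_Adm C 𝓝 s X ∧ ∀ X', high_Adm C 𝓝 s X' → high_mu C X' ≤ high_mu C X

/-- The conjugate of a tuple. -/
def high_cj (g : (End ℂ W)ˣ) (X : Subgroup (End ℂ W)ˣ → Subgroup (End ℂ W)ˣ) :
    Subgroup (End ℂ W)ˣ → Subgroup (End ℂ W)ˣ := fun L => str_cj g (X (str_cj g⁻¹ L))

variable {C 𝓝 s} {n : ℕ} {S : Subgroup (End ℂ W)ˣ}

theorem high_F_cj {g : (End ℂ W)ˣ} (hg : NmC g C) (X : Subgroup (End ℂ W)ˣ → Subgroup (End ℂ W)ˣ) :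
    high_F C (high_cj g X) = (high_F C X).map (g : End ℂ W) := by
  have e1 : ∀ w, (g : End ℂ W) (((g⁻¹ : (End ℂ W)ˣ) : End ℂ W) w) = w := fun w => by
    rw [← Module.End.mul_apply, Units.mul_inv, Module.End.one_apply]
  have e2 : ∀ w, ((g⁻¹ : (End ℂ W)ˣ) : End ℂ W) ((g : End ℂ W) w) = w := fun w => by
    rw [← Module.End.mul_apply, Units.inv_mul, Module.End.one_apply]
  apply le_antisymm
  · refine fun w hw => ⟨_, (high_mem C).2 fun L hL z hz => ?_, e1 w⟩
    have h1 := (high_mem C).1 hw (str_cj g L) (hg L hL).1 (g * z * g⁻¹) (by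
      rw [high_cj, str_cj_inv, str_mem_cj]
      simpa [mul_assoc] using hz)
    have h2 := congrArg ((g⁻¹ : (End ℂ W)ˣ) : End ℂ W) h1
    rwa [Units.val_mul, Units.val_mul, Module.End.mul_apply, Module.End.mul_apply, e2] at h2
  · rintro _ ⟨w, hw, rfl⟩
    refine (high_mem C).2 fun L hL y hy => ?_
    have h1 := congrArg (g : End ℂ W)
      ((high_mem C).1 hw (str_cj g⁻¹ L) (hg L hL).2 _ (str_mem_cj.1 hy))
    rwa [Units.val_mul, Units.val_mul, Module.End.mul_apply, Module.End.mul_apply, e1] at h1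

theorem high_max_cj (hF : Fam n S C 𝓝) (hs : s ≤ n) {g : (End ℂ W)ˣ} (hg : g ∈ S)
    {X : Subgroup (End ℂ W)ˣ → Subgroup (End ℂ W)ˣ} (h : high_Max C 𝓝 s X) :
    high_Max C 𝓝 s (high_cj g X) := by
  have hN := hF.nC g hg
  have hi : Function.Injective (MulAut.conj g).toMonoidHom := (MulAut.conj g).injective
  obtain ⟨⟨h1, ⟨L₀, hL₀, h2⟩, h3⟩, h4⟩ := h
  refine ⟨⟨fun L hL => ?_, ⟨str_cj g L₀, (hN L₀ hL₀).1, ?_⟩, ?_⟩, fun X' hX' =>
    (h4 X' hX').trans (le_of_eq ?_)⟩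
  · rcases h1 (str_cj g⁻¹ L) (hN L hL).2 with e | ⟨e, N, hN', e'⟩
    · exact Or.inl (by rw [high_cj, e, str_cj, Subgroup.map_bot])
    · have h5 := hF.inv g hg (str_cj g⁻¹ L) (hN L hL).2 s hs N hN'
      have h6 := str_cj_mono (t := g) e
      rw [str_cj_inv'] at h5 h6
      exact Or.inr ⟨h6, _, h5, high_ncl_cj g e'⟩
  · rw [high_cj, str_cj_inv]
    exact fun e => h2 ((Subgroup.map_eq_bot_iff_of_injective _ hi).1 e)
  · rw [high_F_cj hN]
    intro e
    refine h3 ((Submodule.eq_bot_iff _).2 fun w hw => ?_)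
    have h5 := congrArg ((g⁻¹ : (End ℂ W)ˣ) : End ℂ W)
      ((Submodule.eq_bot_iff _).1 e _ ⟨w, hw, rfl⟩)
    rwa [← Module.End.mul_apply, Units.inv_mul, Module.End.one_apply, map_zero] at h5
  · refine Finset.sum_nbij' (str_cj g) (str_cj g⁻¹) (fun L hL => (hN L hL).1)
      (fun L hL => (hN L hL).2) (fun L _ => str_cj_inv g L) (fun L _ => str_cj_inv' g L)
      fun L _ => ?_
    rw [high_cj, str_cj_inv]
    exact (Subgroup.card_map_of_injective hi).symm

theorem high_exists (hF : Fam n S C 𝓝) (hs : s ≤ n) {L N : Subgroup (End ℂ W)ˣ} (hL : L ∈ C)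
    (hN : N ∈ 𝓝 L s) (h : Fx N ≠ ⊥) : ∃ X, high_Max C 𝓝 s X := by
  classical
  have h1 : high_Adm C 𝓝 s (Function.update (fun _ => ⊥) L N) := by
    refine ⟨fun L' hL' => ?_, ⟨L, hL, ?_⟩, fun e => h (le_bot_iff.1 (e ▸ fun w hw => ?_))⟩
    · by_cases e : L' = L
      · rw [e, Function.update_self]
        exact Or.inr ⟨(hF.std L hL).le s N hN, N, hN, le_rfl, fun M m1 m2 _ => le_antisymm m2 m1⟩
      · exact Or.inl (Function.update_of_ne e _ _)
    · rw [Function.update_self]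
      exact ((hF.std L hL).perf N ((hF.std L hL).mono s n hs hN)).2
    · refine (high_mem C).2 fun L' _ y hy => ?_
      by_cases e : L' = L
      · rw [e, Function.update_self] at hy
        exact hw y hy
      · rw [Function.update_of_ne e, Subgroup.mem_bot] at hy
        rw [hy]
        rfl
  have h2 : BddAbove (high_mu C '' {X | high_Adm C 𝓝 s X}) := by
    refine ⟨∑ L ∈ C, Nat.card L, ?_⟩
    rintro _ ⟨X, hX, rfl⟩
    refine Finset.sum_le_sum fun L' hL' => ?_
    have := (hF.std L' hL').fin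
    exact Subgroup.card_le_of_le (hX.1 L' hL').le
  obtain ⟨X, hX, e⟩ :=
    Nat.sSup_mem (⟨_, _, h1, rfl⟩ : (high_mu C '' {X | high_Adm C 𝓝 s X}).Nonempty) h2
  exact ⟨X, hX, fun X' hX' => e ▸ le_csSup h2 ⟨X', hX', rfl⟩⟩

theorem high_upd (hF : Fam n S C 𝓝) [DecidableEq (Subgroup (End ℂ W)ˣ)]
    {X : Subgroup (End ℂ W)ˣ → Subgroup (End ℂ W)ˣ} (h : high_Max C 𝓝 s X)
    {L J : Subgroup (End ℂ W)ˣ} (hL : L ∈ C) (hJ : high_Ent (𝓝 L) s L J) (h1 : X L < J) :
    high_F C (Function.update X L J) = ⊥ := by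
  by_contra e
  have h2 := h.2 (Function.update X L J) ⟨fun L' hL' => by
    by_cases e : L' = L
    · rw [e, Function.update_self]
      exact hJ
    · rw [Function.update_of_ne e]
      exact h.1.1 L' hL', ⟨L, hL, by
        rw [Function.update_self]
        exact h1.ne_bot⟩, e⟩
  have := (hF.std L hL).fin
  have : Finite J := Finite.of_injective _ (Subgroup.inclusion_injective hJ.le)
  refine absurd h2 (not_le.2 (Finset.sum_lt_sum (fun L' _ => ?_) ⟨L, hL, ?_⟩))
  · by_cases e : L' = L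
    · rw [e, Function.update_self]
      exact Subgroup.card_le_of_le h1.le
    · rw [Function.update_of_ne e]
  · rw [Function.update_self]
    exact not_le.1 fun h3 => h1.ne (Subgroup.eq_of_le_of_card_ge h1.le h3)

end

section

variable {W : Type} [NormedAddCommGroup W] [InnerProductSpace ℂ W]

theorem high_ind {q : ℕ} (X : Finset (Submodule ℂ W)) (hq : X.card ≤ q)
    (h : ∀ U ∈ X, ∀ U' ∈ X, U ≠ U' → ∀ u ∈ U, ∀ u' ∈ U', q * ‖inner ℂ u u'‖ ≤ ‖u‖ * ‖u'‖) :
    X.SupIndep id := by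
  classical
  refine iSupIndep.supIndep
    ((iSupIndep_iff_finsetSum_eq_zero_imp_eq_zero _).2 fun s v hv h0 i hi => ?_)
  obtain ⟨k, hk, hmax⟩ := s.exists_max_image (fun i => ‖v i‖) ⟨i, hi⟩
  by_contra hne
  have ha : 0 < ‖v k‖ := (norm_pos_iff.2 hne).trans_le (hmax i hi)
  have e1 : inner ℂ (v k) (v k) = -∑ j ∈ s.erase k, inner ℂ (v k) (v j) := by
    rw [eq_neg_iff_add_eq_zero, Finset.add_sum_erase s (fun j => inner ℂ (v k) (v j)) hk,
      ← inner_sum, h0, inner_zero_right]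
  have h1 : ‖v k‖ * ‖v k‖ ≤ ∑ j ∈ s.erase k, ‖inner ℂ (v k) (v j)‖ := by
    rw [← inner_self_eq_norm_mul_norm (𝕜 := ℂ), inner_self_re_eq_norm, e1, norm_neg]
    exact norm_sum_le _ _
  have h2 : q * ∑ j ∈ s.erase k, ‖inner ℂ (v k) (v j)‖ ≤ (s.erase k).card • (‖v k‖ * ‖v k‖) := by
    rw [Finset.mul_sum]
    refine Finset.sum_le_card_nsmul _ _ _ fun j hj => ?_
    obtain ⟨h3, h4⟩ := Finset.mem_erase.1 hj
    exact (h _ k.2 _ j.2 (fun e => h3 (Subtype.ext e.symm)) _ (hv k hk) _ (hv j h4)).trans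
      (mul_le_mul_of_nonneg_left (hmax j h4) ha.le)
  have h3 : (s.erase k).card < q :=
    (Finset.card_erase_lt_of_mem hk).trans_le ((Finset.card_le_univ s).trans (by simpa using hq))
  have h4 : ((s.erase k).card : ℝ) < q := by exact_mod_cast h3
  rw [nsmul_eq_mul] at h2
  have h5 := (mul_le_mul_of_nonneg_left h1 (Nat.cast_nonneg q)).trans h2
  exact absurd (le_of_mul_le_mul_right h5 (mul_pos ha ha)) (not_le.2 h4)

theorem high_orth {J : Subgroup (End ℂ W)ˣ} [Finite J]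
    (hU : ∀ y ∈ J, ∀ v w, inner ℂ ((y : End ℂ W) v) ((y : End ℂ W) w) = inner ℂ v w) (u : W) :
    ∃ p ∈ Fx J, (p = 0 → u ∈ (Fx J)ᗮ) ∧
      ∀ y : (End ℂ W)ˣ, (∀ x ∈ J, y * x = x * y) → (y : End ℂ W) u = u → (y : End ℂ W) p = p := by
  have := Fintype.ofFinite J
  refine ⟨∑ j : J, (j.1 : End ℂ W) u, fun y hy => ?_, fun h0 => ?_, fun y h1 h2 => ?_⟩
  · rw [map_sum]
    exact Fintype.sum_equiv (Equiv.mulLeft (⟨y, hy⟩ : J)) _ _ fun j => rfl
  · refine (Submodule.mem_orthogonal _ _).2 fun v hv => ?_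
    have h1 : inner ℂ v (∑ j : J, (j.1 : End ℂ W) u) = Fintype.card J • inner ℂ v u := by
      rw [inner_sum, ← Finset.card_univ, ← Finset.sum_const]
      refine Finset.sum_congr rfl fun j _ => ?_
      rw [← hU j.1 j.2 v u, hv j.1 j.2]
    rw [h0, inner_zero_right, nsmul_eq_mul] at h1
    exact (mul_eq_zero.1 h1.symm).resolve_left (Nat.cast_ne_zero.2 Fintype.card_ne_zero)
  · rw [map_sum]
    refine Finset.sum_congr rfl fun j _ => ?_
    rw [← Module.End.mul_apply, ← Units.val_mul, h1 j.1 j.2, Units.val_mul, Module.End.mul_apply,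
      h2]

variable [FiniteDimensional ℂ W] {C : Finset (Subgroup (End ℂ W)ˣ)}
  {𝓝 : Subgroup (End ℂ W)ˣ → ℕ → Set (Subgroup (End ℂ W)ˣ)} {s n d : ℕ} {S : Subgroup (End ℂ W)ˣ}

theorem high_ang (hA : StmtAng) (hC : Comp d C) (hF : Fam n S C 𝓝) (hs : 4 * s ≤ n)
    (hU : ∀ L ∈ C, ∀ y ∈ L, ∀ v w, inner ℂ ((y : End ℂ W) v) ((y : End ℂ W) w) = inner ℂ v w)
    {X X' : Subgroup (End ℂ W)ˣ → Subgroup (End ℂ W)ˣ} (h : high_Max C 𝓝 s X)
    (h' : high_Max C 𝓝 s X') {L : Subgroup (End ℂ W)ˣ} (hL : L ∈ C) (hne : ¬ X L ≤ X' L) {u u' : W}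
    (hu : u ∈ high_F C X) (hu' : u' ∈ high_F C X') :
    n * ‖inner ℂ u u'‖ ^ 4 ≤ 4 * ‖u‖ ^ 4 * ‖u'‖ ^ 4 := by
  classical
  have hS := hF.std L hL
  have hJ : X L ⊔ X' L ≤ L := sup_le (h.1.1 L hL).le (h'.1.1 L hL).le
  have := hS.fin
  have hfin : Finite ↥(X L ⊔ X' L) := Finite.of_injective _ (Subgroup.inclusion_injective hJ)
  have key : high_Ent (𝓝 L) s L (X L ⊔ X' L) → u' ∈ (Fx (X L ⊔ X' L))ᗮ := fun hE => by
    obtain ⟨p, p1, p2, p3⟩ := high_orth (fun y hy => hU L hL y (hJ hy)) u'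
    refine p2 ((Submodule.eq_bot_iff _).1 (high_upd hF h' hL hE (right_lt_sup.2 hne)) p
      ((high_mem C).2 fun L' hL' y hy => ?_))
    by_cases e : L' = L
    · rw [e, Function.update_self] at hy
      exact p1 y hy
    · rw [Function.update_of_ne e] at hy
      exact p3 y (fun x hx => hC.cm L' hL' L hL e y ((h'.1.1 L' hL').le hy) x (hJ hx))
        ((high_mem C).1 hu' L' hL' y hy)
  rcases h'.1.1 L hL with e | ⟨e1, N', hN', e2⟩
  · rw [e, sup_bot_eq] at key
    rw [(Submodule.mem_orthogonal _ _).1 (key (h.1.1 L hL)) u ((high_mem C).1 hu L hL)]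
    simp only [norm_zero, ne_eq, OfNat.ofNat_ne_zero, not_false_eq_true, zero_pow, mul_zero]
    positivity
  rcases h.1.1 L hL with e | ⟨e3, N, hN, e4⟩
  · exact absurd (e ▸ bot_le) hne
  obtain ⟨M, hM, hM'⟩ := hS.inter s hs N hN N' hN'
  have hMn := hS.mono _ n hs hM
  have n1 := high_down hS (hS.mono s n (by omega) hN) hMn (hM'.trans inf_le_left) e4
  have n2 := high_down hS (hS.mono s n (by omega) hN') hMn (hM'.trans inf_le_right) e2
  obtain ⟨E, D, b1, b2⟩ := hS.blk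
  refine hA W n E D M (X L) (X' L) hfin (fun y hy v => ?_) b1 n1 n2 (b2 M hMn).1
    ((b2 M hMn).2 _ _ e3 e1 n1 n2) u ((high_mem C).1 hu L hL) u' ((high_mem C).1 hu' L hL)
    (key (Or.inr ⟨hJ, N', hN', high_ncl_sup n1 n2 (hM'.trans inf_le_right) e2.1⟩))
  rw [@norm_eq_sqrt_re_inner ℂ, hU L hL y (hJ hy), ← @norm_eq_sqrt_re_inner ℂ]

theorem high_main (hA : StmtAng) {q : ℕ} {H : Subgroup (End ℂ W)ˣ} (hP : QPrim q H) (hH : H ≤ S)
    (hC : Comp d C) (hF : Fam n S C 𝓝) (hq : 4 * q ^ 4 < n) (hs : 4 * s ≤ n)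
    (hU : ∀ L ∈ C, ∀ y ∈ L, ∀ v w, inner ℂ ((y : End ℂ W) v) ((y : End ℂ W) w) = inner ℂ v w)
    {L N : Subgroup (End ℂ W)ˣ} (hL : L ∈ C) (hN : N ∈ 𝓝 L s) : Fx N = ⊥ := by
  by_contra h0
  obtain ⟨X, hX⟩ := high_exists hF (by omega) hL hN h0
  have h1 := hP _ hX.1.2.2 fun Y hY hc => high_ind Y hc fun U hU1 U' hU2 hne u hu u' hu' => by
    obtain ⟨g, hg, rfl⟩ := hY hU1
    obtain ⟨g', hg', rfl⟩ := hY hU2
    have m1 := high_max_cj hF (by omega) (hH hg) hX
    have m2 := high_max_cj hF (by omega) (hH hg') hX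
    rw [← high_F_cj (hF.nC g (hH hg))] at hu hne
    rw [← high_F_cj (hF.nC g' (hH hg'))] at hu' hne
    obtain ⟨L', hL', h2⟩ : ∃ L' ∈ C, high_cj g X L' ≠ high_cj g' X L' := by
      by_contra! h2
      exact hne (iInf_congr fun L' => iInf_congr fun hL' => congrArg Fx (h2 L' hL'))
    have h3 : n * ‖inner ℂ u u'‖ ^ 4 ≤ 4 * ‖u‖ ^ 4 * ‖u'‖ ^ 4 := by
      by_cases h4 : high_cj g X L' ≤ high_cj g' X L'
      · rw [norm_inner_symm, mul_right_comm]
        exact high_ang hA hC hF hs hU m2 m1 hL' (fun h5 => h2 (le_antisymm h4 h5)) hu' hu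
      · exact high_ang hA hC hF hs hU m1 m2 hL' h4 hu hu'
    have h4 : (4 * q ^ 4 : ℝ) ≤ n := by exact_mod_cast hq.le
    have h5 := (mul_le_mul_of_nonneg_right h4 (by positivity)).trans h3
    refine le_of_pow_le_pow_left₀ (n := 4) (by norm_num) (by positivity) ?_
    rw [mul_pow, mul_pow]
    linarith
  obtain ⟨L', hL', h2⟩ := hX.1.2.1
  refine h2 ((Subgroup.eq_bot_iff_forall _).2 fun y hy => Units.ext (LinearMap.ext fun w => ?_))
  exact (high_mem C).1 (h1 ▸ Submodule.mem_top) L' hL' y hy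

end

theorem high (hH : StmtHerm) (hA : StmtAng) : StmtHigh := by
  intro W _ _ _ q n d H S C 𝓝 hP hHS hS hC hF hq s hs L hL N hN
  obtain ⟨c, hc⟩ := hH W S hS
  let _ := c.toNormedAddCommGroup
  let _ := InnerProductSpace.ofCore c.toCore
  refine high_main hA hP hHS hC hF hq hs (fun L' hL' y hy v w => ?_) hL hN
  obtain ⟨r, -, h1, h2⟩ := hc y (hF.le L' hL' hy)
  have := (hF.std L' hL').fin
  have h3 := h1 v w
  rw [h2 (MonoidHom.isOfFinOrder L'.subtype (isOfFinOrder_of_finite (⟨y, hy⟩ : L')) :),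
    Complex.ofReal_one, one_mul] at h3
  exact h3

end Pool.Agent.Work.MP_11a08a_al.Lin
end
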