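import Pool.Agent.Work.MP_11a08a_al.Lin.DefsG
import Pool.Agent.Work.MP_11a08a_al.Lin.Sup

-- merged part: Pool.Agent.Work.MP_11a08a_al.Lin.BlkU
section
/-!
`W = perp U` is graded of dimension at most `n`, `rk U ≥ rk ⊤ - n ≥ 9 n + 50` (`hB`).  `J = B ⊔ B' ≤ O`, `R = {v ∈ W | all h ∈ J fix v}` is a graded subspace (the elements of `J` preserve the sorts), and `v ∈ W` lies in `R` iff `B` and `B'` fix it.  Item 8 of `hB` gives `j ≤ n`, `s`, `v`; `hI` gives `card J ≤ q ^ (j * rk ⊤ + 1024) * card (A U)`.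
`X` = the homogeneous vectors of `W` outside `R`, `X'` = those moved by `B'`, `X''` = the others (fixed by `B'`, moved by `B`).  Choose `a 0, a 1, ..` in `B` by induction with `hM` such that `a k` maps `X''` outside `T = ⋃ i < k, a i W` (`ncard X'' * ncard T ≤ n q ^ (2 n) < q ^ (rk U - 4)`).  As `dc B' x⁻¹` is the inverse of `dc B' x`, it suffices to treat
`x = (a i)⁻¹ * a k`, `i < k`; `x X''` misses `W`.  `hM` for `B'`, `X'`, `T = x⁻¹ W` gives `b ∈ B'`; `y = x b` maps `X` outside `W`.  The tuple `y ∘ v` is independent modulo `W`: if `u = ∑ c i • v i ∈ W` has `y u ∈ W`, then both homogeneous parts of `u` (in `W`) are mapped into `W` (graded, `y` preserves sorts; if all `P s = ⊤`, `u` is homogeneous), so they lie in `R`, `u ∈ R`, `c = 0`.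
By `hW` there are at least `q ^ (j * (rk U - j - 3))` tuples `e ∘ y ∘ v`, `e ∈ A U`; choose `e f` for each tuple `f`; `(f, a) ↦ e f * y * a` is injective from tuples times `A U` to `dc B' x` (`a` fixes the `v i ∈ W`).  Finally `j * rk ⊤ ≤ j * (rk U - j - 3) + n * (2 n + 3)`.
-/

set_option autoImplicit false

open Module
open scoped commutatorElement

namespace Pool.Agent.Work.MP_11a08a_al.Lin

theorem blku_dc_inv {Q : Type} [Group Q] (B : Subgroup Q) (x : Q) :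
    (dc B x⁻¹).ncard = (dc B x).ncard := by
  have h : dc B x⁻¹ = (dc B x)⁻¹ := by
    ext y
    simp only [dc, Set.mem_inv, Set.mem_ofPred_eq]
    constructor
    · rintro ⟨b, hb, b', hb', rfl⟩
      exact ⟨b'⁻¹, B.inv_mem hb', b⁻¹, B.inv_mem hb, by group⟩
    · rintro ⟨b, hb, b', hb', h⟩
      refine ⟨b'⁻¹, B.inv_mem hb', b⁻¹, B.inv_mem hb, ?_⟩
      rw [← inv_inv y, h]
      group
  rw [h, Set.ncard_inv]

section

variable {K V : Type} [Field K] [AddCommGroup V] [Module K V]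

theorem blku_split (p : Polar K V) {W : Submodule K V} (hW : p.Gr W) {u : V} (hu : u ∈ W) :
    ∃ u1 ∈ W ⊓ p.P true, ∃ u2 ∈ W ⊓ p.P false, u = u1 + u2 ∧ ∀ y ∈ p.O,
      (y u ∈ W → y u1 ∈ W ∧ y u2 ∈ W) ∧ (y u = u → y u1 = u1 ∧ y u2 = u2) := by
  rcases p.sorts with h | ⟨h, -⟩
  · refine ⟨u, ⟨hu, by rw [h]; trivial⟩, 0, Submodule.zero_mem _, (add_zero u).symm,
      fun y _ => ⟨fun h1 => ⟨h1, by rw [map_zero]; exact W.zero_mem⟩,
        fun h1 => ⟨h1, map_zero y⟩⟩⟩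
  · obtain ⟨u1, h1, u2, h2, rfl⟩ := Submodule.mem_sup.1 (hW hu)
    have key : ∀ y ∈ p.O, ∀ t1 ∈ p.P true, ∀ t2 ∈ p.P false, y (u1 + u2) = t1 + t2 →
        y u1 = t1 ∧ y u2 = t2 := by
      intro y hy t1 ht1 t2 ht2 e
      rw [map_add] at e
      have e1 : y u1 - t1 = t2 - y u2 := by
        rw [sub_eq_sub_iff_add_eq_add, e, add_comm]
      have m1 : y u1 - t1 ∈ p.P true := Submodule.sub_mem _ ((hy.2.2 true u1).2 h1.2) ht1
      have m2 : y u1 - t1 ∈ p.P false := by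
        rw [e1]; exact Submodule.sub_mem _ ht2 ((hy.2.2 false u2).2 h2.2)
      have z := (Submodule.disjoint_def.1 h.disjoint) _ m1 m2
      refine ⟨sub_eq_zero.1 z, ?_⟩
      rw [e1] at z
      exact (sub_eq_zero.1 z).symm
    refine ⟨u1, h1, u2, h2, rfl, fun y hy => ⟨fun h3 => ?_, fun h3 => key y hy u1 h1.2 u2 h2.2 h3⟩⟩
    obtain ⟨t1, h4, t2, h5, e⟩ := Submodule.mem_sup.1 (hW h3)
    obtain ⟨e1, e2⟩ := key y hy t1 h4.2 t2 h5.2 e.symm
    rw [e1, e2]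
    exact ⟨h4.1, h5.1⟩

/-- The vectors of `W` fixed by `J`. -/
def blku_fix (W : Submodule K V) (J : Subgroup (V ≃ₗ[K] V)) : Submodule K V where
  carrier := {v | v ∈ W ∧ ∀ h ∈ J, h v = v}
  add_mem' ha hb := ⟨W.add_mem ha.1 hb.1, fun h hh => by rw [map_add, ha.2 h hh, hb.2 h hh]⟩
  zero_mem' := ⟨W.zero_mem, fun h _ => map_zero h⟩
  smul_mem' c _ hv := ⟨W.smul_mem c hv.1, fun h hh => by rw [map_smul, hv.2 h hh]⟩

theorem blku_gr (p : Polar K V) {W : Submodule K V} (hW : p.Gr W) {J : Subgroup (V ≃ₗ[K] V)}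
    (hJ : J ≤ p.O) : p.Gr (blku_fix W J) := by
  intro u hu
  obtain ⟨u1, h1, u2, h2, e, h⟩ := blku_split p hW hu.1
  exact Submodule.mem_sup.2 ⟨u1, ⟨⟨h1.1, fun y hy => ((h y (hJ hy)).2 (hu.2 y hy)).1⟩, h1.2⟩,
    u2, ⟨⟨h2.1, fun y hy => ((h y (hJ hy)).2 (hu.2 y hy)).2⟩, h2.2⟩, e.symm⟩

theorem blku_sup {B B' : Subgroup (V ≃ₗ[K] V)} {v : V} (h : ∀ b ∈ B, b v = v)
    (h' : ∀ b ∈ B', b v = v) : ∀ b ∈ B ⊔ B', b v = v := by
  have : B ⊔ B' ≤ MulAction.stabilizer (V ≃ₗ[K] V) v := sup_le h h'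
  exact this

theorem blku_card [Finite K] [FiniteDimensional K V] {W : Submodule K V} {n : ℕ}
    (hn : finrank K W ≤ n) : Nat.card W ≤ Nat.card K ^ n := by
  rw [Module.natCard_eq_pow_finrank (K := K)]
  exact Nat.pow_le_pow_right Nat.card_pos hn

theorem blku_seq [Finite K] [FiniteDimensional K V] {W : Submodule K V} {n N : ℕ}
    (hn : finrank K W ≤ n) (hN : 3 * n ≤ N) {B : Subgroup (V ≃ₗ[K] V)} {X : Set V}
    (hX : X ⊆ W) (hM : ∀ T : Set V, X.ncard * T.ncard < Nat.card K ^ N →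
      ∃ b ∈ B, ∀ v ∈ X, b v ∉ T) (m : ℕ) (hm : m ≤ n) :
    ∃ a : ℕ → V ≃ₗ[K] V, (∀ i, a i ∈ B) ∧ ∀ k < m, ∀ i < k, ∀ v ∈ X, ∀ w ∈ W, a k v ≠ a i w := by
  have : Finite V := Module.finite_of_finite K
  induction m with
  | zero => exact ⟨fun _ => 1, fun _ => B.one_mem, fun k hk => absurd hk (Nat.not_lt_zero k)⟩
  | succ m ih =>
    obtain ⟨a, ha, h⟩ := ih (by omega)
    have hq : 1 < Nat.card K := Finite.one_lt_card
    have c1 : X.ncard ≤ Nat.card K ^ n :=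
      (Set.ncard_le_ncard hX (Set.toFinite _)).trans (blku_card hn)
    have c2 : ((fun z : Fin m × W => a z.1 z.2) '' Set.univ).ncard ≤ m * Nat.card K ^ n := by
      refine (Set.ncard_image_le (Set.toFinite _)).trans ?_
      rw [Set.ncard_univ, Nat.card_prod, Nat.card_eq_fintype_card, Fintype.card_fin]
      exact Nat.mul_le_mul_left _ (blku_card hn)
    have c3 : m < Nat.card K ^ n := lt_of_lt_of_le (by omega : m < n) (Nat.lt_pow_self hq).le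
    have c4 : 0 < Nat.card K ^ n := by positivity
    obtain ⟨b, hb, hbv⟩ := hM ((fun z : Fin m × W => a z.1 z.2) '' Set.univ) (by
      calc _ ≤ Nat.card K ^ n * (m * Nat.card K ^ n) := Nat.mul_le_mul c1 c2
        _ < Nat.card K ^ n * (Nat.card K ^ n * Nat.card K ^ n) :=
          Nat.mul_lt_mul_of_pos_left (Nat.mul_lt_mul_of_pos_right c3 c4) c4
        _ = Nat.card K ^ (3 * n) := by ring
        _ ≤ _ := Nat.pow_le_pow_right hq.le hN)
    refine ⟨fun i => if i = m then b else a i, fun i => ?_, fun k hk i hi v hv w hw => ?_⟩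
    · dsimp only
      split_ifs
      · exact hb
      · exact ha i
    · have hi' : i ≠ m := by omega
      simp only [if_neg hi']
      by_cases hkm : k = m
      · rw [if_pos hkm]
        intro e
        exact hbv v hv ⟨(⟨i, by omega⟩, ⟨w, hw⟩), trivial, e.symm⟩
      · rw [if_neg hkm]
        exact h k (by omega) i hi v hv w hw

theorem blku_inj [Finite V] {A B' : Subgroup (V ≃ₗ[K] V)} (hA : A ≤ B') {j : ℕ} {v : Fin j → V}
    (hv : ∀ a ∈ A, ∀ i, a (v i) = v i) (x : V ≃ₗ[K] V) {b : V ≃ₗ[K] V} (hb : b ∈ B') :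
    Set.ncard {f : Fin j → V | ∃ e ∈ A, ∀ i, f i = e ((x * b) (v i))} * Nat.card A ≤
      (dc B' x).ncard := by
  have : Finite (V ≃ₗ[K] V) := Finite.of_injective _ DFunLike.coe_injective
  have h : ∀ f : {f : Fin j → V | ∃ e ∈ A, ∀ i, f i = e ((x * b) (v i))},
      ∃ e ∈ A, ∀ i, f.1 i = e ((x * b) (v i)) := fun f => f.2
  choose e he1 he2 using h
  rw [← Nat.card_coe_set_eq, ← Nat.card_coe_set_eq, ← Nat.card_prod]
  refine Nat.card_le_card_of_injective (fun z => (⟨e z.1 * (x * b) * z.2.1, e z.1, hA (he1 _),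
    b * z.2.1, B'.mul_mem hb (hA z.2.2), by group⟩ : dc B' x)) ?_
  rintro ⟨f, a⟩ ⟨f', a'⟩ h
  have h1 : e f * (x * b) * a.1 = e f' * (x * b) * a'.1 := congrArg Subtype.val h
  have h2 : f = f' := by
    refine Subtype.ext (funext fun i => ?_)
    have h3 := congrArg (fun g : V ≃ₗ[K] V => g (v i)) h1
    simp only [LinearEquiv.mul_apply, hv _ a.2, hv _ a'.2] at h3
    rw [he2, he2]
    exact h3
  subst h2
  rw [Subtype.ext (mul_left_cancel h1)]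

end

theorem blkU (hB : StmtPB) (hE : StmtPE) (hW : StmtWT) (hI : StmtIX) (hM : StmtMov) : StmtBlkU := by
  intro K V _ _ _ _ _ p U n hU hn hrk B B' hBO hBO' hN hN'
  have : Finite V := Module.finite_of_finite K
  obtain ⟨-, b2, -, -, -, b6, -, b8, -⟩ := hB K V p
  obtain ⟨-, hWn, -, -, b65, -⟩ := b6 U hU
  have d1 : finrank K (p.perp U) ≤ n := by have := (b2 U).1; omega
  have d2 : p.rk ⊤ ≤ p.rk U + n := by omega
  have hq : 1 < Nat.card K := Finite.one_lt_card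
  have hJ : B ⊔ B' ≤ p.O := sup_le hBO hBO'
  have hAW : ∀ a ∈ p.A U, ∀ w ∈ p.perp U, a w = w := fun a ha =>
    (((hE K V p).2.2.2.2.2.2.2.2.2.1 U).1 ha).2
  obtain ⟨j, s, v, hind, hvW, hsp, hj⟩ := b8 (blku_fix (p.perp U) (B ⊔ B')) (p.perp U)
    (blku_gr p hWn.1 hJ) hWn.1 fun _ h => h.1
  have hjn : j ≤ n := by omega
  have hc := (hI K V p U hU).2.2 (B ⊔ B') (blku_fix (p.perp U) (B ⊔ B')) j s v hJ
    (fun h hh r hr => hr.2 h hh) hind.1 hsp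
  obtain ⟨a, ha, hav⟩ := blku_seq (N := p.rk U - 4) d1 (by omega) (B := B)
    (X := {u | u ∈ p.perp U ∧ (∃ s, u ∈ p.P s) ∧ (∀ b ∈ B', b u = u) ∧ ∃ b ∈ B, b u ≠ u})
    (fun _ h => h.1) (fun T hT => hM K V p U hU (by omega) B hBO hN _ T hT
      fun u hu => ⟨hu.2.1, hu.2.2.2⟩) n le_rfl
  have main : ∀ x ∈ p.O, (∀ u ∈ p.perp U, (∃ s, u ∈ p.P s) → (∀ b ∈ B', b u = u) →
      (∃ b ∈ B, b u ≠ u) → x u ∉ p.perp U) →
      Nat.card ↥(B ⊔ B') ≤ Nat.card K ^ (1024 + n * (2 * n + 3)) * (dc B' x).ncard := by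
    intro x hx hxu
    have c0 : (p.perp U : Set V).ncard ≤ Nat.card K ^ n := blku_card d1
    obtain ⟨b, hb, hbv⟩ := hM K V p U hU (by omega) B' hBO' hN'
      {u | u ∈ p.perp U ∧ (∃ s, u ∈ p.P s) ∧ ∃ b ∈ B', b u ≠ u} (x.symm '' p.perp U) (by
        calc _ ≤ Nat.card K ^ n * Nat.card K ^ n :=
            Nat.mul_le_mul ((Set.ncard_le_ncard (fun _ h => h.1) (Set.toFinite _)).trans c0)
              ((Set.ncard_image_le (Set.toFinite _)).trans c0)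
          _ = Nat.card K ^ (2 * n) := by ring
          _ < _ := Nat.pow_lt_pow_right hq (by omega)) fun u hu => hu.2
    have hy : x * b ∈ p.O := p.O.mul_mem hx (hBO' hb)
    have hR : ∀ u ∈ p.perp U, (∃ s, u ∈ p.P s) → (x * b) u ∈ p.perp U →
        u ∈ blku_fix (p.perp U) (B ⊔ B') := by
      intro u hu hs hyu
      have h1 : ∀ b' ∈ B', b' u = u := by
        by_contra h
        push Not at h
        exact hbv u ⟨hu, hs, h⟩ ⟨_, hyu, x.symm_apply_apply _⟩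
      have h2 : ∀ b' ∈ B, b' u = u := by
        by_contra h
        push Not at h
        refine hxu u hu hs h1 h ?_
        rwa [LinearEquiv.mul_apply, h1 b hb] at hyu
      exact ⟨hu, blku_sup h2 h1⟩
    have hind' : p.Ind (p.perp U) s fun i => (x * b) (v i) := by
      refine ⟨fun i => (hy.2.2 _ _).2 (hind.1 i), fun c hc' => hind.2 c ?_⟩
      have h1 : ∑ i, c i • v i ∈ p.perp U :=
        Submodule.sum_mem _ fun i _ => Submodule.smul_mem _ _ (hvW i)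
      have h2 : (x * b) (∑ i, c i • v i) ∈ p.perp U := by
        simpa only [map_sum, map_smul] using hc'
      obtain ⟨u1, m1, u2, m2, e, h⟩ := blku_split p hWn.1 h1
      obtain ⟨h3, h4⟩ := (h _ hy).1 h2
      rw [e]
      exact Submodule.add_mem _ (hR u1 m1.1 ⟨_, m1.2⟩ h3) (hR u2 m2.1 ⟨_, m2.2⟩ h4)
    have c1 := (hW K V p U hU j s _ (by omega) hind').2
    have c2 := blku_inj hN'.1 (fun a ha i => hAW a ha _ (hvW i)) x hb
    obtain ⟨t, ht⟩ : ∃ t, p.rk U = t + j + 3 := ⟨p.rk U - j - 3, by omega⟩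
    have c3 : p.rk U - j - 3 = t := by omega
    rw [c3] at c1
    have c4 : j * p.rk ⊤ + 1024 ≤ 1024 + n * (2 * n + 3) + j * t := by
      have e1 : j * p.rk ⊤ ≤ j * (t + (2 * n + 3)) := Nat.mul_le_mul_left _ (by omega)
      have e2 : j * (2 * n + 3) ≤ n * (2 * n + 3) := Nat.mul_le_mul_right _ hjn
      rw [mul_add] at e1
      omega
    calc _ ≤ _ := hc
      _ ≤ Nat.card K ^ (1024 + n * (2 * n + 3) + j * t) * Nat.card (p.A U) :=
        Nat.mul_le_mul_right _ (Nat.pow_le_pow_right hq.le c4)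
      _ = Nat.card K ^ (1024 + n * (2 * n + 3)) * (Nat.card K ^ (j * t) * Nat.card (p.A U)) := by
        rw [pow_add, mul_assoc]
      _ ≤ _ := Nat.mul_le_mul_left _ ((Nat.mul_le_mul_right _ c1).trans c2)
  have fin : ∀ i k : Fin n, i < k → Nat.card ↥(B ⊔ B') ≤
      Nat.card K ^ (1024 + n * (2 * n + 3)) * (dc B' ((a i)⁻¹ * a k)).ncard := by
    intro i k hik
    refine main _ (hBO (B.mul_mem (B.inv_mem (ha i)) (ha k))) fun u h1 h2 h3 h4 h5 => ?_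
    exact hav k k.2 i hik u ⟨h1, h2, h3, h4⟩ _ h5 ((a i).apply_symm_apply _).symm
  refine ⟨fun i => a i, fun i => ha i, fun i k hik => ?_⟩
  rcases lt_or_gt_of_ne hik with h | h
  · exact fin i k h
  · have e : (a i)⁻¹ * a k = ((a k)⁻¹ * a i)⁻¹ := by group
    rw [e, blku_dc_inv]
    exact fin k i h

end Pool.Agent.Work.MP_11a08a_al.Lin
end

-- merged part: Pool.Agent.Work.MP_11a08a_al.Lin.RankL
section
/-!
Copy `rank_step` and `rank` of `Sol/Rank`, with `F = ℂ`, `SecK m Zs S` for `SecZ d S` and the extra hypothesis `Zs.relIndex S ≤ N`.  Constants: `τ = 1 / (32 q ^ 2 + 1)`, `lv = 16 ^ q * 64`, `δ' = δ / (q + 1)`, `n ≥ lv` with `lv ^ 2 ≤ n * δ'`, `q₁, d` from `hSt` for `(n, 0, m, τ)`, `K₁, K₂` from `rank_heis`, `rank_comp`.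
For given `N`: `I = ⌊N ^ δ'⌋₊` (if `i ^ n ≤ N ^ (lv * lv)` then `i ≤ I`), `K' = K₁ + K₂ + 16 q ^ 2 + I * (2 ^ q * 2) ≤ c₀ N ^ δ'`, the bound for at most `j` terms is `k j` with `k 0 = 0`, `k (j + 1) = k j * K' + 1`, `k j ≤ (c₀ + 1) ^ j * N ^ (j δ')`.
In the step the subgroup `M` is `E` if `¬ E ≤ Zs`, else `C₁.sup id`, `C₂.sup id` (`hB`) or `C₃.sup id` (`hK`, `hG`) for a nonempty family; if all are empty then `C = ∅` by `cover`.
-/

set_option autoImplicit false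

open Finset Module Pool.Agent.Work.MP_11a08a_al.Sol
open scoped commutatorElement

namespace Pool.Agent.Work.MP_11a08a_al.Lin

/-- The rank bound for sums with at most `n` terms. -/
def rankl_N (q m N n K : ℕ) : Prop :=
  ∀ (W : Type) [AddCommGroup W] [Module ℂ W] [FiniteDimensional ℂ W] [Nontrivial W]
    (H S : Subgroup (End ℂ W)ˣ), Prim H → Zs ℂ W ≤ S → (Zs ℂ W).relIndex S ≠ 0 →
    (Zs ℂ W).relIndex S ≤ N → (∀ h ∈ H, Nm h S) → SecK m (Zs ℂ W) S →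
    ∀ (P : Finset (Fin q)) (α : Fin q → ℂ) (s : Fin q → (End ℂ W)ˣ), P.card ≤ n →
    (∀ l ∈ P, s l ∈ S) → ∑ l ∈ P, α l • (s l : End ℂ W) ≠ 0 →
    finrank ℂ W ≤ K * rk (∑ l ∈ P, α l • (s l : End ℂ W))

/-- A subgroup for the reduction step exists. -/
def rankl_R (q m N K : ℕ) : Prop :=
  ∀ (W : Type) [AddCommGroup W] [Module ℂ W] [FiniteDimensional ℂ W] [Nontrivial W]
    (H S : Subgroup (End ℂ W)ˣ), Prim H → Zs ℂ W ≤ S → (Zs ℂ W).relIndex S ≠ 0 →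
    (Zs ℂ W).relIndex S ≤ N → (∀ h ∈ H, Nm h S) → SecK m (Zs ℂ W) S →
    S ≤ Zs ℂ W ∨ ∃ (M : Subgroup (End ℂ W)ˣ) (K₀ : ℕ), K₀ ≤ K ∧ (∀ t, t ∈ H ∨ t ∈ S → Nm t M) ∧
      M ≤ S ∧ ¬ M ≤ Zs ℂ W ∧ MU M ∧ ∀ (P : Finset (Fin q)) (α : Fin q → ℂ)
        (s : Fin q → (End ℂ W)ˣ), (∀ l ∈ P, s l ∈ S) → rank_Red K₀ M P α s

theorem rankl_step (hM : StmtMU) (hN : StmtNextL) {q m N n K K' : ℕ} (hR : rankl_R q m N K')
    (ih : rankl_N q m N n K) : rankl_N q m N (n + 1) (K * K' + 1) := by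
  intro W _ _ _ _ H S hH hZ hfin hle hHS hsec P α s hP
  induction hm : (Zs ℂ W).relIndex S using Nat.strong_induction_on generalizing S α s with
  | _ j ihm =>
  intro hs hY
  rcases hR W H S hH hZ hfin hle hHS hsec with hS | ⟨M, K₀, hK₀, m1, m2, m3, m4, m5⟩
  · have b1 : ∀ l ∈ P, ∃ c : ℂ, (s l : End ℂ W) = c • 1 := fun l hl => by
      obtain ⟨c, -, h⟩ := hS (hs l hl)
      exact ⟨c, h⟩
    choose! c b1 using b1
    have b2 : ∑ l ∈ P, α l • (s l : End ℂ W) = (∑ l ∈ P, α l * c l) • 1 := by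
      rw [Finset.sum_smul]
      exact Finset.sum_congr rfl fun l hl => by rw [b1 l hl, smul_smul]
    rw [b2] at hY ⊢
    exact (rank_scalar (left_ne_zero_of_smul hY)).trans (Nat.le_mul_of_pos_left _ (Nat.succ_pos _))
  obtain ⟨S', s1, s2, s3, s4, s5, s6⟩ := hN W m H S M hZ hfin
    (fun h hh => ⟨hHS h hh, m1 h (Or.inl hh)⟩) hsec m2 m3 (fun t ht => m1 t (Or.inr ht)) m4
  have s7 : (Zs ℂ W).relIndex S' ≤ N := s3.le.trans hle
  choose! A x a1 a2 a3 a4 a5 using s6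
  obtain ⟨⟨θ, t1, t2⟩, -, -, -, t5⟩ := hM ℂ W M m4
  by_cases hc : ∀ l ∈ P, Cm M (↑(s l)⁻¹ * ∑ l ∈ P, α l • (s l : End ℂ W))
  · obtain ⟨l₀, hl₀⟩ := Finset.nonempty_of_sum_ne_zero hY
    have b1 : ∀ l ∈ P, Cm M (↑(A (s l))⁻¹ * ∑ l ∈ P, α l • (s l : End ℂ W)) := fun l hl u hu => by
      have e : (A (s l))⁻¹ = x (s l) * (s l)⁻¹ := by
        rw [eq_mul_inv_iff_mul_eq, inv_mul_eq_iff_eq_mul]
        exact a5 _ (hs l hl)
      rw [e, Units.val_mul, mul_assoc]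
      exact Commute.mul_right (a4 _ (hs l hl) u hu) (hc l hl u hu)
    have b2 : ∀ l ∈ P, ∃ c : ℂ, (↑(A (s l₀))⁻¹ * A (s l) : End ℂ W) = c • 1 := fun l hl =>
      t5 _ (rank_spn_mul (a2 _ (hs l₀ hl₀)) (a1 _ (hs l hl))) _ (rank_ne _ hY) (b1 l hl)
        (by rw [mul_assoc, Units.mul_inv_cancel_left]; exact b1 l₀ hl₀)
    choose! c b2 using b2
    have b3 : ∑ l ∈ P, (α l * c l) • (x (s l) : End ℂ W) =
        ↑(A (s l₀))⁻¹ * ∑ l ∈ P, α l • (s l : End ℂ W) := by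
      rw [Finset.mul_sum]
      refine Finset.sum_congr rfl fun l hl => ?_
      conv_rhs => rw [a5 _ (hs l hl)]
      rw [mul_smul_comm, Units.val_mul, ← mul_assoc, b2 l hl, smul_mul_assoc, one_mul, smul_smul]
    have b4 := ihm _ (hm ▸ s3) S' s1 s2 s7 s4 s5 (fun l => α l * c l) (fun l => x (s l)) rfl
      (fun l hl => a3 _ (hs l hl)) (by rw [b3]; exact rank_ne _ hY)
    rw [b3] at b4
    exact b4.trans (Nat.mul_le_mul_left _ (rank_left _ _))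
  · push Not at hc
    obtain ⟨l₀, hl₀, hc⟩ := hc
    obtain ⟨r, hr, X, x1, x2, x3, x4⟩ := m5 P α s hs l₀ hl₀ hc
    have b1 : ∀ l ∈ P.erase l₀, (s r)⁻¹ * s l ∈ S := fun l hl =>
      S.mul_mem (S.inv_mem (hs r hr)) (hs l (mem_of_mem_erase hl))
    obtain ⟨c, b2⟩ := rank_theta t1 t2 (A := fun l => A ((s r)⁻¹ * s l))
      (x := fun l => x ((s r)⁻¹ * s l))
      (fun l hl => ⟨a1 _ (b1 l hl), a4 _ (b1 l hl), a5 _ (b1 l hl)⟩) x4 x2
    have b3 := ih W H S' hH s1 s2 s7 s4 s5 (P.erase l₀) c (fun l => x ((s r)⁻¹ * s l))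
      (by rw [card_erase_of_mem hl₀]; omega) (fun l hl => a3 _ (b1 l hl)) (by rwa [b2])
    rw [b2] at b3
    refine b3.trans ((Nat.mul_le_mul_left K (x3.trans (Nat.mul_le_mul_right _ hK₀))).trans ?_)
    rw [← mul_assoc]
    exact Nat.mul_le_mul_right _ (Nat.le_succ _)

theorem rankl_red (hSt : StmtStr3) (hSi : StmtSimple) (hM : StmtMU) (hP1 : StmtPet1)
    (hDu : StmtDual) (hJ : StmtJoin) (hL : StmtLoc) (hB : StmtRedB) (hK : StmtKK) (hG : StmtRedG)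
    (q m n : ℕ) (hn : 16 ^ q * 64 ≤ n) : ∃ K₃ : ℕ, ∀ N I : ℕ,
      (∀ i : ℕ, i ^ n ≤ N ^ (16 ^ q * 64 * (16 ^ q * 64)) → i ≤ I) →
      rankl_R q m N (K₃ + I * (2 ^ q * 2)) := by
  have hτ : (0 : ℝ) < 1 / (32 * (q : ℝ) ^ 2 + 1) := by positivity
  have hτ' : 32 * (q : ℝ) ^ 2 * (1 / (32 * (q : ℝ) ^ 2 + 1)) ≤ 1 := by
    rw [mul_one_div, div_le_one (by positivity)]
    linarith
  obtain ⟨q₁, d, h₀⟩ := hSt n 0 m _ hτ (Nat.zero_le n)
  obtain ⟨K₁, h₁⟩ := rank_heis hP1 hDu q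
  obtain ⟨K₂, h₂⟩ := rank_comp hM hJ hL q d
  refine ⟨K₁ + K₂ + 16 * q ^ 2, fun N I hI W _ _ _ _ H S hH hZ hfin hle hHS hsec => ?_⟩
  obtain ⟨E, C, C₁, C₂, C₃, 𝓝, st⟩ := h₀ W H S hH hZ hfin hHS hsec
  have key : ∀ (d' : ℕ) (C' : Finset (Subgroup (End ℂ W)ˣ)), Comp d' C' → C' ⊆ C → C'.Nonempty →
      (∀ t, t ∈ H ∨ t ∈ S → NmC t C') → (∀ t, t ∈ H ∨ t ∈ S → Nm t (C'.sup id)) ∧
        C'.sup id ≤ S ∧ ¬ C'.sup id ≤ Zs ℂ W ∧ MU (C'.sup id) := by
    rintro d' C' hc hsub ⟨L, hL⟩ hn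
    exact ⟨fun t ht => (hJ ℂ W d' C' hc).2.2.1 t (hn t ht),
      Finset.sup_le fun L' hL' => st.str.cS L' (hsub hL'),
      fun h => hc.ns L hL ((Finset.le_sup (f := id) hL).trans h), hc.mu C' Subset.rfl⟩
  by_cases hE : E ≤ Zs ℂ W
  swap
  · refine Or.inr ⟨E, K₁, by omega, st.str.nE, st.str.eS, hE,
      hSi ℂ W H E ⊥ hH (fun h hh => ?_) fun x _ y hy => ?_,
      fun P α s hs => h₁ ℂ W E st.str.heis P α s fun l hl => st.str.nE _ (Or.inr (hs l hl))⟩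
    · rw [sup_bot_eq]
      exact st.str.nE h (Or.inl hh)
    · rw [Subgroup.mem_bot.1 hy, mul_one, one_mul]
  rcases C₁.eq_empty_or_nonempty with e₁ | e₁
  swap
  · obtain ⟨k1, k2, k3, k4⟩ := key _ _ st.c₁ st.sub.1 e₁ fun t ht => (st.nC t ht).1
    exact Or.inr ⟨_, K₂, by omega, k1, k2, k3, k4, fun P α s hs =>
      h₂ ℂ W C₁ st.c₁ P α s fun l hl => (st.nC _ (Or.inr (hs l hl))).1⟩
  rcases C₂.eq_empty_or_nonempty with e₂ | e₂
  swap
  · obtain ⟨k1, k2, k3, k4⟩ := key _ _ st.c₂ st.sub.2.1 e₂ fun t ht => (st.nC t ht).2.1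
    exact Or.inr ⟨_, 16 * q ^ 2, by omega, k1, k2, k3, k4, fun P α s hs =>
      (hB W q _ _ S C₂ st.c₂ (fun L hL => ⟨st.big L hL, st.str.cS L (st.sub.2.1 hL)⟩) hZ hfin
        (fun t ht => (st.nC t (Or.inr ht)).2.1) hτ.le hτ' P α s hs).1⟩
  rcases C₃.eq_empty_or_nonempty with e₃ | e₃
  swap
  · obtain ⟨k1, k2, k3, k4⟩ := key _ _ st.c₃ st.sub.2.2 e₃ fun t ht => (st.nC t ht).2.2
    have h16 : 1 ≤ 16 ^ q := Nat.one_le_pow _ _ (by norm_num)
    have hp := hK W n _ S C₃ 𝓝 st.c₃ st.fam hfin (by omega)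
    exact Or.inr ⟨_, I * (2 ^ q * 2), by omega, k1, k2, k3, k4, fun P α s hs =>
      hG W q n I S _ _ hp k4 hn (fun K hK' => hI _ (((hp.idx _ hn K hK').2).trans
        (Nat.pow_le_pow_left hle _))) P α s hs⟩
  have hC : C = ∅ := Finset.eq_empty_of_forall_notMem fun L hL => by
    have := st.cover L hL
    simp [e₁, e₂, e₃] at this
  refine Or.inl fun t ht => hE (st.str.self _ ht (fun e he => ⟨he, ?_⟩) (by simp [supp, hC]))
  rw [commutatorElement_eq_one_iff_mul_comm.2 (Units.ext (rank_zs (hE he) _).symm)]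
  exact one_mem _

theorem rankl_ind (hM : StmtMU) (hN : StmtNextL) {q m N K' : ℕ} (hR : rankl_R q m N K') {y : ℝ}
    (hy : (K' : ℝ) + 1 ≤ y) (j : ℕ) : ∃ k : ℕ, (k : ℝ) ≤ y ^ j ∧ rankl_N q m N j k := by
  induction j with
  | zero =>
    refine ⟨0, by simp, fun W _ _ _ _ H S _ _ _ _ _ _ P α s hP _ hY => absurd ?_ hY⟩
    rw [card_eq_zero.1 (Nat.le_zero.1 hP), sum_empty]
  | succ j ih =>
    obtain ⟨k, hk, h⟩ := ih
    refine ⟨k * K' + 1, ?_, rankl_step hM hN hR h⟩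
    have h0 : (0 : ℝ) ≤ K' := Nat.cast_nonneg _
    have h1 : 1 ≤ y ^ j := one_le_pow₀ (by linarith)
    have h2 := mul_le_mul_of_nonneg_right hk h0
    have h3 := mul_le_mul_of_nonneg_left hy (zero_le_one.trans h1)
    push_cast
    rw [pow_succ]
    linarith

theorem rankL (hSt : StmtStr3) (hSi : StmtSimple) (hM : StmtMU) (hN : StmtNextL) (hP1 : StmtPet1)
    (hDu : StmtDual) (hJ : StmtJoin) (hL : StmtLoc) (hB : StmtRedB) (hK : StmtKK) (hG : StmtRedG) :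
    StmtRankL := by
  intro q m δ hδ
  have hδ' : 0 < δ / (q + 1) := by positivity
  obtain ⟨n₀, hn₀⟩ := exists_nat_ge (((16 ^ q * 64 * (16 ^ q * 64) : ℕ) : ℝ) / (δ / (q + 1)))
  obtain ⟨n, hn, hn'⟩ : ∃ n : ℕ, 16 ^ q * 64 ≤ n ∧
      ((16 ^ q * 64 * (16 ^ q * 64) : ℕ) : ℝ) ≤ δ / (q + 1) * n := by
    refine ⟨n₀ + 16 ^ q * 64, by omega, ?_⟩
    rw [div_le_iff₀' hδ'] at hn₀
    exact hn₀.trans (mul_le_mul_of_nonneg_left (by exact_mod_cast Nat.le_add_right _ _) hδ'.le)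
  have hn0 : n ≠ 0 := by
    have : 1 ≤ 16 ^ q := Nat.one_le_pow _ _ (by norm_num)
    omega
  obtain ⟨K₃, h₃⟩ := rankl_red hSt hSi hM hP1 hDu hJ hL hB hK hG q m n hn
  refine ⟨((K₃ : ℝ) + 2 ^ q * 2 + 1) ^ q, by positivity, fun N hN1 => ?_⟩
  have hN' : (1 : ℝ) ≤ N := by exact_mod_cast hN1
  have hx : (1 : ℝ) ≤ (N : ℝ) ^ (δ / (q + 1)) := Real.one_le_rpow hN' hδ'.le
  have hR := h₃ N ⌊(N : ℝ) ^ (δ / (q + 1))⌋₊ fun i hi => by
    refine Nat.le_floor ((pow_le_pow_iff_left₀ (Nat.cast_nonneg i) (by positivity) hn0).1 ?_)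
    calc (i : ℝ) ^ n ≤ (N : ℝ) ^ (16 ^ q * 64 * (16 ^ q * 64)) := by exact_mod_cast hi
      _ = (N : ℝ) ^ ((16 ^ q * 64 * (16 ^ q * 64) : ℕ) : ℝ) := (Real.rpow_natCast _ _).symm
      _ ≤ (N : ℝ) ^ (δ / (q + 1) * n) := Real.rpow_le_rpow_of_exponent_le hN' hn'
      _ = ((N : ℝ) ^ (δ / (q + 1))) ^ n := Real.rpow_mul_natCast (by positivity) _ _
  have hfl : (⌊(N : ℝ) ^ (δ / (q + 1))⌋₊ : ℝ) ≤ (N : ℝ) ^ (δ / (q + 1)) :=
    Nat.floor_le (by positivity)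
  obtain ⟨k, hk, h⟩ := rankl_ind hM hN hR
    (y := ((K₃ : ℝ) + 2 ^ q * 2 + 1) * (N : ℝ) ^ (δ / (q + 1))) (by
      have h1 := mul_le_mul_of_nonneg_left hx (Nat.cast_nonneg (α := ℝ) K₃)
      have h2 := mul_le_mul_of_nonneg_right hfl (show (0 : ℝ) ≤ 2 ^ q * 2 by positivity)
      push_cast
      linarith) q
  refine ⟨k, hk.trans ?_, fun W _ _ _ _ H S h1 h2 h3 h4 h5 h6 P α s =>
    h W H S h1 h2 h3 h4 h5 h6 P α s (by simpa using card_le_univ P)⟩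
  rw [mul_pow, ← Real.rpow_mul_natCast (by positivity)]
  refine mul_le_mul_of_nonneg_left (Real.rpow_le_rpow_of_exponent_le hN' ?_) (by positivity)
  rw [div_mul_eq_mul_div, div_le_iff₀ (by positivity)]
  nlinarith

end Pool.Agent.Work.MP_11a08a_al.Lin
end

-- merged part: Pool.Agent.Work.MP_11a08a_al.Lin.Gain1
section
/-!
`t = q₁ ^ s`, `T₁ = 2 t + 1`, `B'` from `hU` for `(T * q₁ ^ 2, 2 t)`, `B = B' * T`.  `Γ₁ = comap π (normalizer L)` contains all rows; if `T < Γ₁.index` we gain.  Else `Δ = {(h, γ) : MulAut E × Γ | γ ∈ Γ₁, (h, π γ) ∈ T}` is a finite group, `p = snd` has image `Γ₁` and kernel of order at most `q₁ ^ 2`, `φ = fst`.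
`row' i = {(h, γ) ∈ Δ | γ ∈ row i, h fixes F i}` fixes `F i`.  `hGA` with `T * q₁ ^ 2`: either `K' ≤ Δ`, then `K = K'.map p` contains the rows and `T < K.index` (`card K ≤ card K'`, `card Δ ≤ q₁ ^ 2 * card Γ`); or `hU` gives `N', E₁, E₂`.
Then `gam N' 2` acts trivially on `E`: with `u γ e = φ γ e * e⁻¹` any composite of three maps `u γ`, `γ ∈ N'`, is trivial; replace `E₁` by `E₁ ⊓ E₂`; show that `⁅N', N'⁆` fixes `E₂` and moves `E` inside `E₁`, then that `⁅⁅N', N'⁆, N'⁆` fixes `E` (compare `nilp_abs` in `Sol/Nilp`).  `N = N'.map p`, `gam` commutes with `map` by `hB`.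
-/

set_option autoImplicit false

open Finset Module Pool.Agent.Work.MP_11a08a_al.Sol
open scoped commutatorElement

namespace Pool.Agent.Work.MP_11a08a_al.Lin

/-- The elements fixing `E₂` and moving `E` inside `E₁`. -/
def gain1_P {Q E : Type} [Group Q] [CommGroup E] (φ : Q →* MulAut E) (N : Subgroup Q)
    (E₁ E₂ : Subgroup E) (h : ∀ γ ∈ N, ∀ e ∈ E₁, φ γ e = e) : Subgroup Q where
  carrier := {γ | γ ∈ N ∧ (∀ e ∈ E₂, φ γ e = e) ∧ ∀ e, φ γ e * e⁻¹ ∈ E₁}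
  one_mem' := ⟨N.one_mem, fun e _ => by simp, fun e => by simp⟩
  mul_mem' := by
    rintro a b ⟨a1, a2, a3⟩ ⟨b1, b2, b3⟩
    refine ⟨N.mul_mem a1 b1, fun e he => by rw [map_mul, MulAut.mul_apply, b2 e he, a2 e he],
      fun e => ?_⟩
    have q := h a a1 _ (b3 e)
    rw [map_mul, map_inv, mul_inv_eq_iff_eq_mul] at q
    rw [map_mul, MulAut.mul_apply, q, mul_assoc]
    exact E₁.mul_mem (b3 e) (a3 e)
  inv_mem' := by
    rintro a ⟨a1, a2, a3⟩
    refine ⟨N.inv_mem a1, fun e he => ?_, fun e => ?_⟩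
    · rw [map_inv, MulAut.inv_apply, MulEquiv.symm_apply_eq, a2 e he]
    · have := E₁.inv_mem (a3 (φ a⁻¹ e))
      rwa [← MulAut.mul_apply, ← map_mul, mul_inv_cancel, map_one, MulAut.one_apply, mul_inv_rev,
        inv_inv] at this

theorem gain1_two {E : Type} [CommGroup E] (a b : MulAut E) (e : E) :
    a (b e) * (b (a e))⁻¹ =
      (a (b e * e⁻¹) * (b e * e⁻¹)⁻¹) * (b (a e * e⁻¹) * (a e * e⁻¹)⁻¹)⁻¹ := by
  simp only [map_mul, map_inv]
  apply Additive.ofMul.injective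
  simp only [ofMul_mul, ofMul_inv]
  abel

theorem gain1_nil {Q E : Type} [Group Q] [CommGroup E] (φ : Q →* MulAut E) (N : Subgroup Q)
    (E₁ E₂ : Subgroup E) (h : ∀ γ ∈ N, (∀ e, φ γ e * e⁻¹ ∈ E₂) ∧
      (∀ e ∈ E₂, φ γ e * e⁻¹ ∈ E₁) ∧ ∀ e ∈ E₁, φ γ e = e) : gam N 2 ≤ φ.ker := by
  have key : ∀ a b : Q, ∀ e, φ ⁅a, b⁆ e * e⁻¹ =
      φ a (φ b (φ (b * a)⁻¹ e)) * (φ b (φ a (φ (b * a)⁻¹ e)))⁻¹ := fun a b e => by
    simp only [← MulAut.mul_apply, ← map_mul]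
    rw [← mul_assoc b a, mul_inv_cancel, map_one, MulAut.one_apply, commutatorElement_def,
      mul_inv_rev, mul_assoc, mul_assoc]
  have h1 : gam N 1 ≤ gain1_P φ N E₁ E₂ fun γ hγ => (h γ hγ).2.2 := by
    refine Subgroup.commutator_le.2 fun a ha b hb => ⟨?_, fun e he => ?_, fun e => ?_⟩
    · rw [commutatorElement_def]
      exact N.mul_mem (N.mul_mem (N.mul_mem ha hb) (N.inv_mem ha)) (N.inv_mem hb)
    · have h2 : φ (b * a)⁻¹ e ∈ E₂ := by
        simpa using E₂.mul_mem ((h _ (N.inv_mem (N.mul_mem hb ha))).1 e) he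
      rw [← mul_inv_eq_one, key, gain1_two, (h a ha).2.2 _ ((h b hb).2.1 _ h2),
        (h b hb).2.2 _ ((h a ha).2.1 _ h2)]
      simp
    · rw [key, gain1_two]
      exact E₁.mul_mem ((h a ha).2.1 _ ((h b hb).1 _)) (E₁.inv_mem ((h b hb).2.1 _ ((h a ha).1 _)))
  refine Subgroup.commutator_le.2 fun c hc b hb => ?_
  obtain ⟨-, c2, c3⟩ := h1 hc
  refine MonoidHom.mem_ker.2 (MulEquiv.ext fun e => ?_)
  rw [MulAut.one_apply, ← mul_inv_eq_one, key, gain1_two, c2 _ ((h b hb).1 _),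
    (h b hb).2.2 _ (c3 _)]
  simp

theorem gain1_idx {Δ Γ : Type} [Group Δ] [Finite Δ] [Group Γ] [Finite Γ] (p : Δ →* Γ)
    (K : Subgroup Δ) : K.index ≤ Nat.card p.ker * (K.map p).index := by
  have h1 : Nat.card Δ ≤ Nat.card p.ker * Nat.card Γ := by
    rw [← p.ker.card_mul_index, Subgroup.index_ker]
    exact Nat.mul_le_mul_left _ (Subgroup.card_le_card_group _)
  have h2 : Nat.card (K.map p) ≤ Nat.card K :=
    Nat.card_le_card_of_surjective _ (p.subgroupMap_surjective K)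
  rw [← K.card_mul_index, ← (K.map p).card_mul_index] at h1
  refine Nat.le_of_mul_le_mul_left (h1.trans ?_) (Nat.card_pos (α := K))
  rw [mul_left_comm]
  exact Nat.mul_le_mul_right _ h2

theorem gain1 (hGA : StmtGA) (hU : StmtUni) (hB : StmtBasic) : StmtGain1 := by
  intro s q₁
  refine ⟨2 * q₁ ^ s + 1, fun T => ?_⟩
  obtain ⟨B', hB'⟩ := hU (T * q₁ ^ 2) (2 * q₁ ^ s)
  refine ⟨B' * T, ?_⟩
  rintro W Γ κ _ _ _ _ S L 𝓝 π I row ⟨E, _, _, R, h1, h2, h3, h4⟩ hπ hI hrow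
  obtain ⟨Γ₁, hΓ₁⟩ : ∃ Γ₁ : Subgroup Γ,
      Γ₁ = (Subgroup.normalizer (L : Set (End ℂ W)ˣ)).comap π := ⟨_, rfl⟩
  have m1 : ∀ γ, γ ∈ Γ₁ ↔ Nm (π γ) L := fun γ => by rw [hΓ₁]; rfl
  by_cases hT : T < Γ₁.index
  · refine Or.inl ⟨Γ₁, I, Subset.rfl, hT, Nat.le_mul_of_pos_left _ (Nat.succ_pos _),
      fun i hi γ hγ => ?_⟩
    obtain ⟨N, -, hN⟩ := hrow i hi
    exact (m1 γ).2 (hN γ hγ).1
  have : Finite (MulAut E) := Finite.of_injective _ DFunLike.coe_injective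
  obtain ⟨Δ, hΔ⟩ : ∃ Δ : Subgroup (MulAut E × Γ), Δ = Γ₁.comap (MonoidHom.snd _ _) ⊓
      R.comap ((MonoidHom.id _).prodMap π) := ⟨_, rfl⟩
  have m2 : ∀ z, z ∈ Δ ↔ z.2 ∈ Γ₁ ∧ (z.1, π z.2) ∈ R := fun z => by rw [hΔ]; rfl
  let p : Δ →* Γ := (MonoidHom.snd _ _).comp Δ.subtype
  let φ : Δ →* MulAut E := (MonoidHom.fst _ _).comp Δ.subtype
  have hp : p.range = Γ₁ := by
    refine le_antisymm ?_ fun γ hγ => ?_
    · rintro _ ⟨z, rfl⟩
      exact ((m2 z).1 z.2).1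
    · obtain ⟨h, hh⟩ := h1 _ (hπ γ) ((m1 γ).1 hγ)
      exact ⟨⟨(h, γ), (m2 _).2 ⟨hγ, hh⟩⟩, rfl⟩
  have hk : Nat.card p.ker ≤ q₁ ^ 2 := by
    refine le_trans ?_ h2
    rw [← Nat.card_coe_set_eq]
    refine Nat.card_le_card_of_injective (fun z => ⟨φ z.1, ?_⟩) fun z z' e => ?_
    · have k1 := ((m2 _).1 z.1.2).2
      have k2 : z.1.1.2 = 1 := z.2
      rw [k2, map_one] at k1
      exact k1
    · have k2 : z.1.1.2 = 1 := z.2
      have k3 : z'.1.1.2 = 1 := z'.2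
      exact Subtype.ext (Subtype.ext (Prod.ext (congrArg Subtype.val e) (k2.trans k3.symm)))
  have hF : ∀ i ∈ I, ∃ F : Subgroup E, F.index ≤ q₁ ^ s ∧
      ∀ γ ∈ row i, ∃ z : Δ, p z = γ ∧ ∀ e ∈ F, φ z e = e := fun i hi => by
    obtain ⟨N, hN, k1⟩ := hrow i hi
    obtain ⟨F, k2, k3⟩ := h4 N hN
    refine ⟨F, k2, fun γ hγ => ?_⟩
    obtain ⟨h, k4, k5⟩ := k3 _ (hπ γ) (k1 γ hγ).1 (k1 γ hγ).2
    exact ⟨⟨(h, γ), (m2 _).2 ⟨(m1 γ).2 (k1 γ hγ).1, k4⟩⟩, rfl, k5⟩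
  choose! F hF1 hF2 using hF
  rcases hGA Δ E κ ((MulAut.toPerm E).comp φ) I
    (fun i => {z | p z ∈ row i ∧ ∀ e ∈ F i, φ z e = e}) (q₁ ^ s) (T * q₁ ^ 2) (fun i hi => by
      rw [← (F i).index_mul_card]
      exact Nat.mul_le_mul (hF1 i hi) (Nat.card_le_card_of_injective
        (fun e => ⟨e.1, fun z hz => hz.2 _ e.2⟩)
        fun e e' k => Subtype.ext (Subtype.mk.inj k))) hI with
    ⟨K, I', k1, k2, k3, k4⟩ | k
  · refine Or.inl ⟨K.map p, I', k1, ?_, k3.trans (Nat.mul_le_mul_right _ (Nat.le_succ _)),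
      fun i hi γ hγ => ?_⟩
    · have k5 := (k2.trans_le (gain1_idx p K)).trans_le (Nat.mul_le_mul_right _ hk)
      rw [mul_comm T] at k5
      exact Nat.lt_of_mul_lt_mul_left k5
    · obtain ⟨z, rfl, k5⟩ := hF2 i (k1 hi) γ hγ
      exact ⟨z, k4 i hi ⟨hγ, k5⟩, rfl⟩
  · obtain ⟨N, E₁, E₂, -, k1, k2⟩ := hB' Δ E φ k
    refine Or.inr ⟨N.map p, ?_, fun γ hγ => ?_⟩
    · rw [Subgroup.index_map, hp]
      exact Nat.mul_le_mul ((Subgroup.index_antitone le_sup_left).trans k1) (not_lt.1 hT)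
    · rw [← (hB.2.2.1 Δ N 2).2.2.2 Γ p] at hγ
      obtain ⟨z, hz, rfl⟩ := hγ
      have k3 : z.1.1 = 1 := gain1_nil φ N E₁ E₂ k2 hz
      have k4 := ((m2 _).1 z.2).2
      rw [k3] at k4
      exact h3 _ k4

end Pool.Agent.Work.MP_11a08a_al.Lin
end

-- merged part: Pool.Agent.Work.MP_11a08a_al.Lin.K2
section
/-!
Compare `Lin/BlkU`.  `W = perp U`, `w = dim W ≤ s`.  `Fix B` is graded (elements of `O` preserve the sorts) and lies in `W` (a homogeneous vector outside `W` has a large orbit under `A U` by `hW` with `j = 1`).  Item 8 of `hB` for `Fix B ≤ W` gives `j`, `v` with `j + f = w`; `hI` gives `card B ≤ q ^ (j rk + 1024) * card (A U)`.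
For a homogeneous basis of `W` (item 8 for `⊥ ≤ W`), `hW` for `⊤` gives `q ^ (w (rk - w - 3)) * card (A U) ≤ card (A ⊤)` (`A U` fixes the tuple; `(f, a) ↦ e f * a` is injective), and `hI` gives `card (A ⊤) ≤ q ^ (w rk + 1024) * card (A U)`.
`hM` with `X` = the homogeneous vectors of `W` outside `Fix B` and `T = W` gives `b ∈ B` with `b ∘ v` independent modulo `W`; so `q ^ (j (rk U - j - 3)) * card (A U) ≤ card B`.
-/

set_option autoImplicit false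

open Module
open scoped commutatorElement

namespace Pool.Agent.Work.MP_11a08a_al.Lin

theorem k2_inj {K V : Type} [Field K] [AddCommGroup V] [Module K V] [Finite V]
    {A A' J : Subgroup (V ≃ₗ[K] V)} (hA : A ≤ J) (hA' : A' ≤ J) {j : ℕ} {v : Fin j → V}
    (hv : ∀ a ∈ A, ∀ i, a (v i) = v i) {b : V ≃ₗ[K] V} (hb : b ∈ J) :
    Set.ncard {f : Fin j → V | ∃ e ∈ A', ∀ i, f i = e (b (v i))} * Nat.card A ≤ Nat.card J := by
  have : Finite (V ≃ₗ[K] V) := Finite.of_injective _ DFunLike.coe_injective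
  have h : ∀ f : {f : Fin j → V | ∃ e ∈ A', ∀ i, f i = e (b (v i))},
      ∃ e ∈ A', ∀ i, f.1 i = e (b (v i)) := fun f => f.2
  choose e he1 he2 using h
  rw [← Nat.card_coe_set_eq, ← Nat.card_prod]
  refine Nat.card_le_card_of_injective (fun z => (⟨e z.1 * b * z.2.1,
    J.mul_mem (J.mul_mem (hA' (he1 _)) hb) (hA z.2.2)⟩ : J)) ?_
  rintro ⟨f, a⟩ ⟨f', a'⟩ h
  have h1 : e f * b * a.1 = e f' * b * a'.1 := congrArg Subtype.val h
  have h2 : f = f' := by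
    refine Subtype.ext (funext fun i => ?_)
    have h3 := congrArg (fun g : V ≃ₗ[K] V => g (v i)) h1
    simp only [LinearEquiv.mul_apply, hv _ a.2, hv _ a'.2] at h3
    rw [he2, he2]
    exact h3
  subst h2
  rw [Subtype.ext (mul_left_cancel h1)]

theorem k2 (hB : StmtPB) (hE : StmtPE) (hW : StmtWT) (hI : StmtIX) (hM : StmtMov) : StmtK2 := by
  intro K V _ _ _ _ _ p n U B hU hn hrk hBO hN
  have : Finite V := Module.finite_of_finite K
  obtain ⟨-, b2, -, -, b5, b6, -, b8, -⟩ := hB K V p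
  obtain ⟨-, hWn, -, -, b65, -⟩ := b6 U hU
  obtain ⟨-, -, -, -, -, -, -, -, E9, E10, -⟩ := hE K V p
  have d1 : finrank K (p.perp U) ≤ n := by have := (b2 U).1; omega
  have d2 : p.rk ⊤ ≤ p.rk U + n := by omega
  have hq : 1 < Nat.card K := Finite.one_lt_card
  have hAW : ∀ a ∈ p.A U, ∀ w ∈ p.perp U, a w = w := fun a ha => ((E10 U).1 ha).2
  have g1 : p.Gr (Fix B) := fun u hu => by
    obtain ⟨u1, h1, u2, h2, e, h⟩ := blku_split p b5.1 (Submodule.mem_top (x := u))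
    exact Submodule.mem_sup.2 ⟨u1, ⟨fun y hy => ((h y (hBO hy)).2 (hu y hy)).1, h1.2⟩,
      u2, ⟨fun y hy => ((h y (hBO hy)).2 (hu y hy)).2, h2.2⟩, e.symm⟩
  have g2 : ∀ t, Fix B ⊓ p.P t ≤ p.perp U := fun t u hu => by
    by_contra h
    have c1 := (hW K V p U hU 1 (fun _ => t) (fun _ => u) (by omega) ⟨fun _ => hu.2, fun a ha i => by
      rw [Fin.sum_univ_one] at ha
      rw [Subsingleton.elim i 0]
      by_contra h1
      exact h (((p.perp U).smul_mem_iff h1).1 ha)⟩).2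
    have c2 : Set.ncard {f : Fin 1 → V | ∃ e ∈ p.A U, ∀ i, f i = e u} ≤ 1 := by
      refine (Set.ncard_le_ncard (t := {fun _ => u}) ?_).trans (Set.ncard_singleton _).le
      rintro f ⟨e, he, hf⟩
      exact funext fun i => (hf i).trans (hu.1 e (hN.1 he))
    exact absurd (c1.trans c2) (not_le.2 (Nat.one_lt_pow (by omega) hq))
  have g3 : Fix B ≤ p.perp U := le_trans g1 (sup_le (g2 true) (g2 false))
  obtain ⟨j, s, v, hind, hvW, hsp, hj⟩ := b8 (Fix B) (p.perp U) g1 hWn.1 g3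
  have c1 := (hI K V p U hU).2.2 B (Fix B) j s v hBO (fun h hh r hr => hr h hh) hind.1 hsp
  obtain ⟨w, s', v', hind', hvW', hsp', hw⟩ := b8 ⊥ (p.perp U) bot_le hWn.1 bot_le
  rw [finrank_bot, add_zero] at hw
  have c2 := (hI K V p U hU).2.2 (p.A ⊤) ⊥ w s' v' (fun a ha => ((E10 ⊤).1 ha).1)
    (fun h _ r hr => by rw [(Submodule.mem_bot K).1 hr, map_zero]) hind'.1 hsp'
  have pt : p.perp ⊤ = ⊥ := by simpa using b5.2
  have c3' := k2_inj (v := v') (E9 U ⊤ le_top) le_rfl (fun a ha i => hAW a ha _ (hvW' i))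
    (p.A ⊤).one_mem
  simp only [LinearEquiv.coe_one, id] at c3'
  have c3 := (Nat.mul_le_mul_right (Nat.card (p.A U))
    (hW K V p ⊤ b5 w s' v' (by omega) (pt ▸ hind')).2).trans c3'
  have c0 : (p.perp U : Set V).ncard ≤ Nat.card K ^ n := blku_card d1
  obtain ⟨b, hb, hbv⟩ := hM K V p U hU (by omega) B hBO hN
    {u | u ∈ p.perp U ∧ (∃ s, u ∈ p.P s) ∧ ∃ b ∈ B, b u ≠ u} (p.perp U) (by
      calc _ ≤ Nat.card K ^ n * Nat.card K ^ n :=
          Nat.mul_le_mul ((Set.ncard_le_ncard (fun _ h => h.1) (Set.toFinite _)).trans c0) c0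
        _ = Nat.card K ^ (2 * n) := by ring
        _ < _ := Nat.pow_lt_pow_right hq (by omega)) fun u hu => hu.2
  have hR : ∀ u ∈ p.perp U, (∃ s, u ∈ p.P s) → b u ∈ p.perp U → u ∈ Fix B := by
    intro u hu hs hyu y hy
    by_contra h
    exact hbv u ⟨hu, hs, y, hy, h⟩ hyu
  have hb' : p.Ind (p.perp U) s fun i => b (v i) := by
    refine ⟨fun i => ((hBO hb).2.2 _ _).2 (hind.1 i), fun c hc' => hind.2 c ?_⟩
    have h1 : ∑ i, c i • v i ∈ p.perp U :=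
      Submodule.sum_mem _ fun i _ => Submodule.smul_mem _ _ (hvW i)
    have h2 : b (∑ i, c i • v i) ∈ p.perp U := by
      simpa only [map_sum, map_smul] using hc'
    obtain ⟨u1, m1, u2, m2, e, h⟩ := blku_split p hWn.1 h1
    obtain ⟨h3, h4⟩ := (h _ (hBO hb)).1 h2
    rw [e]
    exact Submodule.add_mem _ (hR u1 m1.1 ⟨_, m1.2⟩ h3) (hR u2 m2.1 ⟨_, m2.2⟩ h4)
  have c4 := (Nat.mul_le_mul_right (Nat.card (p.A U))
    (hW K V p U hU j s _ (by omega) hb').2).trans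
    (k2_inj hN.1 hN.1 (fun a ha i => hAW a ha _ (hvW i)) hb)
  generalize finrank K (Fix B) = f at hj ⊢
  have e0 : w * p.rk ⊤ = j * p.rk ⊤ + f * p.rk ⊤ := by rw [hw, ← hj, add_mul]
  have e1 : w * p.rk ⊤ ≤ w * (p.rk ⊤ - w - 3) + n * (2 * n + 3) :=
    (Nat.mul_le_mul_left w (by omega : p.rk ⊤ ≤ (p.rk ⊤ - w - 3) + (2 * n + 3))).trans (by
      rw [mul_add w]
      exact Nat.add_le_add_left (Nat.mul_le_mul_right _ (by omega)) _)
  have e2 : j * p.rk ⊤ ≤ j * (p.rk U - j - 3) + n * (2 * n + 3) :=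
    (Nat.mul_le_mul_left j (by omega : p.rk ⊤ ≤ (p.rk U - j - 3) + (2 * n + 3))).trans (by
      rw [mul_add j]
      exact Nat.add_le_add_left (Nat.mul_le_mul_right _ (by omega)) _)
  refine ⟨g1, (Nat.mul_le_mul_left _ c1).trans (le_trans ?_ (Nat.mul_le_mul_left _ c3)),
    c2.trans (le_trans ?_ (Nat.mul_le_mul_left _ c4))⟩
  · rw [← mul_assoc, ← mul_assoc, ← pow_add, ← pow_add]
    exact Nat.mul_le_mul_right _ (Nat.pow_le_pow_right hq.le (by omega))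
  · rw [← mul_assoc, ← pow_add]
    exact Nat.mul_le_mul_right _ (Nat.pow_le_pow_right hq.le (by omega))

end Pool.Agent.Work.MP_11a08a_al.Lin
end
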