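import Pool.Agent.Work.MP_11a08a_al.Lin.DefsG

/-!
Direct computations with the simp lemmas of `DefsP`.  (1) `LinearEquiv.ofLinear` with the map of `(x, w)` and the map of `(x, -w)`; `β (e v) x = β v x`, `β (e v) w = β v w` as `β x x = β w w = β x w = β w x = 0`.
`e ∈ p.O`: with `a = β v x`, `b = β v w`, `e v = v + u`, `u = a • w - (ε b) • x` is singular (`Sing.add`), `β v u = c - ε σ c` for `c = σ a * b` lies in `Λ` (`p.low`), use `g_add`; `β w v' = ε σ (β v' w)`.
Sorts: trivial if all `P s = ⊤`; in the split case for `v ∈ P s` one has `β v w = 0`, `e v = v + a • w ∈ P s`, for `v ∈ P (!s)` one has `β v x = 0`; the converse with the inverse map, which is the map of `(x, -w)`.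
The last three items by `Subgroup.closure_induction` (`{e | ∀ v, e v - v ∈ U}` is a subgroup: `e e' v - v = (e (e' v) - e' v) + (e' v - v)`).
-/

set_option autoImplicit false

open Module
open scoped commutatorElement

namespace Pool.Agent.Work.MP_11a08a_al.Lin

section
variable {K V : Type} [Field K] [AddCommGroup V] [Module K V] {p : Polar K V}

theorem pe_comp {x w w' : V} (h1 : p.β x x = 0) (h2 : p.β x w = 0) (h3 : p.β x w' = 0)
    (h4 : p.β w' w = 0) {f f' : V → V} (hf : ∀ v, f v = v + p.β v x • w - (p.ε * p.β v w) • x)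
    (hf' : ∀ v, f' v = v + p.β v x • w' - (p.ε * p.β v w') • x) (v : V) :
    f (f' v) = v + p.β v x • (w + w') - (p.ε * p.β v (w + w')) • x := by
  have h5 := p.β_comm.1 h3
  have a : p.β (f' v) x = p.β v x := by rw [hf']; simp [h1, h5]
  have b : p.β (f' v) w = p.β v w := by rw [hf']; simp [h2, h4]
  rw [hf, a, b, hf', p.β_add_right]
  module

theorem pe_lin (x w : V) :
    ∃ f : V →ₗ[K] V, ∀ v, f v = v + p.β v x • w - (p.ε * p.β v w) • x :=
  ⟨LinearMap.id + (p.βl x).smulRight w - (p.ε • p.βl w).smulRight x, fun _ => rfl⟩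

theorem pe_ex {x w : V} (h1 : p.β x x = 0) (h2 : p.β x w = 0) (h3 : p.β w w = 0) :
    ∃ e, p.Ei x w e := by
  obtain ⟨f, hf⟩ := pe_lin (p := p) x w
  obtain ⟨f', hf'⟩ := pe_lin (p := p) x (-w)
  refine ⟨LinearEquiv.ofLinearMap f f' (LinearMap.ext fun v => ?_) (LinearMap.ext fun v => ?_), hf⟩
  · simpa using pe_comp h1 h2 (by simp [h2]) (by simp [h3]) hf hf' v
  · simpa using pe_comp h1 (by simp [h2]) h2 (by simp [h3]) hf' hf v

theorem pe_uniq {x w : V} {e e' : V ≃ₗ[K] V} (h : p.Ei x w e) (h' : p.Ei x w e') : e = e' :=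
  LinearEquiv.ext fun v => (h v).trans (h' v).symm

theorem pe_one (x : V) : p.Ei x 0 1 := fun v => by simp

theorem pe_inv {x w : V} {e : V ≃ₗ[K] V} (h1 : p.β x x = 0) (h2 : p.β x w = 0) (h3 : p.β w w = 0)
    (h : p.Ei x w e) : p.Ei x (-w) e⁻¹ := by
  obtain ⟨e', he'⟩ := pe_ex (p := p) (x := x) (w := -w) h1 (by simp [h2]) (by simp [h3])
  have a : p.Ei x (w + -w) (e * e') :=
    pe_comp (f := e) (f' := e') h1 h2 (by simp [h2]) (by simp [h3]) h he'
  rw [add_neg_cancel] at a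
  rwa [inv_eq_of_mul_eq_one_right (pe_uniq a (pe_one x))]

theorem pe_sing {h : V ≃ₗ[K] V} (hh : h ∈ p.O) (v : V) : p.Sing (h v) ↔ p.Sing v :=
  ⟨fun a => by simpa [Polar.Sing] using p.Λ.sub_mem a (hh.2.1 v),
    fun a => by simpa [Polar.Sing] using p.Λ.add_mem (hh.2.1 v) a⟩

theorem pe_conj {h : V ≃ₗ[K] V} (hh : h ∈ p.O) {x w : V} {e : V ≃ₗ[K] V} (he : p.Ei x w e) :
    p.Ei (h x) (h w) (h * e * h⁻¹) := by
  intro v
  obtain ⟨u, rfl⟩ := h.surjective v
  have a : (h * e * h⁻¹) (h u) = h (e u) := congrArg (fun t => h (e t)) (h.symm_apply_apply u)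
  rw [a, he, hh.1, hh.1, map_sub, map_add, map_smul, map_smul]

theorem pe_sort {U : Submodule K V} {s : Bool} {x w : V} {e : V ≃ₗ[K] V} (ha : p.Adm U s x w)
    (he : p.Ei x w e) (t : Bool) {v : V} (hv : v ∈ p.P t) : e v ∈ p.P t := by
  rcases p.sorts with h | ⟨-, h⟩
  · rw [h]
    trivial
  rw [he]
  by_cases k : t = s
  · subst k
    have a : p.β v w = 0 := (h t v hv).2 w ha.2.1.2
    rw [a, mul_zero, zero_smul, sub_zero]
    exact add_mem hv (Submodule.smul_mem _ _ ha.2.1.2)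
  · obtain rfl : t = !s := Bool.eq_not_iff.2 k
    have a : p.β v x = 0 := (h _ v hv).2 x ha.1.2
    rw [a, zero_smul, add_zero]
    exact sub_mem hv (Submodule.smul_mem _ _ ha.1.2)

theorem pe_mem {U : Submodule K V} {s : Bool} {x w : V} {e : V ≃ₗ[K] V} (ha : p.Adm U s x w)
    (he : p.Ei x w e) : e ∈ p.O := by
  obtain ⟨hx, hw, sx, sw, h2⟩ := id ha
  have h1 := sx.β_self
  have h3 := sw.β_self
  have h4 := p.β_comm.1 h2
  refine ⟨fun v v' => ?_, fun v => ?_, fun t v => ⟨fun hv => ?_, pe_sort ha he t⟩⟩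
  · rw [he v, he v']
    simp only [Polar.β_sub_left, Polar.β_add_left, Polar.β_smul_left, Polar.β_sub_right,
      Polar.β_add_right, Polar.β_smul_right, h1, h2, h3, h4, map_mul, Polar.σε, p.β_symm v' w,
      p.β_symm v' x]
    linear_combination -(p.β v w * p.σ (p.β v' x)) * p.εε
  · have a : e v = v + (p.β v x • w + (-(p.ε * p.β v w)) • x) := by
      rw [he]
      module
    have b : p.Sing (p.β v x • w + (-(p.ε * p.β v w)) • x) :=
      (sw.smul _).add (sx.smul _) (by simp [h4])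
    have c := p.Λ.add_mem (p.Λ.add_mem (p.g_add v (p.β v x • w + (-(p.ε * p.β v w)) • x)) b)
      (p.low (p.σ (p.β v x) * p.β v w))
    rw [a]
    convert c using 1
    simp only [Polar.β_add_right, Polar.β_smul_right, map_neg, map_mul, Polar.σε, Polar.σσ]
    ring
  · have a : p.Adm U s x (-w) := ⟨hx, neg_mem hw, sx, sw.neg, by simp [h2]⟩
    have b := pe_sort a (pe_inv h1 h2 h3 he) t hv
    rwa [show e⁻¹ (e v) = v from e.symm_apply_apply v] at b

theorem pe_sub {U : Submodule K V} {e : V ≃ₗ[K] V} (he : e ∈ p.A U) : ∀ v, e v - v ∈ U := by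
  induction he using Subgroup.closure_induction with
  | mem e he =>
    obtain ⟨s, x, w, ha, he⟩ := he
    intro v
    rw [he, sub_right_comm, add_sub_cancel_left]
    exact sub_mem (Submodule.smul_mem _ _ ha.2.1.1) (Submodule.smul_mem _ _ ha.1.1)
  | one => intro v; simp
  | mul a b _ _ ha hb =>
    intro v
    simpa using add_mem (ha (b v)) (hb v)
  | inv a _ ha =>
    intro v
    simpa using neg_mem (ha (a.symm v))

end


theorem pe : StmtPE := by
  intro K V _ _ _ p
  refine ⟨fun U s x w h => pe_ex h.2.2.1.β_self h.2.2.2.2 h.2.2.2.1.β_self,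
    fun x w e e' => pe_uniq, pe_one,
    fun x w w' e e' h1 h2 h3 h4 h h' => pe_comp (f := e) (f' := e') h1 h2 h3 h4 h h',
    fun x w e => pe_inv, fun x w e h v => ?_, fun a x w e => forall_congr' fun v => ?_,
    fun h hh => ⟨pe_sing hh, fun x w e => pe_conj hh⟩, fun U U' hU => ?_,
    fun U => ⟨?_, fun e => pe_sub⟩, fun U h hh hU e he => ?_⟩
  · have a : p.ε * p.β v (-(p.ε • x)) = -p.β v x := by simp [← mul_assoc]
    rw [h, a]
    module
  · have a : v + p.β v (a • x) • w - (p.ε * p.β v w) • a • x =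
        v + p.β v x • p.σ a • w - (p.ε * p.β v (p.σ a • w)) • x := by
      rw [p.β_smul_right, p.β_smul_right, p.σσ]
      module
    rw [a]
  · refine Subgroup.closure_mono ?_
    rintro e ⟨s, x, w, ⟨hx, hw, h⟩, he⟩
    exact ⟨s, x, w, ⟨⟨hU hx.1, hx.2⟩, ⟨hU hw.1, hw.2⟩, h⟩, he⟩
  · refine (Subgroup.closure_le _).2 ?_
    rintro e ⟨s, x, w, ha, he⟩
    refine ⟨pe_mem ha he, fun v hv => ?_⟩
    rw [he, hv x ha.1.1, hv w ha.2.1.1]
    simp
  · induction he using Subgroup.closure_induction with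
    | mem e he =>
      obtain ⟨s, x, w, ⟨hx, hw, sx, sw, h2⟩, he⟩ := he
      exact Subgroup.subset_closure ⟨s, h x, h w, ⟨⟨(hU x).2 hx.1, (hh.2.2 _ x).2 hx.2⟩,
        ⟨(hU w).2 hw.1, (hh.2.2 _ w).2 hw.2⟩, (pe_sing hh x).2 sx, (pe_sing hh w).2 sw,
        (hh.1 x w).trans h2⟩, pe_conj hh he⟩
    | one => simp
    | mul a b _ _ ha hb =>
      rw [← conj_mul]
      exact mul_mem ha hb
    | inv a _ ha =>
      rw [← conj_inv]
      exact inv_mem ha

end Pool.Agent.Work.MP_11a08a_al.Lin
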