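import Pool.Agent.Work.MP_11a08a_al.Lin.Sup
import Pool.Agent.Work.MP_11a08a_al.Lin.MixU
import Pool.Agent.Work.MP_11a08a_al.Lin.DefsG
import Pool.Agent.Work.MP_11a08a_al.Sol.Main
import Pool.Agent.Work.MP_11a08a_al.Lin.GainL
import Pool.Agent.Work.MP_11a08a_al.Lin.PE
import Pool.Agent.Work.MP_11a08a_al.Lin.High
import Pool.Agent.Work.MP_11a08a_al.Lin.K2
import Pool.Agent.Work.MP_11a08a_al.Lin.Cls

-- merged part: Pool.Agent.Work.MP_11a08a_al.Lin.FT
section
/-!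
The proof of Faure.  Write `[v] = span {F v}`.  `F v = 0 ↔ v = 0`; pairs and triples are independent iff their images are (`u ≠ 0`, `v ∉ span {u}`, `w ∉ span {u, v}`).  `C x x' y y'` means `x' ∈ [x]`, `y' ∈ [y]`, `x' + y' ∈ [x + y]`.
Lemma 1: for independent `x, y` and `0 ≠ x' ∈ [x]` there is a unique `y'` with `C x x' y y'`, and `y' ≠ 0` (`F (x + y) = a F x + b F y` with `a, b ≠ 0`).  Lemma 2: for independent `x, y, z`, `C x x' y y'` and `C x x' z z'` give `x' + y' + z' ∈ [x + y + z]`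
(`x + y + z ∈ span {x + y, z} ⊓ span {x + z, y}`) and `C y y' z z'` (`y + z ∈ span {y, z} ⊓ span {x + y + z, x}`).  Fix independent `a 0, a 1, a 2` with pairwise compatible nonzero `a' i`.  For `x ∉ span {a i}` let `h i x` be given by lemma 1; `h i x = h j x` by lemma 2, directly if `a i, a j, x` are independent, else through the third index.
This defines `h`, `h 0 = 0`.  Additive for independent `x, y`: take `a i ∉ span {x, y}`, lemma 2 and uniqueness.  For dependent nonzero `x, y` take `z ∉ span {x}` and compute `h (x + (y + z))`.  `h (c • x) = θ c x • h x`, and `θ c x` does not depend on `x`; `θ` is a ring homomorphism;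
onto: `h x + c • h y ∈ [v]` forces `v = a x + b y`, `c = θ (b / a)`.
-/

set_option autoImplicit false

open Module
open scoped commutatorElement

namespace Pool.Agent.Work.MP_11a08a_al.Lin

section

variable {K V V' : Type} [Field K] [AddCommGroup V] [Module K V] [AddCommGroup V'] [Module K V']

/-- Independent pairs. -/
def ft_I2 (K : Type) [Field K] [Module K V] (x y : V) : Prop :=
  ∀ a b : K, a • x + b • y = 0 → a = 0 ∧ b = 0

/-- Independent triples. -/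
def ft_I3 (K : Type) [Field K] [Module K V] (x y z : V) : Prop :=
  ∀ a b c : K, a • x + b • y + c • z = 0 → a = 0 ∧ b = 0 ∧ c = 0

/-- `w` is a combination of `u` and `v`. -/
def ft_L (K : Type) [Field K] [Module K V] (u v w : V) : Prop := ∃ a b : K, a • u + b • v = w

theorem ft_L0 {x : V} : ft_L K 0 0 x ↔ x = 0 :=
  ⟨fun ⟨a, b, h⟩ => by simpa using h.symm, fun h => ⟨0, 0, by simp [h]⟩⟩

theorem ft_I2_iff {x y : V} : ft_I2 K x y ↔ ¬ ft_L K 0 0 x ∧ ¬ ft_L K x 0 y := by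
  rw [ft_L0]
  constructor
  · intro h
    refine ⟨fun h0 => one_ne_zero (h 1 0 (by simp [h0])).1, fun ⟨a, b, e⟩ => ?_⟩
    exact one_ne_zero (h (-a) 1 (by rw [← e]; module)).2
  · rintro ⟨h1, h2⟩ a b e
    have hb : b = 0 := by
      by_contra hb
      refine h2 ⟨-(b⁻¹ * a), 0, ?_⟩
      have e1 : y = b⁻¹ • b • y := (inv_smul_smul₀ hb y).symm
      linear_combination (norm := module) -e1 - b⁻¹ • e
    subst hb
    exact ⟨by simpa [h1] using e, rfl⟩

theorem ft_I3_iff {x y z : V} : ft_I3 K x y z ↔ ft_I2 K x y ∧ ¬ ft_L K x y z := by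
  constructor
  · intro h
    refine ⟨fun a b e => ?_, fun ⟨a, b, e⟩ => ?_⟩
    · have h1 := h a b 0 (by simpa using e)
      exact ⟨h1.1, h1.2.1⟩
    · exact one_ne_zero (h (-a) (-b) 1 (by rw [← e]; module)).2.2
  · rintro ⟨h1, h2⟩ a b c e
    have hc : c = 0 := by
      by_contra hc
      refine h2 ⟨-(c⁻¹ * a), -(c⁻¹ * b), ?_⟩
      have e1 : z = c⁻¹ • c • z := (inv_smul_smul₀ hc z).symm
      linear_combination (norm := module) -e1 - c⁻¹ • e
    subst hc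
    have h3 := h1 a b (by simpa using e)
    exact ⟨h3.1, h3.2, rfl⟩

theorem ft_I2.symm {x y : V} (h : ft_I2 K x y) : ft_I2 K y x := fun a b e =>
  (h b a (by rwa [add_comm])).symm

theorem ft_I3.rot {x y z : V} (h : ft_I3 K x y z) : ft_I3 K z x y := fun a b c e => by
  have h1 := h b c a (by linear_combination (norm := module) e)
  exact ⟨h1.2.2, h1.1, h1.2.1⟩

theorem ft_I3.two {x y z : V} (h : ft_I3 K x y z) : ft_I2 K x y := (ft_I3_iff.1 h).1

theorem ft_I3.two' {x y z : V} (h : ft_I3 K x y z) : ft_I2 K x z := h.rot.two.symm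

/-- A relation between vectors that describes a collineation. -/
structure ft_Rel (K : Type) [Field K] [Module K V] [Module K V'] (S : V → V' → Prop) : Prop where
  ex : ∀ x, ∃ x', S x x'
  smul : ∀ {x x'} {c : K}, c ≠ 0 → S x x' → S x (c • x')
  uniq : ∀ {x x' x''}, S x x' → S x x'' → ∃ c : K, c ≠ 0 ∧ x'' = c • x'
  line : ∀ {u u' v v' w w'}, S u u' → S v v' → S w w' → (ft_L K u v w ↔ ft_L K u' v' w')
  zero : S 0 0

namespace ft_Rel

variable {S : V → V' → Prop} (hS : ft_Rel K S)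
include hS

theorem z {x : V} {x' : V'} (h : S x x') : x = 0 ↔ x' = 0 := by
  rw [← ft_L0 (K := K), ← ft_L0 (K := K), hS.line hS.zero hS.zero h]

theorem i2 {x y : V} {x' y' : V'} (hx : S x x') (hy : S y y') : ft_I2 K x y ↔ ft_I2 K x' y' := by
  rw [ft_I2_iff, ft_I2_iff, hS.line hS.zero hS.zero hx, hS.line hx hS.zero hy]

theorem i3 {x y z : V} {x' y' z' : V'} (hx : S x x') (hy : S y y') (hz : S z z') :
    ft_I3 K x y z ↔ ft_I3 K x' y' z' := by
  rw [ft_I3_iff, ft_I3_iff, hS.i2 hx hy, hS.line hx hy hz]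

theorem l1 {x y : V} {x' : V'} (h : ft_I2 K x y) (hx : S x x') :
    ∃ y', S y y' ∧ S (x + y) (x' + y') := by
  obtain ⟨y0, hy⟩ := hS.ex y
  obtain ⟨w, hw⟩ := hS.ex (x + y)
  obtain ⟨a, b, e⟩ := (hS.line hx hy hw).1 ⟨1, 1, by simp⟩
  have ha : a ≠ 0 := by
    rintro rfl
    obtain ⟨c, d, e1⟩ := (hS.line hy hS.zero hw).2 ⟨b, 0, by simpa using e⟩
    exact one_ne_zero (h 1 (1 - c) (by linear_combination (norm := module) -e1)).1
  have hb : b ≠ 0 := by
    rintro rfl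
    obtain ⟨c, d, e1⟩ := (hS.line hx hS.zero hw).2 ⟨a, 0, by simpa using e⟩
    exact one_ne_zero (h (1 - c) 1 (by linear_combination (norm := module) -e1)).2
  refine ⟨(a⁻¹ * b) • y0, hS.smul (mul_ne_zero (inv_ne_zero ha) hb) hy, ?_⟩
  have h1 := hS.smul (inv_ne_zero ha) hw
  rwa [← e, smul_add, inv_smul_smul₀ ha, smul_smul] at h1

theorem l1u {x y : V} {x' y' y'' : V'} (h : ft_I2 K x y) (hx : S x x') (h1 : S y y')
    (h2 : S (x + y) (x' + y')) (h3 : S y y'') (h4 : S (x + y) (x' + y'')) : y'' = y' := by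
  obtain ⟨c, -, rfl⟩ := hS.uniq h1 h3
  obtain ⟨d, -, e⟩ := hS.uniq h2 h4
  obtain ⟨e1, e2⟩ := (hS.i2 hx h1).1 h (1 - d) (c - d) (by linear_combination (norm := module) e)
  rw [show c = 1 by linear_combination e2 - e1, one_smul]

theorem of_smul {x : V} {w w' : V'} {c : K} (h : S x w) (h0 : x ≠ 0) (e : w = c • w') :
    S x w' := by
  have hc : c ≠ 0 := by
    rintro rfl
    exact h0 ((hS.z h).2 (by simpa using e))
  have h1 := hS.smul (inv_ne_zero hc) h
  rwa [e, inv_smul_smul₀ hc] at h1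

theorem l2 {x y z : V} {x' y' z' : V'} (h : ft_I3 K x y z) (hx : S x x') (hy : S y y')
    (hz : S z z') (h1 : S (x + y) (x' + y')) (h2 : S (x + z) (x' + z')) :
    S (x + (y + z)) (x' + (y' + z')) ∧ S (y + z) (y' + z') := by
  have h' := (hS.i3 hx hy hz).1 h
  have k1 : S (x + (y + z)) (x' + (y' + z')) := by
    obtain ⟨w, hw⟩ := hS.ex (x + (y + z))
    obtain ⟨a, b, e1⟩ := (hS.line h1 hz hw).1 ⟨1, 1, by module⟩
    obtain ⟨c, d, e2⟩ := (hS.line h2 hy hw).1 ⟨1, 1, by module⟩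
    obtain ⟨f1, -, f3⟩ := h' (a - c) (a - d) (b - c) (by linear_combination (norm := module) e1 - e2)
    refine hS.of_smul (c := a) hw (fun h0 => one_ne_zero (h 1 1 1 ?_).1) ?_
    · linear_combination (norm := module) h0
    · rw [← e1, show b = a by linear_combination f3 - f1]
      module
  refine ⟨k1, ?_⟩
  obtain ⟨w, hw⟩ := hS.ex (y + z)
  obtain ⟨a, b, e1⟩ := (hS.line hy hz hw).1 ⟨1, 1, by module⟩
  obtain ⟨c, d, e2⟩ := (hS.line k1 hx hw).1 ⟨1, -1, by module⟩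
  obtain ⟨-, f2, f3⟩ := h' (-(c + d)) (a - c) (b - c)
    (by linear_combination (norm := module) e1 - e2)
  refine hS.of_smul (c := a) hw (fun h0 => one_ne_zero (h 0 1 1 ?_).2.1) ?_
  · linear_combination (norm := module) h0
  · rw [← e1, show b = a by linear_combination f3 - f2]
    module

theorem l3 {a b c x : V} {a' b' c' x' : V'} (h : ft_I3 K a b c) (ha : S a a') (hb : S b b')
    (hc : S c c') (hab : S (a + b) (a' + b')) (hac : S (a + c) (a' + c'))
    (hcb : S (c + b) (c' + b')) (hx : S x x') (h1 : ft_I2 K a x) (h2 : ft_I2 K b x)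
    (h3 : S (a + x) (a' + x')) : S (b + x) (b' + x') := by
  by_cases h4 : ft_L K a b x
  swap
  · exact (hS.l2 (ft_I3_iff.2 ⟨h.two, h4⟩) ha hb hx hab h3).2
  obtain ⟨s, t, e⟩ := h4
  have k1 : ft_I3 K a c x := ft_I3_iff.2 ⟨h.two', fun ⟨s', t', e'⟩ => by
    obtain ⟨-, f, -⟩ := h (s - s') t (-t') (by linear_combination (norm := module) e - e')
    subst f
    exact one_ne_zero (h1 (-s) 1 (by linear_combination (norm := module) -e)).2⟩
  have k2 : ft_I3 K c b x := ft_I3_iff.2 ⟨h.rot.two', fun ⟨s', t', e'⟩ => by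
    obtain ⟨f, -, -⟩ := h s (t - t') (-s') (by linear_combination (norm := module) e - e')
    subst f
    exact one_ne_zero (h2 (-t) 1 (by linear_combination (norm := module) -e)).2⟩
  exact (hS.l2 k2 hc hb hx hcb (hS.l2 k1 ha hc hx hac h3).2).2

theorem frame {a : Fin 3 → V} (hI : ∀ i j k, i ≠ j → i ≠ k → j ≠ k → ft_I3 K (a i) (a j) (a k)) :
    ∃ a' : Fin 3 → V', (∀ i, S (a i) (a' i)) ∧ ∀ i j, i ≠ j → S (a i + a j) (a' i + a' j) := by
  have h := hI 0 1 2 (by decide) (by decide) (by decide)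
  obtain ⟨x', hx⟩ := hS.ex (a 0)
  obtain ⟨y', hy, h1⟩ := hS.l1 h.two hx
  obtain ⟨z', hz, h2⟩ := hS.l1 h.two' hx
  have h3 := (hS.l2 h hx hy hz h1 h2).2
  have c : ∀ {u v : V} {u' v' : V'}, S (u + v) (u' + v') → S (v + u) (v' + u') :=
    fun {u v u' v'} h => by rwa [add_comm v, add_comm v']
  refine ⟨![x', y', z'], fun i => ?_, fun i j hij => ?_⟩
  · fin_cases i
    exacts [hx, hy, hz]
  · fin_cases i <;> fin_cases j
    exacts [(hij rfl).elim, h1, h2, c h1, (hij rfl).elim, h3, c h2, c h3, (hij rfl).elim]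

theorem add {a : Fin 3 → V} (hI : ∀ i j k, i ≠ j → i ≠ k → j ≠ k → ft_I3 K (a i) (a j) (a k))
    (hn : ∀ x y, ∃ i, ¬ ft_L K x y (a i)) : ∃ h : V →+ V', ∀ x, S x (h x) := by
  obtain ⟨a', ha, hc⟩ := hS.frame hI
  have ex : ∀ x, ∃ x', S x x' ∧ ∀ i, ft_I2 K (a i) x → S (a i + x) (a' i + x') := fun x => by
    by_cases h0 : ∃ i, ft_I2 K (a i) x
    swap
    · obtain ⟨x', hx⟩ := hS.ex x
      exact ⟨x', hx, fun i hi => (h0 ⟨i, hi⟩).elim⟩
    obtain ⟨i, hi⟩ := h0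
    obtain ⟨x', hx, h1⟩ := hS.l1 hi (ha i)
    refine ⟨x', hx, fun j hj => ?_⟩
    rcases eq_or_ne i j with rfl | hij
    · exact h1
    obtain ⟨k, k1, k2⟩ := (by decide : ∀ i j : Fin 3, ∃ k, i ≠ k ∧ j ≠ k) i j
    exact hS.l3 (hI i j k hij k1 k2) (ha i) (ha j) (ha k) (hc i j hij) (hc i k k1)
      (hc k j k2.symm) hx hi hj h1
  choose h h1 h2 using ex
  have h0 : h 0 = 0 := (hS.z (h1 0)).1 rfl
  have k1 : ∀ x y, ¬ ft_L K x 0 y → h (x + y) = h x + h y := fun x y hxy => by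
    rcases eq_or_ne x 0 with rfl | hx
    · simp [h0]
    obtain ⟨i, hi⟩ := hn x y
    have f1 : ft_I3 K (a i) x y :=
      (ft_I3_iff.2 ⟨ft_I2_iff.2 ⟨fun h => hx (ft_L0.1 h), hxy⟩, hi⟩).rot
    have f2 : ft_I2 K (a i) (x + y) := fun s t e => by
      have f := f1 s t t (by linear_combination (norm := module) e)
      exact ⟨f.1, f.2.1⟩
    obtain ⟨f3, f4⟩ := hS.l2 f1 (ha i) (h1 x) (h1 y) (h2 x i f1.two) (h2 y i f1.two')
    exact hS.l1u f2 (ha i) f4 f3 (h1 _) (h2 _ i f2)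
  refine ⟨AddMonoidHom.mk' h fun x y => ?_, h1⟩
  by_cases hxy : ft_L K x 0 y
  swap
  · exact k1 x y hxy
  obtain ⟨i, hi⟩ := hn x y
  have f1 := k1 y (a i) fun ⟨s, t, e⟩ => hi ⟨0, s, by linear_combination (norm := module) e⟩
  have f2 := k1 x (y + a i) fun ⟨s, t, e⟩ => hi ⟨s, -1, by linear_combination (norm := module) e⟩
  have f3 := k1 (x + y) (a i) fun ⟨s, t, e⟩ => hi ⟨s, s, by linear_combination (norm := module) e⟩
  rw [add_assoc, f2, f1, ← add_assoc] at f3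
  exact (add_right_cancel f3).symm

theorem semi {e f : V} (hef : ft_I2 K e f) {h : V →+ V'} (h1 : ∀ x, S x (h x)) :
    ∃ θ : K →+* K, ∀ (a : K) v, h (a • v) = θ a • h v := by
  have k1 : ∀ (c : K) x, ∃ t : K, h (c • x) = t • h x := fun c x => by
    obtain ⟨s, t, e1⟩ := (hS.line (h1 x) hS.zero (h1 (c • x))).1 ⟨c, 0, by simp⟩
    exact ⟨s, by simpa using e1.symm⟩
  have k2 : ∀ (c t : K) x y, ft_I2 K x y → h (c • x) = t • h x → h (c • y) = t • h y := by
    intro c t x y hxy e1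
    obtain ⟨s, e2⟩ := k1 c y
    obtain ⟨r, e3⟩ := k1 c (x + y)
    rw [smul_add, map_add, map_add, e1, e2] at e3
    obtain ⟨f1, f2⟩ := (hS.i2 (h1 x) (h1 y)).1 hxy (t - r) (s - r)
      (by linear_combination (norm := module) e3)
    rw [e2, show s = t by linear_combination f2 - f1]
  choose θ hθ using fun c => k1 c e
  have he : e ≠ 0 := fun h0 => (ft_I2_iff.1 hef).1 (ft_L0.2 h0)
  have k3 : ∀ (c : K) x, h (c • x) = θ c • h x := fun c x => by
    rcases eq_or_ne x 0 with rfl | hx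
    · simp
    by_cases h2 : ft_L K e 0 x
    · refine k2 c _ f x (ft_I2.symm (ft_I2_iff.2 ⟨fun h => hx (ft_L0.1 h), ?_⟩))
        (k2 c _ e f hef (hθ c))
      rintro ⟨s, t, e1⟩
      obtain ⟨s', t', e2⟩ := h2
      exact one_ne_zero (hef (-(s * s')) 1 (by linear_combination (norm := module) -e1 - s • e2)).2
    · exact k2 c _ e x (ft_I2_iff.2 ⟨fun h => he (ft_L0.1 h), h2⟩) (hθ c)
  have he' : h e ≠ 0 := fun h0 => he ((hS.z (h1 e)).2 h0)
  have inj := smul_left_injective K he'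
  refine ⟨⟨⟨⟨θ, inj ?_⟩, fun c d => inj ?_⟩, inj ?_, fun c d => inj ?_⟩, k3⟩
  · simp only [← k3, one_smul]
  · simp only [mul_smul, ← k3]
  · simp only [← k3, zero_smul, map_zero]
  · simp only [add_smul, ← k3, map_add]

theorem onto {e f : V} (hef : ft_I2 K e f) {h : V →+ V'} (h1 : ∀ x, S x (h x)) {θ : K →+* K}
    (hθ : ∀ (a : K) v, h (a • v) = θ a • h v) (hs : ∀ v', v' ≠ 0 → ∃ v, S v v') :
    Function.Surjective θ := fun c => by
  have h' := (hS.i2 (h1 e) (h1 f)).1 hef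
  obtain ⟨v, hv⟩ := hs (h e + c • h f) fun h0 => one_ne_zero (h' 1 c (by simpa using h0)).1
  obtain ⟨s, t, e1⟩ := (hS.line (h1 e) (h1 f) hv).2 ⟨1, c, by simp⟩
  obtain ⟨r, hr, e2⟩ := hS.uniq hv (h1 v)
  rw [← e1, map_add, hθ, hθ] at e2
  obtain ⟨f1, f2⟩ := h' (θ s - r) (θ t - r * c) (by linear_combination (norm := module) e2)
  refine ⟨t / s, ?_⟩
  rw [map_div₀, sub_eq_zero.1 f1, sub_eq_zero.1 f2, mul_div_cancel_left₀ _ hr]

end ft_Rel

theorem ft_frame [FiniteDimensional K V] (h : 3 ≤ finrank K V) : ∃ a : Fin 3 → V,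
    (∀ i j k, i ≠ j → i ≠ k → j ≠ k → ft_I3 K (a i) (a j) (a k)) ∧
      ∀ x y, ∃ i, ¬ ft_L K x y (a i) := by
  classical
  obtain ⟨a, ha⟩ := exists_linearIndependent_of_le_finrank h
  refine ⟨a, fun i j k h1 h2 h3 r s t e => ?_, fun x y => ?_⟩
  · have h4 : Function.Injective ![i, j, k] := by
      intro u v
      fin_cases u <;> fin_cases v <;> simp [h1, h2, h3, h1.symm, h2.symm, h3.symm]
    have h5 := Fintype.linearIndependent_iff.1 (ha.comp _ h4) ![r, s, t]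
      (by simpa [Fin.sum_univ_three] using e)
    exact ⟨h5 0, h5 1, h5 2⟩
  · by_contra h0
    push Not at h0
    have h1 : Submodule.span K (Set.range a) ≤ Submodule.span K (({x, y} : Finset V) : Set V) := by
      rw [Submodule.span_le]
      rintro _ ⟨i, rfl⟩
      rw [Finset.coe_pair]
      exact Submodule.mem_span_pair.2 (h0 i)
    have h2 := Submodule.finrank_mono h1
    have h3 : finrank K (Submodule.span K (({x, y} : Finset V) : Set V)) ≤ _ :=
      finrank_span_finset_le_card ({x, y} : Finset V)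
    have h4 : ({x, y} : Finset V).card ≤ 2 := Finset.card_le_two
    rw [finrank_span_eq_card ha, Fintype.card_fin] at h2
    omega

end

theorem ft : StmtFT := by
  intro K V V' _ _ _ _ _ _ F h3 hF h0 hs
  have hS : ft_Rel K fun (x : V) (x' : V') => ∃ c : K, c ≠ 0 ∧ x' = c • F x := by
    refine ⟨fun x => ⟨F x, 1, one_ne_zero, (one_smul _ _).symm⟩, ?_, ?_, ?_,
      1, one_ne_zero, by simp [h0]⟩
    · rintro x _ c hc ⟨d, hd, rfl⟩
      exact ⟨c * d, mul_ne_zero hc hd, smul_smul _ _ _⟩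
    · rintro x _ _ ⟨c, hc, rfl⟩ ⟨d, hd, rfl⟩
      exact ⟨d / c, div_ne_zero hd hc, by rw [smul_smul, div_mul_cancel₀ _ hc]⟩
    · rintro u _ v _ w _ ⟨a, ha, rfl⟩ ⟨b, hb, rfl⟩ ⟨c, hc, rfl⟩
      have h1 := hF u v w
      rw [Submodule.mem_span_pair, Submodule.mem_span_pair] at h1
      refine h1.trans ⟨fun ⟨s, t, e⟩ => ⟨c * s / a, c * t / b, ?_⟩,
        fun ⟨s, t, e⟩ => ⟨c⁻¹ * (s * a), c⁻¹ * (t * b), ?_⟩⟩
      · rw [smul_smul, smul_smul, div_mul_cancel₀ _ ha, div_mul_cancel₀ _ hb, ← e]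
        module
      · rw [← inv_smul_smul₀ hc (F w), ← e]
        module
  obtain ⟨a, hI, hn⟩ := ft_frame h3
  obtain ⟨h, h1⟩ := hS.add hI hn
  have hef := (hI 0 1 2 (by decide) (by decide) (by decide)).two
  obtain ⟨θ, hθ⟩ := hS.semi hef h1
  have h2 := hS.onto hef h1 hθ fun v' hv => by
    obtain ⟨v, e⟩ := hs v'
    obtain ⟨c, rfl⟩ := Submodule.mem_span_singleton.1 e
    exact ⟨v, c, fun h => hv (by simp [h]), rfl⟩
  have h4 : ∀ v, Submodule.span K {h v} = Submodule.span K {F v} := fun v => by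
    obtain ⟨c, hc, e⟩ := h1 v
    rw [e, Submodule.span_singleton_smul_eq (IsUnit.mk0 c hc)]
  refine ⟨RingEquiv.ofBijective θ ⟨θ.injective, h2⟩, AddEquiv.ofBijective h
    ⟨(injective_iff_map_eq_zero h).2 fun x hx => (hS.z (h1 x)).2 hx, fun v' => ?_⟩, hθ, h4⟩
  obtain ⟨v, e⟩ := hs v'
  rw [← h4] at e
  obtain ⟨c, rfl⟩ := Submodule.mem_span_singleton.1 e
  obtain ⟨d, rfl⟩ := h2 c
  exact ⟨d • v, hθ d v⟩

end Pool.Agent.Work.MP_11a08a_al.Lin
end

-- merged part: Pool.Agent.Work.MP_11a08a_al.Lin.Main2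
section
-- merged part: Pool.Agent.Work.MP_11a08a_al.Lin.Sat
section
/-!
Use `Ultrafilter.eventually_not`, `Filter.not_eventually`, and choice with the default point from `X.ne`.  (1) if not, almost all `i` have `x i ∈ Y i` with `¬ R i (x i)`; choose.  (3) if `ι` is empty then `pts Y` is empty
and (2) applies; else enumerate `e : ℕ → ι` onto.  If no `s` works, `I n = {i | ∃ x ∈ Y i, ∀ p < n, x ∉ Z (e p) i}` is in the ultrafilter for each `n`.  Let `n i` be the largest `n ≤ i` with `i ∈ I n` (`Nat.findGreatest`), choose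
`x i` for `n i`.  For each `p`, almost all `i` have `p + 1 ≤ i` (`hyperfilter_le_cofinite`, `Nat.cofinite_eq_atTop`) and `i ∈ I (p + 1)`, so `p < n i` and `x i ∉ Z (e p) i`; also `x ∈ pts Y`.  (4) let `z i` maximise the size of the fibre over `T i` when
`T i` is nonempty (`Set.exists_max_image`, finite); if `T i` is empty almost everywhere the claim is trivial.  (5) `u.ker` for differences, finitely many `t` (`Filter.eventually_all`), `X.inj`.
-/

set_option autoImplicit false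

open Filter MvPolynomial

namespace Pool.Agent.Work.MP_11a08a_al.Lin

section
variable {K : ℕ → Type} {X : Sp K}

theorem sat_choose (P : ∀ i, X.X i → Prop) : ∃ x : X.Pnt, ∀ i, (∃ y, P i y) → P i (x i) := by
  have h : ∀ i, ∃ x : X.X i, (∃ y, P i y) → P i x := fun i => by
    by_cases e : ∃ y, P i y
    · obtain ⟨y, hy⟩ := e
      exact ⟨y, fun _ => hy⟩
    · exact ⟨Classical.arbitrary _, fun h => absurd h e⟩
  exact Classical.skolem.1 h

theorem sat_one (Y : X.In) (R : ∀ i, X.X i → Prop)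
    (h : ∀ x ∈ pts Y, ∀ᶠ i in (hyperfilter ℕ : Filter ℕ), R i (x i)) :
    ∀ᶠ i in (hyperfilter ℕ : Filter ℕ), ∀ x ∈ Y i, R i x := by
  by_contra hc
  obtain ⟨x, hx⟩ := sat_choose fun i (y : X.X i) => y ∈ Y i ∧ ¬R i y
  have h1 : ∀ᶠ i in (hyperfilter ℕ : Filter ℕ), x i ∈ Y i ∧ ¬R i (x i) :=
    (Ultrafilter.eventually_not.2 hc).mono fun i hi => hx i (by
      push Not at hi
      exact hi)
  obtain ⟨i, h2, h3⟩ := (h1.and (h x (h1.mono fun i hi => hi.1))).exists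
  exact h2.2 h3

theorem sat_two (Y : X.In) :
    (pts Y).Nonempty ↔ ∀ᶠ i in (hyperfilter ℕ : Filter ℕ), (Y i).Nonempty := by
  refine ⟨fun ⟨x, hx⟩ => Eventually.mono hx fun i hi => ⟨x i, hi⟩, fun h => ?_⟩
  obtain ⟨x, hx⟩ := sat_choose fun i (y : X.X i) => y ∈ Y i
  exact ⟨x, h.mono hx⟩

theorem sat_ge (n : ℕ) : ∀ᶠ i in (hyperfilter ℕ : Filter ℕ), n ≤ i :=
  (eventually_ge_atTop n).filter_mono (Nat.cofinite_eq_atTop ▸ hyperfilter_le_cofinite)

theorem sat_three (Y : X.In) {ι : Type} [Countable ι] (Z : ι → X.In)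
    (h : ∀ x ∈ pts Y, ∃ p, x ∈ pts (Z p)) :
    ∃ s : Finset ι, ∀ᶠ i in (hyperfilter ℕ : Filter ℕ), ∀ x ∈ Y i, ∃ p ∈ s, x ∈ Z p i := by
  classical
  by_contra hc
  obtain ⟨f, hf⟩ := exists_injective_nat ι
  have hI : ∀ n, ∀ᶠ i in (hyperfilter ℕ : Filter ℕ),
      ∃ x, x ∈ Y i ∧ ∀ p, f p < n → x ∉ Z p i := by
    intro n
    have hfin : (f ⁻¹' {m | m < n}).Finite := (Set.finite_lt_nat n).preimage hf.injOn
    refine (Ultrafilter.eventually_not.2 fun h' => hc ⟨hfin.toFinset, h'⟩).mono fun i hi => ?_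
    push Not at hi
    obtain ⟨x, h1, h2⟩ := hi
    exact ⟨x, h1, fun p hp => h2 p (hfin.mem_toFinset.2 hp)⟩
  obtain ⟨x, hx⟩ := sat_choose fun i (y : X.X i) => y ∈ Y i ∧ ∀ p, f p <
    Nat.findGreatest (fun n => ∃ x, x ∈ Y i ∧ ∀ p, f p < n → x ∉ Z p i) i → y ∉ Z p i
  have key : ∀ n, ∀ᶠ i in (hyperfilter ℕ : Filter ℕ), x i ∈ Y i ∧ ∀ p, f p < n → x i ∉ Z p i := by
    intro n
    filter_upwards [hI n, sat_ge n] with i h1 h2
    have a1 := hx i (Nat.findGreatest_spec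
      (P := fun n => ∃ x, x ∈ Y i ∧ ∀ p, f p < n → x ∉ Z p i) h2 h1)
    have a2 := Nat.le_findGreatest (P := fun n => ∃ x, x ∈ Y i ∧ ∀ p, f p < n → x ∉ Z p i) h2 h1
    exact ⟨a1.1, fun p hp => a1.2 p (hp.trans_le a2)⟩
  obtain ⟨p, hp⟩ := h x ((key 0).mono fun i hi => hi.1)
  obtain ⟨i, h1, h2⟩ := ((key (f p + 1)).and hp).exists
  exact h1.2 p (Nat.lt_succ_self _) h2

theorem sat_four {X' : Sp K} (T : X.In) (Y : (X.prod X').In) (a : ℕ → ℝ)
    (h : ∀ z ∈ pts T, Ll (X := X') (fun i => {x | (z i, x) ∈ Y i}) a) :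
    ∃ C : ℝ, ∀ᶠ i in (hyperfilter ℕ : Filter ℕ), ∀ z ∈ T i,
      (({x | (z, x) ∈ Y i} : Set (X'.X i)).ncard : ℝ) ≤ C * a i := by
  by_cases hT : ∀ᶠ i in (hyperfilter ℕ : Filter ℕ), (T i).Nonempty
  · obtain ⟨z, hz⟩ := sat_choose fun i (y : X.X i) => y ∈ T i ∧ ∀ y' ∈ T i,
      ({x | (y', x) ∈ Y i} : Set (X'.X i)).ncard ≤ ({x | (y, x) ∈ Y i} : Set (X'.X i)).ncard
    have h1 := hT.mono fun i hi => hz i (Set.exists_max_image (T i)
      (fun y => ({x | (y, x) ∈ Y i} : Set (X'.X i)).ncard) (Set.toFinite _) hi)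
    obtain ⟨C, hC⟩ := h z (h1.mono fun i hi => hi.1)
    refine ⟨C, ?_⟩
    filter_upwards [h1, hC] with i h2 h3 y hy
    exact le_trans (Nat.cast_le.2 (h2.2 y hy)) h3
  · exact ⟨0, (Ultrafilter.eventually_not.2 hT).mono fun i hi z hz => absurd ⟨z, hz⟩ hi⟩

end
theorem sat : StmtSat := by
  intro K X
  refine ⟨sat_one, sat_two, fun Y ι _ Z => sat_three Y Z, fun X' => sat_four, ?_⟩
  intro _ Ω _ u x y
  have key : ∀ t, co u x t = co u y t ↔
      ∀ᶠ i in (hyperfilter ℕ : Filter ℕ), X.c i (x i) t = X.c i (y i) t := fun t => by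
    unfold co
    rw [← sub_eq_zero, ← map_sub, u.ker]
    simp only [Pi.sub_apply, sub_eq_zero]
  rw [funext_iff]
  simp only [key]
  rw [← Filter.eventually_all]
  exact Filter.eventually_congr (Eventually.of_forall fun i =>
    ⟨fun h => X.inj i (funext h), fun h t => by rw [h]⟩)

end Pool.Agent.Work.MP_11a08a_al.Lin
end

-- merged part: Pool.Agent.Work.MP_11a08a_al.Lin.Pol
section
/-!
Direct.  Substitution: if `G t` are the polynomials of `ψ`, take `F = bind₁ G F'` (`aeval`, `eval₂Hom_bind₁`, `eval_assoc`-like lemma; or `MvPolynomial.induction_on`).  Constants: `C (co u a t)`.  Continuity: pull back a polynomial vanishing on `P'`.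
`A₀` = the union of the (finite) coefficient sets of the `G t`; polynomials with `Ov A` are closed under sums, products and constants from `closure A` (they are the range of `map (closure A).subtype`, or use `coeff_mul`);
for `Ov A F'` write `F'` as a sum of monomials.  The value at `x` of a polynomial with `Ov A` lies in the subfield `acl (A ∪ range (co u x))` (items 1 and 2 of `hA`; `Subfield.closure A ≤ L` by `Subfield.closure_le`).
-/

set_option autoImplicit false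

open Filter MvPolynomial

namespace Pool.Agent.Work.MP_11a08a_al.Lin

theorem pol_subst {σ τ Ω : Type} [Field Ω] (x : σ → Ω) (G : τ → MvPolynomial σ Ω)
    (F : MvPolynomial τ Ω) : eval x (bind₁ G F) = eval (fun t => eval x (G t)) F :=
  eval₂Hom_bind₁ (RingHom.id Ω) x G F

theorem pol_ov_iff {τ Ω : Type} [Field Ω] (A : Set Ω) (F : MvPolynomial τ Ω) :
    Ov A F ↔ ∃ F₀ : MvPolynomial τ (Subfield.closure A),
      MvPolynomial.map (Subfield.closure A).subtype F₀ = F := by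
  constructor
  · intro h
    have h1 : F ∈ Set.range (MvPolynomial.map (σ := τ) (Subfield.closure A).subtype) := by
      rw [mem_range_map_iff_coeffs_subset]
      intro c hc
      obtain ⟨n, -, rfl⟩ := mem_coeffs_iff.1 hc
      exact ⟨⟨_, h n⟩, rfl⟩
    exact h1
  · rintro ⟨F₀, rfl⟩ m
    rw [coeff_map]
    exact (F₀.coeff m).2

theorem pol_ov_bind {σ τ Ω : Type} [Field Ω] (A : Set Ω) (G : τ → MvPolynomial σ Ω)
    (F : MvPolynomial τ Ω) (hG : ∀ t, Ov A (G t)) (hF : Ov A F) : Ov A (bind₁ G F) := by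
  obtain ⟨F₀, rfl⟩ := (pol_ov_iff A F).1 hF
  choose G₀ hG₀ using fun t => (pol_ov_iff A (G t)).1 (hG t)
  refine (pol_ov_iff A _).2 ⟨bind₁ G₀ F₀, ?_⟩
  rw [map_bind₁]
  simp only [hG₀]

theorem pol_eval_mem (hA : StmtAcl) {σ Ω : Type} [Field Ω] (A : Set Ω) (x : σ → Ω)
    (F : MvPolynomial σ Ω) (hF : Ov A F) : eval x F ∈ acl (A ∪ Set.range x) := by
  obtain ⟨L, hL, hsub⟩ := (hA Ω).1 (A ∪ Set.range x)
  rw [← hL] at hsub ⊢
  have h1 : Subfield.closure A ≤ L :=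
    Subfield.closure_le.2 fun a ha => hsub (Or.inl ha)
  exact eval_mem (fun m _ => h1 (hF m)) fun t => hsub (Or.inr ⟨t, rfl⟩)

theorem pol (hA : StmtAcl) : StmtPol := by
  intro K _ Ω _ u X X'
  refine ⟨fun t => ⟨MvPolynomial.X t, fun x => ?_⟩,
    fun a t => ⟨C (co u a t), fun x => ?_⟩,
    fun t => ⟨MvPolynomial.X (Sum.inl t), fun x => ?_⟩,
    fun t => ⟨MvPolynomial.X (Sum.inr t), fun x => ?_⟩, fun x => ?_, fun ψ hψ => ?_⟩
  · rw [ev, eval_X]; rfl
  · rw [ev, eval_C]; rfl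
  · rw [ev, eval_X]; rfl
  · rw [ev, eval_X]; rfl
  · funext t
    cases t <;> rfl
  choose G hG using hψ
  have hsub : ∀ (F' : MvPolynomial X'.τ Ω) (x : X.Pnt),
      ev u (bind₁ G F') x = ev u F' (ap ψ x) := by
    intro F' x
    have h1 : co u (ap ψ x) = fun t => eval (co u x) (G t) := funext fun t => hG t x
    rw [ev, ev, pol_subst, h1]
  refine ⟨fun X'' χ hχ t => ?_, fun X'' χ hχ t => ?_, fun F' => ⟨_, hsub F'⟩,
    fun P P' hP x hx F' hF' => ?_, ?_⟩
  · cases t with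
    | inl t => exact ⟨G t, fun x => hG t x⟩
    | inr t =>
      obtain ⟨F, hF⟩ := hχ t
      exact ⟨F, fun x => hF x⟩
  · obtain ⟨F, hF⟩ := hχ t
    refine ⟨bind₁ G F, fun x => ?_⟩
    rw [hsub, ← hF]
    rfl
  · rw [← hsub]
    refine hx _ fun y hy => ?_
    rw [hsub]
    exact hP y hy F' hF'
  · refine ⟨⋃ t, ((G t).coeffs : Set Ω),
      Set.countable_iUnion fun t => (G t).coeffs.countable_toSet, fun A hA₀ => ?_⟩
    have hov : ∀ t, Ov A (G t) := by
      intro t m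
      by_cases h0 : (G t).coeff m = 0
      · rw [h0]; exact zero_mem _
      · exact Subfield.subset_closure
          (hA₀ (Set.mem_iUnion.2 ⟨t, Finset.mem_coe.2 (coeff_mem_coeffs m h0)⟩))
    refine ⟨fun x => ?_, fun F' hF' => ⟨_, pol_ov_bind A G F' hov hF', hsub F'⟩⟩
    rintro _ ⟨t, rfl⟩
    rw [hG]
    exact pol_eval_mem hA A _ _ (hov t)

end Pool.Agent.Work.MP_11a08a_al.Lin
end

-- merged part: Pool.Agent.Work.MP_11a08a_al.Lin.Dens
section
/-!
(1) `ι = {F // Ov A F ∧ ∃ y ∈ pts Y, ev u F y ≠ 0}` is countable (item 9 of `hA`), `Z F` from `hI`.  If every point of `pts Y` lies in some `pts (Z F)`, item 3 of `hS` covers `Y i` by `card s` sets of size at most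
`ncard (Y i) / (card s + 1)`, but `Y i` is nonempty and finite.  (2) with the witness `A` and a generic `w`, each `x` of the closure is a specialisation of `w`; `hSp`.  (3) suppose `F` vanishes on `T` but not at `ap ψ y`.  Let `A` contain the witness of `Dim`, `A₀` of `hP` and the
coefficients of `F`; `w` generic over `A`, `z₀ = ap ψ w`.  Choose `z₁ = ap ψ y₁ ∈ T`, with `¬ RkLE A (range (co u z₁)) (d - 1)` if `0 < d`.  A polynomial `F'` over `A` that vanishes at `z₀` pulls back to a polynomial over `A` that vanishes at `w`, so on `pts Y`, so `F'` vanishes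
at `z₁`.  `F` vanishes at `z₁` and not at `z₀` (its pullback does not vanish at `y`).  The strict part of `hSp` and item 4 of `hA` give a contradiction.
-/

set_option autoImplicit false

open Filter MvPolynomial

namespace Pool.Agent.Work.MP_11a08a_al.Lin

theorem dens_cover {α ι : Type} [Finite α] {Y : Set α} (hY : Y.Nonempty) (s : Finset ι)
    (Z : ι → Set α) (h : ∀ x ∈ Y, ∃ p ∈ s, x ∈ Z p)
    (hZ : ∀ p ∈ s, ((Y ∩ Z p).ncard : ℝ) ≤ 1 / (s.card + 1) * Y.ncard) : False := by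
  have h1 : Y.ncard ≤ ∑ p ∈ s, (Y ∩ Z p).ncard := by
    refine le_trans (Set.ncard_le_ncard fun x hx => ?_) (Finset.set_ncard_biUnion_le s _)
    obtain ⟨p, hp, hx'⟩ := h x hx
    exact Set.mem_iUnion₂.2 ⟨p, hp, hx, hx'⟩
  have h2 : (Y.ncard : ℝ) ≤ s.card * (1 / (s.card + 1) * Y.ncard) := by
    refine le_trans (by exact_mod_cast h1) ((Finset.sum_le_card_nsmul s _ _ hZ).trans_eq ?_)
    rw [nsmul_eq_mul]
  have h3 : (0 : ℝ) < Y.ncard := by exact_mod_cast (Set.ncard_pos).2 hY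
  have h4 : (s.card : ℝ) * (1 / (s.card + 1)) < 1 := by
    rw [mul_one_div, div_lt_one (by positivity)]
    exact lt_add_one _
  rw [← mul_assoc] at h2
  exact absurd h2 (not_le.2 (mul_lt_of_lt_one_left h3 h4))

theorem densU (hA : StmtAcl) (hSp : StmtSpec) (hS : StmtSat) (hI : StmtInt) (hP : StmtPol) :
    StmtDens := by
  intro K _ Ω _ u X Y hY
  obtain ⟨a1, -, -, a4, -, -, -, -, a9⟩ := hA Ω
  have gen : ∀ A : Set Ω, A.Countable → ∃ w ∈ pts Y, ∀ F : MvPolynomial X.τ Ω, Ov A F →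
      ev u F w = 0 → ∀ y ∈ pts Y, ev u F y = 0 := fun A hAc => by
    by_contra hn
    choose Z hZ using (hI K Ω u X).1
    have : Countable {F : MvPolynomial X.τ Ω // Ov A F ∧ ∃ y ∈ pts Y, ev u F y ≠ 0} :=
      ((a9 X.τ A hAc).mono fun F hF => hF.1).to_subtype
    obtain ⟨s, hs⟩ := (hS K X).2.2.1 Y
      {F : MvPolynomial X.τ Ω // Ov A F ∧ ∃ y ∈ pts Y, ev u F y ≠ 0} (fun F => Z F.1)
      fun x hx => by
        by_contra h
        refine hn ⟨x, hx, fun F hF h0 y hy => ?_⟩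
        by_contra h1
        exact h ⟨⟨F, hF, y, hy, h1⟩, (hZ F x).2 h0⟩
    have h1 := (Filter.eventually_all_finset s).2 fun F _ =>
      hY.2 F.1 (Z F.1) (hZ F.1) F.2.2 (1 / (s.card + 1)) (by positivity)
    obtain ⟨i, ⟨h2, h3⟩, h4⟩ := ((hs.and h1).and (((hS K X).2.1 Y).1 hY.1)).exists
    exact dens_cover h4 s (fun F => Z F.1 i) h2 h3
  refine ⟨gen, ?_, ?_⟩
  · rintro d ⟨A, hAc, hD⟩
    obtain ⟨w, hw, hg⟩ := gen A hAc
    exact ⟨A, hAc, fun x hx =>
      (hSp Ω X.τ A (co u x) (co u w) (fun F hF h0 => hx F (hg F hF h0)) d (hD w hw)).1⟩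
  · rintro X' ψ T d hψ ⟨A₁, hA₁, hD⟩ hT ⟨t, ht⟩ hmin _ ⟨y, hy, rfl⟩ F hF
    by_contra hFy
    obtain ⟨A₀, hA₀, hpb⟩ := ((hP K Ω u X X').2.2.2.2.2 ψ hψ).2.2.2.2
    obtain ⟨A, hAc, s1, s2, s3⟩ : ∃ A : Set Ω, A.Countable ∧ A₁ ⊆ A ∧ A₀ ⊆ A ∧ Ov A F :=
      ⟨A₁ ∪ A₀ ∪ Set.range fun m => F.coeff m, (hA₁.union hA₀).union (Set.countable_range _),
        fun a h => Or.inl (Or.inl h), fun a h => Or.inl (Or.inr h),
        fun m => Subfield.subset_closure (Or.inr ⟨m, rfl⟩)⟩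
    obtain ⟨w, hw, hg⟩ := gen A hAc
    have hsub : ∀ B : Set Ω, B ⊆ acl (A ∪ B) := fun B =>
      Set.subset_union_right.trans (a1 (A ∪ B)).choose_spec.2
    have hsp : ∀ F' : MvPolynomial X'.τ Ω, Ov A F' → ev u F' (ap ψ w) = 0 →
        ∀ y ∈ pts Y, ev u F' (ap ψ y) = 0 := fun F' hF' h0 y hy => by
      obtain ⟨G, hG, e⟩ := (hpb A s2).2 F' hF'
      rw [← e] at h0 ⊢
      exact hg G hG h0 y hy
    have key : ∀ z ∈ T, ∃ d' < d, RkLE A (Set.range (co u z)) d' := fun z hz => by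
      obtain ⟨y₁, hy₁, rfl⟩ := hT hz
      exact (hSp Ω X'.τ A (co u (ap ψ y₁)) (co u (ap ψ w)) (fun F' hF' h0 => hsp F' hF' h0 y₁ hy₁) d
        (a4 _ _ _ _ _ _ (hD _ ⟨w, hw, rfl⟩) s1 (hsub _) le_rfl)).2
          ⟨F, s3, hF _ hz, fun h0 => hFy (hsp F s3 h0 y hy)⟩
    obtain ⟨d₀, hd₀, -⟩ := key t ht
    refine hmin (d - 1) (by omega) ⟨A, hAc, fun z hz => ?_⟩
    obtain ⟨d', h1, h2⟩ := key z hz
    exact a4 _ _ _ _ _ _ h2 subset_rfl (hsub _) (by omega)

end Pool.Agent.Work.MP_11a08a_al.Lin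
end

-- merged part: Pool.Agent.Work.MP_11a08a_al.Lin.Thin
section
/-!
(1) let `F` not vanish at `(y₀, y₀')`.  The maps `x ↦ (x, y₀')` and `x' ↦ (x, x')` are `Pol` (`hP`), so `F₁ = F (·, y₀')` is a polynomial with the zero set `Z₁ i = {x | (x, y₀' i) ∈ Z i}` (this is `IsZ`), negligible in `Y`.  For a point `x ∈ pts (Y \ Z₁)` the set
`{x' | (x i, x') ∈ Z i}` is `IsZ` for `F (x, ·)`, which does not vanish at `y₀'`; so by item 1 of `hS` almost all `i` have, for all `x ∈ Y i \ Z₁ i`, at most `η / 2 * ncard (Y' i)` points `x' ∈ Y' i` with `(x, x') ∈ Z i`.  Count fibrewise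
(convert to `Finset` with `Fintype.ofFinite`; `Finset.card_eq_sum_card_fiberwise` or `Finset.card_le_mul_card_image`).  (2) induction with `Sp.pow_succ`, `univ ×ˢ univ = univ`; for `k = 0` there is one point, `pts Z = ∅`, item 2 of `hS`.
(3) `¬ Ll Y a` gives, for every `C`, `C * a i < ncard (Y i)` almost everywhere (ultrafilter); `C = 0` gives nonemptiness; use `C = max C₀ 0 / η`.
-/

set_option autoImplicit false

open Filter MvPolynomial

namespace Pool.Agent.Work.MP_11a08a_al.Lin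

theorem thin_fib {α β : Type} [Finite α] [Finite β] (S : Set (α × β)) (T : Set α) (b : ℝ)
    (h1 : ∀ p ∈ S, p.1 ∈ T) (h2 : ∀ x ∈ T, (({y | (x, y) ∈ S} : Set β).ncard : ℝ) ≤ b) :
    (S.ncard : ℝ) ≤ T.ncard * b := by
  have hT := Set.toFinite T
  have e : S ⊆ ⋃ x ∈ hT.toFinset, Prod.mk x '' {y | (x, y) ∈ S} := fun p hp =>
    Set.mem_biUnion (hT.mem_toFinset.2 (h1 p hp)) ⟨p.2, hp, rfl⟩
  have k := (Set.ncard_le_ncard e).trans (Finset.set_ncard_biUnion_le _ _)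
  refine (Nat.cast_le.2 k).trans ?_
  rw [Nat.cast_sum, Set.ncard_eq_toFinset_card T hT, ← nsmul_eq_mul]
  exact Finset.sum_le_card_nsmul _ _ _ fun x hx =>
    (Nat.cast_le.2 (Set.ncard_image_le (Set.toFinite _))).trans (h2 x (hT.mem_toFinset.1 hx))

theorem thin_count {α β : Type} [Finite α] [Finite β] (Y Z₁ : Set α) (Y' : Set β)
    (Z : Set (α × β)) {ε : ℝ} (hε : 0 ≤ ε) (h1 : ((Y ∩ Z₁).ncard : ℝ) ≤ ε * Y.ncard)
    (h2 : ∀ x ∈ Y \ Z₁, ((Y' ∩ {y | (x, y) ∈ Z}).ncard : ℝ) ≤ ε * Y'.ncard) :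
    ((Y ×ˢ Y' ∩ Z).ncard : ℝ) ≤ 2 * ε * (Y ×ˢ Y').ncard := by
  have e : Y ×ˢ Y' ∩ Z ⊆ (Y ∩ Z₁) ×ˢ Y' ∪ (Y \ Z₁) ×ˢ Y' ∩ Z := fun p hp => by
    by_cases h : p.1 ∈ Z₁
    · exact Or.inl ⟨⟨hp.1.1, h⟩, hp.1.2⟩
    · exact Or.inr ⟨⟨⟨hp.1.1, h⟩, hp.1.2⟩, hp.2⟩
  have k1 := thin_fib ((Y \ Z₁) ×ˢ Y' ∩ Z) (Y \ Z₁) (ε * Y'.ncard) (fun p hp => hp.1.1)
    fun x hx => by
      refine le_trans (Nat.cast_le.2 (Set.ncard_le_ncard ?_)) (h2 x hx)
      exact fun y hy => ⟨hy.1.2, hy.2⟩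
  have k2 : (((Y \ Z₁).ncard : ℕ) : ℝ) ≤ Y.ncard :=
    Nat.cast_le.2 (Set.ncard_le_ncard Set.sdiff_subset)
  have k3 := (Nat.cast_le (α := ℝ)).2 ((Set.ncard_le_ncard e).trans (Set.ncard_union_le _ _))
  rw [Nat.cast_add, Set.ncard_prod, Nat.cast_mul] at k3
  rw [Set.ncard_prod, Nat.cast_mul]
  have k4 := mul_le_mul_of_nonneg_right h1 (Nat.cast_nonneg (α := ℝ) Y'.ncard)
  have k5 := mul_le_mul_of_nonneg_right k2 (mul_nonneg hε (Nat.cast_nonneg (α := ℝ) Y'.ncard))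
  linarith

theorem thin_prod (hS : StmtSat) (hP : StmtPol) {K : ℕ → Type} [∀ i, Field (K i)] {Ω : Type}
    [Field Ω] (u : UP K Ω) (X X' : Sp K) (Y : X.In) (Y' : X'.In) (h : Thin u Y) (h' : Thin u Y') :
    Thin u (X := X.prod X') fun i => Y i ×ˢ Y' i := by
  refine ⟨?_, fun F Z hZ ⟨w, hw, hF⟩ η hη => ?_⟩
  · obtain ⟨y, hy⟩ := h.1
    obtain ⟨y', hy'⟩ := h'.1
    exact ⟨fun i => (y i, y' i), Eventually.and hy hy'⟩
  obtain ⟨F₁, e₁⟩ := ((hP K Ω u X (X.prod X')).2.2.2.2.2 _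
    (((hP K Ω u X X).2.2.2.2.2 _ (hP K Ω u X X).1).1 X' _
      ((hP K Ω u X X').2.1 fun i => (w i).2))).2.2.1 F
  have a1 := h.2 F₁ (fun i => {x | (x, (w i).2) ∈ Z i}) (fun x => by rw [e₁, ← hZ]; rfl)
    ⟨fun i => (w i).1, Eventually.mono hw fun i hi => hi.1, by rw [e₁]; exact hF⟩ _ (half_pos hη)
  have a2 := (hS K X).1 (fun i => Y i \ {x | (x, (w i).2) ∈ Z i})
    (fun i x => ((Y' i ∩ {y | (x, y) ∈ Z i}).ncard : ℝ) ≤ η / 2 * (Y' i).ncard) fun x hx => by
      obtain ⟨F₂, e₂⟩ := ((hP K Ω u X' (X.prod X')).2.2.2.2.2 _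
        (((hP K Ω u X' X).2.2.2.2.2 _ ((hP K Ω u X' X).2.1 x)).1 X' _
          (hP K Ω u X' X').1)).2.2.1 F
      refine h'.2 F₂ (fun i => {y | (x i, y) ∈ Z i}) (fun y => by rw [e₂, ← hZ]; rfl)
        ⟨fun i => (w i).2, Eventually.mono hw fun i hi => hi.2, ?_⟩ _ (half_pos hη)
      rw [e₂, Ne, ← hZ]
      intro k
      obtain ⟨i, k1, k2⟩ := (Eventually.and hx k).exists
      exact k1.2 k2
  filter_upwards [a1, a2] with i b1 b2
  have k := thin_count (Y i) _ (Y' i) (Z i) (half_pos hη).le b1 b2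
  rwa [mul_div_cancel₀ η two_ne_zero] at k

theorem thin (hS : StmtSat) (hP : StmtPol) : StmtThin := by
  intro K _ Ω _ u X
  refine ⟨thin_prod hS hP u X, fun h k => ?_, fun Y a _ hY h => ?_⟩
  · induction k with
    | zero =>
      refine ⟨⟨fun _ => (), Eventually.of_forall fun _ => trivial⟩,
        fun F Z hZ ⟨y, _, hy⟩ η hη => ?_⟩
      filter_upwards [Ultrafilter.eventually_not.2 fun k => hy ((hZ y).1 k)] with i hi
      have e : Set.univ ∩ Z i = ∅ := Set.eq_empty_of_forall_notMem fun x hx => hi hx.2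
      rw [e, Set.ncard_empty, Nat.cast_zero]
      positivity
    | succ k ih =>
      have k := thin_prod hS hP u X (X.pow k) _ _ h ih
      simp only [Set.univ_prod_univ] at k
      exact k
  · have big : ∀ C : ℝ, ∀ᶠ i in (hyperfilter ℕ : Filter ℕ), C * a i < (Y i).ncard := fun C =>
      (Ultrafilter.eventually_not.2 fun k => hY ⟨C, k⟩).mono fun i hi => not_le.1 hi
    refine ⟨((hS K X).2.1 Y).2 ((big 0).mono fun i hi => Set.nonempty_of_ncard_ne_zero ?_),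
      fun F Z hZ hF η hη => ?_⟩
    · rw [zero_mul] at hi
      exact (Nat.cast_pos.1 hi).ne'
    obtain ⟨C, hC⟩ := h F Z hZ hF
    filter_upwards [hC, big (C / η)] with i b1 b2
    refine b1.trans ((le_of_eq ?_).trans (mul_le_mul_of_nonneg_left b2.le hη.le))
    rw [← mul_assoc, mul_div_cancel₀ C hη.ne']

end Pool.Agent.Work.MP_11a08a_al.Lin
end

-- merged part: Pool.Agent.Work.MP_11a08a_al.Lin.Schur
section
/-!
`P v = ∑ g, ⟪ρ g u, v⟫ • ρ g u` is symmetric, positive, commutes with all `ρ h`, has range in `X` and trace `card Γ * ‖u‖ ^ 2`.  Take an orthonormal eigenbasis with eigenvalues `l i ≥ 0`, `∑ l i = trace`.  For an eigenvalue `l > 0` the eigenspace lies in `X`, is invariant and nonzero, so has dimension at least `D`; hence `D * l ≤ trace`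
(`LinearMap.IsSymmetric.card_filter_eigenvalues_eq`, or: for an orthonormal basis `c` of the eigenspace, `l * dim = ∑ j, ⟪c j, P (c j)⟫ = ∑ g, ∑ j, ‖⟪ρ g u, c j⟫‖ ^ 2 ≤ ∑ g, ‖u‖ ^ 2` by the inequality of Bessel).  Finally `∑ g, ‖⟪ρ g u, u⟫‖ ^ 2 = ⟪u, P u⟫ = ∑ i, l i ‖⟪b i, u⟫‖ ^ 2`.
-/

set_option autoImplicit false

open Finset Module Pool.Agent.Work.MP_11a08a_al.Sol
open scoped commutatorElement

namespace Pool.Agent.Work.MP_11a08a_al.Lin

section

variable {Γ W : Type} [Group Γ] [Fintype Γ] [NormedAddCommGroup W] [InnerProductSpace ℂ W]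

/-- The averaged rank one operator. -/
noncomputable def schur_P (ρ : Representation ℂ Γ W) (u : W) : W →ₗ[ℂ] W :=
  ∑ g, (innerₛₗ ℂ (ρ g u)).smulRight (ρ g u)

theorem schur_P_apply (ρ : Representation ℂ Γ W) (u v : W) :
    schur_P ρ u v = ∑ g, inner ℂ (ρ g u) v • ρ g u := by
  simp [schur_P, LinearMap.sum_apply]

theorem schur_P_sym (ρ : Representation ℂ Γ W) (u : W) : (schur_P ρ u).IsSymmetric := by
  intro v w
  simp only [schur_P_apply, sum_inner, inner_sum, inner_smul_left, inner_smul_right,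
    inner_conj_symm]
  exact Finset.sum_congr rfl fun g _ => mul_comm _ _

theorem schur_P_self (ρ : Representation ℂ Γ W) (u v : W) :
    inner ℂ v (schur_P ρ u v) = ((∑ g, ‖inner ℂ (ρ g u) v‖ ^ 2 : ℝ) : ℂ) := by
  simp only [schur_P_apply, inner_sum, inner_smul_right]
  push_cast
  refine Finset.sum_congr rfl fun g _ => ?_
  rw [← inner_conj_symm v (ρ g u), Complex.mul_conj, Complex.normSq_eq_norm_sq]
  push_cast
  rfl

theorem schur_P_comm (ρ : Representation ℂ Γ W) (hρ : ∀ x v, ‖ρ x v‖ = ‖v‖) (u v : W) (h : Γ) :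
    schur_P ρ u (ρ h v) = ρ h (schur_P ρ u v) := by
  have hi : ∀ a b : W, inner ℂ (ρ h a) (ρ h b) = inner ℂ a b := fun a b =>
    LinearIsometry.inner_map_map (⟨ρ h, hρ h⟩ : W →ₗᵢ[ℂ] W) a b
  simp only [schur_P_apply, map_sum, map_smul]
  rw [← Equiv.sum_comp (Equiv.mulLeft h)]
  refine Finset.sum_congr rfl fun g _ => ?_
  simp only [Equiv.coe_mulLeft, map_mul, Module.End.mul_apply, hi]

theorem schur_eig [FiniteDimensional ℂ W] (ρ : Representation ℂ Γ W) (X : Submodule ℂ W) (D : ℕ)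
    (hρ : ∀ x v, ‖ρ x v‖ = ‖v‖) (hX : ∀ g, ∀ v ∈ X, ρ g v ∈ X)
    (hD : ∀ U ≤ X, U ≠ ⊥ → (∀ g, ∀ v ∈ U, ρ g v ∈ U) → D ≤ finrank ℂ U) {u : W} (hu : u ∈ X)
    {l : ℝ} {v : W} (hv : v ≠ 0) (hl : schur_P ρ u v = (l : ℂ) • v) :
    D * l ≤ Fintype.card Γ * ‖u‖ ^ 2 := by
  rcases le_or_gt l 0 with h0 | h0
  · exact (mul_nonpos_of_nonneg_of_nonpos (Nat.cast_nonneg _) h0).trans (by positivity)
  set E : Submodule ℂ W := Module.End.eigenspace (schur_P ρ u) (l : ℂ) with hE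
  have hmem : ∀ w, w ∈ E ↔ schur_P ρ u w = (l : ℂ) • w := fun w => Module.End.mem_eigenspace_iff
  have hl0 : (l : ℂ) ≠ 0 := by exact_mod_cast h0.ne'
  have hEX : E ≤ X := by
    intro w hw
    have h1 : schur_P ρ u w ∈ X := by
      rw [schur_P_apply]
      exact Submodule.sum_mem _ fun g _ => Submodule.smul_mem _ _ (hX g u hu)
    rw [(hmem w).1 hw] at h1
    exact (Submodule.smul_mem_iff _ hl0).1 h1
  have hE0 : E ≠ ⊥ := fun h => hv (by
    have := (hmem v).2 hl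
    rwa [h, Submodule.mem_bot] at this)
  have hinv : ∀ g, ∀ w ∈ E, ρ g w ∈ E := fun g w hw => by
    rw [hmem, schur_P_comm ρ hρ, (hmem w).1 hw, map_smul]
  have hdim := hD E hEX hE0 hinv
  let c := stdOrthonormalBasis ℂ E
  have hc : Orthonormal ℂ fun j => (c j : W) := E.subtypeₗᵢ.orthonormal_comp_iff.2 c.orthonormal
  have h1 : ∀ j, l = ∑ g, ‖inner ℂ (ρ g u) (c j : W)‖ ^ 2 := fun j => by
    have h2 := schur_P_self ρ u (c j : W)
    rw [(hmem _).1 (c j).2, inner_smul_right, inner_self_eq_norm_sq_to_K, hc.1 j] at h2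
    have h3 : (l : ℂ) = ((∑ g, ‖inner ℂ (ρ g u) (c j : W)‖ ^ 2 : ℝ) : ℂ) := by
      rw [← h2]
      simp
    exact_mod_cast h3
  calc (D : ℝ) * l ≤ finrank ℂ E * l := by gcongr
    _ = ∑ j : Fin (finrank ℂ E), ∑ g, ‖inner ℂ (ρ g u) (c j : W)‖ ^ 2 := by
        rw [← Finset.sum_congr rfl fun j _ => h1 j]
        simp
    _ = ∑ g, ∑ j : Fin (finrank ℂ E), ‖inner ℂ (c j : W) (ρ g u)‖ ^ 2 := by
        rw [Finset.sum_comm]
        simp only [norm_inner_symm (c _ : W)]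
    _ ≤ ∑ _g : Γ, ‖u‖ ^ 2 := by
        refine Finset.sum_le_sum fun g _ => ?_
        rw [← hρ g u]
        exact hc.sum_inner_products_le _
    _ = Fintype.card Γ * ‖u‖ ^ 2 := by simp

end

theorem schur : StmtSchur := by
  intro Γ W _ _ _ _ _ ρ X D hρ hX hD u hu
  have hP := schur_P_sym ρ u
  let b := hP.eigenvectorBasis rfl
  let l := hP.eigenvalues rfl
  have hb : ∀ i, schur_P ρ u (b i) = (l i : ℂ) • b i := fun i => hP.apply_eigenvectorBasis rfl i
  have h1 : ∑ g, ‖inner ℂ (ρ g u) u‖ ^ 2 = ∑ i, l i * ‖inner ℂ (b i) u‖ ^ 2 := by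
    have h2 := schur_P_self ρ u u
    rw [← b.sum_inner_mul_inner u (schur_P ρ u u)] at h2
    have h3 : ((∑ g, ‖inner ℂ (ρ g u) u‖ ^ 2 : ℝ) : ℂ) =
        ((∑ i, l i * ‖inner ℂ (b i) u‖ ^ 2 : ℝ) : ℂ) := by
      rw [← h2]
      push_cast
      refine Finset.sum_congr rfl fun i _ => ?_
      rw [← hP (b i) u, hb, inner_smul_left, Complex.conj_ofReal, ← inner_conj_symm u (b i),
        mul_left_comm, Complex.conj_mul']
    exact_mod_cast h3
  rw [h1, Finset.mul_sum]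
  calc ∑ i, (D : ℝ) * (l i * ‖inner ℂ (b i) u‖ ^ 2)
      ≤ ∑ i, Fintype.card Γ * ‖u‖ ^ 2 * ‖inner ℂ (b i) u‖ ^ 2 := by
        refine Finset.sum_le_sum fun i _ => ?_
        rw [← mul_assoc]
        exact mul_le_mul_of_nonneg_right
          (schur_eig ρ X D hρ hX hD hu (b.orthonormal.ne_zero i) (hb i)) (by positivity)
    _ ≤ Fintype.card Γ * ‖u‖ ^ 2 * ‖u‖ ^ 2 := by
        rw [← Finset.mul_sum]
        exact mul_le_mul_of_nonneg_left (b.orthonormal.sum_inner_products_le _) (by positivity)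
    _ = Fintype.card Γ * ‖u‖ ^ 4 := by ring

end Pool.Agent.Work.MP_11a08a_al.Lin
end

-- merged part: Pool.Agent.Work.MP_11a08a_al.Lin.Near2
section
/-!
Take `L₀` from `Lin0`, fix `l ∈ P`, `t m = (r l)⁻¹ * r m ∈ S` normalises `L₀`; `σ m : MulAut L₀` is the conjugation by `t m` (`Subgroup.normalizerMonoidHom`), `σ l = 1`.  `p = (card L₀)⁻¹ • ∑ y : L₀, y` is idempotent, `y p = p y = p`, it commutes with the `t m`.  `W' = ker p` is invariant under `L₀` and the `t m`, has no nonzero fixed vector, and contains all `y w - w`.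
`Z γ = ∑ m ∈ P with σ m = γ, α m • t m`; `∑ γ ∈ P.image σ, Z γ = (r l)⁻¹ * 0 = 0`, `Z γ * y = γ y * Z γ`.  For `w ∈ W'` apply `hI` to the subrepresentation on `W'` and the vectors `Z γ w`: all `Z γ` vanish on `W'`.  The `t m` with `σ m = 1` centralise `L₀`, so `L`; hence `Cm L (Z 1)`.
If some `σ m ≠ 1`, then `Z 1 ≠ 0` by `MinV`, and there is `y ≠ 1` in `L₀`; `(y - 1) * Z 1 = Z 1 * (y - 1) = 0`, so `y - 1 ∈ spn L` vanishes on the nonzero invariant subspace `range (Z 1)`, and item iii of `hM` gives `y = 1`.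
-/

set_option autoImplicit false

open Finset Module Pool.Agent.Work.MP_11a08a_al.Sol
open scoped commutatorElement

namespace Pool.Agent.Work.MP_11a08a_al.Lin

theorem near2_van (hI : StmtInd) {W : Type} [AddCommGroup W] [Module ℂ W] [FiniteDimensional ℂ W]
    {τ : ℝ} {k : ℕ} (L : Subgroup (End ℂ W)ˣ) (hb : BigG τ L) (J : Finset (MulAut L))
    (Z : MulAut L → End ℂ W) (hk : J.card ≤ k) (hτ : 8 * (k : ℝ) ^ 2 * τ ≤ 1)
    (hZ : ∀ γ (y : L), Z γ * (y.1 : End ℂ W) = ((γ y).1 : End ℂ W) * Z γ) (h0 : ∑ γ ∈ J, Z γ = 0) :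
    ∀ γ ∈ J, ∀ y : L, Z γ * ((y.1 : End ℂ W) - 1) = 0 := by
  have := hb.fin
  have := Fintype.ofFinite L
  let ρ : Representation ℂ L W := (Units.coeHom _).comp L.subtype
  obtain ⟨s, hs⟩ : ∃ s : End ℂ W, s = ∑ y, ρ y := ⟨_, rfl⟩
  have h1 : ∀ y, s * ρ y = s := fun y => by
    rw [hs, Finset.sum_mul]
    exact Fintype.sum_equiv (Equiv.mulRight y) _ _ fun x => (map_mul ρ x y).symm
  have h2 : ∀ γ, s * Z γ = Z γ * s := fun γ => by
    rw [hs, Finset.sum_mul, Finset.mul_sum]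
    exact (Fintype.sum_equiv γ.toEquiv _ _ fun x => hZ γ x).symm
  have h3 : ∀ γ, ∀ w ∈ LinearMap.ker s, Z γ w ∈ LinearMap.ker s := fun γ w hw => by
    rw [LinearMap.mem_ker] at hw ⊢
    rw [← End.mul_apply, h2, End.mul_apply, hw, map_zero]
  have h4 : ∀ y, LinearMap.ker s ≤ (LinearMap.ker s).comap (ρ y) := fun y w hw => by
    rw [Submodule.mem_comap, LinearMap.mem_ker, ← End.mul_apply, h1]
    exact hw
  intro γ hγ y
  ext v
  have hw : (ρ y - 1) v ∈ LinearMap.ker s := by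
    rw [LinearMap.mem_ker, ← End.mul_apply, mul_sub, h1, mul_one, sub_self, LinearMap.zero_apply]
  refine congrArg Subtype.val (hI τ L _ (ρ.subrepresentation _ h4) J k
    (fun γ => ⟨_, h3 γ _ hw⟩) hb (fun u hu => Subtype.ext ?_) hk hτ
    (fun x => Subtype.ext ?_) γ hγ)
  · have h5 : s u.1 = (Fintype.card L : ℂ) • u.1 := by
      have h6 : ∀ x, ρ x u.1 = u.1 := fun x => congrArg Subtype.val (hu x)
      rw [LinearMap.congr_fun hs u.1, LinearMap.sum_apply, Finset.sum_congr rfl fun x _ => h6 x,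
        Finset.sum_const, Finset.card_univ, Nat.cast_smul_eq_nsmul]
    rw [show s u.1 = 0 from u.2] at h5
    exact (smul_eq_zero.1 h5.symm).resolve_left (Nat.cast_ne_zero.2 Fintype.card_ne_zero)
  · rw [Submodule.coe_sum]
    refine (Finset.sum_congr rfl fun δ _ =>
      (LinearMap.congr_fun (hZ δ x) ((ρ y - 1) v)).symm).trans ?_
    simp only [End.mul_apply]
    rw [← LinearMap.sum_apply, h0]
    rfl

theorem near2 (hM : StmtMU) (hI : StmtInd) : StmtNear2 := by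
  classical
  intro W _ _ _ _ q s τ S L N 𝓝 hL h0 hN hτ P α r hr hV hc l hl l' hl'
  obtain ⟨L₀, hle, hb, h1⟩ := h0 N hN
  obtain ⟨t, ht⟩ : ∃ t : Fin q → (End ℂ W)ˣ, ∀ m, t m = (r l)⁻¹ * r m := ⟨_, fun _ => rfl⟩
  have h2 : ∀ m ∈ P, Nm (t m) L₀ ∧ (Cen (t m) L₀ → Cen (t m) L) := fun m hm =>
    ht m ▸ h1 _ (S.mul_mem (S.inv_mem (hr l hl)) (hr m hm)) (hc l hl m hm).1 (hc l hl m hm).2
  have h3 : ∀ m, ∃ σ : MulAut L₀, m ∈ P → ∀ y : L₀, t m * y.1 = (σ y).1 * t m := fun m => by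
    by_cases hm : m ∈ P
    · exact ⟨L₀.normalizerMonoidHom ⟨t m, (h2 m hm).1⟩, fun _ y =>
        (inv_mul_cancel_right (t m * y.1) (t m)).symm⟩
    · exact ⟨1, fun h => absurd h hm⟩
  choose σ hσ using h3
  have h4 : ∀ m ∈ P, σ m = σ l → Cen (t m) L₀ := fun m hm e y hy => by
    have h5 := hσ l hl ⟨y, hy⟩
    rw [ht, inv_mul_cancel, one_mul, mul_one, ← e] at h5
    rw [hσ m hm ⟨y, hy⟩, ← h5]
  have h5 : ∀ P' : Finset (Fin q), ∑ m ∈ P', α m • (t m : End ℂ W) =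
      (((r l)⁻¹ : (End ℂ W)ˣ) : End ℂ W) * ∑ m ∈ P', α m • (r m : End ℂ W) := fun P' => by
    simp only [ht, Finset.mul_sum, mul_smul_comm, Units.val_mul]
  have h6 := near2_van hI L₀ hb (P.image σ)
    (fun γ => ∑ m ∈ P.filter fun m => σ m = γ, α m • (t m : End ℂ W))
    (Finset.card_image_le.trans (P.card_le_univ.trans (Fintype.card_fin q).le)) hτ
    (fun γ y => by
      rw [Finset.sum_mul, Finset.mul_sum]
      refine Finset.sum_congr rfl fun m hm => ?_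
      obtain ⟨a, b⟩ := Finset.mem_filter.1 hm
      rw [smul_mul_assoc, mul_smul_comm, ← Units.val_mul, ← Units.val_mul, hσ m a, b])
    (by rw [Finset.sum_fiberwise_of_maps_to fun m hm => Finset.mem_image_of_mem σ hm, h5, hV.1,
      mul_zero]) (σ l) (Finset.mem_image_of_mem σ hl)
  rw [← ht]
  refine (h2 l' hl').2 fun y hy => ?_
  by_cases e : σ l' = σ l
  · exact h4 l' hl' e y hy
  generalize hZ : ∑ m ∈ P.filter fun m => σ m = σ l, α m • (t m : End ℂ W) = Z at h6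
  have h7 : Z ≠ 0 := by
    rw [← hZ, h5, Ne, Units.mul_right_eq_zero]
    exact hV.2 _ (Finset.filter_subset _ _) ⟨l, Finset.mem_filter.2 ⟨hl, rfl⟩⟩
      fun k => e (Finset.mem_filter.1 (k.ge hl')).2
  have h8 : Cm L Z := fun u hu => by
    rw [← hZ, Finset.sum_mul, Finset.mul_sum]
    refine Finset.sum_congr rfl fun m hm => ?_
    obtain ⟨a, b⟩ := Finset.mem_filter.1 hm
    rw [smul_mul_assoc, mul_smul_comm, ← Units.val_mul, ← Units.val_mul,
      (h2 m a).2 (h4 m a b) u hu]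
  have h9 : (y : End ℂ W) - 1 = 0 := by
    refine (hM ℂ W L hL).2.2.1 (LinearMap.range Z) (mt LinearMap.range_eq_bot.1 h7) ?_ _
      (sub_mem (Submodule.subset_span ⟨y, hle hy, rfl⟩)
        (Submodule.subset_span ⟨1, L.one_mem, rfl⟩)) ?_
    · rintro u hu _ ⟨w, rfl⟩
      exact ⟨_, (LinearMap.congr_fun (h8 u hu) w).symm⟩
    · rintro _ ⟨w, rfl⟩
      have h9 := h6 ⟨y, hy⟩
      rw [mul_sub, ← h8 y (hle hy), mul_one] at h9
      rw [← End.mul_apply, sub_mul, one_mul, h9, LinearMap.zero_apply]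
  rw [show y = 1 from Units.ext (sub_eq_zero.1 h9), mul_one, one_mul]

end Pool.Agent.Work.MP_11a08a_al.Lin
end

-- merged part: Pool.Agent.Work.MP_11a08a_al.Lin.Main
section
/-!
Assembly.
-/

set_option autoImplicit false

namespace Pool.Agent.Work.MP_11a08a_al.Lin

open Sol

theorem fnS : StmtFn :=
  have hP := pol aclS
  have hD := dim aclS sat hP
  have hDe := densU aclS (spec aclS) sat int hP
  have hT := thin sat hP
  have hCo := count (wit aclS) sat int hP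
  have hC := coreU sat int hP
  fn (mix up (mixU aclS (spec aclS) sat int hP hD hT hCo hC
    (lp aclS (spec aclS) sat int hP hD hT hCo hC (lpa sat int hP hD hDe hT hC)) (lpk aclS hP hCo)
    (dom sat int hP hD hDe hT hC))) dense

theorem rlS : StmtRL := rl pb

theorem wtS : StmtWT := wt pb pe rlS (ws pb pe rlS)

theorem ixS : StmtIX := ix pb pe rlS wtS

theorem scS : StmtSC := sc pb pe rlS

theorem qsS : StmtQS := qs pb pe rlS wtS scS (qs2 pb pe rlS wtS)

theorem barT : StmtBar := barS pb pe (ss pe) scS qsS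

theorem geoS : StmtGeo :=
  geo pb adj (g1 pb pe (ss pe) wtS ixS barT)
    (g2 pb pe (qrc pb pe rlS wtS (qs2 pb pe rlS wtS)) (blkU pb pe wtS ixS (mov pe wtS)) barT)
    (g3 pb pe (ss pe) scS barT) (g4 pb pe (ss pe) rlS wtS scS adj barT) (a1 af) (a2 af qrm) trS

theorem mainL : StmtFinL :=
  have hW := Sol.wt diag dual
  have hL := loc join mu
  have hN := near agg hW (pet2 hW) join hL
  have hB := big herm fnS bigI1 bigI2
  have hSt := str3 (strL dual simple) geoS hB hat1 (hat2 hB) fam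
  have hRB := redB join (split mu join cor tens (bigT herm tens) (gram herm))
  have hI := secI sec cor
  have hQ := qb diag basic
  have hU := uni dense maxo
  finL (coreL abs
    (w2L (gainL sec hI hSt hQ hN (high herm (ang schur)) (nearG agg kk petG far) hRB
      (near2 mu (indS herm)) ga (gainC gc (cen join) (gain1 ga hU basic) basic) hU nilpL basic) hQ
      nil0 (nilS diag basic (nilB sec hN dual diag basic)) basic (coset (bfc dense maxo)))
    (block diag) rb (rankL hSt simple mu (nextL mu cor) pet1 dual join hL hRB kk (redG mu petG))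
    sec hI hQ basic) ideal change ratio

end Pool.Agent.Work.MP_11a08a_al.Lin
end

-- merged part: Pool.Agent.Work.MP_11a08a_al.Lin.Trp
section
/-!
`Z = A ⊓ centralizer A`; two partners of one element differ by an element of `Z`.  For perfect `B ≤ A` the `x ∈ B` with a partner in `trp R B` form a subgroup containing all commutators; so `par R B = trp R B * Z`, and central factors do not change commutators.  `par (swp R) (trp R B) = B * Z`.
Commuting: `⁅y, y'⁆ ∈ Z`, so the `y' ∈ trp R B'` commuting with `y` form a subgroup containing all commutators.  `M' = {x ∈ B | ∃ y ∈ M, (x, y) ∈ R}`; choosing partners gives a surjection from the cosets of `M` in `trp R B` onto the cosets of `M'` in `B`.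
-/

set_option autoImplicit false

open Module
open scoped commutatorElement

namespace Pool.Agent.Work.MP_11a08a_al.Lin

section

variable {G : Type} [Group G] {A B B' : Subgroup G} {R : Subgroup (G × G)}

theorem trp_swp {x y : G} : (x, y) ∈ swp R ↔ (y, x) ∈ R := Iff.rfl

theorem trp_par {y : G} : y ∈ par R B ↔ ∃ x ∈ B, (x, y) ∈ R :=
  ⟨fun ⟨z, hz, e⟩ => ⟨z.1, hz.2.1, by rw [← e]; exact hz.1⟩,
    fun ⟨x, hx, h⟩ => ⟨(x, y), ⟨h, hx, trivial⟩, rfl⟩⟩

theorem trp_self (H : Subgroup G) : ⁅H, H⁆ ≤ H :=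
  Subgroup.commutator_le.2 fun _ ha _ hb =>
    H.mul_mem (H.mul_mem (H.mul_mem ha hb) (H.inv_mem ha)) (H.inv_mem hb)

theorem trp_mul {x y x' y' : G} (h : (x, y) ∈ R) (h' : (x', y') ∈ R) : (x * x', y * y') ∈ R :=
  R.mul_mem h h'

theorem trp_inv {x y : G} (h : (x, y) ∈ R) : (x⁻¹, y⁻¹) ∈ R := R.inv_mem h

theorem trp_com {x y x' y' : G} (h : (x, y) ∈ R) (h' : (x', y') ∈ R) : (⁅x, x'⁆, ⁅y, y'⁆) ∈ R :=
  trp_mul (trp_mul (trp_mul h h') (trp_inv h)) (trp_inv h')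

theorem trp_crs (h : Crs A R) : Crs A (swp R) :=
  ⟨fun _ hz => ⟨(h.le hz).2, (h.le hz).1⟩, h.right, h.left, h.kr, h.kl⟩

theorem trp_two (h : Crs A R) {x y y' : G} (h1 : (x, y) ∈ R) (h2 : (x, y') ∈ R) :
    y⁻¹ * y' ∈ Subgroup.centralizer (A : Set G) := by
  have h3 := trp_mul (trp_inv h1) h2
  rw [inv_mul_cancel] at h3
  exact (h.kr _ (h.le h3).2).1 h3

theorem trp_cen {a b a' b' : G} (ha : a ∈ A) (hb' : b' ∈ A)
    (h1 : a⁻¹ * a' ∈ Subgroup.centralizer (A : Set G))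
    (h2 : b⁻¹ * b' ∈ Subgroup.centralizer (A : Set G)) : ⁅a', b'⁆ = ⁅a, b⁆ := by
  obtain ⟨c, rfl⟩ : ∃ c, a' = a * c := ⟨a⁻¹ * a', by rw [mul_inv_cancel_left]⟩
  obtain ⟨d, rfl⟩ : ∃ d, b' = b * d := ⟨b⁻¹ * b', by rw [mul_inv_cancel_left]⟩
  rw [inv_mul_cancel_left] at h1 h2
  have h3 := Subgroup.mem_centralizer_iff.1 h1 _ hb'
  have h4 := Subgroup.mem_centralizer_iff.1 h2 _ (A.inv_mem ha)
  calc ⁅a * c, b * d⁆ = a * (c * (b * d)) * c⁻¹ * a⁻¹ * (b * d)⁻¹ := by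
        rw [commutatorElement_def]
        group
    _ = a * b * (d * a⁻¹) * (b * d)⁻¹ := by
        rw [← h3]
        group
    _ = ⁅a, b⁆ := by
        rw [← h4, commutatorElement_def]
        group

theorem trp_le {H H' : Subgroup G} (hH : H ≤ A) (hH' : H' ≤ A)
    (h : ∀ y ∈ H', ∃ x ∈ H, x⁻¹ * y ∈ Subgroup.centralizer (A : Set G)) : ⁅H', H'⁆ ≤ ⁅H, H⁆ := by
  refine Subgroup.commutator_le.2 fun a' ha b' hb => ?_
  obtain ⟨a, h1, h2⟩ := h a' ha
  obtain ⟨b, h3, h4⟩ := h b' hb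
  rw [trp_cen (hH h1) (hH' hb) h2 h4]
  exact Subgroup.commutator_mem_commutator h1 h3

theorem trp_parA (h : Crs A R) (B : Subgroup G) : par R B ≤ A := fun _ hy => by
  obtain ⟨x, -, hx⟩ := trp_par.1 hy
  exact (h.le hx).2

theorem trp_left (h : Crs A R) (hB : B ≤ A) (hp : ⁅B, B⁆ = B) :
    ∀ x ∈ B, ∃ y ∈ trp R B, (x, y) ∈ R := by
  have h1 : ⁅B, B⁆ ≤ par (swp R) (trp R B) := Subgroup.commutator_le.2 fun a ha b hb => by
    obtain ⟨a', h2⟩ := h.left a (hB ha)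
    obtain ⟨b', h3⟩ := h.left b (hB hb)
    exact trp_par.2 ⟨⁅a', b'⁆, Subgroup.commutator_mem_commutator (trp_par.2 ⟨a, ha, h2⟩)
      (trp_par.2 ⟨b, hb, h3⟩), trp_com h2 h3⟩
  rw [hp] at h1
  exact fun x hx => trp_par.1 (h1 hx)

theorem trp_conj {x y : G} (h : (x, y) ∈ R) (hB : ∀ b, b ∈ B' ↔ x⁻¹ * b * x ∈ B) (b : G) :
    b ∈ trp R B' ↔ y⁻¹ * b * y ∈ trp R B := by
  have h0 : ∀ (H : Subgroup G) (b : G),
      b ∈ H.map (MulAut.conj y).toMonoidHom ↔ y⁻¹ * b * y ∈ H := fun H b => by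
    rw [Subgroup.mem_map_equiv, MulAut.conj_symm_apply]
  have h1 : par R B' = (par R B).map (MulAut.conj y).toMonoidHom := by
    ext b
    rw [h0, trp_par, trp_par]
    constructor
    · rintro ⟨a, ha, h2⟩
      exact ⟨_, (hB a).1 ha, trp_mul (trp_mul (trp_inv h) h2) h⟩
    · rintro ⟨a, ha, h2⟩
      have h3 := trp_mul (trp_mul h h2) (trp_inv h)
      rw [show y * (y⁻¹ * b * y) * y⁻¹ = b by group] at h3
      exact ⟨_, (hB _).2 (by rwa [show x⁻¹ * (x * a * x⁻¹) * x = a by group]), h3⟩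
  rw [trp, h1, ← Subgroup.map_commutator, h0]
  rfl

theorem trp_cm (h : Crs A R) (hc : ∀ x ∈ B, ∀ x' ∈ B', x * x' = x' * x) {y : G}
    (hy : y ∈ par R B) : trp R B' ≤ Subgroup.centralizer {y} := by
  obtain ⟨x, hx, h1⟩ := trp_par.1 hy
  have h2 : ∀ u ∈ par R B', u⁻¹ * (y * u * y⁻¹) ∈ Subgroup.centralizer (A : Set G) := by
    intro u hu
    obtain ⟨x', hx', h3⟩ := trp_par.1 hu
    have h4 := trp_mul (trp_mul h1 h3) (trp_inv h1)
    rw [hc x hx x' hx', mul_inv_cancel_right] at h4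
    exact trp_two h h3 h4
  have hA := trp_parA h B hy
  refine Subgroup.commutator_le.2 fun u hu v hv => ?_
  have h3 := trp_cen (trp_parA h _ hu)
    (A.mul_mem (A.mul_mem hA (trp_parA h _ hv)) (A.inv_mem hA)) (h2 u hu) (h2 v hv)
  rw [Subgroup.mem_centralizer_singleton_iff]
  conv_lhs => rw [← h3]
  simp only [commutatorElement_def]
  group

end

theorem trpS : StmtTrp := by
  intro G _ _ A R h
  refine ⟨trp_crs h, rfl, fun B B' hB => ?_, fun x y hxy B B' => trp_conj hxy, fun B hB hp => ?_⟩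
  · have h1 : par R B ≤ par R B' := fun y hy => by
      obtain ⟨x, hx, h2⟩ := trp_par.1 hy
      exact trp_par.2 ⟨x, hB hx, h2⟩
    exact Subgroup.commutator_mono h1 h1
  have hT : trp R B ≤ par R B := trp_self _
  have hA : trp R B ≤ A := hT.trans (trp_parA h B)
  have hl := trp_left h hB hp
  have hr : ∀ y ∈ trp R B, ∃ x ∈ B, (x, y) ∈ R := fun y hy => trp_par.1 (hT hy)
  have hpf : ⁅trp R B, trp R B⁆ = trp R B := le_antisymm (trp_self _)
    (trp_le hA (trp_parA h B) fun y hy => by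
      obtain ⟨x, hx, h1⟩ := trp_par.1 hy
      obtain ⟨y', h2, h3⟩ := hl x hx
      exact ⟨y', h2, trp_two h h3 h1⟩)
  refine ⟨hA, hpf, le_antisymm ?_ ?_, hl, hr, ?_, fun B' _ _ hc y hy y' hy' => ?_,
    fun M hM hn => ?_⟩
  · refine le_trans (trp_le hB (trp_parA (trp_crs h) _) fun x hx => ?_) hp.le
    obtain ⟨y, hy, h1⟩ := trp_par.1 hx
    obtain ⟨x', h2, h3⟩ := hr y hy
    exact ⟨x', h2, trp_two (trp_crs h) (x := y) h3 h1⟩
  · have h1 : B ≤ par (swp R) (trp R B) := fun x hx => trp_par.2 (hl x hx)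
    exact hp.ge.trans (Subgroup.commutator_mono h1 h1)
  · choose! f f1 f2 using hl
    choose! g g1 g2 using hr
    rw [← Nat.card_prod]
    refine Nat.card_le_card_of_injective (fun x : B => (⟨(g (f x))⁻¹ * x,
      A.mul_mem (A.inv_mem (hB (g1 _ (f1 x x.2)))) (hB x.2),
      trp_two (trp_crs h) (x := f x) (g2 _ (f1 x x.2)) (f2 x x.2)⟩, ⟨f x, f1 x x.2⟩))
      fun x x' e => ?_
    have e1 : (g (f x))⁻¹ * x = (g (f x'))⁻¹ * x' := congrArg (fun z => z.1.1) e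
    have e2 : f x = f x' := congrArg (fun z => z.2.1) e
    rw [e2] at e1
    exact Subtype.ext (mul_left_cancel e1)
  · exact (Subgroup.mem_centralizer_singleton_iff.1 (trp_cm h hc (hT hy) hy')).symm
  · refine ⟨B ⊓ par (swp R) M, inf_le_left, fun a ha x hx => ?_, fun e => ?_, ?_,
      fun x hx y hy h1 => ⟨hx, trp_par.2 ⟨y, hy, h1⟩⟩⟩
    · obtain ⟨y, hy, h1⟩ := trp_par.1 hx.2
      obtain ⟨a', h2, h3⟩ := hl a ha
      exact ⟨B.mul_mem (B.mul_mem ha hx.1) (B.inv_mem ha), trp_par.2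
        ⟨_, hn a' h2 y hy, trp_mul (R := R) (trp_mul h3 h1) (trp_inv h3)⟩⟩
    · refine le_antisymm hM (hpf.ge.trans ((trp_le (hM.trans hA) hA fun y hy => ?_).trans
        (trp_self M)))
      obtain ⟨x, hx, h1⟩ := hr y hy
      obtain ⟨m, h2, h3⟩ := trp_par.1 (e.ge hx).2
      exact ⟨m, h2, trp_two h h3 h1⟩
    · choose! f f1 f2 using hl
      choose! g g1 g2 using hr
      have h1 : ∀ z : B × M, f z.1 * z.2 ∈ trp R B := fun z => mul_mem (f1 _ z.1.2) (hM z.2.2)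
      have h2 : ∀ z : B × M, (z.1 : G)⁻¹ * g (f z.1 * z.2) ∈ B ⊓ par (swp R) M := fun z => by
        have h3 := trp_mul (trp_inv (f2 _ z.1.2)) (g2 _ (h1 z))
        rw [inv_mul_cancel_left] at h3
        exact ⟨B.mul_mem (B.inv_mem z.1.2) (g1 _ (h1 z)), trp_par.2 ⟨_, z.2.2, h3⟩⟩
      rw [← Nat.card_prod, ← Nat.card_prod]
      refine Nat.card_le_card_of_injective (fun z : B × M => (⟨_, h2 z⟩, ⟨_, h1 z⟩))
        fun z z' e => ?_
      have e1 : (z.1 : G)⁻¹ * g (f z.1 * z.2) = (z'.1 : G)⁻¹ * g (f z'.1 * z'.2) :=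
        congrArg (fun z => z.1.1) e
      have e2 : f z.1 * z.2 = f z'.1 * z'.2 := congrArg (fun z => z.2.1) e
      rw [e2] at e1
      have e3 : z.1 = z'.1 := Subtype.ext (inv_injective (mul_right_cancel e1))
      rw [e3] at e2
      exact Prod.ext e3 (Subtype.ext (mul_left_cancel e2))

end Pool.Agent.Work.MP_11a08a_al.Lin
end

-- merged part: Pool.Agent.Work.MP_11a08a_al.Lin.K1
section
/-!
`j = s + 81`, `s' = 4 j`, `k = 2000 + 2 j (2 j + 3) + 4 j`.  `U₁ ≤ U` from item 3 of `hR` with `39`, `U₀ = perp U₁`, `80 ≤ dim U₀ ≤ s + 80`, `rk U₀ ≥ 40`.  `A U₀` and `A U₁` commute (lemma: if `a` fixes `perp X` pointwise with `a v - v ∈ X`, and `y` fixes `X` pointwise with `y v - v ∈ perp X`, then `a y = y a`).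
`H = trp R (A U₀)` commutes with `trp R (A U₁) ≤ A ⊤`, and `card (A ⊤) ≤ q ^ ((s + 80) rk + 1024) * card (A U₁) ≤ q ^ ((s + 80) rk + 1026) * card (trp R (A U₁))` (`hI` with a homogeneous basis of `U₀`, `hT`, `hN` for `⊤`).  `hS` gives `T`; item 7 of `hB` gives `U' ≤ perp T` of codimension at most `4 j`.
`H` fixes `perp T` pointwise (`β (y u - u) v = β u (y⁻¹ v - v)`), so `A U'` commutes with `H`.  `N = trp (swp R) (A U')` commutes with `A U₀`, so fixes `U₀` (`hN`), `N ≤ OU U₁`.  `M = N ⊓ A U₁` is normal in `N` with `card N ≤ q ^ 1024 * card M`; the last item of `hT` and item 2 of `hN` give `M = N`.  Apply `trp R`.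
-/

set_option autoImplicit false

open Module
open scoped commutatorElement

namespace Pool.Agent.Work.MP_11a08a_al.Lin

theorem k1_comm {K V : Type} [Field K] [AddCommGroup V] [Module K V] {X Y : Submodule K V}
    {a y : V ≃ₗ[K] V} (a1 : ∀ v ∈ Y, a v = v) (a2 : ∀ v, a v - v ∈ X) (y1 : ∀ v ∈ X, y v = v)
    (y2 : ∀ v, y v - v ∈ Y) : a * y = y * a := by
  ext v
  have h1 := a1 _ (y2 v)
  have h2 := y1 _ (a2 v)
  rw [map_sub] at h1 h2
  change a (y v) = y (a v)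
  rw [sub_eq_iff_eq_add] at h1 h2
  rw [h1, h2]
  abel

theorem k1_card {G : Type} [Group G] [Finite G] {N A O : Subgroup G} {c : ℕ} (hN : N ≤ O)
    (hA : A ≤ O) (h : Nat.card O ≤ c * Nat.card A) : Nat.card N ≤ c * Nat.card ↥(N ⊓ A) := by
  have h1 : A.relIndex O * Nat.card A = Nat.card O := by
    have := (A.subgroupOf O).index_mul_card
    rwa [Nat.card_congr (Subgroup.subgroupOfEquivOfLe hA).toEquiv] at this
  have h2 : A.relIndex N * Nat.card ↥(N ⊓ A) = Nat.card N := by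
    have := ((N ⊓ A).subgroupOf N).index_mul_card
    rw [Nat.card_congr (Subgroup.subgroupOfEquivOfLe (inf_le_left : N ⊓ A ≤ N)).toEquiv] at this
    rw [← this, ← Subgroup.inf_relIndex_left]
    rfl
  have h3 : A.relIndex N ≤ A.relIndex O :=
    Subgroup.relIndex_le_of_le_right hN Subgroup.index_ne_zero_of_finite
  have h4 : A.relIndex O ≤ c := Nat.le_of_mul_le_mul_right (h1 ▸ h) Nat.card_pos
  rw [← h2]
  exact Nat.mul_le_mul_right _ (h3.trans h4)

theorem k1_num {s c r : ℕ} (hk : 2000 + c + 4 * (s + 81) ≤ r) (d : ℕ) (hd : d ≤ s + 80) :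
    d * r + 1024 + 2 + c < (s + 81) * r := by
  have a5 := Nat.mul_le_mul_right r hd
  have a6 : (s + 81) * r = (s + 80) * r + r := Nat.succ_mul _ _
  rw [a6]
  clear a6
  generalize (s + 80) * r = e at a5 ⊢
  generalize d * r = e' at a5 ⊢
  omega

theorem k1_num' {s c r : ℕ} (hk : 2000 + c + 4 * (s + 81) ≤ r) :
    4 * (s + 81) + 13 ≤ r ∧ 4 * s + 400 ≤ r ∧
      ∀ r' d n : ℕ, r + d ≤ r' + n → n ≤ d + 4 * (s + 81) → 1024 + 7 ≤ r' :=
  ⟨by linarith [Nat.zero_le c], by linarith [Nat.zero_le c],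
    fun _ _ _ _ _ => by linarith [Nat.zero_le c]⟩

theorem k1_fix {K V : Type} [Field K] [AddCommGroup V] [Module K V] (p : Polar K V)
    {H : Subgroup (V ≃ₗ[K] V)} (hH : H ≤ p.O) {T : Submodule K V}
    (hT : ∀ y ∈ H, ∀ v, y v - v ∈ T) {y : V ≃ₗ[K] V} (hy : y ∈ H) {u : V} (hu : u ∈ p.perp T) :
    y u = u := by
  refine sub_eq_zero.1 (p.nd _ fun v => ?_)
  change p.β (y u - u) v = 0
  have h1 := (hH hy).1 u (y.symm v)
  rw [LinearEquiv.apply_symm_apply] at h1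
  have h2 : p.β u (y.symm v - v) = 0 := hu _ (hT _ (H.inv_mem hy) v)
  rw [p.β_sub_left, h1, ← p.β_sub_right, h2]

theorem k1 (hB : StmtPB) (hE : StmtPE) (hR : StmtRL) (hI : StmtIX) (hQ : StmtQS) (hT : StmtTrp)
    (hN : StmtNoS) (hS : StmtSup) : StmtK1 := by
  intro s
  refine ⟨4 * (s + 81), 2000 + 2 * (s + 81) * (2 * (s + 81) + 3) + 4 * (s + 81), ?_⟩
  intro K V _ _ _ _ _ p R hk hC U hU hs
  have : Finite V := Module.finite_of_finite K
  have : Finite (V ≃ₗ[K] V) := Finite.of_injective _ DFunLike.coe_injective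
  obtain ⟨-, b2, b3, -, b5, b6, b7, b8, -⟩ := hB K V p
  obtain ⟨-, -, -, -, -, -, -, -, e9, e10, e11⟩ := hE K V p
  obtain ⟨hk0, hk1, hk3⟩ := k1_num' hk
  have hk2 := k1_num hk
  clear hk
  have hAO : p.A ⊤ ≤ p.O := fun x hx => ((e10 ⊤).1 hx).1
  have hUr := (b6 U hU).2.2.2.2.1
  obtain ⟨U₁, hle, hU₁, hd₁, -⟩ := (hR K V p U hU).2.2 39 (by omega)
  have hUn : finrank K U ≤ finrank K V := Submodule.finrank_le U
  have hU₀ : p.Nd (p.perp U₁) := (b6 U₁ hU₁).2.1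
  have hd₀ := (b2 U₁).1
  have hr₀ : 40 ≤ p.rk (p.perp U₁) := by
    have := (b6 _ hU₀).2.2.2.1
    omega
  have hr₁ := (b6 U₁ hU₁).2.2.2.2.1
  have q₀ := (hQ K V p _ hU₀ hr₀).2.2.1
  have q₁ := (hQ K V p _ hU₁ (by omega)).2.2.1
  obtain ⟨t1, t2, t3, -, t5⟩ := hT _ _ R hC
  obtain ⟨-, -, -, -, t5'⟩ := hT _ _ (swp R) t1
  obtain ⟨h1, h2, h3, -, -, -, h7, -⟩ := t5 _ (e9 (p.perp U₁) ⊤ le_top) q₀
  obtain ⟨g1, -, -, -, -, g6, -, -⟩ := t5 _ (e9 U₁ ⊤ le_top) q₁
  have c01 : ∀ x ∈ p.A (p.perp U₁), ∀ x' ∈ p.A U₁, x * x' = x' * x := fun x hx x' hx' =>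
    k1_comm (X := p.perp U₁) (Y := U₁)
      (fun v hv => ((e10 _).1 hx).2 v (by rw [(b2 U₁).2]; exact hv)) ((e10 _).2 x hx)
      ((e10 _).1 hx').2 ((e10 _).2 x' hx')
  have hle₁ : trp R (p.A U₁) ≤
      p.A ⊤ ⊓ Subgroup.centralizer (trp R (p.A (p.perp U₁)) : Set (V ≃ₗ[K] V)) :=
    le_inf g1 fun y hy => Subgroup.mem_centralizer_iff.2 fun x hx =>
      h7 _ (e9 U₁ ⊤ le_top) q₁ c01 x hx y hy
  obtain ⟨d, sv, v, v1, -, v3, v4⟩ := b8 ⊥ (p.perp U₁) (fun _ hx => by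
    rw [Submodule.mem_bot] at hx
    exact hx ▸ zero_mem _) hU₀.1 bot_le
  rw [finrank_bot] at v4
  have n1 := (hN K V p ⊤ b5 (by omega)).1
  have hq : 1 < Nat.card K := Finite.one_lt_card
  obtain ⟨T, T1, T2, T3⟩ := hS K V p _ (s + 81) (h1.trans hAO) h2 hk0 (by
    have a1 : Nat.card (p.A U₁) ≤ Nat.card K ^ 2 * Nat.card (trp R (p.A U₁)) :=
      g6.trans (Nat.mul_le_mul_right _ n1)
    have a2 := Subgroup.card_le_of_le hle₁
    have a3 : 0 < Nat.card (trp R (p.A U₁)) := Nat.card_pos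
    have a4 := hk2 d (by omega)
    have i3 := (hI K V p U₁ hU₁).2.2 (p.A ⊤) ⊥ d sv v hAO (fun h _ r hr => by
      rw [Submodule.mem_bot] at hr
      rw [hr, map_zero]) v1.1 v3
    calc _ ≤ Nat.card K ^ (d * p.rk ⊤ + 1024) * (Nat.card K ^ 2 * Nat.card (trp R (p.A U₁))) *
          Nat.card K ^ (2 * (s + 81) * (2 * (s + 81) + 3)) :=
          Nat.mul_le_mul_right _ (i3.trans (Nat.mul_le_mul_left _ a1))
      _ = Nat.card K ^ (d * p.rk ⊤ + 1024 + 2 + 2 * (s + 81) * (2 * (s + 81) + 3)) *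
          Nat.card (trp R (p.A U₁)) := by
          rw [pow_add _ (d * p.rk ⊤ + 1024 + 2), pow_add _ (d * p.rk ⊤ + 1024)]
          ac_rfl
      _ < Nat.card K ^ ((s + 81) * p.rk ⊤) * Nat.card (trp R (p.A U₁)) :=
          Nat.mul_lt_mul_of_pos_right (Nat.pow_lt_pow_right hq a4) a3
      _ ≤ _ := Nat.mul_le_mul_left _ a2)
  obtain ⟨U', hU'T, hU', hd'⟩ := b7 _ (b3 T T T1).1
  have hdT := (b2 T).1
  have hr' := (b6 U' hU').2.2.2.2.1
  have hd2 : finrank K V ≤ finrank K U' + 4 * (s + 81) := by omega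
  refine ⟨U', hU', hd2, ?_⟩
  have hr2 := hk3 _ _ _ hr' hd2
  have hr3 : 40 ≤ p.rk U' := le_trans (by norm_num) hr2
  have q' := (hQ K V p _ hU' hr3).2.2.1
  have c' : ∀ x ∈ p.A U', ∀ x' ∈ trp R (p.A (p.perp U₁)), x * x' = x' * x := fun x hx x' hx' =>
    k1_comm (X := p.perp T) (Y := T)
      (fun v hv => ((e10 _).1 hx).2 v fun u hu => p.β_comm.1 (hU'T hu v hv))
      (fun v => hU'T ((e10 _).2 x hx v)) (fun v hv => k1_fix p (h1.trans hAO) T3 hx' hv)
      (T3 x' hx')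
  obtain ⟨f1, f2, f3, -, -, -, f7, f8⟩ := t5' _ (e9 U' ⊤ le_top) q'
  have c2 := f7 _ h1 h2 c'
  rw [h3] at c2
  have hNO : trp (swp R) (p.A U') ≤ p.OU U₁ := fun x hx =>
    ⟨hAO (f1 hx), (hN K V p _ hU₀ hr₀).2.2.2.2 _ (f1.trans hAO) f2 c2 x hx⟩
  obtain ⟨i1, i2, -⟩ := hI K V p U₁ hU₁
  have hc := k1_card hNO (e10 U₁).1 i2
  obtain ⟨M', m1, m2, m3, m4, -⟩ := f8 (trp (swp R) (p.A U') ⊓ p.A U₁) inf_le_left
    fun a ha x hx => ⟨Subgroup.mul_mem _ (Subgroup.mul_mem _ ha hx.1) (Subgroup.inv_mem _ ha),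
      e11 U₁ a (hNO ha).1 (i1 a (hNO ha)) x hx.2⟩
  have m5 : Nat.card (p.A U') ≤ Nat.card K ^ 1024 * Nat.card M' := by
    refine Nat.le_of_mul_le_mul_right (m4.trans ?_)
      (Nat.card_pos (α := ↥(trp (swp R) (p.A U') ⊓ p.A U₁)))
    rw [mul_comm (Nat.card K ^ 1024), mul_assoc]
    exact Nat.mul_le_mul_left _ hc
  have m6 := m3 ((hN K V p U' hU' hr3).2.1 1024 M' hr2 m1 m2 m5)
  have m7 : trp (swp R) (p.A U') ≤ p.A U := (m6.symm.le.trans inf_le_right).trans (e9 _ _ hle)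
  rw [t2] at f3
  rw [← f3]
  exact t3 _ _ m7

end Pool.Agent.Work.MP_11a08a_al.Lin
end

-- merged part: Pool.Agent.Work.MP_11a08a_al.Lin.K3
section
/-!
`s', k₁` from `h1` for `4`, `c = 1024 + 44`, `c' = 1024 + s' (2 s' + 3)`, `k = k₁ + c + c' + 10 s' + 100`.  Lemma, for every `Crs (A ⊤) R` and `T`: `B' = trp R (BR T)` has `dim (Fix B') = dim T` and `B' ≤ BR (Fix B')`.
With `U₁` from `hBR`, `U'` from `h1`: `Ncl (A U') B'`, because for `M` normal in `B'` containing `A U'` the group `M'` of `hT` contains `N = trp (swp R) (A U') ≤ A U₁`, perfect and nontrivial, so `A U₁` (`hN`), so `M' = BR T`.  Compare the two pairs of inequalities of `h2` with `card B ≤ q ^ 2 card B'`, `card B' ≤ q ^ 2 card B`.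
Apply the lemma to `swp R` and `T' = Fix B'`: `B'' = trp (swp R) (BR T') ≥ BR T` has `Fix B'' ≤ T` of the same dimension, so `B'' ≤ BR T`, `B'' = BR T`, and `trp R B'' = BR T'`.
-/

set_option autoImplicit false

open Module
open scoped commutatorElement

namespace Pool.Agent.Work.MP_11a08a_al.Lin

theorem k3_num {q n t t' c c' a b b' : ℕ} (hq : 2 ≤ q) (hb : 0 < b) (hn : c + c' + 2 < n)
    (h1 : q ^ (t * n) * b ≤ q ^ c * a) (h2 : a ≤ q ^ (t' * n + c') * b') (h3 : b' ≤ q ^ 2 * b) :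
    t ≤ t' := by
  have h4 : q ^ (t * n) * b ≤ q ^ (c + (t' * n + c') + 2) * b := by
    calc q ^ (t * n) * b ≤ q ^ c * (q ^ (t' * n + c') * (q ^ 2 * b)) :=
          h1.trans (Nat.mul_le_mul_left _ (h2.trans (Nat.mul_le_mul_left _ h3)))
      _ = _ := by ring
  have h5 := (Nat.pow_le_pow_iff_right hq).1 (Nat.le_of_mul_le_mul_right h4 hb)
  by_contra h6
  have h7 : (t' + 1) * n ≤ t * n := Nat.mul_le_mul_right _ (by omega)
  rw [add_mul, one_mul] at h7
  omega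

theorem k3_ncl {G : Type} [Group G] [Finite G] (hT : StmtTrp) {A B A₁ A' : Subgroup G}
    {R : Subgroup (G × G)} (hR : Crs A R) (hB : B ≤ A) (pB : ⁅B, B⁆ = B) (p1 : ⁅A₁, A₁⁆ = A₁)
    (p' : ⁅A', A'⁆ = A') (n' : A' ≠ ⊥) (h1 : Ncl A₁ B) (h2 : A' ≤ trp R A₁)
    (h3 : ∀ N ≤ A₁, ⁅N, N⁆ = N → N ≠ ⊥ → Ncl N A₁) : Ncl A' (trp R B) := by
  obtain ⟨hR', -, mono, -, main⟩ := hT G A R hR
  obtain ⟨-, -, mono', -, main'⟩ := hT G A _ hR'
  have l1 : A' ≤ trp R B := h2.trans (mono _ _ h1.1)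
  obtain ⟨l2, -, -, -, -, -, -, nrm⟩ := main B hB pB
  refine ⟨l1, fun M m1 m2 m3 => ?_⟩
  obtain ⟨M', a1, a2, a3, -, a4⟩ := nrm M m2 m3
  obtain ⟨-, b1, -, b2, b3, -⟩ := main' A' (l1.trans l2) p'
  have b4 : trp (swp R) A' ≤ A₁ :=
    (mono' _ _ h2).trans (main A₁ (h1.1.trans hB) p1).2.2.1.le
  have b5 : trp (swp R) A' ≠ ⊥ := fun e => n' (by
    rw [← p', Subgroup.commutator_eq_bot_iff_le_centralizer]
    intro x hx
    obtain ⟨y, hy, hxy⟩ := b2 x hx
    rw [e, Subgroup.mem_bot] at hy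
    rw [hy] at hxy
    exact Subgroup.centralizer_le (l1.trans l2) ((hR'.kl x ((l1.trans l2) hx)).1 hxy))
  have b6 := (h3 _ b4 b1 b5).2 (M' ⊓ A₁) (le_inf (fun y hy => ?_) b4) inf_le_right
    fun b hb x hx => ⟨a2 b (h1.1 hb) x hx.1, A₁.mul_mem (A₁.mul_mem hb hx.2) (A₁.inv_mem hb)⟩
  · exact a3 (h1.2 M' (b6 ▸ inf_le_left) a1 a2)
  · obtain ⟨x, hx, hxy⟩ := b3 y hy
    exact a4 y (h1.1 (b4 hy)) x (m1 hx) hxy

theorem k3 (hB : StmtPB) (hE : StmtPE) (hQ : StmtQS) (hT : StmtTrp) (hN : StmtNoS) (h1 : StmtK1)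
    (h2 : StmtK2) (hBR : StmtBR) : StmtK3 := by
  obtain ⟨s', k₁, h1⟩ := h1 4
  refine ⟨k₁ + (1024 + 4 * (2 * 4 + 3)) + (1024 + s' * (2 * s' + 3)) + 10 * s' + 100, ?_⟩
  intro K V _ _ _ _ _ p R hk
  have : Finite V := Module.finite_of_finite K
  have : Finite (V ≃ₗ[K] V) := DFunLike.finite _
  have hq : 2 ≤ Nat.card K := Finite.one_lt_card
  obtain ⟨-, -, -, -, ndt, hU, -⟩ := hB K V p
  obtain ⟨-, -, -, -, -, -, -, -, -, hO, -⟩ := hE K V p
  have hO' : p.A ⊤ ≤ p.O := fun x hx => ((hO ⊤).1 hx).1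
  have hZ := (hN K V p ⊤ ndt (by omega)).1
  have key : ∀ R : Subgroup ((V ≃ₗ[K] V) × (V ≃ₗ[K] V)), Crs (p.A ⊤) R →
      ∀ T : Submodule K V, p.Gr T → finrank K T ≤ 2 → p.Gr (Fix (trp R (p.BR T))) ∧
        finrank K (Fix (trp R (p.BR T))) = finrank K T ∧
        trp R (p.BR T) ≤ p.BR (Fix (trp R (p.BR T))) := by
    intro R hR T gT dT
    obtain ⟨a1, a2, a3, ⟨U₁, n1, d1, c1⟩, -⟩ := hBR K V p (by omega) T gT dT
    obtain ⟨U', n', d', c'⟩ := h1 K V p R (by omega) hR U₁ n1 d1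
    have r1 : 40 ≤ p.rk U₁ := by
      have := (hU U₁ n1).2.2.2.2.1
      omega
    have r' : 40 ≤ p.rk U' := by
      have := (hU U' n').2.2.2.2.1
      omega
    have ncl : Ncl (p.A U') (trp R (p.BR T)) :=
      k3_ncl hT hR a1 a2 (hQ K V p U₁ n1 r1).2.2.1 (hQ K V p U' n' r').2.2.1
        (hN K V p U' n' r').2.2.2.1 c1 c' (hN K V p U₁ n1 r1).2.2.1
    obtain ⟨hR', -, -, -, main⟩ := hT _ _ R hR
    obtain ⟨b1, b2, b3, -, -, b4, -⟩ := main _ a1 a2
    obtain ⟨-, -, -, -, -, b5, -⟩ := (hT _ _ _ hR').2.2.2.2 _ b1 b2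
    rw [b3] at b5
    obtain ⟨-, e1, e2⟩ := h2 K V p 4 U₁ _ n1 d1 (by omega) (a1.trans hO') c1
    obtain ⟨f0, f1, f2⟩ := h2 K V p s' U' _ n' d' (by omega) (b1.trans hO') ncl
    rw [a3] at e1 e2
    have g1 := k3_num hq Nat.card_pos (by omega) e1 f2
      (b5.trans (Nat.mul_le_mul_right _ hZ))
    have g2 := k3_num hq Nat.card_pos (by omega) f1 e2
      (b4.trans (Nat.mul_le_mul_right _ hZ))
    refine ⟨f0, le_antisymm g2 g1, ?_⟩
    exact (hBR K V p (by omega) _ f0 (g2.trans dT)).2.2.2.2.2.1 s' U' _ n' d' (by omega)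
      (b1.trans hO') ncl le_rfl
  intro hR T gT dT
  obtain ⟨a1, a2, a3⟩ := key R hR T gT dT
  refine ⟨_, a1, a2, ?_⟩
  obtain ⟨hR', sw, -, -, main⟩ := hT _ _ R hR
  obtain ⟨-, -, mono', -, main'⟩ := hT _ _ _ hR'
  obtain ⟨-, b2, b3⟩ := key _ hR' _ a1 (a2.le.trans dT)
  obtain ⟨c1, c2, c3, -⟩ := hBR K V p (by omega) T gT dT
  obtain ⟨d1, d2, -⟩ := hBR K V p (by omega) _ a1 (a2.le.trans dT)
  have e1 : p.BR T ≤ trp (swp R) (p.BR (Fix (trp R (p.BR T)))) :=
    (main _ c1 c2).2.2.1.ge.trans (mono' _ _ a3)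
  have e2 : Fix (trp (swp R) (p.BR (Fix (trp R (p.BR T))))) = T :=
    Submodule.eq_of_le_of_finrank_eq (fun w hw => c3.le fun y hy => hw y (e1 hy)) (b2.trans a2)
  rw [e2] at b3
  have e3 := (main' _ d1 d2).2.2.1
  rwa [sw, le_antisymm b3 e1] at e3

end Pool.Agent.Work.MP_11a08a_al.Lin
end

-- merged part: Pool.Agent.Work.MP_11a08a_al.Lin.Lam
section
/-!
Every ring endomorphism of a finite field is a power of the Frobenius map (`FiniteField.exists_forall_apply_eq_pow`, `FiniteField.bijective_frobeniusAlgHom_pow`, or the Galois group over `ZMod p` is cyclic), so two of them commute.  If `b + σ b ≠ 0` for some `b`, put `u = b / (b + σ b)`, `u + σ u = 1`; for `t + ε σ t = 0` one has `t = u t - ε σ (u t)`, so `Λ = {t | t + ε σ t = 0}`.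
Else the characteristic is 2, `σ = id`, every element is a square, and `Λ` is `⊥` or `⊤` by `stab`.
-/

set_option autoImplicit false

open Module
open scoped commutatorElement

namespace Pool.Agent.Work.MP_11a08a_al.Lin

theorem lam_pow {K : Type} [Field K] [Finite K] (f : K →+* K) : ∃ n : ℕ, ∀ a, f a = a ^ n := by
  obtain ⟨p, hp⟩ := CharP.exists K
  have : Fact p.Prime := ⟨CharP.char_is_prime K p⟩
  let _ := ZMod.algebra K p
  have hb : Function.Bijective f := Finite.injective_iff_bijective.1 f.injective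
  let g : K ≃ₐ[ZMod p] K := AlgEquiv.ofRingEquiv (f := RingEquiv.ofBijective f hb) fun x =>
    RingHom.congr_fun (Subsingleton.elim (f.comp (algebraMap (ZMod p) K)) (algebraMap (ZMod p) K)) x
  obtain ⟨i, hi⟩ := FiniteField.exists_forall_apply_eq_pow (ZMod p) p K g
  exact ⟨_, hi⟩

theorem lam : StmtLam := by
  intro K V _ _ _ _ p θ
  have h1 : ∀ a, θ (p.σ a) = p.σ (θ a) := by
    intro a
    obtain ⟨n, hn⟩ := lam_pow p.σ
    rw [hn, hn, map_pow]
  refine ⟨h1, fun t => ?_⟩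
  by_cases hb : ∃ b, b + p.σ b ≠ 0
  · obtain ⟨b, hb⟩ := hb
    have key : ∀ t, t ∈ p.Λ ↔ t + p.ε * p.σ t = 0 := by
      refine fun t => ⟨p.up t, fun ht => ?_⟩
      have h := p.low (b / (b + p.σ b) * t)
      convert h using 1
      have hb' : p.σ b + b ≠ 0 := by rwa [add_comm]
      rw [map_mul, map_div₀, map_add, p.invol]
      have e : p.ε * p.σ t = -t := by linear_combination ht
      rw [mul_left_comm, e, add_comm (p.σ b) b]
      field_simp
      ring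
    have he : θ p.ε = p.ε := by rcases p.eps with h | h <;> simp [h]
    rw [key, key, ← h1, ← he, ← map_mul, ← map_add, he, map_eq_zero_iff _ θ.injective]
  · push Not at hb
    have h2 : (2 : K) = 0 := by simpa [one_add_one_eq_two] using hb 1
    have hσ : ∀ b, p.σ b = b := fun b => by linear_combination hb b - b * h2
    have hsq : ∀ c : K, ∃ d, c = d * d := by
      have hi : Function.Injective fun d : K => d * d := by
        intro x y hxy
        have h : (x - y) * (x - y) = 0 := by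
          have h' : x * x = y * y := hxy
          linear_combination h' + (y * y - x * y) * h2
        exact sub_eq_zero.1 (mul_self_eq_zero.1 h)
      intro c
      obtain ⟨d, hd⟩ := Finite.injective_iff_surjective.1 hi c
      exact ⟨d, hd.symm⟩
    have key : ∀ a b : K, a ≠ 0 → a ∈ p.Λ → b ∈ p.Λ := by
      intro a b ha h
      obtain ⟨d, hd⟩ := hsq (b / a)
      have h3 := p.stab a h d
      rw [hσ, mul_right_comm, ← hd, div_mul_cancel₀ _ ha] at h3
      exact h3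
    by_cases ht : t = 0
    · simp [ht]
    · exact ⟨key _ _ ((map_ne_zero_iff _ θ.injective).2 ht), key _ _ ht⟩

end Pool.Agent.Work.MP_11a08a_al.Lin
end

-- merged part: Pool.Agent.Work.MP_11a08a_al.Lin.AutC
section
/-!
`R = {(x, y) | ∃ x ∈ A ⊤, y ∈ A ⊤, α (π x) = π y}` satisfies `Crs` (`hBar`: `A ⊤ ≤ D`, `bar π ⊤ = ⊤`; the centre of `Q` is trivial).  `h4`, `h5`, `h6` give `h'`.  For `x, y ∈ D` with `y h' = h' x` write `x = a k`, `a ∈ A ⊤`, `π k = 1`; `a'` with `(a, a') ∈ R`, `a' h' = h' a`; `k' = a'⁻¹ y` has `k' h' = h' k`, so commutes with `A ⊤`, and `π k' = 1`.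
-/

set_option autoImplicit false

open Module
open scoped commutatorElement

namespace Pool.Agent.Work.MP_11a08a_al.Lin

theorem autC (hE : StmtPE) (hBar : StmtBar) (h4 : StmtK4) (h5 : StmtK5) (h6 : StmtK6) : StmtAutC := by
  obtain ⟨k, h4⟩ := h4
  refine ⟨k + 100, fun K V Q _ _ _ _ _ _ p π c hk α => ?_⟩
  obtain ⟨b1, b2, b3, -⟩ := hBar K V Q p π c (by omega)
  have hs := c.simple
  have on : ∀ y : Q, ∃ x : p.D, x.1 ∈ p.A ⊤ ∧ π x = y := fun y => by
    have h : y ∈ Polar.bar π ⊤ := b3 ▸ Subgroup.mem_top y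
    exact h
  have cen : ∀ x : p.D, π x = 1 ↔ x.1 ∈ Subgroup.centralizer (p.A ⊤ : Set (V ≃ₗ[K] V)) := by
    intro x
    constructor
    · intro hx a ha
      exact congrArg Subtype.val (Subgroup.mem_center_iff.1 (c.ker hx) ⟨a, b2 ha⟩)
    · intro hx
      have h : π x ∈ Subgroup.center Q := Subgroup.mem_center_iff.2 fun y => by
        obtain ⟨a, ha, rfl⟩ := on y
        rw [← map_mul, ← map_mul]
        exact congrArg π (Subtype.ext (hx a.1 ha))
      rcases (inferInstance : (Subgroup.center Q).Normal).eq_bot_or_eq_top with h' | h'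
      · rwa [h', Subgroup.mem_bot] at h
      · obtain ⟨u, v, huv⟩ := c.nc
        exact (huv (Subgroup.mem_center_iff.1 (h' ▸ Subgroup.mem_top v) u)).elim
  let R : Subgroup ((V ≃ₗ[K] V) × (V ≃ₗ[K] V)) :=
    { carrier := {u | ∃ x y : p.D, x.1 ∈ p.A ⊤ ∧ y.1 ∈ p.A ⊤ ∧ α (π x) = π y ∧ u = (x.1, y.1)}
      one_mem' := ⟨1, 1, one_mem _, one_mem _, by simp, rfl⟩
      mul_mem' := by
        rintro _ _ ⟨x, y, hx, hy, e, rfl⟩ ⟨x', y', hx', hy', e', rfl⟩
        exact ⟨x * x', y * y', mul_mem hx hx', mul_mem hy hy', by simp [e, e'], rfl⟩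
      inv_mem' := by
        rintro _ ⟨x, y, hx, hy, e, rfl⟩
        exact ⟨x⁻¹, y⁻¹, inv_mem hx, inv_mem hy, by simp [e], rfl⟩ }
  have mem : ∀ x y : p.D, (x.1, y.1) ∈ R ↔ x.1 ∈ p.A ⊤ ∧ y.1 ∈ p.A ⊤ ∧ α (π x) = π y := by
    refine fun x y => ⟨?_, fun h => ⟨x, y, h.1, h.2.1, h.2.2, rfl⟩⟩
    rintro ⟨x', y', hx, hy, e, h⟩
    obtain rfl : x = x' := Subtype.ext (congrArg Prod.fst h)
    obtain rfl : y = y' := Subtype.ext (congrArg Prod.snd h)
    exact ⟨hx, hy, e⟩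
  have hR : Crs (p.A ⊤) R := by
    refine ⟨?_, fun x hx => ?_, fun y hy => ?_, fun x hx => ?_, fun y hy => ?_⟩
    · rintro _ ⟨x, y, hx, hy, -, rfl⟩
      exact ⟨hx, hy⟩
    · obtain ⟨y, hy, e⟩ := on (α (π ⟨x, b2 hx⟩))
      exact ⟨y.1, (mem ⟨x, b2 hx⟩ y).2 ⟨hx, hy, e.symm⟩⟩
    · obtain ⟨x, hx, e⟩ := on (α.symm (π ⟨y, b2 hy⟩))
      exact ⟨x.1, (mem x ⟨y, b2 hy⟩).2 ⟨hx, hy, by rw [e, α.apply_symm_apply]⟩⟩
    · refine (mem ⟨x, b2 hx⟩ 1).trans (Iff.trans ?_ (cen ⟨x, b2 hx⟩))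
      simp [hx]
    · refine (mem 1 ⟨y, b2 hy⟩).trans (Iff.trans ?_ (cen ⟨y, b2 hy⟩))
      simp [hy, eq_comm]
  obtain ⟨h, hh, H⟩ := h4 K V p R (by omega) hR
  obtain ⟨H1, H2⟩ := h5 K V p R h (by omega) hR hh H
  obtain ⟨h', hh', H3⟩ := h6 K V p h (by omega) hh
    (fun x hx => (H1 x hx).imp fun y hy => ⟨(hR.le hy.1).2, hy.2⟩)
    (fun y hy => (H2 y hy).imp fun x hx => ⟨(hR.le hx.1).1, hx.2⟩)
  refine ⟨h', hh', fun x y hxy => ?_⟩
  rw [H3 _ (b1 x.2) _ (b1 y.2)] at hxy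
  obtain ⟨a, ha, e⟩ := on (π x)
  obtain ⟨a', ha', e'⟩ := H1 a.1 ha
  have ha2 := (hR.le ha').2
  have e2 := ((mem a ⟨a', b2 ha2⟩).1 ha').2.2
  have k1 : π (a⁻¹ * x) = 1 := by rw [map_mul, map_inv, e, inv_mul_cancel]
  have k2 : ∀ v, (a'⁻¹ * y.1) (h v) = h ((a.1⁻¹ * x.1) v) := by
    intro v
    apply a'.injective
    rw [e', ← LinearEquiv.mul_apply, ← LinearEquiv.mul_apply, mul_inv_cancel_left,
      mul_inv_cancel_left, hxy]
  have k3 : π ((⟨a', b2 ha2⟩ : p.D)⁻¹ * y) = 1 := by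
    rw [cen]
    intro b' hb'
    obtain ⟨b, hb, e3⟩ := H2 b' hb'
    have k4 : b * (a.1⁻¹ * x.1) = a.1⁻¹ * x.1 * b := (cen _).1 k1 b (hR.le hb).1
    change b' * (a'⁻¹ * y.1) = a'⁻¹ * y.1 * b'
    ext w
    obtain ⟨v, rfl⟩ := h.surjective w
    rw [LinearEquiv.mul_apply, k2, e3, LinearEquiv.mul_apply _ b', e3, k2,
      ← LinearEquiv.mul_apply b, k4, LinearEquiv.mul_apply _ b]
  rw [map_mul, map_inv, inv_mul_eq_one] at k3
  rw [← e, e2, k3]

end Pool.Agent.Work.MP_11a08a_al.Lin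
end

-- merged part: Pool.Agent.Work.MP_11a08a_al.Lin.Aut3
section
/-!
`y = α x` has order 3 and its conjugacy class in the alternating group has as many elements as that of `x`, at most `n ^ 3` (a three-cycle `z` is determined by `(a, z a, z (z a))` for a point `a` of its support).  If `y` is not a three-cycle there are `a` in the support and `b` in the support outside `{a, y a, y (y a)}`; the six points `a, y a, y² a, b, y b, y² b` are distinct.
By item 5 of `hF` every injective six-tuple has this form for a conjugate `z` of `y`, and is determined by `(z, a, b)`; so `(n - 5) ^ 6 ≤ n.descFactorial 6 ≤ n ^ 3 * n ^ 2`, false.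
-/

set_option autoImplicit false

open Module
open scoped commutatorElement

namespace Pool.Agent.Work.MP_11a08a_al.Lin

theorem aut3_fix {n : ℕ} {x k : Equiv.Perm (Fin n)} (hx : x.IsThreeCycle) {c : Fin n}
    (hc : c ∈ x.support) (h0 : k c = c) (h1 : k (x c) = x c) (h2 : k (x (x c)) = x (x c)) :
    k * x = x * k := by
  refine Equiv.Perm.Disjoint.commute fun t => ?_
  by_cases ht : t ∈ x.support
  · left
    rw [hx.support_eq_iff_mem_support.2 hc] at ht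
    simp only [Finset.mem_insert, Finset.mem_singleton] at ht
    rcases ht with rfl | rfl | rfl <;> assumption
  · exact Or.inr (Equiv.Perm.notMem_support.1 ht)

theorem aut3_six {n : ℕ} {y : Equiv.Perm (Fin n)} (h3 : ∀ t, y (y (y t)) = t) (h1 : y ≠ 1)
    (hy : ¬ y.IsThreeCycle) :
    ∃ a b, Function.Injective ![a, y a, y (y a), b, y b, y (y b)] := by
  obtain ⟨a, ha⟩ : ∃ a, y a ≠ a := by
    by_contra! h
    exact h1 (Equiv.ext h)
  obtain ⟨b, hb, b0, b1, b2⟩ : ∃ b, y b ≠ b ∧ b ≠ a ∧ b ≠ y a ∧ b ≠ y (y a) := by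
    by_contra! h
    refine hy (card_support_eq_three_iff.1 (Finset.card_eq_three.2
      ⟨a, y a, y (y a), ha.symm, by grind, by grind, Finset.ext fun t => ?_⟩))
    simp only [Equiv.Perm.mem_support, Finset.mem_insert, Finset.mem_singleton]
    have := h t
    grind
  refine ⟨a, b, ?_⟩
  rw [← List.nodup_ofFn]
  simp only [List.ofFn_succ, List.ofFn_zero, Matrix.cons_val_zero, Matrix.cons_val_succ,
    List.nodup_cons, List.mem_cons, List.not_mem_nil, List.nodup_nil]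
  grind

theorem aut3_num {n : ℕ} (hn : 30 ≤ n) : n ^ 5 < n.descFactorial 6 := by
  refine lt_of_lt_of_le ?_ (Nat.pow_sub_le_descFactorial n 6)
  obtain ⟨m, rfl⟩ : ∃ m, n = m + 5 := ⟨n - 5, by omega⟩
  rw [show m + 5 + 1 - 6 = m by omega]
  have h1 : (5 * (m + 5)) ^ 5 ≤ (6 * m) ^ 5 := Nat.pow_le_pow_left (by omega) 5
  have h2 : 0 < m ^ 5 := Nat.pow_pos (by omega)
  have h3 : m ^ 5 * 25 ≤ m ^ 5 * m := Nat.mul_le_mul_left _ (by omega)
  rw [mul_pow, mul_pow] at h1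
  rw [pow_succ m 5]
  omega

theorem aut3 (hF : StmtAF) : StmtAut3 := by
  intro n hn α x hx
  by_contra hy
  have hx3 : x ^ 3 = 1 := Subtype.ext (by rw [← hx.orderOf]; exact pow_orderOf_eq_one _)
  have hy3 : ∀ t, (α x).1 ((α x).1 ((α x).1 t)) = t := fun t => by
    have h : (α x) ^ 3 = 1 := by rw [← map_pow, hx3, map_one]
    have h' := congrArg (fun z : alternatingGroup (Fin n) => z.1 t) h
    simpa [pow_succ] using h'
  have hy1 : (α x).1 ≠ 1 := fun h =>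
    hx.ne_one (congrArg Subtype.val ((map_eq_one_iff α α.injective).1 (Subtype.ext h)))
  obtain ⟨a, b, hab⟩ := aut3_six hy3 hy1 hy
  obtain ⟨c, hc⟩ : x.1.support.Nonempty := Finset.card_pos.1 (by rw [hx.card_support]; omega)
  have h5 := (hF n ∅ (by simp; omega)).2.2.2.2 6
  have h6 : ∀ v : Fin 6 ↪ Fin n, ∃ g : alternatingGroup (Fin n), ∀ i,
      g.1 (![a, (α x).1 a, (α x).1 ((α x).1 a), b, (α x).1 b, (α x).1 ((α x).1 b)] i) = v i :=
    fun v => (h5 _ v (by simp; omega) hab v.injective (by simp) (by simp)).imp fun _ h => h.2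
  choose g hg using h6
  have hinj : Function.Injective fun v : Fin 6 ↪ Fin n => ((α.symm (g v)).1 c,
      (α.symm (g v)).1 (x.1 c), (α.symm (g v)).1 (x.1 (x.1 c)), v 0, v 3) := by
    intro v v' e
    simp only [Prod.mk.injEq] at e
    obtain ⟨e0, e1, e2, e3, e4⟩ := e
    have k1 : (α.symm (g v'))⁻¹ * α.symm (g v) * x = x * ((α.symm (g v'))⁻¹ * α.symm (g v)) :=
      Subtype.ext (aut3_fix hx hc (Equiv.Perm.inv_eq_iff_eq.2 e0) (Equiv.Perm.inv_eq_iff_eq.2 e1)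
        (Equiv.Perm.inv_eq_iff_eq.2 e2))
    have k2 := congrArg α k1
    simp only [map_mul, map_inv, MulEquiv.apply_symm_apply] at k2
    have k3 : ∀ s t, (g v).1 s = (g v').1 t → (g v).1 ((α x).1 s) = (g v').1 ((α x).1 t) := by
      intro s t h
      have k4 := congrArg (fun z : alternatingGroup (Fin n) => z.1 s) k2
      simp only [Subgroup.coe_mul, Subgroup.coe_inv, Equiv.Perm.mul_apply] at k4
      rw [h, Equiv.Perm.inv_eq_iff_eq] at k4
      simpa using k4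
    have a0 : (g v).1 a = (g v').1 a := ((hg v 0).trans e3).trans (hg v' 0).symm
    have b0 : (g v).1 b = (g v').1 b := ((hg v 3).trans e4).trans (hg v' 3).symm
    ext1 i
    rw [← hg, ← hg]
    fin_cases i
    exacts [a0, k3 _ _ a0, k3 _ _ (k3 _ _ a0), b0, k3 _ _ b0, k3 _ _ (k3 _ _ b0)]
  have hcard := Fintype.card_le_of_injective _ hinj
  simp only [Fintype.card_embedding_eq, Fintype.card_fin, Fintype.card_prod] at hcard
  refine (aut3_num hn).not_ge (hcard.trans_eq ?_)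
  ring

end Pool.Agent.Work.MP_11a08a_al.Lin
end

-- merged part: Pool.Agent.Work.MP_11a08a_al.Lin.Kn
section
/-!
`m' = m + 30 + (2 k) ^ 2` with `k` from `hC`.  Compare `Lin/Geo`.  For `e : alternatingGroup (Fin n) ≃* Q` apply `hA` to `(e.trans α).trans e.symm`.  For a classical group compose `π` with the isomorphism of `hCl`.
-/

set_option autoImplicit false

open Module
open scoped commutatorElement

namespace Pool.Agent.Work.MP_11a08a_al.Lin

theorem kn (hB : StmtPB) (hAd : StmtAdj) (hA : StmtAutA) (hC : StmtAutC) (hCl : StmtCls) : StmtKn := by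
  intro m
  obtain ⟨k, hk⟩ := hC
  obtain ⟨-, a2, a3, a4, a5⟩ := hAd
  refine ⟨m + 30 + (2 * k) ^ 2, fun Q _ hs hn hK 𝒜 => ?_⟩
  rcases hK with hK | ⟨d, ⟨π⟩⟩ | ⟨K, V, _, _, _, _, _, O, π, hO, s1, s2⟩
  · exact Or.inl (a2 Q _ _ (by omega) hK)
  · rcases le_total d 30 with hd | hd
    · exact Or.inl (a2 Q _ _ (by omega) (a3 _ Q d π.symm.toMonoidHom π.symm.injective (a4 d)))
    · refine Or.inr (Or.inl ⟨d, π, fun α _ => ?_⟩)
      obtain ⟨t, ht⟩ := hA d hd ((π.trans α).trans π.symm)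
      exact ⟨t, fun x y h => π.symm_apply_eq.1 (ht x y h)⟩
  · obtain ⟨V', _, _, _, p, ⟨e⟩⟩ := hCl K V O hO
    have t1 : Function.Surjective (π.comp e.toMonoidHom) := s1.comp e.surjective
    have t2 : (π.comp e.toMonoidHom).ker ≤ Subgroup.center p.D := by
      intro x hx
      rw [Subgroup.mem_center_iff]
      intro y
      apply e.injective
      rw [map_mul, map_mul]
      exact Subgroup.mem_center_iff.1 (s2 hx) _
    rcases le_total (p.rk ⊤) k with hd | hd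
    · obtain ⟨-, -, -, -, b5, b6, -⟩ := hB K V' p
      have h := (b6 ⊤ b5).2.2.2.1
      rw [finrank_top] at h
      refine Or.inl (a2 Q ((2 * k) ^ 2) _ (by omega)
        (a5 K V' Q _ p.D _ ⊤ t1 t2 hs hn (fun _ _ => Submodule.mem_top) ?_))
      rw [finrank_top, Module.finrank_linearMap, sq]
      exact Nat.mul_le_mul (by omega) (by omega)
    · exact Or.inr (Or.inr ⟨K, V', _, ‹_›, _, _, ‹_›, p, _, t1, t2,
        fun α _ => hk K V' Q p _ ⟨t1, t2, hs, hn⟩ hd α⟩)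

end Pool.Agent.Work.MP_11a08a_al.Lin
end

-- merged part: Pool.Agent.Work.MP_11a08a_al.Lin.Main2
section
/-!
Assembly of the statements on automorphisms.
-/

set_option autoImplicit false

namespace Pool.Agent.Work.MP_11a08a_al.Lin

theorem knS : StmtKn :=
  have hN := noS pb pe (ss pe) wtS scS qsS
  have hBR := br pb pe (ss pe) rlS (ws pb pe rlS) wtS qsS hN
  have h3 := k3 pb pe qsS trpS hN (k1 pb pe rlS ixS qsS trpS hN (supS pb wtS))
    (k2 pb pe wtS ixS (mov pe wtS)) hBR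
  kn pb adj (autA af (aut3 af))
    (autC pe barT (k4 pb pe trpS hBR h3 ft) (k5 pb pe qsS) (k6 pb pe rlS hBR lam)) cls

end Pool.Agent.Work.MP_11a08a_al.Lin
end
end
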